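import Pool.Agent.H19VF.Places

/-! # Task A: algebraicity on the projective line (Lemma 1.1 of the paper) -/

set_option autoImplicit false

open Polynomial

universe u

namespace Pool.Agent.H19VF

/-- `s` is a point of `S ∪ {∞}`. -/
def InS {κ : Type u} (S : Finset κ) (s : Option κ) : Prop := ∀ a : κ, s = some a → a ∈ S

namespace TaskA

variable {κ : Type u} [Field κ]

lemma coeff_embC (a : LSer κ) (n : ℤ) :
    (embC (κ := κ) κ a).coeff n = algebraMap κ (RatFunc κ) (a.coeff n) := rfl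

lemma exists_order {A : Type u} [CommRing A] {b : LSer A} (hb : b ≠ 0) :
    ∃ M : ℤ, LSer.Ge M b ∧ b.coeff M ≠ 0 := by
  refine ⟨HahnSeries.order (show HahnSeries ℤ A from b), fun n hn =>
    HahnSeries.coeff_eq_zero_of_lt_order hn, fun h => hb ?_⟩
  exact HahnSeries.coeff_order_eq_zero.1 h

/-- constant coefficient as a linear map -/
noncomputable def coeff0 : LSer (RatFunc κ) →ₗ[κ] RatFunc κ where
  toFun f := f.coeff 0
  map_add' f g := LSer.coeff_add f g 0
  map_smul' r f := by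
    rw [Algebra.smul_def, LSer.algebraMap_eq, LSer.coeff_C_mul, RingHom.id_apply, Algebra.smul_def]

lemma coeff0_apply (f : LSer (RatFunc κ)) : coeff0 f = f.coeff 0 := rfl

/-- Successive approximation. -/
theorem approx (N : Submodule κ (LSer (RatFunc κ))) (H : Submodule κ (RatFunc κ))
    [FiniteDimensional κ H] (hN0 : ∀ β ∈ N, LSer.Ge 0 β)
    (hN1 : ∀ β ∈ N, β.coeff 0 = 0 → LSer.T (-1) * β ∈ N) (hH : ∀ β ∈ N, β.coeff 0 ∈ H) :
    ∃ (l : ℕ) (e : Fin l → LSer (RatFunc κ)), l ≤ Module.finrank κ H ∧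
      ∀ β ∈ N, ∃ c : Fin l → LSer κ, β = ∑ i, embC κ (c i) * e i := by
  classical
  let V : Submodule κ (RatFunc κ) := N.map coeff0
  have hV : V ≤ H := by
    rintro _ ⟨β, hβ, rfl⟩
    exact hH β hβ
  have : FiniteDimensional κ V := Submodule.finiteDimensional_of_le hV
  let B := Module.finBasis κ V
  have hex : ∀ i, ∃ f ∈ N, f.coeff 0 = (B i : RatFunc κ) := fun i => (B i).2
  choose e heN he using hex
  refine ⟨Module.finrank κ V, e, Submodule.finrank_mono hV, ?_⟩
  have hstep : ∀ β : N, ∃ (a : Fin (Module.finrank κ V) → κ) (β' : N),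
      (β : LSer (RatFunc κ)) = ∑ i, a i • e i + LSer.T 1 * (β' : LSer (RatFunc κ)) := by
    rintro ⟨β, hβ⟩
    have hβV : β.coeff 0 ∈ V := ⟨β, hβ, rfl⟩
    let a := B.repr ⟨β.coeff 0, hβV⟩
    have hsum : β.coeff 0 = ∑ i, a i • (e i).coeff 0 := by
      have h := B.sum_repr ⟨β.coeff 0, hβV⟩
      have h' := congrArg Subtype.val h
      simp only [Submodule.coe_sum, Submodule.coe_smul] at h'
      rw [← h']
      exact Finset.sum_congr rfl fun i _ => by rw [he i]
    have hmem : β - ∑ i, a i • e i ∈ N :=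
      N.sub_mem hβ (N.sum_mem fun i _ => N.smul_mem _ (heN i))
    have hc : (β - ∑ i, a i • e i).coeff 0 = 0 := by
      rw [← coeff0_apply, map_sub, map_sum]
      simp only [map_smul, coeff0_apply]
      rw [← hsum, sub_self]
    refine ⟨a, ⟨_, hN1 _ hmem hc⟩, ?_⟩
    change β = _ + LSer.T 1 * (LSer.T (-1) * _)
    rw [← mul_assoc, LSer.T_mul_T_neg, one_mul]
    abel
  choose a nx hnx using hstep
  intro β hβ
  let s : ℕ → N := fun n => nx^[n] ⟨β, hβ⟩
  have hs : ∀ n, s (n + 1) = nx (s n) := fun n => Function.iterate_succ_apply' _ _ _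
  let c : ℕ → Fin (Module.finrank κ V) → PowerSeries κ :=
    fun j i => PowerSeries.mk fun n => a (s (j + n)) i
  have hcc : ∀ j i, c j i = PowerSeries.C (a (s j) i) + PowerSeries.X * c (j + 1) i := by
    intro j i
    ext n
    cases n with
    | zero => simp [c]
    | succ n =>
      rw [map_add, PowerSeries.coeff_succ_X_mul, PowerSeries.coeff_C]
      simp [c, add_assoc, add_comm 1 n]
  let R : ℕ → LSer (RatFunc κ) := fun j =>
    (s j : LSer (RatFunc κ)) - ∑ i, embC κ (LSer.ofPS (c j i)) * e i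
  have hR : ∀ j, R j = LSer.T 1 * R (j + 1) := by
    intro j
    have h1 : (s j : LSer (RatFunc κ)) = ∑ i, a (s j) i • e i + LSer.T 1 * (s (j + 1) : LSer (RatFunc κ)) := by
      rw [hs]; exact hnx (s j)
    have h2 : ∀ i, embC κ (LSer.ofPS (c j i)) * e i = a (s j) i • e i +
        LSer.T 1 * (embC κ (LSer.ofPS (c (j + 1) i)) * e i) := by
      intro i
      rw [hcc j i, map_add, map_mul, LSer.ofPS_X, LSer.ofPS_C, map_add, map_mul, add_mul,
        Algebra.smul_def, ← mul_assoc]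
      congr 2
      · rw [embC, LSer.map_C]; rfl
      · rw [embC, LSer.map_T]
    simp only [R]
    rw [h1, Finset.sum_congr rfl (fun i _ => h2 i), Finset.sum_add_distrib, mul_sub,
      ← Finset.mul_sum]
    ring
  have hR0 : ∀ j, LSer.Ge 0 (R j) := by
    intro j
    refine (hN0 _ (s j).2).sub (LSer.Ge.sum fun i _ => ?_)
    have h := ((LSer.ge_ofPS (c j i)).map (IsScalarTower.toAlgHom κ κ (RatFunc κ))).mul
      (hN0 _ (heN i))
    rw [add_zero] at h
    exact h
  have hRJ : ∀ J : ℕ, ∀ j, LSer.Ge (J : ℤ) (R j) := by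
    intro J
    induction J with
    | zero => exact fun j => by simpa using hR0 j
    | succ J ih =>
      intro j
      rw [hR j]
      exact ((ih (j + 1)).T_mul 1).mono (by push_cast; omega)
  refine ⟨fun i => LSer.ofPS (c 0 i), ?_⟩
  have hz : R 0 = 0 := by
    ext n
    exact hRJ (n.toNat + 1) 0 n (by push_cast; omega)
  have := sub_eq_zero.1 hz
  exact this

lemma polR_inj : Function.Injective (polR (κ := κ)) := IsFractionRing.injective κ[X] (RatFunc κ)

lemma polR_ne {p : κ[X]} (hp : p ≠ 0) : polR p ≠ 0 := (map_ne_zero_iff _ polR_inj).2 hp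

/-- regular everywhere on the affine line means polynomial -/
theorem exists_pol (S : Finset κ) {g : RatFunc κ} (h0 : g ∈ regOff S)
    (h1 : ∀ s ∈ S, g ∈ regFin s) : ∃ G : κ[X], g = polR G := by
  have hdvd : ∀ {q p : κ[X]}, q ≠ 0 → g * polR q = polR p → g.denom ∣ q := by
    intro q p hq h
    rw [RatFunc.denom_dvd hq]
    exact ⟨p, by rw [eq_div_iff (polR_ne hq)]; exact h⟩
  obtain ⟨p, N, hp⟩ := h0
  have hE : (∏ s ∈ S, (X - C s) : κ[X]) ≠ 0 := Finset.prod_ne_zero_iff.2 fun s _ => X_sub_C_ne_zero s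
  rw [← map_pow] at hp
  have h2 : g.denom ∣ (∏ s ∈ S, (X - C s)) ^ N := hdvd (pow_ne_zero _ hE) hp
  have h3 : IsCoprime g.denom ((∏ s ∈ S, (X - C s)) ^ N) := by
    apply IsCoprime.pow_right
    apply IsCoprime.prod_right
    intro s hs
    obtain ⟨p', q', hq', hpq⟩ := h1 s hs
    have hq0 : q' ≠ 0 := by rintro rfl; simp at hq'
    have h4 := hdvd hq0 hpq
    have h5 : g.denom.eval s ≠ 0 := by
      intro h
      apply hq'
      obtain ⟨r, rfl⟩ := h4
      rw [eval_mul, h, zero_mul]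
    have h6 : IsCoprime (X - C s) g.denom := by
      rw [(irreducible_X_sub_C s).coprime_iff_not_dvd]
      rw [dvd_iff_isRoot]
      exact h5
    exact h6.symm
  have h7 : IsUnit g.denom := h3.isUnit_of_dvd' dvd_rfl h2
  have h8 : g.denom = 1 := (RatFunc.monic_denom g).isUnit_iff.1 h7
  refine ⟨g.num, ?_⟩
  have h9 := RatFunc.num_div_denom g
  rw [h8, map_one, div_one] at h9
  exact h9.symm

theorem embY_coeff (Q : (LSer κ)[X]) (n : ℤ) :
    (embY (κ := κ) κ Q).coeff n = polR (∑ i ∈ Q.support, C ((Q.coeff i).coeff n) * X ^ i) := by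
  have h : embY (κ := κ) κ Q = ∑ i ∈ Q.support, embC κ (Q.coeff i) * yv ^ i := by
    conv_lhs => rw [Q.as_sum_support_C_mul_X_pow]
    rw [map_sum]
    refine Finset.sum_congr rfl fun i _ => ?_
    rw [map_mul, map_pow, embY_C, embY_X]
  rw [h, LSer.coeff_sum, map_sum]
  refine Finset.sum_congr rfl fun i _ => ?_
  rw [yv, ← map_pow, mul_comm, LSer.coeff_C_mul, coeff_embC, map_mul, map_pow, mul_comm]
  congr 1

theorem embY_inj {Q : (LSer κ)[X]} (h : embY (κ := κ) κ Q = 0) : Q = 0 := by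
  ext i n
  have h1 := embY_coeff Q n
  rw [h, LSer.coeff_zero] at h1
  have h2 := polR_inj (h1.symm.trans (map_zero _).symm)
  have h3 := congrArg (fun p => p.coeff i) h2
  simp only [finsetSum_coeff, coeff_C_mul, coeff_X_pow, coeff_zero, mul_ite, mul_one, mul_zero,
    Finset.sum_ite_eq] at h3
  rw [coeff_zero, LSer.coeff_zero]
  split_ifs at h3 with h4
  · exact h3
  · rw [notMem_support_iff.1 h4]; rfl

lemma serIn_T_mul {A : Type u} [CommRing A] {O : Subring A} {f : LSer A} (h : SerIn O f) (m : ℤ) :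
    SerIn O (LSer.T m * f) := fun n => by
  rw [LSer.coeff_T_mul]; exact h _

lemma serIn_C_mul {A : Type u} [CommRing A] {O : Subring A} {f : LSer A} (h : SerIn O f) {a : A}
    (ha : a ∈ O) : SerIn O (LSer.C a * f) := fun n => by
  rw [LSer.coeff_C_mul]; exact O.mul_mem ha (h _)

lemma coeff_zero_mul {A : Type u} [CommRing A] {f g : LSer A} (hf : LSer.Ge 0 f)
    (hg : LSer.Ge 0 g) : (f * g).coeff 0 = f.coeff 0 * g.coeff 0 := by
  rw [LSer.coeff_mul hf hg]
  simp

lemma smul_eq (r : κ) (f : LSer (RatFunc κ)) : r • f = LSer.C (polR (C r)) * f := by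
  rw [Algebra.smul_def, LSer.algebraMap_eq]
  rfl

lemma exists_b (S : Finset κ) (α : LSer (RatFunc κ))
    (h1 : ∀ s : Option κ, InS S s → ∃ b : LSer (RatFunc κ), b ≠ 0 ∧ SerIn (regAt s) b ∧
      SerIn (regAt s) (b * α)) (s : Option κ) (hs : InS S s) :
    ∃ b : LSer (RatFunc κ), b.coeff 0 ≠ 0 ∧ LSer.Ge 0 b ∧ SerIn (regAt s) b ∧
      SerIn (regAt s) (b * α) := by
  obtain ⟨b, hb, hb1, hb2⟩ := h1 s hs
  obtain ⟨M, hM, hM0⟩ := exists_order hb
  refine ⟨LSer.T (-M) * b, ?_, ?_, serIn_T_mul hb1 _, ?_⟩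
  · rw [LSer.coeff_T_mul]; simpa using hM0
  · have := hM.T_mul (-M)
    rwa [neg_add_cancel] at this
  · rw [mul_assoc]; exact serIn_T_mul hb2 _

/-- the module `N` of the paper -/
noncomputable def NN (S : Finset κ) (b : Option κ → LSer (RatFunc κ)) (m : ℕ) :
    Submodule κ (LSer (RatFunc κ)) where
  carrier := {β | LSer.Ge 0 β ∧ SerIn (regOff S) β ∧
    (∀ s ∈ S, SerIn (regFin s) (b (some s) * β)) ∧
    SerIn (regInf κ) (LSer.C ((polR X)⁻¹ ^ m) * (b none * β))}
  zero_mem' := by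
    refine ⟨LSer.Ge.zero 0, fun n => Subring.zero_mem _, fun s _ n => ?_, fun n => ?_⟩
    · rw [mul_zero]; exact Subring.zero_mem _
    · rw [mul_zero, mul_zero]; exact Subring.zero_mem _
  add_mem' := by
    rintro x y ⟨hx1, hx2, hx3, hx4⟩ ⟨hy1, hy2, hy3, hy4⟩
    refine ⟨hx1.add hy1, (serSub _).add_mem hx2 hy2, fun s hs => ?_, ?_⟩
    · rw [mul_add]; exact (serSub _).add_mem (hx3 s hs) (hy3 s hs)
    · rw [mul_add, mul_add]; exact (serSub _).add_mem hx4 hy4
  smul_mem' := by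
    rintro r x ⟨hx1, hx2, hx3, hx4⟩
    rw [smul_eq]
    refine ⟨?_, serIn_C_mul hx2 (polR_mem_regOff _ _), fun s hs => ?_, ?_⟩
    · have := (LSer.ge_C (polR (C r))).mul hx1
      rwa [add_zero] at this
    · rw [mul_left_comm]; exact serIn_C_mul (hx3 s hs) (polR_mem_regFin _ _)
    · rw [mul_left_comm (b none), mul_left_comm (LSer.C ((polR X)⁻¹ ^ m))]
      exact serIn_C_mul hx4 (polR_C_mem none r)

lemma mem_NN {S : Finset κ} {b : Option κ → LSer (RatFunc κ)} {m : ℕ} {β : LSer (RatFunc κ)} :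
    β ∈ NN S b m ↔ LSer.Ge 0 β ∧ SerIn (regOff S) β ∧
    (∀ s ∈ S, SerIn (regFin s) (b (some s) * β)) ∧
    SerIn (regInf κ) (LSer.C ((polR X)⁻¹ ^ m) * (b none * β)) := Iff.rfl

lemma NN_div {S : Finset κ} {b : Option κ → LSer (RatFunc κ)} {m : ℕ} {β : LSer (RatFunc κ)}
    (hβ : β ∈ NN S b m) (h0 : β.coeff 0 = 0) : LSer.T (-1) * β ∈ NN S b m := by
  obtain ⟨h1, h2, h3, h4⟩ := hβ
  refine ⟨fun n hn => ?_, serIn_T_mul h2 _, fun s hs => ?_, ?_⟩
  · rw [LSer.coeff_T_mul]
    rcases eq_or_ne n (-1) with rfl | hne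
    · simpa using h0
    · exact h1 _ (by omega)
  · rw [mul_left_comm]; exact serIn_T_mul (h3 s hs) _
  · rw [mul_left_comm (b none), mul_left_comm (LSer.C ((polR X)⁻¹ ^ m))]
    exact serIn_T_mul h4 _

lemma inv_pow_mem (j : ℕ) : ((polR X : RatFunc κ)⁻¹ ^ j) ∈ regInf κ := by
  have h : (polR X : RatFunc κ)⁻¹ ∈ regInf κ := ⟨1, X, X_ne_zero, by simp, by
    rw [inv_mul_cancel₀ (polR_ne X_ne_zero), map_one]⟩
  exact Subring.pow_mem _ h j

lemma NN_pow {S : Finset κ} {b : Option κ → LSer (RatFunc κ)} {m : ℕ} {β : LSer (RatFunc κ)}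
    (h1 : LSer.Ge 0 β) (h2 : SerIn (regOff S) β)
    (h3 : ∀ s ∈ S, SerIn (regFin s) (b (some s) * β)) (h4 : SerIn (regInf κ) (b none * β))
    (i : ℕ) (hi : i ≤ m) : LSer.C (polR (X ^ i)) * β ∈ NN S b m := by
  refine ⟨?_, serIn_C_mul h2 (polR_mem_regOff _ _), fun s hs => ?_, ?_⟩
  · have := (LSer.ge_C (polR (κ := κ) (X ^ i))).mul h1
    rwa [add_zero] at this
  · rw [mul_left_comm]; exact serIn_C_mul (h3 s hs) (polR_mem_regFin _ _)
  · rw [mul_left_comm (b none), ← mul_assoc, ← map_mul]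
    refine serIn_C_mul h4 ?_
    have : (polR X : RatFunc κ)⁻¹ ^ m * polR (X ^ i) = (polR X)⁻¹ ^ (m - i) := by
      have hX := polR_ne (κ := κ) X_ne_zero
      rw [map_pow]
      obtain ⟨d, rfl⟩ := Nat.exists_eq_add_of_le hi
      rw [Nat.add_sub_cancel_left, add_comm, pow_add, mul_assoc, ← mul_pow, inv_mul_cancel₀ hX,
        one_pow, mul_one]
    rw [this]
    exact inv_pow_mem _

/-- the map `G ↦ G / D` -/
noncomputable def divD (D : κ[X]) : κ[X] →ₗ[κ] RatFunc κ :=
  (LinearMap.mulRight κ ((polR D)⁻¹ : RatFunc κ)) ∘ₗ (IsScalarTower.toAlgHom κ κ[X] (RatFunc κ)).toLinearMap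

lemma divD_apply (D G : κ[X]) : divD D G = polR G * (polR D)⁻¹ := rfl

/-- the constant terms are in a finite dimensional space -/
lemma NN_coeff {S : Finset κ} {b : Option κ → LSer (RatFunc κ)} 
    (hb0 : ∀ s : Option κ, InS S s → (b s).coeff 0 ≠ 0)
    (hb1 : ∀ s : Option κ, InS S s → LSer.Ge 0 (b s))
    (hb2 : ∀ s : Option κ, InS S s → SerIn (regAt s) (b s)) :
    ∃ (D : κ[X]) (M : ℕ), ∀ m : ℕ, ∀ β ∈ NN S b m, β.coeff 0 ∈
      (degreeLT κ (M + m + 1)).map (divD D) := by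
  classical
  have hS : ∀ s ∈ S, InS S (some s) := fun s hs a ha => by
    rw [← Option.some_injective _ ha]; exact hs
  have hI : InS S none := fun a ha => by simp at ha
  have hP : ∀ s : κ, ∃ p : κ[X], s ∈ S → p ≠ 0 ∧ ∃ q : κ[X], (b (some s)).coeff 0 * polR q = polR p := by
    intro s
    by_cases hs : s ∈ S
    · obtain ⟨p, q, hq, h⟩ := hb2 (some s) (hS s hs) 0
      refine ⟨p, fun _ => ⟨?_, q, h⟩⟩
      rintro rfl
      rw [map_zero] at h
      have hq0 : q ≠ 0 := by rintro rfl; simp at hq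
      exact (mul_ne_zero (hb0 _ (hS s hs)) (polR_ne hq0)) h
    · exact ⟨0, fun h => absurd h hs⟩
  choose p hp using hP
  obtain ⟨pi, qi, hqi, -, hpi⟩ := hb2 none hI 0
  have hpi0 : pi ≠ 0 := by
    rintro rfl
    rw [map_zero] at hpi
    exact (mul_ne_zero (hb0 _ hI) (polR_ne hqi)) hpi
  set D : κ[X] := ∏ s ∈ S, p s with hD
  have hD0 : D ≠ 0 := Finset.prod_ne_zero_iff.2 fun s hs => (hp s hs).1
  refine ⟨D, qi.natDegree + D.natDegree, fun m β hβ => ?_⟩
  obtain ⟨h1, h2, h3, h4⟩ := hβ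
  have hG : ∃ G : κ[X], polR D * β.coeff 0 = polR G := by
    apply exists_pol S
    · exact Subring.mul_mem _ (polR_mem_regOff _ _) (h2 0)
    · intro s hs
      obtain ⟨hps, q, hq⟩ := hp s hs
      have h5 := h3 s hs 0
      rw [coeff_zero_mul (hb1 _ (hS s hs)) h1] at h5
      rw [hD, ← Finset.prod_erase_mul _ _ hs, map_mul, ← hq, mul_assoc]
      refine Subring.mul_mem _ (polR_mem_regFin _ _) ?_
      rw [mul_right_comm]
      exact Subring.mul_mem _ h5 (polR_mem_regFin _ _)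
  obtain ⟨G, hG⟩ := hG
  refine ⟨G, ?_, ?_⟩
  · rw [SetLike.mem_coe, mem_degreeLT]
    by_cases hG0 : G = 0
    · rw [hG0, degree_zero]; exact WithBot.bot_lt_coe _
    rw [degree_eq_natDegree hG0]
    have h5 := h4 0
    rw [LSer.coeff_C_mul, coeff_zero_mul (hb1 _ hI) h1] at h5
    obtain ⟨P, Q, hQ, hdeg, hPQ⟩ := h5
    have hX := polR_ne (κ := κ) X_ne_zero
    have h6 : pi * G * Q = P * qi * D * X ^ m := by
      apply polR_inj
      simp only [map_mul, map_pow]
      rw [← hPQ, ← hpi, ← hG]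
      have : (polR X : RatFunc κ)⁻¹ ^ m * polR X ^ m = 1 := by
        rw [← mul_pow, inv_mul_cancel₀ hX, one_pow]
      linear_combination (-(b none).coeff 0 * polR qi * polR D * β.coeff 0 * polR Q) * this
    have h7 := congrArg natDegree h6
    rw [natDegree_mul (mul_ne_zero hpi0 hG0) hQ, natDegree_mul hpi0 hG0] at h7
    have h8 : (P * qi * D * X ^ m).natDegree ≤ P.natDegree + qi.natDegree + D.natDegree + m := by
      refine natDegree_mul_le.trans ?_
      rw [natDegree_X_pow]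
      have := (natDegree_mul_le (p := P * qi) (q := D)).trans
        (Nat.add_le_add_right (natDegree_mul_le (p := P) (q := qi)) _)
      omega
    have : G.natDegree < qi.natDegree + D.natDegree + m + 1 := by omega
    exact_mod_cast this
  · rw [divD_apply, ← hG, mul_comm, ← mul_assoc, inv_mul_cancel₀ (polR_ne hD0), one_mul]

theorem algebraicity0 (S : Finset κ) (α : LSer (RatFunc κ)) (hα : LSer.Ge 0 α)
    (h0 : SerIn (regOff S) α)
    (h1 : ∀ s : Option κ, InS S s → ∃ b : LSer (RatFunc κ), b ≠ 0 ∧ SerIn (regAt s) b ∧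
      SerIn (regAt s) (b * α)) :
    ∃ P Q : (LSer κ)[X], Q ≠ 0 ∧ embY κ Q * α = embY κ P := by
  classical
  have hb : ∀ s : Option κ, ∃ b : LSer (RatFunc κ), InS S s → b.coeff 0 ≠ 0 ∧ LSer.Ge 0 b ∧
      SerIn (regAt s) b ∧ SerIn (regAt s) (b * α) := by
    intro s
    by_cases hs : InS S s
    · obtain ⟨b, hb⟩ := exists_b S α h1 s hs
      exact ⟨b, fun _ => hb⟩
    · exact ⟨0, fun h => absurd h hs⟩
  choose b hb using hb
  have hS : ∀ s ∈ S, InS S (some s) := fun s hs a ha => by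
    rw [← Option.some_injective _ ha]; exact hs
  have hI : InS S none := fun a ha => by simp at ha
  obtain ⟨D, M, hDM⟩ := NN_coeff (S := S) (b := b) (fun s hs => (hb s hs).1)
    (fun s hs => (hb s hs).2.1) (fun s hs => (hb s hs).2.2.1)
  obtain ⟨l, e, hl, he⟩ := approx (NN S b M) ((degreeLT κ (M + M + 1)).map (divD D))
    (fun β hβ => hβ.1) (fun β hβ h => NN_div hβ h) (hDM M)
  have hl' : l ≤ M + M + 1 := by
    refine hl.trans ((Submodule.finrank_map_le _ _).trans ?_)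
    rw [(degreeLTEquiv κ (M + M + 1)).finrank_eq]
    simp
  let v : Fin (M + 1) ⊕ Fin (M + 1) → LSer (RatFunc κ) :=
    Sum.elim (fun i => LSer.C (polR (X ^ (i : ℕ))) * α) (fun i => LSer.C (polR (X ^ (i : ℕ))) * 1)
  have hv : ∀ j, v j ∈ NN S b M := by
    rintro (i | i)
    · exact NN_pow hα h0 (fun s hs => (hb _ (hS s hs)).2.2.2) (hb _ hI).2.2.2 _ (by omega)
    · refine NN_pow LSer.ge_one (fun n => (serSub (regOff S)).one_mem n) (fun s hs => ?_) ?_ _
        (by omega)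
      · rw [mul_one]; exact (hb _ (hS s hs)).2.2.1
      · rw [mul_one]; exact (hb _ hI).2.2.1
  choose c hc using fun j => he (v j) (hv j)
  let φ : (Fin (M + 1) ⊕ Fin (M + 1) → LSer κ) →ₗ[LSer κ] (Fin l → LSer κ) :=
    Matrix.vecMulLinear (Matrix.of c)
  have hker : LinearMap.ker φ ≠ ⊥ := by
    apply LinearMap.ker_ne_bot_of_finrank_lt
    simp
    omega
  obtain ⟨q, hq, hq0⟩ := Submodule.exists_mem_ne_zero_of_ne_bot hker
  have hφ : ∀ i, ∑ j, q j * c j i = 0 := fun i => congrFun (LinearMap.mem_ker.1 hq) i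
  have hsum : ∑ j, embC (κ := κ) κ (q j) * v j = 0 := by
    calc ∑ j, embC (κ := κ) κ (q j) * v j
        = ∑ j, ∑ i, embC κ (q j * c j i) * e i := by
          refine Finset.sum_congr rfl fun j _ => ?_
          rw [hc j, Finset.mul_sum]
          refine Finset.sum_congr rfl fun i _ => ?_
          rw [map_mul, mul_assoc]
      _ = ∑ i, embC κ (∑ j, q j * c j i) * e i := by
          rw [Finset.sum_comm]
          refine Finset.sum_congr rfl fun i _ => ?_
          rw [map_sum, Finset.sum_mul]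
      _ = 0 := by
          refine Finset.sum_eq_zero fun i _ => ?_
          rw [hφ i, map_zero, zero_mul]
  have hcoef : ∀ (r : Fin (M + 1) → LSer κ), ∑ i, C (r i) * X ^ (i : ℕ) = 0 → r = 0 := by
    intro r hr
    funext j
    have := congrArg (fun p => p.coeff (j : ℕ)) hr
    simp only [finsetSum_coeff, coeff_C_mul, coeff_X_pow, coeff_zero, mul_ite, mul_one,
      mul_zero] at this
    rw [Finset.sum_eq_single j] at this
    · simpa using this
    · intro i _ hi
      rw [if_neg]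
      intro h
      exact hi (Fin.ext h.symm)
    · intro h; exact absurd (Finset.mem_univ _) h
  have hemb : ∀ (r : Fin (M + 1) → LSer κ), embY (κ := κ) κ (∑ i, C (r i) * X ^ (i : ℕ)) =
      ∑ i, embC κ (r i) * LSer.C (polR (X ^ (i : ℕ))) := by
    intro r
    rw [map_sum]
    refine Finset.sum_congr rfl fun i _ => ?_
    rw [map_mul, map_pow, embY_C, embY_X, yv, ← map_pow, ← map_pow]
  let q1 : Fin (M + 1) → LSer κ := fun i => q (Sum.inl i)
  let q2 : Fin (M + 1) → LSer κ := fun i => q (Sum.inr i)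
  have hrel : embY κ (∑ i, C (q1 i) * X ^ (i : ℕ)) * α +
      embY κ (∑ i, C (q2 i) * X ^ (i : ℕ)) = 0 := by
    rw [hemb, hemb, ← hsum, Fintype.sum_sum_type, Finset.sum_mul]
    congr 1
    · refine Finset.sum_congr rfl fun i _ => ?_
      simp only [v, Sum.elim_inl, mul_assoc, q1]
    · refine Finset.sum_congr rfl fun i _ => ?_
      simp only [v, Sum.elim_inr, mul_one, q2]
  refine ⟨- ∑ i, C (q2 i) * X ^ (i : ℕ), ∑ i, C (q1 i) * X ^ (i : ℕ), ?_, ?_⟩
  · intro h
    rw [h, map_zero, zero_mul, zero_add] at hrel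
    have h2 := hcoef q2 (embY_inj hrel)
    have h1 := hcoef q1 h
    apply hq0
    funext j
    rcases j with j | j
    · exact congrFun h1 j
    · exact congrFun h2 j
  · rw [map_neg]
    exact eq_neg_of_add_eq_zero_left hrel

end TaskA

/-- Lemma 1.1. -/
theorem algebraicity {κ : Type u} [Field κ] (S : Finset κ) (α : LSer (RatFunc κ))
    (h0 : SerIn (regOff S) α)
    (h1 : ∀ s : Option κ, InS S s → ∃ b : LSer (RatFunc κ), b ≠ 0 ∧ SerIn (regAt s) b ∧
      SerIn (regAt s) (b * α)) :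
    ∃ P Q : (LSer κ)[X], Q ≠ 0 ∧ embY κ Q * α = embY κ P := by
  obtain ⟨M, hM⟩ := α.exists_ge
  have hge : LSer.Ge 0 (LSer.T (-M) * α) := by
    have := hM.T_mul (-M)
    rwa [neg_add_cancel] at this
  obtain ⟨P, Q, hQ, h⟩ := TaskA.algebraicity0 S (LSer.T (-M) * α) hge (TaskA.serIn_T_mul h0 _)
    (fun s hs => by
      obtain ⟨b, hb, hb1, hb2⟩ := h1 s hs
      refine ⟨b, hb, hb1, ?_⟩
      rw [mul_left_comm]
      exact TaskA.serIn_T_mul hb2 _)
  refine ⟨P, Q * C (LSer.T (-M)), mul_ne_zero hQ (C_ne_zero.2 (LSer.T_ne_zero _)), ?_⟩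
  rw [← h, map_mul, embY_C, mul_assoc]
  congr 2
  rw [embC, LSer.map_T]

end Pool.Agent.H19VF
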