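import Pool.Agent.H19VF.A_Alg

/-! # Task B: the places of the projective line over `K = κ((t))` (Lemma 1.2 of the paper) -/

set_option autoImplicit false

open Polynomial

universe u

namespace Pool.Agent.H19VF

/-- The general principle: a prime `q` of `B` lies over a point of the line with coordinate ring
`K[X]`, and fractions with denominator outside `q` are regular at this point. -/
theorem B_gen {K Ω : Type u} [Field K] [Field Ω] (B : Subring Ω) (φ : K[X] →+* Ω)
    (hφ : Function.Injective φ) (hB : ∀ P, φ P ∈ B) (q : Ideal B) (hq : q.IsPrime)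
    (α β : B) (P Q : K[X]) (hβ : β ∉ q) (hQ : Q ≠ 0) (h : φ Q * (α : Ω) = φ P * (β : Ω)) :
    ∃ P' Q' : K[X], Q' ∉ q.comap (φ.codRestrict B hB) ∧ P * Q' = P' * Q := by
  classical
  obtain ⟨P1, hP1⟩ := EuclideanDomain.gcd_dvd_left P Q
  obtain ⟨Q1, hQ1⟩ := EuclideanDomain.gcd_dvd_right P Q
  have hbez := EuclideanDomain.gcd_eq_gcd_ab P Q
  obtain ⟨d, hd⟩ : ∃ d, d = EuclideanDomain.gcd P Q := ⟨_, rfl⟩
  obtain ⟨a, ha⟩ : ∃ a, a = EuclideanDomain.gcdA P Q := ⟨_, rfl⟩
  obtain ⟨b, hb⟩ : ∃ b, b = EuclideanDomain.gcdB P Q := ⟨_, rfl⟩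
  rw [← hd] at hP1 hQ1 hbez
  rw [← ha, ← hb] at hbez
  have hd0 : d ≠ 0 := by
    rintro rfl
    rw [zero_mul] at hQ1
    exact hQ hQ1
  have h1 : P1 * a + Q1 * b = 1 := by
    apply mul_left_cancel₀ hd0
    rw [mul_one]
    conv_rhs => rw [hbez, hP1, hQ1]
    ring
  by_cases hQ1q : Q1 ∈ q.comap (φ.codRestrict B hB)
  · exfalso
    have h2 : φ Q1 * (α : Ω) = φ P1 * (β : Ω) := by
      have hφd : φ d ≠ 0 := by
        intro h0
        exact hd0 (hφ (by rw [h0, map_zero]))
      apply mul_left_cancel₀ hφd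
      rw [hP1, hQ1, map_mul, map_mul] at h
      rw [← mul_assoc, ← mul_assoc]
      exact h
    have h3 : (φ.codRestrict B hB) Q1 * α = (φ.codRestrict B hB) P1 * β := Subtype.ext h2
    have h4 : (φ.codRestrict B hB) P1 * β ∈ q := by
      rw [← h3]
      exact q.mul_mem_right _ (Ideal.mem_comap.1 hQ1q)
    have h5 : (φ.codRestrict B hB) P1 ∈ q := (hq.mem_or_mem h4).resolve_right hβ
    have h6 : (1 : K[X]) ∈ q.comap (φ.codRestrict B hB) := by
      rw [← h1]
      exact Ideal.add_mem _ (Ideal.mul_mem_right _ _ (Ideal.mem_comap.2 h5))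
        (Ideal.mul_mem_right _ _ hQ1q)
    rw [Ideal.mem_comap, map_one] at h6
    exact hq.ne_top ((Ideal.eq_top_iff_one q).2 h6)
  · refine ⟨P1, Q1, hQ1q, ?_⟩
    calc P * Q1 = d * P1 * Q1 := by rw [← hP1]
      _ = P1 * (d * Q1) := by ring
      _ = P1 * Q := by rw [← hQ1]

variable {κ : Type u} [Field κ]

/-- the coefficient of `t ^ n` of a polynomial over the Laurent series -/
noncomputable def B_slice (n : ℤ) (P : (LSer κ)[X]) : κ[X] :=
  ∑ i ∈ Finset.range (P.natDegree + 1), monomial i ((P.coeff i).coeff n)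

theorem B_coeff_slice (n : ℤ) (P : (LSer κ)[X]) (i : ℕ) :
    (B_slice n P).coeff i = (P.coeff i).coeff n := by
  unfold B_slice
  rw [finsetSum_coeff]
  simp only [coeff_monomial]
  rw [Finset.sum_ite_eq']
  split_ifs with h
  · rfl
  · rw [coeff_eq_zero_of_natDegree_lt (by simpa using h)]
    rfl

theorem B_slice_add (n : ℤ) (P Q : (LSer κ)[X]) : B_slice n (P + Q) = B_slice n P + B_slice n Q := by
  ext i
  rw [coeff_add, B_coeff_slice, B_coeff_slice, B_coeff_slice, coeff_add, LSer.coeff_add]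

theorem B_slice_monomial (n : ℤ) (m : ℕ) (a : LSer κ) :
    B_slice n (monomial m a) = monomial m (a.coeff n) := by
  ext i
  rw [B_coeff_slice, coeff_monomial, coeff_monomial]
  split_ifs <;> rfl

theorem B_slice_T (n m : ℤ) (P : (LSer κ)[X]) :
    B_slice n (C (LSer.T m) * P) = B_slice (n - m) P := by
  ext i
  rw [B_coeff_slice, B_coeff_slice, coeff_C_mul, LSer.coeff_T_mul]

theorem B_natDegree_slice (n : ℤ) (P : (LSer κ)[X]) : (B_slice n P).natDegree ≤ P.natDegree := by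
  rw [natDegree_le_iff_coeff_eq_zero]
  intro N hN
  rw [B_coeff_slice, coeff_eq_zero_of_natDegree_lt hN]
  rfl

theorem B_eq_zero {P : (LSer κ)[X]} (h : ∀ n, B_slice n P = 0) : P = 0 := by
  ext i n
  rw [← B_coeff_slice, h, coeff_zero, coeff_zero]
  rfl

theorem B_eval (u : RatFunc κ) (P : (LSer κ)[X]) (n : ℤ) :
    (eval₂ (embC (κ := κ) κ).toRingHom (LSer.C u) P).coeff n = aeval u (B_slice n P) := by
  induction P using Polynomial.induction_on' with
  | add P Q hP hQ => rw [eval₂_add, LSer.coeff_add, hP, hQ, B_slice_add, map_add]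
  | monomial m a =>
    rw [eval₂_monomial, B_slice_monomial, aeval_monomial, ← map_pow, mul_comm, LSer.coeff_C_mul,
      mul_comm]
    rfl

theorem B_embY_coeff (P : (LSer κ)[X]) (n : ℤ) :
    (embY (κ := κ) κ P).coeff n = polR (B_slice n P) := by
  have h := B_eval (polR (X : κ[X])) P n
  have h1 : aeval (polR (X : κ[X])) (B_slice n P) = polR (B_slice n P) := by
    have := Polynomial.aeval_algebraMap_apply (RatFunc κ) (X : κ[X]) (B_slice n P)
    rw [this, aeval_X_left_apply]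
  rw [← h1, ← h]
  rfl

theorem B_embW_coeff (P : (LSer κ)[X]) (n : ℤ) :
    (embW (κ := κ) κ P).coeff n = aeval (polR (X : κ[X]))⁻¹ (B_slice n P) :=
  B_eval (polR (X : κ[X]))⁻¹ P n

theorem B_embY_inj : Function.Injective (embY (κ := κ) κ).toRingHom := by
  rw [injective_iff_map_eq_zero]
  intro P hP
  apply B_eq_zero
  intro n
  apply IsFractionRing.injective κ[X] (RatFunc κ)
  have h := B_embY_coeff P n
  have hP' : embY (κ := κ) κ P = 0 := hP
  rw [hP', LSer.coeff_zero] at h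
  rw [map_zero]
  exact h.symm

theorem B_polX_ne : polR (X : κ[X]) ≠ 0 :=
  (map_ne_zero_iff _ (IsFractionRing.injective κ[X] (RatFunc κ))).2 X_ne_zero

/-- the coordinate `w` -/
noncomputable def B_w : LSer (RatFunc κ) := LSer.C (polR (X : κ[X]))⁻¹

theorem B_yw : (yv : LSer (RatFunc κ)) * B_w = 1 := by
  unfold yv B_w
  rw [← map_mul, mul_inv_cancel₀ B_polX_ne, map_one]

theorem B_yv_ne : (yv : LSer (RatFunc κ)) ≠ 0 := left_ne_zero_of_mul_eq_one B_yw

theorem B_W_reflect (N : ℕ) (f : (LSer κ)[X]) (hf : f.natDegree ≤ N) :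
    embW (κ := κ) κ (reflect N f) * yv ^ N = embY κ f := by
  let _ : Invertible (yv : LSer (RatFunc κ)) := invertibleOfNonzero B_yv_ne
  have h := eval₂_reflect_mul_pow (embC (κ := κ) κ).toRingHom (yv : LSer (RatFunc κ)) N f hf
  have e : ⅟(yv : LSer (RatFunc κ)) = B_w := by
    rw [invOf_eq_inv]
    exact inv_eq_of_mul_eq_one_right B_yw
  rw [e] at h
  exact h

theorem B_embW_inj : Function.Injective (embW (κ := κ) κ).toRingHom := by
  rw [injective_iff_map_eq_zero]
  intro f hf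
  have hf' : embW (κ := κ) κ f = 0 := hf
  have h := B_W_reflect (κ := κ) (f.natDegree) (reflect f.natDegree f) (by
    exact natDegree_reflect_le.trans (by simp))
  rw [reflect_reflect, hf', zero_mul] at h
  have h2 : reflect f.natDegree f = 0 := B_embY_inj (by
    rw [map_zero]
    exact h.symm)
  exact reflect_eq_zero_iff.1 h2

theorem B_embY_mem (O : Subring (RatFunc κ)) (hO : ∀ g : κ[X], polR g ∈ O) (P : (LSer κ)[X]) :
    (embY (κ := κ) κ).toRingHom P ∈ serSub O := by
  rw [mem_serSub]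
  intro n
  have h := B_embY_coeff P n
  have h2 : ((embY (κ := κ) κ).toRingHom P).coeff n = (embY (κ := κ) κ P).coeff n := rfl
  rw [h2, h]
  exact hO _

theorem B_w_mem : (polR (X : κ[X]))⁻¹ ∈ regInf κ :=
  ⟨1, X, X_ne_zero, by simp, by rw [inv_mul_cancel₀ B_polX_ne, map_one]⟩

theorem B_embW_mem (P : (LSer κ)[X]) :
    (embW (κ := κ) κ).toRingHom P ∈ serSub (regInf κ) := by
  rw [mem_serSub]
  intro n
  have h := B_embW_coeff P n
  have h2 : ((embW (κ := κ) κ).toRingHom P).coeff n = (embW (κ := κ) κ P).coeff n := rfl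
  rw [h2, h, aeval_eq_sum_range]
  refine Subring.sum_mem _ fun i _ => ?_
  rw [Algebra.smul_def]
  refine Subring.mul_mem _ ?_ (Subring.pow_mem _ B_w_mem i)
  exact polR_C_mem none _

/-- A series whose constant coefficient is not a unit of `O` is not a unit. -/
theorem B_nonunit (O : Subring (RatFunc κ)) (g : LSer (RatFunc κ)) (hg : LSer.Ge 0 g)
    (h0 : g.coeff 0 ≠ 0) (h1 : (g.coeff 0)⁻¹ ∉ O) (β : LSer (RatFunc κ)) (hβ : β ∈ serSub O)
    (h : g * β = 1) : False := by
  obtain ⟨g', rfl⟩ := LSer.exists_ofPS hg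
  have hc : (LSer.ofPS g').coeff 0 = PowerSeries.constantCoeff g' := by
    have := LSer.coeff_ofPS_nat g' 0
    simpa using this
  rw [hc] at h0 h1
  have hu : IsUnit g' := by
    rw [PowerSeries.isUnit_iff_constantCoeff]
    exact isUnit_iff_ne_zero.2 h0
  obtain ⟨g'', hg''⟩ := hu.exists_right_inv
  have hb : β = LSer.ofPS g'' := by
    have h2 : LSer.ofPS g' * LSer.ofPS g'' = 1 := by rw [← map_mul, hg'', map_one]
    have h3 : LSer.ofPS g' ≠ 0 := left_ne_zero_of_mul_eq_one h2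
    exact mul_left_cancel₀ h3 (h.trans h2.symm)
  have h4 : β.coeff 0 = (PowerSeries.constantCoeff g')⁻¹ := by
    rw [hb]
    have := LSer.coeff_ofPS_nat g'' 0
    have h5 : (LSer.ofPS g'').coeff 0 = PowerSeries.constantCoeff g'' := by simpa using this
    rw [h5]
    have h6 := congrArg PowerSeries.constantCoeff hg''
    rw [map_mul, map_one] at h6
    exact eq_inv_of_mul_eq_one_right h6
  apply h1
  rw [← h4]
  exact hβ 0

/-- scaling: the least power of `t` -/
theorem B_scale (P : (LSer κ)[X]) (hP : P ≠ 0) : ∃ m : ℤ,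
    (∀ n < 0, B_slice n (C (LSer.T m) * P) = 0) ∧ B_slice 0 (C (LSer.T m) * P) ≠ 0 := by
  classical
  have hex : ∃ n, B_slice n P ≠ 0 := by
    by_contra hno
    push Not at hno
    exact hP (B_eq_zero hno)
  have hb : ∃ b : ℤ, ∀ n, B_slice n P ≠ 0 → b ≤ n := by
    choose N hN using fun i => (P.coeff i).exists_ge
    obtain ⟨b, hb⟩ : ∃ b : ℤ, ∀ i ∈ Finset.range (P.natDegree + 1), b ≤ N i := by
      obtain ⟨b, hb⟩ := (((Finset.range (P.natDegree + 1)).image N).finite_toSet).bddBelow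
      refine ⟨b, fun i hi => hb ?_⟩
      rw [Finset.mem_coe]
      exact Finset.mem_image_of_mem _ hi
    refine ⟨b, fun n hn => ?_⟩
    by_contra hlt
    apply hn
    unfold B_slice
    refine Finset.sum_eq_zero fun i hi => ?_
    rw [hN i n (lt_of_lt_of_le (not_le.1 hlt) (hb i hi)), monomial_zero_right]
  obtain ⟨n0, h1, h2⟩ := Int.exists_least_of_bdd hb hex
  refine ⟨-n0, fun n hn => ?_, ?_⟩
  · rw [B_slice_T]
    by_contra hne
    have := h2 _ hne
    omega
  · rw [B_slice_T]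
    simpa using h1

/-- the coefficients of the zeroth slice determine an element with nonnegative powers -/
theorem B_ge_Y (P : (LSer κ)[X]) (h : ∀ n < 0, B_slice n P = 0) :
    LSer.Ge 0 ((embY (κ := κ) κ).toRingHom P) := by
  intro n hn
  have h1 := B_embY_coeff P n
  rw [h n hn, map_zero] at h1
  exact h1

theorem B_exists_prime (O : Subring (RatFunc κ)) (g : LSer (RatFunc κ)) (hg : g ∈ serSub O)
    (hge : LSer.Ge 0 g) (h0 : g.coeff 0 ≠ 0) (h1 : (g.coeff 0)⁻¹ ∉ O) :
    ∃ q : Ideal (serSub O), q.IsPrime ∧ (⟨g, hg⟩ : serSub O) ∈ q := by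
  have hnu : (⟨g, hg⟩ : serSub O) ∈ nonunits (serSub O) := by
    intro hu
    obtain ⟨b, hb⟩ := hu.exists_right_inv
    exact B_nonunit O g hge h0 h1 b b.2 (congrArg Subtype.val hb)
  obtain ⟨q, hq, hgq⟩ := exists_max_ideal_of_mem_nonunits hnu
  exact ⟨q, hq.isPrime, hgq⟩

theorem B_generator (p : Ideal (LSer κ)[X]) (hp0 : p ≠ ⊥) :
    ∃ π : (LSer κ)[X], p = Ideal.span {π} ∧ (∀ n < 0, B_slice n π = 0) ∧ B_slice 0 π ≠ 0 := by
  obtain ⟨π, hπ⟩ := (IsPrincipalIdealRing.principal p).principal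
  have hπ' : p = Ideal.span {π} := hπ
  have hne : π ≠ 0 := by
    rintro rfl
    apply hp0
    rw [hπ']
    simp
  obtain ⟨m, h1, h2⟩ := B_scale π hne
  refine ⟨C (LSer.T m) * π, ?_, h1, h2⟩
  rw [hπ']
  have hu : IsUnit (C (LSer.T m) : (LSer κ)[X]) := (LSer.isUnit_T m).map C
  rw [Ideal.span_singleton_mul_left_unit hu]

theorem B_caseY (O : Subring (RatFunc κ)) (hO : ∀ g : κ[X], polR g ∈ O) (p : Ideal (LSer κ)[X])
    (hp : p.IsPrime) (hp0 : p ≠ ⊥) (π : (LSer κ)[X]) (hπ : p = Ideal.span {π})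
    (hneg : ∀ n < 0, B_slice n π = 0) (hne : B_slice 0 π ≠ 0)
    (hinv : (polR (B_slice 0 π))⁻¹ ∉ O) :
    ∃ q : Ideal (serSub O), q.IsPrime ∧
        ∀ (α β : serSub O) (P Q : (LSer κ)[X]), β ∉ q → Q ≠ 0 →
          embY κ Q * (α : LSer (RatFunc κ)) = embY κ P * (β : LSer (RatFunc κ)) →
          ∃ P' Q' : (LSer κ)[X], Q' ∉ p ∧ P * Q' = P' * Q := by
  have hmem := B_embY_mem O hO
  have hc0 : ((embY (κ := κ) κ).toRingHom π).coeff 0 = polR (B_slice 0 π) := B_embY_coeff π 0
  obtain ⟨q, hq, hπq⟩ := B_exists_prime O ((embY (κ := κ) κ).toRingHom π) (hmem π)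
    (B_ge_Y π hneg) (by
      rw [hc0]
      exact (map_ne_zero_iff _ (IsFractionRing.injective κ[X] (RatFunc κ))).2 hne) (by rwa [hc0])
  refine ⟨q, hq, ?_⟩
  intro α β P Q hβ hQ h
  obtain ⟨P', Q', h1, h2⟩ := B_gen (serSub O) (embY (κ := κ) κ).toRingHom B_embY_inj hmem q hq α β
    P Q hβ hQ h
  refine ⟨P', Q', ?_, h2⟩
  have hmax : p.IsMaximal := hp.isMaximal hp0
  have hle : p ≤ q.comap ((embY (κ := κ) κ).toRingHom.codRestrict (serSub O) hmem) := by
    rw [hπ, Ideal.span_le, Set.singleton_subset_iff]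
    exact hπq
  have heq := hmax.eq_of_le (hq.comap _).ne_top hle
  rw [heq]
  exact h1

theorem B_caseW (p : Ideal (LSer κ)[X])
    (hp : p.IsPrime) (hp0 : p ≠ ⊥) (π : (LSer κ)[X]) (hπ : p = Ideal.span {π})
    (hneg : ∀ n < 0, B_slice n π = 0) (c : κ) (hc : c ≠ 0) (hcon : B_slice 0 π = C c) :
    ∃ q : Ideal (serSub (regInf κ)), q.IsPrime ∧
        ∀ (α β : serSub (regInf κ)) (P Q : (LSer κ)[X]), β ∉ q → Q ≠ 0 →
          embY κ Q * (α : LSer (RatFunc κ)) = embY κ P * (β : LSer (RatFunc κ)) →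
          ∃ P' Q' : (LSer κ)[X], Q' ∉ p ∧ P * Q' = P' * Q := by
  have hinjR := IsFractionRing.injective κ[X] (RatFunc κ)
  obtain ⟨d, hd⟩ : ∃ d, d = π.natDegree := ⟨_, rfl⟩
  have hπ0 : π ≠ 0 := by
    rintro rfl
    apply hp0
    rw [hπ]
    simp
  have hd1 : 1 ≤ d := by
    by_contra hlt
    have h0 : π.natDegree = 0 := by omega
    apply hp.ne_top
    rw [hπ, Ideal.span_singleton_eq_top, eq_C_of_natDegree_eq_zero h0]
    have : π.coeff 0 ≠ 0 := by
      intro h1
      apply hπ0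
      rw [eq_C_of_natDegree_eq_zero h0, h1, C_0]
    exact (isUnit_iff_ne_zero.2 this).map C
  have hrefl : ∀ (N : ℕ) (f : (LSer κ)[X]), f.natDegree ≤ N → (reflect N f).natDegree ≤ N :=
    fun N f hf => natDegree_reflect_le.trans (max_le le_rfl hf)
  obtain ⟨σ, hσ⟩ : ∃ σ, σ = reflect d π := ⟨_, rfl⟩
  have h1 := B_W_reflect (κ := κ) d π hd.ge
  rw [← hσ] at h1
  have h2 : embW (κ := κ) κ σ = LSer.C ((polR (X : κ[X]))⁻¹ ^ d) * embY κ π := by
    have h3 : LSer.C ((polR (X : κ[X]))⁻¹ ^ d) * (yv : LSer (RatFunc κ)) ^ d = 1 := by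
      unfold yv
      rw [← map_pow, ← map_mul, ← mul_pow, inv_mul_cancel₀ B_polX_ne, one_pow, map_one]
    rw [← h1]
    calc embW (κ := κ) κ σ = embW (κ := κ) κ σ * (LSer.C ((polR (X : κ[X]))⁻¹ ^ d) *
          (yv : LSer (RatFunc κ)) ^ d) := by rw [h3, mul_one]
      _ = _ := by ring
  have hcoef : ∀ n, (embW (κ := κ) κ σ).coeff n =
      (polR (X : κ[X]))⁻¹ ^ d * polR (B_slice n π) := by
    intro n
    rw [h2, LSer.coeff_C_mul, B_embY_coeff]
  have hge : LSer.Ge 0 ((embW (κ := κ) κ).toRingHom σ) := by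
    intro n hn
    have := hcoef n
    rw [hneg n hn, map_zero, mul_zero] at this
    exact this
  have hc0 : ((embW (κ := κ) κ).toRingHom σ).coeff 0 = (polR (X : κ[X]))⁻¹ ^ d * polR (C c) := by
    have := hcoef 0
    rw [hcon] at this
    exact this
  have hcne : polR (C c) ≠ 0 := by
    refine (map_ne_zero_iff _ hinjR).2 ?_
    rwa [Ne, C_eq_zero]
  obtain ⟨q, hq, hσq⟩ := B_exists_prime (regInf κ) ((embW (κ := κ) κ).toRingHom σ) (B_embW_mem σ)
    hge (by rw [hc0]; exact mul_ne_zero (pow_ne_zero _ (inv_ne_zero B_polX_ne)) hcne) (by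
      rw [hc0]
      rintro ⟨a, b, hb, hdeg, hab⟩
      have h4 : X ^ d * b = C c * a := by
        apply hinjR
        rw [map_mul, map_mul, ← hab, map_pow, mul_inv, inv_pow, inv_inv]
        field_simp
      have h5 : (X ^ d * b).natDegree = d + b.natDegree := by
        rw [natDegree_mul (pow_ne_zero _ X_ne_zero) hb, natDegree_X_pow]
      have h6 : (C c * a).natDegree ≤ a.natDegree := natDegree_C_mul_le _ _
      rw [← h4, h5] at h6
      omega)
  refine ⟨q, hq, ?_⟩
  intro α β P Q hβ hQ h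
  obtain ⟨N, hN⟩ : ∃ N, N = max P.natDegree Q.natDegree := ⟨_, rfl⟩
  have hPN : P.natDegree ≤ N := by rw [hN]; exact le_max_left _ _
  have hQN : Q.natDegree ≤ N := by rw [hN]; exact le_max_right _ _
  have h3 : (embW (κ := κ) κ).toRingHom (reflect N Q) * (α : LSer (RatFunc κ)) =
      (embW (κ := κ) κ).toRingHom (reflect N P) * (β : LSer (RatFunc κ)) := by
    apply mul_left_cancel₀ (pow_ne_zero N (B_yv_ne (κ := κ)))
    have hP1 := B_W_reflect (κ := κ) N P hPN
    have hQ1 := B_W_reflect (κ := κ) N Q hQN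
    rw [← hP1, ← hQ1] at h
    calc _ = embW (κ := κ) κ (reflect N Q) * yv ^ N * (α : LSer (RatFunc κ)) := by
          rw [← mul_assoc, mul_comm (yv ^ N)]
          rfl
      _ = _ := h
      _ = _ := by
          rw [← mul_assoc, mul_comm (yv ^ N)]
          rfl
  have hQr : reflect N Q ≠ 0 := fun h0 => hQ (reflect_eq_zero_iff.1 h0)
  obtain ⟨P1, Q1, hQ1, hPQ⟩ := B_gen (serSub (regInf κ)) (embW (κ := κ) κ).toRingHom B_embW_inj
    B_embW_mem q hq α β (reflect N P) (reflect N Q) hβ hQr h3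
  obtain ⟨M, hM⟩ : ∃ M, M = max P1.natDegree Q1.natDegree := ⟨_, rfl⟩
  have hPM : P1.natDegree ≤ M := by rw [hM]; exact le_max_left _ _
  have hQM : Q1.natDegree ≤ M := by rw [hM]; exact le_max_right _ _
  refine ⟨reflect M P1, reflect M Q1, ?_, ?_⟩
  · intro hmem
    rw [hπ, Ideal.mem_span_singleton] at hmem
    obtain ⟨R, hR⟩ := hmem
    have hback : reflect M (reflect M Q1) = Q1 := reflect_reflect
    have hQ10 : reflect M Q1 ≠ 0 := by
      intro h0
      rw [h0, reflect_zero] at hback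
      apply hQ1
      rw [← hback]
      exact Ideal.zero_mem _
    have hR0 : R ≠ 0 := by
      rintro rfl
      rw [mul_zero] at hR
      exact hQ10 hR
    have hdeg : π.natDegree + R.natDegree ≤ M := by
      rw [← natDegree_mul hπ0 hR0, ← hR]
      exact hrefl M Q1 hQM
    apply hQ1
    have h4 : Q1 = σ * reflect (M - d) R := by
      rw [← hback, hR, hσ, ← reflect_mul π R hd.ge (by omega)]
      congr 1
      omega
    rw [h4]
    exact Ideal.mul_mem_right _ _ hσq
  · have e1 := reflect_mul (reflect N P) Q1 (hrefl N P hPN) hQM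
    have e2 := reflect_mul P1 (reflect N Q) hPM (hrefl N Q hQN)
    rw [reflect_reflect] at e1 e2
    rw [← e1, ← e2, hPQ, add_comm]

/-- Lemma 1.2 for the points of the affine line with coordinate `y`. -/
theorem places_y {κ : Type u} [Field κ] (S : Finset κ) (p : Ideal (LSer κ)[X]) (hp : p.IsPrime)
    (hp0 : p ≠ ⊥) :
    ∃ O : Subring (RatFunc κ), (O = regOff S ∨ ∃ s : Option κ, InS S s ∧ O = regAt s) ∧
      ∃ q : Ideal (serSub O), q.IsPrime ∧
        ∀ (α β : serSub O) (P Q : (LSer κ)[X]), β ∉ q → Q ≠ 0 →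
          embY κ Q * (α : LSer (RatFunc κ)) = embY κ P * (β : LSer (RatFunc κ)) →
          ∃ P' Q' : (LSer κ)[X], Q' ∉ p ∧ P * Q' = P' * Q := by
  obtain ⟨π, hπ, hneg, hne⟩ := B_generator p hp0
  have hinjR := IsFractionRing.injective κ[X] (RatFunc κ)
  by_cases hA : ∃ s ∈ S, (B_slice 0 π).eval s = 0
  · obtain ⟨s, hs, hs0⟩ := hA
    refine ⟨regAt (some s), Or.inr ⟨some s, ?_, rfl⟩, ?_⟩
    · intro a ha
      cases ha
      exact hs
    · refine B_caseY (regAt (some s)) (fun g => polR_mem_regFin s g) p hp hp0 π hπ hneg hne ?_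
      rintro ⟨a, b, hb, hab⟩
      apply hb
      have h1 : polR b = polR (a * B_slice 0 π) := by
        rw [map_mul, ← hab, mul_comm (_⁻¹) (polR b), mul_assoc, inv_mul_cancel₀, mul_one]
        exact (map_ne_zero_iff _ hinjR).2 hne
      rw [hinjR h1, eval_mul, hs0, mul_zero]
  · push Not at hA
    by_cases hB : 0 < (B_slice 0 π).natDegree
    · refine ⟨regOff S, Or.inl rfl, ?_⟩
      refine B_caseY (regOff S) (fun g => polR_mem_regOff S g) p hp hp0 π hπ hneg hne ?_
      rintro ⟨a, N, hab⟩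
      have h1 : (∏ s ∈ S, (X - C s)) ^ N = a * B_slice 0 π := by
        apply hinjR
        rw [map_mul, ← hab, map_pow, mul_comm (_⁻¹) _, mul_assoc, inv_mul_cancel₀, mul_one]
        exact (map_ne_zero_iff _ hinjR).2 hne
      have h2 : IsCoprime ((∏ s ∈ S, (X - C s)) ^ N) (B_slice 0 π) := by
        refine IsCoprime.pow_left (IsCoprime.prod_left fun s hs => ?_)
        refine (irreducible_X_sub_C s).coprime_iff_not_dvd.2 ?_
        rw [dvd_iff_isRoot]
        exact hA s hs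
      have h3 : IsUnit (B_slice 0 π) := by
        rw [h1] at h2
        exact isCoprime_self.1 (IsCoprime.of_mul_left_right h2)
      rw [natDegree_eq_zero_of_isUnit h3] at hB
      exact lt_irrefl _ hB
    · have hB0 : (B_slice 0 π).natDegree = 0 := by omega
      have hcon := eq_C_of_natDegree_eq_zero hB0
      refine ⟨regAt none, Or.inr ⟨none, ?_, rfl⟩, ?_⟩
      · intro a ha
        cases ha
      · refine B_caseW p hp hp0 π hπ hneg _ ?_ hcon
        intro h0
        apply hne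
        rw [hcon, h0, C_0]

/-- Lemma 1.2 for the point at infinity. -/
theorem place_inf (κ : Type u) [Field κ] :
    ∃ q : Ideal (serSub (regInf κ)), q.IsPrime ∧
      ∀ (α β : serSub (regInf κ)) (P Q : (LSer κ)[X]), β ∉ q → Q ≠ 0 →
        embW κ Q * (α : LSer (RatFunc κ)) = embW κ P * (β : LSer (RatFunc κ)) →
        ∃ P' Q' : (LSer κ)[X], Q'.eval 0 ≠ 0 ∧ P * Q' = P' * Q := by
  have hX : (embW (κ := κ) κ).toRingHom X = LSer.C (polR (X : κ[X]))⁻¹ := embW_X κ
  have hc0 : ((embW (κ := κ) κ).toRingHom X).coeff 0 = (polR (X : κ[X]))⁻¹ := by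
    rw [hX, LSer.coeff_C, if_pos rfl]
  obtain ⟨q, hq, hXq⟩ := B_exists_prime (regInf κ) ((embW (κ := κ) κ).toRingHom X) (B_embW_mem X)
    (by rw [hX]; exact LSer.ge_C _) (by rw [hc0]; exact inv_ne_zero B_polX_ne) (by
      rw [hc0, inv_inv]
      rintro ⟨a, b, hb, hd, hab⟩
      have h1 : X * b = a := by
        apply IsFractionRing.injective κ[X] (RatFunc κ)
        rw [map_mul]
        exact hab
      rw [← h1, natDegree_X_mul hb] at hd
      omega)
  refine ⟨q, hq, ?_⟩
  intro α β P Q hβ hQ h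
  obtain ⟨P', Q', h1, h2⟩ := B_gen (serSub (regInf κ)) (embW (κ := κ) κ).toRingHom B_embW_inj
    B_embW_mem q hq α β P Q hβ hQ h
  refine ⟨P', Q', ?_, h2⟩
  intro h0
  apply h1
  have hdvd : X ∣ Q' := by
    rw [X_dvd_iff, coeff_zero_eq_eval_zero]
    exact h0
  obtain ⟨R, rfl⟩ := hdvd
  exact Ideal.mul_mem_right _ _ hXq

end Pool.Agent.H19VF
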