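import Pool.Agent.H19VF.Defs

/-! # Task C: lifting along etale coordinates (statement (E) of the paper) -/

set_option autoImplicit false

open Polynomial

universe u

namespace Pool.Agent.H19VF

variable {k : Type u} [Field k] {n : ℕ} {B L : Type u} [CommRing B] [Algebra k B] [CommRing L]
  [Algebra k L]

section aux

variable {S T : Type u} [CommRing S] [Algebra k S] [CommRing T] [Algebra k T]

/-- Two homomorphisms from polynomials agree if they agree on variables. -/
private theorem c_mv_ext {W : Type u} [CommRing W] [Algebra k W]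
    (f g : MvPolynomial (Fin n) k →ₐ[k] W) (h : ∀ j, f (MvPolynomial.X j) = g (MvPolynomial.X j))
    (p : MvPolynomial (Fin n) k) : f p = g p :=
  congrArg (fun e : MvPolynomial (Fin n) k →ₐ[k] W => e p) (MvPolynomial.algHom_ext h)

private theorem c_lift_complete (I : Ideal S) [IsAdicComplete I S] (z : Fin n → B)
    (hz : IsEtaleCoord k z) (φ0 : B →ₐ[k] S ⧸ I) (r : Fin n → S)
    (hr : ∀ j, Ideal.Quotient.mk I (r j) = φ0 (z j)) :
    ∃ φ : B →ₐ[k] S, (∀ b, Ideal.Quotient.mk I (φ b) = φ0 b) ∧ ∀ j, φ (z j) = r j := by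
  let algB : Algebra (MvPolynomial (Fin n) k) B :=
    (MvPolynomial.aeval z : MvPolynomial (Fin n) k →ₐ[k] B).toRingHom.toAlgebra
  let algS : Algebra (MvPolynomial (Fin n) k) S :=
    (MvPolynomial.aeval r : MvPolynomial (Fin n) k →ₐ[k] S).toRingHom.toAlgebra
  have het : Algebra.Etale (MvPolynomial (Fin n) k) B := hz
  have hcomm : ∀ p : MvPolynomial (Fin n) k,
      φ0 (MvPolynomial.aeval z p) = Ideal.Quotient.mk I (MvPolynomial.aeval r p) := by
    intro p
    refine c_mv_ext (φ0.comp (MvPolynomial.aeval z)) ((Ideal.Quotient.mkₐ k I).comp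
      (MvPolynomial.aeval r)) ?_ p
    intro j
    simp only [AlgHom.comp_apply, MvPolynomial.aeval_X, Ideal.Quotient.mkₐ_eq_mk]
    exact (hr j).symm
  let f : B →ₐ[MvPolynomial (Fin n) k] S ⧸ I :=
    { φ0.toRingHom with
      commutes' := fun p => hcomm p }
  obtain ⟨g, hg⟩ := Algebra.FormallySmooth.exists_mkₐ_comp_eq_of_isAdicComplete f
  have hgp : ∀ p : MvPolynomial (Fin n) k,
      g (MvPolynomial.aeval z p) = MvPolynomial.aeval r p := fun p => g.commutes p
  refine ⟨{ g.toRingHom with commutes' := fun c => ?_ }, fun b => ?_, fun j => ?_⟩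
  · have h1 := hgp (MvPolynomial.C c)
    rw [MvPolynomial.aeval_C, MvPolynomial.aeval_C] at h1
    exact h1
  · exact congrArg (fun e : B →ₐ[MvPolynomial (Fin n) k] S ⧸ I => e b) hg
  · have h1 := hgp (MvPolynomial.X j)
    rw [MvPolynomial.aeval_X, MvPolynomial.aeval_X] at h1
    exact h1

private theorem c_lift_nil (q : S →ₐ[k] T) (hq : Function.Surjective q)
    (hn : IsNilpotent (RingHom.ker (q : S →+* T))) (z : Fin n → B) (hz : IsEtaleCoord k z)
    (φ0 : B →ₐ[k] T) (r : Fin n → S) (hr : ∀ j, q (r j) = φ0 (z j)) :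
    ∃ φ : B →ₐ[k] S, (∀ b, q (φ b) = φ0 b) ∧ ∀ j, φ (z j) = r j := by
  let algB : Algebra (MvPolynomial (Fin n) k) B :=
    (MvPolynomial.aeval z : MvPolynomial (Fin n) k →ₐ[k] B).toRingHom.toAlgebra
  let algS : Algebra (MvPolynomial (Fin n) k) S :=
    (MvPolynomial.aeval r : MvPolynomial (Fin n) k →ₐ[k] S).toRingHom.toAlgebra
  let algT : Algebra (MvPolynomial (Fin n) k) T :=
    ((q : S →+* T).comp (MvPolynomial.aeval r : MvPolynomial (Fin n) k →ₐ[k] S).toRingHom).toAlgebra
  have het : Algebra.Etale (MvPolynomial (Fin n) k) B := hz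
  have hcomm : ∀ p : MvPolynomial (Fin n) k,
      φ0 (MvPolynomial.aeval z p) = q (MvPolynomial.aeval r p) := by
    intro p
    refine c_mv_ext (φ0.comp (MvPolynomial.aeval z)) (q.comp (MvPolynomial.aeval r)) ?_ p
    intro j
    simp only [AlgHom.comp_apply, MvPolynomial.aeval_X]
    exact (hr j).symm
  let f : B →ₐ[MvPolynomial (Fin n) k] T :=
    { φ0.toRingHom with
      commutes' := fun p => hcomm p }
  let q' : S →ₐ[MvPolynomial (Fin n) k] T :=
    { (q : S →+* T) with
      commutes' := fun p => rfl }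
  let g := Algebra.FormallySmooth.liftOfSurjective f q' hq hn
  have hg : ∀ b, q (g b) = φ0 b := fun b =>
    Algebra.FormallySmooth.liftOfSurjective_apply f q' hq hn b
  have hgp : ∀ p : MvPolynomial (Fin n) k,
      g (MvPolynomial.aeval z p) = MvPolynomial.aeval r p := fun p => g.commutes p
  refine ⟨{ g.toRingHom with commutes' := fun c => ?_ }, fun b => ?_, fun j => ?_⟩
  · have h1 := hgp (MvPolynomial.C c)
    rw [MvPolynomial.aeval_C, MvPolynomial.aeval_C] at h1
    exact h1
  · exact hg b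
  · have h1 := hgp (MvPolynomial.X j)
    rw [MvPolynomial.aeval_X, MvPolynomial.aeval_X] at h1
    exact h1

omit [Algebra k T] in
private theorem c_unique_nil (q : S →+* T)
    (hn : IsNilpotent (RingHom.ker q)) (z : Fin n → B) (hz : IsEtaleCoord k z)
    (φ φ' : B →ₐ[k] S) (h0 : ∀ b, q (φ b) = q (φ' b)) (h : ∀ j, φ (z j) = φ' (z j)) (b : B) :
    φ b = φ' b := by
  let algB : Algebra (MvPolynomial (Fin n) k) B :=
    (MvPolynomial.aeval z : MvPolynomial (Fin n) k →ₐ[k] B).toRingHom.toAlgebra
  let algS : Algebra (MvPolynomial (Fin n) k) S :=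
    (φ.comp (MvPolynomial.aeval z) : MvPolynomial (Fin n) k →ₐ[k] S).toRingHom.toAlgebra
  have het : Algebra.Etale (MvPolynomial (Fin n) k) B := hz
  let g : B →ₐ[MvPolynomial (Fin n) k] S :=
    { φ.toRingHom with
      commutes' := fun p => rfl }
  let g' : B →ₐ[MvPolynomial (Fin n) k] S :=
    { φ'.toRingHom with
      commutes' := fun p => by
        refine c_mv_ext (φ'.comp (MvPolynomial.aeval z)) (φ.comp (MvPolynomial.aeval z)) ?_ p
        intro j
        simp only [AlgHom.comp_apply, MvPolynomial.aeval_X]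
        exact (h j).symm }
  have key : g = g' := Algebra.FormallyUnramified.lift_unique_of_ringHom q hn g g'
    (RingHom.ext fun x => h0 x)
  exact congrArg (fun e : B →ₐ[MvPolynomial (Fin n) k] S => e b) key

private theorem c_cong (x : S) (m : ℕ) (z : Fin n → B) (hz : IsEtaleCoord k z)
    (φ φ' : B →ₐ[k] S) (h0 : ∀ b, x ∣ φ b - φ' b) (h : ∀ j, x ^ m ∣ φ (z j) - φ' (z j)) (b : B) :
    x ^ m ∣ φ b - φ' b := by
  have hm : ∀ a b : S, (Ideal.Quotient.mk (Ideal.span {x ^ m}) a =
      Ideal.Quotient.mk (Ideal.span {x ^ m}) b) ↔ x ^ m ∣ a - b := by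
    intro a b
    rw [Ideal.Quotient.eq, Ideal.mem_span_singleton]
  rw [← hm]
  have hJ : IsNilpotent (RingHom.ker (Ideal.Quotient.mk
      (Ideal.span {Ideal.Quotient.mk (Ideal.span {x ^ m}) x}))) := by
    rw [Ideal.mk_ker]
    refine ⟨m, ?_⟩
    rw [Ideal.span_singleton_pow, ← map_pow, Ideal.zero_eq_bot, Ideal.span_singleton_eq_bot,
      Ideal.Quotient.eq_zero_iff_mem]
    exact Ideal.mem_span_singleton_self _
  refine c_unique_nil (Ideal.Quotient.mk (Ideal.span {Ideal.Quotient.mk (Ideal.span {x ^ m}) x})) hJ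
    z hz ((Ideal.Quotient.mkₐ k _).comp φ) ((Ideal.Quotient.mkₐ k _).comp φ') ?_ ?_ b
  · intro b
    simp only [AlgHom.comp_apply, Ideal.Quotient.mkₐ_eq_mk]
    rw [Ideal.Quotient.eq, ← map_sub]
    obtain ⟨c, hc⟩ := h0 b
    rw [hc, map_mul]
    exact Ideal.mul_mem_right _ _ (Ideal.mem_span_singleton_self _)
  · intro j
    simp only [AlgHom.comp_apply, Ideal.Quotient.mkₐ_eq_mk]
    exact (hm _ _).2 (h j)

end aux

/-- Existence of lifts. -/
theorem etale_lift (z : Fin n → B) (hz : IsEtaleCoord k z) (φ0 : B →ₐ[k] L)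
    (r : Fin n → PowerSeries L) (hr : ∀ j, PowerSeries.constantCoeff (r j) = φ0 (z j)) :
    ∃ φ : B →ₐ[k] PowerSeries L, (∀ b, PowerSeries.constantCoeff (φ b) = φ0 b) ∧
      ∀ j, φ (z j) = r j := by
  have hker : ∀ x : PowerSeries L, x ∈ (Ideal.span {PowerSeries.X} : Ideal (PowerSeries L)) ↔
      PowerSeries.constantCoeff x = 0 := by
    intro x
    rw [Ideal.mem_span_singleton, PowerSeries.X_dvd_iff]
  let Cf : B →ₐ[k] PowerSeries L ⧸ (Ideal.span {PowerSeries.X} : Ideal (PowerSeries L)) :=
    { (Ideal.Quotient.mk (Ideal.span {PowerSeries.X} : Ideal (PowerSeries L))).comp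
        ((PowerSeries.C (R := L)).comp φ0.toRingHom) with
      commutes' := fun c => by
        change Ideal.Quotient.mk _ (PowerSeries.C (φ0 (algebraMap k B c))) = _
        rw [AlgHom.commutes, ← PowerSeries.algebraMap_apply]
        rfl }
  obtain ⟨φ, h1, h2⟩ := c_lift_complete (Ideal.span {PowerSeries.X} : Ideal (PowerSeries L)) z hz Cf
    r (by
      intro j
      change _ = Ideal.Quotient.mk _ (PowerSeries.C (φ0 (z j)))
      rw [Ideal.Quotient.eq, hker, map_sub, hr j, PowerSeries.constantCoeff_C, sub_self])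
  refine ⟨φ, fun b => ?_, h2⟩
  have h3 : Ideal.Quotient.mk _ (φ b) = Ideal.Quotient.mk _ (PowerSeries.C (φ0 b)) := h1 b
  rw [Ideal.Quotient.eq, hker, map_sub, PowerSeries.constantCoeff_C, sub_eq_zero] at h3
  exact h3

/-- Uniqueness of lifts, in the precise form: congruence of the coordinates implies congruence. -/
theorem etale_cong (z : Fin n → B) (hz : IsEtaleCoord k z) (φ φ' : B →ₐ[k] PowerSeries L)
    (h0 : ∀ b, PowerSeries.constantCoeff (φ b) = PowerSeries.constantCoeff (φ' b)) (m : ℕ)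
    (h : ∀ j, (PowerSeries.X : PowerSeries L) ^ m ∣ φ (z j) - φ' (z j)) (b : B) :
    (PowerSeries.X : PowerSeries L) ^ m ∣ φ b - φ' b := by
  refine c_cong (PowerSeries.X : PowerSeries L) m z hz φ φ' (fun b => ?_) h b
  rw [PowerSeries.X_dvd_iff, map_sub, h0, sub_self]

/-- Uniqueness of lifts. -/
theorem etale_unique (z : Fin n → B) (hz : IsEtaleCoord k z) (φ φ' : B →ₐ[k] PowerSeries L)
    (h0 : ∀ b, PowerSeries.constantCoeff (φ b) = PowerSeries.constantCoeff (φ' b))
    (h : ∀ j, φ (z j) = φ' (z j)) : φ = φ' := by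
  ext b i
  have h1 := etale_cong z hz φ φ' h0 (i + 1) (fun j => by rw [h j, sub_self]; exact dvd_zero _) b
  rw [PowerSeries.X_pow_dvd_iff] at h1
  have h2 := h1 i (Nat.lt_succ_self i)
  rw [map_sub, sub_eq_zero] at h2
  exact h2

/-- A homomorphism to the dual numbers from a derivation. -/
private noncomputable def c_mk (f : B →ₐ[k] L) (D : B → L) (hadd : ∀ a b, D (a + b) = D a + D b)
    (hmul : ∀ a b, D (a * b) = f a * D b + f b * D a) (halg : ∀ c : k, D (algebraMap k B c) = 0) :
    B →ₐ[k] DualNumber L where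
  toFun b := TrivSqZeroExt.inl (f b) + TrivSqZeroExt.inr (D b)
  map_one' := by
    have h1 : D 1 = 0 := by
      have := halg 1
      rwa [map_one] at this
    ext <;> simp [h1]
  map_mul' a b := by
    ext
    · simp
    · simp [hmul, mul_comm]
  map_zero' := by
    have h1 : D 0 = 0 := by
      have := halg 0
      rwa [map_zero] at this
    ext <;> simp [h1]
  map_add' a b := by
    ext
    · simp
    · simp [hadd]
  commutes' c := by
    ext
    · simp [TrivSqZeroExt.algebraMap_eq_inl']
    · simp [TrivSqZeroExt.algebraMap_eq_inl', halg]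

private theorem c_mk_fst (f : B →ₐ[k] L) (D : B → L) (hadd : ∀ a b, D (a + b) = D a + D b)
    (hmul : ∀ a b, D (a * b) = f a * D b + f b * D a) (halg : ∀ c : k, D (algebraMap k B c) = 0)
    (b : B) : (c_mk f D hadd hmul halg b).fst = f b := by
  simp [c_mk]

private theorem c_mk_snd (f : B →ₐ[k] L) (D : B → L) (hadd : ∀ a b, D (a + b) = D a + D b)
    (hmul : ∀ a b, D (a * b) = f a * D b + f b * D a) (halg : ∀ c : k, D (algebraMap k B c) = 0)
    (b : B) : (c_mk f D hadd hmul halg b).snd = D b := by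
  simp [c_mk]

private theorem c_snd_mul (δ : B →ₐ[k] DualNumber L) (a b : B) :
    (δ (a * b)).snd = (δ a).fst * (δ b).snd + (δ b).fst * (δ a).snd := by
  rw [map_mul, TrivSqZeroExt.snd_mul]
  simp [mul_comm]

private theorem c_snd_alg (δ : B →ₐ[k] DualNumber L) (c : k) :
    (δ (algebraMap k B c)).snd = 0 := by
  rw [AlgHom.commutes, TrivSqZeroExt.algebraMap_eq_inl']
  simp

/-- Existence and uniqueness of tangent vectors (derivations along `f`) with given values on the
coordinates. -/
theorem etale_dual (z : Fin n → B) (hz : IsEtaleCoord k z) (f : B →ₐ[k] L) (d : Fin n → L) :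
    ∃! δ : B →ₐ[k] DualNumber L, (∀ b, (δ b).fst = f b) ∧ ∀ j, (δ (z j)).snd = d j := by
  have hker : IsNilpotent (RingHom.ker ((dfst k L : DualNumber L →ₐ[k] L) : DualNumber L →+* L)) := by
    refine ⟨2, ?_⟩
    rw [Ideal.zero_eq_bot, eq_bot_iff]
    have h2 : RingHom.ker ((dfst k L : DualNumber L →ₐ[k] L) : DualNumber L →+* L) ^ 2 =
        RingHom.ker ((dfst k L : DualNumber L →ₐ[k] L) : DualNumber L →+* L) *
        RingHom.ker ((dfst k L : DualNumber L →ₐ[k] L) : DualNumber L →+* L) := by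
      rw [Submodule.pow_succ, Submodule.pow_one]
    refine le_trans (le_of_eq h2) (Ideal.mul_le.2 ?_)
    intro x hx y hy
    have hx' : x.fst = 0 := hx
    have hy' : y.fst = 0 := hy
    rw [Ideal.mem_bot]
    ext
    · simp [hx']
    · simp [hx', hy']
  have hsurj : Function.Surjective (dfst k L : DualNumber L →ₐ[k] L) := fun x =>
    ⟨TrivSqZeroExt.inl x, rfl⟩
  obtain ⟨δ, h1, h2⟩ := c_lift_nil (dfst k L) hsurj hker z hz f
    (fun j => TrivSqZeroExt.inl (f (z j)) + TrivSqZeroExt.inr (d j)) (fun j => by simp [dfst])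
  refine ⟨δ, ⟨fun b => h1 b, fun j => by rw [h2 j]; simp⟩, ?_⟩
  rintro δ' ⟨h3, h4⟩
  ext b : 1
  refine c_unique_nil ((dfst k L : DualNumber L →ₐ[k] L) : DualNumber L →+* L) hker z hz δ' δ
    (fun b => ?_) (fun j => ?_) b
  · exact (h3 b).trans (h1 b).symm
  · rw [h2 j]
    ext
    · rw [h3]; simp
    · rw [h4]; simp

/-- Two homomorphisms to `L⟦X⟧` which agree modulo `X ^ m`, `m ≥ 1`, differ modulo `X ^ (m + 1)` by
`X ^ m` times a derivation. -/
theorem diff_deriv (φ φ' : B →ₐ[k] PowerSeries L) (m : ℕ) (hm : 1 ≤ m)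
    (h : ∀ b, (PowerSeries.X : PowerSeries L) ^ m ∣ φ b - φ' b) :
    ∃ δ : B →ₐ[k] DualNumber L, (∀ b, (δ b).fst = PowerSeries.constantCoeff (φ b)) ∧
      ∀ b, (δ b).snd = PowerSeries.coeff m (φ b) - PowerSeries.coeff m (φ' b) := by
  choose u hu using h
  have hco : ∀ b, PowerSeries.constantCoeff (φ b) = PowerSeries.constantCoeff (φ' b) := by
    intro b
    have h1 : PowerSeries.constantCoeff (φ b - φ' b) = 0 := by
      rw [hu b, map_mul, map_pow, PowerSeries.constantCoeff_X, zero_pow (by omega), zero_mul]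
    rw [map_sub, sub_eq_zero] at h1
    exact h1
  have hcf : ∀ b, PowerSeries.coeff m (φ b) - PowerSeries.coeff m (φ' b) =
      PowerSeries.constantCoeff (u b) := by
    intro b
    rw [← map_sub, hu b]
    have := PowerSeries.coeff_X_pow_mul (u b) m 0
    rw [zero_add] at this
    rw [this, PowerSeries.coeff_zero_eq_constantCoeff]
  let f : B →ₐ[k] L :=
    { (PowerSeries.constantCoeff (R := L)).comp φ.toRingHom with
      commutes' := fun c => by
        change PowerSeries.constantCoeff (φ (algebraMap k B c)) = _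
        rw [AlgHom.commutes, PowerSeries.algebraMap_apply, PowerSeries.constantCoeff_C] }
  refine ⟨c_mk f (fun b => PowerSeries.coeff m (φ b) - PowerSeries.coeff m (φ' b)) ?_ ?_ ?_, ?_, ?_⟩
  · intro a b
    simp only [map_add]
    ring
  · intro a b
    have h1 : (PowerSeries.X : PowerSeries L) ^ m * u (a * b) =
        PowerSeries.X ^ m * (φ a * u b + u a * φ' b) := by
      rw [← hu, map_mul, map_mul]
      have e1 := hu a
      have e2 := hu b
      linear_combination (φ a) * e2 + (φ' b) * e1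
    have h2 : PowerSeries.constantCoeff (u (a * b)) =
        PowerSeries.constantCoeff (φ a * u b + u a * φ' b) := by
      have h3 := congrArg (PowerSeries.coeff (0 + m)) h1
      rw [PowerSeries.coeff_X_pow_mul, PowerSeries.coeff_X_pow_mul] at h3
      rwa [PowerSeries.coeff_zero_eq_constantCoeff] at h3
    change PowerSeries.coeff m (φ (a * b)) - PowerSeries.coeff m (φ' (a * b)) =
      PowerSeries.constantCoeff (φ a) * (PowerSeries.coeff m (φ b) - PowerSeries.coeff m (φ' b)) +
      PowerSeries.constantCoeff (φ b) * (PowerSeries.coeff m (φ a) - PowerSeries.coeff m (φ' a))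
    rw [hcf, hcf, hcf, h2, map_add, map_mul, map_mul, hco b]
    ring
  · intro c
    simp only [AlgHom.commutes]
    exact sub_self _
  · intro b
    rw [c_mk_fst]
    rfl
  · intro b
    rw [c_mk_snd]

/-- Transition of tangent vectors between two systems of etale coordinates: over `L` there is an
invertible matrix `J` with `D (z') = J (D z)` for all derivations `D` along `f`. -/
theorem etale_jacobian (z z' : Fin n → B) (hz : IsEtaleCoord k z) (hz' : IsEtaleCoord k z')
    (f : B →ₐ[k] L) :
    ∃ J : Matrix (Fin n) (Fin n) L, IsUnit J ∧ ∀ δ : B →ₐ[k] DualNumber L, (∀ b, (δ b).fst = f b) →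
      (fun j => (δ (z' j)).snd) = J.mulVec fun j => (δ (z j)).snd := by
  have key : ∀ (z z' : Fin n → B), IsEtaleCoord k z → 
      ∃ J : Matrix (Fin n) (Fin n) L, ∀ δ : B →ₐ[k] DualNumber L, (∀ b, (δ b).fst = f b) →
      (fun j => (δ (z' j)).snd) = J.mulVec fun j => (δ (z j)).snd := by
    intro z z' hz
    choose e he using fun i : Fin n => (etale_dual z hz f (Pi.single i 1)).exists
    refine ⟨Matrix.of fun i j => (e j (z' i)).snd, fun δ hδ => ?_⟩
    have hD : ∀ b, (δ b).snd = ∑ j, (e j b).snd * (δ (z j)).snd := by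
      let δ' : B →ₐ[k] DualNumber L := c_mk f (fun b => ∑ j, (e j b).snd * (δ (z j)).snd)
        (fun a b => by
          simp only [map_add, TrivSqZeroExt.snd_add, add_mul, Finset.sum_add_distrib])
        (fun a b => by
          rw [Finset.mul_sum, Finset.mul_sum, ← Finset.sum_add_distrib]
          refine Finset.sum_congr rfl fun j _ => ?_
          rw [c_snd_mul, (he j).1, (he j).1]
          ring)
        (fun c => by
          refine Finset.sum_eq_zero fun j _ => ?_
          rw [c_snd_alg, zero_mul])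
      have h1 : δ = δ' := by
        refine (etale_dual z hz f (fun j => (δ (z j)).snd)).unique ⟨hδ, fun j => rfl⟩
          ⟨fun b => c_mk_fst _ _ _ _ _ b, fun j => ?_⟩
        rw [c_mk_snd]
        rw [Finset.sum_eq_single j]
        · rw [(he j).2, Pi.single_eq_same, one_mul]
        · intro i _ hi
          rw [(he i).2, Pi.single_eq_of_ne (Ne.symm hi), zero_mul]
        · intro hj
          exact absurd (Finset.mem_univ j) hj
      intro b
      conv_lhs => rw [h1]
      exact c_mk_snd _ _ _ _ _ b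
    funext i
    rw [hD]
    rfl
  obtain ⟨J, hJ⟩ := key z z' hz
  obtain ⟨J', hJ'⟩ := key z' z hz'
  refine ⟨J, ?_, hJ⟩
  have h1 : J' * J = 1 := by
    ext i j
    obtain ⟨δ, h2, h3⟩ := (etale_dual z hz f (Pi.single j 1)).exists
    have h4 := hJ' δ h2
    rw [hJ δ h2] at h4
    have h5 : (fun j => (δ (z j)).snd) = (Pi.single j 1 : Fin n → L) := funext h3
    rw [h5, Matrix.mulVec_mulVec, Matrix.mulVec_single_one] at h4
    have h6 := congrFun h4 i
    rw [Matrix.col_apply] at h6
    rw [← h6, Matrix.one_apply, Pi.single_apply]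
  exact (Matrix.isUnit_iff_isUnit_det _).2 (Matrix.isUnit_det_of_left_inverse h1)

end Pool.Agent.H19VF
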