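import Pool.Agent.H19VF.A_Alg

/-! # Task D: fixed points and the scalar Cousin problem (Lemmas 2.1, 2.2 of the paper) -/

set_option autoImplicit false

open Polynomial

universe u

namespace Pool.Agent.H19VF

/-- Lemma 2.1: strictly causal maps have fixed points. -/
theorem fixed_point {ι : Type*} {R : Type u} [CommRing R]
    (N : (ι → PowerSeries R) → (ι → PowerSeries R))
    (hN : ∀ (m : ℕ) (a b : ι → PowerSeries R),
      (∀ i, (PowerSeries.X : PowerSeries R) ^ m ∣ a i - b i) →
      ∀ i, (PowerSeries.X : PowerSeries R) ^ (m + 1) ∣ N a i - N b i) :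
    ∃ a, N a = a := by
  classical
  set A : ℕ → (ι → PowerSeries R) := fun m => N^[m] 0 with hA
  have hsucc : ∀ m, A (m + 1) = N (A m) := fun m => Function.iterate_succ_apply' N m 0
  have h1 : ∀ m i, (PowerSeries.X : PowerSeries R) ^ m ∣ A (m + 1) i - A m i := by
    intro m
    induction m with
    | zero => intro i; simp
    | succ m ih =>
      intro i
      rw [hsucc (m + 1), hsucc m]
      have := hN m (A (m + 1)) (A m) ih i
      rwa [hsucc m] at this
  have h2 : ∀ m j i, (PowerSeries.X : PowerSeries R) ^ m ∣ A (m + j) i - A m i := by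
    intro m j i
    induction j with
    | zero => simp
    | succ j ih =>
      have h3 : A (m + (j + 1)) i - A m i
          = (A (m + j + 1) i - A (m + j) i) + (A (m + j) i - A m i) := by
        rw [show m + (j + 1) = m + j + 1 by ring]; ring
      rw [h3]
      exact dvd_add ((pow_dvd_pow _ (by omega)).trans (h1 (m + j) i)) ih
  set a : ι → PowerSeries R := fun i => PowerSeries.mk fun j => PowerSeries.coeff j (A (j + 1) i)
    with ha
  have h3 : ∀ m i, (PowerSeries.X : PowerSeries R) ^ m ∣ a i - A m i := by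
    intro m i
    rw [PowerSeries.X_pow_dvd_iff]
    intro j hj
    rw [map_sub, ha]
    simp only [PowerSeries.coeff_mk]
    have h4 := (PowerSeries.X_pow_dvd_iff.1 (h2 (j + 1) (m - (j + 1)) i)) j (by omega)
    rw [show j + 1 + (m - (j + 1)) = m by omega, map_sub] at h4
    rw [← neg_sub, h4, neg_zero]
  refine ⟨a, ?_⟩
  funext i
  rw [← sub_eq_zero]
  ext j
  rw [map_zero]
  have h5 : (PowerSeries.X : PowerSeries R) ^ (j + 1) ∣ N a i - a i := by
    have h6 : N a i - a i = (N a i - N (A j) i) - (a i - A (j + 1) i) := by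
      rw [hsucc j]; ring
    rw [h6]
    exact dvd_sub (hN j a (A j) (h3 j) i) (h3 (j + 1) i)
  exact PowerSeries.X_pow_dvd_iff.1 h5 j (by omega)

section van

variable {κ : Type u} [Field κ]

lemma Dinj : Function.Injective (polR (κ := κ)) := IsFractionRing.injective κ[X] (RatFunc κ)

lemma Dne {p : κ[X]} (hp : p ≠ 0) : polR p ≠ 0 := (map_ne_zero_iff _ Dinj).2 hp

lemma Dfrac (g : RatFunc κ) : ∃ p q : κ[X], q ≠ 0 ∧ g * polR q = polR p := by
  obtain ⟨p, q, hq, rfl⟩ := IsFractionRing.div_surjective (A := κ[X]) g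
  have hq0 : q ≠ 0 := nonZeroDivisors.ne_zero hq
  exact ⟨p, q, hq0, div_mul_cancel₀ _ (Dne hq0)⟩

lemma Dunif_mem (s : Option κ) : unif s ∈ regAt s := by
  cases s with
  | none =>
    refine ⟨1, X, X_ne_zero, by simp, ?_⟩
    rw [map_one]
    exact inv_mul_cancel₀ (Dne X_ne_zero)
  | some a => exact polR_mem_regFin a _

end van

/-- Basic properties of `Van`. -/
theorem Van.add {κ : Type u} [Field κ] {s : Option κ} {m : ℤ} {g g' : RatFunc κ}
    (h : Van s m g) (h' : Van s m g') : Van s m (g + g') := by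
  have := (regAt s).add_mem h h'
  rwa [← add_mul] at this

theorem Van.mul {κ : Type u} [Field κ] {s : Option κ} {m m' : ℤ} {g g' : RatFunc κ}
    (h : Van s m g) (h' : Van s m' g') : Van s (m + m') (g * g') := by
  have h1 := (regAt s).mul_mem h h'
  have h2 : g * unif s ^ (-m) * (g' * unif s ^ (-m')) = g * g' * unif s ^ (-(m + m')) := by
    rw [show -(m + m') = -m + -m' by ring, zpow_add₀ (unif_ne_zero s)]; ring
  rw [h2] at h1
  exact h1

theorem Van.mono {κ : Type u} [Field κ] {s : Option κ} {m m' : ℤ} {g : RatFunc κ}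
    (h : Van s m g) (hm : m' ≤ m) : Van s m' g := by
  obtain ⟨d, rfl⟩ := Int.exists_add_of_le hm
  have h1 := (regAt s).mul_mem h ((regAt s).pow_mem (Dunif_mem s) d)
  have h2 : g * unif s ^ (-(m' + (d : ℤ))) * unif s ^ d = g * unif s ^ (-m') := by
    rw [mul_assoc, ← zpow_natCast (unif s) d, ← zpow_add₀ (unif_ne_zero s)]
    congr 2
    ring
  rw [h2] at h1
  exact h1

theorem van_zero_iff {κ : Type u} [Field κ] {s : Option κ} {g : RatFunc κ} :
    Van s 0 g ↔ g ∈ regAt s := by
  unfold Van
  rw [neg_zero, zpow_zero, mul_one]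

/-- Every rational function has finite order at each place. -/
theorem exists_van {κ : Type u} [Field κ] (s : Option κ) (g : RatFunc κ) : ∃ m : ℤ, Van s m g := by
  obtain ⟨p, q, hq, h⟩ := Dfrac g
  cases s with
  | none =>
    refine ⟨-(p.natDegree : ℤ), p, q * X ^ p.natDegree, mul_ne_zero hq (pow_ne_zero _ X_ne_zero),
      ?_, ?_⟩
    · rw [natDegree_mul hq (pow_ne_zero _ X_ne_zero), natDegree_X_pow]
      omega
    · rw [neg_neg, zpow_natCast, map_mul, map_pow, ← h]
      change g * ((polR X)⁻¹) ^ p.natDegree * _ = _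
      have hX : polR (κ := κ) X ≠ 0 := Dne X_ne_zero
      rw [inv_pow]
      field_simp
  | some a =>
    obtain ⟨q', hq', hnd⟩ := Polynomial.exists_eq_pow_rootMultiplicity_mul_and_not_dvd q hq a
    refine ⟨-(q.rootMultiplicity a : ℤ), p, q', ?_, ?_⟩
    · intro h0
      exact hnd (dvd_iff_isRoot.2 h0)
    · rw [neg_neg, zpow_natCast, ← h]
      change g * (polR (X - C a)) ^ (q.rootMultiplicity a) * polR q' = _
      conv_rhs => rw [hq']
      rw [map_mul, map_pow]
      ring

/-- The local rings are local: an element which does not vanish at `s` is a unit. -/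
theorem regAt_inv {κ : Type u} [Field κ] {s : Option κ} {g : RatFunc κ} (h : g ∈ regAt s)
    (h1 : ¬ Van s 1 g) : g⁻¹ ∈ regAt s := by
  cases s with
  | none =>
    obtain ⟨p, q, hq, hd, h⟩ := h
    have hp : p ≠ 0 := by
      rintro rfl
      apply h1
      refine ⟨0, q, hq, by simp, ?_⟩
      have hg : g = 0 := by
        rw [map_zero] at h
        rcases mul_eq_zero.1 h with h | h
        · exact h
        · exact absurd h (Dne hq)
      rw [hg]; simp
    have hdeg : q.natDegree ≤ p.natDegree := by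
      by_contra hlt
      apply h1
      refine ⟨p * X, q, hq, ?_, ?_⟩
      · rw [natDegree_mul hp X_ne_zero, natDegree_X]
        omega
      · rw [map_mul, ← h]
        change g * ((polR X)⁻¹) ^ (-1 : ℤ) * _ = _
        rw [zpow_neg, zpow_one, inv_inv]
        ring
    have hg : g ≠ 0 := by
      rintro rfl
      rw [zero_mul] at h
      exact Dne hp h.symm
    refine ⟨q, p, hp, hdeg, ?_⟩
    rw [← h, ← mul_assoc, inv_mul_cancel₀ hg, one_mul]
  | some a =>
    obtain ⟨p, q, hq, h⟩ := h
    have hp : p.eval a ≠ 0 := by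
      intro h0
      obtain ⟨p', rfl⟩ := dvd_iff_isRoot.2 h0
      apply h1
      refine ⟨p', q, hq, ?_⟩
      change g * (polR (X - C a)) ^ (-1 : ℤ) * _ = _
      rw [map_mul] at h
      have hX : polR (κ := κ) (X - C a) ≠ 0 := Dne (X_sub_C_ne_zero a)
      rw [zpow_neg, zpow_one]
      field_simp
      rw [h]
    have hp0 : p ≠ 0 := by
      rintro rfl
      simp at hp
    have hg : g ≠ 0 := by
      rintro rfl
      rw [zero_mul] at h
      exact Dne hp0 h.symm
    refine ⟨q, p, hp, ?_⟩
    rw [← h, ← mul_assoc, inv_mul_cancel₀ hg, one_mul]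

section van2

variable {κ : Type u} [Field κ]

lemma Dvan_neg {s : Option κ} {m : ℤ} {g : RatFunc κ} (h : Van s m g) : Van s m (-g) := by
  have := (regAt s).neg_mem h
  rwa [← neg_mul] at this

lemma Dvan_sub {s : Option κ} {m : ℤ} {g g' : RatFunc κ} (h : Van s m g)
    (h' : Van s m g') : Van s m (g - g') := by
  rw [sub_eq_add_neg]; exact h.add (Dvan_neg h')

lemma Dvan_mul_reg {s : Option κ} {m : ℤ} {g g' : RatFunc κ} (h : Van s m g)
    (h' : g' ∈ regAt s) : Van s m (g' * g) := by
  have := (van_zero_iff.2 h').mul h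
  rwa [zero_add] at this

/-- a nonzero constant does not vanish -/
lemma Dconst {s : Option κ} {c : κ} (h : Van s 1 (polR (C c))) : c = 0 := by
  by_contra hc
  cases s with
  | none =>
    obtain ⟨p, q, hq, hd, h⟩ := h
    change polR (C c) * ((polR X)⁻¹) ^ (-1 : ℤ) * _ = _ at h
    rw [zpow_neg, zpow_one, inv_inv, ← map_mul, ← map_mul] at h
    have h2 := Dinj h
    rw [← h2, mul_assoc, natDegree_C_mul hc, natDegree_mul X_ne_zero hq, natDegree_X] at hd
    omega
  | some a =>
    obtain ⟨p, q, hq, h⟩ := h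
    change polR (C c) * (polR (X - C a)) ^ (-1 : ℤ) * _ = _ at h
    have hX : polR (κ := κ) (X - C a) ≠ 0 := Dne (X_sub_C_ne_zero a)
    rw [zpow_neg, zpow_one] at h
    have h2 : polR (C c * q) = polR (p * (X - C a)) := by
      rw [map_mul, map_mul, ← h]
      field_simp
    have h3 := congrArg (Polynomial.eval a) (Dinj h2)
    rw [eval_mul, eval_mul, eval_C, eval_sub, eval_X, eval_C, sub_self, mul_zero] at h3
    exact (mul_ne_zero hc hq) h3

lemma Dres {s : Option κ} {g : RatFunc κ} (h : g ∈ regAt s) :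
    ∃ c : κ, Van s 1 (g - polR (C c)) := by
  cases s with
  | none =>
    obtain ⟨p, q, hq, hd, h⟩ := h
    have hlq : q.leadingCoeff ≠ 0 := leadingCoeff_ne_zero.2 hq
    set c := p.coeff q.natDegree / q.leadingCoeff with hc
    refine ⟨c, (p - C c * q) * X, q, hq, ?_, ?_⟩
    · by_cases h0 : p - C c * q = 0
      · rw [h0]; simp
      rw [natDegree_mul h0 X_ne_zero, natDegree_X]
      have hle : (p - C c * q).natDegree ≤ q.natDegree := by
        refine (natDegree_sub_le _ _).trans (max_le hd ?_)
        exact (natDegree_C_mul_le _ _)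
      rcases Nat.lt_or_ge (p - C c * q).natDegree q.natDegree with hlt | hge
      · omega
      · exfalso
        have heq : (p - C c * q).natDegree = q.natDegree := le_antisymm hle hge
        have h2 : (p - C c * q).coeff q.natDegree = 0 := by
          rw [coeff_sub, coeff_C_mul, hc, ← Polynomial.leadingCoeff]
          field_simp
          ring
        rw [← heq] at h2
        exact h0 (leadingCoeff_eq_zero.1 h2)
    · change (g - polR (C c)) * ((polR X)⁻¹) ^ (-1 : ℤ) * _ = _
      rw [zpow_neg, zpow_one, inv_inv, map_mul, map_sub, map_mul, ← h]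
      ring
  | some a =>
    obtain ⟨p, q, hq, h⟩ := h
    set c := p.eval a / q.eval a with hc
    have h0 : (p - C c * q).IsRoot a := by
      rw [IsRoot.def, eval_sub, eval_mul, eval_C, hc]
      field_simp
      ring
    obtain ⟨r, hr⟩ := dvd_iff_isRoot.2 h0
    refine ⟨c, r, q, hq, ?_⟩
    change (g - polR (C c)) * (polR (X - C a)) ^ (-1 : ℤ) * _ = _
    have hX : polR (κ := κ) (X - C a) ≠ 0 := Dne (X_sub_C_ne_zero a)
    have h2 : (g - polR (C c)) * polR q = polR (X - C a) * polR r := by
      rw [← map_mul, ← hr, map_sub, map_mul, ← h]; ring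
    rw [zpow_neg, zpow_one, mul_right_comm, h2]
    field_simp

lemma Dres_uniq {s : Option κ} {g : RatFunc κ} {c c' : κ}
    (h : Van s 1 (g - polR (C c))) (h' : Van s 1 (g - polR (C c'))) : c = c' := by
  have h2 := Dvan_sub h' h
  have h3 : g - polR (C c') - (g - polR (C c)) = polR (C (c - c')) := by
    rw [C_sub, map_sub]; ring
  rw [h3] at h2
  exact sub_eq_zero.1 (Dconst h2)

end van2

/-- The residue map of the local ring at `s`: the value of `g` at `s`. -/
theorem exists_residue {κ : Type u} [Field κ] (s : Option κ) :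
    ∃ ρ : regAt s →+* κ, (∀ a : κ, ρ ⟨polR (C a), polR_C_mem s a⟩ = a) ∧
      ∀ g : regAt s, ρ g = 0 ↔ Van s 1 (g : RatFunc κ) := by
  classical
  choose f hf using fun g : regAt s => Dres g.2
  have hone : f 1 = 1 := by
    refine Dres_uniq (hf 1) ?_
    have : ((1 : regAt s) : RatFunc κ) - polR (C 1) = 0 := by simp
    rw [this]
    change (0 : RatFunc κ) * _ ∈ _
    rw [zero_mul]; exact (regAt s).zero_mem
  have hzero' : Van s 1 (0 : RatFunc κ) := by
    change (0 : RatFunc κ) * _ ∈ _
    rw [zero_mul]; exact (regAt s).zero_mem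
  have hzero : f 0 = 0 := by
    refine Dres_uniq (hf 0) ?_
    have : ((0 : regAt s) : RatFunc κ) - polR (C 0) = 0 := by simp
    rw [this]; exact hzero'
  have hadd : ∀ g g', f (g + g') = f g + f g' := by
    intro g g'
    refine Dres_uniq (hf (g + g')) ?_
    have : ((g + g' : regAt s) : RatFunc κ) - polR (C (f g + f g'))
        = ((g : RatFunc κ) - polR (C (f g))) + ((g' : RatFunc κ) - polR (C (f g'))) := by
      rw [C_add, map_add]
      push_cast
      ring
    rw [this]
    exact (hf g).add (hf g')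
  have hmul : ∀ g g', f (g * g') = f g * f g' := by
    intro g g'
    refine Dres_uniq (hf (g * g')) ?_
    have : ((g * g' : regAt s) : RatFunc κ) - polR (C (f g * f g'))
        = (g : RatFunc κ) * ((g' : RatFunc κ) - polR (C (f g')))
          + polR (C (f g')) * ((g : RatFunc κ) - polR (C (f g))) := by
      rw [C_mul, map_mul]
      push_cast
      ring
    rw [this]
    exact (Dvan_mul_reg (hf g') g.2).add (Dvan_mul_reg (hf g) (polR_C_mem s _))
  refine ⟨⟨⟨⟨f, hone⟩, hmul⟩, hzero, hadd⟩, ?_, ?_⟩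
  · intro a
    change f _ = a
    refine Dres_uniq (hf _) ?_
    rw [sub_self]; exact hzero'
  · intro g
    change f g = 0 ↔ _
    constructor
    · intro h
      have := hf g
      rw [h, C_0, map_zero, sub_zero] at this
      exact this
    · intro h
      refine Dres_uniq (hf g) ?_
      rw [C_0, map_zero, sub_zero]; exact h

section cousin

variable {κ : Type u} [Field κ]

lemma Dvan_pow (s : Option κ) (m : ℤ) : Van s m (unif s ^ m) := by
  change unif s ^ m * unif s ^ (-m) ∈ _
  rw [← zpow_add₀ (unif_ne_zero s), add_neg_cancel, zpow_zero]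
  exact (regAt s).one_mem

/-- approximation by polynomials at a point of the affine line -/
lemma Dapprox_reg (a : κ) (g : RatFunc κ) (hg : g ∈ regAt (some a)) (m : ℕ) :
    ∃ p : κ[X], Van (some a) m (g - polR p) := by
  obtain ⟨p, q, hq, h⟩ := hg
  have hcop : IsCoprime q ((X - C a) ^ m) := by
    apply IsCoprime.pow_right
    rw [isCoprime_comm]
    refine (irreducible_X_sub_C a).coprime_iff_not_dvd.2 ?_
    intro hd
    exact hq (dvd_iff_isRoot.1 hd)
  obtain ⟨u, v, huv⟩ := hcop
  refine ⟨p * u, p * v, q, hq, ?_⟩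
  change (g - polR (p * u)) * (polR (X - C a)) ^ (-(m : ℤ)) * _ = _
  have hX : polR (κ := κ) (X - C a) ≠ 0 := Dne (X_sub_C_ne_zero a)
  have h2 : (g - polR (p * u)) * polR q = polR (p * v) * polR (X - C a) ^ m := by
    rw [sub_mul, h, ← map_mul, ← map_pow, ← map_mul, ← map_sub]
    congr 1
    linear_combination (-p) * huv
  rw [mul_right_comm, h2, zpow_neg, zpow_natCast]
  field_simp

lemma Dapprox (a : κ) (g : RatFunc κ) (m : ℕ) :
    ∃ (p : κ[X]) (N : ℕ), Van (some a) m (g - polR p * unif (some a) ^ (-(N : ℤ))) := by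
  obtain ⟨e, he⟩ := exists_van (some a) g
  have he' : Van (some a) (-((-e).toNat : ℤ)) g := he.mono (by omega)
  have h1 := he'.mul (Dvan_pow (some a) ((-e).toNat : ℤ))
  rw [neg_add_cancel] at h1
  obtain ⟨p, hp⟩ := Dapprox_reg a _ (van_zero_iff.1 h1) (m + (-e).toNat)
  refine ⟨p, (-e).toNat, ?_⟩
  have h2 := hp.mul (Dvan_pow (some a) (-((-e).toNat : ℤ)))
  have h3 : (g * unif (some a) ^ ((-e).toNat : ℤ) - polR p) * unif (some a) ^ (-((-e).toNat : ℤ))
      = g - polR p * unif (some a) ^ (-((-e).toNat : ℤ)) := by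
    rw [sub_mul, mul_assoc, ← zpow_add₀ (unif_ne_zero _), add_neg_cancel, zpow_zero, mul_one]
  rw [h3] at h2
  exact h2.mono (by push_cast; omega)

lemma DregOff_mono {S T : Finset κ} (h : S ⊆ T) {g : RatFunc κ} (hg : g ∈ regOff S) :
    g ∈ regOff T := by
  classical
  obtain ⟨p, N, hp⟩ := hg
  refine ⟨p * (∏ s ∈ T \ S, (X - C s)) ^ N, N, ?_⟩
  rw [map_mul, ← hp, ← Finset.prod_sdiff h, map_mul, map_pow]
  ring

lemma DregOff_unif {S : Finset κ} {a : κ} (ha : a ∈ S) (N : ℕ) :
    unif (some a) ^ (-(N : ℤ)) ∈ regOff S := by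
  refine DregOff_mono (Finset.singleton_subset_iff.2 ha) ⟨1, N, ?_⟩
  rw [Finset.prod_singleton]
  change polR (X - C a) ^ (-(N : ℤ)) * _ = _
  have hX : polR (κ := κ) (X - C a) ≠ 0 := Dne (X_sub_C_ne_zero a)
  rw [map_one, zpow_neg, zpow_natCast]
  field_simp

lemma Dvan_prod (S : Finset κ) (n : κ → ℕ) (s : κ) (hs : s ∈ S) :
    Van (some s) (n s) (polR (∏ t ∈ S, (X - C t) ^ n t)) := by
  classical
  rw [← Finset.mul_prod_erase S _ hs, map_mul, map_pow, mul_comm]
  have h1 := Dvan_pow (some s) (n s : ℤ)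
  rw [zpow_natCast] at h1
  exact Dvan_mul_reg h1 (polR_mem_regFin s _)

lemma Dcousin_fin (S : Finset κ) (n : κ → ℕ) (g : Option κ → RatFunc κ) :
    ∃ q ∈ regOff S, ∀ s ∈ S, Van (some s) (n s) (q - g (some s)) := by
  classical
  induction S using Finset.induction_on with
  | empty => exact ⟨0, (regOff _).zero_mem, by simp⟩
  | insert a S ha ih =>
    obtain ⟨q, hq, h⟩ := ih
    set D : κ[X] := ∏ t ∈ S, (X - C t) ^ n t with hD
    have hD0 : D ≠ 0 := Finset.prod_ne_zero_iff.2 fun t _ => pow_ne_zero _ (X_sub_C_ne_zero t)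
    obtain ⟨p, N, hp⟩ := Dapprox a ((g (some a) - q) * (polR D)⁻¹) (n a)
    refine ⟨q + polR D * (polR p * unif (some a) ^ (-(N : ℤ))), ?_, ?_⟩
    · refine (regOff _).add_mem (DregOff_mono (Finset.subset_insert _ _) hq) ?_
      refine (regOff _).mul_mem (polR_mem_regOff _ _) ?_
      exact (regOff _).mul_mem (polR_mem_regOff _ _) (DregOff_unif (Finset.mem_insert_self _ _) N)
    · intro s hs
      rcases Finset.mem_insert.1 hs with rfl | hs
      · have h1 := Dvan_neg (Dvan_mul_reg hp (polR_mem_regFin s D))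
        have h2 : -(polR D * ((g (some s) - q) * (polR D)⁻¹
            - polR p * unif (some s) ^ (-(N : ℤ))))
            = q + polR D * (polR p * unif (some s) ^ (-(N : ℤ))) - g (some s) := by
          have := Dne hD0
          have h3 : polR D * ((g (some s) - q) * (polR D)⁻¹) = g (some s) - q := by
            field_simp
          rw [mul_sub, h3]
          ring
        rw [h2] at h1
        exact h1
      · have hne : a ≠ s := by rintro rfl; exact ha hs
        have h1 := (h s hs)
        have h2 : q + polR D * (polR p * unif (some a) ^ (-(N : ℤ))) - g (some s)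
            = (q - g (some s)) + (polR p * unif (some a) ^ (-(N : ℤ))) * polR D := by ring
        rw [h2]
        refine h1.add (Dvan_mul_reg (Dvan_prod S n s hs) ?_)
        refine (regAt (some s)).mul_mem (polR_mem_regFin s _) ?_
        refine ⟨1, (X - C a) ^ N, ?_, ?_⟩
        · rw [eval_pow, eval_sub, eval_X, eval_C]
          exact pow_ne_zero _ (sub_ne_zero.2 hne.symm)
        · change polR (X - C a) ^ (-(N : ℤ)) * _ = _
          have hX : polR (κ := κ) (X - C a) ≠ 0 := Dne (X_sub_C_ne_zero a)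
          rw [map_one, map_pow, zpow_neg, zpow_natCast]
          field_simp

/-- the polynomial part at infinity -/
lemma Dpolypart (g : RatFunc κ) : ∃ p : κ[X], Van none 1 (g - polR p) := by
  obtain ⟨a, b, hb, h⟩ := Dfrac g
  refine ⟨a / b, (a % b) * X, b, hb, ?_, ?_⟩
  · by_cases h0 : a % b = 0
    · rw [h0]; simp
    rw [natDegree_mul h0 X_ne_zero, natDegree_X]
    have : (a % b).natDegree < b.natDegree := by
      apply natDegree_lt_natDegree h0
      exact EuclideanDomain.mod_lt a hb
    omega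
  · change (g - polR (a / b)) * ((polR X)⁻¹) ^ (-1 : ℤ) * _ = _
    rw [zpow_neg, zpow_one, inv_inv, map_mul]
    have h2 : (g - polR (a / b)) * polR b = polR (a % b) := by
      rw [sub_mul, h, ← map_mul, ← map_sub]
      congr 1
      have := EuclideanDomain.div_add_mod a b
      linear_combination -this
    rw [← h2]; ring

lemma Dvan_poly (p : κ[X]) : Van none (-(p.natDegree : ℤ)) (polR p) := by
  refine ⟨p, X ^ p.natDegree, pow_ne_zero _ X_ne_zero, by simp, ?_⟩
  change polR p * ((polR X)⁻¹) ^ (- -(p.natDegree : ℤ)) * _ = _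
  have hX : polR (κ := κ) X ≠ 0 := Dne X_ne_zero
  rw [neg_neg, zpow_natCast, map_pow, inv_pow]
  field_simp

end cousin

/-- Lemma 2.2: the scalar Cousin problem. -/
theorem cousin {κ : Type u} [Field κ] (S : Finset κ) (n : κ → ℕ) (e : ℤ)
    (h : (∑ s ∈ S, (n s : ℤ)) ≤ e + 1) (g : Option κ → RatFunc κ) :
    ∃ q ∈ regOff S, (∀ s ∈ S, Van (some s) (n s) (q - g (some s))) ∧ Van none (-e) (q - g none) := by
  classical
  obtain ⟨q, hq, h1⟩ := Dcousin_fin S n g
  set D : κ[X] := ∏ t ∈ S, (X - C t) ^ n t with hD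
  have hD0 : D ≠ 0 := Finset.prod_ne_zero_iff.2 fun t _ => pow_ne_zero _ (X_sub_C_ne_zero t)
  have hdeg : (D.natDegree : ℤ) = ∑ s ∈ S, (n s : ℤ) := by
    rw [hD, natDegree_prod _ _ fun t _ => pow_ne_zero _ (X_sub_C_ne_zero t)]
    push_cast
    refine Finset.sum_congr rfl fun t _ => ?_
    rw [natDegree_pow, natDegree_X_sub_C, mul_one]
  obtain ⟨p, hp⟩ := Dpolypart ((g none - q) * (polR D)⁻¹)
  refine ⟨q + polR D * polR p, ?_, ?_, ?_⟩
  · exact (regOff _).add_mem hq ((regOff _).mul_mem (polR_mem_regOff _ _) (polR_mem_regOff _ _))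
  · intro s hs
    have h2 : q + polR D * polR p - g (some s) = (q - g (some s)) + polR p * polR D := by ring
    rw [h2]
    exact (h1 s hs).add (Dvan_mul_reg (Dvan_prod S n s hs) (polR_mem_regFin s _))
  · have h2 := Dvan_neg ((Dvan_poly D).mul hp)
    have h3 : -(polR D * ((g none - q) * (polR D)⁻¹ - polR p)) = q + polR D * polR p - g none := by
      have := Dne hD0
      have h4 : polR D * ((g none - q) * (polR D)⁻¹) = g none - q := by
        field_simp
      rw [mul_sub, h4]
      ring
    rw [h3] at h2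
    exact h2.mono (by omega)

end Pool.Agent.H19VF
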