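import Mathlib

/-!
# Points and rational curves of a scheme over a field

`Pt π R` : the `R`-points of the `k`-scheme `π : V ⟶ Spec k`.
`Crv π R` : the `k`-morphisms from the projective line over `R` to `V`, as pairs of morphisms from
the two standard affine lines which agree on the overlap.
-/

set_option autoImplicit false

open AlgebraicGeometry CategoryTheory Polynomial

universe u

namespace Pool.Agent.H19VF

section points

variable {k : Type u} [Field k]

/-- The `R`-points over `k` of the `k`-scheme `π : V ⟶ Spec k`. -/
noncomputable def Pt {V : Scheme.{u}} (π : V ⟶ Spec (.of k)) (R : Type u) [CommRing R]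
    [Algebra k R] : Type u :=
  {g : Spec (.of R) ⟶ V // g ≫ π = Spec.map (CommRingCat.ofHom (algebraMap k R))}

variable {V : Scheme.{u}} {π : V ⟶ Spec (.of k)}

@[ext] lemma Pt.ext {R : Type u} [CommRing R] [Algebra k R] {p q : Pt π R} (h : p.1 = q.1) :
    p = q := Subtype.ext h

/-- The image of a point under a homomorphism of `k`-algebras. -/
noncomputable def Pt.map {R R' : Type u} [CommRing R] [Algebra k R] [CommRing R'] [Algebra k R']
    (p : Pt π R) (φ : R →ₐ[k] R') : Pt π R' :=
  ⟨Spec.map (CommRingCat.ofHom φ.toRingHom) ≫ p.1, by
    rw [Category.assoc, p.2, ← Spec.map_comp, ← CommRingCat.ofHom_comp]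
    congr 2
    exact φ.comp_algebraMap⟩

lemma Pt.map_id {R : Type u} [CommRing R] [Algebra k R] (p : Pt π R) :
    p.map (AlgHom.id k R) = p := by
  apply Pt.ext
  simp only [Pt.map]
  change Spec.map (𝟙 _) ≫ p.1 = p.1
  simp

lemma Pt.map_map {R R' R'' : Type u} [CommRing R] [Algebra k R] [CommRing R'] [Algebra k R']
    [CommRing R''] [Algebra k R''] (p : Pt π R) (φ : R →ₐ[k] R') (ψ : R' →ₐ[k] R'') :
    (p.map φ).map ψ = p.map (ψ.comp φ) := by
  apply Pt.ext
  simp only [Pt.map]
  rw [← Category.assoc, ← Spec.map_comp, ← CommRingCat.ofHom_comp]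
  rfl

/-- The `k`-point of a `k`-scheme given by a closed point, as an `R`-point. -/
noncomputable def Pt.const {R : Type u} [CommRing R] [Algebra k R] (v : Pt π k) : Pt π R :=
  v.map (Algebra.ofId k R)

/-- The embedding of `R[X]` in the Laurent polynomials with `X ↦ X`. -/
noncomputable def lauY (k : Type u) [Field k] (R : Type u) [CommRing R] [Algebra k R] :
    R[X] →ₐ[k] LaurentPolynomial R :=
  (Polynomial.aeval (LaurentPolynomial.T 1 : LaurentPolynomial R) :
    R[X] →ₐ[R] LaurentPolynomial R).restrictScalars k

/-- The embedding of `R[X]` in the Laurent polynomials with `X ↦ X⁻¹`. -/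
noncomputable def lauW (k : Type u) [Field k] (R : Type u) [CommRing R] [Algebra k R] :
    R[X] →ₐ[k] LaurentPolynomial R :=
  (Polynomial.aeval (LaurentPolynomial.T (-1) : LaurentPolynomial R) :
    R[X] →ₐ[R] LaurentPolynomial R).restrictScalars k

/-- The map of Laurent polynomial rings induced by a homomorphism of `k`-algebras. -/
noncomputable def lmap {R R' : Type u} [CommRing R] [Algebra k R] [CommRing R'] [Algebra k R']
    (φ : R →ₐ[k] R') : LaurentPolynomial R →ₐ[k] LaurentPolynomial R' :=
  AddMonoidAlgebra.mapAlgHom ℤ φ

/-- The map of polynomial rings induced by a homomorphism of `k`-algebras. -/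
noncomputable abbrev pmap {R R' : Type u} [CommRing R] [Algebra k R] [CommRing R'] [Algebra k R']
    (φ : R →ₐ[k] R') : R[X] →ₐ[k] R'[X] := Polynomial.mapAlgHom φ

lemma lmap_C {R R' : Type u} [CommRing R] [Algebra k R] [CommRing R'] [Algebra k R']
    (φ : R →ₐ[k] R') (a : R) : lmap φ (LaurentPolynomial.C a) = LaurentPolynomial.C (φ a) :=
  AddMonoidAlgebra.mapAlgHom_single ..

lemma lmap_T {R R' : Type u} [CommRing R] [Algebra k R] [CommRing R'] [Algebra k R']
    (φ : R →ₐ[k] R') (n : ℤ) : lmap φ (LaurentPolynomial.T n) = LaurentPolynomial.T n :=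
  (AddMonoidAlgebra.mapAlgHom_single ..).trans (by rw [map_one]; rfl)

lemma lmap_lauY {R R' : Type u} [CommRing R] [Algebra k R] [CommRing R'] [Algebra k R']
    (φ : R →ₐ[k] R') : (lmap φ).comp (lauY k R) = (lauY k R').comp (pmap φ) := by
  apply AlgHom.coe_ringHom_injective
  apply Polynomial.ringHom_ext
  · intro a
    change lmap φ (Polynomial.aeval _ (C a)) = Polynomial.aeval _ (Polynomial.map _ (C a))
    rw [Polynomial.map_C, Polynomial.aeval_C, Polynomial.aeval_C]
    exact lmap_C φ a
  · change lmap φ (Polynomial.aeval _ X) = Polynomial.aeval _ (Polynomial.map _ X)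
    rw [Polynomial.map_X, Polynomial.aeval_X, Polynomial.aeval_X]
    exact lmap_T φ 1

lemma lmap_lauW {R R' : Type u} [CommRing R] [Algebra k R] [CommRing R'] [Algebra k R']
    (φ : R →ₐ[k] R') : (lmap φ).comp (lauW k R) = (lauW k R').comp (pmap φ) := by
  apply AlgHom.coe_ringHom_injective
  apply Polynomial.ringHom_ext
  · intro a
    change lmap φ (Polynomial.aeval _ (C a)) = Polynomial.aeval _ (Polynomial.map _ (C a))
    rw [Polynomial.map_C, Polynomial.aeval_C, Polynomial.aeval_C]
    exact lmap_C φ a
  · change lmap φ (Polynomial.aeval _ X) = Polynomial.aeval _ (Polynomial.map _ X)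
    rw [Polynomial.map_X, Polynomial.aeval_X, Polynomial.aeval_X]
    exact lmap_T φ (-1)

/-- A `k`-morphism from the projective line over `R` to `V`: a pair of morphisms from the affine
lines with coordinates `y` and `w` which agree on the overlap `y = 1 / w`. -/
@[ext] structure Crv {V : Scheme.{u}} (π : V ⟶ Spec (.of k)) (R : Type u) [CommRing R]
    [Algebra k R] where
  /-- the restriction to the line with coordinate `y` -/
  y : Pt π R[X]
  /-- the restriction to the line with coordinate `w` -/
  w : Pt π R[X]
  glue : y.map (lauY k R) = w.map (lauW k R)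

/-- Base change of curves. -/
noncomputable def Crv.map {R R' : Type u} [CommRing R] [Algebra k R] [CommRing R'] [Algebra k R']
    (F : Crv π R) (φ : R →ₐ[k] R') : Crv π R' where
  y := F.y.map (pmap φ)
  w := F.w.map (pmap φ)
  glue := by
    have h := congrArg (fun p => Pt.map p (lmap φ)) F.glue
    simp only [Pt.map_map] at h ⊢
    rw [lmap_lauY, lmap_lauW] at h
    exact h

/-- Evaluation of polynomials at an element of `k`. -/
noncomputable def evk {R : Type u} [CommRing R] [Algebra k R] (a : k) : R[X] →ₐ[k] R :=
  (Polynomial.aeval (algebraMap k R a) : R[X] →ₐ[R] R).restrictScalars k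

/-- The value of a curve at a `k`-point of the projective line; `none` is the point at infinity. -/
noncomputable def Crv.at {R : Type u} [CommRing R] [Algebra k R] (F : Crv π R) :
    Option k → Pt π R
  | some a => F.y.map (evk a)
  | none => F.w.map (evk 0)

/-- The restriction of a point over the dual numbers to the closed point. -/
noncomputable abbrev dfst (k : Type u) [Field k] (R : Type u) [CommRing R] [Algebra k R] :
    DualNumber R →ₐ[k] R := TrivSqZeroExt.fstHom k R R

/-- The curve `F` in the smooth variety `V` is **very free**. For the vector bundle `F^* T_V` on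
the projective line, the following are equivalent: all its degrees `a_i` are at least one; its
global sections which vanish at infinity span the fibre at `0`, i.e. the tangent space of `V` at
`F(0)`. The global sections of `F^* T_V` which vanish at infinity are the first order deformations
`G` of `F`, i.e. the morphisms from the projective line over the dual numbers which restrict to
`F`, with `G(∞)` constant, and the value of the section at `0` is the tangent vector `G(0)`. -/
def IsVeryFree (F : Crv π k) : Prop :=
  ∀ τ : Pt π (DualNumber k), τ.map (dfst k k) = F.at (some 0) →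
    ∃ G : Crv π (DualNumber k), G.map (dfst k k) = F ∧ G.at (some 0) = τ ∧
      G.at none = (F.at none).map (Algebra.ofId k (DualNumber k))

/-- A chart of `V`: an affine open subscheme. -/
structure Chart {V : Scheme.{u}} (π : V ⟶ Spec (.of k)) where
  /-- the coordinate ring -/
  B : Type u
  [ring : CommRing B]
  [alg : Algebra k B]
  /-- the inclusion -/
  pt : Pt π B
  imm : IsOpenImmersion pt.1

attribute [instance] Chart.ring Chart.alg

/-- The elements `z j` are etale coordinates on the affine scheme `Spec B` over `k`. -/
def IsEtaleCoord (k : Type u) [Field k] {n : ℕ} {B : Type u} [CommRing B] [Algebra k B]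
    (z : Fin n → B) : Prop :=
  (MvPolynomial.aeval z : MvPolynomial (Fin n) k →ₐ[k] B).toRingHom.Etale

/-- A chart with etale coordinates. -/
structure EChart {V : Scheme.{u}} (π : V ⟶ Spec (.of k)) (n : ℕ) extends Chart π where
  /-- the coordinates -/
  z : Fin n → B
  et : IsEtaleCoord k z

end points

section P1

attribute [local instance] MvPolynomial.gradedAlgebra

variable (k : Type u) [Field k]

/-- The grading of `k[X₀, X₁]` by the degree. -/
noncomputable abbrev gr : ℕ → Submodule k (MvPolynomial (Fin 2) k) :=
  MvPolynomial.homogeneousSubmodule (Fin 2) k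

/-- The projective line over `k`. -/
noncomputable def P1 : Scheme.{u} := Proj (gr k)

/-- The structure morphism of the projective line. -/
noncomputable def P1.str : P1 k ⟶ Spec (.of k) :=
  Proj.toSpecZero (gr k) ≫ Spec.map (CommRingCat.ofHom (algebraMap k (gr k 0)))

/-- Dehomogenization: a fraction of degree zero with denominator a power of `X i` is mapped to the
polynomial obtained by `X i ↦ 1` and `X j ↦ X` for `j ≠ i`. -/
noncomputable def deh (i : Fin 2) :
    HomogeneousLocalization.Away (gr k) (MvPolynomial.X i : MvPolynomial (Fin 2) k) →+* k[X] :=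
  (IsLocalization.Away.lift (S := Localization.Away (MvPolynomial.X i : MvPolynomial (Fin 2) k))
    (MvPolynomial.X i : MvPolynomial (Fin 2) k)
    (g := (MvPolynomial.aeval (fun j => if j = i then (1 : k[X]) else X) :
      MvPolynomial (Fin 2) k →ₐ[k] k[X]).toRingHom) (by simp)).comp
    (algebraMap (HomogeneousLocalization.Away (gr k) (MvPolynomial.X i : MvPolynomial (Fin 2) k))
      (Localization.Away (MvPolynomial.X i : MvPolynomial (Fin 2) k)))

/-- The standard affine charts of the projective line: for `i = 0` the coordinate of the chart is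
`X₁ / X₀` and for `i = 1` it is `X₀ / X₁`. -/
noncomputable def P1.chart (i : Fin 2) : Spec (.of k[X]) ⟶ P1 k :=
  Spec.map (CommRingCat.ofHom (deh k i)) ≫
    Proj.awayι (gr k) (MvPolynomial.X i : MvPolynomial (Fin 2) k) (m := 1)
      ((MvPolynomial.mem_homogeneousSubmodule _ _).2 (MvPolynomial.isHomogeneous_X k i))
      zero_lt_one

end P1

end Pool.Agent.H19VF
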