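import Pool.Agent.H19VF.Ser

/-! # Task E: expansions over discrete valuation rings, finite extensions of `k'((t))`
(second half of the proof of Proposition 4.1 of the paper) -/

set_option autoImplicit false

universe u

namespace Pool.Agent.H19VF

/-- A discrete valuation ring which contains its residue field embeds in the power series. -/
theorem dvr_expand (k' : Type u) [Field k'] (O : Type u) [CommRing O] [IsDomain O]
    [IsDiscreteValuationRing O] [Algebra k' O]
    (h : Function.Surjective (algebraMap k' (IsLocalRing.ResidueField O))) :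
    ∃ f : O →ₐ[k'] PowerSeries k', Function.Injective f ∧
      ∀ a : O, a ∈ IsLocalRing.maximalIdeal O ↔ PowerSeries.constantCoeff (f a) = 0 := by
  classical
  obtain ⟨ϖ, hϖ⟩ := IsDiscreteValuationRing.exists_irreducible O
  have hmax : IsLocalRing.maximalIdeal O = Ideal.span {ϖ} := hϖ.maximalIdeal_eq
  have hϖ0 : ϖ ≠ 0 := hϖ.ne_zero
  -- the digit map
  let e : k' ≃ₐ[k'] IsLocalRing.ResidueField O := AlgEquiv.ofBijective
    (Algebra.ofId k' (IsLocalRing.ResidueField O)) ⟨(algebraMap k' _).injective, h⟩
  let res : O →ₐ[k'] IsLocalRing.ResidueField O :=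
    IsScalarTower.toAlgHom k' O (IsLocalRing.ResidueField O)
  let dig : O →ₐ[k'] k' := (e.symm : IsLocalRing.ResidueField O →ₐ[k'] k').comp res
  have hdig0 : ∀ a : O, dig a = 0 ↔ a ∈ IsLocalRing.maximalIdeal O := by
    intro a
    change e.symm (res a) = 0 ↔ _
    rw [map_eq_zero_iff e.symm e.symm.injective]
    exact IsLocalRing.residue_eq_zero_iff a
  have hdigc : ∀ c : k', dig (algebraMap k' O c) = c := fun c => dig.commutes c
  have hex : ∀ a : O, ∃ b : O, ϖ * b = a - algebraMap k' O (dig a) := by
    intro a
    have h1 : a - algebraMap k' O (dig a) ∈ IsLocalRing.maximalIdeal O := by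
      rw [← hdig0, map_sub, hdigc, sub_self]
    rw [hmax, Ideal.mem_span_singleton'] at h1
    obtain ⟨b, hb⟩ := h1
    exact ⟨b, by rw [mul_comm]; exact hb⟩
  choose σ0 hσ0 using hex
  have hσu : ∀ a b : O, ϖ * b = a - algebraMap k' O (dig a) → σ0 a = b := by
    intro a b hb
    exact mul_left_cancel₀ hϖ0 ((hσ0 a).trans hb.symm)
  let σ : O →ₗ[k'] O :=
    { toFun := σ0
      map_add' := by
        intro a b
        apply hσu
        rw [mul_add, hσ0, hσ0, map_add, map_add]; ring
      map_smul' := by
        intro c a
        apply hσu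
        rw [RingHom.id_apply, mul_smul_comm, hσ0, map_smul, smul_eq_mul, map_mul, smul_sub,
          Algebra.smul_def, Algebra.smul_def] }
  have hσ : ∀ a, a = algebraMap k' O (dig a) + ϖ * σ a := by
    intro a
    change a = algebraMap k' O (dig a) + ϖ * σ0 a
    rw [hσ0]; ring
  have hσmul : ∀ a b, σ (a * b) = σ a * b + dig a • σ b := by
    intro a b
    apply hσu
    have h1 := hσ a
    have h2 := hσ b
    rw [map_mul, map_mul, Algebra.smul_def]
    linear_combination (-1 : O) * b * h1 - algebraMap k' O (dig a) * h2
  have hσc : ∀ c : k', σ (algebraMap k' O c) = 0 := by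
    intro c
    apply hσu
    rw [hdigc, sub_self, mul_zero]
  let F : O → PowerSeries k' := fun a => PowerSeries.mk fun n => dig ((σ ^ n) a)
  have hF0 : ∀ a, PowerSeries.constantCoeff (F a) = dig a := by
    intro a
    rw [← PowerSeries.coeff_zero_eq_constantCoeff_apply, PowerSeries.coeff_mk, pow_zero]
    rfl
  have hFn : ∀ n a, PowerSeries.coeff (n + 1) (F a) = PowerSeries.coeff n (F (σ a)) := by
    intro n a
    rw [PowerSeries.coeff_mk, PowerSeries.coeff_mk, pow_succ]
    rfl
  have hFadd : ∀ a b, F (a + b) = F a + F b := by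
    intro a b
    ext n
    rw [map_add, PowerSeries.coeff_mk, PowerSeries.coeff_mk, PowerSeries.coeff_mk, map_add, map_add]
  have hFsmul : ∀ (c : k') a, F (c • a) = c • F a := by
    intro c a
    ext n
    rw [map_smul, PowerSeries.coeff_mk, PowerSeries.coeff_mk, map_smul, map_smul]
  have hFrec : ∀ a, F a = PowerSeries.C (dig a) + PowerSeries.X * F (σ a) := by
    intro a
    ext n
    cases n with
    | zero => simp [hF0]
    | succ n =>
      rw [hFn, map_add, PowerSeries.coeff_succ_X_mul, PowerSeries.coeff_C, if_neg (by omega), zero_add]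
  have hFmul : ∀ n a b, PowerSeries.coeff n (F (a * b)) = PowerSeries.coeff n (F a * F b) := by
    intro n
    induction n with
    | zero =>
      intro a b
      rw [PowerSeries.coeff_zero_eq_constantCoeff_apply, PowerSeries.coeff_zero_eq_constantCoeff_apply,
        hF0, map_mul, map_mul, hF0, hF0]
    | succ n ih =>
      intro a b
      rw [hFn, hσmul, hFadd, hFsmul, map_add, map_smul, ih]
      conv_rhs => rw [hFrec a]
      rw [add_mul, map_add, mul_assoc, PowerSeries.coeff_succ_X_mul, PowerSeries.coeff_C_mul, hFn,
        smul_eq_mul, add_comm]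
  have hF1 : ∀ c : k', F (algebraMap k' O c) = algebraMap k' (PowerSeries k') c := by
    intro c
    have hz : F 0 = 0 := by
      have := hFsmul 0 0
      simpa using this
    rw [hFrec, hσc, hz, mul_zero, add_zero, hdigc]
    rfl
  let f : O →ₐ[k'] PowerSeries k' :=
    { toFun := F
      map_one' := by
        have := hF1 1
        rwa [map_one, map_one] at this
      map_mul' := by
        intro a b
        ext n
        exact hFmul n a b
      map_zero' := by
        have := hFsmul 0 0
        simpa using this
      map_add' := hFadd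
      commutes' := hF1 }
  refine ⟨f, ?_, ?_⟩
  · rw [injective_iff_map_eq_zero]
    intro a ha
    have hd : ∀ n, dig ((σ ^ n) a) = 0 := by
      intro n
      have h1 : F a = 0 := ha
      have h2 : PowerSeries.coeff n (F a) = 0 := by rw [h1, map_zero]
      rwa [PowerSeries.coeff_mk] at h2
    have hpow : ∀ n, a = ϖ ^ n * (σ ^ n) a := by
      intro n
      induction n with
      | zero => simp
      | succ n ih =>
        have h1 := hσ ((σ ^ n) a)
        rw [hd n, map_zero, zero_add] at h1
        have h2 : (σ ^ (n + 1)) a = σ ((σ ^ n) a) := by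
          rw [pow_succ']
          rfl
        rw [h2]
        conv_lhs => rw [ih, h1]
        ring
    by_contra hne
    obtain ⟨m, u, hu⟩ := IsDiscreteValuationRing.eq_unit_mul_pow_irreducible hne hϖ
    have h1 := hpow (m + 1)
    rw [hu] at h1
    have h2 : (u : O) = ϖ * (σ ^ (m + 1)) (↑u * ϖ ^ m) := by
      apply mul_right_cancel₀ (pow_ne_zero m hϖ0)
      conv_lhs => rw [h1]
      ring
    have h3 : IsUnit ϖ := isUnit_of_dvd_unit ⟨_, h2⟩ u.isUnit
    exact hϖ.not_isUnit h3
  · intro a
    change _ ↔ PowerSeries.constantCoeff (F a) = 0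
    rw [hF0, hdig0]

/-- A finite separable extension of `k'((t))`, `k'` algebraically closed, embeds over `k'` in
`k'((t))` such that power series are mapped to power series with the same constant term. -/
theorem embed_finite (k' : Type u) [Field k'] [IsAlgClosed k'] (K1 : Type u) [Field K1]
    [Algebra (LSer k') K1] [FiniteDimensional (LSer k') K1] [Algebra.IsSeparable (LSer k') K1]
    [Algebra k' K1] [IsScalarTower k' (LSer k') K1] :
    ∃ g : K1 →ₐ[k'] LSer k', ∀ a : PowerSeries k', ∃ a' : PowerSeries k',
      g (algebraMap (LSer k') K1 (LSer.ofPS a)) = LSer.ofPS a' ∧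
        PowerSeries.constantCoeff a' = PowerSeries.constantCoeff a := by
  classical
  let iA : Algebra (PowerSeries k') (LSer k') := (LSer.ofPS : PowerSeries k' →+* LSer k').toAlgebra
  have hAmap : ∀ a : PowerSeries k', algebraMap (PowerSeries k') (LSer k') a = LSer.ofPS a :=
    fun _ => rfl
  have : IsScalarTower k' (PowerSeries k') (LSer k') := IsScalarTower.of_algebraMap_eq fun c => by
    rw [hAmap, LSer.algebraMap_eq, PowerSeries.algebraMap_apply, LSer.ofPS_C]
  have : FaithfulSMul (PowerSeries k') (LSer k') :=
    (faithfulSMul_iff_algebraMap_injective _ _).2 LSer.ofPS_injective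
  have : IsFractionRing (PowerSeries k') (LSer k') := by
    apply IsFractionRing.of_field
    intro z
    obtain ⟨N, g, hg⟩ := z.exists_T_mul_ofPS
    refine ⟨g, PowerSeries.X ^ N, ?_⟩
    rw [map_pow, hAmap, hAmap, LSer.ofPS_X, LSer.T_pow, eq_div_iff (LSer.T_ne_zero _), hg]
    have := LSer.T_mul_T_neg (R := k') (N : ℤ)
    rw [one_mul]
    linear_combination (LSer.ofPS g) * this
  let iK : Algebra (PowerSeries k') K1 :=
    ((algebraMap (LSer k') K1).comp (algebraMap (PowerSeries k') (LSer k'))).toAlgebra
  have : IsScalarTower (PowerSeries k') (LSer k') K1 := IsScalarTower.of_algebraMap_eq fun _ => rfl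
  have : IsScalarTower k' (PowerSeries k') K1 := IsScalarTower.of_algebraMap_eq fun c => by
    rw [IsScalarTower.algebraMap_apply k' (LSer k') K1,
      IsScalarTower.algebraMap_apply k' (PowerSeries k') (LSer k'),
      ← IsScalarTower.algebraMap_apply (PowerSeries k') (LSer k') K1]
  have : FaithfulSMul (PowerSeries k') K1 :=
    (faithfulSMul_iff_algebraMap_injective _ _).2
      ((algebraMap (LSer k') K1).injective.comp LSer.ofPS_injective)
  let B := integralClosure (PowerSeries k') K1
  have : IsDedekindDomain B := integralClosure.isDedekindDomain (PowerSeries k') (LSer k') K1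
  have : IsFractionRing B K1 :=
    integralClosure.isFractionRing_of_finite_extension (LSer k') K1
  have : Algebra.IsIntegral (PowerSeries k') B := inferInstance
  have : FaithfulSMul (PowerSeries k') B := inferInstance
  have hinjB : Function.Injective (algebraMap (PowerSeries k') B) :=
    FaithfulSMul.algebraMap_injective _ _
  obtain ⟨P, hPmax, hPcomap⟩ := Ideal.exists_ideal_over_maximal_of_isIntegral (S := B)
    (IsLocalRing.maximalIdeal (PowerSeries k')) (by
      rw [(RingHom.injective_iff_ker_eq_bot _).1 hinjB]
      exact bot_le)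
  have hXm : (PowerSeries.X : PowerSeries k') ∈ IsLocalRing.maximalIdeal (PowerSeries k') := by
    rw [IsLocalRing.mem_maximalIdeal, mem_nonunits_iff, PowerSeries.isUnit_iff_constantCoeff,
      PowerSeries.constantCoeff_X]
    exact not_isUnit_zero
  have hXP : algebraMap (PowerSeries k') B PowerSeries.X ∈ P := by
    rw [← Ideal.mem_comap, hPcomap]
    exact hXm
  have hP0 : P ≠ ⊥ := by
    intro hb
    rw [hb, Ideal.mem_bot] at hXP
    exact PowerSeries.X_ne_zero (hinjB (hXP.trans (map_zero _).symm))
  have : P.IsPrime := hPmax.isPrime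
  let O := Localization.AtPrime P
  have : IsDiscreteValuationRing O :=
    IsLocalization.AtPrime.isDiscreteValuationRing_of_dedekind_domain B hP0 O
  have hmem : ∀ b : B, b ∈ P → algebraMap B O b ∈ IsLocalRing.maximalIdeal O := fun b hb =>
    (IsLocalization.AtPrime.to_map_mem_maximal_iff O P b).2 hb
  have hdec : ∀ a : PowerSeries k', algebraMap (PowerSeries k') B a =
      algebraMap k' B (PowerSeries.constantCoeff a) + algebraMap (PowerSeries k') B
        (PowerSeries.X * (PowerSeries.mk fun n => PowerSeries.coeff (n + 1) a)) := by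
    intro a
    have h1 : a = algebraMap k' (PowerSeries k') (PowerSeries.constantCoeff a) +
        PowerSeries.X * (PowerSeries.mk fun n => PowerSeries.coeff (n + 1) a) := by
      ext n
      cases n with
      | zero => simp
      | succ n =>
        rw [map_add, PowerSeries.coeff_succ_X_mul, PowerSeries.coeff_mk,
          PowerSeries.algebraMap_apply, PowerSeries.coeff_C, if_neg (by omega), zero_add]
    conv_lhs => rw [h1]
    rw [map_add, ← IsScalarTower.algebraMap_apply k' (PowerSeries k') B]
  have hdecO : ∀ a : PowerSeries k', ∃ x ∈ IsLocalRing.maximalIdeal O,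
      algebraMap B O (algebraMap (PowerSeries k') B a) =
        algebraMap k' O (PowerSeries.constantCoeff a) + x := by
    intro a
    refine ⟨algebraMap B O (algebraMap (PowerSeries k') B
        (PowerSeries.X * (PowerSeries.mk fun n => PowerSeries.coeff (n + 1) a))), ?_, ?_⟩
    · apply hmem
      rw [map_mul]
      exact P.mul_mem_right _ hXP
    · rw [IsScalarTower.algebraMap_apply k' B O, ← map_add, ← hdec]
  have hsurj : Function.Surjective (algebraMap k' (IsLocalRing.ResidueField O)) := by
    have hint : ∀ b : B, IsIntegral k' (IsLocalRing.residue O (algebraMap B O b)) := by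
      intro b
      have hb : IsIntegral (PowerSeries k') b := Algebra.IsIntegral.isIntegral b
      refine hb.map_of_comp_eq (PowerSeries.constantCoeff (R := k'))
        ((IsLocalRing.residue O).comp (algebraMap B O)) ?_
      ext a
      change algebraMap k' (IsLocalRing.ResidueField O) (PowerSeries.constantCoeff a) =
        IsLocalRing.residue O (algebraMap B O (algebraMap (PowerSeries k') B a))
      obtain ⟨x, hx, hx2⟩ := hdecO a
      rw [hx2, map_add, (IsLocalRing.residue_eq_zero_iff x).2 hx, add_zero]
      rfl
    have : Algebra.IsIntegral k' (IsLocalRing.ResidueField O) := by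
      constructor
      intro z
      obtain ⟨x, rfl⟩ := IsLocalRing.residue_surjective z
      obtain ⟨b, s, rfl⟩ := IsLocalization.exists_mk'_eq P.primeCompl x
      have h1 : IsLocalRing.residue O (algebraMap B O (s : B)) ≠ 0 := by
        intro h0
        rw [IsLocalRing.residue_eq_zero_iff] at h0
        exact s.2 ((IsLocalization.AtPrime.to_map_mem_maximal_iff O P (s : B)).1 h0)
      have h2 : IsLocalRing.residue O (IsLocalization.mk' O b s) =
          IsLocalRing.residue O (algebraMap B O b) * (IsLocalRing.residue O (algebraMap B O (s : B)))⁻¹ := by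
        rw [eq_mul_inv_iff_mul_eq₀ h1, ← map_mul, IsLocalization.mk'_spec]
      rw [h2]
      exact (hint b).mul ((hint (s : B)).isAlgebraic.inv.isIntegral)
    exact (IsAlgClosed.algebraMap_bijective_of_isIntegral (k := k')
      (K := IsLocalRing.ResidueField O)).2
  obtain ⟨f, hf1, hf2⟩ := dvr_expand k' O hsurj
  have hBO : Function.Injective (algebraMap B O) :=
    IsLocalization.injective O P.primeCompl_le_nonZeroDivisors
  let φ : B →ₐ[k'] LSer k' := ((LSer.ofPSa k').comp f).comp (IsScalarTower.toAlgHom k' B O)
  have hφ : Function.Injective φ := (LSer.ofPS_injective.comp hf1).comp hBO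
  let g : K1 →ₐ[k'] LSer k' := IsFractionRing.liftAlgHom hφ
  refine ⟨g, fun a => ⟨f (algebraMap B O (algebraMap (PowerSeries k') B a)), ?_, ?_⟩⟩
  · have h1 : algebraMap (LSer k') K1 (LSer.ofPS a) =
        algebraMap B K1 (algebraMap (PowerSeries k') B a) := rfl
    rw [h1]
    exact IsFractionRing.lift_algebraMap (g := φ.toRingHom) hφ _
  · obtain ⟨x, hx, hx2⟩ := hdecO a
    rw [hx2, map_add, map_add, (hf2 x).1 hx, add_zero, f.commutes, PowerSeries.algebraMap_apply,
      PowerSeries.constantCoeff_C]
    rfl

end Pool.Agent.H19VF
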