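import Pool.Agent.H19VF.Defs

/-! # Task F3: charts (toolkit), second part -/

set_option autoImplicit false

open AlgebraicGeometry CategoryTheory Polynomial

universe u

namespace Pool.Agent.H19VF

variable {k : Type u} [Field k] {V : Scheme.{u}} {π : V ⟶ Spec (.of k)}

/-- An open immersion is a monomorphism. -/
theorem Chart.map_injective (W : Chart π) {R : Type u} [CommRing R] [Algebra k R]
    {φ φ' : W.B →ₐ[k] R} (h : W.pt.map φ = W.pt.map φ') : φ = φ' := by
  have := W.imm
  have h1 : Spec.map (CommRingCat.ofHom φ.toRingHom) ≫ W.pt.1 =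
      Spec.map (CommRingCat.ofHom φ'.toRingHom) ≫ W.pt.1 := congrArg Subtype.val h
  have h2 := (cancel_mono W.pt.1).1 h1
  have h3 := Spec.map_injective h2
  have h4 : φ.toRingHom = φ'.toRingHom := congrArg CommRingCat.Hom.hom h3
  exact AlgHom.coe_ringHom_injective h4

/-- A `k`-morphism between affine schemes is given by a `k`-homomorphism. -/
theorem F3_algHom {R B : Type u} [CommRing R] [Algebra k R] [CommRing B] [Algebra k B]
    (l : Spec (.of R) ⟶ Spec (.of B))
    (h : l ≫ Spec.map (CommRingCat.ofHom (algebraMap k B)) =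
      Spec.map (CommRingCat.ofHom (algebraMap k R))) :
    ∃ φ : B →ₐ[k] R, Spec.map (CommRingCat.ofHom φ.toRingHom) = l := by
  have hl : Spec.map (Spec.preimage l) = l := Spec.map_preimage l
  have h1 : CommRingCat.ofHom (algebraMap k B) ≫ Spec.preimage l =
      CommRingCat.ofHom (algebraMap k R) := by
    apply Spec.map_injective
    rw [Spec.map_comp, hl, h]
  have h2 : (Spec.preimage l).hom.comp (algebraMap k B) = algebraMap k R :=
    congrArg CommRingCat.Hom.hom h1
  exact ⟨{ (Spec.preimage l).hom with commutes' := fun r => congr($h2 r) }, hl⟩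

/-- A point whose image lies in a chart is given by a homomorphism. -/
theorem Chart.F3_lift (W : Chart π) {R : Type u} [CommRing R] [Algebra k R] (p : Pt π R)
    (h : Set.range p.1 ⊆ Set.range W.pt.1) : ∃ φ : W.B →ₐ[k] R, p = W.pt.map φ := by
  have := W.imm
  have hl : IsOpenImmersion.lift W.pt.1 p.1 h ≫ W.pt.1 = p.1 := IsOpenImmersion.lift_fac _ _ _
  obtain ⟨φ, hφ⟩ := F3_algHom (IsOpenImmersion.lift W.pt.1 p.1 h) (by
    have h1 : W.pt.1 ≫ π = Spec.map (CommRingCat.ofHom (algebraMap k W.B)) := W.pt.2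
    have h2 : p.1 ≫ π = Spec.map (CommRingCat.ofHom (algebraMap k R)) := p.2
    calc _ = IsOpenImmersion.lift W.pt.1 p.1 h ≫ W.pt.1 ≫ π := by rw [h1]
      _ = (IsOpenImmersion.lift W.pt.1 p.1 h ≫ W.pt.1) ≫ π := (Category.assoc _ _ _).symm
      _ = _ := by rw [hl, h2])
  refine ⟨φ, Pt.ext ?_⟩
  simp only [Pt.map]
  rw [hφ, hl]

theorem Pt.F3_range_map {R R' : Type u} [CommRing R] [Algebra k R] [CommRing R'] [Algebra k R']
    (p : Pt π R) (φ : R →ₐ[k] R') :
    Set.range (p.map φ).1 = p.1 '' Set.range (Spec.map (CommRingCat.ofHom φ.toRingHom)) := by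
  simp only [Pt.map]
  rw [← Set.range_comp]
  rfl

/-- A point over a local ring lies in a chart if its closed point does. -/
theorem Chart.factor_local (W : Chart π) {R F : Type u} [CommRing R] [IsLocalRing R]
    [Algebra k R] [Field F] [Algebra k F] (g : R →ₐ[k] F) (hg : IsLocalHom g.toRingHom)
    (p : Pt π R) (φ0 : W.B →ₐ[k] F) (h : p.map g = W.pt.map φ0) :
    ∃ φ : W.B →ₐ[k] R, p = W.pt.map φ ∧ g.comp φ = φ0 := by
  have := W.imm
  have h0 : p.1 (IsLocalRing.closedPoint R) ∈ Set.range W.pt.1 := by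
    have h1 : Spec.map (CommRingCat.ofHom g.toRingHom) ≫ p.1 =
        Spec.map (CommRingCat.ofHom φ0.toRingHom) ≫ W.pt.1 := congrArg Subtype.val h
    have h2 : (Spec.map (CommRingCat.ofHom g.toRingHom)) (IsLocalRing.closedPoint F) =
        IsLocalRing.closedPoint R := IsLocalRing.comap_closedPoint g.toRingHom
    have h3 : (Spec.map (CommRingCat.ofHom g.toRingHom) ≫ p.1) (IsLocalRing.closedPoint F) =
        (Spec.map (CommRingCat.ofHom φ0.toRingHom) ≫ W.pt.1) (IsLocalRing.closedPoint F) := by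
      rw [h1]
    refine ⟨(Spec.map (CommRingCat.ofHom φ0.toRingHom)) (IsLocalRing.closedPoint F), ?_⟩
    exact h3.symm.trans (congrArg p.1 h2)
  have hr : Set.range p.1 ⊆ Set.range W.pt.1 := by
    rintro _ ⟨x, rfl⟩
    exact ((IsLocalRing.specializes_closedPoint x).map p.1.continuous).mem_open
      (IsOpenImmersion.isOpen_range W.pt.1) h0
  obtain ⟨φ, hφ⟩ := W.F3_lift p hr
  refine ⟨φ, hφ, W.map_injective ?_⟩
  rw [← h, hφ, Pt.map_map]


/-- A point lies in a chart over a localization if the basic open set is mapped to the chart. -/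
theorem Chart.F3_lift_away (W : Chart π) {R R' : Type u} [CommRing R] [Algebra k R] [CommRing R']
    [Algebra R R'] [Algebra k R'] [IsScalarTower k R R'] (g : R) [IsLocalization.Away g R']
    (p : Pt π R)
    (h : ∀ x : PrimeSpectrum R, g ∉ x.asIdeal → p.1 x ∈ Set.range W.pt.1) :
    ∃ φ : W.B →ₐ[k] R', p.map (IsScalarTower.toAlgHom k R R') = W.pt.map φ := by
  apply W.F3_lift
  rw [Pt.F3_range_map]
  rintro _ ⟨x, hx, rfl⟩
  apply h
  have h1 : Set.range (PrimeSpectrum.comap (algebraMap R R')) =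
      (PrimeSpectrum.basicOpen g : Set (PrimeSpectrum R)) :=
    PrimeSpectrum.localization_away_comap_range R' g
  have h2 : x ∈ Set.range (PrimeSpectrum.comap (algebraMap R R')) := hx
  rw [h1] at h2
  exact h2

/-- A point over `R` lies in the chart `W` over a neighbourhood of the closed subscheme defined by
`I` if this closed subscheme is mapped to `W`. -/
theorem Chart.factor_thick (W : Chart π) {R : Type u} [CommRing R] [Algebra k R] (I : Ideal R)
    (p : Pt π R) (φ0 : W.B →ₐ[k] R ⧸ I) (h : p.map (Ideal.Quotient.mkₐ k I) = W.pt.map φ0) :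
    ∃ h : R, h - 1 ∈ I ∧ ∃ φ : W.B →ₐ[k] Localization.Away h,
      p.map (IsScalarTower.toAlgHom k R (Localization.Away h)) = W.pt.map φ := by
  have := W.imm
  have hU : IsOpen (p.1 ⁻¹' Set.range W.pt.1) :=
    (IsOpenImmersion.isOpen_range W.pt.1).preimage p.1.continuous
  obtain ⟨J, hJ⟩ := (PrimeSpectrum.isClosed_iff_zeroLocus_ideal
    ((p.1 ⁻¹' Set.range W.pt.1)ᶜ : Set (PrimeSpectrum R))).1 hU.isClosed_compl
  have hJ' : ∀ x : PrimeSpectrum R, p.1 x ∉ Set.range W.pt.1 ↔ J ≤ x.asIdeal := fun x =>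
    Set.ext_iff.1 hJ x
  have hI : ∀ x : PrimeSpectrum R, I ≤ x.asIdeal → p.1 x ∈ Set.range W.pt.1 := by
    intro x hx
    have h1 : x ∈ Set.range (PrimeSpectrum.comap (Ideal.Quotient.mk I)) := by
      rw [range_comap_of_surjective _ _ Ideal.Quotient.mk_surjective,
        PrimeSpectrum.mem_zeroLocus, Ideal.mk_ker]
      exact hx
    obtain ⟨y, hy⟩ := h1
    have h2 : Spec.map (CommRingCat.ofHom (Ideal.Quotient.mkₐ k I).toRingHom) ≫ p.1 =
        Spec.map (CommRingCat.ofHom φ0.toRingHom) ≫ W.pt.1 := congrArg Subtype.val h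
    have h3 : (Spec.map (CommRingCat.ofHom (Ideal.Quotient.mkₐ k I).toRingHom) ≫ p.1) y =
        (Spec.map (CommRingCat.ofHom φ0.toRingHom) ≫ W.pt.1) y := by rw [h2]
    have h4 : (Spec.map (CommRingCat.ofHom (Ideal.Quotient.mkₐ k I).toRingHom)) y = x := hy
    refine ⟨(Spec.map (CommRingCat.ofHom φ0.toRingHom)) y, ?_⟩
    exact h3.symm.trans (congrArg p.1 h4)
  have hIJ : I ⊔ J = ⊤ := by
    by_contra hne
    obtain ⟨m, hm, hle⟩ := Ideal.exists_le_maximal _ hne
    have h1 := hI ⟨m, hm.isPrime⟩ (le_sup_left.trans hle)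
    exact (hJ' ⟨m, hm.isPrime⟩).2 (le_sup_right.trans hle) h1
  have h1 : (1 : R) ∈ I ⊔ J := by rw [hIJ]; exact Submodule.mem_top
  obtain ⟨i, hi, j, hj, hij⟩ := Submodule.mem_sup.1 h1
  refine ⟨j, ?_, ?_⟩
  · have : j - 1 = -i := by rw [← hij]; ring
    rw [this]; exact I.neg_mem hi
  · apply W.F3_lift_away j
    intro x hx
    by_contra hc
    exact hx ((hJ' x).1 hc hj)

/-- A point with values in a subring: if a point over `R'` lies in the chart `W` and comes from a
point over the local ring `R`, `R ⊆ R'`... here: a point over a domain `R` whose generic point lies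
in the chart `W`, lies in `W` over a localization. -/
theorem Chart.factor_generic (W : Chart π) {R Q : Type u} [CommRing R] [IsDomain R] [Algebra k R]
    [Field Q] [Algebra k Q] [Algebra R Q] [IsFractionRing R Q] [IsScalarTower k R Q]
    (p : Pt π R) (φ0 : W.B →ₐ[k] Q)
    (h : p.map (IsScalarTower.toAlgHom k R Q) = W.pt.map φ0) [FinType : Algebra.FiniteType k W.B] :
    ∃ g : R, g ≠ 0 ∧ ∃ φ : W.B →ₐ[k] Localization.Away g,
      p.map (IsScalarTower.toAlgHom k R (Localization.Away g)) = W.pt.map φ := by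
  have := W.imm
  have hU : IsOpen (p.1 ⁻¹' Set.range W.pt.1 : Set (PrimeSpectrum R)) :=
    (IsOpenImmersion.isOpen_range W.pt.1).preimage p.1.continuous
  let y : PrimeSpectrum Q := ⟨⊥, Ideal.isPrime_bot⟩
  let x : PrimeSpectrum R := PrimeSpectrum.comap (algebraMap R Q) y
  have hx : x ∈ (p.1 ⁻¹' Set.range W.pt.1 : Set (PrimeSpectrum R)) := by
    have h2 : Spec.map (CommRingCat.ofHom (IsScalarTower.toAlgHom k R Q).toRingHom) ≫ p.1 =
        Spec.map (CommRingCat.ofHom φ0.toRingHom) ≫ W.pt.1 := congrArg Subtype.val h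
    have h3 : (Spec.map (CommRingCat.ofHom (IsScalarTower.toAlgHom k R Q).toRingHom) ≫ p.1) y =
        (Spec.map (CommRingCat.ofHom φ0.toRingHom) ≫ W.pt.1) y := by rw [h2]
    refine ⟨(Spec.map (CommRingCat.ofHom φ0.toRingHom)) y, ?_⟩
    exact h3.symm
  obtain ⟨_, ⟨g, rfl⟩, hg1, hg2⟩ :=
    PrimeSpectrum.isTopologicalBasis_basic_opens.exists_subset_of_mem_open hx hU
  refine ⟨g, ?_, ?_⟩
  · rintro rfl
    exact hg1 (zero_mem _)
  · apply W.F3_lift_away g
    intro z hz
    exact hg2 hz

/-- The coordinate rings of charts are finitely generated. -/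
theorem Chart.finiteType [LocallyOfFiniteType π] (W : Chart π) : Algebra.FiniteType k W.B := by
  have := W.imm
  have h1 : W.pt.1 ≫ π = Spec.map (CommRingCat.ofHom (algebraMap k W.B)) := W.pt.2
  have h2 : LocallyOfFiniteType (W.pt.1 ≫ π) := inferInstance
  rw [h1, HasRingHomProperty.Spec_iff (P := @LocallyOfFiniteType)] at h2
  exact RingHom.finiteType_algebraMap.1 h2

/-- A point over a local ring lies in a chart if its closed point does. -/
theorem Chart.F3_lift_local (W : Chart π) {R : Type u} [CommRing R] [IsLocalRing R]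
    [Algebra k R] (p : Pt π R) (h : p.1 (IsLocalRing.closedPoint R) ∈ Set.range W.pt.1) :
    ∃ φ : W.B →ₐ[k] R, p = W.pt.map φ := by
  have := W.imm
  apply W.F3_lift
  rintro _ ⟨x, rfl⟩
  exact ((IsLocalRing.specializes_closedPoint x).map p.1.continuous).mem_open
    (IsOpenImmersion.isOpen_range W.pt.1) h

theorem F3_bijective {A B : CommRingCat.{u}} (c : B ⟶ A) (h : IsIso (Spec.map c)) :
    Function.Bijective c.hom := by
  have : IsIso c := by
    refine ⟨Spec.preimage (inv (Spec.map c)), ?_, ?_⟩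
    · apply Spec.map_injective
      rw [Spec.map_comp, Spec.map_preimage, IsIso.inv_hom_id, Spec.map_id]
    · apply Spec.map_injective
      rw [Spec.map_comp, Spec.map_preimage, IsIso.hom_inv_id, Spec.map_id]
  exact ConcreteCategory.bijective_of_isIso c

/-- The chart given by an affine open subset. -/
theorem F3_exists_chart (V' : V.Opens) (hV : IsAffineOpen V') :
    ∃ (i : Algebra k Γ(V, V')) (hp : hV.fromSpec ≫ π =
      Spec.map (CommRingCat.ofHom (algebraMap k Γ(V, V')))), True := by
  refine ⟨(Spec.preimage (hV.fromSpec ≫ π)).hom.toAlgebra, ?_, trivial⟩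
  exact (Spec.map_preimage (hV.fromSpec ≫ π)).symm

/-- Every point over a local ring lies in a chart with etale coordinates. -/
theorem exists_echart (n : ℕ) [SmoothOfRelativeDimension n π] {R : Type u} [CommRing R]
    [IsLocalRing R] [Algebra k R] (p : Pt π R) :
    ∃ (W : EChart π n) (φ : W.B →ₐ[k] R), p = W.pt.map φ := by
  obtain ⟨U, hU, V', hV, hx, e, hf⟩ :=
    SmoothOfRelativeDimension.exists_isStandardSmoothOfRelativeDimension (n := n) (f := π)
      (p.1 (IsLocalRing.closedPoint R))
  obtain ⟨g, hg1, hg2⟩ := hf.exists_etale_mvPolynomial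
  have hss : Subsingleton (Spec (.of k)) := inferInstanceAs (Subsingleton (PrimeSpectrum k))
  have hUtop : U = ⊤ := by
    rw [eq_top_iff]
    intro y _
    have : y = π (p.1 (IsLocalRing.closedPoint R)) := Subsingleton.elim _ _
    rw [this]
    exact e hx
  have hiso : IsIso hU.fromSpec := by
    apply isIso_of_isOpenImmersion_of_opensRange_eq_top
    rw [hU.opensRange_fromSpec, hUtop]
  let c : CommRingCat.of k ⟶ Γ(Spec (.of k), U) := Spec.preimage hU.fromSpec
  have hc : Spec.map c = hU.fromSpec := Spec.map_preimage _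
  have hcb : Function.Bijective c.hom := F3_bijective c (by rw [hc]; exact hiso)
  obtain ⟨i, hp, -⟩ := F3_exists_chart (k := k) (π := π) V' hV
  have hcomp : algebraMap k Γ(V, V') = (π.appLE U V' e).hom.comp c.hom := by
    have h1 : CommRingCat.ofHom (algebraMap k Γ(V, V')) = c ≫ π.appLE U V' e := by
      apply Spec.map_injective
      rw [Spec.map_comp, hc, hU.SpecMap_appLE_fromSpec π hV e, hp]
    exact congrArg CommRingCat.Hom.hom h1
  let W0 : Chart π :=
    { B := Γ(V, V')
      pt := ⟨hV.fromSpec, hp⟩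
      imm := inferInstanceAs (IsOpenImmersion hV.fromSpec) }
  have het : IsEtaleCoord k (fun j => g (MvPolynomial.X j)) := by
    have h1 : (MvPolynomial.aeval (fun j => g (MvPolynomial.X j)) :
        MvPolynomial (Fin n) k →ₐ[k] Γ(V, V')).toRingHom = g.comp (MvPolynomial.map c.hom) := by
      apply MvPolynomial.ringHom_ext
      · intro a
        have h2 := congr($hcomp a)
        have h3 := congr($hg1 (c.hom a))
        simp only [AlgHom.toRingHom_eq_coe, RingHom.coe_coe, MvPolynomial.aeval_C,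
          RingHom.comp_apply, MvPolynomial.map_C] at h2 h3 ⊢
        rw [h2, h3]
      · intro j
        simp
    unfold IsEtaleCoord
    rw [h1]
    exact RingHom.Etale.stableUnderComposition _ _
      (RingHom.Etale.of_bijective ⟨MvPolynomial.map_injective _ hcb.1,
        MvPolynomial.map_surjective _ hcb.2⟩) hg2
  let W : EChart π n :=
    { toChart := W0
      z := fun j => g (MvPolynomial.X j)
      et := het }
  have hx' : p.1 (IsLocalRing.closedPoint R) ∈ Set.range W.pt.1 := by
    have h1 : Set.range hV.fromSpec = V' := hV.range_fromSpec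
    have h2 : p.1 (IsLocalRing.closedPoint R) ∈ Set.range hV.fromSpec := by
      rw [h1]; exact hx
    exact h2
  obtain ⟨φ, hφ⟩ := W.F3_lift_local p hx'
  exact ⟨W, φ, hφ⟩

theorem F3_isLocalization {B B' : Type u} [CommRing B] [CommRing B'] [Algebra B B'] (g : B)
    (h : IsOpenImmersion (Spec.map (CommRingCat.ofHom (algebraMap B B'))))
    (hr : Set.range (PrimeSpectrum.comap (algebraMap B B')) =
      (PrimeSpectrum.basicOpen g : Set (PrimeSpectrum B))) :
    IsLocalization.Away g B' := by
  have h2 : IsOpenImmersion (Spec.map (CommRingCat.ofHom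
    (algebraMap B (Localization.Away g)))) := inferInstance
  have hr' : Set.range (Spec.map (CommRingCat.ofHom (algebraMap B (Localization.Away g)))) =
      Set.range (Spec.map (CommRingCat.ofHom (algebraMap B B'))) := by
    have h3 : Set.range (PrimeSpectrum.comap (algebraMap B (Localization.Away g))) =
      (PrimeSpectrum.basicOpen g : Set (PrimeSpectrum B)) :=
      PrimeSpectrum.localization_away_comap_range _ g
    exact h3.trans hr.symm
  let e := IsOpenImmersion.isoOfRangeEq _ _ hr'
  have he : e.hom ≫ Spec.map (CommRingCat.ofHom (algebraMap B B')) =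
      Spec.map (CommRingCat.ofHom (algebraMap B (Localization.Away g))) :=
    IsOpenImmersion.isoOfRangeEq_hom_fac _ _ hr'
  let ψ : CommRingCat.of B' ⟶ CommRingCat.of (Localization.Away g) := Spec.preimage e.hom
  have hψ : Spec.map ψ = e.hom := Spec.map_preimage _
  have hb : Function.Bijective ψ.hom := F3_bijective ψ (by rw [hψ]; infer_instance)
  have hc : ψ.hom.comp (algebraMap B B') = algebraMap B (Localization.Away g) := by
    have h4 : CommRingCat.ofHom (algebraMap B B') ≫ ψ =
        CommRingCat.ofHom (algebraMap B (Localization.Away g)) := by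
      apply Spec.map_injective
      rw [Spec.map_comp, hψ, he]
    exact congrArg CommRingCat.Hom.hom h4
  let ψ' : B' →ₐ[B] Localization.Away g := { ψ.hom with commutes' := fun r => congr($hc r) }
  exact IsLocalization.isLocalization_of_algEquiv (Submonoid.powers g)
    (AlgEquiv.ofBijective ψ' hb).symm

attribute [local instance] Chart.imm

theorem Chart.F3_refine_aux (W : Chart π) (f : Γ(V, W.pt.1.opensRange)) {B' : Type u}
    [CommRing B'] [Algebra k B'] (p : Pt π B') (hp : IsOpenImmersion p.1)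
    (hr : Set.range p.1 = V.basicOpen f) (α : W.B →ₐ[k] B') (hα : p = W.pt.map α) :
    ∃ g : W.B, @IsLocalization.Away _ _ g B' _ α.toRingHom.toAlgebra := by
  have hle : (⊤ : (Spec (.of W.B)).Opens) ≤ W.pt.1 ⁻¹ᵁ W.pt.1.opensRange := by
    rw [Scheme.Hom.preimage_opensRange]
  let g : W.B := (Scheme.ΓSpecIso (.of W.B)).hom (W.pt.1.appLE _ ⊤ hle f)
  have h1 : Spec.map (CommRingCat.ofHom α.toRingHom) ≫ W.pt.1 = p.1 :=
    (congrArg Subtype.val hα).symm
  have h2 : IsOpenImmersion (Spec.map (CommRingCat.ofHom α.toRingHom)) := by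
    have : IsOpenImmersion (Spec.map (CommRingCat.ofHom α.toRingHom) ≫ W.pt.1) := by
      rw [h1]; exact hp
    exact IsOpenImmersion.of_comp _ W.pt.1
  let _ := α.toRingHom.toAlgebra
  refine ⟨g, F3_isLocalization g h2 ?_⟩
  have h3 : (PrimeSpectrum.basicOpen g : (Spec (.of W.B)).Opens) =
      W.pt.1 ⁻¹ᵁ V.basicOpen f := by
    have h4 := basicOpen_eq_of_affine' (R := .of W.B) (W.pt.1.appLE _ ⊤ hle f)
    have h5 := Scheme.basicOpen_appLE W.pt.1 ⊤ W.pt.1.opensRange hle f
    rw [top_inf_eq] at h5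
    exact h4.symm.trans h5
  have h6 : ∀ z : Spec (.of B'), W.pt.1 (Spec.map (CommRingCat.ofHom α.toRingHom) z) = p.1 z := by
    intro z
    have h7 : (Spec.map (CommRingCat.ofHom α.toRingHom) ≫ W.pt.1) z = p.1 z := by rw [h1]
    exact h7
  ext y
  constructor
  · rintro ⟨z, rfl⟩
    have h8 : Spec.map (CommRingCat.ofHom α.toRingHom) z ∈ W.pt.1 ⁻¹ᵁ V.basicOpen f := by
      have h9 : p.1 z ∈ (V.basicOpen f : Set V) := by
        rw [← hr]; exact Set.mem_range_self z
      rw [← h6 z] at h9
      exact h9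
    rw [← h3] at h8
    exact h8
  · intro hy
    have h8 : y ∈ W.pt.1 ⁻¹ᵁ V.basicOpen f := by
      rw [← h3]; exact hy
    have h9 : W.pt.1 y ∈ Set.range p.1 := by rw [hr]; exact h8
    obtain ⟨z, hz⟩ := h9
    refine ⟨z, ?_⟩
    have h10 : W.pt.1 (Spec.map (CommRingCat.ofHom α.toRingHom) z) = W.pt.1 y := by
      rw [h6 z, hz]
    exact (Scheme.Hom.isOpenEmbedding W.pt.1).injective h10

/-- Two charts which contain a common point over a field contain a common chart, which is a
localization of each of the two. -/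
theorem exists_refine (W W' : Chart π) {F : Type u} [Field F] [Algebra k F] (φ : W.B →ₐ[k] F)
    (φ' : W'.B →ₐ[k] F) (h : W.pt.map φ = W'.pt.map φ') :
    ∃ (U : Chart π) (α : W.B →ₐ[k] U.B) (α' : W'.B →ₐ[k] U.B) (ψ : U.B →ₐ[k] F),
      U.pt = W.pt.map α ∧ U.pt = W'.pt.map α' ∧ ψ.comp α = φ ∧ ψ.comp α' = φ' ∧
      (∃ g : W.B, @IsLocalization.Away _ _ g U.B _ α.toRingHom.toAlgebra) ∧
      (∃ g' : W'.B, @IsLocalization.Away _ _ g' U.B _ α'.toRingHom.toAlgebra) := by
  let q : Pt π F := W.pt.map φ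
  let x : V := q.1 (IsLocalRing.closedPoint F)
  have hx1 : x ∈ W.pt.1.opensRange := ⟨Spec.map (CommRingCat.ofHom φ.toRingHom) _, rfl⟩
  have hx2 : x ∈ W'.pt.1.opensRange := by
    have hq : q = W'.pt.map φ' := h
    have h1 : x = (W'.pt.map φ').1 (IsLocalRing.closedPoint F) := by
      show q.1 _ = _
      rw [hq]
    rw [h1]
    exact ⟨Spec.map (CommRingCat.ofHom φ'.toRingHom) _, rfl⟩
  obtain ⟨f, f', hff', hxf⟩ := exists_basicOpen_le_affine_inter
    (isAffineOpen_opensRange W.pt.1) (isAffineOpen_opensRange W'.pt.1) x ⟨hx1, hx2⟩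
  have hO : IsAffineOpen (V.basicOpen f) := (isAffineOpen_opensRange W.pt.1).basicOpen f
  obtain ⟨i, hp, -⟩ := F3_exists_chart (k := k) (π := π) (V.basicOpen f) hO
  let U : Chart π :=
    { B := Γ(V, V.basicOpen f)
      pt := ⟨hO.fromSpec, hp⟩
      imm := inferInstanceAs (IsOpenImmersion hO.fromSpec) }
  have hr : Set.range U.pt.1 = V.basicOpen f := hO.range_fromSpec
  have hr1 : Set.range U.pt.1 ⊆ Set.range W.pt.1 := by
    rw [hr]; exact V.basicOpen_le f
  have hr2 : Set.range U.pt.1 ⊆ Set.range W'.pt.1 := by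
    rw [hr, hff']; exact V.basicOpen_le f'
  obtain ⟨α, hα⟩ := W.F3_lift U.pt hr1
  obtain ⟨α', hα'⟩ := W'.F3_lift U.pt hr2
  obtain ⟨ψ, hψ⟩ := U.F3_lift_local q (by rw [hr]; exact hxf)
  refine ⟨U, α, α', ψ, hα, hα', W.map_injective ?_, W'.map_injective ?_,
    W.F3_refine_aux f U.pt U.imm hr α hα,
    W'.F3_refine_aux f' U.pt U.imm (by rw [hr, hff']) α' hα'⟩
  · rw [← Pt.map_map, ← hα]
    exact hψ.symm
  · rw [← Pt.map_map, ← hα', ← h]
    exact hψ.symm

/-- Localizing a chart with etale coordinates. -/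
theorem IsEtaleCoord.away {n : ℕ} {B B' : Type u} [CommRing B] [Algebra k B] [CommRing B']
    [Algebra k B'] {z : Fin n → B} (hz : IsEtaleCoord k z) (α : B →ₐ[k] B') (g : B)
    (h : @IsLocalization.Away _ _ g B' _ α.toRingHom.toAlgebra) :
    IsEtaleCoord k fun j => α (z j) := by
  unfold IsEtaleCoord at hz ⊢
  have h1 : (MvPolynomial.aeval fun j => α (z j) : MvPolynomial (Fin n) k →ₐ[k] B').toRingHom =
      α.toRingHom.comp (MvPolynomial.aeval z : MvPolynomial (Fin n) k →ₐ[k] B).toRingHom := by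
    apply MvPolynomial.ringHom_ext
    · intro a
      simp
    · intro j
      simp
  rw [h1]
  refine RingHom.Etale.stableUnderComposition _ _ hz ?_
  let _ := α.toRingHom.toAlgebra
  exact Algebra.Etale.of_isLocalizationAway g

/-- A closed point of a scheme locally of finite type over an algebraically closed field is the
image of a `k`-point. -/
theorem exists_pt [IsAlgClosed k] [LocallyOfFiniteType π] (v : V) (hv : IsClosed ({v} : Set V)) :
    ∃ p : Pt π k, Set.range p.1 = {v} := by
  have h : pointOfClosedPoint π v hv ≫ π = Spec.map (CommRingCat.ofHom (algebraMap k k)) := by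
    rw [pointOfClosedPoint_comp]
    exact (Spec.map_id (CommRingCat.of k)).symm
  refine ⟨⟨pointOfClosedPoint π v hv, h⟩, ?_⟩
  ext x
  constructor
  · rintro ⟨a, rfl⟩
    exact pointOfClosedPoint_apply π v hv a
  · rintro rfl
    exact ⟨IsLocalRing.closedPoint k, pointOfClosedPoint_apply π _ hv _⟩

end Pool.Agent.H19VF
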