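import Pool.Agent.H19VF.Defs

/-! # Task F: points of schemes over a field (toolkit), first part -/

set_option autoImplicit false

open AlgebraicGeometry CategoryTheory Polynomial

universe u

namespace Pool.Agent.H19VF

variable {k : Type u} [Field k] {V : Scheme.{u}} {π : V ⟶ Spec (.of k)}

private theorem specMap_dominant {R R' : Type u} [CommRing R] [CommRing R'] (φ : R →+* R')
    (hφ : Function.Injective φ) : IsDominant (Spec.map (CommRingCat.ofHom φ)) := by
  constructor
  change DenseRange (PrimeSpectrum.comap φ)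
  rw [PrimeSpectrum.denseRange_comap_iff_ker_le_nilRadical,
    (RingHom.injective_iff_ker_eq_bot φ).mp hφ]
  exact bot_le

/-- A point with values in a ring is determined by the induced point over a larger ring. -/
theorem Pt.map_injective [IsSeparated π] {R R' : Type u} [CommRing R] [Algebra k R] [CommRing R']
    [Algebra k R'] [IsReduced R] (φ : R →ₐ[k] R') (hφ : Function.Injective φ) {p q : Pt π R}
    (h : p.map φ = q.map φ) : p = q := by
  apply Pt.ext
  have := specMap_dominant φ.toRingHom hφ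
  exact ext_of_isDominant_of_isSeparated π (p.2.trans q.2.symm)
    (Spec.map (CommRingCat.ofHom φ.toRingHom)) (congrArg Subtype.val h)

private theorem chart_finiteType [LocallyOfFiniteType π] (W : Chart π) :
    Algebra.FiniteType k W.B := by
  have := W.imm
  have h1 : LocallyOfFiniteType (W.pt.1 ≫ π) := inferInstance
  rw [W.pt.2] at h1
  have h2 := (HasRingHomProperty.Spec_iff (P := @LocallyOfFiniteType)).mp h1
  exact RingHom.finiteType_algebraMap.mp h2

private theorem specMap_comp {A B C : Type u} [CommRing A] [CommRing B] [CommRing C]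
    (a : A →+* B) (b : B →+* C) :
    Spec.map (CommRingCat.ofHom b) ≫ Spec.map (CommRingCat.ofHom a) =
      Spec.map (CommRingCat.ofHom (b.comp a)) := by
  rw [← Spec.map_comp, ← CommRingCat.ofHom_comp]

private theorem local_pt [LocallyOfFiniteType π] {D Q : Type u} [CommRing D]
    [IsDomain D] [Field Q] [Algebra D Q] [IsFractionRing D Q] [Algebra k D] [Algebra k Q]
    [IsScalarTower k D Q] (θ : Pt π Q) (p : Ideal D) (hp : p.IsPrime)
    (h : ∃ (W : Chart π) (φ : W.B →ₐ[k] Q), θ = W.pt.map φ ∧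
      ∀ b : W.B, ∃ a c : D, c ∉ p ∧ φ b * algebraMap D Q c = algebraMap D Q a) :
    ∃ f : D, f ∉ p ∧ ∃ (ψ : Localization.Away f →ₐ[k] Q) (Θ : Pt π (Localization.Away f)),
      Function.Injective ψ ∧ (∀ a : D, ψ (algebraMap D _ a) = algebraMap D Q a) ∧
        Θ.map ψ = θ := by
  classical
  obtain ⟨W, φ, hθ, hb⟩ := h
  obtain ⟨s, hs⟩ := (chart_finiteType W).out
  choose a c hc hac using hb
  set f : D := ∏ b ∈ s, c b with hf
  have hfp : f ∉ p := by
    rw [hf, hp.prod_mem_iff]
    rintro ⟨b, _, hbp⟩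
    exact hc b hbp
  have hf0 : f ≠ 0 := fun h0 => hfp (h0 ▸ p.zero_mem)
  have hinj : Function.Injective (algebraMap D Q) := IsFractionRing.injective D Q
  have hfQ : algebraMap D Q f ≠ 0 := fun h0 => hf0 (hinj (by rw [h0, map_zero]))
  let ψD : Localization.Away f →ₐ[D] Q :=
    IsLocalization.liftAlgHom (M := Submonoid.powers f) (f := Algebra.ofId D Q) (by
      rintro ⟨_, n, rfl⟩
      simp only [Algebra.ofId_apply, map_pow]
      exact (isUnit_iff_ne_zero.mpr hfQ).pow n)
  have hψD : Function.Injective ψD := by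
    rw [injective_iff_map_eq_zero]
    intro x hx
    obtain ⟨b, t, rfl⟩ := IsLocalization.exists_mk'_eq (Submonoid.powers f) x
    have h1 : ψD (algebraMap D _ b) = 0 := by
      rw [← IsLocalization.mk'_spec (Localization.Away f) b t, map_mul, hx, zero_mul]
    rw [AlgHom.commutes] at h1
    have h2 : b = 0 := hinj (by rw [h1, map_zero])
    rw [h2, IsLocalization.mk'_zero]
  let ψ : Localization.Away f →ₐ[k] Q := ψD.restrictScalars k
  have hψ : Function.Injective ψ := hψD
  have hψa : ∀ a : D, ψ (algebraMap D _ a) = algebraMap D Q a := fun a => ψD.commutes a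
  have hrange : ∀ b : W.B, φ b ∈ ψ.range := by
    have h1 : Algebra.adjoin k (s : Set W.B) ≤ ψ.range.comap φ := by
      rw [Algebra.adjoin_le_iff]
      intro b hb
      change φ b ∈ ψ.range
      refine ⟨IsLocalization.mk' (Localization.Away f) (a b * ∏ b' ∈ s.erase b, c b')
        (⟨f, Submonoid.mem_powers f⟩ : Submonoid.powers f), ?_⟩
      have h2 : ψ (IsLocalization.mk' (Localization.Away f) (a b * ∏ b' ∈ s.erase b, c b')
          (⟨f, Submonoid.mem_powers f⟩ : Submonoid.powers f)) * algebraMap D Q f =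
          algebraMap D Q (a b * ∏ b' ∈ s.erase b, c b') := by
        rw [← hψa f, ← map_mul]
        have h3 := IsLocalization.mk'_spec (Localization.Away f) (a b * ∏ b' ∈ s.erase b, c b')
          (⟨f, Submonoid.mem_powers f⟩ : Submonoid.powers f)
        rw [h3, hψa]
      have h4 : φ b * algebraMap D Q f = algebraMap D Q (a b * ∏ b' ∈ s.erase b, c b') := by
        rw [hf, ← Finset.mul_prod_erase s c hb, map_mul, map_mul, ← mul_assoc, hac b]
      exact mul_right_cancel₀ hfQ (h2.trans h4.symm)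
    intro b
    have h2 : b ∈ Algebra.adjoin k (s : Set W.B) := by rw [hs]; trivial
    exact h1 h2
  let e := AlgEquiv.ofInjective ψ hψ
  let φ' : W.B →ₐ[k] Localization.Away f :=
    (e.symm : ψ.range →ₐ[k] Localization.Away f).comp (φ.codRestrict ψ.range hrange)
  have hφ' : ψ.comp φ' = φ := by
    ext b
    have h1 : e (φ' b) = φ.codRestrict ψ.range hrange b := e.apply_symm_apply _
    have h2 := congrArg Subtype.val h1
    exact h2
  refine ⟨f, hfp, ψ, W.pt.map φ', hψ, hψa, ?_⟩
  rw [Pt.map_map, hφ', hθ]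

/-- Gluing morphisms on an open cover which agree on a dominant family of points. -/
private theorem glue_aux {X Y S Z : Scheme.{u}} (𝒰 : X.OpenCover) (π : Y ⟶ S) [IsSeparated π]
    [AlgebraicGeometry.IsReduced X] (s : X ⟶ S) (z : Z ⟶ X) [IsDominant z]
    (η : ∀ p, Z ⟶ 𝒰.X p) (hη : ∀ p, η p ≫ 𝒰.f p = z) (g : ∀ p, 𝒰.X p ⟶ Y)
    (hg : ∀ p, g p ≫ π = 𝒰.f p ≫ s) (θ : Z ⟶ Y) (hθ : ∀ p, η p ≫ g p = θ) :
    ∃ G : X ⟶ Y, G ≫ π = s ∧ ∀ p, 𝒰.f p ≫ G = g p := by
  have hglue : ∀ p q, Limits.pullback.fst (𝒰.f p) (𝒰.f q) ≫ g p =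
      Limits.pullback.snd (𝒰.f p) (𝒰.f q) ≫ g q := by
    intro p q
    let ι : Z ⟶ Limits.pullback (𝒰.f p) (𝒰.f q) :=
      Limits.pullback.lift (η p) (η q) (by rw [hη, hη])
    have hι1 : ι ≫ Limits.pullback.fst (𝒰.f p) (𝒰.f q) = η p := Limits.pullback.lift_fst _ _ _
    have hι2 : ι ≫ Limits.pullback.snd (𝒰.f p) (𝒰.f q) = η q := Limits.pullback.lift_snd _ _ _
    have hdom : IsDominant ι := by
      have himm : IsOpenImmersion (Limits.pullback.fst (𝒰.f p) (𝒰.f q) ≫ 𝒰.f p) := inferInstance
      have hcomp : ι ≫ (Limits.pullback.fst (𝒰.f p) (𝒰.f q) ≫ 𝒰.f p) = z := by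
        rw [← Category.assoc, hι1, hη]
      set j := Limits.pullback.fst (𝒰.f p) (𝒰.f q) ≫ 𝒰.f p with hj
      constructor
      rw [DenseRange, dense_iff_inter_open]
      intro U hU hne
      have hd : DenseRange (ι ≫ j) := by rw [hcomp]; exact z.denseRange
      obtain ⟨x, hx1, ⟨y, hy⟩⟩ := dense_iff_inter_open.mp hd (j '' U)
        (j.isOpenEmbedding.isOpenMap U hU) (hne.image _)
      obtain ⟨u, hu, hux⟩ := hx1
      refine ⟨u, hu, y, ?_⟩
      apply j.isOpenEmbedding.injective
      rw [hux, ← hy]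
      simp
    have hred : AlgebraicGeometry.IsReduced (Limits.pullback (𝒰.f p) (𝒰.f q)) :=
      isReduced_of_isOpenImmersion (Limits.pullback.fst (𝒰.f p) (𝒰.f q) ≫ 𝒰.f p)
    refine ext_of_isDominant_of_isSeparated π ?_ ι ?_
    · rw [Category.assoc, Category.assoc, hg, hg, ← Category.assoc, ← Category.assoc,
        Limits.pullback.condition]
    · rw [← Category.assoc, ← Category.assoc, hι1, hι2, hθ, hθ]
  refine ⟨𝒰.glueMorphisms g hglue, ?_, fun p => Scheme.Cover.ι_glueMorphisms _ _ _ _⟩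
  refine Scheme.Cover.hom_ext 𝒰 _ _ fun p => ?_
  rw [← Category.assoc, Scheme.Cover.ι_glueMorphisms, hg]

/-- Local points glue: `D` is a domain with fraction field `Q`, and the `Q`-point `θ` comes from a
`D_p`-point for every prime `p` (expressed by a chart of `V`). Then it comes from a `D`-point. -/
theorem glue_domain [IsSeparated π] [LocallyOfFiniteType π] {D Q : Type u} [CommRing D]
    [IsDomain D] [Field Q] [Algebra D Q] [IsFractionRing D Q] [Algebra k D] [Algebra k Q]
    [IsScalarTower k D Q] (θ : Pt π Q)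
    (h : ∀ p : Ideal D, p.IsPrime → ∃ (W : Chart π) (φ : W.B →ₐ[k] Q), θ = W.pt.map φ ∧
      ∀ b : W.B, ∃ a c : D, c ∉ p ∧ φ b * algebraMap D Q c = algebraMap D Q a) :
    ∃ Θ : Pt π D, Θ.map (IsScalarTower.toAlgHom k D Q) = θ := by
  choose f hfp ψ Θ hψ hψa hΘ using fun p : PrimeSpectrum D =>
    local_pt θ p.asIdeal p.isPrime (h p.asIdeal p.isPrime)
  have hspan : Ideal.span (Set.range f) = ⊤ := by
    by_contra hne
    obtain ⟨m, hm, hle⟩ := Ideal.exists_le_maximal _ hne
    exact hfp ⟨m, hm.isPrime⟩ (hle (Ideal.subset_span ⟨⟨m, hm.isPrime⟩, rfl⟩))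
  have hdomQ : IsDominant (Spec.map (CommRingCat.ofHom (algebraMap D Q))) :=
    specMap_dominant _ (IsFractionRing.injective D Q)
  have hη : ∀ p : PrimeSpectrum D, Spec.map (CommRingCat.ofHom (ψ p).toRingHom) ≫
      Spec.map (CommRingCat.ofHom (algebraMap D (Localization.Away (f p)))) =
      Spec.map (CommRingCat.ofHom (algebraMap D Q)) := by
    intro p
    refine (specMap_comp (algebraMap D (Localization.Away (f p))) (ψ p).toRingHom).trans ?_
    congr 2
    ext a
    exact hψa p a
  obtain ⟨G, hG, hGp⟩ := glue_aux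
    (Scheme.affineOpenCoverOfSpanRangeEqTop (R := .of D) f hspan).openCover π
    (Spec.map (CommRingCat.ofHom (algebraMap k D)))
    (Spec.map (CommRingCat.ofHom (algebraMap D Q)))
    (fun p => Spec.map (CommRingCat.ofHom (ψ p).toRingHom)) hη (fun p => (Θ p).1)
    (fun p => (Θ p).2.trans (Eq.trans
      (by rw [← IsScalarTower.algebraMap_eq k D (Localization.Away (f p))])
      (specMap_comp (algebraMap k D) (algebraMap D (Localization.Away (f p)))).symm))
    θ.1 (fun p => congrArg Subtype.val (hΘ p))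
  refine ⟨⟨G, hG⟩, ?_⟩
  apply Pt.ext
  change Spec.map (CommRingCat.ofHom (IsScalarTower.toAlgHom k D Q).toRingHom) ≫ G = _
  have h0 : Spec.map (CommRingCat.ofHom (IsScalarTower.toAlgHom k D Q).toRingHom) =
      Spec.map (CommRingCat.ofHom (ψ ⊥).toRingHom) ≫
      Spec.map (CommRingCat.ofHom (algebraMap D (Localization.Away (f ⊥)))) := (hη ⊥).symm
  rw [h0, Category.assoc]
  have h1 : Spec.map (CommRingCat.ofHom (algebraMap D (Localization.Away (f ⊥)))) ≫ G =
    (Θ ⊥).1 := hGp (⊥ : PrimeSpectrum D)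
  rw [h1]
  exact congrArg Subtype.val (hΘ ⊥)

end Pool.Agent.H19VF

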