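import Pool.Agent.H19VF.Defs
import Pool.Agent.H19VF.F_Pt0

/-! # Task F2: descent of points and curves to finitely generated subalgebras -/

set_option autoImplicit false

open AlgebraicGeometry CategoryTheory Polynomial Limits

universe u

namespace Pool.Agent.H19VF

namespace FDesc

variable {k : Type u} [Field k] {V : Scheme.{u}} {π : V ⟶ Spec (.of k)}

section

variable {R : Type u} [CommRing R] [Algebra k R] {J : Type u} [Preorder J]

/-- the system of rings given by a monotone family of subalgebras -/
noncomputable def sys (B : J → Subalgebra k R) (hB : Monotone B) : J ⥤ CommRingCat.{u} where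
  obj j := .of (B j)
  map f := CommRingCat.ofHom (Subalgebra.inclusion (hB (leOfHom f))).toRingHom
  map_id j := by
    ext x
    rfl
  map_comp f g := by
    ext x
    rfl

/-- the cocone of the system -/
noncomputable def cocone (B : J → Subalgebra k R) (hB : Monotone B) : Cocone (sys B hB) where
  pt := .of R
  ι :=
    { app := fun j => CommRingCat.ofHom (B j).val.toRingHom
      naturality := by
        intro i j f
        ext x
        rfl }

/-- the cocone of the system is a colimit -/
noncomputable def isCol [IsDirectedOrder J] [Nonempty J] (B : J → Subalgebra k R)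
    (hB : Monotone B) (hU : ∀ x : R, ∃ j, x ∈ B j) : IsColimit (cocone B hB) := by
  have : IsFiltered J := inferInstance
  have : ReflectsColimitsOfShape J (forget CommRingCat.{u}) :=
    reflectsColimitsOfShape_of_reflectsIsomorphisms
  refine isColimitOfReflects (forget CommRingCat.{u}) ?_
  refine Types.FilteredColimit.isColimitOf _ _ ?_ ?_
  · intro x
    obtain ⟨j, hj⟩ := hU x
    exact ⟨j, ⟨x, hj⟩, rfl⟩
  · intro i j xi xj h
    obtain ⟨l, hil, hjl⟩ := exists_ge_ge i j
    refine ⟨l, homOfLE hil, homOfLE hjl, ?_⟩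
    apply Subtype.ext
    exact h

end

theorem descend_aux [LocallyOfFinitePresentation π] {R : Type u} [CommRing R] [Algebra k R]
    {J : Type u} [Preorder J] [IsDirectedOrder J] [Nonempty J] (B : J → Subalgebra k R)
    (hB : Monotone B) (hU : ∀ x : R, ∃ j, x ∈ B j) (p : Pt π R) :
    ∃ (j : J) (q : Pt π (B j)), q.map (B j).val = p := by
  let D : Jᵒᵖ ⥤ Scheme.{u} := (sys B hB).op ⋙ Scheme.Spec
  let c : Cone D := Scheme.Spec.mapCone (cocone B hB).op
  have hc : IsLimit c := isLimitOfPreserves Scheme.Spec (isCol B hB hU).op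
  let t : D ⟶ (Functor.const Jᵒᵖ).obj (Spec (.of k)) :=
    { app := fun j => Spec.map (CommRingCat.ofHom (algebraMap k (B j.unop)))
      naturality := by
        intro i j f
        change Spec.map (CommRingCat.ofHom
            (Subalgebra.inclusion (hB (leOfHom f.unop))).toRingHom) ≫
          Spec.map (CommRingCat.ofHom (algebraMap k (B j.unop))) =
            Spec.map (CommRingCat.ofHom (algebraMap k (B i.unop))) ≫ 𝟙 _
        rw [Category.comp_id]
        exact (Spec.map_comp _ _).symm }
  have : ∀ {i j : Jᵒᵖ} (f : i ⟶ j), IsAffineHom (D.map f) := by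
    intro i j f
    change IsAffineHom (Spec.map _)
    infer_instance
  have : ∀ i, CompactSpace (D.obj i) := by
    intro i
    change CompactSpace (Spec _)
    infer_instance
  have : ∀ i, QuasiSeparatedSpace (D.obj i) := by
    intro i
    change QuasiSeparatedSpace (Spec _)
    infer_instance
  have : IsCofiltered Jᵒᵖ := inferInstance
  obtain ⟨j, g, hg, hg'⟩ := Scheme.exists_π_app_comp_eq_of_locallyOfFinitePresentation D t π c hc
    p.1 (by
      ext j
      change Spec.map (CommRingCat.ofHom (B j.unop).val.toRingHom) ≫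
        Spec.map (CommRingCat.ofHom (algebraMap k (B j.unop))) = p.1 ≫ π
      rw [p.2]
      exact (Spec.map_comp _ _).symm)
  exact ⟨j.unop, ⟨g, hg'⟩, Pt.ext hg⟩

/-- the finitely generated subalgebras -/
def FGS (k F : Type u) [Field k] [CommRing F] [Algebra k F] : Type u :=
  {A : Subalgebra k F // A.FG}

instance (k F : Type u) [Field k] [CommRing F] [Algebra k F] : Preorder (FGS k F) :=
  inferInstanceAs (Preorder {A : Subalgebra k F // A.FG})

instance (k F : Type u) [Field k] [CommRing F] [Algebra k F] : IsDirectedOrder (FGS k F) :=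
  ⟨fun A B => ⟨⟨A.1 ⊔ B.1, A.2.sup B.2⟩, le_sup_left (a := A.1), le_sup_right (a := A.1)⟩⟩

instance (k F : Type u) [Field k] [CommRing F] [Algebra k F] : Nonempty (FGS k F) :=
  ⟨⟨⊥, Subalgebra.fg_bot⟩⟩

theorem pmap_injective {A B : Type u} [CommRing A] [Algebra k A] [CommRing B] [Algebra k B]
    (φ : A →ₐ[k] B) (h : Function.Injective φ) : Function.Injective (pmap φ) := by
  intro x y hxy
  exact Polynomial.map_injective φ.toRingHom h hxy

theorem adjoin_finset_fg {F : Type u} [CommRing F] [Algebra k F] (T : Finset F) :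
    (Algebra.adjoin k (T : Set F)).FG := ⟨T, rfl⟩

end FDesc

open FDesc

variable {k : Type u} [Field k] {V : Scheme.{u}} {π : V ⟶ Spec (.of k)}

/-- A point over a polynomial ring `F[X]` is defined over `A[X]` for a finitely generated
subalgebra `A` of `F`. -/
theorem Pt.descend_proof [LocallyOfFinitePresentation π] {F : Type u} [CommRing F] [Algebra k F]
    (p : Pt π F[X]) :
    ∃ A : Subalgebra k F, A.FG ∧ ∃ pA : Pt π A[X], pA.map (pmap A.val) = p := by
  obtain ⟨⟨A, hA⟩, q, hq⟩ := descend_aux (J := FGS k F) (fun A => (pmap A.1.val).range) (by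
      rintro A A' h _ ⟨q, rfl⟩
      refine ⟨pmap (Subalgebra.inclusion (show A.1 ≤ A'.1 from h)) q, ?_⟩
      change Polynomial.map _ (Polynomial.map _ q) = Polynomial.map _ q
      rw [Polynomial.map_map]
      rfl) (by
      intro f
      classical
      refine ⟨⟨Algebra.adjoin k ((f.support.image f.coeff : Finset F) : Set F),
        adjoin_finset_fg _⟩, ?_⟩
      have : f ∈ Polynomial.lifts
          (Algebra.adjoin k ((f.support.image f.coeff : Finset F) : Set F)).val.toRingHom := by
        rw [Polynomial.lifts_iff_coeff_lifts]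
        intro n
        by_cases hn : n ∈ f.support
        · exact ⟨⟨f.coeff n, Algebra.subset_adjoin (by
            simp only [Finset.coe_image, Set.mem_image, Finset.mem_coe]
            exact ⟨n, hn, rfl⟩)⟩, rfl⟩
        · rw [Polynomial.notMem_support_iff.1 hn]
          exact ⟨0, map_zero _⟩
      obtain ⟨q, hq⟩ := this
      exact ⟨q, hq⟩) p
  have hinj : Function.Injective (pmap A.val) := pmap_injective _ Subtype.val_injective
  refine ⟨A, hA, q.map (AlgEquiv.ofInjective (pmap A.val) hinj).symm.toAlgHom, ?_⟩
  rw [Pt.map_map, ← hq]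
  congr 1
  ext x : 1
  exact congrArg Subtype.val ((AlgEquiv.ofInjective (pmap A.val) hinj).apply_symm_apply x)

/-- A point over any ring `F` is defined over a finitely generated subalgebra `A` of `F`. -/
theorem Pt.descend'_proof [LocallyOfFinitePresentation π] {F : Type u} [CommRing F] [Algebra k F]
    (p : Pt π F) :
    ∃ A : Subalgebra k F, A.FG ∧ ∃ pA : Pt π A, pA.map A.val = p := by
  obtain ⟨⟨A, hA⟩, q, hq⟩ := descend_aux (J := FGS k F) (fun A => A.1) (fun _ _ h => h) (by
      intro x
      classical
      exact ⟨⟨Algebra.adjoin k (({x} : Finset F) : Set F), adjoin_finset_fg _⟩,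
        Algebra.subset_adjoin (by simp)⟩) p
  exact ⟨A, hA, q, hq⟩

/-- A curve over a domain `F` is defined over a finitely generated subalgebra, which can be taken
to contain any given finite set. -/
theorem Crv.descend_proof [IsSeparated π] [LocallyOfFinitePresentation π] {F : Type u} [CommRing F]
    [IsDomain F] [Algebra k F] (Φ : Crv π F) (T : Finset F) :
    ∃ A : Subalgebra k F, A.FG ∧ (∀ x ∈ T, x ∈ A) ∧ ∃ ΦA : Crv π A, ΦA.map A.val = Φ := by
  obtain ⟨A₁, h₁, p₁, hp₁⟩ := Pt.descend_proof Φ.y
  obtain ⟨A₂, h₂, p₂, hp₂⟩ := Pt.descend_proof Φ.w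
  set A : Subalgebra k F := A₁ ⊔ A₂ ⊔ Algebra.adjoin k (T : Set F) with hA
  have hle₁ : A₁ ≤ A := le_sup_left.trans le_sup_left
  have hle₂ : A₂ ≤ A := le_sup_right.trans le_sup_left
  have hinj : Function.Injective (lmap A.val) := by
    intro x y hxy
    apply AddMonoidAlgebra.ext
    ext n
    have h := congrArg (fun z : AddMonoidAlgebra F ℤ => z.coeff n) hxy
    have e : ∀ z : AddMonoidAlgebra A ℤ,
        (AddMonoidAlgebra.mapAlgHom ℤ A.val z).coeff n = A.val (z.coeff n) :=
      fun z => AddMonoidAlgebra.coeff_mapAlgHom _ _ _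
    exact (e x).symm.trans (h.trans (e y))
  have hy : (p₁.map (pmap (Subalgebra.inclusion hle₁))).map (pmap A.val) = Φ.y := by
    rw [Pt.map_map, ← hp₁]
    congr 1
    apply AlgHom.ext
    intro q
    change Polynomial.map _ (Polynomial.map _ q) = Polynomial.map _ q
    rw [Polynomial.map_map]
    rfl
  have hw : (p₂.map (pmap (Subalgebra.inclusion hle₂))).map (pmap A.val) = Φ.w := by
    rw [Pt.map_map, ← hp₂]
    congr 1
    apply AlgHom.ext
    intro q
    change Polynomial.map _ (Polynomial.map _ q) = Polynomial.map _ q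
    rw [Polynomial.map_map]
    rfl
  refine ⟨A, (h₁.sup h₂).sup (adjoin_finset_fg T), fun x hx =>
    (le_sup_right : Algebra.adjoin k (T : Set F) ≤ A) (Algebra.subset_adjoin hx),
    ⟨p₁.map (pmap (Subalgebra.inclusion hle₁)), p₂.map (pmap (Subalgebra.inclusion hle₂)), ?_⟩,
    ?_⟩
  · have : IsDomain (LaurentPolynomial A) := inferInstance
    apply Pt.map_injective (lmap A.val) hinj
    rw [Pt.map_map, lmap_lauY, ← Pt.map_map, hy, Pt.map_map, lmap_lauW, ← Pt.map_map, hw]
    exact Φ.glue
  · exact Crv.ext hy hw

end Pool.Agent.H19VF
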