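import Pool.Agent.H19VF.F_Desc

/-! # Task F: points of schemes over a field (toolkit), first part -/

set_option autoImplicit false

open AlgebraicGeometry CategoryTheory Polynomial

universe u

namespace Pool.Agent.H19VF

variable {k : Type u} [Field k] {V : Scheme.{u}} {π : V ⟶ Spec (.of k)}

/-- A point over a polynomial ring `F[X]` is defined over `A[X]` for a finitely generated
subalgebra `A` of `F`. -/
theorem Pt.descend [LocallyOfFinitePresentation π] {F : Type u} [CommRing F] [Algebra k F]
    (p : Pt π F[X]) :
    ∃ A : Subalgebra k F, A.FG ∧ ∃ pA : Pt π A[X], pA.map (pmap A.val) = p :=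
  Pt.descend_proof p

/-- A point over any ring `F` is defined over a finitely generated subalgebra `A` of `F`. -/
theorem Pt.descend' [LocallyOfFinitePresentation π] {F : Type u} [CommRing F] [Algebra k F]
    (p : Pt π F) :
    ∃ A : Subalgebra k F, A.FG ∧ ∃ pA : Pt π A, pA.map A.val = p :=
  Pt.descend'_proof p

/-- A curve over a domain `F` is defined over a finitely generated subalgebra, which can be taken
to contain any given finite set. -/
theorem Crv.descend [IsSeparated π] [LocallyOfFinitePresentation π] {F : Type u} [CommRing F]
    [IsDomain F] [Algebra k F] (Φ : Crv π F) (T : Finset F) :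
    ∃ A : Subalgebra k F, A.FG ∧ (∀ x ∈ T, x ∈ A) ∧ ∃ ΦA : Crv π A, ΦA.map A.val = Φ :=
  Crv.descend_proof Φ T

end Pool.Agent.H19VF
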