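import Pool.Agent.H19VF.Places
import Pool.Agent.H19VF.Defs

/-! # The data produced by the single steps of the proof (definitions only) -/

set_option autoImplicit false

open AlgebraicGeometry CategoryTheory Polynomial

universe u

namespace Pool.Agent.H19VF

variable {k : Type u} [Field k] {V : Scheme.{u}} {π : V ⟶ Spec (.of k)}

/-- The homomorphism `R[X] → R[ε]`, `X ↦ ε`. -/
noncomputable def evEps (k : Type u) [Field k] (R : Type u) [CommRing R] [Algebra k R] :
    R[X] →ₐ[k] DualNumber R :=
  (Polynomial.aeval (DualNumber.eps : DualNumber R) : R[X] →ₐ[R] DualNumber R).restrictScalars k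

/-- A versal family of curves through the point `F(0)` (Corollary 3.2 of the paper): a curve `Ψ`
over a field `K` with `Ψ(0) = F(0)`, with derivative `c` at `0` and value `Ψ(∞)` such that `c` and
the coordinates of `Ψ(∞)` are differentially independent over `k`. -/
structure FamData {V : Scheme.{u}} (π : V ⟶ Spec (.of k)) (n : ℕ) where
  K : Type u
  [fld : Field K]
  [alg : Algebra k K]
  Ψ : Crv π K
  /-- a chart at the point `Ψ(0)`, centered at this point -/
  Wp : EChart π n
  p0 : Wp.B →ₐ[k] k
  hpz : ∀ j, p0 (Wp.z j) = 0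
  /-- the derivative at `0` -/
  c : Fin n → K
  φ0 : Wp.B →ₐ[k] DualNumber K
  hφ0 : Ψ.y.map (evEps k K) = Wp.pt.map φ0
  hφ0f : ∀ b, (φ0 b).fst = algebraMap k K (p0 b)
  hφ0z : ∀ j, (φ0 (Wp.z j)).snd = c j
  /-- a chart at the point `Ψ(∞)` -/
  Wi : EChart π n
  φi : Wi.B →ₐ[k] K
  hφi : Ψ.at none = Wi.pt.map φi
  Dv : Fin (n + n) → Derivation k K K
  hdet : (Matrix.of fun a b => Dv a (Fin.append c (fun j => φi (Wi.z j)) b)).det ≠ 0

attribute [instance] FamData.fld FamData.alg

/-- The evaluation `A[X]_h → A` at `X = 0`, for `h` with constant term one. -/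
noncomputable def loc0 (k : Type u) [Field k] {A : Type u} [CommRing A] [Algebra k A] (h : A[X])
    (hh : h.eval 0 = 1) : Localization.Away h →ₐ[k] A where
  toRingHom := IsLocalization.Away.lift (S := Localization.Away h) h
    (g := (Polynomial.evalRingHom (0 : A))) (by
      rw [Polynomial.coe_evalRingHom, hh]; exact isUnit_one)
  commutes' r := by
    have h1 : algebraMap k (Localization.Away h) r =
        algebraMap A[X] (Localization.Away h) (C (algebraMap k A r)) := by
      rw [IsScalarTower.algebraMap_apply k A[X] (Localization.Away h)]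
      rfl
    change IsLocalization.Away.lift h _ _ = _
    rw [h1, IsLocalization.Away.lift_eq]
    simp

/-- The inclusion `A[X] → A[X]_h`. -/
noncomputable def toLoc (k : Type u) [Field k] {A : Type u} [CommRing A] [Algebra k A] (h : A[X]) :
    A[X] →ₐ[k] Localization.Away h := IsScalarTower.toAlgHom k A[X] (Localization.Away h)

/-- The data (PKG) of section 3 of the paper at the closed point `v`, together with an arc `m` as in
Proposition 4.1: a family `Ψ` of curves through the point `p0` over the ring `A`, which is standard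
etale over the polynomial ring in `c j` (the derivative of the curves at `0`, `inl j`) and other
elements (`inr l`), and a point `m` of `A` over `k'((t))`, such that `c j` goes to the constant `γ j`
and `Ψ(∞)` specializes to `v` for `t → 0`. -/
structure ArcData {V : Scheme.{u}} {π : V ⟶ Spec (.of k)} {n : ℕ} (Wp : EChart π n)
    (p0 : Wp.B →ₐ[k] k) (k' : Type u) [Field k'] [Algebra k k'] (γ : Fin n → k')
    (v : Pt π k) where
  r : ℕ
  A : Type u
  [ring : CommRing A]
  [alg : Algebra k A]
  [alg' : Algebra (MvPolynomial (Fin n ⊕ Fin r) k) A]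
  [tower : IsScalarTower k (MvPolynomial (Fin n ⊕ Fin r) k) A]
  std : Algebra.IsStandardEtale (MvPolynomial (Fin n ⊕ Fin r) k) A
  m : A →ₐ[k] LSer k'
  hm : ∀ j, m (algebraMap (MvPolynomial (Fin n ⊕ Fin r) k) A (MvPolynomial.X (Sum.inl j))) =
    LSer.C (γ j)
  Ψ : Crv π A
  /-- the chart near `y = 0` -/
  h0 : A[X]
  hh0 : h0.eval 0 = 1
  φ0 : Wp.B →ₐ[k] Localization.Away h0
  hφ0 : Ψ.y.map (toLoc k h0) = Wp.pt.map φ0
  hφ0p : ∀ b, loc0 k h0 hh0 (φ0 b) = algebraMap k A (p0 b)
  ρ : Fin n → Localization.Away h0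
  hρ : ∀ j, φ0 (Wp.z j) = toLoc k h0 X * (toLoc k h0 (C (algebraMap
    (MvPolynomial (Fin n ⊕ Fin r) k) A (MvPolynomial.X (Sum.inl j)))) + toLoc k h0 X * ρ j)
  /-- the chart near `w = 0` -/
  Wv : Chart π
  v0 : Wv.B →ₐ[k] k
  hv0 : v = Wv.pt.map v0
  h1 : A[X]
  hh1 : h1.eval 0 = 1
  φ1 : Wv.B →ₐ[k] Localization.Away h1
  hφ1 : Ψ.w.map (toLoc k h1) = Wv.pt.map φ1
  hm1 : ∀ b, ∃ f : PowerSeries k', m (loc0 k h1 hh1 (φ1 b)) = LSer.ofPS f ∧
    PowerSeries.constantCoeff f = algebraMap k k' (v0 b)

attribute [instance] ArcData.ring ArcData.alg ArcData.alg' ArcData.tower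

end Pool.Agent.H19VF
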