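/-
JOB for project VFC (MP_1858fb_ag, owner helper19). The modules Pool.Agent.H19VF.* are on origin/main: fetch them with
cd /workdir/pool/outputs/live && git fetch -q origin && for f in $(git ls-tree -r --name-only origin/main Pool/Agent/H19VF); do mkdir -p /workdir/pool/$(dirname $f); git show origin/main:$f > /workdir/pool/$f; done ; cd /workdir/pool && lake build Pool.Agent.H19VF.Ser Pool.Agent.H19VF.Defs
Paper proof: papers id 127. TARGET: all theorems of the file. Pool/Agent/H187R3/LVAffine.lean on main has a similar dehomogenization over the complex numbers. Proj.affineOpenCoverOfIrrelevantLESpan, Proj.pullbackAwayIotaIso, Proj is proper over Spec of the degree zero part. P1_integral: two integral open charts with nonempty intersection.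
-/
import Pool.Agent.H19VF.Defs

/-! # Task G: morphisms from the projective line are curves `Crv` -/

set_option autoImplicit false

open AlgebraicGeometry CategoryTheory Polynomial

universe u

namespace Pool.Agent.H19VF

variable (k : Type u) [Field k]

attribute [local instance] MvPolynomial.gradedAlgebra

lemma GP1_X_mem (i : Fin 2) : (MvPolynomial.X i : MvPolynomial (Fin 2) k) ∈ gr k 1 :=
  (MvPolynomial.mem_homogeneousSubmodule _ _).2 (MvPolynomial.isHomogeneous_X k i)

/-- Dehomogenization of polynomials. -/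
noncomputable def GP1_de (i : Fin 2) : MvPolynomial (Fin 2) k →ₐ[k] k[X] :=
  MvPolynomial.aeval (fun j => if j = i then (1 : k[X]) else X)

lemma GP1_deh_mk (i : Fin 2) (n : ℕ) (s : MvPolynomial (Fin 2) k) (hs : s ∈ gr k (n • 1)) :
    deh k i (HomogeneousLocalization.Away.mk (gr k) (GP1_X_mem k i) n s hs) = GP1_de k i s := by
  have hu : IsUnit ((GP1_de k i).toRingHom (MvPolynomial.X i)) := by
    simp [GP1_de]
  obtain ⟨φ, hφ⟩ : ∃ φ : Localization.Away (MvPolynomial.X i : MvPolynomial (Fin 2) k) →+* k[X],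
      φ = IsLocalization.Away.lift
        (S := Localization.Away (MvPolynomial.X i : MvPolynomial (Fin 2) k))
        (MvPolynomial.X i : MvPolynomial (Fin 2) k) (g := (GP1_de k i).toRingHom) hu := ⟨_, rfl⟩
  have h1 : deh k i (HomogeneousLocalization.Away.mk (gr k) (GP1_X_mem k i) n s hs) =
      φ (HomogeneousLocalization.Away.mk (gr k) (GP1_X_mem k i) n s hs).val := by
    rw [hφ]; rfl
  rw [h1, HomogeneousLocalization.Away.val_mk]
  have h2 : ∀ a : MvPolynomial (Fin 2) k, φ (algebraMap _ _ a) = GP1_de k i a := fun a => by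
    rw [hφ]
    exact IsLocalization.Away.lift_eq
      (S := Localization.Away (MvPolynomial.X i : MvPolynomial (Fin 2) k))
      (MvPolynomial.X i : MvPolynomial (Fin 2) k) hu a
  have h4 : φ (algebraMap _ _ (MvPolynomial.X i ^ n : MvPolynomial (Fin 2) k)) = 1 := by
    rw [h2, map_pow]
    simp [GP1_de]
  have h5 : (Localization.mk s ⟨MvPolynomial.X i ^ n, n, rfl⟩ :
      Localization.Away (MvPolynomial.X i : MvPolynomial (Fin 2) k)) *
        algebraMap _ _ (MvPolynomial.X i ^ n : MvPolynomial (Fin 2) k) = algebraMap _ _ s := by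
    rw [← Localization.mk_one_eq_algebraMap, ← Localization.mk_one_eq_algebraMap,
      Localization.mk_mul, Localization.mk_eq_mk_iff, Localization.r_iff_exists]
    exact ⟨1, by simp [mul_comm]⟩
  have h6 := congrArg φ h5
  rw [map_mul, h4, mul_one, h2] at h6
  exact h6

/-- The other index. -/
lemma GP1_other (i : Fin 2) : ∃ j : Fin 2, j ≠ i := ⟨1 - i, by fin_cases i <;> simp⟩

lemma GP1_de_eq {i j : Fin 2} (hij : j ≠ i) (s : MvPolynomial (Fin 2) k) :
    GP1_de k i s = ∑ m ∈ s.support, C (MvPolynomial.coeff m s) * X ^ (m j) := by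
  rw [GP1_de, MvPolynomial.aeval_def, MvPolynomial.eval₂_eq]
  refine Finset.sum_congr rfl fun m _ => ?_
  rw [Polynomial.algebraMap_eq]
  congr 1
  rw [Finset.prod_eq_single j]
  · rw [if_neg hij]
  · intro b _ hb
    have : b = i := by omega
    rw [if_pos this, one_pow]
  · intro h
    rw [Finsupp.notMem_support_iff.1 h, pow_zero]

lemma GP1_sum_eq {i j : Fin 2} (hij : j ≠ i) {n : ℕ} {s : MvPolynomial (Fin 2) k}
    (hs : s.IsHomogeneous n) {m : Fin 2 →₀ ℕ} (hm : MvPolynomial.coeff m s ≠ 0) :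
    m i + m j = n := by
  have h1 := hs hm
  rw [Finsupp.weight_apply, Finsupp.sum_fintype _ _ (by simp)] at h1
  simp only [Fin.sum_univ_two, Pi.one_apply, smul_eq_mul, mul_one] at h1
  rw [← h1]
  fin_cases i <;> fin_cases j <;> simp_all [add_comm]

lemma GP1_de_inj (i : Fin 2) {n : ℕ} {s : MvPolynomial (Fin 2) k} (hs : s.IsHomogeneous n)
    (h : GP1_de k i s = 0) : s = 0 := by
  obtain ⟨j, hij⟩ := GP1_other i
  rw [GP1_de_eq k hij] at h
  ext m₀
  rw [MvPolynomial.coeff_zero]
  by_contra hne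
  have h1 := congrArg (fun p => Polynomial.coeff p (m₀ j)) h
  simp only [Polynomial.finsetSum_coeff, Polynomial.coeff_C_mul, Polynomial.coeff_X_pow,
    Polynomial.coeff_zero] at h1
  rw [Finset.sum_eq_single m₀] at h1
  · rw [if_pos rfl, mul_one] at h1
    exact hne h1
  · intro b hb hbm
    rw [if_neg, mul_zero]
    intro heq
    apply hbm
    have e1 := GP1_sum_eq k hij hs hne
    have e2 := GP1_sum_eq k hij hs (MvPolynomial.mem_support_iff.1 hb)
    ext t
    rcases eq_or_ne t j with rfl | ht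
    · exact heq.symm
    · have : t = i := by omega
      rw [this]
      omega
  · intro hnot
    rw [MvPolynomial.notMem_support_iff.1 hnot, zero_mul]

/-- The map `deh k i` is bijective. -/
theorem deh_bijective (i : Fin 2) : Function.Bijective (deh k i) := by
  constructor
  · rw [injective_iff_map_eq_zero]
    intro z hz
    obtain ⟨n, s, hs, rfl⟩ := HomogeneousLocalization.Away.mk_surjective (gr k) (GP1_X_mem k i) z
    rw [GP1_deh_mk] at hz
    have h0 : s = 0 := GP1_de_inj k i ((MvPolynomial.mem_homogeneousSubmodule _ _).1 hs) hz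
    subst h0
    apply HomogeneousLocalization.val_injective
    rw [HomogeneousLocalization.Away.val_mk, HomogeneousLocalization.val_zero,
      Localization.mk_zero]
  · intro p
    obtain ⟨j, hij⟩ := GP1_other i
    induction p using Polynomial.induction_on' with
    | add p q hp hq =>
      obtain ⟨a, rfl⟩ := hp
      obtain ⟨b, rfl⟩ := hq
      exact ⟨a + b, map_add _ _ _⟩
    | monomial n a =>
      refine ⟨HomogeneousLocalization.Away.mk (gr k) (GP1_X_mem k i) n
        (MvPolynomial.C a * MvPolynomial.X j ^ n) ?_, ?_⟩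
      · rw [smul_eq_mul, mul_one]
        have := (MvPolynomial.isHomogeneous_C (Fin 2) a).mul
          ((MvPolynomial.isHomogeneous_X k j).pow n)
        simpa using this
      · rw [GP1_deh_mk, GP1_de, map_mul, map_pow, MvPolynomial.aeval_X, if_neg hij,
          MvPolynomial.aeval_C, Polynomial.algebraMap_eq, Polynomial.C_mul_X_pow_eq_monomial]

instance GP1_isIso_deh (i : Fin 2) : IsIso (CommRingCat.ofHom (deh k i)) := by
  rw [ConcreteCategory.isIso_iff_bijective]
  exact deh_bijective k i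

instance GP1_isIso_Spec_deh (i : Fin 2) : IsIso (Spec.map (CommRingCat.ofHom (deh k i))) :=
  inferInstance

instance chart_isOpenImmersion (i : Fin 2) : IsOpenImmersion (P1.chart k i) := by
  unfold P1.chart
  exact inferInstanceAs (IsOpenImmersion (Spec.map (CommRingCat.ofHom (deh k i)) ≫
    Proj.awayι (gr k) (MvPolynomial.X i) (GP1_X_mem k i) zero_lt_one))

theorem chart_str (i : Fin 2) :
    P1.chart k i ≫ P1.str k = Spec.map (CommRingCat.ofHom (algebraMap k k[X])) := by
  change (Spec.map (CommRingCat.ofHom (deh k i)) ≫ Proj.awayι (gr k) (MvPolynomial.X i)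
    (GP1_X_mem k i) zero_lt_one) ≫ (Proj.toSpecZero (gr k) ≫
      Spec.map (CommRingCat.ofHom (algebraMap k (gr k 0)))) = _
  rw [Category.assoc, Proj.awayι_toSpecZero_assoc, ← Spec.map_comp, ← Spec.map_comp]
  congr 1
  ext c
  simp only [CommRingCat.hom_comp, CommRingCat.hom_ofHom, RingHom.comp_apply]
  have : (HomogeneousLocalization.fromZeroRingHom (gr k)
      (Submonoid.powers (MvPolynomial.X i : MvPolynomial (Fin 2) k))) (algebraMap k (gr k 0) c) =
      HomogeneousLocalization.Away.mk (gr k) (GP1_X_mem k i) 0 (MvPolynomial.C c)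
        (by rw [zero_smul]; exact MvPolynomial.isHomogeneous_C _ _) := by
    apply HomogeneousLocalization.val_injective
    rw [HomogeneousLocalization.Away.val_mk]
    rfl
  rw [this, GP1_deh_mk]
  simp [GP1_de]

instance GP1_tower : IsScalarTower k (gr k 0) (MvPolynomial (Fin 2) k) :=
  IsScalarTower.of_algebraMap_eq (R := k) (S := gr k 0) (A := MvPolynomial (Fin 2) k)
    fun _ => rfl

lemma GP1_adjoin : Algebra.adjoin (gr k 0)
    (Set.range (MvPolynomial.X : Fin 2 → MvPolynomial (Fin 2) k)) = ⊤ := by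
  rw [← top_le_iff]
  intro p _
  have h1 : p ∈ Algebra.adjoin k (Set.range (MvPolynomial.X : Fin 2 → MvPolynomial (Fin 2) k)) := by
    rw [MvPolynomial.adjoin_range_X]
    trivial
  have h2 : Algebra.adjoin k (Set.range (MvPolynomial.X : Fin 2 → MvPolynomial (Fin 2) k)) ≤
      (Algebra.adjoin (gr k 0)
        (Set.range (MvPolynomial.X : Fin 2 → MvPolynomial (Fin 2) k))).restrictScalars k :=
    Algebra.adjoin_le Algebra.subset_adjoin
  exact h2 h1

/-- The two charts cover the projective line. -/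
theorem chart_cover (x : P1 k) : ∃ (i : Fin 2) (y : Spec (.of k[X])), P1.chart k i y = x := by
  have h1 := Proj.iSup_basicOpen_eq_top' (gr k)
    (MvPolynomial.X : Fin 2 → MvPolynomial (Fin 2) k) (fun i => ⟨1, GP1_X_mem k i⟩) (GP1_adjoin k)
  have h2 : x ∈ (⨆ i, Proj.basicOpen (gr k) (MvPolynomial.X i) : (Proj (gr k)).Opens) := by
    rw [h1]; trivial
  obtain ⟨i, hi⟩ := TopologicalSpace.Opens.mem_iSup.1 h2
  rw [← Proj.opensRange_awayι (gr k) (MvPolynomial.X i) (GP1_X_mem k i) zero_lt_one] at hi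
  obtain ⟨y, hy⟩ := hi
  refine ⟨i, (inv (Spec.map (CommRingCat.ofHom (deh k i)))) y, ?_⟩
  have h3 : inv (Spec.map (CommRingCat.ofHom (deh k i))) ≫ P1.chart k i =
      Proj.awayι (gr k) (MvPolynomial.X i) (GP1_X_mem k i) zero_lt_one := by
    unfold P1.chart
    exact IsIso.inv_hom_id_assoc _ _
  have h4 := congrArg (fun f : Spec _ ⟶ P1 k => f y) h3
  exact (Scheme.Hom.comp_apply _ _ _).symm.trans (h4.trans hy)

/-- The projective line is proper. -/
instance P1_proper : IsProper (P1.str k) := by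
  have h1 : Algebra.FiniteType (gr k 0) (MvPolynomial (Fin 2) k) :=
    Algebra.FiniteType.of_restrictScalars_finiteType k (gr k 0) (MvPolynomial (Fin 2) k)
  have h2 : IsIso (CommRingCat.ofHom (algebraMap k (gr k 0))) := by
    rw [ConcreteCategory.isIso_iff_bijective]
    constructor
    · intro x y hxy
      exact MvPolynomial.C_injective (Fin 2) k (congrArg Subtype.val hxy)
    · rintro ⟨p, hp⟩
      have h3 : p.IsHomogeneous 0 := (MvPolynomial.mem_homogeneousSubmodule _ _).1 hp
      refine ⟨MvPolynomial.coeff 0 p, ?_⟩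
      apply Subtype.ext
      change MvPolynomial.C (MvPolynomial.coeff 0 p) = p
      exact (MvPolynomial.totalDegree_eq_zero_iff_eq_C.1
        ((MvPolynomial.totalDegree_zero_iff_isHomogeneous (Fin 2)).2 h3)).symm
  have h3 : IsProper (Proj.toSpecZero (gr k)) := inferInstance
  have h4 : IsProper (Spec.map (CommRingCat.ofHom (algebraMap k (gr k 0)))) := inferInstance
  exact inferInstanceAs (IsProper (Proj.toSpecZero (gr k) ≫
    Spec.map (CommRingCat.ofHom (algebraMap k (gr k 0)))))

/-- The substitution `X₀ ↦ 1`, `X₁ ↦ T`. -/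
noncomputable def GP1_d0 : MvPolynomial (Fin 2) k →ₐ[k] LaurentPolynomial k :=
  MvPolynomial.aeval (fun j => if j = 0 then (1 : LaurentPolynomial k) else LaurentPolynomial.T 1)

lemma GP1_d0_X : (GP1_d0 k).toRingHom (MvPolynomial.X 0 * MvPolynomial.X 1) =
    LaurentPolynomial.T 1 := by
  simp [GP1_d0]

lemma GP1_unit : IsUnit ((GP1_d0 k).toRingHom (MvPolynomial.X 0 * MvPolynomial.X 1)) := by
  rw [GP1_d0_X]
  exact LaurentPolynomial.isUnit_T 1

/-- The substitution on the localization. -/
noncomputable def GP1_d1 : Localization.Away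
    (MvPolynomial.X 0 * MvPolynomial.X 1 : MvPolynomial (Fin 2) k) →+* LaurentPolynomial k :=
  IsLocalization.Away.lift (MvPolynomial.X 0 * MvPolynomial.X 1 : MvPolynomial (Fin 2) k)
    (g := (GP1_d0 k).toRingHom) (GP1_unit k)

/-- The substitution on the degree zero part. -/
noncomputable def GP1_d2 : HomogeneousLocalization.Away (gr k)
    (MvPolynomial.X 0 * MvPolynomial.X 1 : MvPolynomial (Fin 2) k) →+* LaurentPolynomial k :=
  (GP1_d1 k).comp (algebraMap _ _)

lemma GP1_XX_mem : (MvPolynomial.X 0 * MvPolynomial.X 1 : MvPolynomial (Fin 2) k) ∈ gr k (1 + 1) :=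
  SetLike.mul_mem_graded (GP1_X_mem k 0) (GP1_X_mem k 1)

lemma GP1_d2_mk (n : ℕ) (a : MvPolynomial (Fin 2) k) (ha : a ∈ gr k (n • (1 + 1))) :
    GP1_d2 k (HomogeneousLocalization.Away.mk (gr k) (GP1_XX_mem k) n a ha) *
      LaurentPolynomial.T (n : ℤ) = GP1_d0 k a := by
  have h1 : GP1_d2 k (HomogeneousLocalization.Away.mk (gr k) (GP1_XX_mem k) n a ha) =
      GP1_d1 k (HomogeneousLocalization.Away.mk (gr k) (GP1_XX_mem k) n a ha).val := rfl
  rw [h1, HomogeneousLocalization.Away.val_mk]
  have h2 : ∀ b : MvPolynomial (Fin 2) k, GP1_d1 k (algebraMap _ _ b) = GP1_d0 k b := fun b =>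
    IsLocalization.Away.lift_eq
      (S := Localization.Away (MvPolynomial.X 0 * MvPolynomial.X 1 : MvPolynomial (Fin 2) k))
      (MvPolynomial.X 0 * MvPolynomial.X 1 : MvPolynomial (Fin 2) k) (GP1_unit k) b
  have h4 : GP1_d1 k (algebraMap _ _
      ((MvPolynomial.X 0 * MvPolynomial.X 1) ^ n : MvPolynomial (Fin 2) k)) =
        LaurentPolynomial.T (n : ℤ) := by
    rw [h2, map_pow]
    have h5 : GP1_d0 k (MvPolynomial.X 0 * MvPolynomial.X 1) = LaurentPolynomial.T 1 := GP1_d0_X k
    rw [h5, LaurentPolynomial.T_pow, mul_one]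
  have h5 : (Localization.mk a ⟨(MvPolynomial.X 0 * MvPolynomial.X 1) ^ n, n, rfl⟩ :
      Localization.Away (MvPolynomial.X 0 * MvPolynomial.X 1 : MvPolynomial (Fin 2) k)) *
        algebraMap _ _ ((MvPolynomial.X 0 * MvPolynomial.X 1) ^ n : MvPolynomial (Fin 2) k) =
          algebraMap _ _ a := by
    rw [← Localization.mk_one_eq_algebraMap, ← Localization.mk_one_eq_algebraMap,
      Localization.mk_mul, Localization.mk_eq_mk_iff, Localization.r_iff_exists]
    exact ⟨1, by simp [mul_comm]⟩
  have h6 := congrArg (GP1_d1 k) h5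
  rw [map_mul, h4, h2] at h6
  exact h6

lemma GP1_lauY_de (s : MvPolynomial (Fin 2) k) : lauY k k (GP1_de k 0 s) = GP1_d0 k s := by
  have h : (lauY k k).comp (GP1_de k 0) = GP1_d0 k := by
    apply MvPolynomial.algHom_ext
    intro i
    rw [AlgHom.comp_apply, GP1_de, GP1_d0, MvPolynomial.aeval_X, MvPolynomial.aeval_X]
    split_ifs
    · exact map_one _
    · exact Polynomial.aeval_X _
  rw [← h]
  rfl

lemma GP1_lauY_mon (a : k) (n : ℕ) : lauY k k (C a * X ^ n) =
    LaurentPolynomial.C a * LaurentPolynomial.T (n : ℤ) := by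
  change Polynomial.aeval (LaurentPolynomial.T 1 : LaurentPolynomial k) (C a * X ^ n) = _
  rw [map_mul, map_pow, Polynomial.aeval_C, Polynomial.aeval_X, LaurentPolynomial.T_pow, mul_one]
  rfl

lemma GP1_lauW_mon (a : k) (n : ℕ) : lauW k k (C a * X ^ n) =
    LaurentPolynomial.C a * LaurentPolynomial.T (-(n : ℤ)) := by
  change Polynomial.aeval (LaurentPolynomial.T (-1) : LaurentPolynomial k) (C a * X ^ n) = _
  rw [map_mul, map_pow, Polynomial.aeval_C, Polynomial.aeval_X, LaurentPolynomial.T_pow,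
    mul_neg, mul_one]
  rfl

lemma GP1_hom {n : ℕ} {s : MvPolynomial (Fin 2) k} (hs : s.IsHomogeneous n) :
    lauW k k (GP1_de k 1 s) * LaurentPolynomial.T (n : ℤ) = lauY k k (GP1_de k 0 s) := by
  rw [GP1_de_eq k (i := 1) (j := 0) (by decide), GP1_de_eq k (i := 0) (j := 1) (by decide), map_sum,
    map_sum, Finset.sum_mul]
  refine Finset.sum_congr rfl fun m hm => ?_
  have h := GP1_sum_eq k (i := 0) (j := 1) (by decide) hs (MvPolynomial.mem_support_iff.1 hm)
  rw [GP1_lauY_mon, GP1_lauW_mon, mul_assoc, ← LaurentPolynomial.T_add]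
  congr 2
  omega

lemma GP1_comp0 : (GP1_d2 k).comp (HomogeneousLocalization.awayMap (gr k) (GP1_X_mem k 1)
      (f := MvPolynomial.X 0) (x := MvPolynomial.X 0 * MvPolynomial.X 1) rfl) =
    (lauY k k).toRingHom.comp (deh k 0) := by
  refine RingHom.ext fun z => ?_
  obtain ⟨n, s, hs, rfl⟩ := HomogeneousLocalization.Away.mk_surjective (gr k) (GP1_X_mem k 0) z
  rw [RingHom.comp_apply, RingHom.comp_apply, GP1_deh_mk, HomogeneousLocalization.awayMap_mk]
  change _ = lauY k k (GP1_de k 0 s)
  rw [GP1_lauY_de]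
  refine (LaurentPolynomial.isUnit_T (R := k) (n : ℤ)).mul_left_injective ?_
  change GP1_d2 k _ * LaurentPolynomial.T (n : ℤ) = GP1_d0 k s * LaurentPolynomial.T (n : ℤ)
  rw [GP1_d2_mk, map_mul, map_pow]
  congr 1
  rw [GP1_d0, MvPolynomial.aeval_X, if_neg (by decide), LaurentPolynomial.T_pow, mul_one]

lemma GP1_comp1 : (GP1_d2 k).comp (HomogeneousLocalization.awayMap (gr k) (GP1_X_mem k 0)
      (f := MvPolynomial.X 1) (x := MvPolynomial.X 0 * MvPolynomial.X 1) (mul_comm _ _)) =
    (lauW k k).toRingHom.comp (deh k 1) := by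
  refine RingHom.ext fun z => ?_
  obtain ⟨n, s, hs, rfl⟩ := HomogeneousLocalization.Away.mk_surjective (gr k) (GP1_X_mem k 1) z
  rw [RingHom.comp_apply, RingHom.comp_apply, GP1_deh_mk, HomogeneousLocalization.awayMap_mk]
  change _ = lauW k k (GP1_de k 1 s)
  refine (LaurentPolynomial.isUnit_T (R := k) (n : ℤ)).mul_left_injective ?_
  change GP1_d2 k _ * LaurentPolynomial.T (n : ℤ) = lauW k k (GP1_de k 1 s) * LaurentPolynomial.T (n : ℤ)
  have hs' : s.IsHomogeneous n := by
    have := (MvPolynomial.mem_homogeneousSubmodule _ _).1 hs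
    simpa using this
  rw [GP1_d2_mk, map_mul, map_pow, GP1_hom k hs', GP1_lauY_de]
  conv_rhs => rw [← mul_one (GP1_d0 k s)]
  congr 1
  rw [GP1_d0, MvPolynomial.aeval_X, if_pos rfl, one_pow]

/-- The two charts agree on the overlap. -/
theorem chart_glue :
    Spec.map (CommRingCat.ofHom (lauY k k).toRingHom) ≫ P1.chart k 0 =
      Spec.map (CommRingCat.ofHom (lauW k k).toRingHom) ≫ P1.chart k 1 := by
  change Spec.map (CommRingCat.ofHom (lauY k k).toRingHom) ≫
      Spec.map (CommRingCat.ofHom (deh k 0)) ≫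
        Proj.awayι (gr k) (MvPolynomial.X 0) (GP1_X_mem k 0) zero_lt_one =
    Spec.map (CommRingCat.ofHom (lauW k k).toRingHom) ≫
      Spec.map (CommRingCat.ofHom (deh k 1)) ≫
        Proj.awayι (gr k) (MvPolynomial.X 1) (GP1_X_mem k 1) zero_lt_one
  rw [← Spec.map_comp_assoc, ← Spec.map_comp_assoc, ← CommRingCat.ofHom_comp,
    ← CommRingCat.ofHom_comp, ← GP1_comp0, ← GP1_comp1, CommRingCat.ofHom_comp, CommRingCat.ofHom_comp,
    Spec.map_comp_assoc, Spec.map_comp_assoc, Proj.SpecMap_awayMap_awayι,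
    Proj.SpecMap_awayMap_awayι]

/-- The open cover by the two charts. -/
noncomputable def GP1_cover : (P1 k).OpenCover :=
  Scheme.Cover.mkOfCovers (Fin 2) (fun _ => Spec (.of k[X])) (P1.chart k) (chart_cover k)
    (fun i => chart_isOpenImmersion k i)

instance P1_integral : IsIntegral (P1 k) := by
  have : ∀ i, IsReduced ((GP1_cover k).X i) := fun i =>
    inferInstanceAs (IsReduced (Spec (.of k[X])))
  have hred : IsReduced (P1 k) := IsReduced.of_openCover _ (GP1_cover k)
  have hirr0 : IrreducibleSpace (Spec (.of k[X])) := inferInstance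
  -- the charts meet
  obtain ⟨p⟩ : Nonempty (Spec (.of (LaurentPolynomial k))) := inferInstance
  have hmeet : P1.chart k 0 (Spec.map (CommRingCat.ofHom (lauY k k).toRingHom) p) =
      P1.chart k 1 (Spec.map (CommRingCat.ofHom (lauW k k).toRingHom) p) := by
    have h4 := congrArg (fun f : Spec (.of (LaurentPolynomial k)) ⟶ P1 k => f p) (chart_glue k)
    exact h4
  have hcont : ∀ i, Continuous (P1.chart k i) := fun i => (P1.chart k i).continuous
  have hopen0 : IsOpen (Set.range (P1.chart k 0)) := (P1.chart k 0).isOpenEmbedding.isOpen_range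
  have hmeet0 : ∀ U : Set (P1 k), IsOpen U → U.Nonempty →
      ((P1.chart k 0) ⁻¹' U).Nonempty := by
    rintro U hU ⟨x, hx⟩
    obtain ⟨i, y, rfl⟩ := chart_cover k x
    have hi : i = 0 ∨ i = 1 := by omega
    rcases hi with rfl | rfl
    · exact ⟨y, hx⟩
    · obtain ⟨z, hz1, hz2⟩ := nonempty_preirreducible_inter
        (hU.preimage (hcont 1)) (hopen0.preimage (hcont 1)) ⟨y, hx⟩
        ⟨Spec.map (CommRingCat.ofHom (lauW k k).toRingHom) p, _, hmeet⟩
      obtain ⟨w, hw⟩ := hz2
      refine ⟨w, ?_⟩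
      rw [Set.mem_preimage, hw]
      exact hz1
  have hpre : PreirreducibleSpace (P1 k) := by
    refine ⟨?_⟩
    intro U V hU hV hU1 hV1
    rw [Set.univ_inter] at hU1 hV1 ⊢
    obtain ⟨z, hz1, hz2⟩ := nonempty_preirreducible_inter
      (hU.preimage (hcont 0)) (hV.preimage (hcont 0)) (hmeet0 U hU hU1) (hmeet0 V hV hV1)
    exact ⟨P1.chart k 0 z, hz1, hz2⟩
  have hirr : IrreducibleSpace (P1 k) := ⟨⟨P1.chart k 0
    (Spec.map (CommRingCat.ofHom (lauY k k).toRingHom) p)⟩⟩
  exact isIntegral_of_irreducibleSpace_of_isReduced _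

variable {k} {V : Scheme.{u}} {π : V ⟶ Spec (.of k)}

/-- The curve given by a morphism from the projective line. -/
noncomputable def Crv.ofHom (f : P1 k ⟶ V) (hf : f ≫ π = P1.str k) : Crv π k where
  y := ⟨P1.chart k 0 ≫ f, by rw [Category.assoc, hf, chart_str]⟩
  w := ⟨P1.chart k 1 ≫ f, by rw [Category.assoc, hf, chart_str]⟩
  glue := by
    apply Pt.ext
    simp only [Pt.map]
    rw [← Category.assoc, ← Category.assoc, chart_glue]

lemma GP1_lauY_eq : (lauY k k).toRingHom = algebraMap k[X] (LaurentPolynomial k) := by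
  apply Polynomial.ringHom_ext
  · intro a
    have h := GP1_lauY_mon k a 0
    rw [pow_zero, mul_one] at h
    refine Eq.trans h ?_
    rw [LaurentPolynomial.algebraMap_eq_toLaurent, Polynomial.toLaurent_C]
    simp
  · have h := GP1_lauY_mon k 1 1
    rw [pow_one, map_one, one_mul] at h
    refine Eq.trans h ?_
    rw [LaurentPolynomial.algebraMap_eq_toLaurent, Polynomial.toLaurent_X]
    simp

lemma GP1_range_lauY : Set.range (Spec.map (CommRingCat.ofHom (lauY k k).toRingHom)) =
    (PrimeSpectrum.basicOpen (X : k[X]) : Set (PrimeSpectrum k[X])) := by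
  rw [GP1_lauY_eq]
  exact PrimeSpectrum.localization_away_comap_range (LaurentPolynomial k) (X : k[X])

instance GP1_open_lauY : IsOpenImmersion (Spec.map (CommRingCat.ofHom (lauY k k).toRingHom)) := by
  rw [GP1_lauY_eq]
  exact IsOpenImmersion.of_isLocalization (X : k[X])

/-- The overlap of the charts is covered by the spectrum of the Laurent polynomials. -/
lemma GP1_range (y w : Spec (.of k[X])) (h : P1.chart k 0 y = P1.chart k 1 w) :
    y ∈ Set.range (Spec.map (CommRingCat.ofHom (lauY k k).toRingHom)) := by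
  rw [GP1_range_lauY]
  have h1 : Proj.awayι (gr k) (MvPolynomial.X 0) (GP1_X_mem k 0) zero_lt_one
      (Spec.map (CommRingCat.ofHom (deh k 0)) y) ∈ Proj.basicOpen (gr k) (MvPolynomial.X 1) := by
    rw [← Proj.opensRange_awayι (gr k) (MvPolynomial.X 1) (GP1_X_mem k 1) zero_lt_one]
    exact ⟨Spec.map (CommRingCat.ofHom (deh k 1)) w, h.symm⟩
  have h2 : Spec.map (CommRingCat.ofHom (deh k 0)) y ∈
      (Proj.awayι (gr k) (MvPolynomial.X 0) (GP1_X_mem k 0) zero_lt_one) ⁻¹ᵁ
        Proj.basicOpen (gr k) (MvPolynomial.X 1) := h1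
  rw [Proj.awayι_preimage_basicOpen (gr k) (GP1_X_mem k 0) zero_lt_one (GP1_X_mem k 1)
    zero_lt_one] at h2
  have h3 : deh k 0 (HomogeneousLocalization.Away.isLocalizationElem (GP1_X_mem k 0)
      (GP1_X_mem k 1)) = X := by
    rw [HomogeneousLocalization.Away.isLocalizationElem, GP1_deh_mk, GP1_de, map_pow,
      MvPolynomial.aeval_X, if_neg (by decide), pow_one]
  have h4 : deh k 0 (HomogeneousLocalization.Away.isLocalizationElem (GP1_X_mem k 0)
      (GP1_X_mem k 1)) ∉ y.asIdeal := h2
  rw [h3] at h4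
  exact h4

lemma GP1_glue (f : Fin 2 → (Spec (.of k[X]) ⟶ V))
    (hf : Spec.map (CommRingCat.ofHom (lauY k k).toRingHom) ≫ f 0 =
      Spec.map (CommRingCat.ofHom (lauW k k).toRingHom) ≫ f 1) :
    Limits.pullback.fst (P1.chart k 0) (P1.chart k 1) ≫ f 0 =
      Limits.pullback.snd (P1.chart k 0) (P1.chart k 1) ≫ f 1 := by
  have hr : Set.range (Limits.pullback.fst (P1.chart k 0) (P1.chart k 1)) ⊆
      Set.range (Spec.map (CommRingCat.ofHom (lauY k k).toRingHom)) := by
    rintro _ ⟨x, rfl⟩
    refine GP1_range _ (Limits.pullback.snd (P1.chart k 0) (P1.chart k 1) x) ?_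
    have h := congrArg (fun g : Limits.pullback (P1.chart k 0) (P1.chart k 1) ⟶ P1 k => g x)
      (Limits.pullback.condition (f := P1.chart k 0) (g := P1.chart k 1))
    exact h
  obtain ⟨g, hg⟩ : ∃ g : Limits.pullback (P1.chart k 0) (P1.chart k 1) ⟶
      Spec (.of (LaurentPolynomial k)),
      g ≫ Spec.map (CommRingCat.ofHom (lauY k k).toRingHom) =
        Limits.pullback.fst (P1.chart k 0) (P1.chart k 1) :=
    ⟨IsOpenImmersion.lift _ _ hr, IsOpenImmersion.lift_fac _ _ hr⟩
  have hg' : g ≫ Spec.map (CommRingCat.ofHom (lauW k k).toRingHom) =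
      Limits.pullback.snd (P1.chart k 0) (P1.chart k 1) := by
    rw [← cancel_mono (P1.chart k 1), Category.assoc, ← chart_glue, ← Category.assoc, hg,
      Limits.pullback.condition]
  rw [← hg, ← hg', Category.assoc, Category.assoc, hf]

/-- Every curve is given by a unique morphism from the projective line. -/
theorem Crv.exists_hom (F : Crv π k) :
    ∃ (f : P1 k ⟶ V) (hf : f ≫ π = P1.str k), Crv.ofHom f hf = F := by
  let f₀ : Fin 2 → (Spec (.of k[X]) ⟶ V) := fun i => if i = 0 then F.y.1 else F.w.1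
  have hglue : Spec.map (CommRingCat.ofHom (lauY k k).toRingHom) ≫ f₀ 0 =
      Spec.map (CommRingCat.ofHom (lauW k k).toRingHom) ≫ f₀ 1 :=
    congrArg Subtype.val F.glue
  have h01 := GP1_glue f₀ hglue
  have hcomp : ∀ i j : Fin 2, Limits.pullback.fst (P1.chart k i) (P1.chart k j) ≫ f₀ i =
      Limits.pullback.snd (P1.chart k i) (P1.chart k j) ≫ f₀ j := by
    intro i j
    have hii : ∀ i : Fin 2, Limits.pullback.fst (P1.chart k i) (P1.chart k i) ≫ f₀ i =
        Limits.pullback.snd (P1.chart k i) (P1.chart k i) ≫ f₀ i := by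
      intro i
      have h1 : Limits.pullback.fst (P1.chart k i) (P1.chart k i) =
          Limits.pullback.snd (P1.chart k i) (P1.chart k i) := by
        rw [← cancel_mono (P1.chart k i), Limits.pullback.condition]
      rw [h1]
    have hi : i = 0 ∨ i = 1 := by omega
    have hj : j = 0 ∨ j = 1 := by omega
    rcases hi with rfl | rfl <;> rcases hj with rfl | rfl
    · exact hii 0
    · exact h01
    · rw [← cancel_epi (Limits.pullbackSymmetry (P1.chart k 0) (P1.chart k 1)).hom,
        Limits.pullbackSymmetry_hom_comp_fst_assoc, Limits.pullbackSymmetry_hom_comp_snd_assoc]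
      exact h01.symm
    · exact hii 1
  let f : P1 k ⟶ V := (GP1_cover k).glueMorphisms f₀ hcomp
  have hfi : ∀ i, P1.chart k i ≫ f = f₀ i := fun i =>
    (GP1_cover k).ι_glueMorphisms f₀ hcomp i
  have hfi' : ∀ i : Fin 2, P1.chart k i ≫ f ≫ π = P1.chart k i ≫ P1.str k := by
    intro i
    rw [← Category.assoc, hfi, chart_str]
    have hi : i = 0 ∨ i = 1 := by omega
    rcases hi with rfl | rfl
    · exact F.y.2
    · exact F.w.2
  have hf : f ≫ π = P1.str k := Scheme.Cover.hom_ext (GP1_cover k) _ _ fun i => hfi' i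
  refine ⟨f, hf, ?_⟩
  apply Crv.ext
  · apply Pt.ext
    exact hfi 0
  · apply Pt.ext
    exact hfi 1

/-- The points of the image of a curve. -/
theorem Crv.range_ofHom (f : P1 k ⟶ V) (hf : f ≫ π = P1.str k) (s : Option k) :
    Set.range ((Crv.ofHom f hf).at s).1 ⊆ Set.range f := by
  cases s with
  | none =>
    rintro _ ⟨x, rfl⟩
    exact ⟨(Spec.map (CommRingCat.ofHom (evk 0 : k[X] →ₐ[k] k).toRingHom) ≫ P1.chart k 1) x, rfl⟩
  | some a =>
    rintro _ ⟨x, rfl⟩
    exact ⟨(Spec.map (CommRingCat.ofHom (evk a : k[X] →ₐ[k] k).toRingHom) ≫ P1.chart k 0) x, rfl⟩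

end Pool.Agent.H19VF

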