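import Pool.Agent.H19VF.B_Places
import Pool.Agent.H19VF.F_Pt
import Pool.Agent.H19VF.F_Chart

/-! # Task H: algebraization (Proposition 1.3 of the paper) -/

set_option autoImplicit false

open AlgebraicGeometry CategoryTheory Polynomial

universe u

namespace Pool.Agent.H19VF

section emb

variable {κ : Type u} [Field κ] (k : Type u) [Field k] [Algebra k κ]

private lemma h_embC_eq (a : LSer κ) : (embC κ a : LSer (RatFunc κ)) = embC k a := rfl

private lemma h_embY_eq (P : (LSer κ)[X]) : embY κ P = embY k P := rfl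

private lemma h_embW_eq (P : (LSer κ)[X]) : embW κ P = embW k P := rfl

private lemma h_yv_ne : (yv : LSer (RatFunc κ)) ≠ 0 := by
  intro h
  have h1 := congrArg (fun x => LSer.coeff x 0) h
  simp only [yv, LSer.coeff_C, LSer.coeff_zero, if_true] at h1
  have hinj := IsFractionRing.injective κ[X] (RatFunc κ)
  exact X_ne_zero ((map_eq_zero_iff _ hinj).1 h1)

private lemma h_yv_inv : (LSer.C (polR (X : κ[X]))⁻¹ : LSer (RatFunc κ)) = (yv : LSer (RatFunc κ))⁻¹ := by
  rw [map_inv₀]; rfl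

private lemma h_embY_coeff (P : (LSer κ)[X]) (n : ℤ) :
    (embY k P).coeff n = polR (∑ i ∈ Finset.range (P.natDegree + 1), C ((P.coeff i).coeff n) * X ^ i) := by
  have h0 : embY k P = Polynomial.eval₂ (embC (κ := κ) k).toRingHom (yv (κ := κ)) P := rfl
  rw [h0, Polynomial.eval₂_eq_sum_range, LSer.coeff_sum, map_sum]
  refine Finset.sum_congr rfl fun i _ => ?_
  have h1 : (yv : LSer (RatFunc κ)) ^ i = LSer.C (polR X ^ i) := by
    rw [map_pow]; rfl
  rw [h1, mul_comm, LSer.coeff_C_mul, map_mul, map_pow, mul_comm]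
  congr 1

private lemma h_embY_injective : Function.Injective (embY (κ := κ) k) := by
  rw [injective_iff_map_eq_zero]
  intro P hP
  have hinj := IsFractionRing.injective κ[X] (RatFunc κ)
  ext i n
  by_cases hi : i < P.natDegree + 1
  · have h1 := h_embY_coeff k P n
    rw [hP, LSer.coeff_zero] at h1
    have h2 := (map_eq_zero_iff _ hinj).1 h1.symm
    have h3 := congrArg (fun p : κ[X] => p.coeff i) h2
    simp only [finsetSum_coeff, coeff_C_mul, coeff_X_pow, coeff_zero, mul_ite, mul_one, mul_zero,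
      Finset.sum_ite_eq, Finset.mem_range, hi, if_true] at h3
    rw [h3, Polynomial.coeff_zero, LSer.coeff_zero]
  · rw [Polynomial.coeff_eq_zero_of_natDegree_lt (by omega), Polynomial.coeff_zero]

private lemma h_embW_mul (P : (LSer κ)[X]) (N : ℕ) (hN : P.natDegree ≤ N) :
    embW k P * yv ^ N = embY k (P.reflect N) := by
  let _ : Invertible (yv : LSer (RatFunc κ)) := invertibleOfNonzero h_yv_ne
  have h0 : embY k (P.reflect N) =
    Polynomial.eval₂ (embC (κ := κ) k).toRingHom (yv (κ := κ)) (P.reflect N) := rfl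
  have h1 : embW k P =
    Polynomial.eval₂ (embC (κ := κ) k).toRingHom (LSer.C (polR X)⁻¹ : LSer (RatFunc κ)) P := rfl
  have h2 := Polynomial.eval₂_reflect_mul_pow (embC (κ := κ) k).toRingHom (yv (κ := κ)) N
    (P.reflect N) (by
      rw [Polynomial.natDegree_le_iff_coeff_eq_zero]
      intro i hi
      rw [Polynomial.coeff_reflect, Polynomial.revAt_eq_self_of_lt hi]
      exact Polynomial.coeff_eq_zero_of_natDegree_lt (by omega))
  rw [Polynomial.reflect_reflect] at h2
  rw [h0, h1, ← h2, h_yv_inv, invOf_eq_inv]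

private lemma h_embW_injective : Function.Injective (embW (κ := κ) k) := by
  rw [injective_iff_map_eq_zero]
  intro P hP
  have h1 := h_embW_mul k P P.natDegree le_rfl
  rw [hP, zero_mul] at h1
  have h2 := (injective_iff_map_eq_zero _).1 (h_embY_injective (κ := κ) k) _ h1.symm
  exact Polynomial.reflect_eq_zero_iff.1 h2

/-- The embedding of the Laurent polynomials. -/
private noncomputable def hEmbL : LaurentPolynomial (LSer κ) →ₐ[k] LSer (RatFunc κ) where
  toRingHom := LaurentPolynomial.eval₂ (embC (κ := κ) k).toRingHom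
    (Units.mk0 (yv : LSer (RatFunc κ)) h_yv_ne)
  commutes' r := by
    have h1 : algebraMap k (LaurentPolynomial (LSer κ)) r =
      LaurentPolynomial.C (algebraMap k (LSer κ) r) := rfl
    change LaurentPolynomial.eval₂ _ _ _ = _
    rw [h1, LaurentPolynomial.eval₂_C]
    exact (embC (κ := κ) k).commutes r

private lemma h_embL_toLaurent (P : (LSer κ)[X]) : hEmbL k (Polynomial.toLaurent P) = embY k P :=
  LaurentPolynomial.eval₂_toLaurent _ _ P

private lemma h_embL_T (n : ℤ) :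
    hEmbL (κ := κ) k (LaurentPolynomial.T n) = (yv : LSer (RatFunc κ)) ^ n := by
  change LaurentPolynomial.eval₂ _ _ _ = _
  rw [LaurentPolynomial.eval₂_T, Units.val_zpow_eq_zpow_val]
  rfl

private lemma h_embL_C (a : LSer κ) : hEmbL (κ := κ) k (LaurentPolynomial.C a) = embC k a :=
  LaurentPolynomial.eval₂_C _ _ _

private lemma h_embL_lauY : (hEmbL (κ := κ) k).comp (lauY k (LSer κ)) = embY k := by
  apply AlgHom.coe_ringHom_injective
  apply Polynomial.ringHom_ext
  · intro a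
    change hEmbL k (Polynomial.aeval _ (C a)) = embY k (C a)
    rw [Polynomial.aeval_C, embY_C]
    exact h_embL_C k a
  · change hEmbL k (Polynomial.aeval _ X) = embY k X
    rw [Polynomial.aeval_X, embY_X, h_embL_T, zpow_one]

private lemma h_embL_lauW : (hEmbL (κ := κ) k).comp (lauW k (LSer κ)) = embW k := by
  apply AlgHom.coe_ringHom_injective
  apply Polynomial.ringHom_ext
  · intro a
    change hEmbL k (Polynomial.aeval _ (C a)) = embW k (C a)
    rw [Polynomial.aeval_C, embW_C]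
    exact h_embL_C k a
  · change hEmbL k (Polynomial.aeval _ X) = embW k X
    rw [Polynomial.aeval_X, embW_X, h_embL_T, h_yv_inv, zpow_neg, zpow_one]

private lemma h_embL_injective : Function.Injective (hEmbL (κ := κ) k) := by
  rw [injective_iff_map_eq_zero]
  intro f hf
  obtain ⟨n, g, hg⟩ := LaurentPolynomial.exists_T_pow f
  have h1 : embY k g = 0 := by
    rw [← h_embL_toLaurent, hg, map_mul, hf, zero_mul]
  have h2 := (injective_iff_map_eq_zero _).1 (h_embY_injective (κ := κ) k) _ h1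
  rw [h2, map_zero] at hg
  have h3 : f = f * LaurentPolynomial.T n * LaurentPolynomial.T (-n) := by
    rw [mul_assoc, ← LaurentPolynomial.T_add, add_neg_cancel, LaurentPolynomial.T_zero, mul_one]
  rw [h3, ← hg, zero_mul]

end emb

section core

variable {k : Type u} [Field k] {V : Scheme.{u}} {π : V ⟶ Spec (.of k)}

private lemma h_refine {D F : Type u} [CommRing D] [IsDomain D] [Field F] [Algebra k F]
    (ι : D →+* F) (hι : Function.Injective ι) (W W' : Chart π) (φ : W.B →ₐ[k] F)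
    (φ' : W'.B →ₐ[k] F) (h : W.pt.map φ = W'.pt.map φ')
    (hφ : ∀ b, ∃ P Q : D, Q ≠ 0 ∧ ι Q * φ b = ι P) :
    ∀ b', ∃ P Q : D, Q ≠ 0 ∧ ι Q * φ' b' = ι P := by
  intro b'
  obtain ⟨U, α, α', ψ, -, -, hα, hα', ⟨g, hg⟩, -⟩ := exists_refine W W' φ φ' h
  let _ := α.toRingHom.toAlgebra
  have hgu : IsUnit (α g) := IsLocalization.Away.algebraMap_isUnit (S := U.B) g
  obtain ⟨n, b, hb⟩ := IsLocalization.Away.surj (S := U.B) g (α' b')
  have hb' : α' b' * α g ^ n = α b := hb
  have h1 : φ' b' * φ g ^ n = φ b := by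
    rw [← hα, ← hα', AlgHom.comp_apply, AlgHom.comp_apply, AlgHom.comp_apply, ← map_pow, ← map_mul,
      hb']
  have h2 : φ g ≠ 0 := by
    rw [← hα, AlgHom.comp_apply]
    exact (hgu.map ψ).ne_zero
  obtain ⟨P, Q, hQ, hPQ⟩ := hφ b
  obtain ⟨P1, Q1, hQ1, hPQ1⟩ := hφ g
  have h0 : ∀ x : D, x ≠ 0 → ι x ≠ 0 := fun x hx => (map_ne_zero_iff ι hι).2 hx
  have hP1 : P1 ≠ 0 := by
    intro hz
    rw [hz, map_zero] at hPQ1
    exact mul_ne_zero (h0 _ hQ1) h2 hPQ1
  refine ⟨P * Q1 ^ n, Q * P1 ^ n, mul_ne_zero hQ (pow_ne_zero _ hP1), ?_⟩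
  rw [map_mul, map_mul, map_pow, map_pow, ← hPQ, ← hPQ1, ← h1]
  ring

/-- Factorization of a homomorphism through the fraction field. -/
private lemma h_factor {D F : Type u} [CommRing D] [IsDomain D] [Algebra k D] [Field F]
    [Algebra k F] (ι : D →ₐ[k] F) (hι : Function.Injective ι) {B : Type u} [CommRing B]
    [Algebra k B] (φ : B →ₐ[k] F) (hφ : ∀ b, ∃ P Q : D, Q ≠ 0 ∧ ι Q * φ b = ι P) :
    ∃ φQ : B →ₐ[k] FractionRing D,
      (IsFractionRing.liftAlgHom hι : FractionRing D →ₐ[k] F).comp φQ = φ := by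
  let j : FractionRing D →ₐ[k] F := IsFractionRing.liftAlgHom hι
  have hj : Function.Injective j := j.toRingHom.injective
  have hjD : ∀ d : D, j (algebraMap D (FractionRing D) d) = ι d := fun d =>
    IsFractionRing.lift_algebraMap (g := ι.toRingHom) hι d
  have hr : ∀ b, φ b ∈ j.range := by
    intro b
    obtain ⟨P, Q, hQ, hPQ⟩ := hφ b
    have h0 : ι Q ≠ 0 := (map_ne_zero_iff ι hι).2 hQ
    refine ⟨algebraMap D (FractionRing D) P / algebraMap D (FractionRing D) Q, ?_⟩
    change j _ = _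
    rw [map_div₀, hjD, hjD, ← hPQ, mul_div_cancel_left₀ _ h0]
  let e : FractionRing D ≃ₐ[k] j.range := AlgEquiv.ofInjective j hj
  refine ⟨(e.symm : j.range →ₐ[k] FractionRing D).comp (φ.codRestrict j.range hr), ?_⟩
  ext b
  change j (e.symm ⟨φ b, hr b⟩) = φ b
  have h1 : e (e.symm ⟨φ b, hr b⟩) = ⟨φ b, hr b⟩ := e.apply_symm_apply _
  have h2 : ((e (e.symm ⟨φ b, hr b⟩) : j.range) : F) = j (e.symm ⟨φ b, hr b⟩) := rfl
  rw [← h2, h1]

private lemma h_core [IsSeparated π] [LocallyOfFiniteType π] {κ : Type u} [Field κ] [Algebra k κ]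
    (S : Finset κ) (θ : Pt π (LSer (RatFunc κ)))
    (W : Chart π) (θ1 : W.B →ₐ[k] LSer (RatFunc κ)) (h1 : θ = W.pt.map θ1)
    (h1' : ∀ b, SerIn (regOff S) (θ1 b))
    (h2 : ∀ s : Option κ, InS S s → ∀ q : Ideal (serSub (regAt s)), q.IsPrime →
      ∃ (W' : Chart π) (φ : W'.B →ₐ[k] LSer (RatFunc κ)), θ = W'.pt.map φ ∧
        ∀ b, ∃ α β : serSub (regAt s), β ∉ q ∧
          φ b * (β : LSer (RatFunc κ)) = (α : LSer (RatFunc κ)))
    {D : Type u} [CommRing D] [IsDomain D] [Algebra k D] (ι : D →ₐ[k] LSer (RatFunc κ))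
    (hι : Function.Injective ι) (hfr : ∀ b, ∃ P Q : D, Q ≠ 0 ∧ ι Q * θ1 b = ι P)
    (hpl : ∀ p : Ideal D, p.IsPrime →
      ∃ O : Subring (RatFunc κ), (O = regOff S ∨ ∃ s : Option κ, InS S s ∧ O = regAt s) ∧
      ∃ q : Ideal (serSub O), q.IsPrime ∧ ∀ (α β : serSub O) (P Q : D), β ∉ q → Q ≠ 0 →
        ι Q * (α : LSer (RatFunc κ)) = ι P * (β : LSer (RatFunc κ)) →
          ∃ P' Q' : D, Q' ∉ p ∧ P * Q' = P' * Q) :
    ∃ Θ : Pt π D, Θ.map ι = θ := by
  let j : FractionRing D →ₐ[k] LSer (RatFunc κ) := IsFractionRing.liftAlgHom hι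
  have hj : Function.Injective j := j.toRingHom.injective
  have hjD : ∀ d : D, j (algebraMap D (FractionRing D) d) = ι d := fun d =>
    IsFractionRing.lift_algebraMap (g := ι.toRingHom) hι d
  have h0 : ∀ x : D, x ≠ 0 → ι x ≠ 0 := fun x hx => (map_ne_zero_iff ι hι).2 hx
  obtain ⟨θQ, hθQ⟩ := h_factor ι hι θ1 hfr
  have hθj : (W.pt.map θQ).map j = θ := by
    rw [Pt.map_map, h1]
    exact congrArg _ hθQ
  obtain ⟨Θ, hΘ⟩ := glue_domain (D := D) (Q := FractionRing D) (W.pt.map θQ) (by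
    intro p hp
    obtain ⟨O, hO, q, hq, hpq⟩ := hpl p hp
    rcases hO with hO | ⟨s, hs, hO⟩
    · subst hO
      refine ⟨W, θQ, rfl, fun b => ?_⟩
      obtain ⟨P, Q, hQ, hPQ⟩ := hfr b
      obtain ⟨P', Q', hQ', hPQ'⟩ := hpq ⟨θ1 b, h1' b⟩ 1 P Q
        (fun hone => hq.ne_top ((Ideal.eq_top_iff_one _).2 hone)) hQ (by
          rw [hPQ, OneMemClass.coe_one, mul_one])
      refine ⟨P', Q', hQ', hj ?_⟩
      rw [map_mul, hjD, hjD]
      have e1 : j (θQ b) = θ1 b := DFunLike.congr_fun hθQ b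
      rw [e1]
      apply mul_left_cancel₀ (h0 Q hQ)
      have e2 : ι P * ι Q' = ι P' * ι Q := by rw [← map_mul, hPQ', map_mul]
      rw [← mul_assoc, hPQ, e2, mul_comm]
    · subst hO
      obtain ⟨W', φ, hφ, hφb⟩ := h2 s hs q hq
      have hfr' := h_refine ι.toRingHom hι W W' θ1 φ (h1.symm.trans hφ) hfr
      obtain ⟨φQ, hφQ⟩ := h_factor ι hι φ hfr'
      refine ⟨W', φQ, ?_, fun b => ?_⟩
      · apply Pt.map_injective j hj
        rw [hθj, Pt.map_map, hφ]
        exact congrArg _ hφQ.symm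
      · obtain ⟨P, Q, hQ, hPQ⟩ := hfr' b
        obtain ⟨α, β, hβ, hαβ⟩ := hφb b
        have hPQ1 : ι Q * φ b = ι P := hPQ
        obtain ⟨P', Q', hQ', hPQ'⟩ := hpq α β P Q hβ hQ (by
          rw [← hαβ, ← hPQ1]; ring)
        refine ⟨P', Q', hQ', hj ?_⟩
        rw [map_mul, hjD, hjD]
        have e1 : j (φQ b) = φ b := DFunLike.congr_fun hφQ b
        rw [e1]
        apply mul_left_cancel₀ (h0 Q hQ)
        have e2 : ι P * ι Q' = ι P' * ι Q := by rw [← map_mul, hPQ', map_mul]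
        rw [← mul_assoc, hPQ1, e2, mul_comm])
  refine ⟨Θ, ?_⟩
  rw [← hθj, ← hΘ, Pt.map_map]
  exact congrArg _ (AlgHom.ext fun d => (hjD d).symm)

end core

section main

variable {k : Type u} [Field k] {V : Scheme.{u}} {π : V ⟶ Spec (.of k)}

/-- Reversal: the place `p` of the chart with coordinate `w`, `w ∉ p`, in the chart with coordinate
`y`. -/
private lemma h_place_w {κ : Type u} [Field κ] (S : Finset κ) (p : Ideal (LSer κ)[X])
    (hp : p.IsPrime) (hp0 : p ≠ ⊥) (hX : X ∉ p) :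
    ∃ O : Subring (RatFunc κ), (O = regOff S ∨ ∃ s : Option κ, InS S s ∧ O = regAt s) ∧
      ∃ q : Ideal (serSub O), q.IsPrime ∧ ∀ (α β : serSub O) (P Q : (LSer κ)[X]), β ∉ q → Q ≠ 0 →
        embW κ Q * (α : LSer (RatFunc κ)) = embW κ P * (β : LSer (RatFunc κ)) →
          ∃ P' Q' : (LSer κ)[X], Q' ∉ p ∧ P * Q' = P' * Q := by
  -- the ring homomorphism `K[y] → K[w]_p`
  let L := Localization.AtPrime p
  have hu : IsUnit (algebraMap (LSer κ)[X] L X) :=
    IsLocalization.map_units L (⟨X, hX⟩ : p.primeCompl)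
  have hinj : Function.Injective (algebraMap (LSer κ)[X] L) :=
    IsLocalization.injective L p.primeCompl_le_nonZeroDivisors
  let x : L := algebraMap (LSer κ)[X] L X
  let _ : Invertible x := hu.invertible
  let c : LSer κ →+* L := (algebraMap (LSer κ)[X] L).comp C
  let ρ : (LSer κ)[X] →+* L := Polynomial.eval₂RingHom c (⅟x)
  have hev : ∀ P : (LSer κ)[X], Polynomial.eval₂ c x P = algebraMap (LSer κ)[X] L P := by
    intro P
    have h1 : (Polynomial.eval₂RingHom c x) = algebraMap (LSer κ)[X] L := by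
      apply Polynomial.ringHom_ext
      · intro a
        simp [c]
      · simp [x]
    exact DFunLike.congr_fun h1 P
  have hrefl : ∀ (P : (LSer κ)[X]) (N : ℕ), P.natDegree ≤ N →
      ρ (P.reflect N) * x ^ N = algebraMap (LSer κ)[X] L P := by
    intro P N hN
    rw [← hev]
    exact Polynomial.eval₂_reflect_mul_pow c x N P hN
  have hxu : ∀ N : ℕ, IsUnit (x ^ N) := fun N => hu.pow N
  let p' : Ideal (LSer κ)[X] := (IsLocalRing.maximalIdeal L).comap ρ
  have hp' : p'.IsPrime := Ideal.comap_isPrime _ _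
  have hmem : ∀ (P : (LSer κ)[X]) (N : ℕ), P.natDegree ≤ N → (P.reflect N ∈ p' ↔ P ∈ p) := by
    intro P N hN
    have h1 : P ∈ p ↔ algebraMap (LSer κ)[X] L P ∈ IsLocalRing.maximalIdeal L :=
      (IsLocalization.AtPrime.to_map_mem_maximal_iff L p P).symm
    rw [h1, ← hrefl P N hN]
    change ρ (P.reflect N) ∈ IsLocalRing.maximalIdeal L ↔ _
    rw [IsLocalRing.mem_maximalIdeal, IsLocalRing.mem_maximalIdeal, mem_nonunits_iff,
      mem_nonunits_iff, not_iff_not]
    constructor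
    · intro h; exact h.mul (hxu N)
    · intro h; exact isUnit_of_mul_isUnit_left h
  have hp'0 : p' ≠ ⊥ := by
    obtain ⟨P, hP, hP0⟩ := Submodule.exists_mem_ne_zero_of_ne_bot hp0
    intro hb
    have h1 := (hmem P P.natDegree le_rfl).2 hP
    rw [hb, Ideal.mem_bot] at h1
    exact hP0 (Polynomial.reflect_eq_zero_iff.1 h1)
  obtain ⟨O, hO, q, hq, hpq⟩ := places_y S p' hp' hp'0
  refine ⟨O, hO, q, hq, fun α β P Q hβ hQ hPQ => ?_⟩
  -- pass to the reflected polynomials
  let N := max P.natDegree Q.natDegree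
  have hPN : P.natDegree ≤ N := le_max_left _ _
  have hQN : Q.natDegree ≤ N := le_max_right _ _
  obtain ⟨P', Q', hQ', hPQ'⟩ := hpq α β (P.reflect N) (Q.reflect N) hβ
    (fun h => hQ (Polynomial.reflect_eq_zero_iff.1 h)) (by
      have e1 := h_embW_mul κ P N hPN
      have e2 := h_embW_mul κ Q N hQN
      rw [← e1, ← e2]
      linear_combination (yv : LSer (RatFunc κ)) ^ N * hPQ)
  -- reflect back
  let M := max P'.natDegree Q'.natDegree
  have hP'M : P'.natDegree ≤ M := le_max_left _ _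
  have hQ'M : Q'.natDegree ≤ M := le_max_right _ _
  have hdeg : ∀ (R : (LSer κ)[X]) (n : ℕ), R.natDegree ≤ n → (R.reflect n).natDegree ≤ n := by
    intro R n hR
    rw [Polynomial.natDegree_le_iff_coeff_eq_zero]
    intro i hi
    rw [Polynomial.coeff_reflect, Polynomial.revAt_eq_self_of_lt hi]
    exact Polynomial.coeff_eq_zero_of_natDegree_lt (by omega)
  refine ⟨P'.reflect M, Q'.reflect M, ?_, ?_⟩
  · rw [← hmem _ M (hdeg _ _ hQ'M), Polynomial.reflect_reflect]
    exact hQ'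
  · have h1 := congrArg (Polynomial.reflect (N + M)) hPQ'
    rw [Polynomial.reflect_mul _ _ (hdeg _ _ hPN) hQ'M, Polynomial.reflect_reflect,
      add_comm N M, Polynomial.reflect_mul _ _ hP'M (hdeg _ _ hQN), Polynomial.reflect_reflect] at h1
    exact h1

end main

variable {k : Type u} [Field k] {V : Scheme.{u}} {π : V ⟶ Spec (.of k)}

/-- Proposition 1.3. The `Ω`-point `θ` of `V`, `Ω = κ(y)((t))`, comes from a chart `W` with values in
the series with coefficients regular outside `S ∪ {∞}`, and for each `s ∈ S ∪ {∞}` and each prime `q`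
of the ring `B_s` of Laurent series with coefficients in the local ring at `s`, it comes from the
localization of `B_s` at `q` (expressed by a chart). Then `θ` comes from a curve over `κ((t))`. -/
theorem alg_glue [IsSeparated π] [LocallyOfFiniteType π] {κ : Type u} [Field κ] [Algebra k κ]
    (S : Finset κ) (θ : Pt π (LSer (RatFunc κ)))
    (W : Chart π) (θ1 : W.B →ₐ[k] LSer (RatFunc κ)) (h1 : θ = W.pt.map θ1)
    (h1' : ∀ b, SerIn (regOff S) (θ1 b))
    (h2 : ∀ s : Option κ, InS S s → ∀ q : Ideal (serSub (regAt s)), q.IsPrime →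
      ∃ (W' : Chart π) (φ : W'.B →ₐ[k] LSer (RatFunc κ)), θ = W'.pt.map φ ∧
        ∀ b, ∃ α β : serSub (regAt s), β ∉ q ∧
          φ b * (β : LSer (RatFunc κ)) = (α : LSer (RatFunc κ))) :
    ∃ Φ : Crv π (LSer κ), Φ.y.map (embY k) = θ ∧ Φ.w.map (embW k) = θ := by
  -- the values of `θ1` lie in `K(y)`
  have hfr : ∀ b, ∃ P Q : (LSer κ)[X], Q ≠ 0 ∧ embY k Q * θ1 b = embY k P := by
    intro b
    obtain ⟨P, Q, hQ, hPQ⟩ := algebraicity S (θ1 b) (h1' b) (by
      intro s hs
      obtain ⟨W', φ, hφ, hφb⟩ := h2 s hs ⊥ Ideal.isPrime_bot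
      have h3 := h_refine (D := serSub (regAt s)) (serSub (regAt s)).subtype
        Subtype.val_injective W' W φ θ1 (hφ.symm.trans h1) (by
          intro b'
          obtain ⟨α, β, hβ, hαβ⟩ := hφb b'
          refine ⟨α, β, hβ, ?_⟩
          change (β : LSer (RatFunc κ)) * φ b' = (α : LSer (RatFunc κ))
          rw [← hαβ, mul_comm])
      obtain ⟨P, Q, hQ, hPQ⟩ := h3 b
      refine ⟨(Q : LSer (RatFunc κ)), fun h => hQ (Subtype.ext h), Q.2, ?_⟩
      have h4 : (Q : LSer (RatFunc κ)) * θ1 b = (P : LSer (RatFunc κ)) := hPQ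
      rw [h4]
      exact P.2)
    exact ⟨P, Q, hQ, hPQ⟩
  have hfrW : ∀ b, ∃ P Q : (LSer κ)[X], Q ≠ 0 ∧ embW k Q * θ1 b = embW k P := by
    intro b
    obtain ⟨P, Q, hQ, hPQ⟩ := hfr b
    let N := max P.natDegree Q.natDegree
    have hdeg : ∀ (R : (LSer κ)[X]), R.natDegree ≤ N → (R.reflect N).natDegree ≤ N := by
      intro R hR
      rw [Polynomial.natDegree_le_iff_coeff_eq_zero]
      intro i hi
      rw [Polynomial.coeff_reflect, Polynomial.revAt_eq_self_of_lt hi]
      exact Polynomial.coeff_eq_zero_of_natDegree_lt (by omega)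
    refine ⟨P.reflect N, Q.reflect N, fun h => hQ (Polynomial.reflect_eq_zero_iff.1 h), ?_⟩
    have e1 := h_embW_mul k (P.reflect N) N (hdeg P (le_max_left _ _))
    have e2 := h_embW_mul k (Q.reflect N) N (hdeg Q (le_max_right _ _))
    rw [Polynomial.reflect_reflect] at e1 e2
    apply mul_right_cancel₀ (pow_ne_zero N (h_yv_ne (κ := κ)))
    rw [e1, ← hPQ, ← e2]
    ring
  have hbot : ∀ ι : (LSer κ)[X] →ₐ[k] LSer (RatFunc κ),
      ∃ O : Subring (RatFunc κ), (O = regOff S ∨ ∃ s : Option κ, InS S s ∧ O = regAt s) ∧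
      ∃ q : Ideal (serSub O), q.IsPrime ∧ ∀ (α β : serSub O) (P Q : (LSer κ)[X]), β ∉ q → Q ≠ 0 →
        ι Q * (α : LSer (RatFunc κ)) = ι P * (β : LSer (RatFunc κ)) →
          ∃ P' Q' : (LSer κ)[X], Q' ∉ (⊥ : Ideal (LSer κ)[X]) ∧ P * Q' = P' * Q :=
    fun ι => ⟨regOff S, Or.inl rfl, ⊥, Ideal.isPrime_bot, fun _ _ P Q _ hQ _ => ⟨P, Q, hQ, rfl⟩⟩
  obtain ⟨Θy, hΘy⟩ := h_core S θ W θ1 h1 h1' h2 (embY k) (h_embY_injective k) hfr (by
    intro p hp
    by_cases hp0 : p = ⊥
    · subst hp0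
      exact hbot _
    · exact places_y S p hp hp0)
  obtain ⟨Θw, hΘw⟩ := h_core S θ W θ1 h1 h1' h2 (embW k) (h_embW_injective k) hfrW (by
    intro p hp
    by_cases hp0 : p = ⊥
    · subst hp0
      exact hbot _
    · by_cases hX : X ∈ p
      · obtain ⟨q, hq, hpq⟩ := place_inf κ
        refine ⟨regInf κ, Or.inr ⟨none, fun a ha => by simp at ha, rfl⟩, q, hq, ?_⟩
        intro α β P Q hβ hQ hPQ
        obtain ⟨P', Q', hQ', hPQ'⟩ := hpq α β P Q hβ hQ hPQ
        refine ⟨P', Q', fun hm => ?_, hPQ'⟩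
        apply hp.ne_top
        have h5 : C (Q'.eval 0) ∈ p := by
          have h6 : C (Q'.eval 0) = Q' - X * Q'.divX := by
            have h7 := Polynomial.X_mul_divX_add Q'
            rw [Polynomial.coeff_zero_eq_eval_zero] at h7
            linear_combination h7
          rw [h6]
          exact p.sub_mem hm (p.mul_mem_right _ hX)
        exact Ideal.eq_top_of_isUnit_mem _ h5 (Polynomial.isUnit_C.2 (isUnit_iff_ne_zero.2 hQ'))
      · exact h_place_w S p hp hp0 hX)
  refine ⟨⟨Θy, Θw, ?_⟩, hΘy, hΘw⟩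
  apply Pt.map_injective (hEmbL (κ := κ) k) (h_embL_injective k)
  rw [Pt.map_map, Pt.map_map, h_embL_lauY, h_embL_lauW, hΘy, hΘw]

end Pool.Agent.H19VF
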