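import Pool.Agent.H19VF.C_Lift
import Pool.Agent.H19VF.D_Cousin
import Pool.Agent.H19VF.F_Chart

/-! # Task I: deformation of a curve given by charts (Proposition 3.1 of the paper) -/

set_option autoImplicit false

open AlgebraicGeometry CategoryTheory Polynomial

universe u

namespace Pool.Agent.H19VF

section algebra

variable {k : Type u} [Field k] {n : ℕ} {B L : Type u} [CommRing B] [Algebra k B] [CommRing L]
  [Algebra k L]

/-- The lift with given coordinates `ψ (z j) + X d j`. -/
theorem I_lift (z : Fin n → B) (hz : IsEtaleCoord k z) (ψ : B →ₐ[k] L)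
    (d : Fin n → PowerSeries L) :
    ∃ Φ : B →ₐ[k] PowerSeries L, (∀ b, PowerSeries.constantCoeff (Φ b) = ψ b) ∧
      ∀ j, Φ (z j) = PowerSeries.C (ψ (z j)) + PowerSeries.X * d j :=
  etale_lift z hz ψ _ fun j => by simp

/-- The difference of two lifts to the lowest order. -/
theorem I_tlin (x y : Fin n → B) (hx : IsEtaleCoord k x) (ψ : B →ₐ[k] L)
    (J : Matrix (Fin n) (Fin n) L)
    (hJ : ∀ δ : B →ₐ[k] DualNumber L, (∀ b, (δ b).fst = ψ b) →
      (fun j => (δ (y j)).snd) = J.mulVec fun j => (δ (x j)).snd)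
    (Φ Φ' : B →ₐ[k] PowerSeries L) (h : ∀ b, PowerSeries.constantCoeff (Φ b) = ψ b)
    (h' : ∀ b, PowerSeries.constantCoeff (Φ' b) = ψ b) (m : ℕ)
    (hm : ∀ j, (PowerSeries.X : PowerSeries L) ^ (m + 1) ∣ Φ (x j) - Φ' (x j)) :
    (∀ i < m + 1, ∀ b, PowerSeries.coeff i (Φ b) = PowerSeries.coeff i (Φ' b)) ∧
      (fun j => PowerSeries.coeff (m + 1) (Φ (y j)) - PowerSeries.coeff (m + 1) (Φ' (y j))) =
        J.mulVec fun j => PowerSeries.coeff (m + 1) (Φ (x j)) -
          PowerSeries.coeff (m + 1) (Φ' (x j)) := by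
  have h1 : ∀ b, (PowerSeries.X : PowerSeries L) ^ (m + 1) ∣ Φ b - Φ' b := fun b =>
    etale_cong x hx Φ Φ' (fun b => (h b).trans (h' b).symm) (m + 1) hm b
  refine ⟨fun i hi b => ?_, ?_⟩
  · have := PowerSeries.X_pow_dvd_iff.1 (h1 b) i hi
    rw [map_sub, sub_eq_zero] at this
    exact this
  · obtain ⟨δ, hδ1, hδ2⟩ := diff_deriv Φ Φ' (m + 1) (by omega) h1
    have := hJ δ (fun b => (hδ1 b).trans (h b))
    simpa only [hδ2] using this

/-- The linear combination of tangent vectors. -/
theorem I_lc {ι : Type*} [Fintype ι] (f : B →ₐ[k] L) (δ : ι → (B →ₐ[k] DualNumber L))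
    (h : ∀ i b, (δ i b).fst = f b) (q : ι → L) :
    ∃ δ' : B →ₐ[k] DualNumber L, (∀ b, (δ' b).fst = f b) ∧
      ∀ b, (δ' b).snd = ∑ i, q i * (δ i b).snd := by
  refine ⟨
    { toFun := fun b => (f b, ∑ i, q i * (δ i b).snd)
      map_one' := ?_
      map_mul' := ?_
      map_zero' := ?_
      map_add' := ?_
      commutes' := ?_ }, fun b => rfl, fun b => rfl⟩
  · apply TrivSqZeroExt.ext
    · exact map_one f
    · change ∑ i, q i * (δ i 1).snd = _
      simp
  · intro a b
    apply TrivSqZeroExt.ext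
    · exact map_mul f a b
    · change ∑ i, q i * (δ i (a * b)).snd = f a • ∑ i, q i * (δ i b).snd +
        MulOpposite.op (f b) • ∑ i, q i * (δ i a).snd
      simp only [map_mul, TrivSqZeroExt.snd_mul, h, smul_eq_mul, MulOpposite.smul_eq_mul_unop,
        MulOpposite.unop_op]
      rw [Finset.mul_sum, Finset.sum_mul, ← Finset.sum_add_distrib]
      exact Finset.sum_congr rfl fun i _ => by ring
  · apply TrivSqZeroExt.ext
    · exact map_zero f
    · change ∑ i, q i * (δ i 0).snd = _
      simp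
  · intro a b
    apply TrivSqZeroExt.ext
    · exact map_add f a b
    · change ∑ i, q i * (δ i (a + b)).snd = ∑ i, q i * (δ i a).snd + ∑ i, q i * (δ i b).snd
      simp only [map_add, TrivSqZeroExt.snd_add, mul_add, Finset.sum_add_distrib]
  · intro r
    apply TrivSqZeroExt.ext
    · exact f.commutes r
    · change ∑ i, q i * (δ i (algebraMap k B r)).snd = _
      simp only [AlgHom.commutes]
      rw [TrivSqZeroExt.algebraMap_eq_inl']
      simp

theorem I_ext {f g : B →ₐ[k] DualNumber L} (h1 : ∀ b, (f b).fst = (g b).fst)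
    (h2 : ∀ b, (f b).snd = (g b).snd) : f = g :=
  AlgHom.ext fun b => TrivSqZeroExt.ext (h1 b) (h2 b)

/-- The first two coefficients of a power series as a dual number. -/
theorem I_jet (Φ : B →ₐ[k] PowerSeries L) :
    ∃ δ : B →ₐ[k] DualNumber L, (∀ b, (δ b).fst = PowerSeries.constantCoeff (Φ b)) ∧
      ∀ b, (δ b).snd = PowerSeries.coeff 1 (Φ b) := by
  refine ⟨
    { toFun := fun b => (PowerSeries.constantCoeff (Φ b), PowerSeries.coeff 1 (Φ b))
      map_one' := ?_
      map_mul' := ?_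
      map_zero' := ?_
      map_add' := ?_
      commutes' := ?_ }, fun b => rfl, fun b => rfl⟩
  · apply TrivSqZeroExt.ext
    · change PowerSeries.constantCoeff (Φ 1) = _
      simp
    · change PowerSeries.coeff 1 (Φ 1) = _
      rw [map_one, PowerSeries.coeff_one]
      simp
  · intro a b
    apply TrivSqZeroExt.ext
    · change PowerSeries.constantCoeff (Φ (a * b)) = PowerSeries.constantCoeff (Φ a) *
        PowerSeries.constantCoeff (Φ b)
      simp
    · change PowerSeries.coeff 1 (Φ (a * b)) = PowerSeries.constantCoeff (Φ a) •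
        PowerSeries.coeff 1 (Φ b) + MulOpposite.op (PowerSeries.constantCoeff (Φ b)) •
        PowerSeries.coeff 1 (Φ a)
      rw [map_mul, PowerSeries.coeff_one_mul]
      simp only [smul_eq_mul, MulOpposite.smul_eq_mul_unop, MulOpposite.unop_op]
      ring
  · apply TrivSqZeroExt.ext
    · change PowerSeries.constantCoeff (Φ 0) = _
      simp
    · change PowerSeries.coeff 1 (Φ 0) = _
      simp
  · intro a b
    apply TrivSqZeroExt.ext
    · change PowerSeries.constantCoeff (Φ (a + b)) = PowerSeries.constantCoeff (Φ a) +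
        PowerSeries.constantCoeff (Φ b)
      simp
    · change PowerSeries.coeff 1 (Φ (a + b)) = PowerSeries.coeff 1 (Φ a) +
        PowerSeries.coeff 1 (Φ b)
      simp
  · intro r
    apply TrivSqZeroExt.ext
    · change PowerSeries.constantCoeff (Φ (algebraMap k B r)) = _
      rw [AlgHom.commutes, TrivSqZeroExt.algebraMap_eq_inl', PowerSeries.algebraMap_apply]
      simp
    · change PowerSeries.coeff 1 (Φ (algebraMap k B r)) = _
      rw [AlgHom.commutes, TrivSqZeroExt.algebraMap_eq_inl', PowerSeries.algebraMap_apply,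
        PowerSeries.coeff_C]
      simp

/-- Regularity of a lift is checked on the coordinates. -/
theorem I_reg (z : Fin n → B) (hz : IsEtaleCoord k z) (O : Subring L)
    (hO : ∀ a : k, algebraMap k L a ∈ O) (Φ : B →ₐ[k] PowerSeries L)
    (h0 : ∀ b, PowerSeries.constantCoeff (Φ b) ∈ O)
    (h1 : ∀ j i, PowerSeries.coeff i (Φ (z j)) ∈ O) (b : B) (i : ℕ) :
    PowerSeries.coeff i (Φ b) ∈ O := by
  let O' : Subalgebra k L := { O with algebraMap_mem' := hO }
  let f0 : B →ₐ[k] L :=
    { toRingHom := (PowerSeries.constantCoeff).comp Φ.toRingHom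
      commutes' := fun r => by
        change PowerSeries.constantCoeff (Φ (algebraMap k B r)) = _
        rw [AlgHom.commutes, PowerSeries.algebraMap_apply]
        simp }
  let f0' : B →ₐ[k] O' := f0.codRestrict O' h0
  obtain ⟨Φ', hΦ0, hΦ1⟩ := etale_lift (L := O') z hz f0'
    (fun j => PowerSeries.mk fun i => ⟨PowerSeries.coeff i (Φ (z j)), h1 j i⟩) (fun j => by
      apply Subtype.ext
      rw [← PowerSeries.coeff_zero_eq_constantCoeff_apply, PowerSeries.coeff_mk]
      exact PowerSeries.coeff_zero_eq_constantCoeff_apply _)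
  let Φ'' : B →ₐ[k] PowerSeries L :=
    { toRingHom := (PowerSeries.map (O'.val : O' →+* L)).comp Φ'.toRingHom
      commutes' := fun r => by
        change PowerSeries.map (O'.val : O' →+* L) (Φ' (algebraMap k B r)) = _
        rw [AlgHom.commutes, PowerSeries.algebraMap_apply, PowerSeries.algebraMap_apply,
          PowerSeries.map_C]
        rfl }
  have hc : ∀ b i, PowerSeries.coeff i (Φ'' b) = (PowerSeries.coeff i (Φ' b) : O') := by
    intro b i
    change PowerSeries.coeff i (PowerSeries.map (O'.val : O' →+* L) (Φ' b)) = _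
    rw [PowerSeries.coeff_map]
    rfl
  have he : Φ = Φ'' := by
    apply etale_unique z hz
    · intro b
      rw [← PowerSeries.coeff_zero_eq_constantCoeff_apply,
        ← PowerSeries.coeff_zero_eq_constantCoeff_apply, hc,
        PowerSeries.coeff_zero_eq_constantCoeff_apply,
        PowerSeries.coeff_zero_eq_constantCoeff_apply, hΦ0]
      rfl
    · intro j
      ext i
      rw [hc, hΦ1, PowerSeries.coeff_mk]
  rw [he, hc]
  exact (PowerSeries.coeff i (Φ' b)).2

/-- Regularity of a tangent vector is checked on the coordinates. -/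
theorem I_regd (z : Fin n → B) (hz : IsEtaleCoord k z) (O : Subring L)
    (hO : ∀ a : k, algebraMap k L a ∈ O) (δ : B →ₐ[k] DualNumber L)
    (h0 : ∀ b, (δ b).fst ∈ O) (h1 : ∀ j, (δ (z j)).snd ∈ O) (b : B) : (δ b).snd ∈ O := by
  let O' : Subalgebra k L := { O with algebraMap_mem' := hO }
  let f0 : B →ₐ[k] L := (dfst k L).comp δ
  let f0' : B →ₐ[k] O' := f0.codRestrict O' h0
  obtain ⟨δ', ⟨hδ0, hδ1⟩, -⟩ := etale_dual (L := O') z hz f0' (fun j => ⟨_, h1 j⟩)
  let δ'' : B →ₐ[k] DualNumber L :=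
    { toFun := fun b => (((δ' b).fst : L), ((δ' b).snd : L))
      map_one' := by
        apply TrivSqZeroExt.ext
        · change (((δ' 1).fst : O') : L) = _
          simp
        · change (((δ' 1).snd : O') : L) = _
          simp
      map_mul' := fun a b => by
        apply TrivSqZeroExt.ext
        · change (((δ' (a * b)).fst : O') : L) = ((δ' a).fst : L) * ((δ' b).fst : L)
          simp
        · change (((δ' (a * b)).snd : O') : L) = ((δ' a).fst : L) • ((δ' b).snd : L) +
            MulOpposite.op ((δ' b).fst : L) • ((δ' a).snd : L)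
          rw [map_mul, TrivSqZeroExt.snd_mul]
          simp only [smul_eq_mul, MulOpposite.smul_eq_mul_unop, MulOpposite.unop_op]
          push_cast
          rfl
      map_zero' := by
        apply TrivSqZeroExt.ext
        · change (((δ' 0).fst : O') : L) = _
          simp
        · change (((δ' 0).snd : O') : L) = _
          simp
      map_add' := fun a b => by
        apply TrivSqZeroExt.ext
        · change (((δ' (a + b)).fst : O') : L) = ((δ' a).fst : L) + ((δ' b).fst : L)
          simp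
        · change (((δ' (a + b)).snd : O') : L) = ((δ' a).snd : L) + ((δ' b).snd : L)
          simp
      commutes' := fun r => by
        apply TrivSqZeroExt.ext
        · change (((δ' (algebraMap k B r)).fst : O') : L) = _
          rw [AlgHom.commutes, TrivSqZeroExt.algebraMap_eq_inl', TrivSqZeroExt.algebraMap_eq_inl']
          rfl
        · change (((δ' (algebraMap k B r)).snd : O') : L) = _
          rw [AlgHom.commutes, TrivSqZeroExt.algebraMap_eq_inl', TrivSqZeroExt.algebraMap_eq_inl']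
          rfl }
  have he : δ = δ'' := by
    obtain ⟨δ3, -, hun⟩ := etale_dual z hz f0 (fun j => (δ (z j)).snd)
    rw [hun δ ⟨fun b => rfl, fun j => rfl⟩]
    symm
    apply hun
    refine ⟨fun b => ?_, fun j => ?_⟩
    · change (((δ' b).fst : O') : L) = _
      rw [hδ0]
      rfl
    · change (((δ' (z j)).snd : O') : L) = _
      rw [hδ1]
  rw [he]
  exact (δ' b).snd.2

end algebra


section charts

variable {k : Type u} [Field k] {V : Scheme.{u}} {π : V ⟶ Spec (.of k)} {n : ℕ}

/-- The common refinement of two charts with coordinates, at a common point. -/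
theorem I_refine (W W' : EChart π n) {F : Type u} [Field F] [Algebra k F] (f : W.B →ₐ[k] F)
    (f' : W'.B →ₐ[k] F) (h : W.pt.map f = W'.pt.map f') :
    ∃ (U : Chart π) (α : W.B →ₐ[k] U.B) (α' : W'.B →ₐ[k] U.B) (ψ : U.B →ₐ[k] F),
      U.pt = W.pt.map α ∧ U.pt = W'.pt.map α' ∧ ψ.comp α = f ∧ ψ.comp α' = f' ∧
      IsEtaleCoord k (fun j => α (W.z j)) ∧ IsEtaleCoord k (fun j => α' (W'.z j)) := by
  obtain ⟨U, α, α', ψ, h1, h2, h3, h4, ⟨g, hg⟩, ⟨g', hg'⟩⟩ :=
    exists_refine W.toChart W'.toChart f f' h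
  exact ⟨U, α, α', ψ, h1, h2, h3, h4, W.et.away α g hg, W'.et.away α' g' hg'⟩

/-- Compatible tangent vectors in two charts come from a tangent vector in the refinement. -/
theorem I_tan (W W' : EChart π n) {F : Type u} [Field F] [Algebra k F] {f : W.B →ₐ[k] F}
    {U : Chart π} {α : W.B →ₐ[k] U.B} {α' : W'.B →ₐ[k] U.B} {ψ : U.B →ₐ[k] F}
    (h1 : U.pt = W.pt.map α) (h2 : U.pt = W'.pt.map α') (h3 : ψ.comp α = f)
    (h5 : IsEtaleCoord k (fun j => α (W.z j)))
    (δ : W.B →ₐ[k] DualNumber F) (δ' : W'.B →ₐ[k] DualNumber F) (hδ : ∀ b, (δ b).fst = f b)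
    (hs : W.pt.map δ = W'.pt.map δ') :
    ∃ ε : U.B →ₐ[k] DualNumber F, (∀ b, (ε b).fst = ψ b) ∧ ε.comp α = δ ∧ ε.comp α' = δ' := by
  obtain ⟨ε, ⟨hε1, hε2⟩, -⟩ := etale_dual _ h5 ψ (fun j => (δ (W.z j)).snd)
  have e1 : ε.comp α = δ := by
    obtain ⟨ε3, -, hun⟩ := etale_dual W.z W.et f (fun j => (δ (W.z j)).snd)
    rw [hun δ ⟨hδ, fun j => rfl⟩]
    apply hun
    refine ⟨fun b => ?_, fun j => ?_⟩
    · rw [AlgHom.comp_apply, hε1, ← h3]
      rfl
    · exact hε2 j
  refine ⟨ε, hε1, e1, ?_⟩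
  apply Chart.map_injective W'.toChart
  rw [← Pt.map_map, ← h2, h1, Pt.map_map, e1, hs]

/-- Linear combinations of compatible tangent vectors are compatible. -/
theorem I_comb (W W' : EChart π n) {F : Type u} [Field F] [Algebra k F] (f : W.B →ₐ[k] F)
    (f' : W'.B →ₐ[k] F) (h : W.pt.map f = W'.pt.map f') {ι : Type*} [Fintype ι]
    (δ : ι → (W.B →ₐ[k] DualNumber F)) (δ' : ι → (W'.B →ₐ[k] DualNumber F))
    (hδ : ∀ i b, (δ i b).fst = f b)
    (hs : ∀ i, W.pt.map (δ i) = W'.pt.map (δ' i)) (q : ι → F) (ε : W.B →ₐ[k] DualNumber F)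
    (ε' : W'.B →ₐ[k] DualNumber F) (hε : ∀ b, (ε b).fst = f b)
    (hε2 : ∀ b, (ε b).snd = ∑ i, q i * (δ i b).snd) (hε' : ∀ b, (ε' b).fst = f' b)
    (hε2' : ∀ b, (ε' b).snd = ∑ i, q i * (δ' i b).snd) : W.pt.map ε = W'.pt.map ε' := by
  obtain ⟨U, α, α', ψ, h1, h2, h3, h4, h5, -⟩ := I_refine W W' f f' h
  have h6 := fun i => I_tan W W' h1 h2 h3 h5 (δ i) (δ' i) (hδ i) (hs i)
  choose ω hω1 hω2 hω3 using h6
  obtain ⟨ω', hω'1, hω'2⟩ := I_lc ψ ω hω1 q
  have e1 : ε = ω'.comp α := by
    apply I_ext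
    · intro b
      rw [hε, AlgHom.comp_apply, hω'1, ← h3]
      rfl
    · intro b
      rw [hε2, AlgHom.comp_apply, hω'2]
      refine Finset.sum_congr rfl fun i _ => ?_
      rw [← hω2]
      rfl
  have e2 : ε' = ω'.comp α' := by
    apply I_ext
    · intro b
      rw [hε', AlgHom.comp_apply, hω'1, ← h4]
      rfl
    · intro b
      rw [hε2', AlgHom.comp_apply, hω'2]
      refine Finset.sum_congr rfl fun i _ => ?_
      rw [← hω3]
      rfl
  rw [e1, e2, ← Pt.map_map, ← Pt.map_map, ← h1, ← h2]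

/-- The transition of formal deformations between two charts. -/
theorem I_T (W W' : EChart π n) {F : Type u} [Field F] [Algebra k F] (f : W.B →ₐ[k] F)
    (f' : W'.B →ₐ[k] F) (h : W.pt.map f = W'.pt.map f') :
    ∃ (T : (Fin n → PowerSeries F) → Fin n → PowerSeries F) (J : Matrix (Fin n) (Fin n) F),
      IsUnit J ∧
      (∀ (d d' : Fin n → PowerSeries F) (m : ℕ),
        (∀ j, (PowerSeries.X : PowerSeries F) ^ m ∣ d j - d' j) → ∀ i ≤ m,
        (fun j => PowerSeries.coeff i (T d j)) - J.mulVec (fun j => PowerSeries.coeff i (d j)) =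
        (fun j => PowerSeries.coeff i (T d' j)) - J.mulVec (fun j => PowerSeries.coeff i (d' j))) ∧
      (∀ d, (fun j => PowerSeries.coeff 0 (T d j)) =
        J.mulVec (fun j => PowerSeries.coeff 0 (d j))) ∧
      (∀ (δ : W.B →ₐ[k] DualNumber F) (δ' : W'.B →ₐ[k] DualNumber F), (∀ b, (δ b).fst = f b) →
        W.pt.map δ = W'.pt.map δ' →
        (fun j => (δ' (W'.z j)).snd) = J.mulVec (fun j => (δ (W.z j)).snd)) ∧
      (∀ d, ∃ (φ : W.B →ₐ[k] PowerSeries F) (φ' : W'.B →ₐ[k] PowerSeries F),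
        (∀ b, PowerSeries.constantCoeff (φ b) = f b) ∧
        (∀ b, PowerSeries.constantCoeff (φ' b) = f' b) ∧
        (∀ j, φ (W.z j) = PowerSeries.C (f (W.z j)) + PowerSeries.X * d j) ∧
        (∀ j, φ' (W'.z j) = PowerSeries.C (f' (W'.z j)) + PowerSeries.X * T d j) ∧
        W.pt.map φ = W'.pt.map φ') := by
  obtain ⟨U, α, α', ψ, h1, h2, h3, h4, h5, h6⟩ := I_refine W W' f f' h
  obtain ⟨J, hJu, hJ⟩ := etale_jacobian _ _ h5 h6 ψ
  choose Φ hΦ0 hΦ1 using I_lift _ h5 ψ
  have hα : ∀ b, ψ (α b) = f b := fun b => by rw [← h3]; rfl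
  have hα' : ∀ b, ψ (α' b) = f' b := fun b => by rw [← h4]; rfl
  -- comparison of two lifts
  have key : ∀ (d d' : Fin n → PowerSeries F) (m : ℕ),
      (∀ j, (PowerSeries.X : PowerSeries F) ^ m ∣ d j - d' j) →
      (∀ i < m + 1, ∀ b, PowerSeries.coeff i (Φ d b) = PowerSeries.coeff i (Φ d' b)) ∧
      (fun j => PowerSeries.coeff (m + 1) (Φ d (α' (W'.z j))) -
        PowerSeries.coeff (m + 1) (Φ d' (α' (W'.z j)))) =
        J.mulVec fun j => PowerSeries.coeff m (d j) - PowerSeries.coeff m (d' j) := by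
    intro d d' m hd
    have h7 := I_tlin _ _ h5 ψ J hJ (Φ d) (Φ d') (hΦ0 d) (hΦ0 d') m (fun j => by
      rw [hΦ1, hΦ1, add_sub_add_left_eq_sub, ← mul_sub, pow_succ']
      exact mul_dvd_mul_left _ (hd j))
    refine ⟨h7.1, h7.2.trans ?_⟩
    congr 1
    ext j
    rw [hΦ1, hΦ1, map_add, map_add, PowerSeries.coeff_succ_X_mul, PowerSeries.coeff_succ_X_mul]
    ring
  refine ⟨fun d j => PowerSeries.mk fun i => PowerSeries.coeff (i + 1) (Φ d (α' (W'.z j))), J, hJu,
    ?_, ?_, ?_, ?_⟩
  · intro d d' m hd i hi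
    have h7 := key d d' m hd
    simp only [PowerSeries.coeff_mk]
    rcases hi.lt_or_eq with hlt | rfl
    · have e1 : (fun j => PowerSeries.coeff (i + 1) (Φ d (α' (W'.z j)))) =
          fun j => PowerSeries.coeff (i + 1) (Φ d' (α' (W'.z j))) := by
        ext j
        exact h7.1 (i + 1) (by omega) _
      have e2 : (fun j => PowerSeries.coeff i (d j)) = fun j => PowerSeries.coeff i (d' j) := by
        ext j
        have := PowerSeries.X_pow_dvd_iff.1 (hd j) i hlt
        rw [map_sub, sub_eq_zero] at this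
        exact this
      rw [e1, e2]
    · have e1 : (fun j => PowerSeries.coeff i (d j) - PowerSeries.coeff i (d' j)) =
          (fun j => PowerSeries.coeff i (d j)) - fun j => PowerSeries.coeff i (d' j) := rfl
      have e3 := h7.2
      rw [e1, Matrix.mulVec_sub] at e3
      have e4 : (fun j => PowerSeries.coeff (i + 1) (Φ d (α' (W'.z j))) -
        PowerSeries.coeff (i + 1) (Φ d' (α' (W'.z j)))) =
          (fun j => PowerSeries.coeff (i + 1) (Φ d (α' (W'.z j)))) -
          fun j => PowerSeries.coeff (i + 1) (Φ d' (α' (W'.z j))) := rfl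
      rw [e4, sub_eq_sub_iff_add_eq_add] at e3
      rw [sub_eq_sub_iff_add_eq_add]
      rw [e3]
      exact add_comm _ _
  · intro d
    have h7 := (key d 0 0 (fun j => by simp)).2
    have h8 : ∀ b, Φ 0 b = PowerSeries.C (ψ b) := by
      let c : U.B →ₐ[k] PowerSeries F :=
        { toRingHom := (PowerSeries.C : F →+* PowerSeries F).comp ψ.toRingHom
          commutes' := fun r => by
            change PowerSeries.C (ψ (algebraMap k U.B r)) = _
            rw [AlgHom.commutes, PowerSeries.algebraMap_apply] }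
      have : Φ 0 = c := by
        apply etale_unique _ h5
        · intro b
          rw [hΦ0]
          change _ = PowerSeries.constantCoeff (PowerSeries.C (ψ b))
          simp
        · intro j
          rw [hΦ1]
          change _ = PowerSeries.C (ψ _)
          simp
      intro b
      rw [this]
      rfl
    simp only [PowerSeries.coeff_mk]
    simp only [h8, zero_add] at h7
    simpa [PowerSeries.coeff_C] using h7
  · intro δ δ' hδ hs
    obtain ⟨ε, hε1, hε2, hε3⟩ := I_tan W W' h1 h2 h3 h5 δ δ' hδ hs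
    have := hJ ε hε1
    rw [← hε2, ← hε3]
    exact this
  · intro d
    refine ⟨(Φ d).comp α, (Φ d).comp α', fun b => ?_, fun b => ?_, fun j => ?_, fun j => ?_, ?_⟩
    · rw [AlgHom.comp_apply, hΦ0, hα]
    · rw [AlgHom.comp_apply, hΦ0, hα']
    · rw [AlgHom.comp_apply, hΦ1, hα]
    · rw [AlgHom.comp_apply]
      ext i
      cases i with
      | zero =>
        rw [PowerSeries.coeff_zero_eq_constantCoeff_apply, hΦ0, hα']
        simp
      | succ i =>
        rw [map_add, PowerSeries.coeff_succ_X_mul, PowerSeries.coeff_mk, PowerSeries.coeff_C]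
        simp
    · rw [← Pt.map_map, ← Pt.map_map, ← h1, ← h2]

end charts

variable {k : Type u} [Field k] {V : Scheme.{u}} {π : V ⟶ Spec (.of k)}

/-- A curve over `κ` in `V` given by charts: `f1` on the complement of `S ∪ {∞}` with values in the
chart `W1`, and `f s` at the points `s ∈ S ∪ {∞}` with values in the chart `W s`. (The values for
other `s` are irrelevant.) -/
structure LocData {V : Scheme.{u}} (π : V ⟶ Spec (.of k)) (n : ℕ) (κ : Type u) [Field κ]
    [Algebra k κ] where
  S : Finset κ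
  W1 : EChart π n
  f1 : W1.B →ₐ[k] RatFunc κ
  hf1 : ∀ b, f1 b ∈ regOff S
  W : Option κ → EChart π n
  f : ∀ s, (W s).B →ₐ[k] RatFunc κ
  hf : ∀ s, InS S s → ∀ b, f s b ∈ regAt s
  same : ∀ s, InS S s → (W s).pt.map (f s) = W1.pt.map f1

/-- A section of the pull back of the tangent bundle along a curve given by charts. -/
structure Sec {n : ℕ} {κ : Type u} [Field κ] [Algebra k κ] (D : LocData π n κ) where
  δ1 : D.W1.B →ₐ[k] DualNumber (RatFunc κ)
  h1 : ∀ b, (δ1 b).fst = D.f1 b
  r1 : ∀ b, (δ1 b).snd ∈ regOff D.S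
  δ : ∀ s, (D.W s).B →ₐ[k] DualNumber (RatFunc κ)
  h : ∀ s, InS D.S s → ∀ b, (δ s b).fst = D.f s b
  r : ∀ s, InS D.S s → ∀ b, (δ s b).snd ∈ regAt s
  same : ∀ s, InS D.S s → (D.W s).pt.map (δ s) = D.W1.pt.map δ1

variable {n : ℕ} {κ : Type u} [Field κ] [Algebra k κ]


lemma I_van_zero {s : Option κ} {m : ℤ} : Van s m (0 : RatFunc κ) := by
  unfold Van
  rw [zero_mul]
  exact Subring.zero_mem _

lemma I_van_sum {ι : Type*} {s : Option κ} {m : ℤ} (t : Finset ι) (g : ι → RatFunc κ)
    (h : ∀ i ∈ t, Van s m (g i)) : Van s m (∑ i ∈ t, g i) := by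
  classical
  induction t using Finset.induction_on with
  | empty => simpa using I_van_zero
  | insert a t ha ih =>
    rw [Finset.sum_insert ha]
    exact (h a (Finset.mem_insert_self _ _)).add
      (ih fun i hi => h i (Finset.mem_insert_of_mem hi))

lemma I_k_mem (s : Option κ) (a : k) : algebraMap k (RatFunc κ) a ∈ regAt s := by
  have : algebraMap k (RatFunc κ) a = polR (C (algebraMap k κ a)) := by
    rw [IsScalarTower.algebraMap_apply k κ[X] (RatFunc κ)]
    rfl
  rw [this]
  exact polR_C_mem s _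

lemma I_k_mem' (S : Finset κ) (a : k) : algebraMap k (RatFunc κ) a ∈ regOff S := by
  have : algebraMap k (RatFunc κ) a = polR (C (algebraMap k κ a)) := by
    rw [IsScalarTower.algebraMap_apply k κ[X] (RatFunc κ)]
    rfl
  rw [this]
  exact polR_mem_regOff S _

/-- The Cousin problem for sections, without regularity. -/
theorem I_raw (D : LocData π n κ) (N : ℤ) (ξ : Fin n → Sec D)
    (hN : ∀ i b, Van none N (((ξ i).δ none b).snd))
    (hdet : (Matrix.of fun i j => ((ξ i).δ1 (D.W1.z j)).snd).det ≠ 0)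
    (nn : Option κ → ℕ) (hnn : (∑ s ∈ D.S, (nn (some s) : ℤ)) + nn none ≤ N + 1)
    (g : Option κ → Fin n → RatFunc κ) :
    ∃ q : Fin n → RatFunc κ, (∀ i, q i ∈ regOff D.S) ∧ ∀ s, InS D.S s → ∀ j,
      Van s (nn s) (∑ i, q i * ((ξ i).δ s ((D.W s).z j)).snd - g s j) := by
  let X : Option κ → Matrix (Fin n) (Fin n) (RatFunc κ) := fun s =>
    Matrix.of fun i j => ((ξ i).δ s ((D.W s).z j)).snd
  have hX : ∀ s, InS D.S s → IsUnit (X s).det := by
    intro s hs
    obtain ⟨T, J, hJu, -, -, hsec, -⟩ := I_T (D.W s) D.W1 (D.f s) D.f1 (D.same s hs)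
    have h1 : (Matrix.of fun i j => ((ξ i).δ1 (D.W1.z j)).snd) = X s * J.transpose := by
      ext i j
      have := congrFun (hsec ((ξ i).δ s) ((ξ i).δ1) ((ξ i).h s hs) ((ξ i).same s hs)) j
      simp only [Matrix.of_apply, Matrix.mul_apply, Matrix.transpose_apply]
      rw [this]
      simp only [Matrix.mulVec, dotProduct]
      exact Finset.sum_congr rfl fun l _ => mul_comm _ _
    rw [h1, Matrix.det_mul] at hdet
    exact (left_ne_zero_of_mul hdet).isUnit
  let qs : Option κ → Fin n → RatFunc κ := fun s => Matrix.vecMul (g s) (X s)⁻¹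
  have hqs : ∀ s, InS D.S s → ∀ j, ∑ i, qs s i * ((ξ i).δ s ((D.W s).z j)).snd = g s j := by
    intro s hs j
    have h1 : Matrix.vecMul (qs s) (X s) = g s := by
      change Matrix.vecMul (Matrix.vecMul (g s) (X s)⁻¹) (X s) = g s
      rw [Matrix.vecMul_vecMul, Matrix.nonsing_inv_mul _ (hX s hs), Matrix.vecMul_one]
    exact congrFun h1 j
  have h2 := fun i => cousin D.S (fun a => nn (some a)) (N - nn none) (by linarith)
    (fun s => qs s i)
  choose q hq1 hq2 hq3 using h2
  refine ⟨q, hq1, fun s hs j => ?_⟩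
  have e1 : ∑ i, q i * ((ξ i).δ s ((D.W s).z j)).snd - g s j =
      ∑ i, (q i - qs s i) * ((ξ i).δ s ((D.W s).z j)).snd := by
    rw [← hqs s hs j, ← Finset.sum_sub_distrib]
    exact Finset.sum_congr rfl fun i _ => by ring
  rw [e1]
  apply I_van_sum
  intro i _
  cases s with
  | none =>
    have := (hq3 i).mul (hN i ((D.W none).z j))
    rwa [neg_sub, sub_add_cancel] at this
  | some a =>
    have h3 := (hq2 i a (hs a rfl)).mul
      (van_zero_iff.2 ((ξ i).r (some a) hs ((D.W (some a)).z j)))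
    rwa [add_zero] at h3

/-- Proposition 3.1 (i): sections with prescribed jets. -/
theorem linear_cousin (D : LocData π n κ) (N : ℤ) (ξ : Fin n → Sec D)
    (hN : ∀ i b, Van none N (((ξ i).δ none b).snd))
    (hdet : (Matrix.of fun i j => ((ξ i).δ1 (D.W1.z j)).snd).det ≠ 0)
    (nn : Option κ → ℕ) (hnn : (∑ s ∈ D.S, (nn (some s) : ℤ)) + nn none ≤ N + 1)
    (g : Option κ → Fin n → RatFunc κ) (hg : ∀ s, InS D.S s → ∀ j, g s j ∈ regAt s) :
    ∃ θ : Sec D, ∀ s, InS D.S s → ∀ j, Van s (nn s) ((θ.δ s ((D.W s).z j)).snd - g s j) := by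
  obtain ⟨q, hq1, hq2⟩ := I_raw D N ξ hN hdet nn hnn g
  obtain ⟨δ1, h11, h12⟩ := I_lc D.f1 (fun i => (ξ i).δ1) (fun i => (ξ i).h1) q
  have hδ : ∀ s, ∃ δ : (D.W s).B →ₐ[k] DualNumber (RatFunc κ), InS D.S s →
      (∀ b, (δ b).fst = D.f s b) ∧ ∀ b, (δ b).snd = ∑ i, q i * ((ξ i).δ s b).snd := by
    intro s
    by_cases hs : InS D.S s
    · obtain ⟨δ, h1, h2⟩ := I_lc (D.f s) (fun i => (ξ i).δ s) (fun i => (ξ i).h s hs) q
      exact ⟨δ, fun _ => ⟨h1, h2⟩⟩
    · exact ⟨(TrivSqZeroExt.inlAlgHom k (RatFunc κ) (RatFunc κ)).comp (D.f s),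
        fun h => absurd h hs⟩
  choose δ hδ' using hδ
  refine ⟨⟨δ1, h11, fun b => ?_, δ, fun s hs => (hδ' s hs).1, fun s hs b => ?_,
    fun s hs => ?_⟩, fun s hs j => ?_⟩
  · rw [h12]
    exact Subring.sum_mem _ fun i _ => Subring.mul_mem _ (hq1 i) ((ξ i).r1 b)
  · apply I_regd (D.W s).z (D.W s).et (regAt s) (I_k_mem s) (δ s)
    · intro b
      rw [(hδ' s hs).1]
      exact D.hf s hs b
    · intro j
      rw [(hδ' s hs).2]
      have h1 := (hq2 s hs j).mono (m' := 0) (by positivity)
      rw [van_zero_iff] at h1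
      have h2 := Subring.add_mem _ h1 (hg s hs j)
      rwa [sub_add_cancel] at h2
  · exact I_comb (D.W s) D.W1 (D.f s) D.f1 (D.same s hs) (fun i => (ξ i).δ s)
      (fun i => (ξ i).δ1) (fun i => (ξ i).h s hs) (fun i => (ξ i).same s hs) q (δ s) δ1
      (hδ' s hs).1 (hδ' s hs).2 h11 h12
  · rw [(hδ' s hs).2]
    exact hq2 s hs j

/-- Proposition 3.1 (ii): a first order deformation `θ` extends to a formal deformation such that
the corrections of higher order vanish to the order `nn s` at `s`. -/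
theorem deform (D : LocData π n κ) (N : ℤ) (ξ : Fin n → Sec D)
    (hN : ∀ i b, Van none N (((ξ i).δ none b).snd))
    (hdet : (Matrix.of fun i j => ((ξ i).δ1 (D.W1.z j)).snd).det ≠ 0)
    (nn : Option κ → ℕ) (hnn : (∑ s ∈ D.S, (nn (some s) : ℤ)) + nn none ≤ N + 1)
    (θ : Sec D) :
    ∃ (φ1 : D.W1.B →ₐ[k] PowerSeries (RatFunc κ))
      (φ : ∀ s, (D.W s).B →ₐ[k] PowerSeries (RatFunc κ)),
      (∀ b, PowerSeries.constantCoeff (φ1 b) = D.f1 b) ∧
      (∀ b i, PowerSeries.coeff i (φ1 b) ∈ regOff D.S) ∧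
      (∀ s, InS D.S s → ∀ b, PowerSeries.constantCoeff (φ s b) = D.f s b) ∧
      (∀ s, InS D.S s → ∀ b i, PowerSeries.coeff i (φ s b) ∈ regAt s) ∧
      (∀ s, InS D.S s → (D.W s).pt.map (φ s) = D.W1.pt.map φ1) ∧
      (∀ s, InS D.S s → ∀ b, PowerSeries.coeff 1 (φ s b) = (θ.δ s b).snd) ∧
      (∀ s, InS D.S s → ∀ j i, 2 ≤ i → Van s (nn s) (PowerSeries.coeff i (φ s ((D.W s).z j)))) := by
  classical
  have hT := fun s (hs : InS D.S s) => I_T (D.W s) D.W1 (D.f s) D.f1 (D.same s hs)
  choose T J hJu hcau hzero hsec hlift using hT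
  choose Cz hCz1 hCz2 using I_raw D N ξ hN hdet nn hnn
  let G : (Option κ × Fin n → PowerSeries (RatFunc κ)) → ℕ → Option κ → Fin n → RatFunc κ :=
    fun a i s => if hs : InS D.S s then (J s hs)⁻¹.mulVec
      ((fun j => PowerSeries.coeff i (T s hs (fun l => a (s, l)) j)) -
        (J s hs).mulVec (fun j => PowerSeries.coeff i (a (s, j)))) else 0
  let NN : (Option κ × Fin n → PowerSeries (RatFunc κ)) →
      (Option κ × Fin n → PowerSeries (RatFunc κ)) := fun a p =>
    PowerSeries.mk fun i => if i = 0 then (θ.δ p.1 ((D.W p.1).z p.2)).snd else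
      ∑ l, Cz (G a i) l * ((ξ l).δ p.1 ((D.W p.1).z p.2)).snd - G a i p.1 p.2
  obtain ⟨a, ha⟩ := fixed_point NN (by
    intro m a b hab p
    rw [PowerSeries.X_pow_dvd_iff]
    intro i hi
    have hG : G a i = G b i := by
      funext s
      by_cases hs : InS D.S s
      · simp only [G, dif_pos hs]
        congr 1
        exact hcau s hs _ _ m (fun j => hab (s, j)) i (by omega)
      · simp only [G, dif_neg hs]
    rw [map_sub, sub_eq_zero]
    simp only [NN, PowerSeries.coeff_mk, hG])
  have hac0 : ∀ s j, PowerSeries.coeff 0 (a (s, j)) = (θ.δ s ((D.W s).z j)).snd := by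
    intro s j
    rw [← ha]
    simp only [NN, PowerSeries.coeff_mk, if_true]
  have hac : ∀ s j i, i ≠ 0 → PowerSeries.coeff i (a (s, j)) =
      ∑ l, Cz (G a i) l * ((ξ l).δ s ((D.W s).z j)).snd - G a i s j := by
    intro s j i hi
    conv_lhs => rw [← ha]
    simp only [NN, PowerSeries.coeff_mk, if_neg hi]
  let ζ : Fin n → PowerSeries (RatFunc κ) := fun j => PowerSeries.mk fun i =>
    if i = 0 then (θ.δ1 (D.W1.z j)).snd else ∑ l, Cz (G a i) l * ((ξ l).δ1 (D.W1.z j)).snd
  have hζ : ∀ s (hs : InS D.S s) j, T s hs (fun l => a (s, l)) j = ζ j := by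
    intro s hs j
    ext i
    revert j
    rw [← funext_iff]
    by_cases hi : i = 0
    · subst hi
      rw [hzero]
      have h1 := hsec s hs (θ.δ s) θ.δ1 (θ.h s hs) (θ.same s hs)
      simp only [ζ, PowerSeries.coeff_mk, if_true, hac0]
      exact h1.symm
    · simp only [ζ, PowerSeries.coeff_mk, if_neg hi]
      have h1 : (J s hs).mulVec (G a i s) =
          ((fun j => PowerSeries.coeff i (T s hs (fun l => a (s, l)) j)) -
            (J s hs).mulVec (fun j => PowerSeries.coeff i (a (s, j)))) := by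
        simp only [G, dif_pos hs]
        rw [Matrix.mulVec_mulVec, Matrix.mul_nonsing_inv _
          ((Matrix.isUnit_iff_isUnit_det _).1 (hJu s hs)), Matrix.one_mulVec]
      have h2 : (fun j => PowerSeries.coeff i (a (s, j))) =
          (∑ l, Cz (G a i) l • fun j => ((ξ l).δ s ((D.W s).z j)).snd) - G a i s := by
        ext j
        rw [hac s j i hi]
        simp [Finset.sum_apply]
      have h3 : (J s hs).mulVec (fun j => PowerSeries.coeff i (a (s, j))) =
          (fun j => ∑ l, Cz (G a i) l * ((ξ l).δ1 (D.W1.z j)).snd) -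
            (J s hs).mulVec (G a i s) := by
        rw [h2, Matrix.mulVec_sub, Matrix.mulVec_sum]
        congr 1
        ext j
        rw [Finset.sum_apply]
        refine Finset.sum_congr rfl fun l _ => ?_
        rw [Matrix.mulVec_smul, ← hsec s hs ((ξ l).δ s) ((ξ l).δ1) ((ξ l).h s hs)
          ((ξ l).same s hs)]
        rfl
      rw [h1] at h3
      have h4 := eq_sub_iff_add_eq.1 h3
      rw [add_sub_cancel] at h4
      exact h4
  obtain ⟨φ1, h1a, h1b⟩ := I_lift D.W1.z D.W1.et D.f1 ζ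
  have hφ : ∀ s, ∃ φ : (D.W s).B →ₐ[k] PowerSeries (RatFunc κ), InS D.S s →
      (∀ b, PowerSeries.constantCoeff (φ b) = D.f s b) ∧
      (∀ j, φ ((D.W s).z j) = PowerSeries.C (D.f s ((D.W s).z j)) + PowerSeries.X * a (s, j)) ∧
      (D.W s).pt.map φ = D.W1.pt.map φ1 := by
    intro s
    by_cases hs : InS D.S s
    · obtain ⟨φ, φ', g1, g2, g3, g4, g5⟩ := hlift s hs (fun l => a (s, l))
      refine ⟨φ, fun _ => ⟨g1, g3, ?_⟩⟩
      have : φ' = φ1 := by
        apply etale_unique D.W1.z D.W1.et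
        · intro b
          rw [g2, h1a]
        · intro j
          rw [g4, h1b, hζ]
      rw [g5, this]
    · obtain ⟨φ, -, -⟩ := I_lift (D.W s).z (D.W s).et (D.f s) 0
      exact ⟨φ, fun h => absurd h hs⟩
  choose φ hφ' using hφ
  have hcf : ∀ s, InS D.S s → ∀ j i, PowerSeries.coeff (i + 1) (φ s ((D.W s).z j)) =
      PowerSeries.coeff i (a (s, j)) := by
    intro s hs j i
    rw [(hφ' s hs).2.1, map_add, PowerSeries.coeff_succ_X_mul, PowerSeries.coeff_C]
    simp
  have hvan : ∀ s, InS D.S s → ∀ j i, i ≠ 0 → Van s (nn s) (PowerSeries.coeff i (a (s, j))) := by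
    intro s hs j i hi
    rw [hac s j i hi]
    exact hCz2 (G a i) s hs j
  refine ⟨φ1, φ, h1a, ?_, fun s hs => (hφ' s hs).1, ?_, fun s hs => (hφ' s hs).2.2, ?_, ?_⟩
  · apply I_reg D.W1.z D.W1.et (regOff D.S) (I_k_mem' D.S) φ1
    · intro b
      rw [h1a]
      exact D.hf1 b
    · intro j i
      rw [h1b]
      cases i with
      | zero => simpa using D.hf1 _
      | succ i =>
        rw [map_add, PowerSeries.coeff_succ_X_mul, PowerSeries.coeff_C]
        simp only [Nat.add_eq_zero_iff, one_ne_zero, and_false, if_false, zero_add]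
        simp only [ζ, PowerSeries.coeff_mk]
        split_ifs with h0
        · exact θ.r1 _
        · exact Subring.sum_mem _ fun l _ => Subring.mul_mem _ (hCz1 _ l) ((ξ l).r1 _)
  · intro s hs
    apply I_reg (D.W s).z (D.W s).et (regAt s) (I_k_mem s) (φ s)
    · intro b
      rw [(hφ' s hs).1]
      exact D.hf s hs b
    · intro j i
      cases i with
      | zero =>
        rw [PowerSeries.coeff_zero_eq_constantCoeff_apply, (hφ' s hs).1]
        exact D.hf s hs _
      | succ i =>
        rw [hcf s hs]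
        by_cases hi : i = 0
        · subst hi
          rw [hac0]
          exact θ.r s hs _
        · exact van_zero_iff.1 ((hvan s hs j i hi).mono (by positivity))
  · intro s hs
    obtain ⟨δ, hδ1, hδ2⟩ := I_jet (φ s)
    obtain ⟨δ3, -, hun⟩ := etale_dual (D.W s).z (D.W s).et (D.f s)
      (fun j => (θ.δ s ((D.W s).z j)).snd)
    have e1 : δ = θ.δ s := by
      rw [hun (θ.δ s) ⟨θ.h s hs, fun j => rfl⟩]
      apply hun
      refine ⟨fun b => by rw [hδ1, (hφ' s hs).1], fun j => ?_⟩
      rw [hδ2, hcf s hs, hac0]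
    intro b
    rw [← hδ2, e1]
  · intro s hs j i hi
    obtain ⟨i, rfl⟩ := Nat.exists_eq_succ_of_ne_zero (show i ≠ 0 by omega)
    rw [Nat.succ_eq_add_one, hcf s hs]
    exact hvan s hs j i (by omega)

end Pool.Agent.H19VF
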