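import Pool.Agent.H19VF.Fam
import Pool.Agent.H19VF.I_Deform
import Pool.Agent.H19VF.F_Pt

/-! # Task J1a: local data of a curve over `k`, definitions and basic properties -/

set_option autoImplicit false

open AlgebraicGeometry CategoryTheory Polynomial

universe u

namespace Pool.Agent.H19VF

variable {k : Type u} [Field k] {V : Scheme.{u}} {π : V ⟶ Spec (.of k)}

/-- `k[y] → k(y)`. -/
noncomputable def ratY (k : Type u) [Field k] : k[X] →ₐ[k] RatFunc k :=
  Polynomial.aeval (polR (X : k[X]))

/-- `k[w] → k(y)`, `w = 1 / y`. -/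
noncomputable def ratW (k : Type u) [Field k] : k[X] →ₐ[k] RatFunc k :=
  Polynomial.aeval (polR (X : k[X]))⁻¹

/-- The map of dual numbers induced by a homomorphism of `k`-algebras. -/
noncomputable def dmap {R R' : Type u} [CommRing R] [Algebra k R] [CommRing R'] [Algebra k R']
    (φ : R →ₐ[k] R') : DualNumber R →ₐ[k] DualNumber R' where
  toFun x := TrivSqZeroExt.inl (φ x.fst) + TrivSqZeroExt.inr (φ x.snd)
  map_one' := by ext <;> simp
  map_mul' x y := by ext <;> simp [mul_comm]
  map_zero' := by ext <;> simp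
  map_add' x y := by ext <;> simp
  commutes' r := by ext <;> simp [TrivSqZeroExt.algebraMap_eq_inl']

@[simp] lemma dmap_fst {R R' : Type u} [CommRing R] [Algebra k R] [CommRing R'] [Algebra k R']
    (φ : R →ₐ[k] R') (x : DualNumber R) : (dmap φ x).fst = φ x.fst := by simp [dmap]

@[simp] lemma dmap_snd {R R' : Type u} [CommRing R] [Algebra k R] [CommRing R'] [Algebra k R']
    (φ : R →ₐ[k] R') (x : DualNumber R) : (dmap φ x).snd = φ x.snd := by simp [dmap]

/-- `k[ε][y] → k(y)[ε]`. -/
noncomputable def ratYd (k : Type u) [Field k] : (DualNumber k)[X] →ₐ[k] DualNumber (RatFunc k) :=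
  AlgHom.mk (Polynomial.eval₂RingHom
    (dmap (k := k) (IsScalarTower.toAlgHom k k (RatFunc k))).toRingHom
    (TrivSqZeroExt.inl (polR (X : k[X])))) (by
      intro r
      change Polynomial.eval₂ _ _ (algebraMap k (DualNumber k)[X] r) = _
      rw [Polynomial.algebraMap_apply, Polynomial.eval₂_C]
      exact (dmap (k := k) (IsScalarTower.toAlgHom k k (RatFunc k))).commutes r)

/-- `k[ε][w] → k(y)[ε]`. -/
noncomputable def ratWd (k : Type u) [Field k] : (DualNumber k)[X] →ₐ[k] DualNumber (RatFunc k) :=
  AlgHom.mk (Polynomial.eval₂RingHom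
    (dmap (k := k) (IsScalarTower.toAlgHom k k (RatFunc k))).toRingHom
    (TrivSqZeroExt.inl (polR (X : k[X]))⁻¹)) (by
      intro r
      change Polynomial.eval₂ _ _ (algebraMap k (DualNumber k)[X] r) = _
      rw [Polynomial.algebraMap_apply, Polynomial.eval₂_C]
      exact (dmap (k := k) (IsScalarTower.toAlgHom k k (RatFunc k))).commutes r)

/-- The homomorphism `R[X] → R[X]`, `X ↦ X ^ N`. -/
noncomputable def powX (k : Type u) [Field k] (R : Type u) [CommRing R] [Algebra k R] (N : ℕ) :
    R[X] →ₐ[k] R[X] :=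
  (Polynomial.aeval (X ^ N : R[X]) : R[X] →ₐ[R] R[X]).restrictScalars k

/-- The homomorphism of Laurent polynomials `T ↦ T ^ N`. -/
noncomputable def J1lpow (k : Type u) [Field k] (R : Type u) [CommRing R] [Algebra k R] (N : ℕ) :
    LaurentPolynomial R →ₐ[k] LaurentPolynomial R :=
  (AddMonoidAlgebra.mapDomainAlgHom R R (AddMonoidHom.mulLeft (N : ℤ))).restrictScalars k

theorem J1lpow_T {R : Type u} [CommRing R] [Algebra k R] (N : ℕ) (n : ℤ) :
    J1lpow k R N (LaurentPolynomial.T n) = LaurentPolynomial.T (N * n) := by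
  change AddMonoidAlgebra.mapDomain _ (AddMonoidAlgebra.single n (1 : R)) = _
  rw [AddMonoidAlgebra.mapDomain_single]
  rfl

theorem J1lpow_C {R : Type u} [CommRing R] [Algebra k R] (N : ℕ) (a : R) :
    J1lpow k R N (LaurentPolynomial.C a) = LaurentPolynomial.C a := by
  change AddMonoidAlgebra.mapDomain _ (AddMonoidAlgebra.single (0 : ℤ) a) = _
  rw [AddMonoidAlgebra.mapDomain_single, map_zero]
  rfl

/-- Two `k`-algebra homomorphisms from a polynomial ring agree if they agree on constants and on
the variable. -/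
theorem J1ext {R S : Type u} [CommRing R] [Algebra k R] [CommRing S] [Algebra k S]
    {f g : R[X] →ₐ[k] S} (h1 : ∀ a, f (C a) = g (C a)) (h2 : f X = g X) : f = g := by
  apply AlgHom.coe_ringHom_injective
  exact Polynomial.ringHom_ext h1 h2

@[simp] theorem J1lauY_C {R : Type u} [CommRing R] [Algebra k R] (a : R) :
    lauY k R (C a) = LaurentPolynomial.C a :=
  (Polynomial.aeval_C _ _).trans rfl

@[simp] theorem J1lauY_X {R : Type u} [CommRing R] [Algebra k R] :
    lauY k R X = LaurentPolynomial.T 1 := Polynomial.aeval_X _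

@[simp] theorem J1lauW_C {R : Type u} [CommRing R] [Algebra k R] (a : R) :
    lauW k R (C a) = LaurentPolynomial.C a :=
  (Polynomial.aeval_C _ _).trans rfl

@[simp] theorem J1lauW_X {R : Type u} [CommRing R] [Algebra k R] :
    lauW k R X = LaurentPolynomial.T (-1) := Polynomial.aeval_X _

@[simp] theorem J1powX_C {R : Type u} [CommRing R] [Algebra k R] (N : ℕ) (a : R) :
    powX k R N (C a) = C a := Polynomial.aeval_C _ _

@[simp] theorem J1powX_X {R : Type u} [CommRing R] [Algebra k R] (N : ℕ) :
    powX k R N X = X ^ N := Polynomial.aeval_X _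

@[simp] theorem J1pmap_C {R R' : Type u} [CommRing R] [Algebra k R] [CommRing R'] [Algebra k R']
    (φ : R →ₐ[k] R') (a : R) : pmap φ (C a) = C (φ a) := Polynomial.map_C _

@[simp] theorem J1pmap_X {R R' : Type u} [CommRing R] [Algebra k R] [CommRing R'] [Algebra k R']
    (φ : R →ₐ[k] R') : pmap φ X = X := Polynomial.map_X _

@[simp] theorem J1evk_C {R : Type u} [CommRing R] [Algebra k R] (a : k) (b : R) :
    evk a (C b) = b := Polynomial.aeval_C _ _

@[simp] theorem J1evk_X {R : Type u} [CommRing R] [Algebra k R] (a : k) :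
    evk a (X : R[X]) = algebraMap k R a := Polynomial.aeval_X _

/-- Composition of a curve with the morphism `y ↦ y ^ N`. -/
noncomputable def Crv.pow {R : Type u} [CommRing R] [Algebra k R] (F : Crv π R) (N : ℕ) :
    Crv π R where
  y := F.y.map (powX k R N)
  w := F.w.map (powX k R N)
  glue := by
    have h1 : (lauY k R).comp (powX k R N) = (J1lpow k R N).comp (lauY k R) := by
      apply J1ext
      · intro a
        simp [J1lpow_C]
      · simp [J1lpow_T, LaurentPolynomial.T_pow]
    have h2 : (lauW k R).comp (powX k R N) = (J1lpow k R N).comp (lauW k R) := by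
      apply J1ext
      · intro a
        simp [J1lpow_C]
      · simp [J1lpow_T, LaurentPolynomial.T_pow]
    rw [Pt.map_map, Pt.map_map, h1, h2, ← Pt.map_map, ← Pt.map_map, F.glue]

theorem Crv.pow_map {R R' : Type u} [CommRing R] [Algebra k R] [CommRing R'] [Algebra k R']
    (F : Crv π R) (φ : R →ₐ[k] R') (N : ℕ) : (F.pow N).map φ = (F.map φ).pow N := by
  have h : (pmap φ).comp (powX k R N) = (powX k R' N).comp (pmap φ) := by
    apply J1ext
    · intro a
      simp only [AlgHom.comp_apply, J1powX_C, J1pmap_C]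
    · simp only [AlgHom.comp_apply, J1powX_X, J1pmap_X, map_pow]
  apply Crv.ext
  · change (F.y.map (powX k R N)).map (pmap φ) = (F.y.map (pmap φ)).map (powX k R' N)
    rw [Pt.map_map, Pt.map_map, h]
  · change (F.w.map (powX k R N)).map (pmap φ) = (F.w.map (pmap φ)).map (powX k R' N)
    rw [Pt.map_map, Pt.map_map, h]

theorem Crv.pow_at_some {R : Type u} [CommRing R] [Algebra k R] (F : Crv π R) (N : ℕ) (a : k) :
    (F.pow N).at (some a) = F.at (some (a ^ N)) := by
  have h : (evk a).comp (powX k R N) = evk (a ^ N) := by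
    apply J1ext
    · intro b
      simp only [AlgHom.comp_apply, J1powX_C, J1evk_C]
    · simp only [AlgHom.comp_apply, J1powX_X, J1evk_X, map_pow]
  change (F.y.map (powX k R N)).map (evk a) = F.y.map (evk (a ^ N))
  rw [Pt.map_map, h]

theorem Crv.pow_at_none {R : Type u} [CommRing R] [Algebra k R] (F : Crv π R) (N : ℕ)
    (hN : 1 ≤ N) : (F.pow N).at none = F.at none := by
  have h : (evk 0).comp (powX k R N) = evk (0 : k) := by
    apply J1ext
    · intro b
      simp only [AlgHom.comp_apply, J1powX_C, J1evk_C]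
    · simp only [AlgHom.comp_apply, J1powX_X, J1evk_X, map_pow, map_zero]
      exact zero_pow (by omega)
  change (F.w.map (powX k R N)).map (evk 0) = F.w.map (evk 0)
  rw [Pt.map_map, h]

/-- The chart data `D` describe the curve `F`; the coordinates at the points of `S ∪ {∞}` are
centered. -/
structure LocData.Of {n : ℕ} (D : LocData π n k) (F : Crv π k) : Prop where
  hy : F.y.map (ratY k) = D.W1.pt.map D.f1
  hw : F.w.map (ratW k) = D.W1.pt.map D.f1
  hat : ∀ s, InS D.S s → ∃ ν : (D.W s).B →ₐ[k] k, F.at s = (D.W s).pt.map ν ∧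
    (∀ b, Van s 1 (D.f s b - polR (C (ν b)))) ∧ ∀ j, ν ((D.W s).z j) = 0

theorem J1map_polR {k κ : Type u} [Field k] [Field κ] (φ : k[X] →+* κ[X])
    (hφ : nonZeroDivisors k[X] ≤ (nonZeroDivisors κ[X]).comap φ) (p : k[X]) :
    RatFunc.mapRingHom φ hφ (polR p) = polR (φ p) := by
  have h := RatFunc.map_apply_div φ hφ p 1
  rw [map_one, map_one, map_one, div_one, div_one] at h
  exact h

/-- The inclusion `k(y) → κ(y)`. -/
noncomputable def rbase (k κ : Type u) [Field k] [Field κ] [Algebra k κ] :
    RatFunc k →ₐ[k] RatFunc κ :=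
  AlgHom.mk (RatFunc.mapRingHom (Polynomial.mapRingHom (algebraMap k κ)) (by
    intro p hp
    rw [Submonoid.mem_comap, mem_nonZeroDivisors_iff_ne_zero]
    rw [mem_nonZeroDivisors_iff_ne_zero] at hp
    exact fun h => hp ((Polynomial.map_eq_zero_iff (algebraMap k κ).injective).1 h))) (by
    intro r
    have h1 : algebraMap k (RatFunc k) r = algebraMap k[X] (RatFunc k) (C r) := by
      rw [IsScalarTower.algebraMap_apply k k[X] (RatFunc k)]; rfl
    have h2 : algebraMap k (RatFunc κ) r = algebraMap κ[X] (RatFunc κ) (C (algebraMap k κ r)) := by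
      rw [IsScalarTower.algebraMap_apply k κ[X] (RatFunc κ)]; rfl
    rw [h1, h2]
    refine (J1map_polR _ _ (C r)).trans ?_
    rw [Polynomial.coe_mapRingHom, Polynomial.map_C])

theorem rbase_polR {κ : Type u} [Field κ] [Algebra k κ] (p : k[X]) :
    rbase k κ (polR p) = polR (p.map (algebraMap k κ)) :=
  J1map_polR _ _ p

theorem J1rbase_unif {κ : Type u} [Field κ] [Algebra k κ] (s : Option k) :
    rbase k κ (unif s) = unif (s.map (algebraMap k κ)) := by
  cases s with
  | none =>
    change rbase k κ (polR X)⁻¹ = (polR X)⁻¹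
    rw [map_inv₀, rbase_polR, Polynomial.map_X]
  | some a =>
    change rbase k κ (polR (X - C a)) = polR (X - C (algebraMap k κ a))
    rw [rbase_polR, Polynomial.map_sub, Polynomial.map_X, Polynomial.map_C]

theorem J1rbase_regAt {κ : Type u} [Field κ] [Algebra k κ] (s : Option k) (g : RatFunc k)
    (h : g ∈ regAt s) : rbase k κ g ∈ regAt (s.map (algebraMap k κ)) := by
  cases s with
  | none =>
    obtain ⟨p, q, hq, hd, h⟩ := h
    refine ⟨p.map (algebraMap k κ), q.map (algebraMap k κ),
      (Polynomial.map_ne_zero_iff (algebraMap k κ).injective).2 hq, ?_, ?_⟩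
    · rw [Polynomial.natDegree_map, Polynomial.natDegree_map]; exact hd
    · rw [← rbase_polR, ← rbase_polR, ← map_mul, h]
  | some a =>
    obtain ⟨p, q, hq, h⟩ := h
    refine ⟨p.map (algebraMap k κ), q.map (algebraMap k κ), ?_, ?_⟩
    · rw [Polynomial.eval_map_algebraMap, Polynomial.aeval_algebraMap_apply]
      intro h0
      apply hq
      apply (algebraMap k κ).injective
      rw [map_zero, ← h0]
      rfl
    · rw [← rbase_polR, ← rbase_polR, ← map_mul, h]

theorem J1rbase_regOff {κ : Type u} [Field κ] [Algebra k κ] [DecidableEq κ] (S : Finset k)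
    (g : RatFunc k) (h : g ∈ regOff S) : rbase k κ g ∈ regOff (S.image (algebraMap k κ)) := by
  obtain ⟨p, N, h⟩ := h
  refine ⟨p.map (algebraMap k κ), N, ?_⟩
  have h1 : (∏ s ∈ S.image (algebraMap k κ), (X - C s))
      = (∏ s ∈ S, (X - C s)).map (algebraMap k κ) := by
    rw [Polynomial.map_prod, Finset.prod_image fun a _ b _ hab => (algebraMap k κ).injective hab]
    refine Finset.prod_congr rfl fun s _ => ?_
    rw [Polynomial.map_sub, Polynomial.map_X, Polynomial.map_C]
  rw [h1, ← rbase_polR, ← rbase_polR, ← h, map_mul, map_pow]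

theorem rbase_van {κ : Type u} [Field κ] [Algebra k κ] (s : Option k) (m : ℤ) (g : RatFunc k)
    (h : Van s m g) : Van (s.map (algebraMap k κ)) m (rbase k κ g) := by
  have h1 := J1rbase_regAt (κ := κ) s _ h
  rw [map_mul, map_zpow₀, J1rbase_unif] at h1
  exact h1

open Classical in
/-- A partial inverse of the inclusion of the `k`-points in the `κ`-points of the projective
line. -/
noncomputable def back (k κ : Type u) [Field k] [Field κ] [Algebra k κ] (s : Option κ) : Option k :=
  if h : ∃ s' : Option k, s'.map (algebraMap k κ) = s then h.choose else none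

@[simp] theorem back_map {κ : Type u} [Field κ] [Algebra k κ] (s : Option k) :
    back k κ (s.map (algebraMap k κ)) = s := by
  have h : ∃ s' : Option k, s'.map (algebraMap k κ) = s.map (algebraMap k κ) := ⟨s, rfl⟩
  unfold back
  rw [dif_pos h]
  exact Option.map_injective (algebraMap k κ).injective h.choose_spec

open Classical in
theorem J1inS {κ : Type u} [Field κ] [Algebra k κ] {S : Finset k} {s : Option κ}
    (h : InS (S.image (algebraMap k κ)) s) :
    ∃ s' : Option k, InS S s' ∧ s = s'.map (algebraMap k κ) := by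
  cases s with
  | none => exact ⟨none, fun a ha => by simp at ha, rfl⟩
  | some a =>
    obtain ⟨b, hb, hba⟩ := Finset.mem_image.1 (h a rfl)
    refine ⟨some b, fun c hc => ?_, by rw [← hba]; rfl⟩
    rw [← Option.some.inj hc]; exact hb

open Classical in
theorem J1inS' {κ : Type u} [Field κ] [Algebra k κ] {S : Finset k} {s : Option k}
    (h : InS S s) : InS (S.image (algebraMap k κ)) (s.map (algebraMap k κ)) := by
  cases s with
  | none => intro a ha; simp at ha
  | some b =>
    intro a ha
    rw [← Option.some.inj ha]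
    exact Finset.mem_image_of_mem _ (h b rfl)

open Classical in
/-- Extension of the base field for chart data. -/
noncomputable def LocData.base {n : ℕ} (D : LocData π n k) (κ : Type u) [Field κ] [Algebra k κ] :
    LocData π n κ where
  S := D.S.image (algebraMap k κ)
  W1 := D.W1
  f1 := (rbase k κ).comp D.f1
  hf1 b := J1rbase_regOff D.S _ (D.hf1 b)
  W s := D.W (back k κ s)
  f s := (rbase k κ).comp (D.f (back k κ s))
  hf := by
    intro s hs b
    obtain ⟨s', hs', rfl⟩ := J1inS hs
    have hs'' : InS D.S (back k κ (s'.map (algebraMap k κ))) := by rwa [back_map]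
    have h1 := J1rbase_regAt (κ := κ) _ _ (D.hf _ hs'' b)
    have h2 : (back k κ (s'.map (algebraMap k κ))).map (algebraMap k κ)
        = s'.map (algebraMap k κ) := by rw [back_map]
    rw [h2] at h1
    exact h1
  same := by
    intro s hs
    obtain ⟨s', hs', rfl⟩ := J1inS hs
    have hs'' : InS D.S (back k κ (s'.map (algebraMap k κ))) := by rwa [back_map]
    rw [← Pt.map_map, ← Pt.map_map, D.same _ hs'']

/-- Extension of the base field for sections. -/
noncomputable def Sec.base {n : ℕ} {D : LocData π n k} (σ : Sec D) (κ : Type u) [Field κ]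
    [Algebra k κ] : Sec (D.base κ) where
  δ1 := (dmap (rbase k κ)).comp σ.δ1
  h1 b := (dmap_fst (rbase k κ) (σ.δ1 b)).trans (congrArg (rbase k κ) (σ.h1 b))
  r1 := by
    classical
    intro b
    have h1 := J1rbase_regOff (κ := κ) D.S _ (σ.r1 b)
    have h2 : (dmap (rbase k κ) (σ.δ1 b)).snd = rbase k κ (σ.δ1 b).snd := dmap_snd _ _
    rw [← h2] at h1
    convert h1
    · exact Finset.image_congr fun _ _ => rfl
    · rfl
  δ s := (dmap (rbase k κ)).comp (σ.δ (back k κ s))
  h := by
    intro s hs b
    obtain ⟨s', hs', rfl⟩ := J1inS hs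
    have hs'' : InS D.S (back k κ (s'.map (algebraMap k κ))) := by rwa [back_map]
    exact (dmap_fst (rbase k κ) (σ.δ (back k κ (s'.map (algebraMap k κ))) b)).trans
      (congrArg (rbase k κ) (σ.h _ hs'' b))
  r := by
    intro s hs b
    obtain ⟨s', hs', rfl⟩ := J1inS hs
    have hs'' : InS D.S (back k κ (s'.map (algebraMap k κ))) := by rwa [back_map]
    change (dmap (rbase k κ) (σ.δ (back k κ (s'.map (algebraMap k κ))) b)).snd ∈ _
    rw [dmap_snd]
    have h1 := J1rbase_regAt (κ := κ) _ _ (σ.r _ hs'' b)
    have h2 : (back k κ (s'.map (algebraMap k κ))).map (algebraMap k κ)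
        = s'.map (algebraMap k κ) := by rw [back_map]
    rw [h2] at h1
    exact h1
  same := by
    intro s hs
    obtain ⟨s', hs', rfl⟩ := J1inS hs
    have hs'' : InS D.S (back k κ (s'.map (algebraMap k κ))) := by rwa [back_map]
    change (D.W (back k κ (s'.map (algebraMap k κ)))).pt.map
      ((dmap (rbase k κ)).comp (σ.δ (back k κ (s'.map (algebraMap k κ)))))
      = D.W1.pt.map ((dmap (rbase k κ)).comp σ.δ1)
    rw [← Pt.map_map, ← Pt.map_map, σ.same _ hs'']

end Pool.Agent.H19VF
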