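import Pool.Agent.H19VF.J1_Loc

/-! # Task J1b: existence of chart data of a curve -/

set_option autoImplicit false

open AlgebraicGeometry CategoryTheory Polynomial

universe u

namespace Pool.Agent.H19VF

variable {k : Type u} [Field k] {V : Scheme.{u}} {π : V ⟶ Spec (.of k)}

/-- The point at the generic point of the line, in the coordinate `y` and in the coordinate `w`. -/
theorem J_polX_ne : polR (X : k[X]) ≠ 0 :=
  (map_ne_zero_iff _ (IsFractionRing.injective k[X] (RatFunc k))).2 X_ne_zero

/-- Laurent polynomials as rational functions. -/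
noncomputable def J_lau (k : Type u) [Field k] : LaurentPolynomial k →ₐ[k] RatFunc k :=
  { LaurentPolynomial.eval₂ (algebraMap k (RatFunc k)) (Units.mk0 _ (J_polX_ne (k := k))) with
    commutes' := fun r => by
      change LaurentPolynomial.eval₂ _ _ (algebraMap k (LaurentPolynomial k) r) = _
      rw [LaurentPolynomial.algebraMap_apply]
      exact LaurentPolynomial.eval₂_C _ _ _ }

theorem J_lau_T (n : ℤ) : J_lau k (LaurentPolynomial.T n) =
    ((Units.mk0 _ (J_polX_ne (k := k)) ^ n : (RatFunc k)ˣ) : RatFunc k) :=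
  LaurentPolynomial.eval₂_T _ _ _

theorem J_lauY : (J_lau k).comp (lauY k k) = ratY k := by
  apply Polynomial.algHom_ext
  rw [AlgHom.comp_apply]
  have h1 : lauY k k X = LaurentPolynomial.T 1 := Polynomial.aeval_X _
  rw [h1, J_lau_T, zpow_one]
  exact (Polynomial.aeval_X _).symm

theorem J_lauW : (J_lau k).comp (lauW k k) = ratW k := by
  apply Polynomial.algHom_ext
  rw [AlgHom.comp_apply]
  have h1 : lauW k k X = LaurentPolynomial.T (-1) := Polynomial.aeval_X _
  rw [h1, J_lau_T, zpow_neg, zpow_one, Units.val_inv_eq_inv_val]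
  exact (Polynomial.aeval_X _).symm

theorem J_glue (F : Crv π k) : F.y.map (ratY k) = F.w.map (ratW k) := by
  have h := congrArg (fun p => Pt.map p (J_lau k)) F.glue
  simp only [Pt.map_map] at h
  rwa [J_lauY, J_lauW] at h

/-- the `k`-algebra structure on the local ring -/
noncomputable instance J_alg (s : Option k) : Algebra k (regAt s) :=
  RingHom.toAlgebra
    ({ toFun := fun a => ⟨polR (C a), polR_C_mem s a⟩
       map_one' := Subtype.ext (by simp)
       map_mul' := fun a b => Subtype.ext (by simp)
       map_zero' := Subtype.ext (by simp)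
       map_add' := fun a b => Subtype.ext (by simp) } : k →+* regAt s)

theorem J_alg_apply (s : Option k) (a : k) :
    (algebraMap k (regAt s) a : RatFunc k) = polR (C a) := rfl

/-- the inclusion of the local ring -/
noncomputable def J_sub (s : Option k) : regAt s →ₐ[k] RatFunc k :=
  { (regAt s).subtype with
    commutes' := fun r => by
      change (algebraMap k (regAt s) r : RatFunc k) = _
      rw [J_alg_apply, IsScalarTower.algebraMap_apply k k[X] (RatFunc k)]
      rfl }

theorem J_sub_apply (s : Option k) (g : regAt s) : J_sub s g = (g : RatFunc k) := rfl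

theorem J_exists_residue (s : Option k) : ∃ ρ : regAt s →ₐ[k] k,
    ∀ g : regAt s, ρ g = 0 ↔ Van s 1 (g : RatFunc k) := by
  obtain ⟨ρ, h1, h2⟩ := exists_residue s
  refine ⟨{ ρ with commutes' := fun r => ?_ }, h2⟩
  exact h1 r

theorem J_isLocal (s : Option k) : IsLocalRing (regAt s) := by
  obtain ⟨ρ, h2⟩ := J_exists_residue s
  have hu : ∀ g : regAt s, ρ g ≠ 0 → IsUnit g := by
    intro g hg
    have h3 : ¬ Van s 1 (g : RatFunc k) := fun h => hg ((h2 g).2 h)
    have h4 := regAt_inv g.2 h3
    have h5 : (g : RatFunc k) ≠ 0 := by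
      intro h0
      apply hg
      have : g = 0 := Subtype.ext h0
      rw [this, map_zero]
    exact IsUnit.of_mul_eq_one (⟨_, h4⟩ : regAt s) (Subtype.ext (mul_inv_cancel₀ h5))
  have : Nontrivial (regAt s) := ⟨⟨0, 1, fun h => by
    have := congrArg ρ h
    rw [map_zero, map_one] at this
    exact zero_ne_one this⟩⟩
  refine IsLocalRing.of_isUnit_or_isUnit_one_sub_self fun a => ?_
  by_cases ha : ρ a = 0
  · right
    apply hu
    rw [map_sub, map_one, ha, sub_zero]
    exact one_ne_zero
  · exact Or.inl (hu a ha)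

/-- the parameter of the local ring -/
noncomputable def J_gen : (s : Option k) → regAt s
  | some a => ⟨polR X, polR_mem_regFin a X⟩
  | none => ⟨(polR (X : k[X]))⁻¹, 1, X, X_ne_zero, by simp, by
      rw [inv_mul_cancel₀ J_polX_ne, map_one]⟩

/-- the map from the coordinate ring of the line to the local ring -/
noncomputable def J_par (s : Option k) : k[X] →ₐ[k] regAt s := Polynomial.aeval (J_gen s)

/-- the local point of the curve -/
noncomputable def J_pt (F : Crv π k) : (s : Option k) → Pt π (regAt s)
  | some a => F.y.map (J_par (some a))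
  | none => F.w.map (J_par none)

theorem J_pt_sub (F : Crv π k) (s : Option k) : (J_pt F s).map (J_sub s) = F.y.map (ratY k) := by
  cases s with
  | none =>
    rw [J_glue]
    change (F.w.map (J_par none)).map (J_sub none) = _
    rw [Pt.map_map]
    congr 1
    apply Polynomial.algHom_ext
    rw [AlgHom.comp_apply]
    have h1 : J_par none X = J_gen (none : Option k) := Polynomial.aeval_X _
    rw [h1]
    exact (Polynomial.aeval_X _).symm
  | some a =>
    change (F.y.map (J_par (some a))).map (J_sub (some a)) = _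
    rw [Pt.map_map]
    congr 1
    apply Polynomial.algHom_ext
    rw [AlgHom.comp_apply]
    have h1 : J_par (some a) X = J_gen (some a) := Polynomial.aeval_X _
    rw [h1]
    exact (Polynomial.aeval_X _).symm

theorem J_pt_res (F : Crv π k) (s : Option k) (ρ : regAt s →ₐ[k] k)
    (h : ∀ g : regAt s, ρ g = 0 ↔ Van s 1 (g : RatFunc k)) : (J_pt F s).map ρ = F.at s := by
  cases s with
  | none =>
    change (F.w.map (J_par none)).map ρ = F.w.map (evk 0)
    rw [Pt.map_map]
    congr 1
    apply Polynomial.algHom_ext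
    rw [AlgHom.comp_apply]
    have h1 : J_par none X = J_gen (none : Option k) := Polynomial.aeval_X _
    have h2 : evk (k := k) (R := k) 0 X = algebraMap k k 0 := Polynomial.aeval_X _
    rw [h1, h2, map_zero]
    rw [h]
    change (polR (X : k[X]))⁻¹ * ((polR (X : k[X]))⁻¹) ^ (-(1 : ℤ)) ∈ _
    rw [zpow_neg_one, mul_inv_cancel₀ (inv_ne_zero J_polX_ne)]
    exact Subring.one_mem _
  | some a =>
    change (F.y.map (J_par (some a))).map ρ = F.y.map (evk a)
    rw [Pt.map_map]
    congr 1
    apply Polynomial.algHom_ext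
    rw [AlgHom.comp_apply]
    have h1 : J_par (some a) X = J_gen (some a) := Polynomial.aeval_X _
    have h2 : evk (k := k) (R := k) a X = algebraMap k k a := Polynomial.aeval_X _
    rw [h1, h2, ← sub_eq_zero]
    have h3 : ρ (J_gen (some a) - algebraMap k (regAt (some a)) a) = 0 := by
      rw [h]
      change (polR (X : k[X]) - polR (C a)) * (polR (X - C a)) ^ (-(1 : ℤ)) ∈ _
      rw [← map_sub, zpow_neg_one, mul_inv_cancel₀]
      · exact Subring.one_mem _
      · exact (map_ne_zero_iff _ (IsFractionRing.injective k[X] (RatFunc k))).2 (X_sub_C_ne_zero a)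
    rw [map_sub, AlgHom.commutes] at h3
    exact h3

/-- translation of etale coordinates -/
theorem J_transl {n : ℕ} {B : Type u} [CommRing B] [Algebra k B] {z : Fin n → B}
    (hz : IsEtaleCoord k z) (c : Fin n → k) :
    IsEtaleCoord k fun j => z j - algebraMap k B (c j) := by
  unfold IsEtaleCoord at hz ⊢
  obtain ⟨τ, hτ⟩ : ∃ τ : MvPolynomial (Fin n) k →ₐ[k] MvPolynomial (Fin n) k,
      τ = MvPolynomial.aeval (fun j => MvPolynomial.X j - MvPolynomial.C (c j)) := ⟨_, rfl⟩
  obtain ⟨τ', hτ'⟩ : ∃ τ' : MvPolynomial (Fin n) k →ₐ[k] MvPolynomial (Fin n) k,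
      τ' = MvPolynomial.aeval (fun j => MvPolynomial.X j + MvPolynomial.C (c j)) := ⟨_, rfl⟩
  have h1 : τ.comp τ' = AlgHom.id k _ := by
    apply MvPolynomial.algHom_ext
    intro j
    rw [hτ, hτ', AlgHom.comp_apply, MvPolynomial.aeval_X, map_add, MvPolynomial.aeval_X,
      MvPolynomial.aeval_C]
    simp
  have h2 : τ'.comp τ = AlgHom.id k _ := by
    apply MvPolynomial.algHom_ext
    intro j
    rw [hτ, hτ', AlgHom.comp_apply, MvPolynomial.aeval_X, map_sub, MvPolynomial.aeval_X,
      MvPolynomial.aeval_C]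
    simp
  have hbij : Function.Bijective τ.toRingHom := by
    constructor
    · intro x y hxy
      have hxy' : τ x = τ y := hxy
      have := congrArg τ' hxy'
      rw [← AlgHom.comp_apply, ← AlgHom.comp_apply, h2] at this
      exact this
    · intro x
      refine ⟨τ' x, ?_⟩
      change τ (τ' x) = x
      rw [← AlgHom.comp_apply, h1]
      rfl
  have h3 : (MvPolynomial.aeval (fun j => z j - algebraMap k B (c j)) :
      MvPolynomial (Fin n) k →ₐ[k] B) = (MvPolynomial.aeval z).comp τ := by
    apply MvPolynomial.algHom_ext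
    intro j
    rw [hτ, AlgHom.comp_apply, MvPolynomial.aeval_X, MvPolynomial.aeval_X, map_sub,
      MvPolynomial.aeval_X, MvPolynomial.aeval_C]
  rw [h3]
  exact RingHom.Etale.stableUnderComposition _ _ (RingHom.Etale.of_bijective hbij) hz

/-- centering of a chart -/
noncomputable def J_cent {n : ℕ} (W : EChart π n) (c : Fin n → k) : EChart π n :=
  { W.toChart with
    z := fun j => W.z j - algebraMap k W.B (c j)
    et := J_transl W.et c }

theorem J_multiset_dvd {m : Multiset k} {P : k[X]} (h : ∀ a ∈ m, (X - C a) ∣ P) :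
    (m.map (fun a => X - C a)).prod ∣ P ^ (Multiset.card m) := by
  induction m using Multiset.induction_on with
  | empty => simp
  | cons a m ih =>
    rw [Multiset.map_cons, Multiset.prod_cons, Multiset.card_cons, pow_succ, mul_comm]
    exact mul_dvd_mul (ih fun b hb => h b (Multiset.mem_cons_of_mem hb))
      (h a (Multiset.mem_cons_self a m))

theorem J_exists_chart [IsAlgClosed k] (F : Crv π k) (S0 : Finset k)
    (W : Chart π) [FT : Algebra.FiniteType k W.B] (f1 : W.B →ₐ[k] RatFunc k)
    (h1 : F.y.map (ratY k) = W.pt.map f1) :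
    ∃ S : Finset k, S0 ⊆ S ∧ ∀ b, f1 b ∈ regOff S := by
  classical
  have hrat : ratY k = IsScalarTower.toAlgHom k k[X] (RatFunc k) := by
    apply Polynomial.algHom_ext
    have : ratY k X = polR X := Polynomial.aeval_X _
    rw [this]
    rfl
  rw [hrat] at h1
  obtain ⟨g, hg, φ, hφ⟩ := W.factor_generic (R := k[X]) (Q := RatFunc k) F.y f1 h1
  have hinj := IsFractionRing.injective k[X] (RatFunc k)
  have hgu : IsUnit (polR g) := isUnit_iff_ne_zero.2 ((map_ne_zero_iff _ hinj).2 hg)
  obtain ⟨e, he⟩ : ∃ e : Localization.Away g →ₐ[k] RatFunc k,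
      ∀ p : k[X], e (algebraMap k[X] (Localization.Away g) p) = polR p := by
    refine ⟨{ (IsLocalization.Away.lift (S := Localization.Away g) g
      (g := (polR : k[X] →+* RatFunc k)) hgu) with commutes' := fun r => ?_ }, fun p => ?_⟩
    · change IsLocalization.Away.lift g hgu (algebraMap k (Localization.Away g) r) = _
      rw [IsScalarTower.algebraMap_apply k k[X] (Localization.Away g), IsLocalization.Away.lift_eq,
        IsScalarTower.algebraMap_apply k k[X] (RatFunc k)]
    · exact IsLocalization.Away.lift_eq g hgu p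
  have h2 : f1 = e.comp φ := by
    apply W.map_injective
    have h3 := congrArg (fun p => Pt.map p e) hφ
    simp only [Pt.map_map] at h3
    rw [← h3, ← h1]
    congr 1
    apply Polynomial.algHom_ext
    rw [AlgHom.comp_apply]
    exact (he X).symm
  refine ⟨S0 ∪ g.roots.toFinset, Finset.subset_union_left, fun b => ?_⟩
  obtain ⟨P, hP⟩ : ∃ P : k[X], P = ∏ s ∈ S0 ∪ g.roots.toFinset, (X - C s) := ⟨_, rfl⟩
  obtain ⟨r, hr⟩ : ∃ r, P ^ (Multiset.card g.roots) = g * r := by
    have h4 : (g.roots.map (fun a => X - C a)).prod ∣ P ^ (Multiset.card g.roots) := by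
      apply J_multiset_dvd
      intro a ha
      rw [hP]
      exact Finset.dvd_prod_of_mem _ (Finset.mem_union_right _ (Multiset.mem_toFinset.2 ha))
    have h5 : g = C g.leadingCoeff * (g.roots.map (fun a => X - C a)).prod :=
      (IsAlgClosed.splits g).eq_prod_roots
    have h6 : g ∣ P ^ (Multiset.card g.roots) := by
      rw [h5]
      have hu : IsUnit (C g.leadingCoeff) :=
        (isUnit_iff_ne_zero.2 (leadingCoeff_ne_zero.2 hg)).map C
      rw [← h5]
      obtain ⟨q, hq⟩ := h4
      obtain ⟨u, hu'⟩ := hu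
      refine ⟨(↑u⁻¹ : k[X]) * q, ?_⟩
      rw [hq]
      conv_rhs => rw [h5, ← hu']
      calc _ = (((u : k[X]) * (↑u⁻¹ : k[X]))) * ((g.roots.map (fun a => X - C a)).prod * q) := by
            rw [Units.mul_inv, one_mul]
        _ = _ := by ring
    exact h6
  obtain ⟨N, a, hNa⟩ := IsLocalization.Away.surj g (φ b)
  refine ⟨a * r ^ N, Multiset.card g.roots * N, ?_⟩
  rw [← hP, pow_mul, ← map_pow, hr, h2, AlgHom.comp_apply]
  have h7 := congrArg e hNa
  rw [map_mul, map_pow, he, he] at h7
  rw [map_mul, map_mul, map_pow, ← h7, mul_pow]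
  ring

/-- Every curve has chart data, with `S` containing a given finite set. -/
theorem exists_locData [IsAlgClosed k] {n : ℕ} [SmoothOfRelativeDimension n π] [IsSeparated π]
    (F : Crv π k) (S0 : Finset k) : ∃ D : LocData π n k, S0 ⊆ D.S ∧ D.Of F := by
  obtain ⟨W1, f1, h1⟩ := exists_echart n (F.y.map (ratY k))
  have hsm : Smooth π := SmoothOfRelativeDimension.smooth n π
  have hlft : LocallyOfFiniteType π := inferInstance
  have hFT := W1.toChart.finiteType
  obtain ⟨S, hS, hf1⟩ := J_exists_chart F S0 W1.toChart f1 h1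
  have hloc : ∀ s : Option k, ∃ (W : EChart π n) (φ : W.B →ₐ[k] regAt s) (ν : W.B →ₐ[k] k),
      J_pt F s = W.pt.map φ ∧ F.at s = W.pt.map ν ∧
        (∀ b, Van s 1 ((φ b : RatFunc k) - polR (C (ν b)))) ∧ ∀ j, ν (W.z j) = 0 := by
    intro s
    have := J_isLocal s
    obtain ⟨W, φ, hφ⟩ := exists_echart n (J_pt F s)
    obtain ⟨ρ, hρ⟩ := J_exists_residue s
    refine ⟨J_cent W (fun j => ρ (φ (W.z j))), φ, ρ.comp φ, hφ, ?_, ?_, ?_⟩
    · rw [← J_pt_res F s ρ hρ, hφ, Pt.map_map]
      rfl
    · intro b
      have h3 := (hρ (φ b - algebraMap k (regAt s) (ρ (φ b)))).1 (by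
        rw [map_sub, AlgHom.commutes]
        exact sub_self _)
      exact h3
    · intro j
      change ρ (φ (W.z j - algebraMap k W.B (ρ (φ (W.z j))))) = 0
      rw [map_sub, map_sub, AlgHom.commutes, AlgHom.commutes]
      exact sub_self _
  choose W φ ν hφ hν hvan hz using hloc
  refine ⟨{ S := S, W1 := W1, f1 := f1, hf1 := hf1, W := W, f := fun s => (J_sub s).comp (φ s),
            hf := fun s _ b => (φ s b).2, same := fun s _ => ?_ }, hS, ?_⟩
  · rw [← h1, ← J_pt_sub F s, hφ s, Pt.map_map]
  · refine ⟨h1, ?_, ?_⟩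
    · rw [← J_glue]
      exact h1
    · intro s _
      exact ⟨ν s, hν s, hvan s, hz s⟩

end Pool.Agent.H19VF
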