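import Pool.Agent.H19VF.J1_Loc

/-! # Task J1c: sections given by first order deformations -/

set_option autoImplicit false

open AlgebraicGeometry CategoryTheory Polynomial

universe u

namespace Pool.Agent.H19VF

variable {k : Type u} [Field k] {V : Scheme.{u}} {π : V ⟶ Spec (.of k)}

/-- A point over the dual numbers lies in a chart if its reduction does. -/
theorem Chart.J1c_lift_dual (W : Chart π) {R : Type u} [CommRing R] [Algebra k R]
    (P : Pt π (DualNumber R)) (φ0 : W.B →ₐ[k] R) (h : P.map (dfst k R) = W.pt.map φ0) :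
    ∃ φ : W.B →ₐ[k] DualNumber R, P = W.pt.map φ ∧ ∀ b, (φ b).fst = φ0 b := by
  have hs : Function.Surjective (dfst k R).toRingHom := fun a =>
    ⟨(TrivSqZeroExt.inl a : DualNumber R), TrivSqZeroExt.fst_inl R a⟩
  have hsurj : Function.Surjective (PrimeSpectrum.comap (dfst k R).toRingHom) := by
    rw [← Set.range_eq_univ, range_comap_of_surjective _ _ hs, Set.eq_univ_iff_forall]
    intro x
    rw [PrimeSpectrum.mem_zeroLocus]
    intro a ha
    have h1 : a.fst = 0 := ha
    have h2 : a * a = 0 := by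
      ext
      · simp [h1]
      · simp [h1]
    have h3 : a * a ∈ x.asIdeal := by rw [h2]; exact zero_mem _
    exact (x.isPrime.mem_or_mem h3).elim id id
  have hr : Set.range P.1 ⊆ Set.range W.pt.1 := by
    rintro _ ⟨x, rfl⟩
    obtain ⟨y, rfl⟩ := hsurj x
    have h2 : Spec.map (CommRingCat.ofHom (dfst k R).toRingHom) ≫ P.1 =
        Spec.map (CommRingCat.ofHom φ0.toRingHom) ≫ W.pt.1 := congrArg Subtype.val h
    have h3 : (Spec.map (CommRingCat.ofHom (dfst k R).toRingHom) ≫ P.1) y =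
        (Spec.map (CommRingCat.ofHom φ0.toRingHom) ≫ W.pt.1) y := by rw [h2]
    exact ⟨_, h3.symm⟩
  obtain ⟨φ, hφ⟩ := W.F3_lift P hr
  refine ⟨φ, hφ, fun b => ?_⟩
  have h4 : (dfst k R).comp φ = φ0 := W.map_injective (by rw [← Pt.map_map, ← hφ, h])
  exact congr($h4 b)

/-- The homomorphism `k[ε][X] → R[ε]`, `X ↦ u`. -/
noncomputable def J1c_dp (k : Type u) [Field k] {R : Type u} [CommRing R] [Algebra k R] (u : R) :
    (DualNumber k)[X] →ₐ[k] DualNumber R :=
  AlgHom.mk (Polynomial.eval₂RingHom (dmap (k := k) (Algebra.ofId k R)).toRingHom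
    (TrivSqZeroExt.inl u)) (by
      intro r
      change Polynomial.eval₂ _ _ (algebraMap k (DualNumber k)[X] r) = _
      rw [Polynomial.algebraMap_apply, Polynomial.eval₂_C]
      exact (dmap (k := k) (Algebra.ofId k R)).commutes r)

section dp

variable {R R' : Type u} [CommRing R] [Algebra k R] [CommRing R'] [Algebra k R']

theorem J1c_dp_C (u : R) (a : DualNumber k) :
    J1c_dp k u (C a) = dmap (Algebra.ofId k R) a := Polynomial.eval₂_C _ _

theorem J1c_dp_X (u : R) : J1c_dp k u X = TrivSqZeroExt.inl u := Polynomial.eval₂_X _ _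

theorem J1c_ext {f g : R[X] →ₐ[k] R'} (hC : ∀ a, f (C a) = g (C a)) (hX : f X = g X) : f = g :=
  AlgHom.coe_ringHom_injective (Polynomial.ringHom_ext hC hX)

theorem J1c_ratYd : ratYd k = J1c_dp k (polR (X : k[X])) := by
  apply J1c_ext
  · intro a
    rw [J1c_dp_C]
    change Polynomial.eval₂ _ _ _ = _
    rw [Polynomial.eval₂_C]
    rfl
  · rw [J1c_dp_X]
    exact Polynomial.eval₂_X _ _

theorem J1c_ratWd : ratWd k = J1c_dp k (polR (X : k[X]))⁻¹ := by
  apply J1c_ext
  · intro a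
    rw [J1c_dp_C]
    change Polynomial.eval₂ _ _ _ = _
    rw [Polynomial.eval₂_C]
    rfl
  · rw [J1c_dp_X]
    exact Polynomial.eval₂_X _ _

theorem J1c_dmap_dp (φ : R →ₐ[k] R') (u : R) : (dmap φ).comp (J1c_dp k u) = J1c_dp k (φ u) := by
  apply J1c_ext
  · intro a
    rw [AlgHom.comp_apply, J1c_dp_C, J1c_dp_C]
    ext
    · simp
    · simp
  · rw [AlgHom.comp_apply, J1c_dp_X, J1c_dp_X]
    ext
    · simp
    · simp

theorem J1c_red (u : R) : (dfst k R).comp (J1c_dp k u) = (aeval u).comp (pmap (dfst k k)) := by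
  apply J1c_ext
  · intro a
    rw [AlgHom.comp_apply, AlgHom.comp_apply, J1c_dp_C]
    have h : pmap (dfst k k) (C a) = C a.fst := Polynomial.map_C _
    rw [h, aeval_C]
    simp
  · rw [AlgHom.comp_apply, AlgHom.comp_apply, J1c_dp_X]
    have h : pmap (dfst k k) X = X := Polynomial.map_X _
    rw [h, aeval_X]
    simp

theorem J1c_dp_pow (u : R) (N : ℕ) :
    (J1c_dp k u).comp (powX k (DualNumber k) N) = J1c_dp k (u ^ N) := by
  apply J1c_ext
  · intro a
    rw [AlgHom.comp_apply]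
    have h : powX k (DualNumber k) N (C a) = C a := Polynomial.aeval_C _ _
    rw [h, J1c_dp_C, J1c_dp_C]
  · rw [AlgHom.comp_apply]
    have h : powX k (DualNumber k) N X = X ^ N := Polynomial.aeval_X _
    rw [h, map_pow, J1c_dp_X, J1c_dp_X, TrivSqZeroExt.inl_pow]

theorem J1c_evk (a : k) : (evk a : (DualNumber k)[X] →ₐ[k] DualNumber k) = J1c_dp k a := by
  apply J1c_ext
  · intro c
    rw [J1c_dp_C]
    have h : (evk a : (DualNumber k)[X] →ₐ[k] DualNumber k) (C c) = c := Polynomial.aeval_C _ _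
    rw [h]
    ext
    · simp
    · simp
  · rw [J1c_dp_X]
    have h : (evk a : (DualNumber k)[X] →ₐ[k] DualNumber k) X = algebraMap k (DualNumber k) a :=
      Polynomial.aeval_X _
    rw [h]
    rfl

/-- The homomorphism `A[X] → T` given by a homomorphism `A → T` and `X ↦ u`. -/
noncomputable def J1c_ev {A T : Type u} [CommRing A] [Algebra k A] [CommRing T] [Algebra k T]
    (f : A →ₐ[k] T) (u : T) : A[X] →ₐ[k] T :=
  AlgHom.mk (Polynomial.eval₂RingHom f.toRingHom u) (by
    intro r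
    change Polynomial.eval₂ _ _ (algebraMap k A[X] r) = _
    rw [Polynomial.algebraMap_apply, Polynomial.eval₂_C]
    exact f.commutes r)

theorem J1c_ev_C {A T : Type u} [CommRing A] [Algebra k A] [CommRing T] [Algebra k T]
    (f : A →ₐ[k] T) (u : T) (a : A) : J1c_ev f u (C a) = f a := Polynomial.eval₂_C _ _

theorem J1c_ev_X {A T : Type u} [CommRing A] [Algebra k A] [CommRing T] [Algebra k T]
    (f : A →ₐ[k] T) (u : T) : J1c_ev f u X = u := Polynomial.eval₂_X _ _

/-- The homomorphism from the Laurent polynomials. -/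
noncomputable def J1c_lau {A T : Type u} [CommRing A] [Algebra k A] [CommRing T] [Algebra k T]
    (f : A →ₐ[k] T) (x : Tˣ) : LaurentPolynomial A →ₐ[k] T :=
  AlgHom.mk (LaurentPolynomial.eval₂ f.toRingHom x) (by
    intro r
    change LaurentPolynomial.eval₂ _ _ (LaurentPolynomial.C (algebraMap k A r)) = _
    rw [LaurentPolynomial.eval₂_C]
    exact f.commutes r)

theorem J1c_glue' {A T : Type u} [CommRing A] [Algebra k A] [CommRing T] [Algebra k T]
    (G : Crv π A) (f : A →ₐ[k] T) (x : Tˣ) :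
    G.y.map (J1c_ev f (x : T)) = G.w.map (J1c_ev f ((x⁻¹ : Tˣ) : T)) := by
  have hLC : ∀ a, J1c_lau f x (LaurentPolynomial.C a) = f a := fun a =>
    LaurentPolynomial.eval₂_C _ _ _
  have hLT : ∀ n, J1c_lau f x (LaurentPolynomial.T n) = ((x ^ n : Tˣ) : T) :=
    fun n => LaurentPolynomial.eval₂_T _ _ _
  have h1 : (J1c_lau f x).comp (lauY k A) = J1c_ev f (x : T) := by
    apply J1c_ext
    · intro a
      have h : lauY k A (C a) = LaurentPolynomial.C a := Polynomial.aeval_C _ _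
      rw [AlgHom.comp_apply, J1c_ev_C, h, hLC]
    · have h : lauY k A X = LaurentPolynomial.T 1 := Polynomial.aeval_X _
      rw [AlgHom.comp_apply, J1c_ev_X, h, hLT, zpow_one]
  have h2 : (J1c_lau f x).comp (lauW k A) = J1c_ev f ((x⁻¹ : Tˣ) : T) := by
    apply J1c_ext
    · intro a
      have h : lauW k A (C a) = LaurentPolynomial.C a := Polynomial.aeval_C _ _
      rw [AlgHom.comp_apply, J1c_ev_C, h, hLC]
    · have h : lauW k A X = LaurentPolynomial.T (-1) := Polynomial.aeval_X _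
      rw [AlgHom.comp_apply, J1c_ev_X, h, hLT, zpow_neg_one]
  rw [← h1, ← h2, ← Pt.map_map, ← Pt.map_map, G.glue]

theorem J1c_glue {R : Type u} [CommRing R] [Algebra k R] (G : Crv π (DualNumber k)) (x : Rˣ) :
    G.y.map (J1c_dp k (x : R)) = G.w.map (J1c_dp k ((x⁻¹ : Rˣ) : R)) :=
  J1c_glue' G (dmap (Algebra.ofId k R)) (Units.map (TrivSqZeroExt.inlHom R R).toMonoidHom x)

end dp

/-- The reduction lies in a chart, so the point over the dual numbers does. -/
theorem Chart.J1c_dual_chart (W : Chart π) {F : Pt π k[X]} {G : Pt π (DualNumber k)[X]}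
    (hG : G.map (pmap (dfst k k)) = F) {R : Type u} [CommRing R] [Algebra k R] (u : R)
    (φ0 : W.B →ₐ[k] R) (h : F.map (aeval u) = W.pt.map φ0) :
    ∃ φ : W.B →ₐ[k] DualNumber R, G.map (J1c_dp k u) = W.pt.map φ ∧ ∀ b, (φ b).fst = φ0 b := by
  apply W.J1c_lift_dual
  rw [Pt.map_map, J1c_red, ← Pt.map_map, hG, h]

theorem Chart.J1c_sub [IsSeparated π] (W : Chart π) {F : Pt π k[X]} {G : Pt π (DualNumber k)[X]}
    (hG : G.map (pmap (dfst k k)) = F) (A : Subalgebra k (RatFunc k)) (u : A)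
    (φ0 : W.B →ₐ[k] RatFunc k) (hφ0 : ∀ b, φ0 b ∈ A)
    (h : F.map (aeval (u : RatFunc k)) = W.pt.map φ0) :
    ∃ φ : W.B →ₐ[k] DualNumber A, G.map (J1c_dp k u) = W.pt.map φ ∧
      ∀ b, ((φ b).fst : RatFunc k) = φ0 b := by
  have h1 : A.val.comp (φ0.codRestrict A hφ0) = φ0 := rfl
  have h2 : F.map (aeval u) = W.pt.map (φ0.codRestrict A hφ0) := by
    apply Pt.map_injective A.val Subtype.val_injective
    have h3 : A.val.comp (aeval u) = aeval (u : RatFunc k) := by
      apply Polynomial.algHom_ext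
      simp
    rw [Pt.map_map, Pt.map_map, h1, ← h, h3]
  obtain ⟨φ, hφ, hφ'⟩ := W.J1c_dual_chart hG u (φ0.codRestrict A hφ0) h2
  exact ⟨φ, hφ, fun b => congrArg Subtype.val (hφ' b)⟩

theorem J1c_algebraMap (r : k) : algebraMap k (RatFunc k) r = polR (C r) :=
  IsScalarTower.algebraMap_apply k k[X] (RatFunc k) r

/-- The local ring at `s` as a `k`-algebra. -/
noncomputable def J1c_rA (s : Option k) : Subalgebra k (RatFunc k) :=
  { regAt s with
    algebraMap_mem' := fun r => by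
      have h : algebraMap k (RatFunc k) r ∈ regAt s := by
        rw [J1c_algebraMap]; exact polR_C_mem s r
      exact h }

/-- The functions regular outside `S` as a `k`-algebra. -/
noncomputable def J1c_rO (S : Finset k) : Subalgebra k (RatFunc k) :=
  { regOff S with
    algebraMap_mem' := fun r => by
      have h : algebraMap k (RatFunc k) r ∈ regOff S := by
        rw [J1c_algebraMap]; exact polR_mem_regOff S (C r)
      exact h }

theorem J1c_mem_rA (s : Option k) (g : RatFunc k) : g ∈ J1c_rA s ↔ g ∈ regAt s := Iff.rfl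

theorem J1c_mem_rO (S : Finset k) (g : RatFunc k) : g ∈ J1c_rO S ↔ g ∈ regOff S := Iff.rfl

/-- The residue map. -/
theorem J1c_residue (s : Option k) :
    ∃ ρ : J1c_rA s →ₐ[k] k, ∀ g : J1c_rA s, ρ g = 0 ↔ Van s 1 (g : RatFunc k) := by
  obtain ⟨ρ, h1, h2⟩ := exists_residue s
  refine ⟨{ toFun := fun g => ρ ⟨g.1, g.2⟩
            map_one' := ρ.map_one
            map_mul' := fun a b => ρ.map_mul ⟨a.1, a.2⟩ ⟨b.1, b.2⟩
            map_zero' := ρ.map_zero
            map_add' := fun a b => ρ.map_add ⟨a.1, a.2⟩ ⟨b.1, b.2⟩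
            commutes' := fun r => ?_ }, fun g => h2 ⟨g.1, g.2⟩⟩
  have h3 := h1 r
  have h4 : (⟨((algebraMap k (J1c_rA s) r : J1c_rA s) : RatFunc k),
      (algebraMap k (J1c_rA s) r).2⟩ : regAt s) = ⟨polR (C r), polR_C_mem s r⟩ :=
    Subtype.ext (J1c_algebraMap r)
  change ρ ⟨((algebraMap k (J1c_rA s) r : J1c_rA s) : RatFunc k), _⟩ = r
  rw [h4]
  exact h3

theorem J1c_residue_sub (s : Option k) (ρ : J1c_rA s →ₐ[k] k)
    (hρ : ∀ g : J1c_rA s, ρ g = 0 ↔ Van s 1 (g : RatFunc k)) (g : J1c_rA s) :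
    Van s 1 ((g : RatFunc k) - polR (C (ρ g))) := by
  have h1 : ρ (g - algebraMap k (J1c_rA s) (ρ g)) = 0 := by
    rw [map_sub, AlgHom.commutes]
    exact sub_self _
  have h2 := (hρ _).1 h1
  rw [← J1c_algebraMap]
  exact h2

/-- The coordinate `y` or `1 / y`. -/
noncomputable def J1c_u : Option k → RatFunc k
  | some _ => polR X
  | none => (polR X)⁻¹

theorem J1c_u_mem (s : Option k) : J1c_u s ∈ J1c_rA s := by
  cases s with
  | none => exact Dunif_mem none
  | some a => exact polR_mem_regFin a X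

theorem J1c_u_residue (s : Option k) (ρ : J1c_rA s →ₐ[k] k)
    (hρ : ∀ g : J1c_rA s, ρ g = 0 ↔ Van s 1 (g : RatFunc k)) :
    ρ ⟨J1c_u s, J1c_u_mem s⟩ = s.getD 0 := by
  have h1 : Van s 1 (unif s) := by
    have := Dvan_pow s 1
    rwa [zpow_one] at this
  cases s with
  | none => exact (hρ _).2 h1
  | some a =>
    have h2 : ρ (⟨J1c_u (some a), J1c_u_mem (some a)⟩ - algebraMap k (J1c_rA (some a)) a) = 0 := by
      rw [hρ]
      have h3 : ((⟨J1c_u (some a), J1c_u_mem (some a)⟩ - algebraMap k (J1c_rA (some a)) a :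
          J1c_rA (some a)) : RatFunc k) = unif (some a) := by
        change polR X - algebraMap k (RatFunc k) a = polR (X - C a)
        rw [J1c_algebraMap, map_sub]
      rw [h3]
      exact h1
    rw [map_sub, AlgHom.commutes] at h2
    exact sub_eq_zero.1 h2

theorem J1c_isUnit (s : Option k) (ρ : J1c_rA s →ₐ[k] k)
    (hρ : ∀ g : J1c_rA s, ρ g = 0 ↔ Van s 1 (g : RatFunc k)) (g : J1c_rA s) (hg : ρ g ≠ 0) :
    IsUnit g := by
  have h1 : ((g : RatFunc k))⁻¹ ∈ regAt s := regAt_inv g.2 (fun h => hg ((hρ g).2 h))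
  have h2 : (g : RatFunc k) ≠ 0 := by
    intro h
    have : g = 0 := Subtype.ext h
    rw [this, map_zero] at hg
    exact hg rfl
  exact IsUnit.of_mul_eq_one ⟨_, h1⟩ (Subtype.ext (mul_inv_cancel₀ h2))

theorem J1c_isLocalRing (s : Option k) : IsLocalRing (J1c_rA s) := by
  obtain ⟨ρ, hρ⟩ := J1c_residue s
  refine IsLocalRing.of_isUnit_or_isUnit_one_sub_self fun a => ?_
  by_cases h : ρ a = 0
  · right
    apply J1c_isUnit s ρ hρ
    rw [map_sub, map_one, h, sub_zero]
    exact one_ne_zero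
  · left
    exact J1c_isUnit s ρ hρ a h

/-- The two coordinate lines. -/
def Crv.J1c_c {R : Type u} [CommRing R] [Algebra k R] (F : Crv π R) : Option k → Pt π R[X]
  | some _ => F.y
  | none => F.w

theorem Crv.J1c_at {R : Type u} [CommRing R] [Algebra k R] (F : Crv π R) (s : Option k) :
    F.at s = (F.J1c_c s).map (evk (s.getD 0)) := by
  cases s <;> rfl

theorem Crv.J1c_c_map {R R' : Type u} [CommRing R] [Algebra k R] [CommRing R'] [Algebra k R']
    (F : Crv π R) (φ : R →ₐ[k] R') (s : Option k) :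
    (F.map φ).J1c_c s = (F.J1c_c s).map (pmap φ) := by
  cases s <;> rfl

theorem J1c_c_dp (G : Crv π (DualNumber k)) (s : Option k) :
    (G.J1c_c s).map (J1c_dp k (J1c_u s)) = G.y.map (ratYd k) := by
  rw [J1c_ratYd]
  cases s with
  | some a => rfl
  | none =>
    have hX : (polR (X : k[X])) ≠ 0 := Dne X_ne_zero
    have h := J1c_glue G (Units.mk0 (polR (X : k[X])) hX)
    rw [Units.val_mk0] at h
    rw [h]
    congr 1

theorem LocData.Of.J1c_c {n : ℕ} {F : Crv π k} {D : LocData π n k} (hD : D.Of F) (s : Option k)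
    (hs : InS D.S s) : (F.J1c_c s).map (aeval (J1c_u s)) = (D.W s).pt.map (D.f s) := by
  rw [D.same s hs]
  cases s with
  | some a => exact hD.hy
  | none => exact hD.hw

/-- A first order deformation of `F` gives a section. -/
theorem exists_sec {n : ℕ} [IsSeparated π] (F : Crv π k) (D : LocData π n k) (hD : D.Of F)
    (G : Crv π (DualNumber k)) (hG : G.map (dfst k k) = F) :
    ∃ σ : Sec D, G.y.map (ratYd k) = D.W1.pt.map σ.δ1 ∧
      ∀ s, InS D.S s → ∃ νd : (D.W s).B →ₐ[k] DualNumber k, G.at s = (D.W s).pt.map νd ∧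
        ∀ b, Van s 1 ((σ.δ s b).snd - polR (C (νd b).snd)) := by
  classical
  have hGy : G.y.map (pmap (dfst k k)) = F.y := congrArg Crv.y hG
  obtain ⟨φ1, hφ1, hφ1'⟩ := D.W1.J1c_sub hGy (J1c_rO D.S) ⟨polR X, polR_mem_regOff D.S X⟩ D.f1
    D.hf1 hD.hy
  have key : ∀ s, ∃ φ : (D.W s).B →ₐ[k] DualNumber (RatFunc k), InS D.S s →
      ∃ φ' : (D.W s).B →ₐ[k] DualNumber (J1c_rA s), φ = (dmap (J1c_rA s).val).comp φ' ∧
        (G.J1c_c s).map (J1c_dp k (⟨J1c_u s, J1c_u_mem s⟩ : J1c_rA s)) = (D.W s).pt.map φ' ∧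
        ∀ b, ((φ' b).fst : RatFunc k) = D.f s b := by
    intro s
    by_cases hs : InS D.S s
    · have hGs : (G.J1c_c s).map (pmap (dfst k k)) = F.J1c_c s := by
        rw [← Crv.J1c_c_map, hG]
      obtain ⟨φ', h1, h2⟩ := (D.W s).J1c_sub hGs (J1c_rA s) ⟨J1c_u s, J1c_u_mem s⟩ (D.f s)
        (D.hf s hs) (hD.J1c_c s hs)
      exact ⟨_, fun _ => ⟨φ', rfl, h1, h2⟩⟩
    · exact ⟨(dmap (D.f s)).comp (TrivSqZeroExt.inlAlgHom k (D.W s).B (D.W s).B),
        fun h => absurd h hs⟩
  choose δ hδ using key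
  have hG1 : G.y.map (ratYd k) = D.W1.pt.map ((dmap (J1c_rO D.S).val).comp φ1) := by
    rw [← Pt.map_map, ← hφ1, Pt.map_map, J1c_dmap_dp, J1c_ratYd]
    rfl
  have hGs : ∀ s, InS D.S s → G.y.map (ratYd k) = (D.W s).pt.map (δ s) := by
    intro s hs
    obtain ⟨φ', h1, h2, h3⟩ := hδ s hs
    rw [h1, ← Pt.map_map, ← h2, Pt.map_map, J1c_dmap_dp, ← J1c_c_dp G s]
    rfl
  refine ⟨{ δ1 := (dmap (J1c_rO D.S).val).comp φ1
            h1 := fun b => ?_
            r1 := fun b => ?_
            δ := δ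
            h := fun s hs b => ?_
            r := fun s hs b => ?_
            same := fun s hs => ?_ }, hG1, fun s hs => ?_⟩
  · rw [AlgHom.comp_apply, dmap_fst]
    exact hφ1' b
  · rw [AlgHom.comp_apply, dmap_snd]
    exact (φ1 b).snd.2
  · obtain ⟨φ', h1, h2, h3⟩ := hδ s hs
    rw [h1, AlgHom.comp_apply, dmap_fst]
    exact h3 b
  · obtain ⟨φ', h1, h2, h3⟩ := hδ s hs
    rw [h1, AlgHom.comp_apply, dmap_snd]
    exact (φ' b).snd.2
  · rw [← hG1, hGs s hs]
  · obtain ⟨φ', h1, h2, h3⟩ := hδ s hs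
    obtain ⟨ρ, hρ⟩ := J1c_residue s
    refine ⟨(dmap ρ).comp φ', ?_, fun b => ?_⟩
    · rw [← Pt.map_map, ← h2, Pt.map_map, J1c_dmap_dp, J1c_u_residue s ρ hρ, ← J1c_evk,
        ← Crv.J1c_at]
    · have h4 : (δ s b).snd = ((φ' b).snd : RatFunc k) := by
        rw [h1, AlgHom.comp_apply, dmap_snd, Subalgebra.val_apply]
      have h5 : (((dmap ρ).comp φ') b).snd = ρ (φ' b).snd := by
        rw [AlgHom.comp_apply, dmap_snd]
      change Van s 1 ((δ s b).snd - polR (C (((dmap ρ).comp φ') b).snd))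
      rw [h4, h5]
      exact J1c_residue_sub s ρ hρ _

/-- The substitution `y ↦ y ^ N` in the rational functions. -/
theorem J1c_exists_tau (k : Type u) [Field k] (N : ℕ) (hN : 1 ≤ N) :
    ∃ τ : RatFunc k →ₐ[k] RatFunc k, ∀ p : k[X], τ (polR p) = polR (Polynomial.expand k N p) := by
  let φ : k[X] →ₐ[k] RatFunc k :=
    (IsScalarTower.toAlgHom k k[X] (RatFunc k)).comp (Polynomial.expand k N)
  have hφ : Function.Injective φ :=
    Dinj.comp (Polynomial.expand_injective (by omega))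
  have hφ' : nonZeroDivisors k[X] ≤ Submonoid.comap φ (nonZeroDivisors (RatFunc k)) :=
    nonZeroDivisors_le_comap_nonZeroDivisors_of_injective _ hφ
  refine ⟨RatFunc.liftAlgHom φ hφ', fun p => ?_⟩
  have h := RatFunc.liftAlgHom_apply_div' (φ := φ) (hφ := hφ') p 1
  simp only [map_one, div_one] at h
  exact h

theorem J1c_tau_inf (N : ℕ) (hN : 1 ≤ N) (τ : RatFunc k →ₐ[k] RatFunc k)
    (hτ : ∀ p : k[X], τ (polR p) = polR (Polynomial.expand k N p)) (g : RatFunc k)
    (hg : g ∈ regAt none) : τ g ∈ regAt none := by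
  obtain ⟨p, q, hq, hd, h⟩ := hg
  refine ⟨Polynomial.expand k N p, Polynomial.expand k N q, ?_, ?_, ?_⟩
  · exact (Polynomial.expand_ne_zero (by omega)).2 hq
  · rw [Polynomial.natDegree_expand, Polynomial.natDegree_expand]
    exact Nat.mul_le_mul_right N hd
  · rw [← hτ, ← hτ, ← map_mul, h]

theorem J1c_tau_van (N : ℕ) (hN : 1 ≤ N) (τ : RatFunc k →ₐ[k] RatFunc k)
    (hτ : ∀ p : k[X], τ (polR p) = polR (Polynomial.expand k N p)) (g : RatFunc k)
    (hg : Van none 1 g) : Van none N (τ g) := by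
  have h1 : g * polR X ∈ regAt (none : Option k) := by
    have h : g * ((polR X)⁻¹ : RatFunc k) ^ (-1 : ℤ) ∈ regAt (none : Option k) := hg
    rwa [zpow_neg, zpow_one, inv_inv] at h
  have h2 := J1c_tau_inf N hN τ hτ _ h1
  rw [map_mul, hτ, Polynomial.expand_X, map_pow] at h2
  change τ g * ((polR X)⁻¹ : RatFunc k) ^ (-(N : ℤ)) ∈ regAt (none : Option k)
  rw [inv_zpow', neg_neg, zpow_natCast]
  exact h2

/-- If `G(∞)` is constant, the section given by `G ∘ (y ↦ y ^ N)` vanishes to the order `N` at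
infinity. -/
theorem exists_sec_pow {n : ℕ} [IsSeparated π] (F : Crv π k) (N : ℕ) (hN : 1 ≤ N)
    (D : LocData π n k) (hD : D.Of (F.pow N))
    (G : Crv π (DualNumber k)) (hG : G.map (dfst k k) = F)
    (hG' : G.at none = (F.at none).map (Algebra.ofId k (DualNumber k))) :
    ∃ σ : Sec D, (G.pow N).y.map (ratYd k) = D.W1.pt.map σ.δ1 ∧
      (∀ s, InS D.S s → ∃ νd : (D.W s).B →ₐ[k] DualNumber k,
        (G.pow N).at s = (D.W s).pt.map νd ∧
        ∀ b, Van s 1 ((σ.δ s b).snd - polR (C (νd b).snd))) ∧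
      ∀ b, Van none N ((σ.δ none b).snd) := by
  obtain ⟨σ, hσ1, hσ2⟩ := exists_sec (F.pow N) D hD (G.pow N) (by rw [Crv.pow_map, hG])
  refine ⟨σ, hσ1, hσ2, ?_⟩
  have hnone : InS D.S none := fun a h => by simp at h
  obtain ⟨ν, hν, -, -⟩ := hD.hat none hnone
  rw [Crv.pow_at_none F N hN] at hν
  obtain ⟨ρ, hρ⟩ := J1c_residue (none : Option k)
  have hloc : IsLocalRing (J1c_rA (none : Option k)) := J1c_isLocalRing none
  have hlh : IsLocalHom ρ.toRingHom := ⟨fun g hg =>
    J1c_isUnit none ρ hρ g (IsUnit.ne_zero hg)⟩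
  let u : J1c_rA (none : Option k) := ⟨J1c_u none, J1c_u_mem none⟩
  have hρu : ρ u = 0 := J1c_u_residue none ρ hρ
  -- the chart near infinity
  obtain ⟨φ0, hφ0, hφ0'⟩ := (D.W none).factor_local ρ hlh (F.w.map (aeval u)) ν (by
    rw [Pt.map_map, ← hν]
    have h : ρ.comp (aeval u) = evk 0 := by
      apply Polynomial.algHom_ext
      rw [AlgHom.comp_apply, aeval_X, hρu]
      have h' : (evk (0 : k) : k[X] →ₐ[k] k) X = algebraMap k k 0 := Polynomial.aeval_X _
      rw [h', map_zero]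
    rw [h]
    rfl)
  have hGw : G.w.map (pmap (dfst k k)) = F.w := congrArg Crv.w hG
  obtain ⟨g', hg1, hg2⟩ := (D.W none).J1c_dual_chart hGw u φ0 hφ0
  -- the derivative vanishes at infinity
  have hconst : (dmap ρ).comp g' = (Algebra.ofId k (DualNumber k)).comp ν := by
    apply (D.W none).map_injective
    rw [← Pt.map_map, ← hg1, Pt.map_map, J1c_dmap_dp, hρu, ← J1c_evk, ← Pt.map_map, ← hν, ← hG']
    rfl
  have hvan : ∀ b, Van none 1 (((g' b).snd : J1c_rA (none : Option k)) : RatFunc k) := by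
    intro b
    rw [← hρ]
    have h := congrArg (fun e : (D.W none).B →ₐ[k] DualNumber k => (e b).snd) hconst
    rw [show ρ (g' b).snd = (((dmap ρ).comp g') b).snd by rw [AlgHom.comp_apply, dmap_snd]]
    rw [h]
    exact TrivSqZeroExt.snd_inl _ _
  obtain ⟨τ, hτ⟩ := J1c_exists_tau k N hN
  have hτu : τ (polR X)⁻¹ = ((polR X)⁻¹ : RatFunc k) ^ N := by
    rw [map_inv₀, hτ, Polynomial.expand_X, map_pow, inv_pow]
  have hfin : σ.δ none = (dmap τ).comp ((dmap (J1c_rA (none : Option k)).val).comp g') := by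
    apply (D.W none).map_injective
    rw [σ.same none hnone, ← hσ1, ← J1c_c_dp (G.pow N) none]
    have h1 : (G.pow N).J1c_c none = G.w.map (powX k (DualNumber k) N) := rfl
    have h2 : (D.W none).pt.map ((dmap (J1c_rA (none : Option k)).val).comp g') =
        G.w.map (J1c_dp k (polR (X : k[X]))⁻¹) := by
      rw [← Pt.map_map, ← hg1, Pt.map_map, J1c_dmap_dp]
      rfl
    rw [h1, Pt.map_map, J1c_dp_pow, ← Pt.map_map, h2, Pt.map_map, J1c_dmap_dp, hτu]
    rfl
  intro b
  rw [hfin, AlgHom.comp_apply, dmap_snd, AlgHom.comp_apply, dmap_snd]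
  exact J1c_tau_van N hN τ hτ _ (hvan b)

end Pool.Agent.H19VF
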