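import Pool.Agent.H19VF.J_Fam

/-!
Sections along a very free curve composed with `y ↦ y ^ N` (MP_1858fb_ag), for the assembly.
-/

namespace Pool.Agent.H19VF

set_option autoImplicit false

open Polynomial AlgebraicGeometry CategoryTheory

universe u

variable {k : Type u} [Field k] {X : Scheme.{u}} {π : X ⟶ Spec (.of k)}

/-- Sections along `F ∘ (y ↦ y ^ N)` for a very free curve `F`: they vanish to the order `N` at
infinity and are independent at the generic point, also after every field extension. -/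
theorem exists_sections {n : ℕ} [IsSeparated π] (F : Crv π k) (hF : IsVeryFree F)
    (D : LocData π n k) (N : ℕ) (hN : 1 ≤ N) (hD : D.Of (F.pow N)) (h0 : (0 : k) ∈ D.S) :
    ∃ ξ : Fin n → Sec D, (∀ i b, Van none N (((ξ i).δ none b).snd)) ∧
      (Matrix.of fun i j => ((ξ i).δ1 (D.W1.z j)).snd).det ≠ 0 ∧
      ∀ (κ : Type u) [Field κ] [Algebra k κ],
        (∀ i b, Van none N ((((ξ i).base κ).δ none b).snd)) ∧
          (Matrix.of fun i j => (((ξ i).base κ).δ1 ((D.base κ).W1.z j)).snd).det ≠ 0 := by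
  have ht0S : InS D.S (some 0) := fun a h => by
    obtain rfl : (0 : k) = a := Option.some.inj h
    exact h0
  obtain ⟨ν0, hν, -, -⟩ := hD.hat (some 0) ht0S
  have hat : ∀ {R : Type u} [CommRing R] [Algebra k R] (G : Crv π R),
      (G.pow N).at (some (0 : k)) = G.at (some (0 : k)) := by
    intro R _ _ G
    rw [Crv.pow_at_some, zero_pow (by omega)]
  have key : ∀ i : Fin n, ∃ σ : Sec D, (∀ j, Van (some 0) 1 ((σ.δ (some 0)
      ((D.W (some 0)).z j)).snd - polR (C (if i = j then 1 else 0)))) ∧
      ∀ b, Van none N ((σ.δ none b).snd) := by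
    intro i
    obtain ⟨ti, h1, h2⟩ := (etale_dual (D.W (some 0)).z (D.W (some 0)).et ν0
      (Pi.single i 1)).exists
    have hτ : ((D.W (some 0)).pt.map ti).map (dfst k k) = F.at (some 0) := by
      rw [← hat F, hν, Pt.map_map]
      congr 1
      ext b
      exact h1 b
    obtain ⟨G, hG1, hG2, hG3⟩ := hF _ hτ
    obtain ⟨σ, hσ1, hσ2, hσ3⟩ := exists_sec_pow F N hN D hD G hG1 hG3
    obtain ⟨νd, h4, h5⟩ := hσ2 (some 0) ht0S
    rw [hat G, hG2] at h4
    have h6 := (D.W (some 0)).toChart.map_injective h4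
    refine ⟨σ, fun j => ?_, fun b => hσ3 b⟩
    have h7 := h5 ((D.W (some 0)).z j)
    rw [← h6, h2 j, Pi.single_apply] at h7
    simpa only [eq_comm] using h7
  choose ξ h1 h2 using key
  have hdet := J2det D (some 0) ht0S ξ (J2det0 _ (some 0) h1)
  refine ⟨ξ, h2, hdet, ?_⟩
  intro κ _ _
  constructor
  · intro i b
    have h3 : ∀ t : Option k, t = none → ∀ b, Van t N (((ξ i).δ t b).snd) := by
      rintro _ rfl b
      exact h2 i b
    have h4 := rbase_van (κ := κ) _ _ _ (h3 (back k κ none) (J2back_none k κ) b)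
    have h5 : (back k κ none).map (algebraMap k κ) = none := by
      rw [J2back_none]
      rfl
    rw [h5] at h4
    have h6 : (((ξ i).base κ).δ none b).snd = rbase k κ (((ξ i).δ (back k κ none) b).snd) :=
      dmap_snd _ _
    rw [h6]
    exact h4
  · have h4 : (Matrix.of fun i j => (((ξ i).base κ).δ1 ((D.base κ).W1.z j)).snd) =
        (rbase k κ).toRingHom.mapMatrix (Matrix.of fun i j => ((ξ i).δ1 (D.W1.z j)).snd) := by
      ext i j
      rw [RingHom.mapMatrix_apply, Matrix.map_apply]
      exact dmap_snd _ _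
    rw [h4, ← RingHom.map_det]
    exact (map_ne_zero_iff _ (rbase k κ).toRingHom.injective).2 hdet

end Pool.Agent.H19VF
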