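import Pool.Agent.H19VF.Fam
import Pool.Agent.H19VF.I_Deform
import Pool.Agent.H19VF.H_Glue
import Pool.Agent.H19VF.J1b_Ex
import Pool.Agent.H19VF.J1c_Sec

/-! # Task J: the versal family (section 3 of the paper) -/

set_option autoImplicit false

open AlgebraicGeometry CategoryTheory Polynomial

universe u

namespace Pool.Agent.H19VF

variable {k : Type u} [Field k] {V : Scheme.{u}} {π : V ⟶ Spec (.of k)}

section local_rings

variable {κ : Type u} [Field κ] [Algebra k κ]

/-- the `k`-algebra structure on the local rings of the projective line over `κ` -/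
noncomputable abbrev J2alg (k : Type u) [Field k] {κ : Type u} [Field κ] [Algebra k κ]
    (s : Option κ) : Algebra k (regAt s) :=
  ((algebraMap κ (regAt s)).comp (algebraMap k κ)).toAlgebra

attribute [local instance] J2alg

/-- the inclusion of the local ring -/
noncomputable def J2sub (k : Type u) [Field k] {κ : Type u} [Field κ] [Algebra k κ]
    (s : Option κ) : regAt s →ₐ[k] RatFunc κ :=
  { (regAt s).subtype with
    commutes' := fun r => by
      change (algebraMap κ (regAt s) (algebraMap k κ r) : RatFunc κ) = _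
      rw [J_alg_apply, IsScalarTower.algebraMap_apply k κ (RatFunc κ),
        IsScalarTower.algebraMap_apply κ κ[X] (RatFunc κ)]
      rfl }

theorem J2sub_apply (s : Option κ) (g : regAt s) : J2sub k s g = (g : RatFunc κ) := rfl

theorem J2sub_inj (s : Option κ) : Function.Injective (J2sub k s) := Subtype.val_injective

/-- the constants -/
noncomputable def J2con (k : Type u) [Field k] {κ : Type u} [Field κ] [Algebra k κ]
    (s : Option κ) : κ →ₐ[k] regAt s :=
  { algebraMap κ (regAt s) with commutes' := fun _ => rfl }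

theorem J2con_apply (s : Option κ) (a : κ) : (J2con k s a : RatFunc κ) = polR (C a) := rfl

theorem J2res (k : Type u) [Field k] {κ : Type u} [Field κ] [Algebra k κ] (s : Option κ) :
    ∃ ρ : regAt s →ₐ[k] κ, (∀ a, ρ (J2con k s a) = a) ∧
    ∀ (g : regAt s), ρ g = 0 ↔ Van s 1 (g : RatFunc κ) := by
  obtain ⟨ρ, h1, h2⟩ := exists_residue s
  exact ⟨{ ρ with commutes' := fun r => h1 _ }, h1, h2⟩

theorem J2unif_ne (s : Option κ) : unif s ≠ 0 := unif_ne_zero s

/-- first order expansions -/
theorem J2tau (k : Type u) [Field k] {κ : Type u} [Field κ] [Algebra k κ] (s : Option κ)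
    (ρ : regAt s →ₐ[k] κ) (h1 : ∀ a, ρ (J2con k s a) = a)
    (h2 : ∀ (g : regAt s), ρ g = 0 ↔ Van s 1 (g : RatFunc κ)) :
    ∃ τ : regAt s →ₐ[k] DualNumber κ, (∀ g, (τ g).fst = ρ g) ∧
      ∀ (g : regAt s) (a b : κ), Van s 2 ((g : RatFunc κ) - polR (C a) - polR (C b) * unif s) →
        (τ g).fst = a ∧ (τ g).snd = b := by
  have hmem : ∀ g : regAt s, ((g : RatFunc κ) - polR (C (ρ g))) * (unif s)⁻¹ ∈ regAt s := by
    intro g
    have h3 := (h2 (g - J2con k s (ρ g))).1 (by rw [map_sub, h1, sub_self])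
    have h4 : ((g : RatFunc κ) - polR (C (ρ g))) * (unif s) ^ (-(1 : ℤ)) ∈ regAt s := h3
    rwa [zpow_neg_one] at h4
  obtain ⟨q, hq⟩ : ∃ q : regAt s → regAt s, ∀ g, (q g : RatFunc κ) =
      ((g : RatFunc κ) - polR (C (ρ g))) * (unif s)⁻¹ := ⟨fun g => ⟨_, hmem g⟩, fun g => rfl⟩
  have hadd : ∀ g h, q (g + h) = q g + q h := by
    intro g h
    apply Subtype.ext
    change (q (g + h) : RatFunc κ) = (q g : RatFunc κ) + (q h : RatFunc κ)
    rw [hq, hq, hq, map_add, C_add, map_add]
    change ((g : RatFunc κ) + (h : RatFunc κ) - _) * _ = _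
    ring
  have hmul : ∀ g h, q (g * h) = g * q h + J2con k s (ρ h) * q g := by
    intro g h
    apply Subtype.ext
    change (q (g * h) : RatFunc κ) = (g : RatFunc κ) * (q h : RatFunc κ) +
      (polR (C (ρ h))) * (q g : RatFunc κ)
    rw [hq, hq, hq, map_mul, C_mul, map_mul]
    change ((g : RatFunc κ) * (h : RatFunc κ) - _) * _ = _
    ring
  have hcon : ∀ a, q (J2con k s a) = 0 := by
    intro a
    apply Subtype.ext
    change (q (J2con k s a) : RatFunc κ) = 0
    rw [hq, h1, J2con_apply, sub_self, zero_mul]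
  let τ : regAt s →ₐ[k] DualNumber κ :=
    { toFun := fun g => TrivSqZeroExt.inl (ρ g) + TrivSqZeroExt.inr (ρ (q g))
      map_one' := by
        have h3 : q 1 = 0 := by
          have := hcon 1
          rwa [map_one] at this
        ext <;> simp [h3]
      map_mul' := fun g h => by
        ext
        · simp
        · simp only [hmul, map_add, map_mul, h1]
          simp
          ring
      map_zero' := by
        have h3 : q 0 = 0 := by
          have := hcon 0
          rwa [map_zero] at this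
        ext <;> simp [h3]
      map_add' := fun g h => by
        ext
        · simp
        · simp [hadd]
      commutes' := fun r => by
        have h3 : q (algebraMap k (regAt s) r) = 0 := hcon (algebraMap k κ r)
        ext
        · simp [TrivSqZeroExt.algebraMap_eq_inl']
        · simp [TrivSqZeroExt.algebraMap_eq_inl', h3] }
  have hτ1 : ∀ g, (τ g).fst = ρ g := fun g => by
    change (TrivSqZeroExt.inl (ρ g) + TrivSqZeroExt.inr (ρ (q g)) : DualNumber κ).fst = _
    simp
  have hτ2 : ∀ g, (τ g).snd = ρ (q g) := fun g => by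
    change (TrivSqZeroExt.inl (ρ g) + TrivSqZeroExt.inr (ρ (q g)) : DualNumber κ).snd = _
    simp
  refine ⟨τ, hτ1, fun g a b hg => ?_⟩
  have hu := J2unif_ne s
  have ha : ρ g = a := by
    have h3 : Van s 1 ((g : RatFunc κ) - polR (C a)) := by
      have h4 := hg.mono (m' := 1) (by norm_num)
      have h5 : Van s 1 (polR (C b) * unif s) := by
        change polR (C b) * unif s * (unif s) ^ (-(1 : ℤ)) ∈ regAt s
        rw [zpow_neg_one, mul_assoc, mul_inv_cancel₀ hu, mul_one]
        exact polR_C_mem s b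
      have h6 := h4.add h5
      rwa [sub_add_cancel] at h6
    have h7 := (h2 (g - J2con k s a)).2 h3
    rw [map_sub, h1, sub_eq_zero] at h7
    exact h7
  refine ⟨(hτ1 g).trans ha, (hτ2 g).trans ?_⟩
  have h8 : Van s 1 ((q g - J2con k s b : regAt s) : RatFunc κ) := by
    change ((q g : RatFunc κ) - polR (C b)) * (unif s) ^ (-(1 : ℤ)) ∈ regAt s
    rw [hq, ha]
    have h9 : ((g : RatFunc κ) - polR (C a) - polR (C b) * unif s) * (unif s) ^ (-(2 : ℤ)) ∈
      regAt s := hg
    have h10 : (((g : RatFunc κ) - polR (C a)) * (unif s)⁻¹ - polR (C b)) * (unif s) ^ (-(1 : ℤ)) =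
        ((g : RatFunc κ) - polR (C a) - polR (C b) * unif s) * (unif s) ^ (-(2 : ℤ)) := by
      have h11 : (unif s) ^ (-(2 : ℤ)) = (unif s)⁻¹ * (unif s)⁻¹ := by
        rw [zpow_neg, ← mul_inv]
        congr 1
        rw [zpow_ofNat, sq]
      rw [h11, zpow_neg_one]
      field_simp
    rw [h10]
    exact h9
  have h12 := (h2 _).2 h8
  rw [map_sub, h1, sub_eq_zero] at h12
  exact h12

/-- Power series with coefficients in the local ring. -/
theorem J2cod {B : Type u} [CommRing B] [Algebra k B] (s : Option κ)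
    (φ : B →ₐ[k] PowerSeries (RatFunc κ)) (h : ∀ b i, PowerSeries.coeff i (φ b) ∈ regAt s) :
    ∃ φ' : B →ₐ[k] PowerSeries (regAt s),
      ∀ b i, ((PowerSeries.coeff i (φ' b) : regAt s) : RatFunc κ) = PowerSeries.coeff i (φ b) := by
  obtain ⟨f, hf⟩ : ∃ f : B → PowerSeries (regAt s), ∀ b i,
      ((PowerSeries.coeff i (f b) : regAt s) : RatFunc κ) = PowerSeries.coeff i (φ b) :=
    ⟨fun b => PowerSeries.mk fun i => ⟨PowerSeries.coeff i (φ b), h b i⟩, fun b i => by
      rw [PowerSeries.coeff_mk]⟩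
  refine ⟨{ toFun := f, map_one' := ?_, map_mul' := ?_, map_zero' := ?_, map_add' := ?_,
            commutes' := ?_ }, hf⟩
  · ext i
    rw [hf, map_one, PowerSeries.coeff_one, PowerSeries.coeff_one]
    split_ifs <;> rfl
  · intro a b
    ext i
    rw [hf, map_mul, PowerSeries.coeff_mul, PowerSeries.coeff_mul]
    push_cast
    refine Finset.sum_congr rfl fun p _ => ?_
    rw [hf, hf]
  · ext i
    rw [hf, map_zero, map_zero, map_zero]
    rfl
  · intro a b
    ext i
    rw [hf, map_add, map_add, map_add]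
    change _ = ((PowerSeries.coeff i (f a) : regAt s) : RatFunc κ) +
      ((PowerSeries.coeff i (f b) : regAt s) : RatFunc κ)
    rw [hf, hf]
  · intro r
    ext i
    rw [hf, AlgHom.commutes, PowerSeries.algebraMap_apply, PowerSeries.algebraMap_apply,
      PowerSeries.coeff_C, PowerSeries.coeff_C]
    split_ifs
    · exact ((J2sub k s).commutes r).symm
    · rfl

/-- The polynomials over the Laurent series in the Laurent series over the local ring. -/
noncomputable def J2emb (k : Type u) [Field k] {κ : Type u} [Field κ] [Algebra k κ]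
    (s : Option κ) : (LSer κ)[X] →ₐ[k] LSer (regAt s) where
  toRingHom := Polynomial.eval₂RingHom (LSer.map (J2con k s)).toRingHom (LSer.C (J_gen s))
  commutes' r := by
    change Polynomial.eval₂ _ _ (algebraMap k (LSer κ)[X] r) = _
    rw [Polynomial.algebraMap_apply, Polynomial.eval₂_C]
    exact (LSer.map (J2con k s)).commutes r

theorem J2emb_C (s : Option κ) (a : LSer κ) : J2emb k s (C a) = LSer.map (J2con k s) a :=
  Polynomial.eval₂_C _ _

theorem J2emb_X (s : Option κ) : J2emb k s X = LSer.C (J_gen s) := Polynomial.eval₂_X _ _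

theorem J2con_base (a : κ) : polR (C a) = algebraMap κ (RatFunc κ) a := by
  rw [IsScalarTower.algebraMap_apply κ κ[X] (RatFunc κ)]
  rfl

theorem J2emb_sub_some (a : κ) : (LSer.map (J2sub k (some a))).comp (J2emb k (some a)) =
    embY (κ := κ) k := by
  apply J1ext
  · intro c
    rw [AlgHom.comp_apply, J2emb_C, embY_C]
    ext n
    rw [LSer.coeff_map, LSer.coeff_map]
    exact J2con_base _
  · rw [AlgHom.comp_apply, J2emb_X, embY_X, LSer.map_C]
    rfl

theorem J2emb_sub_none : (LSer.map (J2sub k (none : Option κ))).comp (J2emb k none) =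
    embW (κ := κ) k := by
  apply J1ext
  · intro c
    rw [AlgHom.comp_apply, J2emb_C, embW_C]
    ext n
    rw [LSer.coeff_map, LSer.coeff_map]
    exact J2con_base _
  · rw [AlgHom.comp_apply, J2emb_X, embW_X, LSer.map_C]
    rfl

theorem J2ps_sub {B : Type u} [CommRing B] [Algebra k B] (s : Option κ)
    (φ : B →ₐ[k] PowerSeries (RatFunc κ)) (φ' : B →ₐ[k] PowerSeries (regAt s))
    (h : ∀ b i, ((PowerSeries.coeff i (φ' b) : regAt s) : RatFunc κ) = PowerSeries.coeff i (φ b)) :
    (LSer.map (J2sub k s)).comp ((LSer.ofPSa k).comp φ') = (LSer.ofPSa k).comp φ := by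
  ext b n
  simp only [AlgHom.comp_apply, LSer.coeff_map, LSer.ofPSa_apply, LSer.coeff_ofPS]
  split_ifs
  · exact h b _
  · exact map_zero _

/-- The point over the Laurent series over the local ring, coordinate `y`. -/
theorem J2pt_some [IsSeparated π] (Ψ : Crv π (LSer κ)) (W : Chart π) (a : κ)
    (φ : W.B →ₐ[k] PowerSeries (RatFunc κ)) (φ' : W.B →ₐ[k] PowerSeries (regAt (some a)))
    (h : ∀ b i, ((PowerSeries.coeff i (φ' b) : regAt (some a)) : RatFunc κ) =
      PowerSeries.coeff i (φ b))
    (hΨ : Ψ.y.map (embY k) = W.pt.map ((LSer.ofPSa k).comp φ)) :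
    Ψ.y.map (J2emb k (some a)) = W.pt.map ((LSer.ofPSa k).comp φ') := by
  apply Pt.map_injective (LSer.map (J2sub k (some a))) (LSer.map_injective _ (J2sub_inj _))
  rw [Pt.map_map, Pt.map_map, J2emb_sub_some, J2ps_sub _ φ φ' h, hΨ]

/-- The point over the Laurent series over the local ring at infinity. -/
theorem J2pt_none [IsSeparated π] (Ψ : Crv π (LSer κ)) (W : Chart π)
    (φ : W.B →ₐ[k] PowerSeries (RatFunc κ)) (φ' : W.B →ₐ[k] PowerSeries (regAt (none : Option κ)))
    (h : ∀ b i, ((PowerSeries.coeff i (φ' b) : regAt (none : Option κ)) : RatFunc κ) =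
      PowerSeries.coeff i (φ b))
    (hΨ : Ψ.w.map (embW k) = W.pt.map ((LSer.ofPSa k).comp φ)) :
    Ψ.w.map (J2emb k none) = W.pt.map ((LSer.ofPSa k).comp φ') := by
  apply Pt.map_injective (LSer.map (J2sub k (none : Option κ)))
    (LSer.map_injective _ (J2sub_inj _))
  rw [Pt.map_map, Pt.map_map, J2emb_sub_none, J2ps_sub _ φ φ' h, hΨ]

/-- coefficientwise second component -/
noncomputable def J2snd (x : LSer (DualNumber κ)) : LSer κ :=
  LSer.mk (fun n => (x.coeff n).snd) (LSer.exists_ge x).choose fun n hn => by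
    rw [(LSer.exists_ge x).choose_spec n hn]
    rfl

theorem J2snd_coeff (x : LSer (DualNumber κ)) (n : ℤ) : (J2snd x).coeff n = (x.coeff n).snd := rfl

theorem J2_sum_snd {ι : Type*} (s : Finset ι) (f : ι → DualNumber κ) :
    (∑ i ∈ s, f i).snd = ∑ i ∈ s, (f i).snd := by
  classical
  induction s using Finset.induction_on with
  | empty => simp
  | insert a s ha ih => rw [Finset.sum_insert ha, Finset.sum_insert ha, TrivSqZeroExt.snd_add, ih]

theorem J2snd_mul (x y : LSer (DualNumber κ)) : J2snd (x * y) =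
    LSer.map (dfst k κ) x * J2snd y + LSer.map (dfst k κ) y * J2snd x := by
  obtain ⟨a, ha⟩ := x.exists_ge
  obtain ⟨b, hb⟩ := y.exists_ge
  have ha' : LSer.Ge a (J2snd x) := fun n hn => by
    rw [J2snd_coeff, ha n hn]
    rfl
  have hb' : LSer.Ge b (J2snd y) := fun n hn => by
    rw [J2snd_coeff, hb n hn]
    rfl
  ext n
  rw [LSer.coeff_add, mul_comm (LSer.map (dfst k κ) y), J2snd_coeff, LSer.coeff_mul ha hb,
    LSer.coeff_mul (ha.map _) hb', LSer.coeff_mul ha' (hb.map _), J2_sum_snd,
    ← Finset.sum_add_distrib]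
  refine Finset.sum_congr rfl fun i _ => ?_
  rw [TrivSqZeroExt.snd_mul, J2snd_coeff, J2snd_coeff, LSer.coeff_map, LSer.coeff_map]
  simp

/-- Laurent series over the dual numbers are dual numbers over the Laurent series. -/
noncomputable def J2iso (k : Type u) [Field k] (κ : Type u) [Field κ] [Algebra k κ] :
    LSer (DualNumber κ) →ₐ[k] DualNumber (LSer κ) where
  toFun x := TrivSqZeroExt.inl (LSer.map (dfst k κ) x) + TrivSqZeroExt.inr (J2snd x)
  map_one' := by
    have h3 : J2snd (1 : LSer (DualNumber κ)) = 0 := by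
      ext n
      rw [J2snd_coeff, LSer.coeff_one]
      split_ifs <;> rfl
    ext1 <;> simp [h3]
  map_mul' x y := by
    ext1
    · simp
    · rw [J2snd_mul (k := k)]
      simp [mul_comm]
  map_zero' := by
    have h3 : J2snd (0 : LSer (DualNumber κ)) = 0 := by
      ext n
      rw [J2snd_coeff]
      rfl
    ext1 <;> simp [h3]
  map_add' x y := by
    have h3 : J2snd (x + y) = J2snd x + J2snd y := by
      ext n
      rw [LSer.coeff_add, J2snd_coeff, J2snd_coeff, J2snd_coeff, LSer.coeff_add]
      rfl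
    ext1 <;> simp [h3]
  commutes' r := by
    have h3 : J2snd (algebraMap k (LSer (DualNumber κ)) r) = 0 := by
      ext n
      rw [J2snd_coeff, LSer.algebraMap_coeff]
      split_ifs
      · rw [TrivSqZeroExt.algebraMap_eq_inl']
        simp
      · rfl
    ext1
    · simp [TrivSqZeroExt.algebraMap_eq_inl']
    · simp [TrivSqZeroExt.algebraMap_eq_inl', h3]

theorem J2iso_fst (x : LSer (DualNumber κ)) : (J2iso k κ x).fst = LSer.map (dfst k κ) x := by
  change (TrivSqZeroExt.inl (LSer.map (dfst k κ) x) + TrivSqZeroExt.inr (J2snd x) :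
    DualNumber (LSer κ)).fst = _
  simp

theorem J2iso_snd (x : LSer (DualNumber κ)) : (J2iso k κ x).snd = J2snd x := by
  change (TrivSqZeroExt.inl (LSer.map (dfst k κ) x) + TrivSqZeroExt.inr (J2snd x) :
    DualNumber (LSer κ)).snd = _
  simp

theorem J2ev_none (ρ : regAt (none : Option κ) →ₐ[k] κ) (h1 : ∀ a, ρ (J2con k none a) = a)
    (h2 : ∀ (g : regAt (none : Option κ)), ρ g = 0 ↔ Van none 1 (g : RatFunc κ)) :
    (LSer.map ρ).comp (J2emb k none) = evk (0 : k) := by
  apply J1ext
  · intro a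
    rw [AlgHom.comp_apply, J2emb_C, J1evk_C]
    ext n
    rw [LSer.coeff_map, LSer.coeff_map, h1]
  · rw [AlgHom.comp_apply, J2emb_X, J1evk_X, LSer.map_C, map_zero]
    have h3 : ρ (J_gen none) = 0 := by
      rw [h2]
      change (polR (X : κ[X]))⁻¹ * ((polR (X : κ[X]))⁻¹) ^ (-(1 : ℤ)) ∈ regAt none
      rw [zpow_neg_one, mul_inv_cancel₀ (inv_ne_zero J_polX_ne)]
      exact Subring.one_mem _
    rw [h3, map_zero]

theorem J2van_zero (s : Option κ) (m : ℤ) : Van s m (0 : RatFunc κ) := by
  change 0 * _ ∈ regAt s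
  rw [zero_mul]
  exact Subring.zero_mem _

theorem J2ev_some (τ : regAt (some (0 : κ)) →ₐ[k] DualNumber κ)
    (hτ : ∀ (g : regAt (some (0 : κ))) (a b : κ),
      Van (some 0) 2 ((g : RatFunc κ) - polR (C a) - polR (C b) * unif (some 0)) →
        (τ g).fst = a ∧ (τ g).snd = b) :
    ((J2iso k κ).comp (LSer.map τ)).comp (J2emb k (some 0)) = evEps k (LSer κ) := by
  apply J1ext
  · intro a
    have h1 : ∀ c : κ, τ (J2con k (some 0) c) = TrivSqZeroExt.inl c := by
      intro c
      obtain ⟨h2, h3⟩ := hτ (J2con k (some 0) c) c 0 (by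
        rw [J2con_apply, sub_self, C_0, map_zero, zero_mul, sub_zero]
        exact J2van_zero _ _)
      ext
      · rw [h2]; simp
      · rw [h3]; simp
    have h4 : evEps k (LSer κ) (C a) = TrivSqZeroExt.inl a := by
      change Polynomial.aeval _ (C a) = _
      rw [Polynomial.aeval_C]
      rfl
    rw [h4, AlgHom.comp_apply, AlgHom.comp_apply, J2emb_C]
    apply TrivSqZeroExt.ext
    · rw [J2iso_fst, TrivSqZeroExt.fst_inl]
      ext n
      rw [LSer.coeff_map, LSer.coeff_map, LSer.coeff_map, h1]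
      rfl
    · rw [J2iso_snd, TrivSqZeroExt.snd_inl]
      ext n
      rw [J2snd_coeff, LSer.coeff_map, LSer.coeff_map, h1]
      rfl
  · have h4 : evEps k (LSer κ) X = DualNumber.eps := Polynomial.aeval_X _
    rw [h4, AlgHom.comp_apply, AlgHom.comp_apply, J2emb_X, LSer.map_C]
    obtain ⟨h2, h3⟩ := hτ (J_gen (some 0)) 0 1 (by
      change Van (some 0) 2 (polR X - polR (C 0) - polR (C 1) * polR (X - C 0))
      rw [C_0, map_zero, sub_zero, sub_zero, C_1, map_one, one_mul, sub_self]
      exact J2van_zero _ _)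
    apply TrivSqZeroExt.ext
    · rw [J2iso_fst, DualNumber.fst_eps]
      ext n
      rw [LSer.coeff_map, LSer.coeff_C, LSer.coeff_zero]
      split_ifs
      · exact h2
      · rfl
    · rw [J2iso_snd, DualNumber.snd_eps]
      ext n
      rw [J2snd_coeff, LSer.coeff_C, LSer.coeff_one]
      split_ifs
      · exact h3
      · rfl

end local_rings

/-- A field of rational functions with its partial derivatives. -/
theorem J2field (k : Type u) [Field k] (N : ℕ) :
    ∃ (κ : Type u) (_ : Field κ) (_ : Algebra k κ) (w : Fin N → κ)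
      (d : Fin N → Derivation k κ κ), ∀ a b, d a (w b) = if a = b then 1 else 0 := by
  classical
  let R : Type u := MvPolynomial (Fin N) k
  let κ : Type u := FractionRing R
  let f : Fin N → R →ₐ[k] DualNumber κ := fun a =>
    MvPolynomial.aeval (fun b => TrivSqZeroExt.inl (algebraMap R κ (MvPolynomial.X b)) +
      TrivSqZeroExt.inr (if a = b then 1 else 0))
  have hf1 : ∀ a p, (f a p).fst = algebraMap R κ p := by
    intro a p
    have h : (dfst k κ).comp (f a) = IsScalarTower.toAlgHom k R κ := by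
      apply MvPolynomial.algHom_ext
      intro b
      rw [AlgHom.comp_apply]
      have : f a (MvPolynomial.X b) = TrivSqZeroExt.inl (algebraMap R κ (MvPolynomial.X b)) +
        TrivSqZeroExt.inr (if a = b then 1 else 0) := MvPolynomial.aeval_X _ _
      rw [this]
      simp only [dfst, TrivSqZeroExt.fstHom_apply, TrivSqZeroExt.fst_add, TrivSqZeroExt.fst_inl,
        TrivSqZeroExt.fst_inr, add_zero]
      rfl
    exact congrArg (fun e : R →ₐ[k] κ => e p) h
  have hunit : ∀ a (y : nonZeroDivisors R), IsUnit ((f a).toRingHom y) := by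
    intro a y
    rw [TrivSqZeroExt.isUnit_iff_isUnit_fst]
    have h1 : ((f a).toRingHom y).fst = algebraMap R κ y := hf1 a y
    rw [h1]
    exact IsLocalization.map_units κ y
  let g : Fin N → κ →+* DualNumber κ := fun a =>
    IsLocalization.lift (M := nonZeroDivisors R) (g := (f a).toRingHom) (hunit a)
  have hg1 : ∀ a (p : R), g a (algebraMap R κ p) = f a p := fun a p => IsLocalization.lift_eq _ _
  have hg2 : ∀ a (x : κ), (g a x).fst = x := by
    intro a x
    have h : ((dfst k κ).toRingHom.comp (g a)) = RingHom.id κ := by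
      apply IsLocalization.ringHom_ext (nonZeroDivisors R)
      refine RingHom.ext fun p => ?_
      have := hf1 a p
      rw [← hg1] at this
      exact this
    exact congrArg (fun e : κ →+* κ => e x) h
  have hg3 : ∀ a (r : k), g a (algebraMap k κ r) = TrivSqZeroExt.inl (algebraMap k κ r) := by
    intro a r
    have h1 : algebraMap k κ r = algebraMap R κ (MvPolynomial.C r) := by
      rw [IsScalarTower.algebraMap_apply k R κ]
      rfl
    conv_lhs => rw [h1, hg1]
    have h2 : f a (MvPolynomial.C r) = algebraMap k (DualNumber κ) r := (f a).commutes r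
    rw [h2, TrivSqZeroExt.algebraMap_eq_inl']
  let D : Fin N → Derivation k κ κ := fun a => Derivation.mk'
    { toFun := fun x => (g a x).snd
      map_add' := fun x y => by rw [map_add, TrivSqZeroExt.snd_add]
      map_smul' := fun r x => by
        rw [Algebra.smul_def, map_mul, TrivSqZeroExt.snd_mul, hg3, RingHom.id_apply,
          Algebra.smul_def]
        simp [Algebra.smul_def] }
    (fun x y => by
      change (g a (x * y)).snd = x • (g a y).snd + y • (g a x).snd
      rw [map_mul, TrivSqZeroExt.snd_mul, hg2, hg2]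
      simp [mul_comm])
  refine ⟨κ, inferInstance, inferInstance, fun b => algebraMap R κ (MvPolynomial.X b), D,
    fun a b => ?_⟩
  change (g a (algebraMap R κ (MvPolynomial.X b))).snd = _
  rw [hg1]
  have : f a (MvPolynomial.X b) = TrivSqZeroExt.inl (algebraMap R κ (MvPolynomial.X b)) +
    TrivSqZeroExt.inr (if a = b then 1 else 0) := MvPolynomial.aeval_X _ _
  rw [this, TrivSqZeroExt.snd_add, TrivSqZeroExt.snd_inl, TrivSqZeroExt.snd_inr, zero_add]

/-- The determinant of sections in the coordinates of the chart at `s` and of the generic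
chart. -/
theorem J2det {n : ℕ} {κ : Type u} [Field κ] [Algebra k κ] (D : LocData π n κ) (s : Option κ)
    (hs : InS D.S s) (ξ : Fin n → Sec D)
    (h : (Matrix.of fun i j => ((ξ i).δ s ((D.W s).z j)).snd).det ≠ 0) :
    (Matrix.of fun i j => ((ξ i).δ1 (D.W1.z j)).snd).det ≠ 0 := by
  obtain ⟨U, α, α', ψ, hU, hU', hψ, hψ', ⟨g, hg⟩, ⟨g', hg'⟩⟩ :=
    exists_refine (D.W s).toChart D.W1.toChart (D.f s) D.f1 (D.same s hs)
  have hz := (D.W s).et.away α g hg
  have hz' := D.W1.et.away α' g' hg'
  obtain ⟨J, hJ, hJ2⟩ := etale_jacobian _ _ hz hz' ψ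
  have key : ∀ i, ∃ δU : U.B →ₐ[k] DualNumber (RatFunc κ), (∀ b, (δU b).fst = ψ b) ∧
      (ξ i).δ s = δU.comp α ∧ (ξ i).δ1 = δU.comp α' := by
    intro i
    have h1 : ((D.W s).pt.map ((ξ i).δ s)).map (dfst k (RatFunc κ)) = U.pt.map ψ := by
      rw [hU, Pt.map_map, Pt.map_map, hψ]
      congr 1
      ext b : 1
      exact (ξ i).h s hs b
    have hloc : IsLocalHom (dfst k (RatFunc κ)).toRingHom :=
      ⟨fun a ha => TrivSqZeroExt.isUnit_iff_isUnit_fst.2 ha⟩
    obtain ⟨δU, h2, h3⟩ := U.factor_local (dfst k (RatFunc κ)) hloc _ ψ h1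
    refine ⟨δU, fun b => congrArg (fun e : U.B →ₐ[k] RatFunc κ => e b) h3, ?_, ?_⟩
    · apply (D.W s).toChart.map_injective
      rw [h2, hU, Pt.map_map]
    · apply D.W1.toChart.map_injective
      rw [← (ξ i).same s hs, h2, hU', Pt.map_map]
  choose δU h1 h2 h3 using key
  have hM : (Matrix.of fun i j => ((ξ i).δ1 (D.W1.z j)).snd) =
      (Matrix.of fun i j => ((ξ i).δ s ((D.W s).z j)).snd) * J.transpose := by
    ext i j
    rw [Matrix.mul_apply]
    have h4 := congrFun (hJ2 (δU i) (h1 i)) j
    simp only [Matrix.of_apply]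
    rw [h3 i, h2 i]
    rw [AlgHom.comp_apply]
    rw [h4, Matrix.mulVec, dotProduct]
    refine Finset.sum_congr rfl fun l _ => ?_
    rw [Matrix.transpose_apply, mul_comm]
    rfl
  rw [hM, Matrix.det_mul, Matrix.det_transpose]
  exact mul_ne_zero h ((Matrix.isUnit_iff_isUnit_det _).1 hJ).ne_zero

/-- The tangent vector of a section at a point, for the determinant at `0`. -/
theorem J2det0 {n : ℕ} (m : Matrix (Fin n) (Fin n) (RatFunc k)) (s : Option k)
    (h : ∀ i j, Van s 1 (m i j - polR (C (if i = j then 1 else 0)))) : m.det ≠ 0 := by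
  obtain ⟨ρ, h1, h2⟩ := J2res k (κ := k) s
  have hreg : ∀ i j, m i j ∈ regAt s := by
    intro i j
    have h3 := van_zero_iff.1 ((h i j).mono (m' := 0) (by norm_num))
    have h4 := Subring.add_mem _ h3 (polR_C_mem s (if i = j then (1 : k) else 0))
    rwa [sub_add_cancel] at h4
  obtain ⟨m', hm'⟩ : ∃ m' : Matrix (Fin n) (Fin n) (regAt s), ∀ i j, (m' i j : RatFunc k) = m i j :=
    ⟨fun i j => ⟨m i j, hreg i j⟩, fun i j => rfl⟩
  have hmap : m = (regAt s).subtype.mapMatrix m' := by
    ext i j
    rw [RingHom.mapMatrix_apply, Matrix.map_apply]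
    exact (hm' i j).symm
  have hρ : ρ.toRingHom.mapMatrix m' = 1 := by
    ext i j
    rw [RingHom.mapMatrix_apply, Matrix.map_apply, Matrix.one_apply]
    have h5 := (h2 (m' i j - J2con k s (if i = j then 1 else 0))).2 (by
      change Van s 1 ((m' i j : RatFunc k) - polR (C (if i = j then 1 else 0)))
      rw [hm']
      exact h i j)
    rw [map_sub, h1, sub_eq_zero] at h5
    exact h5
  intro h0
  rw [hmap, ← RingHom.map_det] at h0
  have h6 : m'.det = 0 := Subtype.ext h0
  have h7 := RingHom.map_det ρ.toRingHom m'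
  rw [hρ, Matrix.det_one, h6, map_zero] at h7
  exact zero_ne_one h7

theorem J2back_zero (k κ : Type u) [Field k] [Field κ] [Algebra k κ] :
    back k κ (some 0) = some 0 := by
  have := back_map (κ := κ) (some (0 : k))
  rw [Option.map_some, map_zero] at this
  exact this

theorem J2back_none (k κ : Type u) [Field k] [Field κ] [Algebra k κ] :
    back k κ none = none := back_map (κ := κ) (none : Option k)

theorem J2_secs {n : ℕ} [IsSeparated π] (F : Crv π k) (hF : IsVeryFree F) (D : LocData π n k)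
    (hD : D.Of (F.pow 2)) (t0 : Option k) (ht0 : t0 = some 0) (ht0S : InS D.S t0)
    (ν0 : (D.W t0).B →ₐ[k] k) (hν : (F.pow 2).at t0 = (D.W t0).pt.map ν0) :
    ∃ σ : Fin n → Sec D, (∀ i j, Van t0 1 (((σ i).δ t0 ((D.W t0).z j)).snd -
      polR (C (if i = j then 1 else 0)))) ∧ ∀ i b, Van none 2 (((σ i).δ none b).snd) := by
  have hat : ∀ {R : Type u} [CommRing R] [Algebra k R] (G : Crv π R),
      (G.pow 2).at t0 = G.at (some 0) := by
    intro R _ _ G
    rw [ht0, Crv.pow_at_some, zero_pow two_ne_zero]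
  have key : ∀ i : Fin n, ∃ σ : Sec D, (∀ j, Van t0 1 ((σ.δ t0 ((D.W t0).z j)).snd -
      polR (C (if i = j then 1 else 0)))) ∧ ∀ b, Van none 2 ((σ.δ none b).snd) := by
    intro i
    obtain ⟨ti, h1, h2⟩ := (etale_dual (D.W t0).z (D.W t0).et ν0 (Pi.single i 1)).exists
    have hτ : ((D.W t0).pt.map ti).map (dfst k k) = F.at (some 0) := by
      rw [← hat F, hν, Pt.map_map]
      congr 1
      ext b
      exact h1 b
    obtain ⟨G, hG1, hG2, hG3⟩ := hF _ hτ
    obtain ⟨σ, hσ1, hσ2, hσ3⟩ := exists_sec_pow F 2 (by norm_num) D hD G hG1 hG3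
    obtain ⟨νd, h4, h5⟩ := hσ2 t0 ht0S
    rw [hat G, hG2] at h4
    have h6 := (D.W t0).toChart.map_injective h4
    refine ⟨σ, fun j => ?_, fun b => hσ3 b⟩
    have h7 := h5 ((D.W t0).z j)
    rw [← h6, h2 j, Pi.single_apply] at h7
    simpa only [eq_comm] using h7
  choose σ h1 h2 using key
  exact ⟨σ, h1, h2⟩

theorem J2expand (s : Option k) (g : RatFunc k) (hv : Van s 1 g) :
    ∃ b : k, Van s 2 (g - polR (C b) * unif s) := by
  have hu := J2unif_ne s
  have h1 : g * (unif s)⁻¹ ∈ regAt s := by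
    have h2 : g * (unif s) ^ (-(1 : ℤ)) ∈ regAt s := hv
    rwa [zpow_neg_one] at h2
  obtain ⟨b, hb⟩ := Dres h1
  refine ⟨b, ?_⟩
  have h3 : Van s 1 (unif s) := by
    change unif s * (unif s) ^ (-(1 : ℤ)) ∈ regAt s
    rw [zpow_neg_one, mul_inv_cancel₀ hu]
    exact Subring.one_mem _
  have h4 := h3.mul hb
  have h5 : unif s * (g * (unif s)⁻¹ - polR (C b)) = g - polR (C b) * unif s := by
    field_simp
  rw [h5] at h4
  exact h4

/-- the base changed data -/
theorem J2_base {n : ℕ} (D : LocData π n k) (κ : Type u) [Field κ]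
    [Algebra k κ] (t0 : Option k) (ht0S : InS D.S t0)
    (σ : Fin n → Sec D) (h1 : ∀ i j, Van t0 1 (((σ i).δ t0 ((D.W t0).z j)).snd -
      polR (C (if i = j then 1 else 0)))) (h2 : ∀ i b, Van none 2 (((σ i).δ none b).snd)) :
    (∀ i b, Van none 2 ((((σ i).base κ).δ none b).snd)) ∧
      (Matrix.of fun i j => (((σ i).base κ).δ1 ((D.base κ).W1.z j)).snd).det ≠ 0 := by
  constructor
  · intro i b
    have h3 : ∀ t : Option k, t = none → ∀ b, Van t 2 (((σ i).δ t b).snd) := by
      rintro _ rfl b
      exact h2 i b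
    have h4 := rbase_van (κ := κ) _ _ _ (h3 (back k κ none) (J2back_none k κ) b)
    have h5 : (back k κ none).map (algebraMap k κ) = none := by
      rw [J2back_none]
      rfl
    rw [h5] at h4
    have h6 : (((σ i).base κ).δ none b).snd = rbase k κ (((σ i).δ (back k κ none) b).snd) :=
      dmap_snd _ _
    rw [h6]
    exact h4
  · have h3 := J2det D t0 ht0S σ (J2det0 _ t0 h1)
    have h4 : (Matrix.of fun i j => (((σ i).base κ).δ1 ((D.base κ).W1.z j)).snd) =
        (rbase k κ).toRingHom.mapMatrix (Matrix.of fun i j => ((σ i).δ1 (D.W1.z j)).snd) := by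
      ext i j
      rw [RingHom.mapMatrix_apply, Matrix.map_apply]
      exact dmap_snd _ _
    rw [h4, ← RingHom.map_det]
    exact (map_ne_zero_iff _ (rbase k κ).toRingHom.injective).2 h3

open Classical in
/-- the orders of vanishing -/
noncomputable def J2nn (κ : Type u) [Field κ] (s : Option κ) : ℕ :=
  if s = some 0 then 2 else if s = none then 1 else 0

theorem J2nn_le (κ : Type u) [Field κ] (S : Finset κ) :
    (∑ s ∈ S, (J2nn κ (some s) : ℤ)) + J2nn κ none ≤ 2 + 1 := by
  classical
  have h1 : ∀ s : κ, (J2nn κ (some s) : ℤ) = if s = 0 then 2 else 0 := by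
    intro s
    unfold J2nn
    by_cases hs : s = 0
    · subst hs
      simp
    · have : ¬ (some s = some (0 : κ)) := fun h => hs (Option.some.inj h)
      rw [if_neg this, if_neg hs]
      simp
  have h2 : J2nn κ none = 1 := by
    unfold J2nn
    simp
  rw [h2]
  simp only [h1]
  rw [Finset.sum_ite_eq']
  split_ifs <;> norm_num

open Classical in
/-- the prescribed jets -/
noncomputable def J2g {n : ℕ} {κ : Type u} [Field κ] (u : Fin (n + n) → κ) (s : Option κ)
    (j : Fin n) : RatFunc κ :=
  if s = some 0 then polR (C (u (Fin.castAdd n j)) * X)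
    else if s = none then polR (C (u (Fin.natAdd n j))) else 0

theorem J2g_mem {n : ℕ} {κ : Type u} [Field κ] (u : Fin (n + n) → κ) (s : Option κ)
    (j : Fin n) : J2g u s j ∈ regAt s := by
  unfold J2g
  split_ifs with h1 h2
  · subst h1
    exact polR_mem_regFin _ _
  · subst h2
    exact polR_C_mem _ _
  · exact Subring.zero_mem _

section at_points

variable {κ : Type u} [Field κ] [Algebra k κ]

attribute [local instance] J2alg

theorem J2_atinf [IsSeparated π] {n : ℕ} (Ψ : Crv π (LSer κ)) (W : EChart π n)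
    (f : W.B →ₐ[k] PowerSeries (RatFunc κ))
    (hreg : ∀ b i, PowerSeries.coeff i (f b) ∈ regAt (none : Option κ))
    (hΨ : Ψ.w.map (embW k) = W.pt.map ((LSer.ofPSa k).comp f)) (u : Fin n → κ)
    (h0 : ∀ j, Van none 1 (PowerSeries.coeff 0 (f (W.z j))))
    (h1 : ∀ j, Van none 1 (PowerSeries.coeff 1 (f (W.z j)) - polR (C (u j))))
    (h2 : ∀ j i, 2 ≤ i → Van none 1 (PowerSeries.coeff i (f (W.z j)))) :
    ∃ φi : W.B →ₐ[k] LSer κ, Ψ.at none = W.pt.map φi ∧
      ∀ j, φi (W.z j) = LSer.T 1 * LSer.C (u j) := by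
  obtain ⟨f', hf'⟩ := J2cod none f hreg
  obtain ⟨ρ, hρ1, hρ2⟩ := J2res k (κ := κ) none
  have hval : ∀ (g : regAt (none : Option κ)) (a : κ),
      Van none 1 ((g : RatFunc κ) - polR (C a)) → ρ g = a := by
    intro g a h
    have h7 := (hρ2 (g - J2con k none a)).2 h
    rw [map_sub, hρ1, sub_eq_zero] at h7
    exact h7
  refine ⟨(LSer.map ρ).comp ((LSer.ofPSa k).comp f'), ?_, ?_⟩
  · have h3 := J2pt_none Ψ W.toChart f f' hf' hΨ
    have h4 := congrArg (fun p => Pt.map p (LSer.map ρ)) h3
    simp only [Pt.map_map] at h4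
    rw [J2ev_none ρ hρ1 hρ2] at h4
    exact h4
  · intro j
    ext m
    rw [AlgHom.comp_apply, AlgHom.comp_apply, LSer.coeff_map, LSer.ofPSa_apply, LSer.coeff_ofPS,
      LSer.coeff_T_mul, LSer.coeff_C]
    by_cases hm : 0 ≤ m
    · rw [if_pos hm]
      obtain ⟨i, rfl⟩ := Int.eq_ofNat_of_zero_le hm
      rw [Int.toNat_natCast]
      rcases Nat.lt_or_ge i 2 with hi | hi
      · interval_cases i
        · rw [if_neg (by norm_num)]
          apply hval
          rw [hf', C_0, map_zero, sub_zero]
          exact h0 j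
        · rw [if_pos (by norm_num)]
          apply hval
          rw [hf']
          exact h1 j
      · rw [if_neg (by omega)]
        apply hval
        rw [hf', C_0, map_zero, sub_zero]
        exact h2 j i hi
    · rw [if_neg hm, if_neg (by omega), map_zero]

theorem J2_at0 [IsSeparated π] {n : ℕ} (Ψ : Crv π (LSer κ)) (W : EChart π n)
    (f : W.B →ₐ[k] PowerSeries (RatFunc κ))
    (hreg : ∀ b i, PowerSeries.coeff i (f b) ∈ regAt (some (0 : κ)))
    (hΨ : Ψ.y.map (embY k) = W.pt.map ((LSer.ofPSa k).comp f)) (u : Fin n → κ)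
    (ν0 : W.B →ₐ[k] k) (hν : ∀ j, ν0 (W.z j) = 0)
    (h00 : ∀ b, Van (some 0) 1 (PowerSeries.coeff 0 (f b) - polR (C (algebraMap k κ (ν0 b)))))
    (h0 : ∀ j, ∃ c : k, Van (some 0) 2 (PowerSeries.coeff 0 (f (W.z j)) -
      polR (C (algebraMap k κ c)) * unif (some 0)))
    (h1 : ∀ j, Van (some 0) 2 (PowerSeries.coeff 1 (f (W.z j)) - polR (C (u j)) * unif (some 0)))
    (h2 : ∀ j i, 2 ≤ i → Van (some 0) 2 (PowerSeries.coeff i (f (W.z j)))) :
    ∃ φ0 : W.B →ₐ[k] DualNumber (LSer κ), Ψ.y.map (evEps k (LSer κ)) = W.pt.map φ0 ∧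
      (∀ b, (φ0 b).fst = algebraMap k (LSer κ) (ν0 b)) ∧
      ∀ j, ∃ c : k, (φ0 (W.z j)).snd = LSer.C (algebraMap k κ c) + LSer.T 1 * LSer.C (u j) := by
  obtain ⟨f', hf'⟩ := J2cod (some 0) f hreg
  obtain ⟨ρ, hρ1, hρ2⟩ := J2res k (κ := κ) (some 0)
  obtain ⟨τ, hτ1, hτ2⟩ := J2tau k (some 0) ρ hρ1 hρ2
  have hval : ∀ (g : regAt (some (0 : κ))) (a : κ),
      Van (some 0) 1 ((g : RatFunc κ) - polR (C a)) → ρ g = a := by
    intro g a h
    have h7 := (hρ2 (g - J2con k (some 0) a)).2 h
    rw [map_sub, hρ1, sub_eq_zero] at h7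
    exact h7
  have hjet : ∀ (g : regAt (some (0 : κ))) (b : κ),
      Van (some 0) 2 ((g : RatFunc κ) - polR (C b) * unif (some 0)) →
        ρ g = 0 ∧ (τ g).snd = b := by
    intro g b h
    have h3 := hτ2 g 0 b (by
      rw [C_0, map_zero, sub_zero]
      exact h)
    exact ⟨(hτ1 g).symm.trans h3.1, h3.2⟩
  -- values of the coordinates
  have hz0 : ∀ j i, ρ (PowerSeries.coeff i (f' (W.z j))) = 0 := by
    intro j i
    rcases Nat.lt_or_ge i 2 with hi | hi
    · interval_cases i
      · obtain ⟨c, hc⟩ := h0 j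
        refine (hjet _ (algebraMap k κ c) ?_).1
        rw [hf']
        exact hc
      · refine (hjet _ (u j) ?_).1
        rw [hf']
        exact h1 j
    · refine (hjet _ 0 ?_).1
      rw [hf', C_0, map_zero, zero_mul, sub_zero]
      exact h2 j i hi
  have hconst : (PowerSeries.mapAlgHom ρ).comp f' = (Algebra.ofId k (PowerSeries κ)).comp ν0 := by
    apply etale_unique W.z W.et
    · intro b
      have e1 : PowerSeries.constantCoeff (((PowerSeries.mapAlgHom ρ).comp f') b) =
          ρ (PowerSeries.coeff 0 (f' b)) := by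
        rw [← PowerSeries.coeff_zero_eq_constantCoeff_apply]
        rfl
      have e2 : PowerSeries.constantCoeff (((Algebra.ofId k (PowerSeries κ)).comp ν0) b) =
          algebraMap k κ (ν0 b) := by
        change PowerSeries.constantCoeff (algebraMap k (PowerSeries κ) (ν0 b)) = _
        rw [PowerSeries.algebraMap_apply, PowerSeries.constantCoeff_C]
      rw [e1, e2]
      apply hval
      rw [hf']
      exact h00 b
    · intro j
      ext i
      have e1 : PowerSeries.coeff i (((PowerSeries.mapAlgHom ρ).comp f') (W.z j)) =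
          ρ (PowerSeries.coeff i (f' (W.z j))) := rfl
      have e2 : ((Algebra.ofId k (PowerSeries κ)).comp ν0) (W.z j) = 0 := by
        rw [AlgHom.comp_apply, hν j, map_zero]
      rw [e1, e2, hz0 j i, map_zero]
  refine ⟨((J2iso k κ).comp (LSer.map τ)).comp ((LSer.ofPSa k).comp f'), ?_, ?_, ?_⟩
  · have h3 := J2pt_some Ψ W.toChart 0 f f' hf' hΨ
    have h4 := congrArg (fun p => Pt.map p ((J2iso k κ).comp (LSer.map τ))) h3
    simp only [Pt.map_map] at h4
    rw [J2ev_some τ hτ2] at h4
    exact h4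
  · intro b
    rw [AlgHom.comp_apply, AlgHom.comp_apply, J2iso_fst, AlgHom.comp_apply]
    ext m
    rw [LSer.coeff_map, LSer.coeff_map, LSer.ofPSa_apply, LSer.coeff_ofPS, LSer.algebraMap_coeff]
    have e3 : ∀ g, dfst k κ (τ g) = ρ g := hτ1
    rw [e3]
    have e4 : ∀ i, ρ (PowerSeries.coeff i (f' b)) = if i = 0 then algebraMap k κ (ν0 b) else 0 := by
      intro i
      have e5 := congrArg (fun e : W.B →ₐ[k] PowerSeries κ => PowerSeries.coeff i (e b)) hconst
      have e6 : ρ (PowerSeries.coeff i (f' b)) =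
        PowerSeries.coeff i (algebraMap k (PowerSeries κ) (ν0 b)) := e5
      rw [e6, PowerSeries.algebraMap_apply, PowerSeries.coeff_C]
    by_cases hm : 0 ≤ m
    · rw [if_pos hm]
      obtain ⟨i, rfl⟩ := Int.eq_ofNat_of_zero_le hm
      rw [Int.toNat_natCast, e4]
      by_cases hi : i = 0
      · rw [if_pos hi, if_pos (by omega)]
      · rw [if_neg hi, if_neg (by omega)]
    · rw [if_neg hm, if_neg (by omega), map_zero]
  · intro j
    obtain ⟨c, hc⟩ := h0 j
    refine ⟨c, ?_⟩
    rw [AlgHom.comp_apply, AlgHom.comp_apply, J2iso_snd, AlgHom.comp_apply]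
    ext m
    rw [J2snd_coeff, LSer.coeff_map, LSer.ofPSa_apply, LSer.coeff_ofPS, LSer.coeff_add,
      LSer.coeff_T_mul, LSer.coeff_C, LSer.coeff_C]
    by_cases hm : 0 ≤ m
    · rw [if_pos hm]
      obtain ⟨i, rfl⟩ := Int.eq_ofNat_of_zero_le hm
      rw [Int.toNat_natCast]
      rcases Nat.lt_or_ge i 2 with hi | hi
      · interval_cases i
        · rw [if_pos (by norm_num), if_neg (by norm_num), add_zero]
          refine (hjet _ (algebraMap k κ c) ?_).2
          rw [hf']
          exact hc
        · rw [if_neg (by norm_num), if_pos (by norm_num), zero_add]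
          refine (hjet _ (u j) ?_).2
          rw [hf']
          exact h1 j
      · rw [if_neg (by omega), if_neg (by omega), add_zero]
        refine (hjet _ 0 ?_).2
        rw [hf', C_0, map_zero, zero_mul, sub_zero]
        exact h2 j i hi
    · rw [if_neg hm, if_neg (by omega), if_neg (by omega), map_zero, add_zero]
      rfl

end at_points

theorem J2_der0 {κ : Type u} [Field κ] [Algebra k κ] (D : Derivation k κ κ) (c : k) (v : κ) :
    LSer.der D (LSer.C (algebraMap k κ c) + LSer.T 1 * LSer.C v) = LSer.T 1 * LSer.C (D v) := by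
  ext m
  rw [LSer.coeff_der, LSer.coeff_add, map_add, LSer.coeff_C, LSer.coeff_T_mul, LSer.coeff_T_mul,
    LSer.coeff_C, LSer.coeff_C]
  split_ifs <;> simp

theorem J2_der1 {κ : Type u} [Field κ] [Algebra k κ] (D : Derivation k κ κ) (v : κ) :
    LSer.der D (LSer.T 1 * LSer.C v) = LSer.T 1 * LSer.C (D v) := by
  ext m
  rw [LSer.coeff_der, LSer.coeff_T_mul, LSer.coeff_T_mul,
    LSer.coeff_C, LSer.coeff_C]
  split_ifs <;> simp

theorem J2_main [IsAlgClosed k] {n : ℕ} [SmoothOfRelativeDimension n π] [IsSeparated π]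
    (F : Crv π k) (hF : IsVeryFree F) (κ : Type u) [Field κ] [Algebra k κ] (u : Fin (n + n) → κ)
    (d : Fin (n + n) → Derivation k κ κ) (hd : ∀ a b, d a (u b) = if a = b then 1 else 0) :
    Nonempty (FamData π n) := by
  classical
  have hsm : Smooth π := SmoothOfRelativeDimension.smooth n π
  obtain ⟨D, hS, hD⟩ := exists_locData (n := n) (F.pow 2) {0}
  -- the points of `D`
  have ht0 := J2back_zero k κ
  have hti := J2back_none k κ
  have ht0S : InS D.S (back k κ (some 0)) := by
    rw [ht0]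
    intro a ha
    cases ha
    exact hS (Finset.mem_singleton_self 0)
  have htiS : InS D.S (back k κ none) := by
    rw [hti]
    intro a ha
    cases ha
  have hs0S : InS (D.base κ).S (some 0) := by
    have := J1inS' (κ := κ) ht0S
    rw [ht0, Option.map_some, map_zero] at this
    exact this
  have hsiS : InS (D.base κ).S none := by
    intro a ha
    cases ha
  obtain ⟨ν0, hν1, hν2, hν3⟩ := hD.hat (back k κ (some 0)) ht0S
  obtain ⟨νi, hi1, hi2, hi3⟩ := hD.hat (back k κ none) htiS
  obtain ⟨σ, hσ1, hσ2⟩ := J2_secs F hF D hD _ ht0 ht0S ν0 hν1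
  obtain ⟨hN, hdet⟩ := J2_base D κ _ ht0S σ hσ1 hσ2
  obtain ⟨θ, hθ⟩ := linear_cousin (D.base κ) 2 (fun i => (σ i).base κ) hN hdet (J2nn κ)
    (J2nn_le κ _) (J2g u) (fun s _ j => J2g_mem u s j)
  obtain ⟨φ1, φ, h1, h2, h3, h4, h5, h6, h7⟩ := deform (D.base κ) 2 (fun i => (σ i).base κ) hN hdet
    (J2nn κ) (J2nn_le κ _) θ
  have hθs : ∀ s, InS (D.base κ).S s → (D.base κ).W1.pt.map ((LSer.ofPSa k).comp φ1) =
      ((D.base κ).W s).pt.map ((LSer.ofPSa k).comp (φ s)) := by
    intro s hs
    rw [← Pt.map_map, ← Pt.map_map, h5 s hs]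
  have hser : ∀ (O : Subring (RatFunc κ)) (g : PowerSeries (RatFunc κ)),
      (∀ i, PowerSeries.coeff i g ∈ O) → SerIn O (LSer.ofPS g) := by
    intro O g hg m
    rw [LSer.coeff_ofPS]
    split_ifs
    · exact hg _
    · exact O.zero_mem
  obtain ⟨Ψ, hΨy, hΨw⟩ := alg_glue (D.base κ).S ((D.base κ).W1.pt.map ((LSer.ofPSa k).comp φ1))
    (D.base κ).W1.toChart ((LSer.ofPSa k).comp φ1) rfl (fun b => hser _ _ (h2 b)) (by
      intro s hs q hq
      refine ⟨((D.base κ).W s).toChart, (LSer.ofPSa k).comp (φ s), hθs s hs, fun b => ?_⟩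
      refine ⟨⟨LSer.ofPS (φ s b), hser _ _ (h4 s hs b)⟩, 1, ?_, ?_⟩
      · exact fun h => hq.ne_top ((Ideal.eq_top_iff_one q).2 h)
      · change _ * (1 : LSer (RatFunc κ)) = _
        rw [mul_one]
        rfl)
  rw [hθs _ hs0S] at hΨy
  rw [hθs _ hsiS] at hΨw
  have hm0 : (back k κ (some 0)).map (algebraMap k κ) = some 0 := by
    rw [ht0, Option.map_some, map_zero]
  have hmi : (back k κ none).map (algebraMap k κ) = none := by
    rw [hti]
    rfl
  have hnn0 : J2nn κ (some 0) = 2 := by
    unfold J2nn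
    rw [if_pos rfl]
  have hnni : J2nn κ none = 1 := by
    unfold J2nn
    simp
  -- zero
  obtain ⟨φ0, hφ0a, hφ0b, hφ0c⟩ := J2_at0 Ψ ((D.base κ).W (some 0)) (φ (some 0)) (h4 _ hs0S) hΨy
    (fun j => u (Fin.castAdd n j)) ν0 hν3 (by
      intro b
      rw [PowerSeries.coeff_zero_eq_constantCoeff_apply, h3 _ hs0S b]
      have h8 := rbase_van (κ := κ) _ _ _ (hν2 b)
      rw [hm0, map_sub, rbase_polR, Polynomial.map_C] at h8
      exact h8) (by
      intro j
      have h9 := hν2 ((D.W (back k κ (some 0))).z j)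
      rw [hν3 j, C_0, map_zero, sub_zero] at h9
      obtain ⟨c, hc⟩ := J2expand _ _ h9
      refine ⟨c, ?_⟩
      rw [PowerSeries.coeff_zero_eq_constantCoeff_apply, h3 _ hs0S]
      have h8 := rbase_van (κ := κ) _ _ _ hc
      rw [map_sub, map_mul, J1rbase_unif, rbase_polR, Polynomial.map_C, hm0] at h8
      exact h8) (by
      intro j
      rw [h6 _ hs0S]
      have h8 := hθ _ hs0S j
      rw [hnn0] at h8
      have h9 : J2g u (some 0) j = polR (C (u (Fin.castAdd n j))) * unif (some 0) := by
        unfold J2g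
        rw [if_pos rfl, map_mul]
        change _ = _ * polR (X - C 0)
        rw [C_0, sub_zero]
      rw [h9] at h8
      exact h8) (by
      intro j i hi
      have h8 := h7 _ hs0S j i hi
      rw [hnn0] at h8
      exact h8)
  -- infinity
  obtain ⟨φi, hφia, hφib⟩ := J2_atinf Ψ ((D.base κ).W none) (φ none) (h4 _ hsiS) hΨw
    (fun j => u (Fin.natAdd n j)) (by
      intro j
      rw [PowerSeries.coeff_zero_eq_constantCoeff_apply, h3 _ hsiS]
      have h9 := hi2 ((D.W (back k κ none)).z j)
      rw [hi3 j, C_0, map_zero, sub_zero] at h9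
      have h8 := rbase_van (κ := κ) _ _ _ h9
      rw [hmi] at h8
      exact h8) (by
      intro j
      rw [h6 _ hsiS]
      have h8 := hθ _ hsiS j
      rw [hnni] at h8
      have h9 : J2g u none j = polR (C (u (Fin.natAdd n j))) := by
        unfold J2g
        simp
      rw [h9] at h8
      exact h8) (by
      intro j i hi
      have h8 := h7 _ hsiS j i hi
      rw [hnni] at h8
      exact h8)
  choose c hc using hφ0c
  refine ⟨{ K := LSer κ, Ψ := Ψ, Wp := (D.base κ).W (some 0), p0 := ν0, hpz := hν3,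
            c := fun j => (φ0 (((D.base κ).W (some 0)).z j)).snd, φ0 := φ0, hφ0 := hφ0a,
            hφ0f := hφ0b, hφ0z := fun j => rfl, Wi := (D.base κ).W none, φi := φi, hφi := hφia,
            Dv := fun a => LSer.der (d a), hdet := ?_ }⟩
  have hmat : (Matrix.of fun a b => (fun a => LSer.der (d a)) a
      (Fin.append (fun j => (φ0 (((D.base κ).W (some 0)).z j)).snd)
        (fun j => φi (((D.base κ).W none).z j)) b)) =
      Matrix.diagonal (fun _ => (LSer.T 1 : LSer κ)) := by
    ext1 a b
    rw [Matrix.of_apply, Matrix.diagonal_apply]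
    have h8 : ∀ x : κ, x = (if a = b then 1 else 0) → (LSer.T 1 * LSer.C x : LSer κ) =
        if a = b then LSer.T 1 else 0 := by
      intro x hx
      rw [hx]
      split_ifs
      · rw [map_one, mul_one]
      · rw [map_zero, mul_zero]
    refine Eq.trans ?_ (h8 (d a (u b)) (hd a b))
    refine Fin.addCases (fun j => ?_) (fun j => ?_) b
    · rw [Fin.append_left, hc j]
      exact J2_der0 _ _ _
    · rw [Fin.append_right, hφib j]
      exact J2_der1 _ _
  rw [hmat, Matrix.det_diagonal]
  exact Finset.prod_ne_zero_iff.2 fun _ _ => LSer.T_ne_zero 1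

/-- Corollary 3.2 of the paper. -/
theorem exists_fam [IsAlgClosed k] {n : ℕ} [SmoothOfRelativeDimension n π] [IsSeparated π]
    (F : Crv π k) (hF : IsVeryFree F) : Nonempty (FamData π n) := by
  obtain ⟨κ, _, _, w, d, hd⟩ := J2field k (n + n)
  exact J2_main F hF κ w d hd

end Pool.Agent.H19VF
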