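import Mathlib

set_option autoImplicit false

universe u

namespace Pool.Agent.H19VF

open Polynomial

section Aux

variable {R E L : Type*} [CommRing R] [IsDomain R] [IsIntegrallyClosed R] [Field E] [Field L]
  [Algebra R E] [IsFractionRing R E] [Algebra E L] [Algebra R L] [IsScalarTower R E L]

theorem aux_prim [FiniteDimensional E L] [Algebra.IsSeparable E L] :
    ∃ z : L, IsIntegral R z ∧ ∀ t : L, ∃ q : E[X], aeval z q = t := by
  obtain ⟨α, hα⟩ := Field.exists_primitive_element E L
  have halg : IsAlgebraic R α := by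
    rw [IsFractionRing.isAlgebraic_iff R E L]
    exact Algebra.IsAlgebraic.isAlgebraic α
  obtain ⟨y, hy0, hy⟩ := halg.exists_integral_multiple
  refine ⟨y • α, hy, ?_⟩
  have hyE : algebraMap R E y ≠ 0 := by
    rwa [Ne, IsFractionRing.to_map_eq_zero_iff]
  intro t
  have ht : t ∈ IntermediateField.adjoin E {α} := by
    rw [hα]
    trivial
  have hint : IsAlgebraic E α := Algebra.IsAlgebraic.isAlgebraic α
  rw [← IntermediateField.mem_toSubalgebra,
    IntermediateField.adjoin_simple_toSubalgebra_of_isAlgebraic hint,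
    Algebra.adjoin_singleton_eq_range_aeval] at ht
  obtain ⟨q, hq⟩ := ht
  have hq' : aeval α q = t := hq
  refine ⟨q.comp (C (algebraMap R E y)⁻¹ * X), ?_⟩
  rw [aeval_comp, ← hq']
  congr 2
  simp only [map_mul, aeval_C, aeval_X]
  rw [map_inv₀, ← IsScalarTower.algebraMap_apply, Algebra.smul_def, ← mul_assoc, inv_mul_cancel₀,
    one_mul]
  rw [IsScalarTower.algebraMap_apply R E L]
  exact (_root_.map_ne_zero _).2 hyE

theorem aux_denom {z : L} (hz : ∀ t : L, ∃ q : E[X], aeval z q = t) (T : Finset L) :
    ∃ D : R, D ≠ 0 ∧ ∀ t ∈ T, ∃ p : R[X], algebraMap R L D * t = aeval z p := by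
  classical
  induction T using Finset.induction_on with
  | empty => exact ⟨1, one_ne_zero, by simp⟩
  | insert t T _ ih =>
    obtain ⟨D, hD0, hD⟩ := ih
    obtain ⟨q, hq⟩ := hz t
    obtain ⟨b, hbm, hb⟩ := IsLocalization.integerNormalization_spec (nonZeroDivisors R) q
    have hb0 : b ≠ 0 := nonZeroDivisors.ne_zero hbm
    refine ⟨D * b, mul_ne_zero hD0 hb0, ?_⟩
    intro s hs
    rcases Finset.mem_insert.1 hs with rfl | hs
    · refine ⟨C D * IsLocalization.integerNormalization (nonZeroDivisors R) q, ?_⟩
      have h1 : aeval z (IsLocalization.integerNormalization (nonZeroDivisors R) q) =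
          algebraMap R L b * s := by
        rw [← aeval_map_algebraMap E, hb]
        rw [Algebra.smul_def, IsScalarTower.algebraMap_apply R E E[X], algebraMap_eq, map_mul,
          aeval_C, hq, ← IsScalarTower.algebraMap_apply]
      rw [map_mul (aeval z), aeval_C, h1, map_mul (algebraMap R L)]
      ring
    · obtain ⟨p, hp⟩ := hD s hs
      refine ⟨C (b : R) * p, ?_⟩
      rw [map_mul (aeval z), aeval_C, ← hp, map_mul (algebraMap R L)]
      ring

theorem aux_etale [FiniteDimensional E L] [Algebra.IsSeparable E L] (T : Finset L) :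
    ∃ A : Subalgebra R L, (∀ x ∈ T, x ∈ A) ∧ Algebra.IsStandardEtale R A := by
  obtain ⟨z, hzint, hz⟩ := aux_prim (R := R) (E := E) (L := L)
  obtain ⟨D, hD0, hD⟩ := aux_denom (R := R) hz T
  have hinj : Function.Injective (algebraMap R L) := by
    rw [IsScalarTower.algebraMap_eq R E L]
    exact (algebraMap E L).injective.comp (IsFractionRing.injective R E)
  have : FaithfulSMul R L := (faithfulSMul_iff_algebraMap_injective R L).2 hinj
  have hfE : minpoly E z = (minpoly R z).map (algebraMap R E) :=
    minpoly.isIntegrallyClosed_eq_field_fractions' E hzint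
  have hder : aeval z (derivative (minpoly R z)) ≠ 0 := by
    have h1 := (Algebra.IsSeparable.isSeparable E z).aeval_derivative_ne_zero (minpoly.aeval E z)
    rwa [hfE, derivative_map, aeval_map_algebraMap] at h1
  have hDL : algebraMap R L D ≠ 0 := by
    intro h
    exact hD0 (hinj (by rw [h, map_zero]))
  let P : StandardEtalePair R :=
    { f := minpoly R z
      monic_f := minpoly.monic hzint
      g := derivative (minpoly R z) * C D
      cond := ⟨C D, 0, 1, by ring⟩ }
  have hg : aeval z P.g = aeval z (derivative (minpoly R z)) * algebraMap R L D := by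
    simp [P]
  have hmap : P.HasMap z := by
    refine ⟨minpoly.aeval R z, ?_⟩
    rw [hg]
    exact (mul_ne_zero hder hDL).isUnit
  let φ : P.Ring →ₐ[R] L := P.lift z hmap
  have hφX : φ P.X = z := P.lift_X z hmap
  have hφp : ∀ p : R[X], φ (aeval P.X p) = aeval z p := by
    intro p
    rw [← aeval_algHom_apply, hφX]
  let Pr : StandardEtalePresentation R P.Ring :=
    ⟨P, P.X, P.hasMap_X, by simpa [StandardEtalePair.lift_X_left] using Function.bijective_id⟩
  have hφinj : Function.Injective φ := by
    rw [injective_iff_map_eq_zero]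
    intro w hw
    obtain ⟨p, n, hpn⟩ := Pr.exists_mul_aeval_x_g_pow_eq_aeval_x w
    have hpn' : w * (aeval P.X P.g) ^ n = aeval P.X p := hpn
    have h1 : aeval z p = 0 := by
      rw [← hφp, ← hpn', map_mul, hw, zero_mul]
    obtain ⟨h, hh⟩ := minpoly.isIntegrallyClosed_dvd hzint h1
    have h2 : aeval P.X p = 0 := by
      have h3 : aeval P.X (minpoly R z) = 0 := P.hasMap_X.1
      rw [hh, map_mul, h3, zero_mul]
    rw [h2] at hpn'
    have h3 : IsUnit ((aeval P.X P.g) ^ n) := P.hasMap_X.2.pow n
    exact (h3.mul_left_eq_zero).1 hpn'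
  refine ⟨φ.range, ?_, ?_⟩
  · intro t ht
    obtain ⟨p, hp⟩ := hD t ht
    refine ⟨aeval P.X (p * derivative (minpoly R z)) * ↑(P.hasMap_X.2.unit⁻¹), ?_⟩
    have h1 : φ (↑(P.hasMap_X.2.unit⁻¹) : P.Ring) * aeval z P.g = 1 := by
      rw [← hφp, ← map_mul]
      have : (↑(P.hasMap_X.2.unit⁻¹) : P.Ring) * aeval P.X P.g = 1 :=
        P.hasMap_X.2.val_inv_mul
      rw [this, map_one]
    have h2 : φ (↑(P.hasMap_X.2.unit⁻¹) : P.Ring) = (aeval z P.g)⁻¹ :=
      eq_inv_of_mul_eq_one_left h1
    show φ (aeval P.X (p * derivative (minpoly R z)) * ↑(P.hasMap_X.2.unit⁻¹)) = t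
    rw [map_mul, hφp, h2, hg, map_mul, ← hp]
    field_simp
  · exact Algebra.IsStandardEtale.of_equiv (AlgEquiv.ofInjective φ hφinj)

end Aux

/-- K1. A separating transcendence basis `X` of `L / k`: there is a finitely generated subalgebra of
`L`, containing a given finite set, which is standard etale over the polynomial ring `k[X]`. -/
theorem exists_std_etale {k L : Type u} [Field k] [Field L] [Algebra k L] {σ : Type} [Finite σ]
    (X : σ → L) (hX : AlgebraicIndependent k X)
    [Algebra.IsSeparable (IntermediateField.adjoin k (Set.range X)) L]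
    [FiniteDimensional (IntermediateField.adjoin k (Set.range X)) L] (T : Finset L) :
    ∃ (A : Subalgebra k L) (_ : Algebra (MvPolynomial σ k) A)
      (_ : IsScalarTower k (MvPolynomial σ k) A),
      (∀ x ∈ T, x ∈ A) ∧ (∀ i, (algebraMap (MvPolynomial σ k) A (MvPolynomial.X i) : L) = X i) ∧
      Algebra.IsStandardEtale (MvPolynomial σ k) A := by
  let aL : Algebra (MvPolynomial σ k) L := (MvPolynomial.aeval X).toAlgebra
  have : IsScalarTower k (MvPolynomial σ k) L := IsScalarTower.of_algebraMap_eq' (by
    ext r
    exact ((MvPolynomial.aeval X).commutes r).symm)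
  have haL : ∀ p : MvPolynomial σ k, algebraMap (MvPolynomial σ k) L p = MvPolynomial.aeval X p :=
    fun p => rfl
  have hXmem : ∀ i, X i ∈ IntermediateField.adjoin k (Set.range X) := fun i =>
    IntermediateField.subset_adjoin k _ ⟨i, rfl⟩
  let XE : σ → IntermediateField.adjoin k (Set.range X) := fun i => ⟨X i, hXmem i⟩
  let aE : Algebra (MvPolynomial σ k) (IntermediateField.adjoin k (Set.range X)) :=
    (MvPolynomial.aeval XE).toAlgebra
  have haE : ∀ p : MvPolynomial σ k,
      ((algebraMap (MvPolynomial σ k) (IntermediateField.adjoin k (Set.range X)) p :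
        IntermediateField.adjoin k (Set.range X)) : L) = MvPolynomial.aeval X p := by
    intro p
    have h1 : (IntermediateField.val (IntermediateField.adjoin k (Set.range X))).comp
        (MvPolynomial.aeval XE) = MvPolynomial.aeval X := by
      ext i
      simp [XE]
    exact congrArg (fun f : MvPolynomial σ k →ₐ[k] L => f p) h1
  have : IsScalarTower (MvPolynomial σ k) (IntermediateField.adjoin k (Set.range X)) L :=
    IsScalarTower.of_algebraMap_eq (fun p => by
      rw [haL, ← haE]
      rfl)
  have hinj : Function.Injective (MvPolynomial.aeval X : MvPolynomial σ k →ₐ[k] L) := hX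
  have hEinj : Function.Injective
      (algebraMap (MvPolynomial σ k) (IntermediateField.adjoin k (Set.range X))) := by
    intro p q hpq
    apply hinj
    rw [← haE, ← haE, hpq]
  have : IsFractionRing (MvPolynomial σ k) (IntermediateField.adjoin k (Set.range X)) := by
    refine ⟨⟨?_, ?_, ?_⟩⟩
    · rintro ⟨y, hy⟩
      have hy0 := nonZeroDivisors.ne_zero hy
      exact IsUnit.mk0 _ (fun h => hy0 (hEinj (by rw [h, map_zero])))
    · intro e
      obtain ⟨r, s, hrs⟩ := (IntermediateField.mem_adjoin_range_iff k X (e : L)).1 e.2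
      by_cases hs : s = 0
      · refine ⟨(0, 1), ?_⟩
        apply Subtype.ext
        rw [hs, map_zero, div_zero] at hrs
        simp [hrs]
      · refine ⟨(r, ⟨s, mem_nonZeroDivisors_of_ne_zero hs⟩), ?_⟩
        apply Subtype.ext
        have hs' : (MvPolynomial.aeval X s : L) ≠ 0 := fun h => hs (hinj (by rw [h, map_zero]))
        show (e : L) * ((algebraMap (MvPolynomial σ k)
          (IntermediateField.adjoin k (Set.range X)) s :
          IntermediateField.adjoin k (Set.range X)) : L) = _
        rw [haE, haE, hrs]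
        field_simp
    · intro x y hxy
      exact ⟨1, by rw [hEinj hxy]⟩
  obtain ⟨A, hA1, hA2⟩ := aux_etale (R := MvPolynomial σ k)
    (E := IntermediateField.adjoin k (Set.range X)) (L := L) T
  let aA : Algebra (MvPolynomial σ k) (A.restrictScalars k) :=
    (inferInstance : Algebra (MvPolynomial σ k) A)
  have hT : IsScalarTower k (MvPolynomial σ k) (A.restrictScalars k) := by
    refine ⟨fun x y z => ?_⟩
    apply Subtype.ext
    show (x • y) • (z : L) = x • (y • (z : L))
    exact smul_assoc x y (z : L)
  refine ⟨A.restrictScalars k, aA, hT, hA1, ?_, hA2⟩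
  · intro i
    show algebraMap (MvPolynomial σ k) L (MvPolynomial.X i) = X i
    rw [haL, MvPolynomial.aeval_X]

end Pool.Agent.H19VF


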