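import Pool.Agent.H19VF.K_Sep
import Pool.Agent.H19VF.K_Std

/-! # Tasks K0, K1: separating transcendence bases and standard etale models

See `exists_separating` and `exists_std_etale`. -/
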