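import Pool.Agent.H19VF.C_Lift
import Pool.Agent.H19VF.E_Dvr

/-! # Task L: arcs (Proposition 4.1 of the paper) -/

set_option autoImplicit false

open Polynomial

universe u

namespace Pool.Agent.H19VF

theorem compositum_aux (E L F : Type u) [Field E] [Field L] [Field F] [Algebra E L] [Algebra E F]
    [FiniteDimensional E L] [Algebra.IsSeparable E L] :
    ∃ (K1 : Type u) (_ : Field K1) (_ : Algebra F K1) (μ : L →+* K1),
      FiniteDimensional F K1 ∧ Algebra.IsSeparable F K1 ∧
      ∀ e : E, μ (algebraMap E L e) = algebraMap F K1 (algebraMap E F e) := by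
  classical
  obtain ⟨α, hα⟩ := Field.exists_primitive_element E L
  have tow : IsScalarTower E F (AlgebraicClosure F) := inferInstance
  let μ : L →ₐ[E] AlgebraicClosure F := IsAlgClosed.lift
  let K1 : IntermediateField F (AlgebraicClosure F) := IntermediateField.adjoin F {μ α}
  have hint : IsIntegral F (μ α) := by
    have h1 : IsIntegral E α := Algebra.IsIntegral.isIntegral α
    have h2 : IsIntegral E (μ α) := h1.map μ
    exact h2.tower_top
  have fin1 : FiniteDimensional F K1 := IntermediateField.adjoin.finiteDimensional hint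
  have sep1 : Algebra.IsSeparable F K1 := by
    rw [IntermediateField.isSeparable_adjoin_simple_iff_isSeparable]
    have h1 : IsSeparable E α := Algebra.IsSeparable.isSeparable E α
    have h2 : IsSeparable E (μ α) := h1.map (f := μ) μ.injective
    exact h2.tower_top _
  have hmem0 : ∀ z : L, μ z ∈ K1 := by
    intro z
    have hz : z ∈ IntermediateField.adjoin E {α} := by rw [hα]; trivial
    induction hz using IntermediateField.adjoin_induction with
    | mem x hx =>
      rw [Set.mem_singleton_iff.1 hx]
      exact IntermediateField.mem_adjoin_simple_self F (μ α)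
    | algebraMap x =>
      rw [μ.commutes, IsScalarTower.algebraMap_apply E F (AlgebraicClosure F)]
      exact K1.algebraMap_mem _
    | add x y hx hy ihx ihy => rw [map_add]; exact K1.add_mem ihx ihy
    | inv x hx ihx => rw [map_inv₀]; exact K1.inv_mem ihx
    | mul x y hx hy ihx ihy => rw [map_mul]; exact K1.mul_mem ihx ihy
  have hmem : ∀ z : L, μ.toRingHom z ∈ K1.toSubfield := hmem0
  refine ⟨K1, inferInstance, inferInstance, μ.toRingHom.codRestrict K1.toSubfield hmem, fin1, sep1, ?_⟩
  intro e
  apply Subtype.ext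
  change μ (algebraMap E L e) = algebraMap F (AlgebraicClosure F) (algebraMap E F e)
  rw [μ.commutes, ← IsScalarTower.algebraMap_apply E F (AlgebraicClosure F)]

/-- The extension step. -/
theorem extend_arc_aux {k : Type u} [Field k] {k' : Type u} [Field k'] [Algebra k k']
    [IsAlgClosed k'] {L : Type u} [Field L] [Algebra k L] (E : Type u) [Field E] [Algebra k E]
    [Algebra E L] [IsScalarTower k E L]
    [FiniteDimensional E L] [Algebra.IsSeparable E L] (σ : E →ₐ[k] LSer k') :
    ∃ m : L →ₐ[k] LSer k', (∀ (e : E) (a : PowerSeries k'), σ e = LSer.ofPS a →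
        ∃ a' : PowerSeries k', m (algebraMap E L e) = LSer.ofPS a' ∧
          PowerSeries.constantCoeff a' = PowerSeries.constantCoeff a) ∧
      (∀ (e : E) (g : k'), σ e = LSer.C g → m (algebraMap E L e) = LSer.C g) := by
  classical
  let algE' : Algebra E (LSer k') := σ.toRingHom.toAlgebra
  obtain ⟨K1, fK, aK, μ, fin1, sep1, hμ⟩ := compositum_aux E L (LSer k')
  let aK' : Algebra k' K1 := ((algebraMap (LSer k') K1).comp (algebraMap k' (LSer k'))).toAlgebra
  have tw : IsScalarTower k' (LSer k') K1 := IsScalarTower.of_algebraMap_eq fun _ => rfl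
  have hμ1 : ∀ e : E, μ (algebraMap E L e) = algebraMap (LSer k') K1 (σ e) := hμ
  obtain ⟨g, hg⟩ := embed_finite k' K1
  refine ⟨{ toRingHom := g.toRingHom.comp μ, commutes' := ?_ }, ?_, ?_⟩
  · intro r
    change g (μ (algebraMap k L r)) = _
    rw [IsScalarTower.algebraMap_apply k E L, hμ1, σ.commutes]
    have h2 : algebraMap k (LSer k') r = algebraMap k' (LSer k') (algebraMap k k' r) := rfl
    rw [h2, ← IsScalarTower.algebraMap_apply k' (LSer k') K1]
    exact g.commutes _
  · intro e a hea
    change ∃ a' : PowerSeries k', g (μ (algebraMap E L e)) = LSer.ofPS a' ∧ _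
    rw [hμ1, hea]
    exact hg a
  · intro e c hec
    change g (μ (algebraMap E L e)) = _
    rw [hμ1, hec]
    have h3 : (LSer.C c : LSer k') = algebraMap k' (LSer k') c := rfl
    rw [h3, ← IsScalarTower.algebraMap_apply k' (LSer k') K1]
    exact g.commutes _

/-- A domain which is etale over a domain is algebraic over it. -/
theorem algebraic_of_etale_aux (A B : Type u) [CommRing A] [IsDomain A] [CommRing B] [IsDomain B]
    [Algebra A B] [FaithfulSMul A B] [Algebra.FormallyUnramified A B] [Algebra.FiniteType A B] :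
    Algebra.IsAlgebraic A B := by
  let K := FractionRing A
  let F := FractionRing B
  let algKF : Algebra K F := FractionRing.liftAlgebra A F
  have tow : IsScalarTower A K F := FractionRing.isScalarTower_liftAlgebra A F
  have : Algebra.FormallyUnramified B F := Algebra.FormallyUnramified.of_isLocalization (nonZeroDivisors B)
  have : Algebra.FormallyUnramified A F := Algebra.FormallyUnramified.comp A B F
  have fuKF : Algebra.FormallyUnramified K F := Algebra.FormallyUnramified.of_restrictScalars A K F
  have : Algebra.EssFiniteType B F := Algebra.EssFiniteType.of_isLocalization F (nonZeroDivisors B)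
  have : Algebra.EssFiniteType A F := Algebra.EssFiniteType.comp A B F
  have efKF : Algebra.EssFiniteType K F := Algebra.EssFiniteType.of_comp A K F
  have sepKF : Algebra.IsSeparable K F := (Algebra.FormallyUnramified.iff_isSeparable K F).1 fuKF
  have algKF' : Algebra.IsAlgebraic K F := Algebra.IsSeparable.isAlgebraic K F
  have algAF : Algebra.IsAlgebraic A F := IsFractionRing.comap_isAlgebraic_iff.2 algKF'
  constructor
  intro b
  have hb : IsAlgebraic A (algebraMap B F b) := algAF.isAlgebraic _
  have hinj : Function.Injective (algebraMap B F) := IsFractionRing.injective B F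
  exact (isAlgebraic_algebraMap_iff hinj).1 hb

theorem inj_of_alg_aux {A B M : Type u} [CommRing A] [CommRing B] [IsDomain B] [Algebra A B]
    [Algebra.IsAlgebraic A B] [Field M] (φ : B →+* M)
    (h : Function.Injective (φ.comp (algebraMap A B))) : Function.Injective φ := by
  rw [injective_iff_map_eq_zero]
  intro b hb
  by_contra hb0
  have h1 := Ideal.comap_ne_bot_of_algebraic_mem (R := A) (I := RingHom.ker φ) hb0 hb
    (Algebra.IsAlgebraic.isAlgebraic b)
  apply h1
  rw [eq_bot_iff]
  intro a ha
  exact (injective_iff_map_eq_zero _).1 h a ha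

theorem indep_ext_aux {A B M : Type u} [CommRing A] [CommRing B] [IsDomain B] [Algebra A B]
    [Algebra.IsAlgebraic A B] [Field M] (φ : B →+* M) {κ : Type} (y : κ → M)
    (h : Function.Injective (MvPolynomial.eval₂Hom (φ.comp (algebraMap A B)) y)) :
    Function.Injective (MvPolynomial.eval₂Hom φ y) := by
  let algBM : Algebra B M := φ.toAlgebra
  let algAM : Algebra A M := (φ.comp (algebraMap A B)).toAlgebra
  have tow : IsScalarTower A B M := IsScalarTower.of_algebraMap_eq fun _ => rfl
  have hA : AlgebraicIndependent A y := h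
  have hB : AlgebraicIndependent B y := hA.extendScalars B
  exact hB

/-- `y` is algebraically independent over `B` if `B` is algebraic over `k[x]` and `(x, y)` is
algebraically independent over `k`. -/
theorem indep_over_aux {k : Type u} [Field k] {n : ℕ} {B : Type u} [CommRing B] [IsDomain B]
    [Algebra k B] (x : Fin n → B) (hx : IsEtaleCoord k x) {M : Type u} [Field M] [Algebra k M]
    (φ : B →ₐ[k] M) {κ : Type} (y : κ → M)
    (h : AlgebraicIndependent k (Sum.elim (fun i => φ (x i)) y)) :
    Function.Injective φ ∧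
      Function.Injective (MvPolynomial.eval₂Hom (φ : B →+* M) y) := by
  let algAB : Algebra (MvPolynomial (Fin n) k) B :=
    (MvPolynomial.aeval x : MvPolynomial (Fin n) k →ₐ[k] B).toRingHom.toAlgebra
  have etAB : Algebra.Etale (MvPolynomial (Fin n) k) B := hx
  have hxi : AlgebraicIndependent k (fun i => φ (x i)) := by
    have h0 := h.comp Sum.inl Sum.inl_injective
    rwa [Sum.elim_comp_inl] at h0
  have hcomp : (φ : B →+* M).comp (algebraMap (MvPolynomial (Fin n) k) B) =
      ((MvPolynomial.aeval (fun i => φ (x i)) : MvPolynomial (Fin n) k →ₐ[k] M) :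
        MvPolynomial (Fin n) k →+* M) := by
    ext a
    · change φ (MvPolynomial.aeval x (MvPolynomial.C a)) = MvPolynomial.aeval _ (MvPolynomial.C a)
      rw [MvPolynomial.aeval_C, MvPolynomial.aeval_C]; exact φ.commutes a
    · change φ (MvPolynomial.aeval x (MvPolynomial.X a)) = MvPolynomial.aeval _ (MvPolynomial.X a)
      rw [MvPolynomial.aeval_X, MvPolynomial.aeval_X]
  have hinjM : Function.Injective ((φ : B →+* M).comp (algebraMap (MvPolynomial (Fin n) k) B)) := by
    rw [hcomp]; exact hxi
  have hinjB : Function.Injective (algebraMap (MvPolynomial (Fin n) k) B) :=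
    Function.Injective.of_comp (f := (φ : B →+* M)) hinjM
  have fs : FaithfulSMul (MvPolynomial (Fin n) k) B :=
    (faithfulSMul_iff_algebraMap_injective _ B).2 hinjB
  have alg : Algebra.IsAlgebraic (MvPolynomial (Fin n) k) B := algebraic_of_etale_aux _ B
  have hinj1 : Function.Injective (φ : B →+* M) :=
    inj_of_alg_aux (A := MvPolynomial (Fin n) k) (φ : B →+* M) hinjM
  suffices hmain : Function.Injective (MvPolynomial.eval₂Hom ((φ : B →+* M).comp
      (algebraMap (MvPolynomial (Fin n) k) B)) y) from
    ⟨hinj1, indep_ext_aux (A := MvPolynomial (Fin n) k) (φ : B →+* M) y hmain⟩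
  rw [hcomp]
  have h2 : AlgebraicIndependent k (Sum.elim y (fun i => φ (x i))) := by
    have := h.comp Sum.swap Sum.swap_leftInverse.injective
    convert this using 1
    ext (i | i) <;> rfl
  have h3 : Function.Injective ((MvPolynomial.aeval (Sum.elim y (fun i => φ (x i))) :
      MvPolynomial (κ ⊕ Fin n) k →ₐ[k] M).comp (MvPolynomial.sumAlgEquiv k κ (Fin n)).symm.toAlgHom) :=
    Function.Injective.comp (g := (MvPolynomial.aeval (Sum.elim y (fun i => φ (x i))) :
      MvPolynomial (κ ⊕ Fin n) k →ₐ[k] M)) h2 (MvPolynomial.sumAlgEquiv k κ (Fin n)).symm.injective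
  have h4 : MvPolynomial.eval₂Hom ((MvPolynomial.aeval (fun i => φ (x i)) :
      MvPolynomial (Fin n) k →ₐ[k] M) : MvPolynomial (Fin n) k →+* M) y =
      (((MvPolynomial.aeval (Sum.elim y (fun i => φ (x i))) :
      MvPolynomial (κ ⊕ Fin n) k →ₐ[k] M).comp
        (MvPolynomial.sumAlgEquiv k κ (Fin n)).symm.toAlgHom :
          MvPolynomial κ (MvPolynomial (Fin n) k) →ₐ[k] M) :
          MvPolynomial κ (MvPolynomial (Fin n) k) →+* M) := by
    apply MvPolynomial.ringHom_ext
    · intro a
      rw [MvPolynomial.eval₂Hom_C]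
      change _ = MvPolynomial.aeval _
        ((MvPolynomial.sumAlgEquiv k κ (Fin n)).symm (MvPolynomial.C a))
      induction a using MvPolynomial.induction_on with
      | C r => rw [MvPolynomial.sumAlgEquiv_symm_C_C]; simp
      | add p q hp hq => simp only [map_add, hp, hq]
      | mul_X p j hp => rw [map_mul, map_mul, map_mul, map_mul, hp,
          MvPolynomial.sumAlgEquiv_symm_C_X]; simp
    · intro j
      rw [MvPolynomial.eval₂Hom_X']
      change _ = MvPolynomial.aeval _
        ((MvPolynomial.sumAlgEquiv k κ (Fin n)).symm (MvPolynomial.X j))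
      rw [MvPolynomial.sumAlgEquiv_symm_X]; simp
  rw [h4]
  exact h3

theorem indep_ser_aux {k : Type u} [Field k] {k' : Type u} [Field k'] [Algebra k k']
    {n r : ℕ} (γ : Fin n → k') (ω : ℕ → k')
    (hγ : AlgebraicIndependent k (Sum.elim γ ω)) :
    AlgebraicIndependent k (Sum.elim
      (fun i : Fin n => LSer.ofPS (PowerSeries.C (ω i) * PowerSeries.X))
      (Sum.elim (fun j : Fin n => LSer.C (γ j)) (fun l : Fin r => LSer.C (ω (n + l))))) := by
  let u : Fin n ⊕ (Fin n ⊕ Fin r) → k'[X] := Sum.elim
    (fun i : Fin n => Polynomial.C (ω i) * Polynomial.X)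
      (Sum.elim (fun j : Fin n => Polynomial.C (γ j)) (fun l : Fin r => Polynomial.C (ω (n + l))))
  let τ : Fin n ⊕ (Fin n ⊕ Fin r) → Fin n ⊕ ℕ := Sum.elim (fun i => Sum.inr i)
    (Sum.elim (fun j => Sum.inl j) (fun l => Sum.inr (n + l)))
  have hτ : Function.Injective τ := by
    rintro (i | i | i) (j | j | j) h
    · simp only [τ, Sum.elim_inl, Sum.inr.injEq] at h
      rw [Fin.ext h]
    · simp [τ] at h
    · simp only [τ, Sum.elim_inl, Sum.elim_inr, Sum.inr.injEq] at h
      omega
    · simp [τ] at h
    · simp only [τ, Sum.elim_inl, Sum.elim_inr, Sum.inl.injEq] at h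
      rw [h]
    · simp [τ] at h
    · simp only [τ, Sum.elim_inl, Sum.elim_inr, Sum.inr.injEq] at h
      omega
    · simp [τ] at h
    · simp only [τ, Sum.elim_inr, Sum.inr.injEq] at h
      have : (i : ℕ) = j := by omega
      rw [Fin.ext this]
  have h1 : AlgebraicIndependent k (Sum.elim γ ω ∘ τ) := hγ.comp τ hτ
  let ev : k'[X] →ₐ[k] k' := (Polynomial.aeval (1 : k') : k'[X] →ₐ[k'] k').restrictScalars k
  have h2 : AlgebraicIndependent k (ev ∘ u) := by
    convert h1 using 1
    ext (i | i | i)
    · simp [ev, u, τ]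
    · simp [ev, u, τ]
    · simp [ev, u, τ]
  have h3 : AlgebraicIndependent k u := h2.of_comp ev
  let Φ : k'[X] →ₐ[k] PowerSeries k' :=
    (Polynomial.coeToPowerSeries.algHom k' : k'[X] →ₐ[k'] PowerSeries k').restrictScalars k
  have hΦ0 : ∀ p : k'[X], Φ p = (p : PowerSeries k') := by
    intro p
    change Polynomial.coeToPowerSeries.algHom k' p = _
    rw [Polynomial.coeToPowerSeries.algHom_apply]
    ext n
    simp
  have hΦ : Function.Injective Φ := by
    intro p q hpq
    rw [hΦ0, hΦ0] at hpq
    exact Polynomial.coe_injective _ hpq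
  have h4 : AlgebraicIndependent k (Φ ∘ u) := h3.map' hΦ
  have h5 : AlgebraicIndependent k (LSer.ofPSa k ∘ (Φ ∘ u)) := h4.map' (f := LSer.ofPSa k) LSer.ofPS_injective
  convert h5 using 1
  ext1 i
  rcases i with (i | i | i)
  · simp only [Sum.elim_inl, Function.comp_apply, u, LSer.ofPSa_apply, hΦ0]
    simp
  · simp only [Sum.elim_inl, Sum.elim_inr, Function.comp_apply, u, LSer.ofPSa_apply, hΦ0]
    rw [Polynomial.coe_C, LSer.ofPS_C]
  · simp only [Sum.elim_inl, Sum.elim_inr, Function.comp_apply, u, LSer.ofPSa_apply, hΦ0]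
    rw [Polynomial.coe_C, LSer.ofPS_C]

/-- Proposition 4.1. `B` is the coordinate ring of a chart at the closed point `v`, `L` a field
containing it, finite separable over `k(x, c, w)`. -/
theorem exists_arc {k : Type u} [Field k] [IsAlgClosed k] {k' : Type u} [Field k'] [Algebra k k']
    [IsAlgClosed k'] {n r : ℕ} (γ : Fin n → k') (ω : ℕ → k')
    (hγ : AlgebraicIndependent k (Sum.elim γ ω))
    {B : Type u} [CommRing B] [IsDomain B] [Algebra k B] (x : Fin n → B) (hx : IsEtaleCoord k x)
    (v : B →ₐ[k] k) (hv : ∀ i, v (x i) = 0)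
    {L : Type u} [Field L] [Algebra k L] (ι : B →ₐ[k] L) (hι : Function.Injective ι)
    (c : Fin n → L) (w : Fin r → L)
    (hX : AlgebraicIndependent k (Sum.elim (fun i => ι (x i)) (Sum.elim c w)))
    (hs : Algebra.IsSeparable (IntermediateField.adjoin k
      (Set.range (Sum.elim (fun i => ι (x i)) (Sum.elim c w)))) L)
    (hf : FiniteDimensional (IntermediateField.adjoin k
      (Set.range (Sum.elim (fun i => ι (x i)) (Sum.elim c w)))) L) :
    ∃ m : L →ₐ[k] LSer k', (∀ j, m (c j) = LSer.C (γ j)) ∧
      ∀ b : B, ∃ a : PowerSeries k', m (ι b) = LSer.ofPS a ∧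
        PowerSeries.constantCoeff a = algebraMap k k' (v b) := by
  classical
  obtain ⟨φ, hφ1, hφ2⟩ := etale_lift x hx ((Algebra.ofId k k').comp v)
    (fun i => PowerSeries.C (ω i) * PowerSeries.X) (by
      intro j
      rw [map_mul, PowerSeries.constantCoeff_X, mul_zero, AlgHom.comp_apply, hv, map_zero])
  let ψ : B →ₐ[k] LSer k' := (LSer.ofPSa k).comp φ
  let y : Fin n ⊕ Fin r → LSer k' :=
    Sum.elim (fun j : Fin n => LSer.C (γ j)) (fun l : Fin r => LSer.C (ω (n + l)))
  have hψx : ∀ i, ψ (x i) = LSer.ofPS (PowerSeries.C (ω i) * PowerSeries.X) := by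
    intro i
    change LSer.ofPS (φ (x i)) = _
    rw [hφ2]
  have hind : AlgebraicIndependent k (Sum.elim (fun i => ψ (x i)) y) := by
    have h := indep_ser_aux (r := r) γ ω hγ
    have hfun : (fun i => ψ (x i)) = fun i : Fin n => LSer.ofPS (PowerSeries.C (ω i) * PowerSeries.X) :=
      funext hψx
    rw [hfun]
    exact h
  obtain ⟨_, hinj2⟩ := indep_over_aux x hx ψ y hind
  obtain ⟨_, hinj1⟩ := indep_over_aux x hx ι (Sum.elim c w) hX
  let P := MvPolynomial (Fin n ⊕ Fin r) B
  let f1 : P →ₐ[k] L :=
    { MvPolynomial.eval₂Hom (ι : B →+* L) (Sum.elim c w) with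
      commutes' := fun a => by
        change MvPolynomial.eval₂Hom (ι : B →+* L) (Sum.elim c w) (algebraMap k P a) = _
        rw [IsScalarTower.algebraMap_apply k B P, MvPolynomial.algebraMap_eq,
          MvPolynomial.eval₂Hom_C]
        exact ι.commutes a }
  let f2 : P →ₐ[k] LSer k' :=
    { MvPolynomial.eval₂Hom (ψ : B →+* LSer k') y with
      commutes' := fun a => by
        change MvPolynomial.eval₂Hom (ψ : B →+* LSer k') y (algebraMap k P a) = _
        rw [IsScalarTower.algebraMap_apply k B P, MvPolynomial.algebraMap_eq,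
          MvPolynomial.eval₂Hom_C]
        exact ψ.commutes a }
  have hf1 : Function.Injective f1 := hinj1
  have hf2 : Function.Injective f2 := hinj2
  have hf1C : ∀ b : B, f1 (MvPolynomial.C b) = ι b := fun b =>
    MvPolynomial.eval₂Hom_C (ι : B →+* L) (Sum.elim c w) b
  have hf1X : ∀ j, f1 (MvPolynomial.X j) = Sum.elim c w j := fun j =>
    MvPolynomial.eval₂Hom_X' (ι : B →+* L) (Sum.elim c w) j
  have hf2C : ∀ b : B, f2 (MvPolynomial.C b) = ψ b := fun b =>
    MvPolynomial.eval₂Hom_C (ψ : B →+* LSer k') y b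
  have hf2X : ∀ j, f2 (MvPolynomial.X j) = y j := fun j =>
    MvPolynomial.eval₂Hom_X' (ψ : B →+* LSer k') y j
  let E := FractionRing P
  let g1 : E →ₐ[k] L := IsFractionRing.liftAlgHom hf1
  let g2 : E →ₐ[k] LSer k' := IsFractionRing.liftAlgHom hf2
  have hg1 : ∀ p : P, g1 (algebraMap P E p) = f1 p := fun p =>
    IsFractionRing.lift_algebraMap (g := (f1 : P →+* L)) hf1 p
  have hg2 : ∀ p : P, g2 (algebraMap P E p) = f2 p := fun p =>
    IsFractionRing.lift_algebraMap (g := (f2 : P →+* LSer k')) hf2 p
  let algEL : Algebra E L := g1.toRingHom.toAlgebra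
  have towkEL : IsScalarTower k E L := IsScalarTower.of_algebraMap_eq fun a => (g1.commutes a).symm
  let E0 : IntermediateField k L := IntermediateField.adjoin k
      (Set.range (Sum.elim (fun i => ι (x i)) (Sum.elim c w)))
  have hle : E0 ≤ g1.fieldRange := by
    rw [IntermediateField.adjoin_le_iff]
    rintro _ ⟨i | i, rfl⟩
    · exact ⟨algebraMap P E (MvPolynomial.C (x i)), by
        change g1 (algebraMap P E (MvPolynomial.C (x i))) = _
        rw [hg1, hf1C]; rfl⟩
    · exact ⟨algebraMap P E (MvPolynomial.X i), by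
        change g1 (algebraMap P E (MvPolynomial.X i)) = _
        rw [hg1, hf1X]; rfl⟩
  let e : E ≃ₐ[k] g1.fieldRange := AlgEquiv.ofInjectiveField g1
  let jj : E0 →ₐ[k] E := (e.symm : g1.fieldRange →ₐ[k] E).comp (IntermediateField.inclusion hle)
  have hjj : ∀ a : E0, g1 (jj a) = (a : L) := by
    intro a
    have h1 : ((e (jj a) : g1.fieldRange) : L) = g1 (jj a) := rfl
    rw [← h1]
    have h2 : e (jj a) = IntermediateField.inclusion hle a := e.apply_symm_apply _
    rw [h2]
    rfl
  let algE0E : Algebra E0 E := jj.toRingHom.toAlgebra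
  have towE0 : IsScalarTower E0 E L := IsScalarTower.of_algebraMap_eq fun a => (hjj a).symm
  have hs' : Algebra.IsSeparable E0 L := hs
  have hf' : FiniteDimensional E0 L := hf
  have sepE : Algebra.IsSeparable E L := Algebra.isSeparable_tower_top_of_isSeparable E0 E L
  have finE : FiniteDimensional E L := Module.Finite.of_restrictScalars_finite E0 E L
  obtain ⟨m, hm1, hm2⟩ := extend_arc_aux E g2 (L := L)
  refine ⟨m, ?_, ?_⟩
  · intro j
    have h1 : c j = algebraMap E L (algebraMap P E (MvPolynomial.X (Sum.inl j))) := by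
      change _ = g1 (algebraMap P E (MvPolynomial.X (Sum.inl j)))
      rw [hg1, hf1X]; rfl
    rw [h1]
    apply hm2
    rw [hg2, hf2X]; rfl
  · intro b
    have h1 : ι b = algebraMap E L (algebraMap P E (MvPolynomial.C b)) := by
      change _ = g1 (algebraMap P E (MvPolynomial.C b))
      rw [hg1, hf1C]
    have h2 : g2 (algebraMap P E (MvPolynomial.C b)) = LSer.ofPS (φ b) := by
      rw [hg2, hf2C]; rfl
    obtain ⟨a', ha', ha''⟩ := hm1 _ _ h2
    refine ⟨a', ?_, ?_⟩
    · rw [h1]; exact ha'
    · rw [ha'', hφ1]; rfl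

end Pool.Agent.H19VF
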