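import Pool.Agent.H19VF.Fam
import Pool.Agent.H19VF.F_Pt
import Pool.Agent.H19VF.F_Chart
import Pool.Agent.H19VF.K_Field
import Pool.Agent.H19VF.L_Arc
import Pool.Agent.H19VF.C_Lift

/-! # Task K2: from the versal family to the data at a closed point (end of section 3 and section 4
of the paper) -/

set_option autoImplicit false

open AlgebraicGeometry CategoryTheory Polynomial

universe u

namespace Pool.Agent.H19VF

variable {k : Type u} [Field k] {V : Scheme.{u}} {π : V ⟶ Spec (.of k)}

/-- Injectivity from algebraic independence of the coordinates. -/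
theorem k2_inj {B K : Type u} [CommRing B] [IsDomain B] [Algebra k B] [Field K] [Algebra k K]
    {n : ℕ} (z : Fin n → B) (hz : IsEtaleCoord k z) (φ : B →ₐ[k] K)
    (h : AlgebraicIndependent k fun j => φ (z j)) : Function.Injective φ := by
  let algB : Algebra (MvPolynomial (Fin n) k) B :=
    (MvPolynomial.aeval z : MvPolynomial (Fin n) k →ₐ[k] B).toRingHom.toAlgebra
  have het : Algebra.Etale (MvPolynomial (Fin n) k) B := hz
  have hq : Algebra.QuasiFinite (MvPolynomial (Fin n) k) B := inferInstance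
  have hker : ∀ p : MvPolynomial (Fin n) k, φ (MvPolynomial.aeval z p) = 0 → p = 0 := by
    intro p hp
    have h1 : MvPolynomial.aeval (fun j => φ (z j)) p = φ (MvPolynomial.aeval z p) := by
      have h2 : MvPolynomial.aeval (fun j => φ (z j)) = φ.comp (MvPolynomial.aeval z) := by
        apply MvPolynomial.algHom_ext
        intro i
        simp
      rw [h2]
      rfl
    refine (algebraicIndependent_iff.1 h) p ?_
    rw [h1, hp]
  have hprime : (RingHom.ker φ.toRingHom).IsPrime := RingHom.ker_isPrime φ.toRingHom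
  have hbot : (⊥ : Ideal B) = RingHom.ker φ.toRingHom := by
    refine Algebra.QuasiFinite.eq_of_le_of_under_eq (R := MvPolynomial (Fin n) k) ⊥ (RingHom.ker φ.toRingHom) bot_le ?_
    ext p
    constructor
    · intro hp
      have hp' : MvPolynomial.aeval z p = 0 := hp
      change φ (MvPolynomial.aeval z p) = 0
      rw [hp', map_zero]
    · intro hp
      have hp' : φ (MvPolynomial.aeval z p) = 0 := hp
      change MvPolynomial.aeval z p = 0
      rw [hker p hp', map_zero]
  exact (RingHom.injective_iff_ker_eq_bot φ.toRingHom).2 hbot.symm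

/-- Translation of etale coordinates. -/
theorem k2_translate {B : Type u} [CommRing B] [Algebra k B] {n : ℕ} (z : Fin n → B)
    (hz : IsEtaleCoord k z) (a : Fin n → k) :
    IsEtaleCoord k fun j => z j - algebraMap k B (a j) := by
  let τ : MvPolynomial (Fin n) k →ₐ[k] MvPolynomial (Fin n) k :=
    MvPolynomial.aeval fun j => MvPolynomial.X j - MvPolynomial.C (a j)
  let τ' : MvPolynomial (Fin n) k →ₐ[k] MvPolynomial (Fin n) k :=
    MvPolynomial.aeval fun j => MvPolynomial.X j + MvPolynomial.C (a j)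
  have h1 : ∀ p, τ (τ' p) = p := by
    intro p
    have : τ.comp τ' = AlgHom.id k _ := by
      apply MvPolynomial.algHom_ext
      intro i
      simp [τ, τ', MvPolynomial.algHom_C]
    exact congrArg (fun e : MvPolynomial (Fin n) k →ₐ[k] MvPolynomial (Fin n) k => e p) this
  have h2 : ∀ p, τ' (τ p) = p := by
    intro p
    have : τ'.comp τ = AlgHom.id k _ := by
      apply MvPolynomial.algHom_ext
      intro i
      simp [τ, τ', MvPolynomial.algHom_C]
    exact congrArg (fun e : MvPolynomial (Fin n) k →ₐ[k] MvPolynomial (Fin n) k => e p) this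
  have hb : Function.Bijective τ.toRingHom := by
    refine ⟨fun x y hxy => ?_, fun y => ⟨τ' y, h1 y⟩⟩
    have h3 : τ x = τ y := hxy
    rw [← h2 x, h3, h2]
  have h3 : (MvPolynomial.aeval (fun j => z j - algebraMap k B (a j)) :
      MvPolynomial (Fin n) k →ₐ[k] B) = (MvPolynomial.aeval z).comp τ := by
    apply MvPolynomial.algHom_ext
    intro i
    simp [τ]
  unfold IsEtaleCoord
  rw [h3]
  exact RingHom.Etale.stableUnderComposition _ _ (RingHom.Etale.of_bijective hb) hz

/-- Charts of integral schemes are domains. -/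
theorem k2_domain [IsIntegral V] (W : Chart π) [Nontrivial W.B] : IsDomain W.B := by
  have := W.imm
  have hne : Nonempty (Spec (.of W.B)) := inferInstanceAs (Nonempty (PrimeSpectrum W.B))
  have : IsIntegral (Spec (.of W.B)) := isIntegral_of_isOpenImmersion W.pt.1
  exact (affine_isIntegral_iff (.of W.B)).1 this

/-- A point whose image lies in a chart factors through the chart. -/
theorem k2_factor (W : Chart π) {R : Type u} [CommRing R] [Algebra k R] (p : Pt π R)
    (h : Set.range p.1 ⊆ Set.range W.pt.1) : ∃ φ : W.B →ₐ[k] R, p = W.pt.map φ := by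
  have := W.imm
  let g : Spec (.of R) ⟶ Spec (.of W.B) := IsOpenImmersion.lift W.pt.1 p.1 h
  have hg : g ≫ W.pt.1 = p.1 := IsOpenImmersion.lift_fac W.pt.1 p.1 h
  obtain ⟨φ, hφ⟩ := Spec.map_surjective g
  have hcomm : Spec.map (CommRingCat.ofHom (algebraMap k W.B) ≫ φ) =
      Spec.map (CommRingCat.ofHom (algebraMap k R)) := by
    rw [Spec.map_comp, hφ, ← p.2, ← hg, Category.assoc, W.pt.2]
  have hcomm' := Spec.map_injective hcomm
  refine ⟨{ φ.hom with commutes' := fun r => ?_ }, ?_⟩
  · have h2 := congrArg (fun e : CommRingCat.of k ⟶ CommRingCat.of R => e.hom r) hcomm'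
    exact h2
  · apply Pt.ext
    change p.1 = Spec.map φ ≫ W.pt.1
    rw [hφ, hg]

/-- A generic point lies in all charts. -/
theorem k2_generic [IsIntegral V] (W W' : Chart π) [Nontrivial W.B] {K : Type u} [Field K]
    [Algebra k K] (φ' : W'.B →ₐ[k] K) (hφ' : Function.Injective φ') :
    ∃ φ : W.B →ₐ[k] K, W'.pt.map φ' = W.pt.map φ ∧ Function.Injective φ := by
  have i1 := W.imm
  have i2 := W'.imm
  have hn : Nontrivial W'.B := RingHom.domain_nontrivial φ'.toRingHom
  have d1 : IsDomain W.B := k2_domain W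
  have d2 : IsDomain W'.B := k2_domain W'
  have e1 : IsIntegral (Spec (.of W.B)) := (affine_isIntegral_iff (.of W.B)).2 d1
  have e2 : IsIntegral (Spec (.of W'.B)) := (affine_isIntegral_iff (.of W'.B)).2 d2
  have hη : W'.pt.1 (⊥ : PrimeSpectrum W'.B) = genericPoint V := by
    have h1 := genericPoint_eq_of_isOpenImmersion W'.pt.1
    rwa [genericPoint_eq_bot_of_affine] at h1
  have hη1 : W.pt.1 (⊥ : PrimeSpectrum W.B) = genericPoint V := by
    have h1 := genericPoint_eq_of_isOpenImmersion W.pt.1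
    rwa [genericPoint_eq_bot_of_affine] at h1
  have hK : ∀ x : Spec (.of K), x = (⊥ : PrimeSpectrum K) := fun x =>
    (Subsingleton.elim (α := PrimeSpectrum K) x ⊥)
  have hpt : ∀ x : Spec (.of K), (W'.pt.map φ').1 x = genericPoint V := by
    intro x
    have h1 : (Spec.map (CommRingCat.ofHom φ'.toRingHom)) x = (⊥ : PrimeSpectrum W'.B) := by
      rw [hK x]
      apply PrimeSpectrum.ext
      change Ideal.comap φ'.toRingHom ⊥ = ⊥
      exact (RingHom.injective_iff_ker_eq_bot φ'.toRingHom).1 hφ'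
    change W'.pt.1 ((Spec.map (CommRingCat.ofHom φ'.toRingHom)) x) = _
    rw [h1, hη]
  obtain ⟨φ, hφ⟩ := k2_factor W (W'.pt.map φ') (by
    rintro _ ⟨x, rfl⟩
    rw [hpt x, ← hη1]
    exact ⟨_, rfl⟩)
  refine ⟨φ, hφ, ?_⟩
  have h2 := hpt (⊥ : PrimeSpectrum K)
  rw [hφ] at h2
  have h3 : W.pt.1 ((Spec.map (CommRingCat.ofHom φ.toRingHom)) (⊥ : PrimeSpectrum K)) =
      W.pt.1 (⊥ : PrimeSpectrum W.B) := by
    rw [hη1]; exact h2
  have h4 := W.pt.1.isOpenEmbedding.injective h3
  have h5 := congrArg PrimeSpectrum.asIdeal h4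
  exact (RingHom.injective_iff_ker_eq_bot φ.toRingHom).2 h5

/-- A derivation of `K` along a homomorphism to `K`, as a homomorphism to the dual numbers. -/
theorem k2_dual {B K : Type u} [CommRing B] [Algebra k B] [Field K] [Algebra k K]
    (ψ : B →ₐ[k] K) (D : Derivation k K K) :
    ∃ δ : B →ₐ[k] DualNumber K, (∀ b, (δ b).fst = ψ b) ∧ ∀ b, (δ b).snd = D (ψ b) := by
  refine ⟨{ toFun := fun b => TrivSqZeroExt.inl (ψ b) + TrivSqZeroExt.inr (D (ψ b))
            map_one' := ?_
            map_mul' := ?_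
            map_zero' := ?_
            map_add' := ?_
            commutes' := ?_ }, ?_, ?_⟩
  · ext <;> simp
  · intro a b
    ext
    · simp
    · simp [mul_comm]
  · ext <;> simp
  · intro a b
    ext
    · simp
    · simp
  · intro c
    ext
    · simp [TrivSqZeroExt.algebraMap_eq_inl']
    · simp [TrivSqZeroExt.algebraMap_eq_inl']
  · intro b
    simp
  · intro b
    simp

/-- Change of etale coordinates for derivations of `K`. -/
theorem k2_jac {n : ℕ} (W W' : EChart π n) {K : Type u} [Field K] [Algebra k K]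
    (φ : W.B →ₐ[k] K) (φ' : W'.B →ₐ[k] K) (h : W.pt.map φ = W'.pt.map φ') :
    ∃ J : Matrix (Fin n) (Fin n) K, J.det ≠ 0 ∧ ∀ D : Derivation k K K, ∀ j,
      D (φ' (W'.z j)) = ∑ i, J j i * D (φ (W.z i)) := by
  obtain ⟨U, α, α', ψ, -, -, h3, h4, ⟨g, hg⟩, ⟨g', hg'⟩⟩ :=
    exists_refine W.toChart W'.toChart φ φ' h
  have e1 := W.et.away α g hg
  have e2 := W'.et.away α' g' hg'
  obtain ⟨J, hJ, hD⟩ := etale_jacobian _ _ e1 e2 ψ
  refine ⟨J, ?_, fun D j => ?_⟩
  · exact ((Matrix.isUnit_iff_isUnit_det J).1 hJ).ne_zero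
  · obtain ⟨δ, h5, h6⟩ := k2_dual ψ D
    have h7 := congrFun (hD δ h5) j
    simp only [h6] at h7
    rw [← h3, ← h4]
    exact h7

/-- The determinant after a change of coordinates. -/
theorem k2_det {n : ℕ} {K : Type u} [Field K] [Algebra k K] (c x x' : Fin n → K)
    (Dv : Fin (n + n) → Derivation k K K)
    (h : (Matrix.of fun a b => Dv a (Fin.append c x b)).det ≠ 0)
    (J : Matrix (Fin n) (Fin n) K) (hJ : J.det ≠ 0)
    (hD : ∀ a j, Dv a (x' j) = ∑ i, J j i * Dv a (x i)) :
    (Matrix.of fun a b => Dv a (Fin.append c x' b)).det ≠ 0 := by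
  let N : Matrix (Fin (n + n)) (Fin (n + n)) K :=
    (Matrix.reindex finSumFinEquiv finSumFinEquiv) (Matrix.fromBlocks 1 0 0 J.transpose)
  have hN : N.det = J.det := by
    simp [N, Matrix.det_fromBlocks_zero₂₁]
  have hM : (Matrix.of fun a b => Dv a (Fin.append c x' b)) =
      (Matrix.of fun a b => Dv a (Fin.append c x b)) * N := by
    ext a b
    rw [Matrix.mul_apply, Fin.sum_univ_add]
    refine Fin.addCases (fun j => ?_) (fun j => ?_) b
    · simp [N, Fin.append_left, Matrix.one_apply, -Fin.natAdd_eq_addNat]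
    · simp [N, Fin.append_right, hD, mul_comm, -Fin.natAdd_eq_addNat]
  rw [hM, Matrix.det_mul, hN]
  exact mul_ne_zero h hJ

/-- Separating transcendence bases in finitely generated subfields. -/
theorem k2_sep [PerfectField k] {K : Type u} [Field K] [Algebra k K] {m : ℕ} (y : Fin m → K)
    (D : Fin m → Derivation k K K) (hD : (Matrix.of fun a b => D a (y b)).det ≠ 0) (S : Finset K)
    (yL : Fin m → IntermediateField.adjoin k (S : Set K)) (hy : ∀ b, (yL b : K) = y b) :
    ∃ (r : ℕ) (w : Fin r → IntermediateField.adjoin k (S : Set K)),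
      AlgebraicIndependent k (Sum.elim yL w) ∧
      Algebra.IsSeparable (IntermediateField.adjoin k (Set.range (Sum.elim yL w)))
        (IntermediateField.adjoin k (S : Set K)) ∧
      FiniteDimensional (IntermediateField.adjoin k (Set.range (Sum.elim yL w)))
        (IntermediateField.adjoin k (S : Set K)) := by
  classical
  let T : Finset (IntermediateField.adjoin k (S : Set K)) :=
    S.attach.image fun s => ⟨s.1, IntermediateField.subset_adjoin k _ s.2⟩
  have hT : IntermediateField.adjoin k (T : Set (IntermediateField.adjoin k (S : Set K))) = ⊤ := by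
    apply IntermediateField.map_injective (IntermediateField.adjoin k (S : Set K)).val
    rw [IntermediateField.adjoin_map, ← AlgHom.fieldRange_eq_map, IntermediateField.fieldRange_val]
    congr 1
    ext s
    simp only [T, Finset.coe_image, Set.mem_image, Finset.mem_coe, Finset.mem_attach, true_and]
    constructor
    · rintro ⟨_, ⟨a, rfl⟩, rfl⟩
      exact a.2
    · intro hs
      exact ⟨_, ⟨⟨s, hs⟩, rfl⟩, rfl⟩
  obtain ⟨r, w, -, h1, h2, h3⟩ := exists_separating (k := k) T hT yL
    (fun a => (D a).compAlgebraMap (IntermediateField.adjoin k (S : Set K))) (by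
      have h4 : (Matrix.of fun a b => ((D a).compAlgebraMap
          (IntermediateField.adjoin k (S : Set K))) (yL b)) = Matrix.of fun a b => D a (y b) := by
        ext a b
        simp only [Matrix.of_apply, ← hy]
        rfl
      rw [h4]
      exact hD)
  exact ⟨r, w, h1, h2, h3⟩

/-- Elements with independent derivations are algebraically independent. -/
theorem k2_indep [PerfectField k] {K : Type u} [Field K] [Algebra k K] {m : ℕ} (y : Fin m → K)
    (D : Fin m → Derivation k K K) (hD : (Matrix.of fun a b => D a (y b)).det ≠ 0) :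
    AlgebraicIndependent k y := by
  classical
  let S : Finset K := Finset.univ.image y
  let yL : Fin m → IntermediateField.adjoin k (S : Set K) := fun b =>
    ⟨y b, IntermediateField.subset_adjoin k _ (by simp [S])⟩
  obtain ⟨r, w, h1, -, -⟩ := k2_sep y D hD S yL (fun b => rfl)
  have h2 : AlgebraicIndependent k yL := by
    have := h1.comp Sum.inl Sum.inl_injective
    exact this
  exact h2.map' (f := (IntermediateField.adjoin k (S : Set K)).val) Subtype.val_injective

/-- Homomorphisms from a localization. -/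
theorem k2_lift {R S : Type u} [CommRing R] [Algebra k R] [CommRing S] [Algebra k S] (h : R[X])
    (f : R[X] →ₐ[k] S) (hf : IsUnit (f h)) :
    ∃ E : Localization.Away h →ₐ[k] S, ∀ p, E (toLoc k h p) = f p := by
  have hf' : ∀ y : Submonoid.powers h, IsUnit (f y) := by
    rintro ⟨_, m, rfl⟩
    simp only [map_pow]
    exact hf.pow m
  refine ⟨IsLocalization.liftAlgHom (M := Submonoid.powers h) hf', fun p => ?_⟩
  rw [IsLocalization.liftAlgHom_apply]
  exact IsLocalization.lift_eq _ _

/-- The first order part of a polynomial. -/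
theorem k2_evEps {K : Type u} [CommRing K] [Algebra k K] (p : K[X]) :
    (evEps k K p).fst = p.coeff 0 ∧ (evEps k K p).snd = p.coeff 1 := by
  have h1 : ∀ p : K[X], (evEps k K p).fst = p.coeff 0 := by
    intro p
    have h2 := congrArg (evEps k K) (Polynomial.divX_mul_X_add p)
    have h5 : (algebraMap K (DualNumber K)) (p.coeff 0) = TrivSqZeroExt.inl (p.coeff 0) := rfl
    rw [← h2]
    simp [evEps, h5]
  refine ⟨h1 p, ?_⟩
  have h2 := congrArg (evEps k K) (Polynomial.divX_mul_X_add p)
  rw [← h2, map_add, map_mul]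
  have h3 : evEps k K X = DualNumber.eps := by simp [evEps]
  have h5 : (algebraMap K (DualNumber K)) (p.coeff 0) = TrivSqZeroExt.inl (p.coeff 0) := rfl
  have h4 : (evEps k K (C (p.coeff 0))).snd = 0 := by simp [evEps, h5]
  rw [h3, TrivSqZeroExt.snd_add, h4, TrivSqZeroExt.snd_mul, h1, Polynomial.coeff_divX]
  simp

/-- First order expansion in the localization. -/
theorem k2_expand {A K : Type u} [CommRing A] [Algebra k A] [Field K] [Algebra k K]
    (j : A →ₐ[k] K) (hj : Function.Injective j) (h : A[X]) (hh : h.eval 0 = 1)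
    (E : Localization.Away h →ₐ[k] DualNumber K)
    (hE : ∀ p : A[X], E (toLoc k h p) = evEps k K (pmap j p)) (g : Localization.Away h) (c : A)
    (h1 : (E g).fst = 0) (h2 : (E g).snd = j c) :
    ∃ ρ, g = toLoc k h X * (toLoc k h (C c) + toLoc k h X * ρ) := by
  obtain ⟨m, a, hma⟩ := IsLocalization.Away.surj h g
  have hma' : g * toLoc k h (h ^ m) = toLoc k h a := by
    rw [map_pow]; exact hma
  have hcoeff : ∀ p : A[X], (E (toLoc k h p)).fst = j (p.coeff 0) ∧
      (E (toLoc k h p)).snd = j (p.coeff 1) := by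
    intro p
    rw [hE]
    obtain ⟨h3, h4⟩ := k2_evEps (k := k) (pmap j p)
    rw [h3, h4]
    constructor
    · exact Polynomial.coeff_map _ _
    · exact Polynomial.coeff_map _ _
  have h0 : (h ^ m).coeff 0 = 1 := by
    rw [Polynomial.coeff_zero_eq_eval_zero, Polynomial.eval_pow, hh, one_pow]
  have ha0 : a.coeff 0 = 0 := by
    apply hj
    rw [← (hcoeff a).1, ← hma', map_mul, TrivSqZeroExt.fst_mul, h1, zero_mul, map_zero]
  have ha1 : a.coeff 1 = c := by
    apply hj
    rw [← (hcoeff a).2, ← hma', map_mul, TrivSqZeroExt.snd_mul, h1, h2, (hcoeff _).1, h0]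
    simp
  have ha : a = X * (C c + X * a.divX.divX) := by
    have e1 := Polynomial.divX_mul_X_add a
    have e2 := Polynomial.divX_mul_X_add a.divX
    rw [ha0, C_0, add_zero] at e1
    rw [Polynomial.coeff_divX, zero_add, ha1] at e2
    calc a = a.divX * X := e1.symm
      _ = (a.divX.divX * X + C c) * X := by rw [e2]
      _ = _ := by ring
  have hm : h ^ m = 1 + X * (h ^ m).divX := by
    have e1 := Polynomial.divX_mul_X_add (h ^ m)
    rw [h0, C_1] at e1
    calc h ^ m = (h ^ m).divX * X + 1 := e1.symm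
      _ = _ := by ring
  have hu : IsUnit (toLoc k h (h ^ m)) := by
    rw [map_pow]
    exact (IsLocalization.Away.algebraMap_isUnit h).pow m
  obtain ⟨u, hu⟩ := hu
  refine ⟨toLoc k h (a.divX.divX - C c * (h ^ m).divX) * (↑u⁻¹ : Localization.Away h), ?_⟩
  apply (Units.mul_left_inj u).1
  rw [hu, hma']
  have huu : (↑u⁻¹ : Localization.Away h) * toLoc k h (h ^ m) = 1 := by
    rw [← hu]; simp
  have e3 : toLoc k h X * (toLoc k h (C c) + toLoc k h X *
      (toLoc k h (a.divX.divX - C c * (h ^ m).divX) * (↑u⁻¹ : Localization.Away h))) *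
        toLoc k h (h ^ m) =
      toLoc k h X * (toLoc k h (C c) * toLoc k h (h ^ m) + toLoc k h X *
        toLoc k h (a.divX.divX - C c * (h ^ m).divX)) := by
    linear_combination (toLoc k h X * toLoc k h X * toLoc k h (a.divX.divX - C c * (h ^ m).divX)) * huu
  rw [e3, ← map_mul, ← map_mul, ← map_add, ← map_mul]
  congr 1
  calc a = X * (C c + X * a.divX.divX) := ha
    _ = _ := by linear_combination (-(X * C c)) * hm

theorem k2_evk {A A' : Type u} [CommRing A] [Algebra k A] [CommRing A'] [Algebra k A']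
    (j : A →ₐ[k] A') : j.comp (evk (k := k) (R := A) 0) = (evk 0).comp (pmap j) := by
  apply AlgHom.coe_ringHom_injective
  apply Polynomial.ringHom_ext
  · intro a
    simp [evk]
  · simp [evk]

theorem k2_fst {K : Type u} [CommRing K] [Algebra k K] :
    (dfst k K).comp (evEps k K) = evk 0 := by
  apply AlgHom.coe_ringHom_injective
  apply Polynomial.ringHom_ext
  · intro a
    have h5 : (algebraMap K (DualNumber K)) a = TrivSqZeroExt.inl a := rfl
    simp [evk, evEps, h5, dfst]
  · simp [evk, evEps, dfst]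

theorem k2_loc0 {A : Type u} [CommRing A] [Algebra k A] (h : A[X]) (hh : h.eval 0 = 1) :
    (loc0 k h hh).comp (toLoc k h) = evk 0 := by
  apply AlgHom.ext
  intro p
  have hu : IsUnit (Polynomial.evalRingHom (0 : A) h) := by
    rw [Polynomial.coe_evalRingHom, hh]; exact isUnit_one
  change IsLocalization.Away.lift (S := Localization.Away h) h hu
    (algebraMap A[X] (Localization.Away h) p) = _
  rw [IsLocalization.Away.lift_eq]
  simp [evk, Polynomial.coe_aeval_eq_eval]

/-- The chart near `X = 0`. -/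
theorem k2_thick (W : Chart π) {A : Type u} [CommRing A] [Algebra k A] (p : Pt π A[X])
    (φ : W.B →ₐ[k] A) (h : p.map (evk 0) = W.pt.map φ) :
    ∃ (h : A[X]) (hh : h.eval 0 = 1) (φ' : W.B →ₐ[k] Localization.Away h),
      p.map (toLoc k h) = W.pt.map φ' ∧ ∀ b, loc0 k h hh (φ' b) = φ b := by
  have hmk : Ideal.Quotient.mkₐ k (Ideal.span {(X : A[X])}) =
      ((Ideal.Quotient.mkₐ k (Ideal.span {(X : A[X])})).comp
        ((IsScalarTower.toAlgHom k A A[X]))).comp (evk 0) := by
    apply AlgHom.ext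
    intro q
    simp only [AlgHom.comp_apply, Ideal.Quotient.mkₐ_eq_mk]
    rw [Ideal.Quotient.eq, Ideal.mem_span_singleton, Polynomial.X_dvd_iff]
    simp [evk, Polynomial.coe_aeval_eq_eval, Polynomial.coeff_zero_eq_eval_zero]
  obtain ⟨g, hg, φ', hφ'⟩ := W.factor_thick (Ideal.span {(X : A[X])}) p
    (((Ideal.Quotient.mkₐ k (Ideal.span {(X : A[X])})).comp
        ((IsScalarTower.toAlgHom k A A[X]))).comp φ) (by
      rw [← Pt.map_map, ← h, Pt.map_map, ← hmk])
  have hh : g.eval 0 = 1 := by
    rw [Ideal.mem_span_singleton, Polynomial.X_dvd_iff, Polynomial.coeff_zero_eq_eval_zero,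
      Polynomial.eval_sub, Polynomial.eval_one, sub_eq_zero] at hg
    exact hg
  refine ⟨g, hh, φ', hφ', ?_⟩
  have h1 : W.pt.map ((loc0 k g hh).comp φ') = W.pt.map φ := by
    rw [← Pt.map_map, ← hφ', Pt.map_map, ← h]
    congr 1
    exact k2_loc0 g hh
  have h2 := W.map_injective h1
  intro b
  exact congrArg (fun e : W.B →ₐ[k] A => e b) h2

/-- Reindexing. -/
theorem k2_reindex {L : Type u} [Field L] [Algebra k L] {σ τ : Type} (X : σ → L) (Y : τ → L)
    (e : σ ≃ τ) (h : ∀ i, X i = Y (e i)) :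
    (AlgebraicIndependent k Y → AlgebraicIndependent k X) ∧ Set.range X = Set.range Y := by
  have h1 : X = Y ∘ e := funext h
  refine ⟨fun hY => ?_, ?_⟩
  · rw [h1]
    exact hY.comp e e.injective
  · rw [h1, e.surjective.range_comp]

theorem k2_pmap {R R' R'' : Type u} [CommRing R] [Algebra k R] [CommRing R'] [Algebra k R']
    [CommRing R''] [Algebra k R''] (f : R →ₐ[k] R') (g : R' →ₐ[k] R'') (h : R →ₐ[k] R'')
    (hh : ∀ a, g (f a) = h a) : (pmap g).comp (pmap f) = pmap h := by
  apply AlgHom.coe_ringHom_injective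
  apply Polynomial.ringHom_ext
  · intro a
    simp [hh]
  · simp

/-- Construction of (PKG) and of the arc. -/
theorem exists_arcData [IsAlgClosed k] {n : ℕ} [SmoothOfRelativeDimension n π] [IsSeparated π]
    [IsIntegral V] (fd : FamData π n) (k' : Type u) [Field k'] [Algebra k k'] [IsAlgClosed k']
    (γ : Fin n → k') (ω : ℕ → k') (hγ : AlgebraicIndependent k (Sum.elim γ ω)) (v : Pt π k) :
    Nonempty (ArcData fd.Wp fd.p0 k' γ v) := by
  classical
  have hsm : Smooth π := SmoothOfRelativeDimension.smooth n π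
  -- chart at v
  obtain ⟨Wv, v0, hv0⟩ := exists_echart n v
  have hnt : Nontrivial Wv.B := RingHom.domain_nontrivial v0.toRingHom
  have hdom : IsDomain Wv.B := k2_domain Wv.toChart
  obtain ⟨x, hx, hvx, hxz⟩ : ∃ x : Fin n → Wv.B, IsEtaleCoord k x ∧ (∀ i, v0 (x i) = 0) ∧
      ∀ i, x i = Wv.z i - algebraMap k Wv.B (v0 (Wv.z i)) := by
    refine ⟨fun i => Wv.z i - algebraMap k Wv.B (v0 (Wv.z i)),
      k2_translate Wv.z Wv.et (fun i => v0 (Wv.z i)), fun i => ?_, fun i => rfl⟩
    simp
  -- generic point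
  have hnt2 : Nontrivial fd.Wi.B := RingHom.domain_nontrivial fd.φi.toRingHom
  have hdom2 : IsDomain fd.Wi.B := k2_domain fd.Wi.toChart
  have hind := k2_indep (Fin.append fd.c (fun j => fd.φi (fd.Wi.z j))) fd.Dv fd.hdet
  have hind2 : AlgebraicIndependent k (fun j => fd.φi (fd.Wi.z j)) := by
    have h1 := hind.comp (Fin.natAdd n) (Fin.natAdd_injective n n)
    have h2 : (Fin.append fd.c (fun j => fd.φi (fd.Wi.z j))) ∘ (Fin.natAdd n) =
        fun j => fd.φi (fd.Wi.z j) := by
      funext j
      exact Fin.append_right _ _ j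
    rwa [h2] at h1
  have hinj2 : Function.Injective fd.φi := k2_inj fd.Wi.z fd.Wi.et fd.φi hind2
  obtain ⟨φv, hφv, hφvinj⟩ := k2_generic Wv.toChart fd.Wi.toChart fd.φi hinj2
  obtain ⟨J, hJ, hJD⟩ := k2_jac fd.Wi Wv fd.φi φv hφv
  have hJD' : ∀ a j, fd.Dv a (φv (x j)) = ∑ i, J j i * fd.Dv a (fd.φi (fd.Wi.z i)) := by
    intro a j
    rw [← hJD, hxz, map_sub, map_sub, AlgHom.commutes, Derivation.map_algebraMap, sub_zero]
  have hdet := k2_det fd.c (fun j => fd.φi (fd.Wi.z j)) (fun j => φv (x j)) fd.Dv fd.hdet J hJ hJD'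
  -- finite generation
  have hft : Algebra.FiniteType k Wv.B := Chart.finiteType Wv.toChart
  obtain ⟨G, hG⟩ := hft.out
  obtain ⟨A0, ⟨S, hS⟩, hT1, Ψ0, hΨ0⟩ := Crv.descend fd.Ψ (Finset.univ.image fd.c ∪ G.image φv)
  have hcA0 : ∀ i, fd.c i ∈ A0 := fun i => hT1 _ (by simp)
  have hφvA0 : ∀ b, φv b ∈ A0 := by
    intro b
    have h1 : Algebra.adjoin k (G : Set Wv.B) ≤ A0.comap φv := by
      rw [Algebra.adjoin_le_iff]
      intro g hg
      exact hT1 _ (by
        rw [Finset.mem_union]
        exact Or.inr (Finset.mem_image_of_mem φv hg))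
    rw [hG] at h1
    exact h1 (Algebra.mem_top (x := b))
  have hA0L : ∀ a ∈ A0, a ∈ IntermediateField.adjoin k (S : Set fd.K) := by
    intro a ha
    rw [← hS] at ha
    exact IntermediateField.algebra_adjoin_le_adjoin k (S : Set fd.K) ha
  obtain ⟨ι, hιφ⟩ : ∃ ι : Wv.B →ₐ[k] IntermediateField.adjoin k (S : Set fd.K),
      ∀ b, (ι b : fd.K) = φv b :=
    ⟨φv.codRestrict (IntermediateField.adjoin k (S : Set fd.K)).toSubalgebra
      (fun b => hA0L _ (hφvA0 b)), fun b => rfl⟩
  have hιinj : Function.Injective ι := by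
    intro a b hab
    apply hφvinj
    rw [← hιφ, hab, hιφ]
  let cL : Fin n → IntermediateField.adjoin k (S : Set fd.K) := fun i => ⟨fd.c i, hA0L _ (hcA0 i)⟩
  obtain ⟨r, w, hw1, hw2, hw3⟩ := k2_sep (Fin.append fd.c (fun j => φv (x j))) fd.Dv hdet S
    (Fin.append cL (fun j => ι (x j))) (by
      intro b
      refine Fin.addCases (fun i => ?_) (fun i => ?_) b
      · rw [Fin.append_left, Fin.append_left]
      · rw [Fin.append_right, Fin.append_right, hιφ])
  -- reindexing
  let e1 : Fin n ⊕ Fin (n + r) ≃ Fin (n + n) ⊕ Fin r :=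
    ((Equiv.refl (Fin n)).sumCongr finSumFinEquiv.symm).trans
      ((Equiv.sumAssoc _ _ _).symm.trans (finSumFinEquiv.sumCongr (Equiv.refl _)))
  let e2 : Fin n ⊕ (Fin n ⊕ Fin r) ≃ Fin (n + n) ⊕ Fin r :=
    (Equiv.sumAssoc _ _ _).symm.trans
      (((Equiv.sumComm _ _).trans finSumFinEquiv).sumCongr (Equiv.refl _))
  obtain ⟨hX1, hXr1⟩ := k2_reindex (k := k) (Sum.elim cL (Fin.append (fun j => ι (x j)) w))
    (Sum.elim (Fin.append cL (fun j => ι (x j))) w) e1 (by
      rintro (i | i)
      · simp [e1]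
      · refine Fin.addCases (fun i => ?_) (fun i => ?_) i
        · simp [e1, -Fin.natAdd_eq_addNat]
        · simp [e1, -Fin.natAdd_eq_addNat])
  obtain ⟨hX2, hXr2⟩ := k2_reindex (k := k) (Sum.elim (fun j => ι (x j)) (Sum.elim cL w))
    (Sum.elim (Fin.append cL (fun j => ι (x j))) w) e2 (by
      rintro (i | i | i)
      · simp [e2, -Fin.natAdd_eq_addNat]
      · simp [e2]
      · simp [e2])
  have i1 : Algebra.IsSeparable (IntermediateField.adjoin k
      (Set.range (Sum.elim cL (Fin.append (fun j => ι (x j)) w))))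
        (IntermediateField.adjoin k (S : Set fd.K)) := by
    rw [hXr1]; exact hw2
  have i2 : FiniteDimensional (IntermediateField.adjoin k
      (Set.range (Sum.elim cL (Fin.append (fun j => ι (x j)) w))))
        (IntermediateField.adjoin k (S : Set fd.K)) := by
    rw [hXr1]; exact hw3
  have i3 : Algebra.IsSeparable (IntermediateField.adjoin k
      (Set.range (Sum.elim (fun j => ι (x j)) (Sum.elim cL w))))
        (IntermediateField.adjoin k (S : Set fd.K)) := by
    rw [hXr2]; exact hw2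
  have i4 : FiniteDimensional (IntermediateField.adjoin k
      (Set.range (Sum.elim (fun j => ι (x j)) (Sum.elim cL w))))
        (IntermediateField.adjoin k (S : Set fd.K)) := by
    rw [hXr2]; exact hw3
  -- the ring
  obtain ⟨TL, hTL⟩ : ∃ TL : Finset (IntermediateField.adjoin k (S : Set fd.K)),
      ∀ s (hs : s ∈ S), (⟨s, IntermediateField.subset_adjoin k _ hs⟩ :
        IntermediateField.adjoin k (S : Set fd.K)) ∈ TL :=
    ⟨S.attach.image fun s => ⟨s.1, IntermediateField.subset_adjoin k _ s.2⟩, fun s hs =>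
      Finset.mem_image.2 ⟨⟨s, hs⟩, Finset.mem_attach _ _, rfl⟩⟩
  obtain ⟨A, algA, towA, hTA, hXA, hstd⟩ := exists_std_etale
    (Sum.elim cL (Fin.append (fun j => ι (x j)) w)) (hX1 hw1) TL
  let j : A →ₐ[k] fd.K := (IntermediateField.adjoin k (S : Set fd.K)).val.comp A.val
  have hj : Function.Injective j := by
    intro a b hab
    have h1 : (a : IntermediateField.adjoin k (S : Set fd.K)) = b := Subtype.val_injective hab
    exact Subtype.val_injective h1
  have hA0j : A0 ≤ j.range := by
    rw [← hS, Algebra.adjoin_le_iff]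
    intro s hs
    exact ⟨⟨_, hTA _ (hTL s hs)⟩, rfl⟩
  obtain ⟨i0, hi0⟩ : ∃ i0 : A0 →ₐ[k] A, ∀ a, j (i0 a) = a := by
    refine ⟨((AlgEquiv.ofInjective j hj).symm.toAlgHom).comp (Subalgebra.inclusion hA0j),
      fun a => ?_⟩
    have h1 := (AlgEquiv.ofInjective j hj).apply_symm_apply (Subalgebra.inclusion hA0j a)
    have h2 := congrArg Subtype.val h1
    exact h2
  have hy : (Ψ0.map i0).y.map (pmap j) = fd.Ψ.y := by
    have h1 := congrArg Crv.y hΨ0
    rw [← h1]
    change (Ψ0.y.map (pmap i0)).map (pmap j) = Ψ0.y.map (pmap A0.val)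
    rw [Pt.map_map, k2_pmap i0 j A0.val hi0]
  have hw : (Ψ0.map i0).w.map (pmap j) = fd.Ψ.w := by
    have h1 := congrArg Crv.w hΨ0
    rw [← h1]
    change (Ψ0.w.map (pmap i0)).map (pmap j) = Ψ0.w.map (pmap A0.val)
    rw [Pt.map_map, k2_pmap i0 j A0.val hi0]
  -- the chart near y = 0
  have hy0 : (Ψ0.map i0).y.map (evk 0) = fd.Wp.pt.map ((Algebra.ofId k A).comp fd.p0) := by
    apply Pt.map_injective j hj
    rw [Pt.map_map, k2_evk, ← Pt.map_map, hy, ← k2_fst, ← Pt.map_map, fd.hφ0, Pt.map_map,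
      Pt.map_map]
    congr 1
    apply AlgHom.ext
    intro b
    change (fd.φ0 b).fst = j (algebraMap k A (fd.p0 b))
    rw [fd.hφ0f, AlgHom.commutes]
  obtain ⟨h0, hh0, φ0, hφ0, hφ0p⟩ := k2_thick fd.Wp.toChart (Ψ0.map i0).y _ hy0
  obtain ⟨E, hE⟩ := k2_lift h0 ((evEps k fd.K).comp (pmap j)) (by
    rw [TrivSqZeroExt.isUnit_iff_isUnit_fst]
    have h1 := (k2_evEps (k := k) (pmap j h0)).1
    change IsUnit ((evEps k fd.K) (pmap j h0)).fst
    rw [h1]
    have h2 : (pmap j h0).coeff 0 = j (h0.coeff 0) := Polynomial.coeff_map _ _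
    rw [h2, Polynomial.coeff_zero_eq_eval_zero, hh0, map_one]
    exact isUnit_one)
  have hEφ : E.comp φ0 = fd.φ0 := by
    apply fd.Wp.toChart.map_injective
    have h1 : E.comp (toLoc k h0) = (evEps k fd.K).comp (pmap j) := AlgHom.ext hE
    rw [← Pt.map_map, ← hφ0, Pt.map_map, h1, ← Pt.map_map, hy, fd.hφ0]
  have hEφ' : ∀ b, E (φ0 b) = fd.φ0 b := fun b =>
    congrArg (fun e : fd.Wp.B →ₐ[k] DualNumber fd.K => e b) hEφ
  have hcj : ∀ i, j (algebraMap (MvPolynomial (Fin n ⊕ Fin (n + r)) k) A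
      (MvPolynomial.X (Sum.inl i))) = fd.c i := by
    intro i
    have h1 := congrArg Subtype.val (hXA (Sum.inl i))
    exact h1
  choose ρ hρ using fun i => k2_expand j hj h0 hh0 E hE (φ0 (fd.Wp.z i))
    (algebraMap (MvPolynomial (Fin n ⊕ Fin (n + r)) k) A (MvPolynomial.X (Sum.inl i)))
    (by rw [hEφ', fd.hφ0f, fd.hpz, map_zero]) (by rw [hEφ', fd.hφ0z, hcj])
  -- the chart near w = 0
  obtain ⟨ιA, hιA⟩ : ∃ ιA : Wv.B →ₐ[k] A, ∀ b, j (ιA b) = φv b :=
    ⟨i0.comp (φv.codRestrict A0 hφvA0), fun b => hi0 _⟩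
  have hw0 : (Ψ0.map i0).w.map (evk 0) = Wv.pt.map ιA := by
    apply Pt.map_injective j hj
    rw [Pt.map_map, k2_evk, ← Pt.map_map, hw, Pt.map_map]
    have h1 : fd.Ψ.w.map (evk 0) = fd.Ψ.at none := rfl
    rw [h1, fd.hφi, hφv]
    congr 1
    exact AlgHom.ext fun b => (hιA b).symm
  obtain ⟨h1, hh1, φ1, hφ1, hφ1p⟩ := k2_thick Wv.toChart (Ψ0.map i0).w _ hw0
  -- the arc
  obtain ⟨m, hm1, hm2⟩ := exists_arc γ ω hγ x hx v0 hvx ι hιinj cL w (hX2 hw1) i3 i4
  have hιAL : ∀ b, ((ιA b : A) : IntermediateField.adjoin k (S : Set fd.K)) = ι b := by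
    intro b
    apply Subtype.val_injective
    rw [hιφ]
    exact hιA b
  exact ⟨{
    r := n + r
    A := A
    alg' := algA
    tower := towA
    std := hstd
    m := m.comp A.val
    hm := fun i => by
      have h2 : m (cL i) = LSer.C (γ i) := hm1 i
      rw [← h2]
      change m (A.val _) = _
      congr 1
      exact hXA (Sum.inl i)
    Ψ := Ψ0.map i0
    h0 := h0
    hh0 := hh0
    φ0 := φ0
    hφ0 := hφ0
    hφ0p := fun b => hφ0p b
    ρ := ρ
    hρ := hρ
    Wv := Wv.toChart
    v0 := v0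
    hv0 := hv0
    h1 := h1
    hh1 := hh1
    φ1 := φ1
    hφ1 := hφ1
    hm1 := fun b => by
      rw [hφ1p]
      obtain ⟨a, ha, ha'⟩ := hm2 b
      refine ⟨a, ?_, ha'⟩
      rw [← ha, ← hιAL]
      rfl }⟩

end Pool.Agent.H19VF
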