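import Mathlib

/-! # Task K0, K1: separating transcendence bases and standard etale models -/

set_option autoImplicit false

universe u

namespace Pool.Agent.H19VF

section K0aux

variable {k L : Type u} [Field k] [Field L] [Algebra k L]

/-- differentials of elements of `k(S)` are spanned by the differentials of `S` -/
theorem K0_D_mem_span (S : Set L) (N : Submodule L (Ω[L⁄k]))
    (hN : ∀ s ∈ S, KaehlerDifferential.D k L s ∈ N) (x : L)
    (hx : x ∈ IntermediateField.adjoin k S) : KaehlerDifferential.D k L x ∈ N := by
  induction hx using IntermediateField.adjoin_induction with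
  | mem x hx => exact hN x hx
  | algebraMap x => simp
  | add x y _ _ hx hy => rw [map_add]; exact N.add_mem hx hy
  | inv x _ hx =>
    by_cases h0 : x = 0
    · subst h0; simp
    rw [Derivation.leibniz_inv]
    exact N.smul_mem _ hx
  | mul x y _ _ hx hy =>
    rw [Derivation.leibniz]
    exact N.add_mem (N.smul_mem _ hy) (N.smul_mem _ hx)

theorem K0_span_top (S : Set L) (hS : IntermediateField.adjoin k S = ⊤) :
    Submodule.span L (KaehlerDifferential.D k L '' S) = ⊤ := by
  rw [eq_top_iff, ← KaehlerDifferential.span_range_derivation, Submodule.span_le]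
  rintro _ ⟨x, rfl⟩
  refine K0_D_mem_span S _ (fun s hs => Submodule.subset_span (Set.mem_image_of_mem _ hs)) x ?_
  rw [hS]
  trivial

/-- the differentials over `k` of a separably generating set span -/
theorem K0_span_of_isSeparable (S : Set L)
    (hS : Algebra.IsSeparable (IntermediateField.adjoin k S) L) :
    Submodule.span L (KaehlerDifferential.D k L '' S) = ⊤ := by
  set K := IntermediateField.adjoin k S with hK
  have hu : Algebra.FormallyUnramified K L := Algebra.FormallyUnramified.of_isSeparable K L
  have h0 : Subsingleton (Ω[L⁄K]) := Algebra.FormallyUnramified.subsingleton_kaehlerDifferential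
  rw [eq_top_iff]
  intro ω _
  have h1 : KaehlerDifferential.map k K L L ω = 0 := Subsingleton.elim _ _
  obtain ⟨z, rfl⟩ := (KaehlerDifferential.exact_mapBaseChange_map k K L ω).1 h1
  induction z with
  | zero => simp
  | add x y hx hy =>
    rw [map_add]
    exact Submodule.add_mem _ (hx trivial (Subsingleton.elim _ _)) (hy trivial (Subsingleton.elim _ _))
  | tmul x y =>
    rw [KaehlerDifferential.mapBaseChange_tmul]
    refine Submodule.smul_mem _ _ ?_
    have hy : y ∈ Submodule.span K (Set.range (KaehlerDifferential.D k K)) := by
      rw [KaehlerDifferential.span_range_derivation]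
      trivial
    clear h1
    induction hy using Submodule.span_induction with
    | zero => simp
    | add x y _ _ hx hy => rw [map_add]; exact Submodule.add_mem _ (hx trivial) (hy trivial)
    | smul a x _ hx =>
      rw [map_smul]
      rw [← algebraMap_smul L a]
      exact Submodule.smul_mem _ _ (hx trivial)
    | mem x hx =>
      obtain ⟨c, rfl⟩ := hx
      rw [KaehlerDifferential.map_D]
      exact K0_D_mem_span S _ (fun s hs => Submodule.subset_span (Set.mem_image_of_mem _ hs)) _ c.2

/-- if the differentials of `S` span, then `L` is formally unramified over `k(S)` -/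
theorem K0_unramified (S : Set L)
    (hS : Submodule.span L (KaehlerDifferential.D k L '' S) = ⊤) :
    Algebra.FormallyUnramified (IntermediateField.adjoin k S) L := by
  set K := IntermediateField.adjoin k S with hK
  refine ⟨⟨fun a b => ?_⟩⟩
  have h0 : ∀ ω : Ω[L⁄K], ω = 0 := by
    intro ω
    obtain ⟨ω', rfl⟩ := KaehlerDifferential.map_surjective k K L ω
    have h1 : ω' ∈ Submodule.span L (KaehlerDifferential.D k L '' S) := by
      rw [hS]
      trivial
    induction h1 using Submodule.span_induction with
    | zero => simp
    | add x y _ _ hx hy => rw [map_add, hx, hy, add_zero]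
    | smul a x _ hx => rw [map_smul, hx, smul_zero]
    | mem x hx =>
      obtain ⟨s, hs, rfl⟩ := hx
      rw [KaehlerDifferential.map_D]
      have h2 : algebraMap L L s = algebraMap K L ⟨s, IntermediateField.subset_adjoin k S hs⟩ := rfl
      rw [h2, Derivation.map_algebraMap]
  rw [h0 a, h0 b]

end K0aux

/-- K0. `k` is perfect, `L` is a finitely generated field over `k`, generated by the finite set
`T`; there are `k`-derivations `D a` from `L` to a field `M` containing it with `det (D a (y b))`
not zero. Then `y` can be completed by elements of `T` to a separating transcendence basis. -/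
theorem exists_separating {k L M : Type u} [Field k] [PerfectField k] [Field L] [Algebra k L]
    [Field M] [Algebra k M] [Algebra L M] [IsScalarTower k L M] (T : Finset L)
    (hT : IntermediateField.adjoin k (T : Set L) = ⊤) {m : ℕ} (y : Fin m → L)
    (D : Fin m → Derivation k L M)
    (hD : (Matrix.of fun a b => D a (y b)).det ≠ 0) :
    ∃ (r : ℕ) (w : Fin r → L), (∀ l, w l ∈ T) ∧
      AlgebraicIndependent k (Sum.elim y w) ∧
      Algebra.IsSeparable (IntermediateField.adjoin k (Set.range (Sum.elim y w))) L ∧
      FiniteDimensional (IntermediateField.adjoin k (Set.range (Sum.elim y w))) L := by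
  classical
  have hfg : Algebra.EssFiniteType k L := by
    rw [← IntermediateField.fg_top_iff]
    exact ⟨T, hT⟩
  -- the differentials of `y` are independent
  have hli : LinearIndependent L (fun b => KaehlerDifferential.D k L (y b)) := by
    rw [Fintype.linearIndependent_iff]
    intro c hc b
    have h1 : ∀ a, ∑ b, D a (y b) * algebraMap L M (c b) = 0 := by
      intro a
      have h2 := congrArg (D a).liftKaehlerDifferential hc
      rw [map_sum, map_zero] at h2
      rw [← h2]
      refine Finset.sum_congr rfl fun b _ => ?_
      rw [map_smul, Derivation.liftKaehlerDifferential_comp_D, Algebra.smul_def, mul_comm]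
    have h3 : (Matrix.of fun a b => D a (y b)).mulVec (fun b => algebraMap L M (c b)) = 0 := by
      ext a
      simp only [Matrix.mulVec, dotProduct, Matrix.of_apply, Pi.zero_apply]
      exact h1 a
    have h4 := Matrix.eq_zero_of_mulVec_eq_zero hD h3
    have h5 : algebraMap L M (c b) = 0 := congrFun h4 b
    exact (map_eq_zero _).1 h5
  -- completion to a basis
  set v : Fin m ⊕ T → Ω[L⁄k] :=
    Sum.elim (fun b => KaehlerDifferential.D k L (y b)) (fun t => KaehlerDifferential.D k L t) with hv
  have hli' : LinearIndepOn L v (Set.range Sum.inl) := by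
    rw [linearIndepOn_range_iff Sum.inl_injective]
    exact hli
  obtain ⟨B, -, hB1, hB2, hB3⟩ := exists_linearIndepOn_extension hli' (Set.subset_univ _)
  set U : Finset T := Finset.univ.filter (fun t => Sum.inr t ∈ B) with hU
  set r := U.card with hr
  let e : Fin r ≃ U := U.equivFin.symm
  let w : Fin r → L := fun l => ((e l : T) : L)
  set z : Fin m ⊕ Fin r → L := Sum.elim y w with hz
  have hwT : ∀ l, w l ∈ T := fun l => ((e l : T)).2
  -- independence of the differentials
  let g : Fin m ⊕ Fin r → Fin m ⊕ T := Sum.map id (fun l => (e l : T))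
  have hgB : ∀ i, g i ∈ B := by
    rintro (i | l)
    · exact hB1 ⟨i, rfl⟩
    · exact (Finset.mem_filter.1 (e l).2).2
  have hginj : Function.Injective g := by
    refine Function.Injective.sumMap Function.injective_id ?_
    exact Subtype.val_injective.comp e.injective
  have hvg : ∀ i, v (g i) = KaehlerDifferential.D k L (z i) := by
    rintro (i | l) <;> rfl
  have hz1 : LinearIndependent L (fun i => KaehlerDifferential.D k L (z i)) := by
    have h1 := LinearIndependent.comp hB3 (fun i => (⟨g i, hgB i⟩ : B)) (by
      intro i j hij
      exact hginj (congrArg Subtype.val hij))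
    have h2 : (fun i => KaehlerDifferential.D k L (z i)) =
        (fun x : B => v x) ∘ (fun i => (⟨g i, hgB i⟩ : B)) := by
      funext i
      exact (hvg i).symm
    rw [h2]
    exact h1
  have hz2 : Submodule.span L (KaehlerDifferential.D k L '' (Set.range z)) = ⊤ := by
    rw [eq_top_iff, ← K0_span_top (T : Set L) hT, Submodule.span_le]
    rintro _ ⟨t, ht, rfl⟩
    have h1 : KaehlerDifferential.D k L t ∈ v '' Set.univ := ⟨Sum.inr ⟨t, ht⟩, trivial, rfl⟩
    refine (Submodule.span_le.2 ?_ : Submodule.span L (v '' B) ≤ _) (hB2 h1)
    rintro _ ⟨x, hx, rfl⟩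
    refine Submodule.subset_span ?_
    rcases x with i | t'
    · exact ⟨z (Sum.inl i), ⟨_, rfl⟩, rfl⟩
    · have h3 : t' ∈ U := Finset.mem_filter.2 ⟨Finset.mem_univ _, hx⟩
      refine ⟨z (Sum.inr (e.symm ⟨t', h3⟩)), ⟨_, rfl⟩, ?_⟩
      simp only [hz, Sum.elim_inr, w, Equiv.apply_symm_apply]
      rfl
  have hur : Algebra.FormallyUnramified (IntermediateField.adjoin k (Set.range z)) L :=
    K0_unramified (Set.range z) hz2
  have hef : Algebra.EssFiniteType (IntermediateField.adjoin k (Set.range z)) L :=
    Algebra.EssFiniteType.of_comp k _ L
  have hsep : Algebra.IsSeparable (IntermediateField.adjoin k (Set.range z)) L :=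
    Algebra.FormallyUnramified.isSeparable _ L
  have hfin : FiniteDimensional (IntermediateField.adjoin k (Set.range z)) L :=
    Algebra.FormallyUnramified.finite_of_free _ L
  -- the cardinality
  obtain ⟨s, hs1, hs2⟩ := exists_isTranscendenceBasis_and_isSeparable_of_perfectField k L
  have hcard : Fintype.card (Fin m ⊕ Fin r) ≤ s.card := by
    have h1 := hz1.fintype_card_le_finrank
    have h2 := K0_span_of_isSeparable (k := k) (s : Set L) hs2
    have h3 : Submodule.span L ((s.image (KaehlerDifferential.D k L) : Finset (Ω[L⁄k])) :
        Set (Ω[L⁄k])) = ⊤ := by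
      rw [Finset.coe_image]
      exact h2
    have h4 := finrank_span_finset_le_card (R := L) (s.image (KaehlerDifferential.D k L))
    unfold Set.finrank at h4
    rw [h3, finrank_top] at h4
    exact (h1.trans h4).trans Finset.card_image_le
  have halg : Algebra.IsAlgebraic (Algebra.adjoin k (Set.range z)) L := by
    have h1 : Algebra.IsAlgebraic (IntermediateField.adjoin k (Set.range z)) L := inferInstance
    exact IntermediateField.isAlgebraic_adjoin_iff_top.1 h1
  have htr : IsTranscendenceBasis k z := by
    refine Algebra.IsAlgebraic.isTranscendenceBasis_of_lift_le_trdeg_of_finite k z ?_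
    rw [← hs1.cardinalMk_eq_trdeg]
    simp only [Cardinal.mk_fintype, Cardinal.lift_natCast, Fintype.card_coe]
    exact_mod_cast hcard
  exact ⟨r, w, hwT, htr.1, hsep, hfin⟩

end Pool.Agent.H19VF

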