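import Pool.Agent.H19VF.Ser

/-! # Task M: perturbation of arcs and evaluation of Laurent series (section 5 of the paper) -/

set_option autoImplicit false

universe u

namespace Pool.Agent.H19VF

/-- The inclusion `k'((t)) → k'[δ]((t))`. -/
noncomputable def incl (k k' : Type u) [Field k] [Field k'] [Algebra k k'] (n : ℕ) :
    LSer k' →ₐ[k] LSer (MvPolynomial (Fin n) k') :=
  LSer.map (IsScalarTower.toAlgHom k k' (MvPolynomial (Fin n) k'))

namespace EvAux

section ps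

variable {R : Type u} [CommRing R] {Λ : Type u} [Field Λ]

/-- the image of `t` -/
noncomputable def y (ϖ : Λ) : PowerSeries Λ := PowerSeries.C ϖ * PowerSeries.X

lemma X_pow_dvd_y_pow (ϖ : Λ) (j : ℕ) : (PowerSeries.X : PowerSeries Λ) ^ j ∣ y ϖ ^ j := by
  rw [y, mul_pow]; exact Dvd.intro_left _ rfl

/-- Evaluation of a power series over `R` along `φ` with `t ↦ ϖ t`, as a function. -/
noncomputable def fn (φ : R →+* PowerSeries Λ) (ϖ : Λ) (F : PowerSeries R) : PowerSeries Λ :=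
  PowerSeries.mk fun i => PowerSeries.coeff i
    (Polynomial.eval₂ φ (y ϖ) (PowerSeries.trunc (i + 1) F))

lemma dvd_eval (φ : R →+* PowerSeries Λ) (ϖ : Λ) (i : ℕ) (p : Polynomial R)
    (hp : Polynomial.X ^ i ∣ p) :
    (PowerSeries.X : PowerSeries Λ) ^ i ∣ Polynomial.eval₂ φ (y ϖ) p := by
  obtain ⟨q, rfl⟩ := hp
  rw [Polynomial.eval₂_mul, Polynomial.eval₂_X_pow]
  exact Dvd.dvd.mul_right (X_pow_dvd_y_pow ϖ i) _

lemma coeff_eval_congr (φ : R →+* PowerSeries Λ) (ϖ : Λ) (i : ℕ) (p q : Polynomial R)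
    (h : ∀ d < i + 1, p.coeff d = q.coeff d) :
    PowerSeries.coeff i (Polynomial.eval₂ φ (y ϖ) p) =
      PowerSeries.coeff i (Polynomial.eval₂ φ (y ϖ) q) := by
  have h1 : Polynomial.X ^ (i + 1) ∣ p - q := by
    rw [Polynomial.X_pow_dvd_iff]
    intro d hd
    rw [Polynomial.coeff_sub, h d hd, sub_self]
  have h2 := dvd_eval φ ϖ (i + 1) _ h1
  rw [PowerSeries.X_pow_dvd_iff] at h2
  have h3 := h2 i (Nat.lt_succ_self i)
  rw [Polynomial.eval₂_sub, map_sub, sub_eq_zero] at h3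
  exact h3

lemma coeff_fn (φ : R →+* PowerSeries Λ) (ϖ : Λ) (F : PowerSeries R) (i N : ℕ) (h : i < N) :
    PowerSeries.coeff i (fn φ ϖ F) =
      PowerSeries.coeff i (Polynomial.eval₂ φ (y ϖ) (PowerSeries.trunc N F)) := by
  rw [fn, PowerSeries.coeff_mk]
  apply coeff_eval_congr
  intro d hd
  rw [PowerSeries.coeff_trunc, PowerSeries.coeff_trunc, if_pos hd, if_pos (by omega)]

/-- The coefficients of the value. -/
lemma coeff_fn_eq (φ : R →+* PowerSeries Λ) (ϖ : Λ) (F : PowerSeries R) (i : ℕ) :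
    PowerSeries.coeff i (fn φ ϖ F) =
      ∑ j ∈ Finset.range (i + 1), ϖ ^ j * PowerSeries.coeff (i - j) (φ (PowerSeries.coeff j F)) := by
  rw [coeff_fn φ ϖ F i (i + 1) (Nat.lt_succ_self i),
    Polynomial.eval₂_eq_sum_range' φ (PowerSeries.natDegree_trunc_lt F i), map_sum]
  refine Finset.sum_congr rfl fun j hj => ?_
  rw [Finset.mem_range] at hj
  rw [PowerSeries.coeff_trunc, if_pos hj, y, mul_pow, ← mul_assoc, mul_comm _ (PowerSeries.X ^ j),
    PowerSeries.coeff_X_pow_mul', if_pos (by omega), mul_comm, ← map_pow, PowerSeries.coeff_C_mul]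

/-- Evaluation of a power series over `R` along `φ` with `t ↦ ϖ t`. -/
noncomputable def evPS (φ : R →+* PowerSeries Λ) (ϖ : Λ) : PowerSeries R →+* PowerSeries Λ where
  toFun := fn φ ϖ
  map_one' := by
    ext i
    rw [coeff_fn φ ϖ _ i (i + 1) (Nat.lt_succ_self i), PowerSeries.trunc_one, Polynomial.eval₂_one]
  map_zero' := by
    ext i
    rw [coeff_fn φ ϖ _ i (i + 1) (Nat.lt_succ_self i), map_zero (PowerSeries.trunc (i + 1)),
      Polynomial.eval₂_zero]
  map_add' F G := by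
    ext i
    rw [map_add, coeff_fn φ ϖ _ i (i + 1) (Nat.lt_succ_self i),
      coeff_fn φ ϖ F i (i + 1) (Nat.lt_succ_self i), coeff_fn φ ϖ G i (i + 1) (Nat.lt_succ_self i),
      map_add, Polynomial.eval₂_add, map_add]
  map_mul' F G := by
    ext i
    rw [PowerSeries.coeff_mul]
    have h : ∀ p ∈ Finset.HasAntidiagonal.antidiagonal i,
        PowerSeries.coeff p.1 (fn φ ϖ F) * PowerSeries.coeff p.2 (fn φ ϖ G) =
        PowerSeries.coeff p.1 (Polynomial.eval₂ φ (y ϖ) (PowerSeries.trunc (i + 1) F)) *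
        PowerSeries.coeff p.2 (Polynomial.eval₂ φ (y ϖ) (PowerSeries.trunc (i + 1) G)) := by
      intro p hp
      rw [Finset.HasAntidiagonal.mem_antidiagonal] at hp
      rw [coeff_fn φ ϖ F p.1 (i + 1) (by omega), coeff_fn φ ϖ G p.2 (i + 1) (by omega)]
    rw [Finset.sum_congr rfl h, ← PowerSeries.coeff_mul, ← Polynomial.eval₂_mul,
      coeff_fn φ ϖ _ i (i + 1) (Nat.lt_succ_self i)]
    apply coeff_eval_congr
    intro d hd
    rw [PowerSeries.coeff_trunc, if_pos hd, PowerSeries.coeff_mul_eq_coeff_trunc_mul_trunc F G hd]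
    rw [← Polynomial.coeff_coe, Polynomial.coe_mul]

lemma coeff_evPS (φ : R →+* PowerSeries Λ) (ϖ : Λ) (F : PowerSeries R) (i : ℕ) :
    PowerSeries.coeff i (evPS φ ϖ F) =
      ∑ j ∈ Finset.range (i + 1), ϖ ^ j * PowerSeries.coeff (i - j) (φ (PowerSeries.coeff j F)) :=
  coeff_fn_eq φ ϖ F i

lemma evPS_C (φ : R →+* PowerSeries Λ) (ϖ : Λ) (r : R) :
    evPS φ ϖ (PowerSeries.C r) = φ r := by
  ext i
  rw [coeff_evPS, Finset.sum_eq_single 0]
  · simp
  · intro j _ hj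
    rw [PowerSeries.coeff_C, if_neg hj, map_zero, map_zero, mul_zero]
  · intro h
    exact absurd (Finset.mem_range.2 (Nat.succ_pos i)) h

lemma evPS_X (φ : R →+* PowerSeries Λ) (ϖ : Λ) :
    evPS φ ϖ PowerSeries.X = y ϖ := by
  ext i
  rw [coeff_evPS, y, PowerSeries.coeff_C_mul, PowerSeries.coeff_X]
  split_ifs with h
  · subst h
    rw [Finset.sum_range_succ, Finset.sum_range_succ]
    simp
  · rw [mul_zero]
    refine Finset.sum_eq_zero fun j hj => ?_
    rw [Finset.mem_range] at hj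
    rw [PowerSeries.coeff_X]
    split_ifs with h1
    · subst h1
      rw [map_one, PowerSeries.coeff_one, if_neg (by omega), mul_zero]
    · rw [map_zero, map_zero, mul_zero]

end ps

section ls

variable {R : Type u} [CommRing R] {Λ : Type u} [Field Λ]

lemma isUnit_CT (ϖ : Λ) (hϖ : ϖ ≠ 0) : IsUnit (LSer.C ϖ * LSer.T 1 : LSer Λ) :=
  ((isUnit_iff_ne_zero.2 hϖ).map LSer.C).mul (LSer.isUnit_T 1)

lemma isUnit_powers (φ : R →+* PowerSeries Λ) (ϖ : Λ) (hϖ : ϖ ≠ 0)
    (x : Submonoid.powers (PowerSeries.X : PowerSeries R)) :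
    IsUnit ((LSer.ofPS.comp (evPS φ ϖ)) (x : PowerSeries R)) := by
  obtain ⟨x, m, rfl⟩ := x
  change IsUnit ((LSer.ofPS.comp (evPS φ ϖ)) (PowerSeries.X ^ m))
  rw [map_pow]
  apply IsUnit.pow
  rw [RingHom.comp_apply, evPS_X, y, map_mul, LSer.ofPS_C, LSer.ofPS_X]
  exact isUnit_CT ϖ hϖ

/-- Evaluation of Laurent series. -/
noncomputable def evL (φ : R →+* PowerSeries Λ) (ϖ : Λ) (hϖ : ϖ ≠ 0) : LSer R →+* LSer Λ :=
  (IsLocalization.lift (M := Submonoid.powers (PowerSeries.X : PowerSeries R))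
    (S := LaurentSeries R) (isUnit_powers φ ϖ hϖ) : LaurentSeries R →+* LSer Λ)

lemma evL_ofPS (φ : R →+* PowerSeries Λ) (ϖ : Λ) (hϖ : ϖ ≠ 0) (F : PowerSeries R) :
    evL φ ϖ hϖ (LSer.ofPS F) = LSer.ofPS (evPS φ ϖ F) := by
  have h := IsLocalization.lift_eq (M := Submonoid.powers (PowerSeries.X : PowerSeries R))
    (S := LaurentSeries R) (isUnit_powers φ ϖ hϖ) F
  exact h

lemma evL_C (φ : R →+* PowerSeries Λ) (ϖ : Λ) (hϖ : ϖ ≠ 0) (r : R) :
    evL φ ϖ hϖ (LSer.C r) = LSer.ofPS (φ r) := by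
  rw [← LSer.ofPS_C, evL_ofPS, evPS_C]

lemma evL_T_one (φ : R →+* PowerSeries Λ) (ϖ : Λ) (hϖ : ϖ ≠ 0) :
    evL φ ϖ hϖ (LSer.T 1) = LSer.C ϖ * LSer.T 1 := by
  rw [← LSer.ofPS_X, evL_ofPS, evPS_X, y, map_mul, LSer.ofPS_C, LSer.ofPS_X]

lemma evL_T_nat (φ : R →+* PowerSeries Λ) (ϖ : Λ) (hϖ : ϖ ≠ 0) (m : ℕ) :
    evL φ ϖ hϖ (LSer.T m) = LSer.C (ϖ ^ m) * LSer.T m := by
  have h : (LSer.T (m : ℤ) : LSer R) = LSer.T 1 ^ m := by rw [LSer.T_pow, one_mul]
  rw [h, map_pow, evL_T_one, mul_pow, map_pow, LSer.T_pow, one_mul]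

lemma evL_T (φ : R →+* PowerSeries Λ) (ϖ : Λ) (hϖ : ϖ ≠ 0) (m : ℤ) :
    evL φ ϖ hϖ (LSer.T m) = LSer.C (ϖ ^ m) * LSer.T m := by
  obtain ⟨a, rfl | rfl⟩ := m.eq_nat_or_neg
  · rw [evL_T_nat, zpow_natCast]
  · have h1 : evL φ ϖ hϖ (LSer.T (a : ℤ)) * evL φ ϖ hϖ (LSer.T (-(a : ℤ))) = 1 := by
      rw [← map_mul, LSer.T_mul_T_neg, map_one]
    have h2 : (evL φ ϖ hϖ (LSer.T (a : ℤ))) *
        (LSer.C (ϖ ^ (-(a : ℤ))) * LSer.T (-(a : ℤ))) = 1 := by
      rw [evL_T_nat, mul_mul_mul_comm, ← map_mul, LSer.T_mul_T_neg, ← zpow_natCast,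
        ← zpow_add₀ hϖ, add_neg_cancel, zpow_zero, map_one, mul_one]
    exact left_cancel_of_unit h1 h2
where
  left_cancel_of_unit {a b c : LSer Λ} (h1 : a * b = 1) (h2 : a * c = 1) : b = c := by
    have : b * (a * c) = b * 1 := by rw [h2]
    rw [← mul_assoc, mul_comm b a, h1, one_mul, mul_one] at this
    exact this.symm

/-- Every series with `Ge N` is `t ^ N` times a power series. -/
lemma exists_eq (N : ℤ) (f : LSer R) (h : LSer.Ge N f) :
    ∃ g : PowerSeries R, f = LSer.T N * LSer.ofPS g := by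
  obtain ⟨g, hg⟩ := LSer.exists_ofPS (f := LSer.T (-N) * f) ((h.T_mul _).mono (by omega))
  refine ⟨g, ?_⟩
  rw [hg, ← mul_assoc, LSer.T_mul_T_neg, one_mul]

end ls

end EvAux

open EvAux

/-- M2. Evaluation: `t ↦ ϖ t`, `δ j ↦` given power series. -/
theorem exists_ev_proof {k' : Type u} [Field k'] {Λ : Type u} [Field Λ] [Algebra k' Λ] (n : ℕ) (ϖ : Λ)
    (hϖ : ϖ ≠ 0) :
    ∃ ev : (Fin n → PowerSeries Λ) → (LSer (MvPolynomial (Fin n) k') →ₐ[k'] LSer Λ),
      (∀ δ j, ev δ (LSer.C (MvPolynomial.X j)) = LSer.ofPS (δ j)) ∧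
      (∀ δ, ev δ (LSer.T 1) = LSer.C ϖ * LSer.T 1) ∧
      (∀ δ N f, LSer.Ge N f → LSer.Ge N (ev δ f)) ∧
      (∀ (f : LSer k') δ (i : ℤ), (ev δ (incl k' k' n f)).coeff i =
        ϖ ^ i * algebraMap k' Λ (f.coeff i)) ∧
      (∀ O : Subring Λ, (∀ a : k', algebraMap k' Λ a ∈ O) → ϖ ∈ O → ∀ δ : Fin n → PowerSeries Λ,
        (∀ j i, PowerSeries.coeff i (δ j) ∈ O) → ∀ f, LSer.Ge 0 f → ∀ i, (ev δ f).coeff i ∈ O) ∧
      (∀ (δ δ' : Fin n → PowerSeries Λ) (m : ℕ),
        (∀ j, (PowerSeries.X : PowerSeries Λ) ^ m ∣ δ j - δ' j) →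
        ∀ (N : ℤ) f, LSer.Ge N f → LSer.Ge (N + m) (ev δ f - ev δ' f)) := by
  classical
  -- the evaluation of polynomials
  let φ : (Fin n → PowerSeries Λ) → (MvPolynomial (Fin n) k' →+* PowerSeries Λ) :=
    fun δ => (MvPolynomial.aeval δ : MvPolynomial (Fin n) k' →ₐ[k'] PowerSeries Λ).toRingHom
  have hφX : ∀ δ j, φ δ (MvPolynomial.X j) = δ j := fun δ j => MvPolynomial.aeval_X δ j
  have hφC : ∀ δ (a : k'), φ δ (MvPolynomial.C a) = PowerSeries.C (algebraMap k' Λ a) := by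
    intro δ a
    have h := MvPolynomial.aeval_C δ a
    rw [PowerSeries.algebraMap_apply] at h
    exact h
  let ev : (Fin n → PowerSeries Λ) → (LSer (MvPolynomial (Fin n) k') →ₐ[k'] LSer Λ) := fun δ =>
    { evL (φ δ) ϖ hϖ with
      commutes' := fun r => by
        change evL (φ δ) ϖ hϖ (algebraMap k' (LSer (MvPolynomial (Fin n) k')) r) = _
        rw [LSer.algebraMap_eq, LSer.algebraMap_eq, evL_C, MvPolynomial.algebraMap_eq, hφC,
          LSer.ofPS_C] }
  have hev : ∀ δ f, ev δ f = evL (φ δ) ϖ hϖ f := fun _ _ => rfl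
  refine ⟨ev, ?_, ?_, ?_, ?_, ?_, ?_⟩
  · intro δ j
    rw [hev, evL_C, hφX]
  · intro δ
    rw [hev, evL_T_one]
  · intro δ N f hf
    obtain ⟨g, rfl⟩ := exists_eq N f hf
    rw [hev, map_mul, evL_T, evL_ofPS, mul_assoc]
    intro i hi
    rw [LSer.coeff_C_mul, LSer.coeff_T_mul, LSer.ge_ofPS _ _ (by omega), mul_zero]
  · intro f δ i
    obtain ⟨N, hN⟩ := f.exists_ge
    obtain ⟨g, rfl⟩ := exists_eq N f hN
    have h1 : incl k' k' n (LSer.ofPS g) =
        LSer.ofPS (PowerSeries.map (algebraMap k' (MvPolynomial (Fin n) k')) g) := by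
      ext i
      rw [incl, LSer.coeff_map, LSer.coeff_ofPS, LSer.coeff_ofPS]
      split_ifs
      · rw [PowerSeries.coeff_map]; rfl
      · rw [map_zero]
    rw [hev, map_mul, h1, incl, LSer.map_T, map_mul, evL_T, evL_ofPS, mul_assoc, LSer.coeff_C_mul,
      LSer.coeff_T_mul, LSer.coeff_T_mul, LSer.coeff_ofPS, LSer.coeff_ofPS]
    split_ifs with h0
    · rw [coeff_evPS, Finset.sum_eq_single (i - N).toNat]
      · rw [Nat.sub_self, PowerSeries.coeff_map, MvPolynomial.algebraMap_eq, hφC,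
          PowerSeries.coeff_C, if_pos rfl, ← mul_assoc, ← zpow_natCast, ← zpow_add₀ hϖ,
          Int.toNat_of_nonneg h0]
        congr 2
        ring
      · intro j hj hne
        rw [Finset.mem_range] at hj
        rw [PowerSeries.coeff_map, MvPolynomial.algebraMap_eq, hφC,
          PowerSeries.coeff_C, if_neg (by omega), mul_zero]
      · intro h
        exact absurd (Finset.mem_range.2 (Nat.lt_succ_self _)) h
    · rw [map_zero, mul_zero, mul_zero]
  · intro O hk hO δ hδ f hf i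
    obtain ⟨g, rfl⟩ := LSer.exists_ofPS hf
    rw [hev, evL_ofPS, LSer.coeff_ofPS]
    split_ifs with h0
    · have hP : ∀ p : MvPolynomial (Fin n) k', ∀ i, PowerSeries.coeff i (φ δ p) ∈ O := by
        intro p
        induction p using MvPolynomial.induction_on with
        | C a =>
          intro i
          rw [hφC, PowerSeries.coeff_C]
          split_ifs
          · exact hk a
          · exact O.zero_mem
        | add p q hp hq =>
          intro i
          rw [map_add, map_add]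
          exact O.add_mem (hp i) (hq i)
        | mul_X p j hp =>
          intro i
          rw [map_mul, hφX, PowerSeries.coeff_mul]
          exact O.sum_mem fun q _ => O.mul_mem (hp _) (hδ _ _)
      rw [coeff_evPS]
      exact O.sum_mem fun j _ => O.mul_mem (O.pow_mem hO _) (hP _ _)
    · exact O.zero_mem
  · intro δ δ' m hm N f hf
    obtain ⟨g, rfl⟩ := exists_eq N f hf
    have hP : ∀ p : MvPolynomial (Fin n) k',
        (PowerSeries.X : PowerSeries Λ) ^ m ∣ φ δ p - φ δ' p := by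
      intro p
      induction p using MvPolynomial.induction_on with
      | C a => rw [hφC, hφC, sub_self]; exact dvd_zero _
      | add p q hp hq =>
        rw [map_add, map_add, add_sub_add_comm]
        exact dvd_add hp hq
      | mul_X p j hp =>
        rw [map_mul, map_mul, hφX, hφX]
        have : φ δ p * δ j - φ δ' p * δ' j =
            (φ δ p - φ δ' p) * δ j + φ δ' p * (δ j - δ' j) := by ring
        rw [this]
        exact dvd_add (Dvd.dvd.mul_right hp _) (Dvd.dvd.mul_left (hm j) _)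
    have hD : (PowerSeries.X : PowerSeries Λ) ^ m ∣ evPS (φ δ) ϖ g - evPS (φ δ') ϖ g := by
      rw [PowerSeries.X_pow_dvd_iff]
      intro i hi
      rw [map_sub, coeff_evPS, coeff_evPS, ← Finset.sum_sub_distrib]
      refine Finset.sum_eq_zero fun j hj => ?_
      rw [← mul_sub, ← map_sub, PowerSeries.X_pow_dvd_iff.1 (hP _) _ (by omega), mul_zero]
    have h2 : ev δ (LSer.T N * LSer.ofPS g) - ev δ' (LSer.T N * LSer.ofPS g) =
        LSer.C (ϖ ^ N) * (LSer.T N * LSer.ofPS (evPS (φ δ) ϖ g - evPS (φ δ') ϖ g)) := by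
      rw [hev, hev, map_mul, map_mul, evL_T, evL_T, evL_ofPS, evL_ofPS, map_sub]
      ring
    rw [h2]
    intro i hi
    rw [LSer.coeff_C_mul, LSer.coeff_T_mul, LSer.coeff_ofPS]
    split_ifs with h0
    · rw [PowerSeries.X_pow_dvd_iff.1 hD _ (by omega), mul_zero]
    · rw [mul_zero]

end Pool.Agent.H19VF

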