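import Pool.Agent.H19VF.Ser

/-! # Task M1, auxiliary results: fixed points, units, uniform estimates -/

set_option autoImplicit false

universe u v

namespace Pool.Agent.H19VF

namespace MP

open LSer

section fix

variable {R : Type u} [CommRing R]

/-- fixed points of `ζ ↦ X Q(ζ)` -/
theorem exists_fix (Q : Polynomial (PowerSeries R)) :
    ∃ ζ : PowerSeries R, ζ = PowerSeries.X * Q.eval ζ := by
  let s : ℕ → PowerSeries R := fun n => Nat.rec 0 (fun _ z => PowerSeries.X * Q.eval z) n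
  have hs : ∀ n, s (n + 1) = PowerSeries.X * Q.eval (s n) := fun n => rfl
  have hd : ∀ n, (PowerSeries.X : PowerSeries R) ^ n ∣ s (n + 1) - s n := by
    intro n
    induction n with
    | zero => simp
    | succ n ih =>
      rw [hs (n + 1), hs n, ← mul_sub, pow_succ']
      exact mul_dvd_mul_left _ (ih.trans (Polynomial.sub_dvd_eval_sub _ _ _))
  have hd' : ∀ n m, (PowerSeries.X : PowerSeries R) ^ n ∣ s (n + m) - s n := by
    intro n m
    induction m with
    | zero => simp
    | succ m ih =>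
      have h1 : s (n + (m + 1)) - s n = (s (n + m + 1) - s (n + m)) + (s (n + m) - s n) := by
        rw [← add_assoc]
        ring
      rw [h1]
      exact dvd_add ((pow_dvd_pow _ (Nat.le_add_right n m)).trans (hd (n + m))) ih
  let ζ : PowerSeries R := PowerSeries.mk fun n => PowerSeries.coeff n (s (n + 1))
  have hζ : ∀ n, (PowerSeries.X : PowerSeries R) ^ n ∣ ζ - s n := by
    intro n
    rw [PowerSeries.X_pow_dvd_iff]
    intro m hm
    obtain ⟨l, rfl⟩ := Nat.exists_eq_add_of_lt hm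
    have h1 := (PowerSeries.X_pow_dvd_iff.1 (hd' (m + 1) l)) m (Nat.lt_succ_self m)
    rw [map_sub, sub_eq_zero] at h1
    rw [map_sub, sub_eq_zero, PowerSeries.coeff_mk, ← h1, show m + l + 1 = m + 1 + l by omega]
  refine ⟨ζ, ?_⟩
  rw [← sub_eq_zero]
  ext n
  have key : (PowerSeries.X : PowerSeries R) ^ (n + 1) ∣ ζ - PowerSeries.X * Q.eval ζ := by
    have h1 : ζ - PowerSeries.X * Q.eval ζ = (ζ - s (n + 2)) +
        PowerSeries.X * (Q.eval (s (n + 1)) - Q.eval ζ) := by
      rw [hs (n + 1)]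
      ring
    rw [h1]
    refine dvd_add ((pow_dvd_pow _ (by omega)).trans (hζ (n + 2))) ?_
    refine Dvd.dvd.mul_left ?_ _
    refine Dvd.dvd.trans ?_ (Polynomial.sub_dvd_eval_sub _ _ _)
    rw [← neg_sub]
    exact (dvd_neg.2 (hζ (n + 1)))
  rw [(PowerSeries.X_pow_dvd_iff.1 key) n (Nat.lt_succ_self n), map_zero]

/-- Newton's method for Laurent series: small roots of polynomials -/
theorem newton (c : ℕ → LSer R) (d : ℕ) (b : LSer R) (hb : c 1 * b = 1) (F : ℤ)
    (h0 : Ge 1 (b * T (-F) * c 0))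
    (hi : ∀ i, Ge 1 (b * c (i + 2) * T ((i + 1) * F))) :
    ∃ h : LSer R, Ge F h ∧ c 0 + c 1 * h + ∑ i ∈ Finset.range d, c (i + 2) * h ^ (i + 2) = 0 := by
  obtain ⟨q0, hq0⟩ := exists_ofPS (f := T (-1) * (-(b * T (-F) * c 0)))
    (by simpa using h0.neg.T_mul (-1))
  have hi' : ∀ i : ℕ, ∃ q : PowerSeries R, ofPS q = T (-1) * (-(b * c (i + 2) * T ((i + 1) * F))) := by
    intro i
    exact exists_ofPS (by simpa using (hi i).neg.T_mul (-1))
  choose q hq using hi'
  obtain ⟨ζ, hζ⟩ := exists_fix (Polynomial.C q0 +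
    ∑ i ∈ Finset.range d, Polynomial.C (q i) * Polynomial.X ^ (i + 2))
  have hev : (Polynomial.C q0 + ∑ i ∈ Finset.range d, Polynomial.C (q i) *
      Polynomial.X ^ (i + 2)).eval ζ = q0 + ∑ i ∈ Finset.range d, q i * ζ ^ (i + 2) := by
    simp [Polynomial.eval_finsetSum]
  rw [hev] at hζ
  have hζ' := congrArg ofPS hζ
  rw [map_mul, ofPS_X, map_add, map_sum, hq0] at hζ'
  simp only [map_mul, map_pow, hq] at hζ'
  set z : LSer R := ofPS ζ with hz
  refine ⟨T F * z, by simpa using (ge_ofPS ζ).T_mul F, ?_⟩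
  have hT1 : (T 1 * T (-1) : LSer R) = 1 := T_mul_T_neg 1
  have hTF : (T F * T (-F) : LSer R) = 1 := T_mul_T_neg F
  have key : b * T (-F) * (c 0 + c 1 * (T F * z) +
      ∑ i ∈ Finset.range d, c (i + 2) * (T F * z) ^ (i + 2)) = 0 := by
    have e1 : ∀ i : ℕ, b * T (-F) * (c (i + 2) * (T F * z) ^ (i + 2)) =
        (b * c (i + 2) * T ((i + 1) * F)) * z ^ (i + 2) := by
      intro i
      have e2 : (T (-F) : LSer R) * (T F) ^ (i + 2) = T ((i + 1) * F) := by
        rw [T_pow, T_mul_T]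
        congr 1
        push_cast
        ring
      rw [← e2, mul_pow]
      ring
    rw [mul_add, mul_add, Finset.mul_sum, Finset.sum_congr rfl (fun i _ => e1 i)]
    have e3 : b * T (-F) * (c 1 * (T F * z)) = z := by
      calc b * T (-F) * (c 1 * (T F * z)) = (c 1 * b) * (T F * T (-F)) * z := by ring
        _ = z := by rw [hb, hTF, one_mul, one_mul]
    rw [e3]
    have e4 : z = -(b * T (-F) * c 0) -
        ∑ i ∈ Finset.range d, (b * c (i + 2) * T ((i + 1) * F)) * z ^ (i + 2) := by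
      calc z = T 1 * (T (-1) * (-(b * T (-F) * c 0)) + ∑ i ∈ Finset.range d,
            T (-1) * (-(b * c (i + 2) * T ((i + 1) * F))) * z ^ (i + 2)) := hζ'
        _ = (T 1 * T (-1)) * (-(b * T (-F) * c 0) + ∑ i ∈ Finset.range d,
            (-(b * c (i + 2) * T ((i + 1) * F))) * z ^ (i + 2)) := by
            rw [mul_assoc (T 1), mul_add (T (-1)), Finset.mul_sum]
            congr 2
            refine Finset.sum_congr rfl fun i _ => ?_
            ring
        _ = _ := by
            rw [hT1, one_mul, sub_eq_add_neg, ← Finset.sum_neg_distrib]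
            congr 1
            refine Finset.sum_congr rfl fun i _ => ?_
            ring
    calc b * T (-F) * c 0 + z + ∑ i ∈ Finset.range d, b * c (i + 2) * T ((i + 1) * F) * z ^ (i + 2)
        = z - (-(b * T (-F) * c 0) -
          ∑ i ∈ Finset.range d, (b * c (i + 2) * T ((i + 1) * F)) * z ^ (i + 2)) := by ring
      _ = 0 := by rw [← e4, sub_self]
  have hu : c 1 * T F * (b * T (-F)) = 1 := by
    calc c 1 * T F * (b * T (-F)) = (c 1 * b) * (T F * T (-F)) := by ring
      _ = 1 := by rw [hb, hTF, one_mul]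
  calc c 0 + c 1 * (T F * z) + ∑ i ∈ Finset.range d, c (i + 2) * (T F * z) ^ (i + 2)
      = c 1 * T F * (b * T (-F)) * (c 0 + c 1 * (T F * z) +
        ∑ i ∈ Finset.range d, c (i + 2) * (T F * z) ^ (i + 2)) := by rw [hu, one_mul]
    _ = c 1 * T F * (b * T (-F) * (c 0 + c 1 * (T F * z) +
        ∑ i ∈ Finset.range d, c (i + 2) * (T F * z) ^ (i + 2))) := by ring
    _ = 0 := by rw [key, mul_zero]

end fix

section units

/-- perturbations of nonzero series with coefficients in a field are units -/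
theorem unit_lemma {k' : Type u} [Field k'] {R : Type u} [CommRing R] [Algebra k' R]
    (a : LSer k') (ha : a ≠ 0) :
    ∃ e : ℤ, ∀ δ : LSer R, Ge (e + 1) δ →
      ∃ b, Ge (-e) b ∧ (LSer.map (Algebra.ofId k' R) a + δ) * b = 1 := by
  let e : ℤ := HahnSeries.order (show HahnSeries ℤ k' from a)
  have hge : Ge e a := fun n hn => HahnSeries.coeff_eq_zero_of_lt_order hn
  have hne : a.coeff e ≠ 0 := HahnSeries.coeff_order_eq_zero.not.2 ha
  refine ⟨e, fun δ hδ => ?_⟩
  set κ : R := algebraMap k' R (a.coeff e)⁻¹ with hκ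
  set γ : LSer R := T (-e) * (C κ * (LSer.map (Algebra.ofId k' R) a + δ)) with hγ
  have hγ0 : Ge 0 γ := by
    have h1 : Ge e (LSer.map (Algebra.ofId k' R) a + δ) := (hge.map _).add (hδ.mono (by omega))
    have h2 := ((ge_C κ).mul h1).T_mul (-e)
    exact h2.mono (by omega)
  obtain ⟨p, hp⟩ := exists_ofPS hγ0
  have hp1 : PowerSeries.constantCoeff p = 1 := by
    have h1 : PowerSeries.constantCoeff p = γ.coeff 0 := by
      rw [← hp]
      have := coeff_ofPS_nat p 0
      rw [PowerSeries.coeff_zero_eq_constantCoeff_apply] at this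
      exact this.symm
    rw [h1, hγ, coeff_T_mul, coeff_C_mul, coeff_add, coeff_map,
      hδ (0 - -e) (by omega), add_zero, zero_sub, neg_neg, hκ]
    change algebraMap k' R _ * algebraMap k' R _ = 1
    rw [← map_mul, inv_mul_cancel₀ hne, map_one]
  obtain ⟨p', hp'⟩ : ∃ p', p * p' = 1 := by
    have : IsUnit p := PowerSeries.isUnit_iff_constantCoeff.2 (by rw [hp1]; exact isUnit_one)
    exact this.exists_right_inv
  refine ⟨T (-e) * (C κ * ofPS p'), ?_, ?_⟩
  · have := ((ge_C κ).mul (ge_ofPS p')).T_mul (-e)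
    exact this.mono (by omega)
  · calc (LSer.map (Algebra.ofId k' R) a + δ) * (T (-e) * (C κ * ofPS p')) =
        T (-e) * (C κ * (LSer.map (Algebra.ofId k' R) a + δ)) * ofPS p' := by ring
      _ = ofPS p * ofPS p' := by rw [hp]
      _ = 1 := by rw [← map_mul, hp', map_one]

end units

section close

variable {R : Type u} [CommRing R]

/-- the family `a` tends to `b` at a linear rate -/
def Cl (E1 : ℕ) (a : ℕ → LSer R) (b : LSer R) : Prop :=
  ∃ M : ℤ, ∀ E : ℕ, E1 ≤ E → Ge (E - M) (a E - b)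

theorem Cl.const (E1 : ℕ) (b : LSer R) : Cl E1 (fun _ => b) b :=
  ⟨0, fun E _ => by rw [sub_self]; exact Ge.zero _⟩

theorem Cl.mono {E1 E2 : ℕ} {a : ℕ → LSer R} {b : LSer R} (h : Cl E1 a b) (hE : E1 ≤ E2) :
    Cl E2 a b := by
  obtain ⟨M, hM⟩ := h
  exact ⟨M, fun E h2 => hM E (hE.trans h2)⟩

theorem Cl.congr {E1 : ℕ} {a a' : ℕ → LSer R} {b : LSer R} (h : Cl E1 a b)
    (h' : ∀ E, E1 ≤ E → a' E = a E) : Cl E1 a' b := by
  obtain ⟨M, hM⟩ := h
  exact ⟨M, fun E hE => by rw [h' E hE]; exact hM E hE⟩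

theorem Cl.add {E1 : ℕ} {a a' : ℕ → LSer R} {b b' : LSer R} (h : Cl E1 a b) (h' : Cl E1 a' b') :
    Cl E1 (fun E => a E + a' E) (b + b') := by
  obtain ⟨M, hM⟩ := h
  obtain ⟨M', hM'⟩ := h'
  refine ⟨max M M', fun E hE => ?_⟩
  have e : a E + a' E - (b + b') = (a E - b) + (a' E - b') := by ring
  rw [e]
  exact ((hM E hE).mono (by have := le_max_left M M'; omega)).add
    ((hM' E hE).mono (by have := le_max_right M M'; omega))

theorem Cl.mul {E1 : ℕ} {a a' : ℕ → LSer R} {b b' : LSer R} (h : Cl E1 a b) (h' : Cl E1 a' b') :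
    Cl E1 (fun E => a E * a' E) (b * b') := by
  obtain ⟨M, hM⟩ := h
  obtain ⟨M', hM'⟩ := h'
  obtain ⟨N, hN⟩ := b.exists_ge
  obtain ⟨N', hN'⟩ := b'.exists_ge
  refine ⟨max (M + M') (max (M - N') (M' - N)), fun E hE => ?_⟩
  have e : a E * a' E - b * b' = (a E - b) * (a' E - b') + (a E - b) * b' + b * (a' E - b') := by
    ring
  have m1 := le_max_left (M + M') (max (M - N') (M' - N))
  have m2 := (le_max_left (M - N') (M' - N)).trans (le_max_right (M + M') (max (M - N') (M' - N)))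
  have m3 := (le_max_right (M - N') (M' - N)).trans (le_max_right (M + M') (max (M - N') (M' - N)))
  rw [e]
  refine ((((hM E hE).mul (hM' E hE)).mono ?_).add (((hM E hE).mul hN').mono ?_)).add
    ((hN.mul (hM' E hE)).mono ?_)
  · omega
  · omega
  · omega

theorem Cl.sum {E1 : ℕ} {ι : Type*} (s : Finset ι) {a : ι → ℕ → LSer R} {b : ι → LSer R}
    (h : ∀ i ∈ s, Cl E1 (a i) (b i)) : Cl E1 (fun E => ∑ i ∈ s, a i E) (∑ i ∈ s, b i) := by
  classical
  induction s using Finset.induction_on with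
  | empty => simpa using Cl.const E1 (0 : LSer R)
  | insert i s hi ih =>
    simp only [Finset.sum_insert hi]
    exact (h i (Finset.mem_insert_self i s)).add (ih fun j hj => h j (Finset.mem_insert_of_mem hj))

theorem Cl.pow {E1 : ℕ} {a : ℕ → LSer R} {b : LSer R} (h : Cl E1 a b) (n : ℕ) :
    Cl E1 (fun E => a E ^ n) (b ^ n) := by
  induction n with
  | zero => simpa using Cl.const E1 (1 : LSer R)
  | succ n ih =>
    simp only [pow_succ]
    exact ih.mul h

/-- close families are bounded below -/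
theorem Cl.bdd {E1 : ℕ} {a : ℕ → LSer R} {b : LSer R} (h : Cl E1 a b) :
    ∃ M : ℤ, ∀ E : ℕ, E1 ≤ E → Ge M (a E) := by
  obtain ⟨M, hM⟩ := h
  obtain ⟨N, hN⟩ := b.exists_ge
  refine ⟨min N (-M), fun E hE => ?_⟩
  have e : a E = (a E - b) + b := by ring
  rw [e]
  exact ((hM E hE).mono (by have := min_le_right N (-M); omega)).add (hN.mono (min_le_left _ _))

theorem Cl.eval₂ {E1 : ℕ} {S : Type v} [CommRing S] {u : ℕ → (S →+* LSer R)} {u0 : S →+* LSer R}
    (hu : ∀ s, Cl E1 (fun E => u E s) (u0 s)) {ξ : ℕ → LSer R} {ξ0 : LSer R} (hξ : Cl E1 ξ ξ0)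
    (p : Polynomial S) : Cl E1 (fun E => p.eval₂ (u E) (ξ E)) (p.eval₂ u0 ξ0) := by
  simp only [Polynomial.eval₂_eq_sum, Polynomial.sum]
  exact Cl.sum _ fun i _ => (hu _).mul (hξ.pow i)

theorem Cl.mv {E1 : ℕ} {k : Type v} [CommRing k] [Algebra k R] {σ : Type*}
    {w : ℕ → σ → LSer R} {w0 : σ → LSer R} (hw : ∀ i, Cl E1 (fun E => w E i) (w0 i))
    (p : MvPolynomial σ k) :
    Cl E1 (fun E => MvPolynomial.aeval (w E) p) (MvPolynomial.aeval w0 p) := by
  induction p using MvPolynomial.induction_on with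
  | C a =>
    simp only [MvPolynomial.aeval_C]
    exact Cl.const _ _
  | add p q hp hq =>
    simp only [map_add]
    exact hp.add hq
  | mul_X p i hp =>
    simp only [map_mul, MvPolynomial.aeval_X]
    exact hp.mul (hw i)

end close

end MP

end Pool.Agent.H19VF
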