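import Pool.Agent.H19VF.M_PerturbPf
import Pool.Agent.H19VF.M_Ev

/-! # Task M: perturbation of arcs and evaluation of Laurent series (section 5 of the paper) -/

set_option autoImplicit false

universe u

namespace Pool.Agent.H19VF

/-- M1. `A` is standard etale over the polynomial ring in the variables `c j` (`inl j`) and others
(`inr l`), `m` a point of `A` over `k'((t))`. The variables `c j` are perturbed to
`m (c j) + t ^ E δ j` with independent variables `δ j`; for large `E` the point `m` follows. -/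
theorem perturb {k k' : Type u} [Field k] [Field k'] [Algebra k k'] {n r : ℕ} {A : Type u}
    [CommRing A] [Algebra k A] [Algebra (MvPolynomial (Fin n ⊕ Fin r) k) A]
    [IsScalarTower k (MvPolynomial (Fin n ⊕ Fin r) k) A]
    [Algebra.IsStandardEtale (MvPolynomial (Fin n ⊕ Fin r) k) A] (m : A →ₐ[k] LSer k') :
    ∃ (E0 : ℕ) (Mb : A → ℤ), ∀ E : ℕ, E0 ≤ E → ∃ μ : A →ₐ[k] LSer (MvPolynomial (Fin n) k'),
      (∀ j, μ (algebraMap (MvPolynomial (Fin n ⊕ Fin r) k) A (MvPolynomial.X (Sum.inl j))) =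
        incl k k' n (m (algebraMap (MvPolynomial (Fin n ⊕ Fin r) k) A (MvPolynomial.X (Sum.inl j)))) +
          LSer.T E * LSer.C (MvPolynomial.X j)) ∧
      (∀ l, μ (algebraMap (MvPolynomial (Fin n ⊕ Fin r) k) A (MvPolynomial.X (Sum.inr l))) =
        incl k k' n (m (algebraMap (MvPolynomial (Fin n ⊕ Fin r) k) A (MvPolynomial.X (Sum.inr l))))) ∧
      ∀ a : A, LSer.Ge (E - Mb a) (μ a - incl k k' n (m a)) :=
  perturb_proof m (incl k k' n) rfl

/-- M2. Evaluation: `t ↦ ϖ t`, `δ j ↦` given power series. -/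
theorem exists_ev {k' : Type u} [Field k'] {Λ : Type u} [Field Λ] [Algebra k' Λ] (n : ℕ) (ϖ : Λ)
    (hϖ : ϖ ≠ 0) :
    ∃ ev : (Fin n → PowerSeries Λ) → (LSer (MvPolynomial (Fin n) k') →ₐ[k'] LSer Λ),
      (∀ δ j, ev δ (LSer.C (MvPolynomial.X j)) = LSer.ofPS (δ j)) ∧
      (∀ δ, ev δ (LSer.T 1) = LSer.C ϖ * LSer.T 1) ∧
      (∀ δ N f, LSer.Ge N f → LSer.Ge N (ev δ f)) ∧
      (∀ (f : LSer k') δ (i : ℤ), (ev δ (incl k' k' n f)).coeff i =
        ϖ ^ i * algebraMap k' Λ (f.coeff i)) ∧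
      (∀ O : Subring Λ, (∀ a : k', algebraMap k' Λ a ∈ O) → ϖ ∈ O → ∀ δ : Fin n → PowerSeries Λ,
        (∀ j i, PowerSeries.coeff i (δ j) ∈ O) → ∀ f, LSer.Ge 0 f → ∀ i, (ev δ f).coeff i ∈ O) ∧
      (∀ (δ δ' : Fin n → PowerSeries Λ) (m : ℕ),
        (∀ j, (PowerSeries.X : PowerSeries Λ) ^ m ∣ δ j - δ' j) →
        ∀ (N : ℤ) f, LSer.Ge N f → LSer.Ge (N + m) (ev δ f - ev δ' f)) :=
  exists_ev_proof n ϖ hϖ

end Pool.Agent.H19VF
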