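import Pool.Agent.H19VF.M_Newton

/-! # Task M1, proof of the perturbation theorem -/

set_option autoImplicit false

universe u v

namespace Pool.Agent.H19VF

namespace MP

open LSer

/-- homomorphisms from standard etale algebras -/
theorem lift_std {k S A Om : Type u} [CommRing k] [CommRing S] [CommRing A] [CommRing Om]
    [Algebra k S] [Algebra k A] [Algebra S A] [IsScalarTower k S A] [Algebra k Om]
    (P : StandardEtalePresentation S A) (w : S →ₐ[k] Om) (ξ : Om)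
    (h1 : P.f.eval₂ (w : S →+* Om) ξ = 0) (h2 : IsUnit (P.g.eval₂ (w : S →+* Om) ξ)) :
    ∃ μ : A →ₐ[k] Om, (∀ s, μ (algebraMap S A s) = w s) ∧ μ P.x = ξ := by
  let _ : Algebra S Om := (w : S →+* Om).toAlgebra
  have _ : IsScalarTower k S Om := IsScalarTower.of_algebraMap_eq fun x => (w.commutes x).symm
  have hm : P.HasMap ξ := ⟨h1, h2⟩
  let μ0 : A →ₐ[S] Om := (P.lift ξ hm).comp P.equivRing.toAlgHom
  refine ⟨μ0.restrictScalars k, fun s => μ0.commutes s, ?_⟩
  change P.lift ξ hm (P.equivRing P.x) = ξ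
  rw [P.equivRing_x, StandardEtalePair.lift_X]

theorem hasse_map {S Om : Type u} [CommRing S] [CommRing Om] (w : S →+* Om)
    (f : Polynomial S) (i : ℕ) :
    Polynomial.hasseDeriv i (f.map w) = (Polynomial.hasseDeriv i f).map w := by
  ext n
  simp [Polynomial.hasseDeriv_coeff]

/-- Taylor expansion -/
theorem taylor_expand {S Om : Type u} [CommRing S] [CommRing Om] (w : S →+* Om)
    (f : Polynomial S) (ξ h : Om) :
    f.eval₂ w (ξ + h) = (Polynomial.hasseDeriv 0 f).eval₂ w ξ +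
      (Polynomial.hasseDeriv 1 f).eval₂ w ξ * h +
      ∑ i ∈ Finset.range f.natDegree, (Polynomial.hasseDeriv (i + 2) f).eval₂ w ξ * h ^ (i + 2) := by
  have e1 : f.eval₂ w (ξ + h) = (Polynomial.taylor ξ (f.map w)).eval h := by
    rw [Polynomial.taylor_eval, Polynomial.eval_map, add_comm]
  have hd : (Polynomial.taylor ξ (f.map w)).natDegree < f.natDegree + 1 + 1 := by
    rw [Polynomial.natDegree_taylor]
    have := Polynomial.natDegree_map_le (f := w) (p := f)
    omega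
  rw [e1, Polynomial.eval_eq_sum_range' hd, Finset.sum_range_succ', Finset.sum_range_succ']
  simp only [Polynomial.taylor_coeff, hasse_map, Polynomial.eval_map, pow_zero, mul_one, zero_add,
    pow_one]
  ring

theorem common_bound {R : Type u} [CommRing R] (c : ℕ → ℕ → LSer R) (d : ℕ)
    (hc : ∀ i, ∃ M : ℤ, ∀ E : ℕ, Ge M (c E i)) (h0 : ∀ E i, d ≤ i → c E i = 0) :
    ∃ N : ℤ, ∀ E i, Ge N (c E i) := by
  choose M hM using hc
  refine ⟨-∑ i ∈ Finset.range d, |M i|, fun E i => ?_⟩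
  by_cases hi : i < d
  · refine (hM i E).mono ?_
    have h1 : |M i| ≤ ∑ i ∈ Finset.range d, |M i| :=
      Finset.single_le_sum (f := fun i => |M i|) (fun j _ => abs_nonneg _) (Finset.mem_range.2 hi)
    have h2 := neg_abs_le (M i)
    omega
  · rw [h0 E i (not_lt.1 hi)]
    exact Ge.zero _

end MP

open MP LSer in
/-- M1. -/
theorem perturb_proof {k k' : Type u} [Field k] [Field k'] [Algebra k k'] {n r : ℕ} {A : Type u}
    [CommRing A] [Algebra k A] [Algebra (MvPolynomial (Fin n ⊕ Fin r) k) A]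
    [IsScalarTower k (MvPolynomial (Fin n ⊕ Fin r) k) A]
    [Algebra.IsStandardEtale (MvPolynomial (Fin n ⊕ Fin r) k) A] (m : A →ₐ[k] LSer k')
    (ι : LSer k' →ₐ[k] LSer (MvPolynomial (Fin n) k'))
    (hι : ι = LSer.map (IsScalarTower.toAlgHom k k' (MvPolynomial (Fin n) k'))) :
    ∃ (E0 : ℕ) (Mb : A → ℤ), ∀ E : ℕ, E0 ≤ E → ∃ μ : A →ₐ[k] LSer (MvPolynomial (Fin n) k'),
      (∀ j, μ (algebraMap (MvPolynomial (Fin n ⊕ Fin r) k) A (MvPolynomial.X (Sum.inl j))) =
        ι (m (algebraMap (MvPolynomial (Fin n ⊕ Fin r) k) A (MvPolynomial.X (Sum.inl j)))) +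
          LSer.T E * LSer.C (MvPolynomial.X j)) ∧
      (∀ l, μ (algebraMap (MvPolynomial (Fin n ⊕ Fin r) k) A (MvPolynomial.X (Sum.inr l))) =
        ι (m (algebraMap (MvPolynomial (Fin n ⊕ Fin r) k) A (MvPolynomial.X (Sum.inr l))))) ∧
      ∀ a : A, LSer.Ge (E - Mb a) (μ a - ι (m a)) := by
  have hι' : ∀ a, LSer.map (Algebra.ofId k' (MvPolynomial (Fin n) k')) a = ι a := by
    intro a
    rw [hι]
    rfl
  clear hι
  set S := MvPolynomial (Fin n ⊕ Fin r) k with hS
  set Om := LSer (MvPolynomial (Fin n) k') with hOm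
  let v0 : Fin n ⊕ Fin r → Om := fun i => ι (m (algebraMap S A (MvPolynomial.X i)))
  let v : ℕ → Fin n ⊕ Fin r → Om := fun E => Sum.elim
    (fun j => v0 (Sum.inl j) + LSer.T (E : ℤ) * LSer.C (MvPolynomial.X j)) (fun l => v0 (Sum.inr l))
  let w : ℕ → (S →ₐ[k] Om) := fun E => MvPolynomial.aeval (v E)
  let w0 : S →ₐ[k] Om := MvPolynomial.aeval v0
  have hw0 : w0 = (ι.comp m).comp (IsScalarTower.toAlgHom k S A) := by
    apply MvPolynomial.algHom_ext
    intro i
    simp only [w0, v0, MvPolynomial.aeval_X]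
    rfl
  have hv : ∀ i, Cl 0 (fun E => v E i) (v0 i) := by
    rintro (j | l)
    · refine ⟨0, fun E _ => ?_⟩
      have e : v E (Sum.inl j) - v0 (Sum.inl j) = LSer.T (E : ℤ) * LSer.C (MvPolynomial.X j) := by
        simp [v]
      rw [e]
      exact ((ge_T (E : ℤ)).mul (ge_C _)).mono (by omega)
    · exact Cl.const _ _
  have hw : ∀ s : S, Cl 0 (fun E => w E s) (w0 s) := fun s => Cl.mv hv s
  let P : StandardEtalePresentation S A :=
    (Algebra.IsStandardEtale.nonempty_standardEtalePresentation (R := S) (S := A)).some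
  let ξ0 : Om := ι (m P.x)
  have heval0 : ∀ p : Polynomial S, p.eval₂ (w0 : S →+* Om) ξ0 =
      ι (m (Polynomial.aeval P.x p)) := by
    intro p
    rw [Polynomial.aeval_def]
    have h1 := Polynomial.hom_eval₂ p (algebraMap S A) ((ι.comp m : A →ₐ[k] Om) : A →+* Om) P.x
    have h2 : ((ι.comp m : A →ₐ[k] Om) : A →+* Om).comp (algebraMap S A) = (w0 : S →+* Om) := by
      rw [hw0]
      rfl
    rw [h2] at h1
    exact h1.symm
  -- the coefficients of the Taylor expansion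
  let c : ℕ → ℕ → Om := fun E i => (Polynomial.hasseDeriv i P.f).eval₂ (w E : S →+* Om) ξ0
  have hc : ∀ i, Cl 0 (fun E => c E i) (ι (m (Polynomial.aeval P.x (Polynomial.hasseDeriv i P.f)))) := by
    intro i
    rw [← heval0]
    exact Cl.eval₂ (u := fun E => (w E : S →+* Om)) (u0 := (w0 : S →+* Om)) hw (Cl.const _ _) _
  obtain ⟨N, hN⟩ := common_bound c (P.f.natDegree + 1)
    (fun i => by
      obtain ⟨M, hM⟩ := (hc i).bdd
      exact ⟨M, fun E => hM E (Nat.zero_le _)⟩)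
    (fun E i hi => by
      change Polynomial.eval₂ _ _ _ = 0
      rw [Polynomial.hasseDeriv_eq_zero_of_lt_natDegree _ _ (by omega), Polynomial.eval₂_zero])
  obtain ⟨M0, hM0⟩ := hc 0
  obtain ⟨M1, hM1⟩ := hc 1
  rw [Polynomial.hasseDeriv_zero', P.hasMap.1, map_zero, map_zero] at hM0
  rw [Polynomial.hasseDeriv_one'] at hM1
  have ha1 : m (Polynomial.aeval P.x (Polynomial.derivative P.f)) ≠ 0 :=
    (P.hasMap.isUnit_derivative_f.map m).ne_zero
  obtain ⟨e1, he1⟩ := unit_lemma (R := MvPolynomial (Fin n) k') _ ha1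
  let M : ℤ := 1 + e1 + M0
  let E1 : ℕ := (max M (max (M + 1 + e1 - N) (M1 + e1 + 1))).toNat
  have hE1 : ∀ E : ℕ, E1 ≤ E → M ≤ E ∧ M + 1 + e1 - N ≤ E ∧ M1 + e1 + 1 ≤ E := by
    intro E hE
    have := Int.toNat_le.1 hE
    exact ⟨(le_max_left _ _).trans this, ((le_max_left _ _).trans (le_max_right _ _)).trans this,
      ((le_max_right _ _).trans (le_max_right _ _)).trans this⟩
  have hroot : ∀ E : ℕ, E1 ≤ E → ∃ h : Om, Ge (E - M) h ∧
      P.f.eval₂ (w E : S →+* Om) (ξ0 + h) = 0 := by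
    intro E hE
    obtain ⟨g1, g2, g3⟩ := hE1 E hE
    obtain ⟨b, hb, hb1⟩ := he1 _ ((hM1 E (Nat.zero_le _)).mono (by omega))
    rw [hι', add_sub_cancel] at hb1
    have hc0 : Ge (E - M0) (c E 0) := by
      have := hM0 E (Nat.zero_le _)
      rwa [sub_zero] at this
    obtain ⟨h, hh, hh1⟩ := newton (fun i => c E i) P.f.natDegree b hb1 (E - M)
      (((hb.mul (ge_T _)).mul hc0).mono (by simp only [M]; omega))
      (fun i => (((hb.mul (hN E (i + 2))).mul (ge_T _)).mono (by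
        have : (E - M : ℤ) ≤ ((i : ℤ) + 1) * (E - M) := by nlinarith
        omega)))
    exact ⟨h, hh, by rw [taylor_expand]; exact hh1⟩
  choose! h hh hf using hroot
  let ξ : ℕ → Om := fun E => ξ0 + h E
  have hξ : Cl E1 ξ ξ0 := ⟨M, fun E hE => by
    have e : ξ E - ξ0 = h E := by simp [ξ]
    rw [e]
    exact hh E hE⟩
  have hp : ∀ p : Polynomial S, Cl E1 (fun E => p.eval₂ (w E : S →+* Om) (ξ E))
      (ι (m (Polynomial.aeval P.x p))) := by
    intro p
    rw [← heval0]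
    exact Cl.eval₂ (u := fun E => (w E : S →+* Om)) (u0 := (w0 : S →+* Om))
      (fun s => (hw s).mono (Nat.zero_le _)) hξ _
  obtain ⟨M2, hM2⟩ := hp P.g
  have ha2 : m (Polynomial.aeval P.x P.g) ≠ 0 := (P.hasMap.2.map m).ne_zero
  obtain ⟨e2, he2⟩ := unit_lemma (R := MvPolynomial (Fin n) k') _ ha2
  let E0 : ℕ := max E1 (M2 + e2 + 1).toNat
  have hE0 : ∀ E : ℕ, E0 ≤ E → E1 ≤ E ∧ M2 + e2 + 1 ≤ E := by
    intro E hE
    exact ⟨(le_max_left _ _).trans hE, Int.toNat_le.1 ((le_max_right _ _).trans hE)⟩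
  have hinv : ∀ E : ℕ, E0 ≤ E → ∃ b : Om, Ge (-e2) b ∧
      P.g.eval₂ (w E : S →+* Om) (ξ E) * b = 1 := by
    intro E hE
    obtain ⟨g1, g2⟩ := hE0 E hE
    obtain ⟨b, hb, hb1⟩ := he2 _ ((hM2 E g1).mono (by omega))
    rw [hι', add_sub_cancel] at hb1
    exact ⟨b, hb, hb1⟩
  have hμ : ∀ E : ℕ, E0 ≤ E → ∃ μ : A →ₐ[k] Om, (∀ s, μ (algebraMap S A s) = w E s) ∧
      μ P.x = ξ E := by
    intro E hE
    obtain ⟨b, _, hb1⟩ := hinv E hE
    exact lift_std P (w E) (ξ E) (hf E (hE0 E hE).1) (IsUnit.of_mul_eq_one _ hb1)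
  have _ : Nonempty (A →ₐ[k] Om) := ⟨ι.comp m⟩
  choose! μ hμ1 hμ2 using hμ
  have hev : ∀ E : ℕ, E0 ≤ E → ∀ p : Polynomial S, μ E (Polynomial.aeval P.x p) =
      p.eval₂ (w E : S →+* Om) (ξ E) := by
    intro E hE p
    rw [Polynomial.aeval_def]
    have h1 := Polynomial.hom_eval₂ p (algebraMap S A) (μ E : A →+* Om) P.x
    have h2 : (μ E : A →+* Om).comp (algebraMap S A) = (w E : S →+* Om) := by
      exact RingHom.ext fun s => hμ1 E hE s
    rw [h2] at h1
    exact h1.trans (by rw [← hμ2 E hE]; rfl)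
  have hcl1 : ∀ p : Polynomial S, Cl E0 (fun E => μ E (Polynomial.aeval P.x p))
      (ι (m (Polynomial.aeval P.x p))) := fun p =>
    ((hp p).mono (le_max_left _ _)).congr fun E hE => hev E hE p
  obtain ⟨Gi, hGi⟩ := P.hasMap.2.exists_right_inv
  have hcl2 : Cl E0 (fun E => μ E Gi) (ι (m Gi)) := by
    obtain ⟨N0, hN0⟩ := (ι (m Gi)).exists_ge
    refine ⟨M2 + e2 - N0, fun E hE => ?_⟩
    obtain ⟨b, hb, hb1⟩ := hinv E hE
    have hGE := hev E hE P.g
    have hμG : μ E (Polynomial.aeval P.x P.g) * μ E Gi = 1 := by rw [← map_mul, hGi, map_one]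
    have hιG : ι (m (Polynomial.aeval P.x P.g)) * ι (m Gi) = 1 := by
      rw [← map_mul, ← map_mul, hGi, map_one, map_one]
    have hbe : μ E Gi = b := by
      rw [hGE] at hμG
      calc μ E Gi = (P.g.eval₂ (w E : S →+* Om) (ξ E) * b) * μ E Gi := by rw [hb1, one_mul]
        _ = (P.g.eval₂ (w E : S →+* Om) (ξ E) * μ E Gi) * b := by ring
        _ = b := by rw [hμG, one_mul]
    have e : μ E Gi - ι (m Gi) = -(b * (P.g.eval₂ (w E : S →+* Om) (ξ E) -
        ι (m (Polynomial.aeval P.x P.g))) * ι (m Gi)) := by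
      calc μ E Gi - ι (m Gi) = b * (ι (m (Polynomial.aeval P.x P.g)) * ι (m Gi)) -
            (P.g.eval₂ (w E : S →+* Om) (ξ E) * b) * ι (m Gi) := by
            rw [hιG, hb1, hbe, mul_one, one_mul]
        _ = _ := by ring
    rw [e]
    exact ((hb.mul (hM2 E (hE0 E hE).1)).mul hN0).neg.mono (by omega)
  have hcl : ∀ a : A, Cl E0 (fun E => μ E a) (ι (m a)) := by
    intro a
    obtain ⟨p, q, hq⟩ := P.exists_mul_aeval_x_g_pow_eq_aeval_x a
    have ha : a = Polynomial.aeval P.x p * Gi ^ q := by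
      rw [← hq, mul_assoc, ← mul_pow, hGi, one_pow, mul_one]
    have h1 := (hcl1 p).mul (hcl2.pow q)
    rw [← map_pow, ← map_pow, ← map_mul, ← map_mul, ← ha] at h1
    refine h1.congr fun E _ => ?_
    conv_lhs => rw [ha, map_mul, map_pow]
  choose Mb hMb using hcl
  refine ⟨E0, Mb, fun E hE => ⟨μ E, fun j => ?_, fun l => ?_, fun a => hMb a E hE⟩⟩
  · rw [hμ1 E hE]
    exact MvPolynomial.aeval_X (R := k) (v E) (Sum.inl j)
  · rw [hμ1 E hE]
    exact MvPolynomial.aeval_X (R := k) (v E) (Sum.inr l)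

end Pool.Agent.H19VF
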