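import Pool.Agent.H19VF.Fam

/-! # Task N, part 1: evaluation of polynomials and of their localizations -/

set_option autoImplicit false

open AlgebraicGeometry CategoryTheory Polynomial

universe u

namespace Pool.Agent.H19VF

section eval

variable {k : Type u} [Field k] {A : Type u} [CommRing A] [Algebra k A]

/-- Evaluation of polynomials: the coefficients are mapped by `ν`, the variable goes to `x`. -/
noncomputable def nEv {F : Type u} [CommRing F] [Algebra k F] (ν : A →ₐ[k] F) (x : F) :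
    A[X] →ₐ[k] F where
  toRingHom := Polynomial.eval₂RingHom ν.toRingHom x
  commutes' r := by
    change Polynomial.eval₂ _ _ (algebraMap k A[X] r) = _
    rw [Polynomial.algebraMap_apply, Polynomial.eval₂_C]
    exact ν.commutes r

variable {F : Type u} [CommRing F] [Algebra k F] (ν : A →ₐ[k] F) (x : F)

lemma nEv_apply (f : A[X]) : nEv ν x f = Polynomial.eval₂ ν.toRingHom x f := rfl

@[simp] lemma nEv_X : nEv ν x X = x := Polynomial.eval₂_X _ _

@[simp] lemma nEv_C (a : A) : nEv ν x (C a) = ν a := Polynomial.eval₂_C _ _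

lemma nEv_sum (f : A[X]) : nEv ν x f = ν (f.coeff 0) +
    ∑ l ∈ Finset.range f.natDegree, (x * ν (f.coeff (l + 1))) * x ^ l := by
  rw [nEv_apply, Polynomial.eval₂_eq_sum_range, Finset.sum_range_succ', pow_zero, mul_one, add_comm]
  congr 1
  refine Finset.sum_congr rfl fun l _ => ?_
  change ν (f.coeff (l + 1)) * x ^ (l + 1) = _
  rw [pow_succ]; ring

lemma nEv_comp {F' : Type u} [CommRing F'] [Algebra k F'] (j : F →ₐ[k] F') :
    j.comp (nEv ν x) = nEv (j.comp ν) (j x) := by
  apply AlgHom.coe_ringHom_injective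
  apply Polynomial.ringHom_ext
  · intro a
    change j (nEv ν x (C a)) = nEv (j.comp ν) (j x) (C a)
    rw [nEv_C, nEv_C, AlgHom.comp_apply]
  · change j (nEv ν x X) = nEv (j.comp ν) (j x) X
    rw [nEv_X, nEv_X]

/-- Evaluation on a localization of the polynomial ring. -/
noncomputable def nEvL (h : A[X]) (hu : IsUnit (nEv ν x h)) : Localization.Away h →ₐ[k] F where
  toRingHom := IsLocalization.Away.lift (S := Localization.Away h) h
    (g := (nEv ν x).toRingHom) hu
  commutes' r := by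
    have h1 : algebraMap k (Localization.Away h) r =
        algebraMap A[X] (Localization.Away h) (algebraMap k A[X] r) :=
      IsScalarTower.algebraMap_apply k A[X] (Localization.Away h) r
    change IsLocalization.Away.lift h _ _ = _
    rw [h1, IsLocalization.Away.lift_eq]
    exact (nEv ν x).commutes r

lemma nEvL_toLoc (h : A[X]) (hu : IsUnit (nEv ν x h)) (f : A[X]) :
    nEvL ν x h hu (toLoc k h f) = nEv ν x f :=
  IsLocalization.Away.lift_eq h hu f

lemma nEvL_comp_toLoc (h : A[X]) (hu : IsUnit (nEv ν x h)) :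
    (nEvL ν x h hu).comp (toLoc k h) = nEv ν x :=
  AlgHom.ext fun f => nEvL_toLoc ν x h hu f

lemma loc0_toLoc (h : A[X]) (hh : h.eval 0 = 1) (f : A[X]) :
    loc0 k h hh (toLoc k h f) = f.eval 0 := by
  have hu : IsUnit ((Polynomial.evalRingHom (0 : A)) h) := by
    rw [Polynomial.coe_evalRingHom, hh]; exact isUnit_one
  exact IsLocalization.Away.lift_eq h (S := Localization.Away h) hu f

lemma n_surj (h : A[X]) (l : Localization.Away h) :
    ∃ (n : ℕ) (f : A[X]), l * toLoc k h h ^ n = toLoc k h f :=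
  IsLocalization.Away.surj (S := Localization.Away h) h l

lemma loc0_of (h : A[X]) (hh : h.eval 0 = 1) (l : Localization.Away h) (n : ℕ) (f : A[X])
    (hl : l * toLoc k h h ^ n = toLoc k h f) : loc0 k h hh l = f.coeff 0 := by
  have h1 := congrArg (loc0 k h hh) hl
  rw [map_mul, map_pow, loc0_toLoc, loc0_toLoc, hh, one_pow, mul_one] at h1
  rw [h1, Polynomial.coeff_zero_eq_eval_zero]

end eval

section laurent

variable {k : Type u} [Field k] {A : Type u} [CommRing A] [Algebra k A]
  {F : Type u} [Field F] [Algebra k F] (ν : A →ₐ[k] F) (x : F) (hx : x ≠ 0)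

/-- Evaluation of Laurent polynomials. -/
noncomputable def nLau : LaurentPolynomial A →ₐ[k] F where
  toRingHom := LaurentPolynomial.eval₂ ν.toRingHom (Units.mk0 x hx)
  commutes' r := by
    have h1 : algebraMap k (LaurentPolynomial A) r =
      LaurentPolynomial.C (algebraMap k A r) := rfl
    change LaurentPolynomial.eval₂ _ _ _ = _
    rw [h1, LaurentPolynomial.eval₂_C]
    exact ν.commutes r

lemma nLau_T (n : ℤ) : nLau ν x hx (LaurentPolynomial.T n) = x ^ n := by
  change LaurentPolynomial.eval₂ _ _ _ = _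
  rw [LaurentPolynomial.eval₂_T, Units.val_zpow_eq_zpow_val]
  rfl

lemma nLau_C (a : A) : nLau ν x hx (LaurentPolynomial.C a) = ν a :=
  LaurentPolynomial.eval₂_C _ _ _

lemma nLau_lauY : (nLau ν x hx).comp (lauY k A) = nEv ν x := by
  apply AlgHom.coe_ringHom_injective
  apply Polynomial.ringHom_ext
  · intro a
    change nLau ν x hx (Polynomial.aeval _ (C a)) = nEv ν x (C a)
    rw [Polynomial.aeval_C, nEv_C]
    exact nLau_C ν x hx a
  · change nLau ν x hx (Polynomial.aeval _ X) = nEv ν x X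
    rw [Polynomial.aeval_X, nEv_X, nLau_T, zpow_one]

lemma nLau_lauW : (nLau ν x hx).comp (lauW k A) = nEv ν x⁻¹ := by
  apply AlgHom.coe_ringHom_injective
  apply Polynomial.ringHom_ext
  · intro a
    change nLau ν x hx (Polynomial.aeval _ (C a)) = nEv ν x⁻¹ (C a)
    rw [Polynomial.aeval_C, nEv_C]
    exact nLau_C ν x hx a
  · change nLau ν x hx (Polynomial.aeval _ X) = nEv ν x⁻¹ X
    rw [Polynomial.aeval_X, nEv_X, nLau_T, zpow_neg, zpow_one]

include hx in
lemma n_curve {V : Scheme.{u}} {π : V ⟶ Spec (.of k)} (Ψ : Crv π A) :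
    Ψ.y.map (nEv ν x) = Ψ.w.map (nEv ν x⁻¹) := by
  have h := congrArg (fun p => Pt.map p (nLau ν x hx)) Ψ.glue
  simp only [Pt.map_map] at h
  rwa [nLau_lauY, nLau_lauW] at h

end laurent

section subring

variable {k : Type u} [Field k] {A : Type u} [CommRing A] [Algebra k A]
  {F : Type u} [Field F] [Algebra k F]

/-- An ideal `J` of a subring `P` of a field, contained in the Jacobson radical. -/
structure Rad (P : Subring F) (J : AddSubgroup F) : Prop where
  mul : ∀ p ∈ P, ∀ z ∈ J, p * z ∈ J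
  le : ∀ z ∈ J, z ∈ P
  ne : ∀ z ∈ J, 1 + z ≠ 0
  inv : ∀ z ∈ J, (1 + z)⁻¹ ∈ P

variable {P : Subring F} {J : AddSubgroup F} (hR : Rad P J)
include hR

lemma n_eval (ν : A →ₐ[k] F) {x : F} (hx : x ∈ P) (f : A[X])
    (hf : ∀ l, x * ν (f.coeff l) ∈ J) : nEv ν x f - ν (f.coeff 0) ∈ J := by
  rw [nEv_sum, add_sub_cancel_left]
  refine AddSubgroup.sum_mem _ fun l _ => ?_
  rw [mul_comm]
  exact hR.mul _ (P.pow_mem hx l) _ (hf _)

lemma n_one_pow {z : F} (hz : z - 1 ∈ J) (n : ℕ) : z ^ n - 1 ∈ J := by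
  have hzP : z ∈ P := by
    have := P.add_mem (hR.le _ hz) P.one_mem
    rwa [sub_add_cancel] at this
  induction n with
  | zero => simp
  | succ n ih =>
    have h1 : z ^ (n + 1) - 1 = z * (z ^ n - 1) + (z - 1) := by ring
    rw [h1]
    exact J.add_mem (hR.mul _ hzP _ ih) hz

lemma n_one_unit {z : F} (hz : z - 1 ∈ J) : z ≠ 0 ∧ z⁻¹ ∈ P := by
  have h1 : z = 1 + (z - 1) := by ring
  rw [h1]
  exact ⟨hR.ne _ hz, hR.inv _ hz⟩

lemma n_unit (ν : A →ₐ[k] F) {x : F} (hx : x ∈ P) (h : A[X]) (hh : h.eval 0 = 1)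
    (hf : ∀ l, x * ν (h.coeff l) ∈ J) : nEv ν x h - 1 ∈ J := by
  have h1 := n_eval hR ν hx h hf
  rwa [Polynomial.coeff_zero_eq_eval_zero, hh, map_one] at h1

/-- The value of an element of the localization: it is congruent to the value at `0`. -/
lemma n_loc (ν : A →ₐ[k] F) {x : F} (hx : x ∈ P) (h : A[X]) (hh : h.eval 0 = 1)
    (hf : ∀ l, x * ν (h.coeff l) ∈ J) (hu : IsUnit (nEv ν x h)) (l : Localization.Away h) (n : ℕ)
    (f : A[X]) (hl : l * toLoc k h h ^ n = toLoc k h f) (hf' : ∀ l, x * ν (f.coeff l) ∈ J)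
    (h0 : ν (loc0 k h hh l) ∈ P) :
    nEvL ν x h hu l - ν (loc0 k h hh l) ∈ J := by
  have h1 := congrArg (nEvL ν x h hu) hl
  rw [map_mul, map_pow, nEvL_toLoc, nEvL_toLoc] at h1
  have h2 := n_unit hR ν hx h hh hf
  have h3 := n_one_pow hR h2 n
  obtain ⟨h4, h5⟩ := n_one_unit hR h3
  have h6 := n_eval hR ν hx f hf'
  rw [← loc0_of h hh l n f hl, ← h1] at h6
  have h7 : nEvL ν x h hu l - ν (loc0 k h hh l) =
      (nEv ν x h ^ n)⁻¹ * ((nEvL ν x h hu l * nEv ν x h ^ n - ν (loc0 k h hh l)) -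
        ν (loc0 k h hh l) * (nEv ν x h ^ n - 1)) := by
    field_simp
    ring
  rw [h7]
  exact hR.mul _ h5 _ (J.sub_mem h6 (hR.mul _ h0 _ h3))

/-- If this holds for generators, it holds for all elements. -/
lemma n_gen (hk : ∀ c : k, algebraMap k F c ∈ P) {B : Type u} [CommRing B] [Algebra k B]
    (φ : B →ₐ[k] F) (p : B →ₐ[k] k) (G : Set B) (hG : Algebra.adjoin k G = ⊤)
    (h : ∀ b ∈ G, φ b - algebraMap k F (p b) ∈ J) (b : B) : φ b - algebraMap k F (p b) ∈ J := by
  have hb : b ∈ Algebra.adjoin k G := by rw [hG]; trivial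
  induction hb using Algebra.adjoin_induction with
  | mem b hb => exact h b hb
  | algebraMap r => simp
  | add a b _ _ ha hb =>
    have : φ (a + b) - algebraMap k F (p (a + b)) =
      (φ a - algebraMap k F (p a)) + (φ b - algebraMap k F (p b)) := by
      rw [map_add, map_add, map_add]; ring
    rw [this]
    exact J.add_mem ha hb
  | mul a b _ _ ha hb =>
    have h1 : φ (a * b) - algebraMap k F (p (a * b)) =
      φ b * (φ a - algebraMap k F (p a)) +
        algebraMap k F (p a) * (φ b - algebraMap k F (p b)) := by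
      rw [map_mul, map_mul, map_mul]; ring
    rw [h1]
    have h2 : φ b ∈ P := by
      have := P.add_mem (hR.le _ hb) (hk (p b))
      rwa [sub_add_cancel] at this
    exact J.add_mem (hR.mul _ h2 _ ha) (hR.mul _ (hk _) _ hb)

end subring

section ge

variable {R : Type u} [CommRing R]

/-- the power series as a subring -/
noncomputable def geSub (R : Type u) [CommRing R] : Subring (LSer R) where
  carrier := {f | LSer.Ge 0 f}
  mul_mem' ha hb := by simpa using LSer.Ge.mul ha hb
  one_mem' := LSer.ge_one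
  add_mem' ha hb := LSer.Ge.add ha hb
  zero_mem' := LSer.Ge.zero 0
  neg_mem' ha := LSer.Ge.neg ha

/-- the series without terms of order less than `N` -/
noncomputable def geAdd (R : Type u) [CommRing R] (N : ℤ) : AddSubgroup (LSer R) where
  carrier := {f | LSer.Ge N f}
  add_mem' ha hb := LSer.Ge.add ha hb
  zero_mem' := LSer.Ge.zero N
  neg_mem' ha := LSer.Ge.neg ha

lemma mem_geSub {f : LSer R} : f ∈ geSub R ↔ LSer.Ge 0 f := Iff.rfl
lemma mem_geAdd {f : LSer R} {N : ℤ} : f ∈ geAdd R N ↔ LSer.Ge N f := Iff.rfl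

lemma ge_rad (Λ : Type u) [Field Λ] : Rad (geSub Λ) (geAdd Λ 1) := by
  have key : ∀ z : LSer Λ, LSer.Ge 1 z → 1 + z ≠ 0 ∧ LSer.Ge 0 (1 + z)⁻¹ := by
    intro z hz
    obtain ⟨p, hp⟩ := LSer.exists_ofPS (f := z) (hz.mono (by norm_num))
    have hc : PowerSeries.constantCoeff (1 + p) = 1 := by
      have h1 : PowerSeries.constantCoeff p = 0 := by
        rw [← PowerSeries.coeff_zero_eq_constantCoeff_apply, ← LSer.coeff_ofPS_nat, hp]
        exact hz _ (by norm_num)
      rw [map_add, map_one, h1, add_zero]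
    have h2 : (1 + p) * (1 + p)⁻¹ = 1 :=
      PowerSeries.mul_inv_cancel _ (by rw [hc]; exact one_ne_zero)
    have h3 : (1 + z) * LSer.ofPS ((1 + p)⁻¹) = 1 := by
      rw [← hp]
      have := congrArg (LSer.ofPS (R := Λ)) h2
      rwa [map_mul, map_add, map_one] at this
    have h4 : (1 + z)⁻¹ = LSer.ofPS ((1 + p)⁻¹) := inv_eq_of_mul_eq_one_right h3
    exact ⟨fun h0 => by rw [h0, zero_mul] at h3; exact zero_ne_one h3, by
      rw [h4]; exact LSer.ge_ofPS _⟩
  refine ⟨fun p hp z hz => ?_, fun z hz => LSer.Ge.mono hz (by norm_num), fun z hz => (key z hz).1,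
    fun z hz => (key z hz).2⟩
  have := LSer.Ge.mul hp hz
  rwa [zero_add] at this

lemma exists_bound {A : Type u} [CommRing A] (μ : A →+ LSer R) (f : A[X]) :
    ∃ M : ℕ, ∀ l, LSer.Ge (-(M : ℤ)) (μ (f.coeff l)) := by
  classical
  have h1 : ∀ N : ℕ, ∃ M : ℕ, ∀ l < N, LSer.Ge (-(M : ℤ)) (μ (f.coeff l)) := by
    intro N
    induction N with
    | zero => exact ⟨0, fun l hl => absurd hl (Nat.not_lt_zero _)⟩
    | succ N ih =>
      obtain ⟨M, hM⟩ := ih
      obtain ⟨M', hM'⟩ := (μ (f.coeff N)).exists_ge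
      refine ⟨max M (-M').toNat, fun l hl => ?_⟩
      rcases Nat.lt_succ_iff_lt_or_eq.1 hl with h | h
      · exact (hM l h).mono (by push_cast; have := le_max_left (M : ℤ) ((-M').toNat : ℤ); omega)
      · subst h
        refine hM'.mono ?_
        push_cast
        have := le_max_right (M : ℤ) ((-M').toNat : ℤ)
        omega
  obtain ⟨M, hM⟩ := h1 (f.natDegree + 1)
  refine ⟨M, fun l => ?_⟩
  by_cases hl : l < f.natDegree + 1
  · exact hM l hl
  · rw [Polynomial.coeff_eq_zero_of_natDegree_lt (by omega), map_zero]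
    exact LSer.Ge.zero _

lemma exists_bound_fin {A : Type u} [CommRing A] (μ : A →+ LSer R) {ι : Type*} (s : Finset ι)
    (f : ι → A[X]) : ∃ M : ℕ, ∀ i ∈ s, ∀ l, LSer.Ge (-(M : ℤ)) (μ ((f i).coeff l)) := by
  classical
  induction s using Finset.induction_on with
  | empty => exact ⟨0, fun i hi => absurd hi (Finset.notMem_empty i)⟩
  | insert a s ha ih =>
    obtain ⟨M, hM⟩ := ih
    obtain ⟨M', hM'⟩ := exists_bound μ (f a)
    refine ⟨max M M', fun i hi l => ?_⟩
    rcases Finset.mem_insert.1 hi with h | h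
    · subst h
      exact (hM' l).mono (by push_cast; have := le_max_right (M : ℤ) (M' : ℤ); omega)
    · exact (hM i h l).mono (by push_cast; have := le_max_left (M : ℤ) (M' : ℤ); omega)

end ge

end Pool.Agent.H19VF
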