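import Pool.Agent.H19VF.N1_Eval
import Pool.Agent.H19VF.F_Chart
import Pool.Agent.H19VF.F_Pt
import Pool.Agent.H19VF.D_Cousin
import Pool.Agent.H19VF.H_Glue

/-! # Task N, part 2: local rings of Laurent series over the local rings of the line -/

set_option autoImplicit false

open AlgebraicGeometry CategoryTheory Polynomial

universe u

namespace Pool.Agent.H19VF

section chart

variable {k : Type u} [Field k] {V : Scheme.{u}} {π : V ⟶ Spec (.of k)}

/-- Every point over a local ring lies in a chart. -/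
theorem exists_chart_local {R : Type u} [CommRing R] [IsLocalRing R] [Algebra k R] (p : Pt π R) :
    ∃ (W : Chart π) (φ : W.B →ₐ[k] R), p = W.pt.map φ := by
  obtain ⟨U, hU, hx, -⟩ := exists_isAffineOpen_mem_and_subset (X := V)
    (x := p.1 (IsLocalRing.closedPoint R)) (U := ⊤) trivial
  obtain ⟨i, hp, -⟩ := F3_exists_chart (k := k) (π := π) U hU
  let W : Chart π :=
    { B := Γ(V, U)
      pt := ⟨hU.fromSpec, hp⟩
      imm := inferInstanceAs (IsOpenImmersion hU.fromSpec) }
  obtain ⟨φ, hφ⟩ := W.F3_lift_local p (by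
    change _ ∈ Set.range hU.fromSpec
    rw [hU.range_fromSpec]
    exact hx)
  exact ⟨W, φ, hφ⟩

/-- Factorization through an injective homomorphism. -/
theorem n_lift {B R F : Type u} [CommRing B] [Algebra k B] [CommRing R] [Algebra k R] [CommRing F]
    [Algebra k F] (j : R →ₐ[k] F) (hj : Function.Injective j) (φ : B →ₐ[k] F)
    (h : ∀ b, ∃ r, j r = φ b) : ∃ φ' : B →ₐ[k] R, j.comp φ' = φ := by
  let e : R ≃ₐ[k] j.range := AlgEquiv.ofInjective j hj
  have hr : ∀ b, φ b ∈ j.range := fun b => by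
    obtain ⟨r, hr⟩ := h b
    exact ⟨r, hr⟩
  refine ⟨(e.symm : j.range →ₐ[k] R).comp (φ.codRestrict j.range hr), ?_⟩
  apply AlgHom.ext
  intro b
  change j (e.symm ⟨φ b, hr b⟩) = φ b
  have h1 : e (e.symm ⟨φ b, hr b⟩) = ⟨φ b, hr b⟩ := e.apply_symm_apply _
  have h2 : ((e (e.symm ⟨φ b, hr b⟩) : j.range) : F) = j (e.symm ⟨φ b, hr b⟩) := rfl
  rw [← h2, h1]

end chart

section locq

variable {κ : Type u} [Field κ] {k : Type u} [Field k] [Algebra k κ]

lemma algebraMap_ratFunc (c : k) :
    algebraMap k (RatFunc κ) c = polR (C (algebraMap k κ c)) := by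
  rw [IsScalarTower.algebraMap_apply k κ[X] (RatFunc κ), Polynomial.algebraMap_apply]

lemma algebraMap_mem_serSub {O : Subring (RatFunc κ)} (hO : ∀ c : κ, polR (C c) ∈ O) (c : k) :
    algebraMap k (LSer (RatFunc κ)) c ∈ serSub O := by
  intro n
  rw [LSer.algebraMap_coeff]
  split_ifs
  · rw [algebraMap_ratFunc]; exact hO _
  · exact O.zero_mem

lemma C_mem_serSub {O : Subring (RatFunc κ)} {g : RatFunc κ} (hg : g ∈ O) :
    (LSer.C g : LSer (RatFunc κ)) ∈ serSub O := by
  intro n
  rw [LSer.coeff_C]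
  split_ifs
  · exact hg
  · exact O.zero_mem

lemma T_mem_serSub {O : Subring (RatFunc κ)} (m : ℤ) :
    (LSer.T m : LSer (RatFunc κ)) ∈ serSub O := by
  intro n
  rw [LSer.coeff_T]
  split_ifs
  · exact O.one_mem
  · exact O.zero_mem

/-- The elements of the localization of `serSub O` at `q`. -/
def LocIn {O : Subring (RatFunc κ)} (q : Ideal (serSub O)) (x : LSer (RatFunc κ)) : Prop :=
  ∃ α β : serSub O, β ∉ q ∧ x * (β : LSer (RatFunc κ)) = (α : LSer (RatFunc κ))

/-- The localization of `serSub O` at the prime `q`, as a ring contained in the field of Laurent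
series, together with the extension of a homomorphism `ρ` from `serSub O` to a field with
kernel contained in `q`. -/
theorem exists_locq {O : Subring (RatFunc κ)} (hO : ∀ c : κ, polR (C c) ∈ O)
    (q : Ideal (serSub O)) (hq : q.IsPrime) {F : Type u} [Field F] [Algebra k F]
    (ρ : serSub O →+* F)
    (hρ : ∀ c : k, ρ ⟨algebraMap k _ c, algebraMap_mem_serSub hO c⟩ = algebraMap k F c)
    (hρq : ∀ x, ρ x = 0 → x ∈ q) :
    ∃ (R : Type u) (_ : CommRing R) (_ : Algebra k R) (_ : IsLocalRing R) (_ : IsDomain R)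
      (j : R →ₐ[k] LSer (RatFunc κ)) (r : R →ₐ[k] F), Function.Injective j ∧
      (∀ x, (∃ y, j y = x) ↔ LocIn q x) ∧
      ∀ (y : R) (α β : serSub O), j y * (β : LSer (RatFunc κ)) = (α : LSer (RatFunc κ)) →
        r y * ρ β = ρ α := by
  let _ : Algebra k (serSub O) := RingHom.toAlgebra
    ((algebraMap k (LSer (RatFunc κ))).codRestrict (serSub O) fun c => algebraMap_mem_serSub hO c)
  have hak : ∀ c : k, algebraMap k (serSub O) c =
    ⟨algebraMap k _ c, algebraMap_mem_serSub hO c⟩ := fun _ => rfl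
  let R := Localization.AtPrime q
  have hne : ∀ y : q.primeCompl, ((serSub O).subtype y) ≠ 0 := by
    intro y h0
    apply y.2
    have : (y : serSub O) = 0 := Subtype.ext h0
    rw [this]
    exact q.zero_mem
  have hu : ∀ y : q.primeCompl, IsUnit ((serSub O).subtype y) := fun y =>
    isUnit_iff_ne_zero.2 (hne y)
  have hu2 : ∀ y : q.primeCompl, IsUnit (ρ y) := fun y =>
    isUnit_iff_ne_zero.2 fun h => y.2 (hρq _ h)
  let j0 : R →+* LSer (RatFunc κ) := IsLocalization.lift hu
  have hj0 : ∀ x : serSub O, j0 (algebraMap (serSub O) R x) = x := fun x =>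
    IsLocalization.lift_eq hu x
  let r0 : R →+* F := IsLocalization.lift hu2
  have hr0 : ∀ x : serSub O, r0 (algebraMap (serSub O) R x) = ρ x := fun x =>
    IsLocalization.lift_eq hu2 x
  let j : R →ₐ[k] LSer (RatFunc κ) := { j0 with
    commutes' := fun c => by
      change j0 (algebraMap k R c) = _
      rw [IsScalarTower.algebraMap_apply k (serSub O) R, hj0, hak] }
  let r : R →ₐ[k] F := { r0 with
    commutes' := fun c => by
      change r0 (algebraMap k R c) = _
      rw [IsScalarTower.algebraMap_apply k (serSub O) R, hr0, hak, hρ] }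
  have hinj : Function.Injective j := by
    rw [injective_iff_map_eq_zero]
    intro y hy
    obtain ⟨α, β, rfl⟩ := IsLocalization.exists_mk'_eq q.primeCompl y
    have h1 : j0 (IsLocalization.mk' R α β) * j0 (algebraMap (serSub O) R β) =
        j0 (algebraMap (serSub O) R α) := by
      rw [← map_mul, IsLocalization.mk'_spec]
    rw [hj0, hj0] at h1
    have h2 : j0 (IsLocalization.mk' R α β) = 0 := hy
    rw [h2, zero_mul] at h1
    have h3 : α = 0 := Subtype.ext h1.symm
    rw [h3, IsLocalization.mk'_zero]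
  refine ⟨R, inferInstance, inferInstance, inferInstance,
    IsLocalization.isDomain_localization q.primeCompl_le_nonZeroDivisors,
    j, r, hinj, ?_, ?_⟩
  · intro x
    constructor
    · rintro ⟨y, rfl⟩
      obtain ⟨α, β, rfl⟩ := IsLocalization.exists_mk'_eq q.primeCompl y
      refine ⟨α, β, β.2, ?_⟩
      change j0 (IsLocalization.mk' R α β) * _ = _
      rw [← hj0, ← hj0, ← map_mul, IsLocalization.mk'_spec]
    · rintro ⟨α, β, hβ, hαβ⟩
      refine ⟨IsLocalization.mk' R α (⟨β, hβ⟩ : q.primeCompl), ?_⟩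
      have h1 : j0 (IsLocalization.mk' R α (⟨β, hβ⟩ : q.primeCompl)) *
          j0 (algebraMap (serSub O) R β) = j0 (algebraMap (serSub O) R α) := by
        rw [← map_mul]
        congr 1
        exact IsLocalization.mk'_spec R α (⟨β, hβ⟩ : q.primeCompl)
      rw [hj0, hj0, ← hαβ] at h1
      exact mul_right_cancel₀ (hne ⟨β, hβ⟩) h1
  · intro y α β h
    have h1 : y * algebraMap (serSub O) R β = algebraMap (serSub O) R α := by
      apply hinj
      rw [map_mul]
      change j y * j0 _ = j0 _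
      rw [hj0, hj0, h]
    have h2 := congrArg r0 h1
    rw [map_mul, hr0, hr0] at h2
    exact h2

/-- The same without the residue homomorphism. -/
theorem exists_locq' {O : Subring (RatFunc κ)} (hO : ∀ c : κ, polR (C c) ∈ O)
    (q : Ideal (serSub O)) (hq : q.IsPrime) :
    ∃ (R : Type u) (_ : CommRing R) (_ : Algebra k R) (_ : IsLocalRing R) (_ : IsDomain R)
      (j : R →ₐ[k] LSer (RatFunc κ)), Function.Injective j ∧
      ∀ x, (∃ y, j y = x) ↔ LocIn q x := by
  obtain ⟨R, i1, i2, i3, i4, j, -, h1, h2, -⟩ := exists_locq (k := k) hO q hq (serSub O).subtype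
    (F := LSer (RatFunc κ)) (fun _ => rfl) (fun x hx => by
      have : x = 0 := Subtype.ext hx
      rw [this]; exact q.zero_mem)
  exact ⟨R, i1, i2, i3, i4, j, h1, h2⟩

end locq

section rad

variable {κ : Type u} [Field κ] {O : Subring (RatFunc κ)} (q : Ideal (serSub O)) (hq : q.IsPrime)
include hq

/-- the localization as a subring -/
noncomputable def locSub : Subring (LSer (RatFunc κ)) where
  carrier := {x | LocIn q x}
  mul_mem' := by
    rintro x x' ⟨α, β, hβ, h⟩ ⟨α', β', hβ', h'⟩
    refine ⟨α * α', β * β', fun hm => ?_, ?_⟩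
    · rcases hq.mem_or_mem hm with h | h
      · exact hβ h
      · exact hβ' h
    · push_cast
      rw [← h, ← h']; ring
  one_mem' := ⟨1, 1, fun h => hq.ne_top ((Ideal.eq_top_iff_one _).2 h), by simp⟩
  add_mem' := by
    rintro x x' ⟨α, β, hβ, h⟩ ⟨α', β', hβ', h'⟩
    refine ⟨α * β' + α' * β, β * β', fun hm => ?_, ?_⟩
    · rcases hq.mem_or_mem hm with h | h
      · exact hβ h
      · exact hβ' h
    · push_cast
      rw [← h, ← h']; ring
  zero_mem' := ⟨0, 1, fun h => hq.ne_top ((Ideal.eq_top_iff_one _).2 h), by simp⟩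
  neg_mem' := by
    rintro x ⟨α, β, hβ, h⟩
    exact ⟨-α, β, hβ, by push_cast; rw [← h]; ring⟩

lemma mem_locSub {x : LSer (RatFunc κ)} : x ∈ locSub q hq ↔ LocIn q x := Iff.rfl

lemma serSub_le_locSub {x : LSer (RatFunc κ)} (hx : x ∈ serSub O) : x ∈ locSub q hq :=
  ⟨⟨x, hx⟩, 1, fun h => hq.ne_top ((Ideal.eq_top_iff_one _).2 h), by simp⟩

/-- The multiples of the element `t`. -/
def locMul (t : LSer (RatFunc κ)) : AddSubgroup (LSer (RatFunc κ)) where
  carrier := {x | ∃ y ∈ locSub q hq, x = t * y}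
  add_mem' := by
    rintro _ _ ⟨y, hy, rfl⟩ ⟨y', hy', rfl⟩
    exact ⟨y + y', (locSub q hq).add_mem hy hy', by ring⟩
  zero_mem' := ⟨0, (locSub q hq).zero_mem, by ring⟩
  neg_mem' := by
    rintro _ ⟨y, hy, rfl⟩
    exact ⟨-y, (locSub q hq).neg_mem hy, by ring⟩

lemma locMul_rad (t : serSub O) (ht : t ∈ q) :
    Rad (locSub q hq) (locMul q hq (t : LSer (RatFunc κ))) := by
  have key : ∀ y ∈ locSub q hq, 1 + (t : LSer (RatFunc κ)) * y ≠ 0 ∧
      (1 + (t : LSer (RatFunc κ)) * y)⁻¹ ∈ locSub q hq := by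
    rintro y ⟨α, β, hβ, h⟩
    have h1 : β + t * α ∉ q := by
      intro hm
      exact hβ ((Ideal.add_mem_iff_left q (q.mul_mem_right α ht)).1 hm)
    have h2 : ((β + t * α : serSub O) : LSer (RatFunc κ)) ≠ 0 := by
      intro h0
      apply h1
      have : β + t * α = 0 := Subtype.ext h0
      rw [this]; exact q.zero_mem
    have h3 : (1 + (t : LSer (RatFunc κ)) * y) * (β : LSer (RatFunc κ)) =
        ((β + t * α : serSub O) : LSer (RatFunc κ)) := by
      push_cast
      rw [← h]; ring
    have h4 : 1 + (t : LSer (RatFunc κ)) * y ≠ 0 := by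
      intro h0
      rw [h0, zero_mul] at h3
      exact h2 h3.symm
    refine ⟨h4, β, β + t * α, h1, ?_⟩
    rw [← h3, ← mul_assoc, inv_mul_cancel₀ h4, one_mul]
  refine ⟨?_, ?_, ?_, ?_⟩
  · rintro p hp _ ⟨y, hy, rfl⟩
    exact ⟨p * y, (locSub q hq).mul_mem hp hy, by ring⟩
  · rintro _ ⟨y, hy, rfl⟩
    exact (locSub q hq).mul_mem (serSub_le_locSub q hq t.2) hy
  · rintro _ ⟨y, hy, rfl⟩
    exact (key y hy).1
  · rintro _ ⟨y, hy, rfl⟩
    exact (key y hy).2

end rad

end Pool.Agent.H19VF
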