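import Pool.Agent.H19VF.N2_Loc
import Pool.Agent.H19VF.M_Perturb

/-! # Task N, part 3: the patching construction at one place -/

set_option autoImplicit false

open AlgebraicGeometry CategoryTheory Polynomial

universe u

namespace Pool.Agent.H19VF

section tower

variable {k k' R : Type u} [CommRing k] [CommRing k'] [CommRing R] [Algebra k k'] [Algebra k R]
  [Algebra k' R] [IsScalarTower k k' R]

instance n_tower_lser : IsScalarTower k k' (LSer R) := IsScalarTower.of_algebraMap_eq fun c => by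
  rw [LSer.algebraMap_eq, LSer.algebraMap_eq, ← IsScalarTower.algebraMap_apply]

end tower

instance n_tower_ratFunc {k k' κ : Type u} [Field k] [Field k'] [Field κ] [Algebra k k']
    [Algebra k κ] [Algebra k' κ] [IsScalarTower k k' κ] : IsScalarTower k k' (RatFunc κ) :=
  IsScalarTower.of_algebraMap_eq fun c => by
    rw [algebraMap_ratFunc, algebraMap_ratFunc, ← IsScalarTower.algebraMap_apply]

section ge

variable {Λ : Type u} [Field Λ]

lemma n_ge_pow {x : LSer Λ} {b : ℤ} (hb : 0 ≤ b) (hx : LSer.Ge b x) (l : ℕ) : LSer.Ge 0 (x ^ l) :=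
  (geSub Λ).pow_mem (show LSer.Ge 0 x from hx.mono hb) l

/-- bound for the values of polynomials -/
lemma n_ge_eval {k : Type u} [Field k] {A : Type u} [CommRing A] [Algebra k A] [Algebra k Λ]
    (ν : A →ₐ[k] LSer Λ) {x : LSer Λ} (hx : LSer.Ge 0 x) (f : A[X]) (M : ℤ)
    (hf : ∀ l, LSer.Ge M (ν (f.coeff l))) : LSer.Ge M (nEv ν x f) := by
  rw [nEv_apply, Polynomial.eval₂_eq_sum_range]
  refine LSer.Ge.sum fun l _ => ?_
  have := (hf l).mul (n_ge_pow le_rfl hx l)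
  rwa [add_zero] at this

/-- difference of values of a polynomial -/
lemma n_ge_eval_sub {k : Type u} [Field k] {A : Type u} [CommRing A] [Algebra k A] [Algebra k Λ]
    (ν ν' : A →ₐ[k] LSer Λ) {x : LSer Λ} (hx : LSer.Ge 0 x) (f : A[X]) (M : ℤ)
    (hf : ∀ l, LSer.Ge M (ν (f.coeff l) - ν' (f.coeff l))) :
    LSer.Ge M (nEv ν x f - nEv ν' x f) := by
  rw [nEv_apply, nEv_apply, Polynomial.eval₂_eq_sum_range, Polynomial.eval₂_eq_sum_range,
    ← Finset.sum_sub_distrib]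
  refine LSer.Ge.sum fun l _ => ?_
  have h1 : ν.toRingHom (f.coeff l) * x ^ l - ν'.toRingHom (f.coeff l) * x ^ l =
      (ν (f.coeff l) - ν' (f.coeff l)) * x ^ l := by
    rw [sub_mul]; rfl
  rw [h1]
  have := (hf l).mul (n_ge_pow le_rfl hx l)
  rwa [add_zero] at this

/-- the same for polynomials with constant term in `k` -/
lemma n_ge_eval_sub' {k : Type u} [Field k] {A : Type u} [CommRing A] [Algebra k A] [Algebra k Λ]
    (ν ν' : A →ₐ[k] LSer Λ) {x : LSer Λ} {b : ℤ} (hb : 0 ≤ b) (hx : LSer.Ge b x) (h : A[X])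
    (hh : h.eval 0 = 1) (M : ℤ)
    (hf : ∀ l, LSer.Ge M (ν (h.coeff l) - ν' (h.coeff l))) :
    LSer.Ge (b + M) (nEv ν x h - nEv ν' x h) := by
  rw [nEv_sum, nEv_sum, Polynomial.coeff_zero_eq_eval_zero, hh, map_one, map_one,
    add_sub_add_left_eq_sub, ← Finset.sum_sub_distrib]
  refine LSer.Ge.sum fun l _ => ?_
  have h1 : x * ν (h.coeff (l + 1)) * x ^ l - x * ν' (h.coeff (l + 1)) * x ^ l =
      (x * (ν (h.coeff (l + 1)) - ν' (h.coeff (l + 1)))) * x ^ l := by ring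
  rw [h1]
  have := (hx.mul (hf (l + 1))).mul (n_ge_pow hb hx l)
  rwa [add_zero] at this

lemma n_ge_pow_sub {x y : LSer Λ} (hx : LSer.Ge 0 x) (hy : LSer.Ge 0 y) {M : ℤ}
    (h : LSer.Ge M (x - y)) (n : ℕ) : LSer.Ge M (x ^ n - y ^ n) := by
  induction n with
  | zero => simp only [pow_zero, sub_self]; exact LSer.Ge.zero _
  | succ n ih =>
    have h1 : x ^ (n + 1) - y ^ (n + 1) = x ^ n * (x - y) + (x ^ n - y ^ n) * y := by ring
    rw [h1]
    refine LSer.Ge.add ?_ ?_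
    · have := (n_ge_pow le_rfl hx n).mul h
      rwa [zero_add] at this
    · have := ih.mul hy
      rwa [add_zero] at this

lemma n_dvd_of_ge {p : PowerSeries Λ} {m : ℕ} (h : LSer.Ge m (LSer.ofPS p)) :
    (PowerSeries.X : PowerSeries Λ) ^ m ∣ p := by
  rw [PowerSeries.X_pow_dvd_iff]
  intro i hi
  rw [← LSer.coeff_ofPS_nat]
  exact h i (by exact_mod_cast hi)

end ge

section place

variable {k : Type u} [Field k] {V : Scheme.{u}} {π : V ⟶ Spec (.of k)}

/-- the local uniformizer as an element of the ring of Laurent series -/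
noncomputable def tElt {κ : Type u} [Field κ] (a : κ) : serSub (regAt (some a)) :=
  ⟨LSer.C (unif (some a)), C_mem_serSub (Dunif_mem (some a))⟩

/-- Section 5 of the paper at one place `a`: the expressions `R` are the nonlinear terms of
equation (4), and for a solution `δ` the curve `Ψ` evaluated at `Y = t ^ b η` gives a point `θ` which
extends over all local rings above `a` and specializes to `v`. -/
theorem n_place [LocallyOfFiniteType π] {n : ℕ} {Wp : EChart π n} {p0 : Wp.B →ₐ[k] k}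
    {k' : Type u} [Field k'] [Algebra k k'] {γ : Fin n → k'} {v : Pt π k}
    (ad : ArcData Wp p0 k' γ v) {κ : Type u} [Field κ] [Algebra k κ] [Algebra k' κ]
    [IsScalarTower k k' κ] (a : κ) :
    ∃ E1 : ℕ, ∀ E : ℕ, E1 ≤ E → ∃ M1 : ℕ, ∀ N b : ℕ, M1 ≤ N → M1 ≤ b → ∀ η : RatFunc κ, η ≠ 0 →
      η * unif (some a) ^ N ∈ regAt (some a) →
      (∃ g ∈ regAt (some a), η⁻¹ = unif (some a) ^ N * g) →
      ∃ R : (Fin n → PowerSeries (RatFunc κ)) → (Fin n → PowerSeries (RatFunc κ)),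
        (∀ (m : ℕ) (δ δ' : Fin n → PowerSeries (RatFunc κ)),
          (∀ j, (PowerSeries.X : PowerSeries (RatFunc κ)) ^ m ∣ δ j - δ' j) →
          ∀ j, (PowerSeries.X : PowerSeries (RatFunc κ)) ^ (m + 1) ∣ R δ j - R δ' j) ∧
        ∀ δ : Fin n → PowerSeries (RatFunc κ),
          (∀ j i, PowerSeries.coeff i (δ j) ∈ regAt (some a)) →
          ∃ θ' : Wp.B →ₐ[k] PowerSeries (RatFunc κ),
            (∀ x, PowerSeries.constantCoeff (θ' x) = algebraMap k (RatFunc κ) (p0 x)) ∧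
            (∀ j, θ' (Wp.z j) = PowerSeries.X ^ b *
                PowerSeries.C (η * algebraMap k' (RatFunc κ) (γ j)) +
              PowerSeries.X ^ (b + E) * (PowerSeries.C (η * unif (some a) ^ E) * δ j + R δ j)) ∧
            ∀ q : Ideal (serSub (regAt (some a))), q.IsPrime →
              (∃ (W' : Chart π) (φ : W'.B →ₐ[k] LSer (RatFunc κ)),
                Wp.pt.map ((LSer.ofPSa k).comp θ') = W'.pt.map φ ∧ ∀ x, LocIn q (φ x)) ∧
              (tElt a ∈ q → ∃ (W' : Chart π) (φ : W'.B →ₐ[k] LSer (RatFunc κ)) (v0 : W'.B →ₐ[k] k),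
                Wp.pt.map ((LSer.ofPSa k).comp θ') = W'.pt.map φ ∧ v = W'.pt.map v0 ∧
                ∀ x, ∃ α β : serSub (regAt (some a)), β ∉ q ∧
                  (φ x - algebraMap k (LSer (RatFunc κ)) (v0 x)) * (β : LSer (RatFunc κ)) =
                    LSer.C (unif (some a)) * (α : LSer (RatFunc κ))) := by
  classical
  have hϖ : unif (some a) ≠ 0 := unif_ne_zero _
  obtain ⟨E0, Mb, hpert⟩ := @perturb k k' _ _ _ n ad.r ad.A _ _ _ _ ad.std ad.m
  obtain ⟨ev, ev1, ev2, ev3, ev4, ev5, ev6⟩ := exists_ev (k' := k') (Λ := RatFunc κ) n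
    (unif (some a)) hϖ
  obtain ⟨Gp, hGp⟩ := (Chart.finiteType Wp.toChart).out
  obtain ⟨Gv, hGv⟩ := (Chart.finiteType ad.Wv).out
  choose np fp hfp using fun b : Wp.B => n_surj (k := k) ad.h0 (ad.φ0 b)
  choose nr fr hfr using fun j => n_surj (k := k) ad.h0 (ad.ρ j)
  choose nv fv hfv using fun b : ad.Wv.B => n_surj (k := k) ad.h1 (ad.φ1 b)
  obtain ⟨E1, hE1, hE2⟩ : ∃ E1 : ℕ, E0 ≤ E1 ∧
      ∀ x ∈ Gv, Mb (loc0 k ad.h1 ad.hh1 (ad.φ1 x)) + 1 ≤ (E1 : ℤ) := by
    refine ⟨E0 + ∑ x ∈ Gv, (Mb (loc0 k ad.h1 ad.hh1 (ad.φ1 x)) + 1).toNat, by omega, ?_⟩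
    intro x hx
    have h1 := Finset.single_le_sum (f := fun x => (Mb (loc0 k ad.h1 ad.hh1 (ad.φ1 x)) + 1).toNat)
      (fun _ _ => Nat.zero_le _) hx
    push_cast
    have h2 : (Mb (loc0 k ad.h1 ad.hh1 (ad.φ1 x)) + 1) ≤
      ((Mb (loc0 k ad.h1 ad.hh1 (ad.φ1 x)) + 1).toNat : ℤ) := Int.self_le_toNat _
    have h3 : ((Mb (loc0 k ad.h1 ad.hh1 (ad.φ1 x)) + 1).toNat : ℤ) ≤
      ((∑ x ∈ Gv, (Mb (loc0 k ad.h1 ad.hh1 (ad.φ1 x)) + 1).toNat : ℕ) : ℤ) := by exact_mod_cast h1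
    push_cast at h3
    omega
  refine ⟨E1, fun E hE => ?_⟩
  obtain ⟨μ, hμc, -, hμ⟩ := hpert E (hE1.trans hE)
  obtain ⟨Ma, hMa⟩ := exists_bound_fin μ.toRingHom.toAddMonoidHom Gp fp
  obtain ⟨Mc, hMc⟩ := exists_bound_fin μ.toRingHom.toAddMonoidHom Finset.univ fr
  obtain ⟨Md, hMd⟩ := exists_bound_fin μ.toRingHom.toAddMonoidHom Gv fv
  obtain ⟨Me, hMe⟩ := exists_bound μ.toRingHom.toAddMonoidHom ad.h0
  obtain ⟨Mf, hMf⟩ := exists_bound μ.toRingHom.toAddMonoidHom ad.h1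
  obtain ⟨M, hM⟩ : ∃ M : ℕ, M = Ma + Mc + Md + Me + Mf := ⟨_, rfl⟩
  have hMa' : ∀ x ∈ Gp, ∀ l, LSer.Ge (-(M : ℤ)) (μ ((fp x).coeff l)) := fun x hx l =>
    LSer.Ge.mono (hMa x hx l) (by rw [hM]; push_cast; omega)
  have hMc' : ∀ j, ∀ l, LSer.Ge (-(M : ℤ)) (μ ((fr j).coeff l)) := fun j l =>
    LSer.Ge.mono (hMc j (Finset.mem_univ j) l) (by rw [hM]; push_cast; omega)
  have hMd' : ∀ x ∈ Gv, ∀ l, LSer.Ge (-(M : ℤ)) (μ ((fv x).coeff l)) := fun x hx l =>
    LSer.Ge.mono (hMd x hx l) (by rw [hM]; push_cast; omega)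
  have hMe' : ∀ l, LSer.Ge (-(M : ℤ)) (μ (ad.h0.coeff l)) := fun l =>
    LSer.Ge.mono (hMe l) (by rw [hM]; push_cast; omega)
  have hMf' : ∀ l, LSer.Ge (-(M : ℤ)) (μ (ad.h1.coeff l)) := fun l =>
    LSer.Ge.mono (hMf l) (by rw [hM]; push_cast; omega)
  clear hMa hMc hMd hMe hMf
  refine ⟨E + M + 1, fun N b hN hb η hη hη1 hη2 => ?_⟩
  -- the parameter `Y`
  obtain ⟨Y, hYdef⟩ : ∃ Y : LSer (RatFunc κ), Y = LSer.T (b : ℤ) * LSer.C η := ⟨_, rfl⟩
  have hYb : LSer.Ge (b : ℤ) Y := by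
    have := (LSer.ge_T (R := RatFunc κ) (b : ℤ)).mul (LSer.ge_C η)
    rw [add_zero, ← hYdef] at this
    exact this
  have hY0 : LSer.Ge 0 Y := hYb.mono (by omega)
  have hCne : ∀ g : RatFunc κ, g ≠ 0 → (LSer.C g : LSer (RatFunc κ)) ≠ 0 := by
    intro g hg h0
    have h1 := congrArg (fun x => LSer.coeff x 0) h0
    simp only [LSer.coeff_C, LSer.coeff_zero, if_true] at h1
    exact hg h1
  have hYne : Y ≠ 0 := by
    rw [hYdef]
    exact mul_ne_zero (LSer.T_ne_zero _) (hCne η hη)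
  -- the homomorphisms `ν δ`
  let ν : (Fin n → PowerSeries (RatFunc κ)) → (ad.A →ₐ[k] LSer (RatFunc κ)) := fun δ =>
    ((ev δ).restrictScalars k).comp μ
  have hν : ∀ δ x, ν δ x = ev δ (μ x) := fun _ _ => rfl
  have hνge : ∀ δ (M : ℤ) x, LSer.Ge M (μ x) → LSer.Ge M (ν δ x) := fun δ M x h => ev3 δ M _ h
  have hR := ge_rad (RatFunc κ)
  have hYν : ∀ δ x, LSer.Ge (-(M : ℤ)) (μ x) → Y * ν δ x ∈ geAdd (RatFunc κ) 1 := by
    intro δ x hx
    exact (hYb.mul (hνge δ _ x hx)).mono (by omega)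
  have hH1 : ∀ δ, nEv (ν δ) Y ad.h0 - 1 ∈ geAdd (RatFunc κ) 1 := fun δ =>
    n_unit hR (ν δ) hY0 ad.h0 ad.hh0 (fun l => hYν δ _ (hMe' l))
  have hHge : ∀ δ, LSer.Ge 0 (nEv (ν δ) Y ad.h0) := by
    intro δ
    have := (LSer.Ge.mono (hH1 δ) (by norm_num : (0 : ℤ) ≤ 1)).add (LSer.ge_one (R := RatFunc κ))
    rwa [sub_add_cancel] at this
  have hHu : ∀ δ, IsUnit (nEv (ν δ) Y ad.h0) := fun δ =>
    isUnit_iff_ne_zero.2 (n_one_unit hR (hH1 δ)).1
  have hHp : ∀ δ (i : ℕ), nEv (ν δ) Y ad.h0 ^ i ≠ 0 ∧ LSer.Ge 0 ((nEv (ν δ) Y ad.h0 ^ i)⁻¹) :=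
    fun δ i => n_one_unit hR (n_one_pow hR (hH1 δ) i)
  let val : (δ : Fin n → PowerSeries (RatFunc κ)) → (Localization.Away ad.h0 →ₐ[k] LSer (RatFunc κ)) :=
    fun δ => nEvL (ν δ) Y ad.h0 (hHu δ)
  have hvalt : ∀ δ f, val δ (toLoc k ad.h0 f) = nEv (ν δ) Y f := fun δ f =>
    nEvL_toLoc (ν δ) Y ad.h0 (hHu δ) f
  have hvalr : ∀ δ j, val δ (ad.ρ j) = nEv (ν δ) Y (fr j) * (nEv (ν δ) Y ad.h0 ^ nr j)⁻¹ := by
    intro δ j
    have h1 := congrArg (val δ) (hfr j)
    rw [map_mul, map_pow, hvalt, hvalt] at h1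
    rw [← h1, mul_assoc, mul_inv_cancel₀ (hHp δ _).1, mul_one]
  have hvalge : ∀ δ j, LSer.Ge (-(M : ℤ)) (val δ (ad.ρ j)) := by
    intro δ j
    rw [hvalr]
    have := (n_ge_eval (ν δ) hY0 (fr j) (-(M : ℤ)) (fun l => hνge δ _ _ (hMc' j l))).mul
      (hHp δ (nr j)).2
    rwa [add_zero] at this
  -- the nonlinear terms
  have hRex : ∀ δ j, ∃ r : PowerSeries (RatFunc κ), LSer.ofPS r =
      LSer.T ((b : ℤ) - E) * (LSer.C (η ^ 2) * val δ (ad.ρ j)) := by
    intro δ j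
    apply LSer.exists_ofPS
    have := (LSer.ge_T (R := RatFunc κ) ((b : ℤ) - E)).mul
      ((LSer.ge_C (η ^ 2)).mul (hvalge δ j))
    exact this.mono (by omega)
  choose R hRdef using hRex
  have hcaus : ∀ (m : ℕ) (δ δ' : Fin n → PowerSeries (RatFunc κ)),
      (∀ j, (PowerSeries.X : PowerSeries (RatFunc κ)) ^ m ∣ δ j - δ' j) →
      ∀ j, (PowerSeries.X : PowerSeries (RatFunc κ)) ^ (m + 1) ∣ R δ j - R δ' j := by
    intro m δ δ' hd j
    have hdν : ∀ x, LSer.Ge (-(M : ℤ)) (μ x) → LSer.Ge (-(M : ℤ) + m) (ν δ x - ν δ' x) :=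
      fun x hx => ev6 δ δ' m hd _ _ hx
    have h1 : LSer.Ge (-(M : ℤ) + m) (nEv (ν δ) Y (fr j) - nEv (ν δ') Y (fr j)) :=
      n_ge_eval_sub (ν δ) (ν δ') hY0 (fr j) _ (fun l => hdν _ (hMc' j l))
    have h2 : LSer.Ge (m : ℤ) (nEv (ν δ) Y ad.h0 - nEv (ν δ') Y ad.h0) :=
      (n_ge_eval_sub' (ν δ) (ν δ') (by omega) hYb ad.h0 ad.hh0 _ (fun l => hdν _ (hMe' l))).mono
        (by omega)
    have h3 := n_ge_pow_sub (hHge δ) (hHge δ') h2 (nr j)
    have h4 : LSer.Ge (-(M : ℤ) + m) (val δ (ad.ρ j) - val δ' (ad.ρ j)) := by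
      rw [hvalr, hvalr]
      obtain ⟨p1, p2⟩ := hHp δ (nr j)
      obtain ⟨p3, p4⟩ := hHp δ' (nr j)
      have e1 : nEv (ν δ) Y (fr j) * (nEv (ν δ) Y ad.h0 ^ nr j)⁻¹ -
          nEv (ν δ') Y (fr j) * (nEv (ν δ') Y ad.h0 ^ nr j)⁻¹ =
          (nEv (ν δ) Y (fr j) - nEv (ν δ') Y (fr j)) * (nEv (ν δ) Y ad.h0 ^ nr j)⁻¹ -
          (nEv (ν δ') Y (fr j) * (nEv (ν δ) Y ad.h0 ^ nr j - nEv (ν δ') Y ad.h0 ^ nr j)) *
            ((nEv (ν δ) Y ad.h0 ^ nr j)⁻¹ * (nEv (ν δ') Y ad.h0 ^ nr j)⁻¹) := by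
        field_simp
        ring
      rw [e1]
      refine LSer.Ge.sub ?_ ?_
      · have := h1.mul p2
        rwa [add_zero] at this
      · have h5 := (n_ge_eval (ν δ') hY0 (fr j) (-(M : ℤ)) (fun l => hνge δ' _ _ (hMc' j l))).mul h3
        have := h5.mul (p2.mul p4)
        rwa [add_zero, add_zero] at this
    apply n_dvd_of_ge
    rw [map_sub, hRdef, hRdef, ← mul_sub, ← mul_sub]
    have := (LSer.ge_T (R := RatFunc κ) ((b : ℤ) - E)).mul ((LSer.ge_C (η ^ 2)).mul h4)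
    exact this.mono (by push_cast; omega)
  refine ⟨R, hcaus, fun δ hδ => ?_⟩
  -- the point `θ`
  have hk : ∀ c : k, algebraMap k (LSer (RatFunc κ)) c ∈ geSub (RatFunc κ) := by
    intro c
    rw [LSer.algebraMap_eq]
    exact LSer.ge_C _
  have hφ1 : ∀ x, val δ (ad.φ0 x) - algebraMap k (LSer (RatFunc κ)) (p0 x) ∈
      geAdd (RatFunc κ) 1 := by
    refine n_gen hR hk ((val δ).comp ad.φ0) p0 (Gp : Set Wp.B) hGp ?_
    intro x hx
    have h0 : (ν δ) (loc0 k ad.h0 ad.hh0 (ad.φ0 x)) = algebraMap k (LSer (RatFunc κ)) (p0 x) := by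
      rw [ad.hφ0p, AlgHom.commutes]
    have h1 := n_loc hR (ν δ) hY0 ad.h0 ad.hh0 (fun l => hYν δ _ (hMe' l)) (hHu δ) (ad.φ0 x)
      (np x) (fp x) (hfp x) (fun l => hYν δ _ (hMa' x hx l)) (by rw [h0]; exact hk _)
    rw [h0] at h1
    exact h1
  have hφge : ∀ x, LSer.Ge 0 (val δ (ad.φ0 x)) := by
    intro x
    have := (LSer.Ge.mono (hφ1 x) (by norm_num : (0 : ℤ) ≤ 1)).add (hk (p0 x))
    rwa [sub_add_cancel] at this
  obtain ⟨θ', hθ'⟩ := n_lift (LSer.ofPSa k) LSer.ofPS_injective ((val δ).comp ad.φ0)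
    (fun x => LSer.exists_ofPS (hφge x))
  have hθ'' : ∀ x, LSer.ofPS (θ' x) = val δ (ad.φ0 x) := fun x => DFunLike.congr_fun hθ' x
  -- the values of `ev`
  have hevT : ∀ e : ℕ, ev δ (LSer.T (e : ℤ)) =
      LSer.C (unif (some a) ^ e) * LSer.T (e : ℤ) := by
    intro e
    have h1 : (LSer.T (e : ℤ) : LSer (MvPolynomial (Fin n) k')) = LSer.T 1 ^ e := by
      rw [LSer.T_pow, one_mul]
    rw [h1, map_pow, ev2, mul_pow, ← map_pow, LSer.T_pow, one_mul]
  have hevC : ∀ c : k', ev δ (incl k k' n (LSer.C c)) =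
      LSer.C (algebraMap k' (RatFunc κ) c) := by
    intro c
    ext i
    have h1 := ev4 (LSer.C c) δ i
    change (ev δ (incl k' k' n (LSer.C c))).coeff i = _
    rw [h1, LSer.coeff_C, LSer.coeff_C]
    split_ifs with h
    · rw [h, zpow_zero, one_mul]
    · rw [map_zero, mul_zero]
  -- membership in the local ring
  have hO : ∀ c : κ, polR (C c) ∈ regAt (some a) := fun c => polR_C_mem (some a) c
  have hevO : ∀ f, LSer.Ge 0 f → ev δ f ∈ serSub (regAt (some a)) := fun f hf i =>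
    ev5 (regAt (some a)) (fun c => by rw [algebraMap_ratFunc]; exact hO _) (Dunif_mem (some a)) δ
      hδ f hf i
  have hevM : ∀ (e : ℕ) f, LSer.Ge (-(e : ℤ)) f →
      LSer.C (unif (some a) ^ e) * ev δ f ∈ serSub (regAt (some a)) := by
    intro e f hf
    have h1 := hevO (LSer.T (e : ℤ) * f) ((hf.T_mul _).mono (by omega))
    rw [map_mul, hevT] at h1
    have h2 := (serSub (regAt (some a))).mul_mem (T_mem_serSub (O := regAt (some a)) (-(e : ℤ))) h1
    have h3 : LSer.C (unif (some a) ^ e) * ev δ f = LSer.T (-(e : ℤ)) *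
        (LSer.C (unif (some a) ^ e) * LSer.T (e : ℤ) * ev δ f) := by
      have h4 := LSer.T_mul_T_neg (R := RatFunc κ) (e : ℤ)
      linear_combination (-LSer.C (unif (some a) ^ e) * ev δ f) * h4
    rw [h3]
    exact h2
  refine ⟨θ', ?_, ?_, ?_⟩
  · intro x
    rw [← PowerSeries.coeff_zero_eq_constantCoeff_apply, ← LSer.coeff_ofPS_nat, hθ'']
    have h1 := hφ1 x 0 (by norm_num)
    rw [LSer.coeff_sub, LSer.algebraMap_coeff, if_pos rfl] at h1
    exact sub_eq_zero.1 h1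
  · intro j
    apply LSer.ofPS_injective
    rw [hθ'', ad.hρ, map_mul, map_add, map_mul, hvalt, hvalt, nEv_X, nEv_C, hν, hμc, map_add,
      map_mul, ad.hm, hevC, hevT, ev1]
    simp only [map_mul, map_add, map_pow, LSer.ofPS_X, LSer.ofPS_C, LSer.T_pow, one_mul]
    rw [hRdef, hYdef]
    have h1 : (LSer.T (b : ℤ) : LSer (RatFunc κ)) * LSer.T (E : ℤ) = LSer.T (((b + E : ℕ)) : ℤ) := by
      rw [LSer.T_mul_T]; push_cast; rfl
    have h2 : (LSer.T (((b + E : ℕ)) : ℤ) : LSer (RatFunc κ)) * LSer.T ((b : ℤ) - E) =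
        LSer.T (b : ℤ) * LSer.T (b : ℤ) := by
      rw [LSer.T_mul_T, LSer.T_mul_T]; congr 1; push_cast; ring
    simp only [map_pow] at h2 ⊢
    linear_combination (LSer.C η * (LSer.C (unif (some a)) ^ E) * LSer.ofPS (δ j)) * h1 -
      (LSer.C η ^ 2 * val δ (ad.ρ j)) * h2
  · intro q hq
    have hpt : Wp.pt.map ((LSer.ofPSa k).comp θ') = ad.Ψ.y.map (nEv (ν δ) Y) := by
      rw [hθ', ← Pt.map_map, ← ad.hφ0, Pt.map_map]
      exact congrArg _ (nEvL_comp_toLoc (ν δ) Y ad.h0 (hHu δ))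
    by_cases ht : tElt a ∈ q
    · -- the place `a` itself
      obtain ⟨g, hg, hη3⟩ := hη2
      have hRq := locMul_rad q hq (tElt a) ht
      have hYinv : Y⁻¹ = LSer.T (-(b : ℤ)) * (LSer.C (unif (some a) ^ N) * LSer.C g) := by
        apply inv_eq_of_mul_eq_one_right
        rw [hYdef, ← map_mul, ← hη3]
        have h1 := LSer.T_mul_T_neg (R := RatFunc κ) (b : ℤ)
        have h2 : (LSer.C η : LSer (RatFunc κ)) * LSer.C η⁻¹ = 1 := by
          rw [← map_mul, mul_inv_cancel₀ hη, map_one]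
        linear_combination (LSer.C η * LSer.C η⁻¹) * h1 + h2
      obtain ⟨N', hN'⟩ : ∃ N', N = M + 1 + N' := ⟨N - (M + 1), by omega⟩
      have hgm : LSer.C g ∈ serSub (regAt (some a)) := C_mem_serSub hg
      have hϖm : LSer.C (unif (some a)) ∈ serSub (regAt (some a)) := (tElt a).2
      have hxP : Y⁻¹ ∈ locSub q hq := by
        apply serSub_le_locSub
        rw [hYinv, map_pow]
        exact (serSub _).mul_mem (T_mem_serSub _) ((serSub _).mul_mem ((serSub _).pow_mem hϖm _) hgm)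
      have hxν : ∀ z, LSer.Ge (-(M : ℤ)) (μ z) → Y⁻¹ * ν δ z ∈
          locMul q hq ((tElt a : serSub (regAt (some a))) : LSer (RatFunc κ)) := by
        intro z hz
        refine ⟨LSer.T (-(b : ℤ)) * (LSer.C (unif (some a)) ^ N' * LSer.C g) *
          (LSer.C (unif (some a) ^ M) * ν δ z), ?_, ?_⟩
        · apply serSub_le_locSub
          exact (serSub _).mul_mem ((serSub _).mul_mem (T_mem_serSub _)
            ((serSub _).mul_mem ((serSub _).pow_mem hϖm _) hgm)) (hevM M _ hz)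
        · rw [hYinv, hN']
          change _ = LSer.C (unif (some a)) * _
          simp only [map_pow]
          ring
      have hun := n_unit hRq (ν δ) hxP ad.h1 ad.hh1 (fun l => hxν _ (hMf' l))
      have huu : IsUnit (nEv (ν δ) Y⁻¹ ad.h1) := isUnit_iff_ne_zero.2 (n_one_unit hRq hun).1
      have hkq : ∀ c : k, algebraMap k (LSer (RatFunc κ)) c ∈ locSub q hq := fun c =>
        serSub_le_locSub q hq (algebraMap_mem_serSub hO c)
      have hJ : ∀ x, nEvL (ν δ) Y⁻¹ ad.h1 huu (ad.φ1 x) - algebraMap k (LSer (RatFunc κ)) (ad.v0 x) ∈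
          locMul q hq ((tElt a : serSub (regAt (some a))) : LSer (RatFunc κ)) := by
        refine n_gen hRq hkq ((nEvL (ν δ) Y⁻¹ ad.h1 huu).comp ad.φ1) ad.v0 (Gv : Set ad.Wv.B) hGv ?_
        intro x hx
        have h0 : ν δ (loc0 k ad.h1 ad.hh1 (ad.φ1 x)) - algebraMap k (LSer (RatFunc κ)) (ad.v0 x) ∈
            locMul q hq ((tElt a : serSub (regAt (some a))) : LSer (RatFunc κ)) := by
          obtain ⟨f, hf1, hf2⟩ := ad.hm1 x
          have hd : LSer.Ge 1 (μ (loc0 k ad.h1 ad.hh1 (ad.φ1 x)) -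
              algebraMap k (LSer (MvPolynomial (Fin n) k')) (ad.v0 x)) := by
            have h1 := (hμ (loc0 k ad.h1 ad.hh1 (ad.φ1 x))).mono
              (show (1 : ℤ) ≤ E - Mb (loc0 k ad.h1 ad.hh1 (ad.φ1 x)) by
                have := hE2 x hx
                have h3 : (E1 : ℤ) ≤ E := by exact_mod_cast hE
                omega)
            have h2 : LSer.Ge 1 (incl k k' n (ad.m (loc0 k ad.h1 ad.hh1 (ad.φ1 x))) -
                algebraMap k (LSer (MvPolynomial (Fin n) k')) (ad.v0 x)) := by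
              intro i hi
              rw [hf1, LSer.coeff_sub, LSer.algebraMap_coeff]
              change algebraMap k' (MvPolynomial (Fin n) k') ((LSer.ofPS f).coeff i) - _ = 0
              rw [LSer.coeff_ofPS]
              rcases (show i < 0 ∨ i = 0 by omega) with h | h
              · rw [if_neg (by omega), if_neg (by omega), map_zero, sub_zero]
              · rw [h, if_pos le_rfl, if_pos rfl, Int.toNat_zero,
                  PowerSeries.coeff_zero_eq_constantCoeff_apply, hf2,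
                  ← IsScalarTower.algebraMap_apply, sub_self]
            have := h1.add h2
            rwa [sub_add_sub_cancel] at this
          have he : ν δ (loc0 k ad.h1 ad.hh1 (ad.φ1 x)) -
              algebraMap k (LSer (RatFunc κ)) (ad.v0 x) =
              ev δ (μ (loc0 k ad.h1 ad.hh1 (ad.φ1 x)) -
                algebraMap k (LSer (MvPolynomial (Fin n) k')) (ad.v0 x)) := by
            rw [map_sub]
            congr 1
            exact (((ev δ).restrictScalars k).commutes (ad.v0 x)).symm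
          rw [he]
          generalize μ (loc0 k ad.h1 ad.hh1 (ad.φ1 x)) -
                algebraMap k (LSer (MvPolynomial (Fin n) k')) (ad.v0 x) = d at hd
          have h5 : d = LSer.T 1 * (LSer.T (-1) * d) := by
            rw [← mul_assoc, LSer.T_mul_T_neg, one_mul]
          refine ⟨LSer.T 1 * ev δ (LSer.T (-1) * d), ?_, ?_⟩
          · apply serSub_le_locSub
            exact (serSub _).mul_mem (T_mem_serSub _) (hevO _ ((hd.T_mul (-1)).mono (by omega)))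
          · conv_lhs => rw [h5]
            rw [map_mul, ev2, mul_assoc]
            rfl
        have h1 := n_loc hRq (ν δ) hxP ad.h1 ad.hh1 (fun l => hxν _ (hMf' l)) huu (ad.φ1 x)
          (nv x) (fv x) (hfv x) (fun l => hxν _ (hMd' x hx l)) (by
            have := (locSub q hq).add_mem (hRq.le _ h0) (hkq (ad.v0 x))
            rwa [sub_add_cancel] at this)
        have h2 := AddSubgroup.add_mem _ h1 h0
        rwa [sub_add_sub_cancel] at h2
      have hpt2 : Wp.pt.map ((LSer.ofPSa k).comp θ') =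
          ad.Wv.pt.map ((nEvL (ν δ) Y⁻¹ ad.h1 huu).comp ad.φ1) := by
        rw [hpt, n_curve (ν δ) Y hYne ad.Ψ, ← Pt.map_map, ← ad.hφ1, Pt.map_map,
          nEvL_comp_toLoc]
      refine ⟨⟨ad.Wv, (nEvL (ν δ) Y⁻¹ ad.h1 huu).comp ad.φ1, hpt2, fun x => ?_⟩, fun _ =>
        ⟨ad.Wv, (nEvL (ν δ) Y⁻¹ ad.h1 huu).comp ad.φ1, ad.v0, hpt2, ad.hv0, fun x => ?_⟩⟩
      · have := (locSub q hq).add_mem (hRq.le _ (hJ x)) (hkq (ad.v0 x))
        rw [sub_add_cancel] at this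
        exact this
      · obtain ⟨y, ⟨α, β, hβ, h⟩, hy⟩ := hJ x
        refine ⟨α, β, hβ, ?_⟩
        change (nEvL (ν δ) Y⁻¹ ad.h1 huu (ad.φ1 x) - _) * _ = _
        rw [hy, mul_assoc, h]
        rfl
    · -- the other primes
      obtain ⟨Rq, i1, i2, i3, i4, j, hj, hjr⟩ := exists_locq' (k := k) hO q hq
      have hA : ∀ x : ad.A, ∃ r, j r = ν δ x := by
        intro x
        obtain ⟨e, he⟩ := (μ x).exists_ge
        rw [hjr]
        have h1 := hevM (-e).toNat (μ x) (he.mono (by omega))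
        refine ⟨⟨_, h1⟩, tElt a ^ (-e).toNat, fun hm => ht (hq.mem_of_pow_mem _ hm), ?_⟩
        rw [SubmonoidClass.coe_pow]
        change ev δ (μ x) * LSer.C (unif (some a)) ^ (-e).toNat =
          LSer.C (unif (some a) ^ (-e).toNat) * ev δ (μ x)
        rw [map_pow, mul_comm]
      obtain ⟨ν', hν'⟩ := n_lift j hj (ν δ) hA
      have hYj : ∃ r, j r = Y := by
        rw [hjr]
        refine ⟨⟨LSer.T (b : ℤ) * LSer.C (η * unif (some a) ^ N), (serSub _).mul_mem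
          (T_mem_serSub _) (C_mem_serSub hη1)⟩, tElt a ^ N,
          fun hm => ht (hq.mem_of_pow_mem _ hm), ?_⟩
        rw [SubmonoidClass.coe_pow]
        change Y * LSer.C (unif (some a)) ^ N = LSer.T (b : ℤ) * LSer.C (η * unif (some a) ^ N)
        rw [map_mul, map_pow, hYdef, mul_assoc]
      obtain ⟨Y', hY'⟩ := hYj
      obtain ⟨W', φ', hφ'⟩ := exists_chart_local (ad.Ψ.y.map (nEv ν' Y'))
      refine ⟨⟨W', j.comp φ', ?_, fun x => (hjr _).1 ⟨_, rfl⟩⟩, fun h => absurd h ht⟩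
      rw [hpt, ← Pt.map_map, ← hφ', Pt.map_map, nEv_comp, hν', hY']

end place

end Pool.Agent.H19VF
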