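import Pool.Agent.H19VF.N3_Place

/-! # Task N, part 4: the value of a curve at a point of the line -/

set_option autoImplicit false

open AlgebraicGeometry CategoryTheory Polynomial

universe u

namespace Pool.Agent.H19VF

section rho

variable {κ : Type u} [Field κ] {O : Subring (RatFunc κ)} (ρ : O →+* κ)

/-- Auxiliary: the coefficientwise residue. -/
noncomputable def rhoFun (x : serSub O) : LSer κ :=
  LSer.mk (fun n => ρ ⟨(x : LSer (RatFunc κ)).coeff n, x.2 n⟩)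
    ((x : LSer (RatFunc κ)).exists_ge.choose) (by
      intro n hn
      have h1 := (x : LSer (RatFunc κ)).exists_ge.choose_spec n hn
      have h2 : (⟨(x : LSer (RatFunc κ)).coeff n, x.2 n⟩ : O) = 0 := Subtype.ext h1
      rw [h2, map_zero])

lemma coeff_rhoFun (x : serSub O) (n : ℤ) :
    (rhoFun ρ x).coeff n = ρ ⟨(x : LSer (RatFunc κ)).coeff n, x.2 n⟩ := rfl

lemma rhoFun_ge {x : serSub O} {a : ℤ} (h : LSer.Ge a (x : LSer (RatFunc κ))) :
    LSer.Ge a (rhoFun ρ x) := by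
  intro n hn
  rw [coeff_rhoFun]
  have h2 : (⟨(x : LSer (RatFunc κ)).coeff n, x.2 n⟩ : O) = 0 := Subtype.ext (h n hn)
  rw [h2, map_zero]

/-- The coefficientwise residue map. -/
noncomputable def serRho : serSub O →+* LSer κ where
  toFun x := rhoFun ρ x
  map_one' := by
    ext n
    rw [coeff_rhoFun, LSer.coeff_one]
    have h1 : (((1 : serSub O) : serSub O) : LSer (RatFunc κ)).coeff n =
      if n = 0 then 1 else 0 := LSer.coeff_one n
    split_ifs at h1 ⊢ with h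
    · have h2 : (⟨((1 : serSub O) : LSer (RatFunc κ)).coeff n, (1 : serSub O).2 n⟩ : O) = 1 :=
        Subtype.ext h1
      rw [h2, map_one]
    · have h2 : (⟨((1 : serSub O) : LSer (RatFunc κ)).coeff n, (1 : serSub O).2 n⟩ : O) = 0 :=
        Subtype.ext h1
      rw [h2, map_zero]
  map_zero' := by
    ext n
    rw [coeff_rhoFun, LSer.coeff_zero]
    have h2 : (⟨((0 : serSub O) : LSer (RatFunc κ)).coeff n, (0 : serSub O).2 n⟩ : O) = 0 :=
      Subtype.ext rfl
    rw [h2, map_zero]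
  map_add' x y := by
    ext n
    rw [coeff_rhoFun, LSer.coeff_add, coeff_rhoFun, coeff_rhoFun, ← map_add]
    rfl
  map_mul' x y := by
    obtain ⟨a, ha⟩ := (x : LSer (RatFunc κ)).exists_ge
    obtain ⟨b, hb⟩ := (y : LSer (RatFunc κ)).exists_ge
    ext n
    rw [LSer.coeff_mul (rhoFun_ge ρ ha) (rhoFun_ge ρ hb)]
    simp only [coeff_rhoFun]
    have h1 : (⟨((x * y : serSub O) : LSer (RatFunc κ)).coeff n, (x * y).2 n⟩ : O) =
        ∑ i ∈ Finset.Icc a (n - b), (⟨(x : LSer (RatFunc κ)).coeff i, x.2 i⟩ : O) *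
          ⟨(y : LSer (RatFunc κ)).coeff (n - i), y.2 (n - i)⟩ := by
      apply Subtype.ext
      push_cast
      exact LSer.coeff_mul ha hb n
    rw [h1, map_sum]
    exact Finset.sum_congr rfl fun i _ => map_mul _ _ _

lemma coeff_serRho (x : serSub O) (n : ℤ) :
    (serRho ρ x).coeff n = ρ ⟨(x : LSer (RatFunc κ)).coeff n, x.2 n⟩ := rfl

lemma serRho_C (g : O) : serRho ρ ⟨LSer.C (g : RatFunc κ), C_mem_serSub g.2⟩ = LSer.C (ρ g) := by
  ext n
  rw [coeff_serRho]
  have h1 : (LSer.C (g : RatFunc κ) : LSer (RatFunc κ)).coeff n = if n = 0 then (g : RatFunc κ) else 0 :=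
    LSer.coeff_C _ n
  refine Eq.trans ?_ (LSer.coeff_C (ρ g) n).symm
  split_ifs at h1 ⊢ with h
  · congr 1
    exact Subtype.ext h1
  · have h2 : (⟨(LSer.C (g : RatFunc κ) : LSer (RatFunc κ)).coeff n,
      C_mem_serSub g.2 n⟩ : O) = 0 := Subtype.ext h1
    rw [h2, map_zero]

end rho

section at_core

variable {k : Type u} [Field k] {V : Scheme.{u}} {π : V ⟶ Spec (.of k)}
  {κ : Type u} [Field κ] [Algebra k κ]

lemma serRho_alg {O : Subring (RatFunc κ)} (hO : ∀ c : κ, polR (C c) ∈ O) (ρ : O →+* κ)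
    (hρ : ∀ a : κ, ρ ⟨polR (C a), hO a⟩ = a) (c : k) :
    serRho ρ ⟨algebraMap k _ c, algebraMap_mem_serSub hO c⟩ = algebraMap k (LSer κ) c := by
  have h1 : (⟨algebraMap k (LSer (RatFunc κ)) c, algebraMap_mem_serSub hO c⟩ : serSub O) =
      ⟨LSer.C ((⟨polR (C (algebraMap k κ c)), hO _⟩ : O) : RatFunc κ),
        C_mem_serSub (⟨polR (C (algebraMap k κ c)), hO _⟩ : O).2⟩ := by
    apply Subtype.ext
    change algebraMap k (LSer (RatFunc κ)) c = LSer.C (polR (C (algebraMap k κ c)))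
    rw [LSer.algebraMap_eq, algebraMap_ratFunc]
  rw [h1, serRho_C, hρ, LSer.algebraMap_eq]

theorem n_at_core [IsSeparated π] {O : Subring (RatFunc κ)} (hO : ∀ c : κ, polR (C c) ∈ O)
    (ρ : O →+* κ) (hρ : ∀ a : κ, ρ ⟨polR (C a), hO a⟩ = a)
    (e : (LSer κ)[X] →ₐ[k] LSer (RatFunc κ)) (he : ∀ P, e P ∈ serSub O)
    (ev0 : (LSer κ)[X] →ₐ[k] LSer κ) (hev : ∀ P, serRho ρ ⟨e P, he P⟩ = ev0 P)
    (p : Pt π (LSer κ)[X]) (W : Chart π) (φ : W.B →ₐ[k] LSer (RatFunc κ))
    (hp : p.map e = W.pt.map φ) (ψ : W.B →ₐ[k] LSer κ)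
    (hψ : ∀ x, ∃ α β : serSub O, serRho ρ β ≠ 0 ∧ φ x * (β : LSer (RatFunc κ)) = α ∧
      serRho ρ α = ψ x * serRho ρ β) :
    p.map ev0 = W.pt.map ψ := by
  have hq : (RingHom.ker (serRho ρ)).IsPrime := RingHom.ker_isPrime _
  obtain ⟨R, i1, i2, i3, i4, j, r, hj, hjr, hr⟩ := exists_locq (k := k) hO
    (RingHom.ker (serRho ρ)) hq (serRho ρ) (serRho_alg hO ρ hρ) (fun x hx => hx)
  obtain ⟨e', he'⟩ := n_lift j hj e (fun P => (hjr _).2 (serSub_le_locSub _ hq (he P)))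
  obtain ⟨φ', hφ'⟩ := n_lift j hj φ (fun x => by
    obtain ⟨α, β, hβ, h, -⟩ := hψ x
    exact (hjr _).2 ⟨α, β, hβ, h⟩)
  have h1 : p.map e' = W.pt.map φ' := by
    apply Pt.map_injective j hj
    rw [Pt.map_map, Pt.map_map, he', hφ', hp]
  have h2 := congrArg (fun z => Pt.map z r) h1
  simp only [Pt.map_map] at h2
  have h3 : r.comp e' = ev0 := by
    apply AlgHom.ext
    intro P
    have h4 := hr (e' P) ⟨e P, he P⟩ 1 (by
      change j (e' P) * 1 = e P
      rw [mul_one]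
      exact DFunLike.congr_fun he' P)
    rw [map_one, mul_one, hev] at h4
    exact h4
  have h4 : r.comp φ' = ψ := by
    apply AlgHom.ext
    intro x
    obtain ⟨α, β, hβ, h, h'⟩ := hψ x
    have h5 := hr (φ' x) α β (by
      have : j (φ' x) = φ x := DFunLike.congr_fun hφ' x
      rw [this, h])
    rw [h'] at h5
    exact mul_right_cancel₀ hβ h5
  rw [h3, h4] at h2
  exact h2

end at_core

section emb

variable {k : Type u} [Field k] {κ : Type u} [Field κ] [Algebra k κ]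

lemma embC_mem {O : Subring (RatFunc κ)} (hO : ∀ c : κ, polR (C c) ∈ O) (a : LSer κ) :
    embC k a ∈ serSub O := by
  intro n
  have h1 : (embC k a).coeff n = algebraMap κ (RatFunc κ) (a.coeff n) := rfl
  rw [h1, algebraMap_ratFunc]
  exact hO _

lemma serRho_embC {O : Subring (RatFunc κ)} (hO : ∀ c : κ, polR (C c) ∈ O) (ρ : O →+* κ)
    (hρ : ∀ a : κ, ρ ⟨polR (C a), hO a⟩ = a) (a : LSer κ) :
    serRho ρ ⟨embC k a, embC_mem hO a⟩ = a := by
  ext n
  rw [coeff_serRho]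
  have h1 : (⟨(embC k a).coeff n, embC_mem hO a n⟩ : O) = ⟨polR (C (a.coeff n)), hO _⟩ := by
    apply Subtype.ext
    change algebraMap κ (RatFunc κ) (a.coeff n) = _
    rw [algebraMap_ratFunc]
    rfl
  exact (congrArg ρ h1).trans (hρ _)

lemma emb_mem {O : Subring (RatFunc κ)} (hO : ∀ c : κ, polR (C c) ∈ O) {x : LSer (RatFunc κ)}
    (hx : x ∈ serSub O) (P : (LSer κ)[X]) :
    Polynomial.eval₂ (embC (κ := κ) k).toRingHom x P ∈ serSub O := by
  rw [Polynomial.eval₂_eq_sum_range]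
  exact Subring.sum_mem _ fun i _ => Subring.mul_mem _ (embC_mem hO _) (Subring.pow_mem _ hx _)

lemma serRho_emb {O : Subring (RatFunc κ)} (hO : ∀ c : κ, polR (C c) ∈ O) (ρ : O →+* κ)
    (hρ : ∀ a : κ, ρ ⟨polR (C a), hO a⟩ = a) {x : LSer (RatFunc κ)}
    (hx : x ∈ serSub O) (c : k) (hc : serRho ρ ⟨x, hx⟩ = algebraMap k (LSer κ) c)
    (P : (LSer κ)[X]) :
    serRho ρ ⟨Polynomial.eval₂ (embC (κ := κ) k).toRingHom x P, emb_mem hO hx P⟩ = evk c P := by
  let h1 : (LSer κ)[X] →+* LSer κ := (serRho ρ).comp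
    ((Polynomial.eval₂RingHom (embC (κ := κ) k).toRingHom x).codRestrict (serSub O)
      (fun P => emb_mem hO hx P))
  have h2 : h1 = (evk (R := LSer κ) c).toRingHom := by
    apply Polynomial.ringHom_ext
    · intro a
      have h3 : (evk (R := LSer κ) c) (C a) = a := Polynomial.aeval_C _ _
      change serRho ρ ⟨Polynomial.eval₂ (embC (κ := κ) k).toRingHom x (C a), _⟩ =
        evk (R := LSer κ) c (C a)
      rw [h3]
      have h4 : (⟨Polynomial.eval₂ (embC (κ := κ) k).toRingHom x (C a), emb_mem hO hx (C a)⟩ :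
          serSub O) = ⟨embC k a, embC_mem hO a⟩ := Subtype.ext (Polynomial.eval₂_C _ _)
      rw [h4, serRho_embC hO ρ hρ]
    · have h3 : (evk (R := LSer κ) c) X = algebraMap k (LSer κ) c := Polynomial.aeval_X _
      change serRho ρ ⟨Polynomial.eval₂ (embC (κ := κ) k).toRingHom x X, _⟩ =
        evk (R := LSer κ) c X
      rw [h3, ← hc]
      congr 1
      exact Subtype.ext (Polynomial.eval₂_X _ _)
  exact DFunLike.congr_fun h2 P

end emb

end Pool.Agent.H19VF
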