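import Pool.Agent.H19VF.N4_At
import Pool.Agent.H19VF.C_Lift

/-! # Task N: the patching construction (section 5 of the paper) -/

set_option autoImplicit false

open AlgebraicGeometry CategoryTheory Polynomial

universe u

namespace Pool.Agent.H19VF

variable {k : Type u} [Field k] {V : Scheme.{u}} {π : V ⟶ Spec (.of k)}

/-- The field `k'(u_1, ..., u_n)`. -/
abbrev KU (k' : Type u) [Field k'] (n : ℕ) : Type u := FractionRing (MvPolynomial (Fin n) k')

section zero

/-- The constant curve. -/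
noncomputable def constCrv {R : Type u} [CommRing R] [Algebra k R] (p : Pt π R) : Crv π R where
  y := p.map (IsScalarTower.toAlgHom k R R[X])
  w := p.map (IsScalarTower.toAlgHom k R R[X])
  glue := by
    rw [Pt.map_map, Pt.map_map]
    congr 1
    apply AlgHom.ext
    intro r
    change lauY k R (C r) = lauW k R (C r)
    change Polynomial.aeval _ (C r) = Polynomial.aeval _ (C r)
    rw [Polynomial.aeval_C, Polynomial.aeval_C]

lemma constCrv_at {R : Type u} [CommRing R] [Algebra k R] (p : Pt π R) (s : Option k) :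
    (constCrv p).at s = p := by
  have key : ∀ c : k, (p.map (IsScalarTower.toAlgHom k R R[X])).map (evk c) = p := by
    intro c
    rw [Pt.map_map]
    have : (evk c : R[X] →ₐ[k] R).comp (IsScalarTower.toAlgHom k R R[X]) = AlgHom.id k R := by
      apply AlgHom.ext
      intro r
      change Polynomial.aeval _ (C r) = r
      rw [Polynomial.aeval_C]
      rfl
    rw [this, Pt.map_id]
  cases s with
  | none => exact key 0
  | some a => exact key a

end zero

section eta

variable {κ : Type u} [Field κ] {m : ℕ} (a : Fin m → κ) (ha : Function.Injective a) (N : ℕ)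

/-- the function `η` -/
noncomputable def etaF : RatFunc κ := (polR (∏ i, (X - C (a i)) ^ N))⁻¹

lemma etaPoly_ne : (∏ i, (X - C (a i)) ^ N : κ[X]) ≠ 0 :=
  Finset.prod_ne_zero_iff.2 fun _ _ => pow_ne_zero _ (X_sub_C_ne_zero _)

lemma etaF_ne : etaF a N ≠ 0 := inv_ne_zero (Dne (etaPoly_ne a N))

lemma eta_split (i : Fin m) : (∏ i, (X - C (a i)) ^ N : κ[X]) =
    (X - C (a i)) ^ N * ∏ l ∈ Finset.univ.erase i, (X - C (a l)) ^ N :=
  (Finset.mul_prod_erase _ _ (Finset.mem_univ i)).symm

include ha in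
lemma eta_eval (i : Fin m) :
    (∏ l ∈ Finset.univ.erase i, (X - C (a l)) ^ N : κ[X]).eval (a i) ≠ 0 := by
  rw [Polynomial.eval_prod]
  refine Finset.prod_ne_zero_iff.2 fun l hl => ?_
  rw [eval_pow, eval_sub, eval_X, eval_C]
  exact pow_ne_zero _ (sub_ne_zero.2 fun h => (Finset.ne_of_mem_erase hl) (ha h).symm)

include ha in
lemma eta_mul_mem (i : Fin m) : etaF a N * unif (some (a i)) ^ N ∈ regAt (some (a i)) := by
  refine ⟨1, ∏ l ∈ Finset.univ.erase i, (X - C (a l)) ^ N, eta_eval a ha N i, ?_⟩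
  unfold etaF
  rw [eta_split a N i, map_mul, map_pow]
  change (polR (X - C (a i)) ^ N * _)⁻¹ * polR (X - C (a i)) ^ N * _ = _
  have h1 : polR (X - C (a i)) ≠ 0 := Dne (X_sub_C_ne_zero _)
  have h2 : polR (∏ l ∈ Finset.univ.erase i, (X - C (a l)) ^ N) ≠ 0 := by
    refine Dne fun h => eta_eval a ha N i ?_
    rw [h, eval_zero]
  rw [map_one]
  field_simp

lemma eta_inv (i : Fin m) : (etaF a N)⁻¹ = unif (some (a i)) ^ N *
    polR (∏ l ∈ Finset.univ.erase i, (X - C (a l)) ^ N) := by
  unfold etaF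
  rw [inv_inv, eta_split a N i, map_mul, map_pow]
  rfl

include ha in
lemma etaF_mem_regOff [DecidableEq κ] : etaF a N ∈ regOff (Finset.univ.image a) := by
  refine ⟨1, N, ?_⟩
  rw [Finset.prod_image (fun x _ y _ h => ha h), ← map_pow, ← Finset.prod_pow]
  unfold etaF
  rw [map_one, inv_mul_cancel₀ (Dne (etaPoly_ne a N))]

lemma etaF_mem_regInf : etaF a N ∈ regAt none := by
  refine ⟨1, ∏ i, (X - C (a i)) ^ N, etaPoly_ne a N, by simp, ?_⟩
  unfold etaF
  rw [map_one, inv_mul_cancel₀ (Dne (etaPoly_ne a N))]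

lemma etaF_van (hm : 0 < m) (hN : 0 < N) : Van none 1 (etaF a N) := by
  have hd : 1 ≤ (∏ i, (X - C (a i)) ^ N : κ[X]).natDegree := by
    rw [Polynomial.natDegree_prod_of_monic _ _ (fun i _ => (monic_X_sub_C _).pow _)]
    simp only [(monic_X_sub_C _).natDegree_pow, natDegree_X_sub_C, mul_one, Finset.sum_const,
      Finset.card_univ, Fintype.card_fin, smul_eq_mul]
    exact Nat.mul_pos hm hN
  refine ⟨X, ∏ i, (X - C (a i)) ^ N, etaPoly_ne a N, by rw [natDegree_X]; exact hd, ?_⟩
  unfold etaF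
  have h1 : (unif (none : Option κ)) ^ (-1 : ℤ) = polR X := by
    change ((polR X)⁻¹) ^ (-1 : ℤ) = _
    rw [zpow_neg, zpow_one, inv_inv]
  rw [h1]
  have h2 := Dne (etaPoly_ne a N)
  field_simp

end eta

lemma n_res_eq {κ : Type u} [Field κ] {s : Option κ} (ρ : regAt s →+* κ)
    (hρ1 : ∀ a : κ, ρ ⟨polR (C a), polR_C_mem s a⟩ = a)
    (hρ2 : ∀ g : regAt s, ρ g = 0 ↔ Van s 1 (g : RatFunc κ)) {g : RatFunc κ} (hg : g ∈ regAt s)
    {c : κ} (h : Van s 1 (g - polR (C c))) : ρ ⟨g, hg⟩ = c := by
  have h1 : (⟨g, hg⟩ : regAt s) = ⟨g - polR (C c), (regAt s).sub_mem hg (polR_C_mem s c)⟩ +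
      ⟨polR (C c), polR_C_mem s c⟩ := Subtype.ext (by push_cast; ring)
  rw [h1, map_add, hρ1, (hρ2 ⟨g - polR (C c), _⟩).2 h, zero_add]

lemma n_res_unif {κ : Type u} [Field κ] {s : Option κ} (ρ : regAt s →+* κ)
    (hρ2 : ∀ g : regAt s, ρ g = 0 ↔ Van s 1 (g : RatFunc κ)) : ρ ⟨unif s, Dunif_mem s⟩ = 0 := by
  rw [hρ2]
  have := Dvan_pow s 1
  rwa [zpow_one] at this

/-- Prescribed elements at the points `a i` and at infinity. -/
noncomputable def gfun {κ : Type u} [Field κ] {m : ℕ} (a : Fin m → κ) (c0 : RatFunc κ)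
    (c : Fin m → RatFunc κ) : Option κ → RatFunc κ
  | none => c0
  | some x => Function.extend a c 0 x

lemma gfun_some {κ : Type u} [Field κ] {m : ℕ} {a : Fin m → κ} (ha : Function.Injective a)
    (c0 : RatFunc κ) (c : Fin m → RatFunc κ) (i : Fin m) : gfun a c0 c (some (a i)) = c i :=
  ha.extend_apply _ _ i

/-- Section 5: a curve over `κ((t))`, `κ = k'(u)`, through the points `v i`, with a generic value at
infinity. -/
theorem patch [IsSeparated π] [LocallyOfFiniteType π] {n : ℕ} (Wp : EChart π n)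
    (p0 : Wp.B →ₐ[k] k) (hpz : ∀ j, p0 (Wp.z j) = 0) (k' : Type u) [Field k'] [Algebra k k']
    (γ : Fin n → k') {m : ℕ} (s : Fin m → k) (hs : Function.Injective s) (v : Fin m → Pt π k)
    (ad : ∀ i, ArcData Wp p0 k' γ (v i)) :
    ∃ Φ : Crv π (LSer (KU k' n)), (∀ i, Φ.at (some (s i)) = (v i).const) ∧
      ∃ (φ : Wp.B →ₐ[k] LSer (KU k' n)) (e : ℕ), Φ.at none = Wp.pt.map φ ∧
        ∀ j, φ (Wp.z j) = LSer.T e * LSer.C (algebraMap (MvPolynomial (Fin n) k') (KU k' n)
          (MvPolynomial.X j)) := by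
  classical
  let u : Fin n → KU k' n := fun j => algebraMap (MvPolynomial (Fin n) k') (KU k' n)
    (MvPolynomial.X j)
  rcases Nat.eq_zero_or_pos m with hm | hm
  · -- no points: a constant curve
    subst hm
    obtain ⟨φ, -, hφ⟩ := etale_lift Wp.z Wp.et ((Algebra.ofId k (KU k' n)).comp p0)
      (fun j => PowerSeries.X * PowerSeries.C (u j)) (by
        intro j
        rw [map_mul, PowerSeries.constantCoeff_X, zero_mul, AlgHom.comp_apply, hpz, map_zero])
    refine ⟨constCrv (Wp.pt.map ((LSer.ofPSa k).comp φ)), fun i => i.elim0,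
      (LSer.ofPSa k).comp φ, 1, constCrv_at _ _, fun j => ?_⟩
    change LSer.ofPS (φ (Wp.z j)) = _
    rw [hφ, map_mul, LSer.ofPS_X, LSer.ofPS_C, Nat.cast_one]
  -- the constants
  let a : Fin m → KU k' n := fun i => algebraMap k (KU k' n) (s i)
  have ha : Function.Injective a := (algebraMap k (KU k' n)).injective.comp hs
  choose E1 hE1 using fun i => n_place (π := π) (ad i) (κ := KU k' n) (a i)
  obtain ⟨E, hE⟩ : ∃ E : ℕ, ∀ i, E1 i ≤ E :=
    ⟨∑ i, E1 i, fun i => Finset.single_le_sum (fun _ _ => Nat.zero_le _) (Finset.mem_univ i)⟩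
  choose M1 hM1 using fun i => hE1 i E (hE i)
  obtain ⟨N, hN, hNE, hN0⟩ : ∃ N : ℕ, (∀ i, M1 i ≤ N) ∧ E ≤ N ∧ 0 < N := by
    refine ⟨∑ i, M1 i + E + 1, fun i => ?_, by omega, by omega⟩
    have := Finset.single_le_sum (f := M1) (fun _ _ => Nat.zero_le _) (Finset.mem_univ i)
    omega
  obtain ⟨η, hηdef⟩ : ∃ η, η = etaF a N := ⟨_, rfl⟩
  have hη0 : η ≠ 0 := by rw [hηdef]; exact etaF_ne a N
  choose R hRc hRθ using fun i => hM1 i N N (hN i) (hN i) η hη0
    (by rw [hηdef]; exact eta_mul_mem a ha N i)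
    ⟨_, polR_mem_regFin _ _, by rw [hηdef]; exact eta_inv a N i⟩
  -- the Cousin problem
  choose cz hcz1 hcz2 hcz3 using fun g => cousin (Finset.univ.image a) (fun _ => 0) (-1)
    (by simp) g
  let gf : (Fin m × Fin n → PowerSeries (RatFunc (KU k' n))) → Fin n → ℕ → Option (KU k' n) →
      RatFunc (KU k' n) := fun δ j l =>
    gfun a (if l = 0 then polR (C (u j)) else 0)
      (fun i => PowerSeries.coeff l (R i (fun j' => δ (i, j')) j))
  have hgfs : ∀ δ j l i, gf δ j l (some (a i)) =
      PowerSeries.coeff l (R i (fun j' => δ (i, j')) j) := fun δ j l i => gfun_some ha _ _ i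
  let Nm : (Fin m × Fin n → PowerSeries (RatFunc (KU k' n))) →
      (Fin m × Fin n → PowerSeries (RatFunc (KU k' n))) := fun δ p =>
    PowerSeries.mk fun l => (cz (gf δ p.2 l) -
      PowerSeries.coeff l (R p.1 (fun j' => δ (p.1, j')) p.2)) * (η * unif (some (a p.1)) ^ E)⁻¹
  obtain ⟨δ, hδ⟩ := fixed_point Nm (by
    intro μ x y hxy p
    have hco : ∀ (l : ℕ), l < μ + 1 → ∀ i j, PowerSeries.coeff l (R i (fun j' => x (i, j')) j) =
        PowerSeries.coeff l (R i (fun j' => y (i, j')) j) := by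
      intro l hl i j
      have h1 := hRc i μ (fun j' => x (i, j')) (fun j' => y (i, j')) (fun j' => hxy (i, j')) j
      rw [PowerSeries.X_pow_dvd_iff] at h1
      have h2 := h1 l hl
      rw [map_sub, sub_eq_zero] at h2
      exact h2
    rw [PowerSeries.X_pow_dvd_iff]
    intro l hl
    have hg : gf x p.2 l = gf y p.2 l :=
      congrArg (gfun a (if l = 0 then polR (C (u p.2)) else 0)) (funext fun i => hco l hl i p.2)
    rw [map_sub, PowerSeries.coeff_mk, PowerSeries.coeff_mk, hg, hco l hl, sub_self])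
  have hδc : ∀ i j l, PowerSeries.coeff l (δ (i, j)) = (cz (gf δ j l) -
      PowerSeries.coeff l (R i (fun j' => δ (i, j')) j)) * (η * unif (some (a i)) ^ E)⁻¹ := by
    intro i j l
    exact (congrArg (PowerSeries.coeff l) (congrFun hδ (i, j))).symm.trans
      (PowerSeries.coeff_mk _ _)
  -- the solution is regular
  have hSmem : ∀ i, a i ∈ Finset.univ.image a := fun i =>
    Finset.mem_image_of_mem a (Finset.mem_univ i)
  have hϖ0 : ∀ i, unif (some (a i)) ≠ 0 := fun i => unif_ne_zero _
  have hinv : ∀ i, (η * unif (some (a i)) ^ E)⁻¹ ∈ regAt (some (a i)) := by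
    intro i
    have h1 : (η * unif (some (a i)) ^ E)⁻¹ = unif (some (a i)) ^ (N - E) *
        polR (∏ l ∈ Finset.univ.erase i, (X - C (a l)) ^ N) := by
      rw [mul_inv, hηdef, eta_inv a N i]
      have h2 : unif (some (a i)) ^ N = unif (some (a i)) ^ (N - E) * unif (some (a i)) ^ E := by
        rw [← pow_add]; congr 1; omega
      have h3 := pow_ne_zero E (hϖ0 i)
      rw [h2]
      field_simp
    rw [h1]
    exact (regAt _).mul_mem ((regAt _).pow_mem (Dunif_mem _) _) (polR_mem_regFin _ _)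
  have hreg : ∀ i j l, PowerSeries.coeff l (δ (i, j)) ∈ regAt (some (a i)) := by
    intro i j l
    rw [hδc]
    refine (regAt _).mul_mem ?_ (hinv i)
    have h1 := hcz2 (gf δ j l) (a i) (hSmem i)
    rw [hgfs, Nat.cast_zero, van_zero_iff] at h1
    exact h1
  choose θs hθ1 hθ2 hθ3 using fun i => hRθ i (fun j => δ (i, j)) (hreg i)
  let rr : Fin n → PowerSeries (RatFunc (KU k' n)) := fun j =>
    PowerSeries.X ^ N * PowerSeries.C (η * algebraMap k' (RatFunc (KU k' n)) (γ j)) +
      PowerSeries.X ^ (N + E) * PowerSeries.mk (fun l => cz (gf δ j l))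
  have hθ2' : ∀ i j, θs i (Wp.z j) = rr j := by
    intro i j
    rw [hθ2]
    congr 2
    ext l
    rw [map_add, PowerSeries.coeff_C_mul, PowerSeries.coeff_mk, hδc]
    have h3 := mul_ne_zero hη0 (pow_ne_zero E (hϖ0 i))
    rw [mul_comm (_ - _), ← mul_assoc, mul_inv_cancel₀ h3, one_mul, sub_add_cancel]
  obtain ⟨θ, hθeq⟩ : ∃ θ, ∀ i, θs i = θ := by
    refine ⟨θs ⟨0, hm⟩, fun i => ?_⟩
    apply etale_unique Wp.z Wp.et
    · intro x
      rw [hθ1, hθ1]
    · intro j
      rw [hθ2', hθ2']
  let i0 : Fin m := ⟨0, hm⟩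
  have hθc : ∀ x, PowerSeries.constantCoeff (θ x) = algebraMap k (RatFunc (KU k' n)) (p0 x) := by
    intro x
    rw [← hθeq i0, hθ1]
  have hθz : ∀ j, θ (Wp.z j) = rr j := by
    intro j
    rw [← hθeq i0, hθ2']
  -- regularity of the coefficients
  let L : Subalgebra k (RatFunc (KU k' n)) :=
    { carrier := {g | g ∈ regOff (Finset.univ.image a) ∧ g ∈ regAt none}
      mul_mem' := fun h h' => ⟨Subring.mul_mem _ h.1 h'.1, Subring.mul_mem _ h.2 h'.2⟩
      add_mem' := fun h h' => ⟨Subring.add_mem _ h.1 h'.1, Subring.add_mem _ h.2 h'.2⟩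
      algebraMap_mem' := fun c => by
        rw [Set.mem_ofPred_eq, algebraMap_ratFunc]
        exact ⟨polR_mem_regOff _ _, polR_C_mem none _⟩ }
  have hLmem : ∀ g, g ∈ L ↔ g ∈ regOff (Finset.univ.image a) ∧ g ∈ regAt none := fun _ => Iff.rfl
  have hconst : ∀ c : KU k' n, polR (C c) ∈ L := fun c =>
    ⟨polR_mem_regOff _ _, polR_C_mem none _⟩
  have hηL : η ∈ L := by
    rw [hηdef]
    exact ⟨etaF_mem_regOff a ha N, etaF_mem_regInf a N⟩
  have hgn : ∀ j l, gf δ j l none = if l = 0 then polR (C (u j)) else 0 := fun _ _ => rfl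
  have hczL : ∀ j l, cz (gf δ j l) ∈ L := by
    intro j l
    refine ⟨hcz1 _, ?_⟩
    have h1 := hcz3 (gf δ j l)
    rw [hgn] at h1
    have h2 : cz (gf δ j l) - (if l = 0 then polR (C (u j)) else 0) ∈ regAt none :=
      van_zero_iff.1 (h1.mono (by norm_num))
    have h3 : (if l = 0 then polR (C (u j)) else 0 : RatFunc (KU k' n)) ∈ regAt none := by
      split_ifs
      · exact polR_C_mem none _
      · exact Subring.zero_mem _
    have := Subring.add_mem _ h2 h3
    rwa [sub_add_cancel] at this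
  have hrrc : ∀ j l, PowerSeries.coeff l (rr j) =
      (if l = N then η * algebraMap k' (RatFunc (KU k' n)) (γ j) else 0) +
        (if N + E ≤ l then cz (gf δ j (l - (N + E))) else 0) := by
    intro j l
    rw [map_add, PowerSeries.coeff_X_pow_mul', PowerSeries.coeff_X_pow_mul', PowerSeries.coeff_C,
      PowerSeries.coeff_mk]
    congr 1
    split_ifs <;> first | rfl | omega
  have hrrL : ∀ j l, PowerSeries.coeff l (rr j) ∈ L := by
    intro j l
    rw [hrrc]
    refine L.add_mem ?_ ?_
    · split_ifs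
      · refine L.mul_mem hηL ?_
        rw [algebraMap_ratFunc]
        exact hconst _
      · exact L.zero_mem
    · split_ifs
      · exact hczL _ _
      · exact L.zero_mem
  have hθL : ∀ x l, PowerSeries.coeff l (θ x) ∈ L := by
    obtain ⟨φL, hφL0, hφL⟩ := etale_lift Wp.z Wp.et ((Algebra.ofId k L).comp p0)
      (fun j => PowerSeries.mk fun l => (⟨PowerSeries.coeff l (rr j), hrrL j l⟩ : L)) (by
        intro j
        rw [← PowerSeries.coeff_zero_eq_constantCoeff_apply, PowerSeries.coeff_mk,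
          AlgHom.comp_apply, hpz, map_zero]
        apply Subtype.ext
        change PowerSeries.coeff 0 (rr j) = 0
        rw [hrrc, if_neg (by omega), if_neg (by omega), add_zero])
    have h1 : (PowerSeries.mapAlgHom L.val).comp φL = θ := by
      apply etale_unique Wp.z Wp.et
      · intro x
        rw [hθc]
        change PowerSeries.constantCoeff (PowerSeries.map L.val.toRingHom (φL x)) = _
        rw [← PowerSeries.coeff_zero_eq_constantCoeff_apply, PowerSeries.coeff_map,
          PowerSeries.coeff_zero_eq_constantCoeff_apply, hφL0]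
        rfl
      · intro j
        rw [hθz]
        ext l
        change PowerSeries.coeff l (PowerSeries.map L.val.toRingHom (φL (Wp.z j))) = _
        rw [PowerSeries.coeff_map, hφL, PowerSeries.coeff_mk]
        rfl
    intro x l
    rw [← h1]
    change PowerSeries.coeff l (PowerSeries.map L.val.toRingHom (φL x)) ∈ L
    rw [PowerSeries.coeff_map]
    exact (PowerSeries.coeff l (φL x)).2
  have hser : ∀ x (O : Subring (RatFunc (KU k' n))), (∀ g ∈ L, g ∈ O) →
      LSer.ofPS (θ x) ∈ serSub O := by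
    intro x O hO i
    rw [LSer.coeff_ofPS]
    split_ifs
    · exact hO _ (hθL _ _)
    · exact O.zero_mem
  -- algebraization
  obtain ⟨Φ, hΦy, hΦw⟩ := alg_glue (Finset.univ.image a)
    (Wp.pt.map ((LSer.ofPSa k).comp θ)) Wp.toChart ((LSer.ofPSa k).comp θ) rfl
    (fun x => hser x _ fun g hg => hg.1) (by
      intro s' hs' q hq
      cases s' with
      | none =>
        refine ⟨Wp.toChart, (LSer.ofPSa k).comp θ, rfl, fun x =>
          ⟨⟨LSer.ofPS (θ x), hser x _ fun g hg => hg.2⟩, 1,
            fun h => hq.ne_top ((Ideal.eq_top_iff_one _).2 h), ?_⟩⟩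
        rw [OneMemClass.coe_one, mul_one]
        rfl
      | some c =>
        have hc := hs' c rfl
        obtain ⟨i, -, rfl⟩ := Finset.mem_image.1 hc
        have := (hθ3 i q hq).1
        rw [hθeq] at this
        exact this)
  refine ⟨Φ, fun i => ?_, ?_⟩
  · -- the value at `a i`
    obtain ⟨ρ, hρ1, hρ2⟩ := exists_residue (some (a i))
    have hO : ∀ c : KU k' n, polR (C c) ∈ regAt (some (a i)) := fun c =>
      polR_C_mem (some (a i)) c
    have hq : (RingHom.ker (serRho ρ)).IsPrime := RingHom.ker_isPrime _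
    have ht : serRho ρ (tElt (a i)) = 0 := by
      have h1 := serRho_C ρ ⟨unif (some (a i)), Dunif_mem _⟩
      exact h1.trans (by rw [n_res_unif ρ hρ2, map_zero])
    obtain ⟨W', φ, v0, e1, e2, e3⟩ := (hθ3 i _ hq).2 ht
    rw [hθeq] at e1
    have hyv : (yv : LSer (RatFunc (KU k' n))) ∈ serSub (regAt (some (a i))) :=
      C_mem_serSub (polR_mem_regFin _ _)
    have hX : ρ ⟨polR X, polR_mem_regFin _ _⟩ = a i := by
      apply n_res_eq ρ hρ1 hρ2
      have := Dvan_pow (some (a i)) 1
      rw [zpow_one] at this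
      change Van (some (a i)) 1 (polR (X - C (a i))) at this
      rwa [map_sub] at this
    have hc : serRho ρ ⟨yv, hyv⟩ = algebraMap k (LSer (KU k' n)) (s i) := by
      have h1 := serRho_C ρ ⟨polR X, polR_mem_regFin _ _⟩
      exact h1.trans (by rw [hX, LSer.algebraMap_eq])
    have key := n_at_core hO ρ hρ1 (embY k) (fun P => emb_mem hO hyv P) (evk (s i))
      (fun P => serRho_emb hO ρ hρ1 hyv (s i) hc P) Φ.y W' φ (hΦy.trans e1)
      ((Algebra.ofId k (LSer (KU k' n))).comp v0) (by
        intro x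
        obtain ⟨α, β, hβ, h⟩ := e3 x
        refine ⟨⟨algebraMap k _ (v0 x), algebraMap_mem_serSub hO _⟩ * β + tElt (a i) * α, β,
          fun h0 => hβ h0, ?_, ?_⟩
        · push_cast
          change _ = _ + LSer.C (unif (some (a i))) * _
          linear_combination h
        · rw [map_add, map_mul, map_mul, ht, zero_mul, add_zero, serRho_alg hO ρ hρ1]
          rfl)
    change Φ.y.map (evk (s i)) = _
    rw [key]
    unfold Pt.const
    rw [e2, Pt.map_map]
  · -- the value at infinity
    obtain ⟨ρ, hρ1, hρ2⟩ := exists_residue (none : Option (KU k' n))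
    have hO : ∀ c : KU k' n, polR (C c) ∈ regAt none := fun c => polR_C_mem none c
    have hθO : ∀ x, LSer.ofPS (θ x) ∈ serSub (regAt (none : Option (KU k' n))) := fun x =>
      hser x _ fun g hg => hg.2
    let ψ : Wp.B →ₐ[k] LSer (KU k' n) :=
      { (serRho ρ).comp ((LSer.ofPS.comp θ.toRingHom).codRestrict
          (serSub (regAt (none : Option (KU k' n)))) hθO) with
        commutes' := fun c => by
          change serRho ρ ⟨LSer.ofPS (θ (algebraMap k Wp.B c)), hθO _⟩ = _
          have h1 : (⟨LSer.ofPS (θ (algebraMap k Wp.B c)), hθO _⟩ :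
              serSub (regAt (none : Option (KU k' n)))) =
              ⟨algebraMap k _ c, algebraMap_mem_serSub hO c⟩ :=
            Subtype.ext (((LSer.ofPSa k).comp θ).commutes c)
          rw [h1, serRho_alg hO ρ hρ1] }
    have hyv : (LSer.C (polR X)⁻¹ : LSer (RatFunc (KU k' n))) ∈ serSub (regAt none) :=
      C_mem_serSub (Dunif_mem none)
    have hc : serRho ρ ⟨LSer.C (polR X)⁻¹, hyv⟩ = algebraMap k (LSer (KU k' n)) 0 := by
      have h1 := serRho_C ρ ⟨unif none, Dunif_mem none⟩
      exact h1.trans (by rw [n_res_unif ρ hρ2, map_zero, map_zero])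
    have key := n_at_core hO ρ hρ1 (embW k) (fun P => emb_mem hO hyv P) (evk 0)
      (fun P => serRho_emb hO ρ hρ1 hyv 0 hc P) Φ.w Wp.toChart ((LSer.ofPSa k).comp θ) hΦw
      ψ (fun x => ⟨⟨LSer.ofPS (θ x), hθO x⟩, 1, by rw [map_one]; exact one_ne_zero, by
        rw [OneMemClass.coe_one, mul_one]; rfl, by rw [map_one, mul_one]; rfl⟩)
    refine ⟨ψ, N + E, key, fun j => ?_⟩
    ext l
    change (serRho ρ ⟨LSer.ofPS (θ (Wp.z j)), hθO _⟩).coeff l = _
    rw [coeff_serRho, LSer.coeff_T_mul]
    change _ = (LSer.C (u j)).coeff _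
    rw [LSer.coeff_C]
    apply n_res_eq ρ hρ1 hρ2
    change Van none 1 ((LSer.ofPS (θ (Wp.z j))).coeff l - _)
    rw [LSer.coeff_ofPS, hθz]
    have hv0 : Van none 1 (0 : RatFunc (KU k' n)) := by
      change (0 : RatFunc (KU k' n)) * _ ∈ _
      rw [zero_mul]; exact Subring.zero_mem _
    by_cases hl : 0 ≤ l
    · obtain ⟨l', rfl⟩ := Int.eq_ofNat_of_zero_le hl
      rw [if_pos hl, Int.toNat_natCast, hrrc, add_sub_assoc]
      refine Van.add ?_ ?_
      · split_ifs
        · rw [hηdef, mul_comm]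
          refine Dvan_mul_reg (etaF_van a N hm hN0) ?_
          rw [algebraMap_ratFunc]
          exact hO _
        · exact hv0
      · by_cases h1 : N + E ≤ l'
        · rw [if_pos h1]
          have h2 := hcz3 (gf δ j (l' - (N + E)))
          rw [hgn] at h2
          by_cases h3 : l' - (N + E) = 0
          · rw [if_pos h3] at h2
            rw [if_pos (by push_cast; omega)]
            exact h2.mono (by norm_num)
          · rw [if_neg h3] at h2
            rw [if_neg (by push_cast; omega), C_0, map_zero]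
            exact h2.mono (by norm_num)
        · rw [if_neg h1, if_neg (by push_cast; omega), C_0, map_zero, sub_zero]
          exact hv0
    · rw [if_neg hl, if_neg (by push_cast; omega), C_0, map_zero, sub_zero]
      exact hv0

end Pool.Agent.H19VF

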