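import Pool.Agent.H19VF.Fam
import Pool.Agent.H19VF.C_Lift
import Pool.Agent.H19VF.F_Pt
import Pool.Agent.H19VF.F_Chart

/-! # Task O: specialization (section 6 of the paper) -/

set_option autoImplicit false

open AlgebraicGeometry CategoryTheory Polynomial

universe u

namespace Pool.Agent.H19VF

namespace TaskO

/-- Nullstellensatz: a nonzero function does not vanish at some point. -/
theorem exists_point {k A : Type u} [Field k] [IsAlgClosed k] [CommRing A] [IsDomain A]
    [Algebra k A] [Algebra.FiniteType k A] (g : A) (hg : g ≠ 0) : ∃ a : A →ₐ[k] k, a g ≠ 0 := by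
  let B := Localization.Away g
  have hinj : Function.Injective (algebraMap A B) :=
    IsLocalization.injective B (powers_le_nonZeroDivisors_of_noZeroDivisors hg)
  have hnt : Nontrivial B := hinj.nontrivial
  have hft : Algebra.FiniteType A B := IsLocalization.finiteType_of_monoid_fg (Submonoid.powers g) B
  have hft' : Algebra.FiniteType k B := Algebra.FiniteType.trans (S := A) inferInstance hft
  obtain ⟨m, hm⟩ := Ideal.exists_maximal B
  let := Ideal.Quotient.field m
  have hfin := finite_of_finite_type_of_isJacobsonRing k (B ⧸ m)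
  have hint : Algebra.IsIntegral k (B ⧸ m) := Algebra.IsIntegral.of_finite k (B ⧸ m)
  have hbij : Function.Bijective (algebraMap k (B ⧸ m)) :=
    IsAlgClosed.algebraMap_bijective_of_isIntegral
  let e : k ≃ₐ[k] (B ⧸ m) := AlgEquiv.ofBijective (Algebra.ofId k (B ⧸ m)) hbij
  refine ⟨(e.symm : (B ⧸ m) →ₐ[k] k).comp ((Ideal.Quotient.mkₐ k m).comp
    (IsScalarTower.toAlgHom k A B)), ?_⟩
  have hu : IsUnit (algebraMap A B g) := IsLocalization.Away.algebraMap_isUnit g
  have hu2 := hu.map ((e.symm : (B ⧸ m) →ₐ[k] k).comp (Ideal.Quotient.mkₐ k m))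
  exact hu2.ne_zero

/-- Clearing the denominator of a derivation. -/
theorem der_descend {k A L : Type u} [Field k] [CommRing A] [CommRing L] [Algebra k A]
    [Algebra k L] [Algebra A L] [IsScalarTower k A L]
    (hinj : Function.Injective (algebraMap A L)) (g : A) (D : Derivation k A L)
    (h : ∀ x, ∃ y, algebraMap A L y = algebraMap A L g * D x) :
    ∃ E : Derivation k A A, ∀ x, algebraMap A L (E x) = algebraMap A L g * D x := by
  choose E0 hE0 using h
  have hadd : ∀ x y, E0 (x + y) = E0 x + E0 y := fun x y => hinj (by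
    rw [map_add, hE0, hE0, hE0, map_add, mul_add])
  have hsmul : ∀ (r : k) x, E0 (r • x) = r • E0 x := fun r x => hinj (by
    rw [hE0, Derivation.map_smul, Algebra.smul_def, Algebra.smul_def,
      map_mul, hE0, IsScalarTower.algebraMap_apply k A L]
    ring)
  have hmul : ∀ x y, E0 (x * y) = x • E0 y + y • E0 x := fun x y => hinj (by
    rw [hE0, Derivation.leibniz, smul_eq_mul, smul_eq_mul, map_add, map_mul, map_mul, hE0, hE0,
      Algebra.smul_def, Algebra.smul_def]
    ring)
  exact ⟨Derivation.mk' ⟨⟨E0, hadd⟩, hsmul⟩ hmul, hE0⟩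

/-- A derivation which maps generators to fractions with denominator `g` does so everywhere. -/
theorem der_range {k A L : Type u} [Field k] [CommRing A] [CommRing L] [Algebra k A]
    [Algebra k L] [Algebra A L] [IsScalarTower k A L] (g : A) (D : Derivation k A L)
    (t : Set A) (ht : Algebra.adjoin k t = ⊤)
    (h : ∀ x ∈ t, ∃ y, algebraMap A L y = algebraMap A L g * D x) (x : A) :
    ∃ y, algebraMap A L y = algebraMap A L g * D x := by
  have hx : x ∈ Algebra.adjoin k t := by rw [ht]; exact Algebra.mem_top
  induction hx using Algebra.adjoin_induction with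
  | mem x hxt => exact h x hxt
  | algebraMap r =>
    exact ⟨0, by rw [Derivation.map_algebraMap, mul_zero, map_zero]⟩
  | add a b _ _ iha ihb =>
    obtain ⟨y, hy⟩ := iha
    obtain ⟨z, hz⟩ := ihb
    exact ⟨y + z, by rw [map_add, map_add, hy, hz, mul_add]⟩
  | mul a b _ _ iha ihb =>
    obtain ⟨y, hy⟩ := iha
    obtain ⟨z, hz⟩ := ihb
    refine ⟨a * z + b * y, ?_⟩
    rw [Derivation.leibniz, map_add, map_mul, map_mul, hy, hz, Algebra.smul_def,
      Algebra.smul_def]
    ring

/-- The case of an abstract fraction field. -/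
theorem exists_der_aux {k A L K : Type u} [Field k] [CommRing A] [IsDomain A] [Field L] [Field K]
    [Algebra k A] [Algebra k L] [Algebra k K] [Algebra A L] [Algebra A K] [Algebra L K]
    [IsScalarTower k A L] [IsScalarTower k A K] [IsScalarTower A L K] [IsFractionRing A L]
    (t : Finset A) (ht : Algebra.adjoin k (t : Set A) = ⊤) {ι : Type} [Finite ι]
    (D : ι → Derivation k K K) :
    ∃ g : A, g ≠ 0 ∧ ∃ E : ι → Derivation k A A, ∀ i (x y : A),
      D i (algebraMap A K x) = algebraMap A K y → E i x = g * y := by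
  classical
  have hLinj : Function.Injective (algebraMap A L) := IsFractionRing.injective A L
  obtain ⟨p, hp⟩ := LinearMap.exists_leftInverse_of_injective (Algebra.linearMap L K)
    (LinearMap.ker_eq_bot.2 (algebraMap L K).injective)
  have hp' : ∀ x : L, p (algebraMap L K x) = x := fun x => congrArg (fun f => f x) hp
  let D1 : ι → Derivation k A L := fun i =>
    (p.restrictScalars A).compDer ((D i).compAlgebraMap A)
  have hD1 : ∀ i x, D1 i x = p (D i (algebraMap A K x)) := fun i x => rfl
  clear_value D1
  have hfin : (Set.range fun q : ι × t => D1 q.1 (q.2 : A)).Finite := Set.finite_range _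
  obtain ⟨g, hg⟩ := IsLocalization.exist_integer_multiples_of_finset (nonZeroDivisors A)
    (hfin.toFinset)
  have hgt : ∀ i, ∀ x ∈ (t : Set A), ∃ y : A, algebraMap A L y = algebraMap A L g * D1 i x := by
    intro i x hx
    obtain ⟨y, hy⟩ := hg (D1 i x) (by
      rw [Set.Finite.mem_toFinset]
      exact ⟨(i, ⟨x, hx⟩), rfl⟩)
    exact ⟨y, by rw [hy, Algebra.smul_def]⟩
  choose E hE using fun i => der_descend hLinj (g : A) (D1 i) (der_range (g : A) (D1 i) t ht (hgt i))
  refine ⟨g, nonZeroDivisors.ne_zero g.2, E, fun i x y hxy => hLinj ?_⟩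
  have h2 : D i (algebraMap A K x) = algebraMap L K (algebraMap A L y) :=
    hxy.trans (IsScalarTower.algebraMap_apply A L K y)
  rw [hE, hD1, h2, hp', map_mul]

/-- Derivations of a field induce derivations of a finitely generated subalgebra, up to a common
denominator. -/
theorem exists_der {k K : Type u} [Field k] [Field K] [Algebra k K] (A : Subalgebra k K)
    (hA : A.FG) {ι : Type} [Finite ι] (D : ι → Derivation k K K) :
    ∃ g : A, g ≠ 0 ∧ ∃ E : ι → Derivation k A A, ∀ i (x y : A), D i x = y → E i x = g * y := by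
  have hinjA : Function.Injective (algebraMap A K) := Subtype.val_injective
  let : Algebra (FractionRing A) K :=
    (IsFractionRing.lift (K := FractionRing A) (g := algebraMap A K) hinjA).toAlgebra
  have htower : IsScalarTower A (FractionRing A) K := IsScalarTower.of_algebraMap_eq fun x =>
    (IsFractionRing.lift_algebraMap (K := FractionRing A) hinjA x).symm
  obtain ⟨t, ht⟩ := ((Subalgebra.fg_top A).2 hA)
  exact exists_der_aux (L := FractionRing A) t ht D

/-- The homomorphism to the dual numbers defined by a derivation along a point. -/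
theorem exists_dual {k A : Type u} [Field k] [CommRing A] [Algebra k A] (a : A →ₐ[k] k)
    (d : A →ₗ[k] k) (hd : ∀ x y, d (x * y) = a x * d y + a y * d x) :
    ∃ δ : A →ₐ[k] DualNumber k, (∀ x, (δ x).fst = a x) ∧ ∀ x, (δ x).snd = d x := by
  have h1 : d 1 = 0 := by
    have := hd 1 1
    simp only [mul_one, map_one a, one_mul] at this
    simpa using this
  refine ⟨AlgHom.ofLinearMap
    { toFun := fun x => TrivSqZeroExt.inl (a x) + TrivSqZeroExt.inr (d x)
      map_add' := fun x y => ?_
      map_smul' := fun r x => ?_ } ?_ ?_, fun x => ?_, fun x => ?_⟩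
  · ext <;> simp
  · ext <;> simp
  · ext <;> simp [h1]
  · intro x y
    ext
    · simp
    · simp [hd, mul_comm]
  · simp
  · simp

end TaskO

variable {k : Type u} [Field k] {V : Scheme.{u}} {π : V ⟶ Spec (.of k)}

theorem TaskO.at_map {R R' : Type u} [CommRing R] [Algebra k R] [CommRing R'] [Algebra k R']
    (F : Crv π R) (φ : R →ₐ[k] R') (s : Option k) : (F.map φ).at s = (F.at s).map φ := by
  have key : ∀ a : k, (evk (R := R') a).comp (pmap φ) = φ.comp (evk a) := by
    intro a
    apply AlgHom.coe_ringHom_injective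
    apply Polynomial.ringHom_ext
    · intro x
      change Polynomial.aeval _ (Polynomial.map _ (C x)) = φ (Polynomial.aeval _ (C x))
      rw [Polynomial.map_C, Polynomial.aeval_C, Polynomial.aeval_C]
      rfl
    · change Polynomial.aeval _ (Polynomial.map _ X) = φ (Polynomial.aeval _ X)
      rw [Polynomial.map_X, Polynomial.aeval_X, Polynomial.aeval_X, AlgHom.commutes]
  cases s with
  | none =>
    change (F.w.map (pmap φ)).map (evk 0) = (F.w.map (evk 0)).map φ
    rw [Pt.map_map, Pt.map_map, key]
  | some a =>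
    change (F.y.map (pmap φ)).map (evk a) = (F.y.map (evk a)).map φ
    rw [Pt.map_map, Pt.map_map, key]

theorem TaskO.map_map {R R' R'' : Type u} [CommRing R] [Algebra k R] [CommRing R'] [Algebra k R']
    [CommRing R''] [Algebra k R''] (F : Crv π R) (φ : R →ₐ[k] R') (ψ : R' →ₐ[k] R'') :
    (F.map φ).map ψ = F.map (ψ.comp φ) := by
  have key : (pmap ψ).comp (pmap φ) = pmap (ψ.comp φ) := by
    apply AlgHom.coe_ringHom_injective
    apply Polynomial.ringHom_ext
    · intro x
      change Polynomial.map _ (Polynomial.map _ (C x)) = Polynomial.map _ (C x)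
      rw [Polynomial.map_C, Polynomial.map_C, Polynomial.map_C]
      rfl
    · change Polynomial.map _ (Polynomial.map _ X) = Polynomial.map _ X
      rw [Polynomial.map_X, Polynomial.map_X, Polynomial.map_X]
  apply Crv.ext
  · change (F.y.map (pmap φ)).map (pmap ψ) = F.y.map _
    rw [Pt.map_map, key]
  · change (F.w.map (pmap φ)).map (pmap ψ) = F.w.map _
    rw [Pt.map_map, key]

theorem TaskO.const_map {R R' : Type u} [CommRing R] [Algebra k R] [CommRing R'] [Algebra k R']
    (v : Pt π k) (φ : R →ₐ[k] R') : (v.const : Pt π R).map φ = v.const := by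
  rw [Pt.const, Pt.const, Pt.map_map]
  congr 1
  exact Subsingleton.elim _ _

theorem TaskO.const_k (v : Pt π k) : (v.const : Pt π k) = v := by
  rw [Pt.const]
  have : Algebra.ofId k k = AlgHom.id k k := Subsingleton.elim _ _
  rw [this, Pt.map_id]

/-- A curve `Φ` over a field `K` through the `k`-points `v i` at the parameters `s i`, whose value at
infinity is generic in the sense that there are `k`-derivations of `K` with invertible matrix on the
coordinates of this value, specializes to a curve over `k` through the points `v i`, with first order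
deformations which fix the points `v i` and realize every tangent vector at infinity. -/
theorem specialize [IsAlgClosed k] {n : ℕ} [SmoothOfRelativeDimension n π] [IsSeparated π]
    {K : Type u} [Field K] [Algebra k K] (Φ : Crv π K) {m : ℕ} (s : Fin m → k) (v : Fin m → Pt π k)
    (hv : ∀ i, Φ.at (some (s i)) = (v i).const) (W : EChart π n) (φ : W.B →ₐ[k] K)
    (h : Φ.at none = W.pt.map φ) (Dv : Fin n → Derivation k K K)
    (hdet : (Matrix.of fun a j => Dv a (φ (W.z j))).det ≠ 0) :
    ∃ f : Crv π k, (∀ i, f.at (some (s i)) = v i) ∧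
      ∀ τ : Pt π (DualNumber k), τ.map (dfst k k) = f.at none →
        ∃ G : Crv π (DualNumber k), G.map (dfst k k) = f ∧ G.at none = τ ∧
          ∀ i, G.at (some (s i)) = (v i).const := by
  classical
  have hsm : Smooth π := SmoothOfRelativeDimension.smooth n π
  -- a finitely generated subalgebra
  obtain ⟨t, ht⟩ := (Chart.finiteType W.toChart).1
  obtain ⟨A, hA, hT, ΦA, hΦA⟩ := Crv.descend Φ (t.image φ)
  have hφA : ∀ b, φ b ∈ A := by
    intro b
    have h1 : (Algebra.adjoin k (t : Set W.B)).map φ ≤ A := by
      rw [AlgHom.map_adjoin, Algebra.adjoin_le_iff]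
      rintro _ ⟨x, hx, rfl⟩
      exact hT _ (Finset.mem_image_of_mem _ hx)
    exact h1 ⟨b, by rw [ht]; exact Algebra.mem_top, rfl⟩
  let φA : W.B →ₐ[k] A := φ.codRestrict A hφA
  have hφA' : A.val.comp φA = φ := AlgHom.ext fun b => rfl
  have hinf : ΦA.at none = W.pt.map φA := by
    apply Pt.map_injective A.val Subtype.val_injective
    rw [← TaskO.at_map, hΦA, h, Pt.map_map, hφA']
  have hsi : ∀ i, ΦA.at (some (s i)) = (v i).const := by
    intro i
    apply Pt.map_injective A.val Subtype.val_injective
    rw [← TaskO.at_map, hΦA, hv, TaskO.const_map]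
  -- derivations dual to the coordinates
  let M : Matrix (Fin n) (Fin n) K := Matrix.of fun a j => Dv a (φ (W.z j))
  have hM : M⁻¹ * M = 1 := Matrix.nonsing_inv_mul M (isUnit_iff_ne_zero.2 hdet)
  let D' : Fin n → Derivation k K K := fun i => ∑ a, M⁻¹ i a • Dv a
  have hD' : ∀ i j, D' i (φ (W.z j)) = if i = j then 1 else 0 := by
    intro i j
    have h1 := congrFun (congrFun hM i) j
    rw [Matrix.mul_apply, Matrix.one_apply] at h1
    rw [← h1]
    have h2 : ((∑ a, M⁻¹ i a • Dv a : Derivation k K K) : K → K) =
        ∑ a, ((M⁻¹ i a • Dv a : Derivation k K K) : K → K) :=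
      map_sum (Derivation.coeFnAddMonoidHom (R := k) (A := K) (M := K)) _ _
    change (∑ a, M⁻¹ i a • Dv a : Derivation k K K) (φ (W.z j)) = _
    rw [h2, Finset.sum_apply]
    rfl
  obtain ⟨g, hg, E, hE⟩ := TaskO.exists_der A hA D'
  have hE' : ∀ i j, E i (φA (W.z j)) = if i = j then g else 0 := by
    intro i j
    rw [hE i (φA (W.z j)) (if i = j then 1 else 0) ?_]
    · split_ifs <;> simp
    · change D' i (φ (W.z j)) = _
      rw [hD']
      split_ifs <;> rfl
  have hft : Algebra.FiniteType k A := (Subalgebra.fg_iff_finiteType A).1 hA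
  obtain ⟨a, ha⟩ := TaskO.exists_point (k := k) g hg
  refine ⟨ΦA.map a, fun i => ?_, fun τ hτ => ?_⟩
  · rw [TaskO.at_map, hsi, TaskO.const_map, TaskO.const_k]
  · rw [TaskO.at_map, hinf, Pt.map_map] at hτ
    obtain ⟨ψ, hψ1, hψ2⟩ := Chart.factor_local W.toChart (dfst k k)
      ⟨fun x hx => TrivSqZeroExt.isUnit_iff_isUnit_fst.2 hx⟩ τ (a.comp φA) hτ
    let d : A →ₗ[k] k := ∑ i, ((ψ (W.z i)).snd / a g) • (a.toLinearMap ∘ₗ (E i : A →ₗ[k] A))
    have hdx : ∀ x, d x = ∑ i, ((ψ (W.z i)).snd / a g) * a (E i x) := by
      intro x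
      simp only [d, LinearMap.sum_apply]
      rfl
    obtain ⟨δ, hδ1, hδ2⟩ := TaskO.exists_dual a d (by
      intro x y
      rw [hdx, hdx, hdx, Finset.mul_sum, Finset.mul_sum, ← Finset.sum_add_distrib]
      refine Finset.sum_congr rfl fun i _ => ?_
      rw [Derivation.leibniz, map_add, smul_eq_mul, smul_eq_mul, map_mul, map_mul]
      ring)
    have hδa : (dfst k k).comp δ = a := AlgHom.ext hδ1
    have hδψ : δ.comp φA = ψ := by
      obtain ⟨χ, -, huniq⟩ := etale_dual W.z W.et (a.comp φA) (fun j => (ψ (W.z j)).snd)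
      have e1 := huniq (δ.comp φA) ⟨fun b => hδ1 _, fun j => by
        change (δ (φA (W.z j))).snd = _
        rw [hδ2, hdx]
        rw [Finset.sum_eq_single j]
        · rw [hE', if_pos rfl, div_mul_cancel₀ _ ha]
        · intro i _ hij
          rw [hE', if_neg hij, map_zero, mul_zero]
        · intro hj; exact absurd (Finset.mem_univ j) hj⟩
      have e2 := huniq ψ ⟨fun b => by
        have := congrArg (fun f => f b) hψ2
        exact this, fun j => rfl⟩
      rw [e1, e2]
    refine ⟨ΦA.map δ, ?_, ?_, fun i => ?_⟩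
    · rw [TaskO.map_map, hδa]
    · rw [TaskO.at_map, hinf, Pt.map_map, hδψ, ← hψ1]
    · rw [TaskO.at_map, hsi, TaskO.const_map]

end Pool.Agent.H19VF
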