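import Pool.Agent.H19VF.J_Fam
import Pool.Agent.H19VF.J1_Loc
import Pool.Agent.H19VF.K2_Pkg
import Pool.Agent.H19VF.N_Patch
import Pool.Agent.H19VF.O_Spec

/-! # Task P: Theorem A of the paper -/

set_option autoImplicit false

open AlgebraicGeometry CategoryTheory Polynomial

universe u

namespace Pool.Agent.H19VF

variable {k : Type u} [Field k] {V : Scheme.{u}} {π : V ⟶ Spec (.of k)}

/-- Interchanging the two charts of the projective line, `y ↦ 1 / y`. -/
noncomputable def Crv.swap {R : Type u} [CommRing R] [Algebra k R] (F : Crv π R) : Crv π R where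
  y := F.w
  w := F.y
  glue := by
    have h1 : lauY k R =
        ((LaurentPolynomial.invert (R := R)).toAlgHom.restrictScalars k).comp (lauW k R) := by
      apply J1ext
      · intro a
        rw [AlgHom.comp_apply, J1lauY_C, J1lauW_C]
        exact (LaurentPolynomial.invert_C a).symm
      · rw [AlgHom.comp_apply, J1lauY_X, J1lauW_X]
        exact (LaurentPolynomial.invert_T (R := R) (-1)).symm
    have h2 : ((LaurentPolynomial.invert (R := R)).toAlgHom.restrictScalars k).comp (lauY k R) =
        lauW k R := by
      apply J1ext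
      · intro a
        rw [AlgHom.comp_apply, J1lauY_C, J1lauW_C]
        exact LaurentPolynomial.invert_C a
      · rw [AlgHom.comp_apply, J1lauY_X, J1lauW_X]
        exact LaurentPolynomial.invert_T (R := R) 1
    rw [h1, ← Pt.map_map, ← F.glue, Pt.map_map, h2]

theorem Crv.swap_map {R R' : Type u} [CommRing R] [Algebra k R] [CommRing R'] [Algebra k R']
    (F : Crv π R) (φ : R →ₐ[k] R') : (F.map φ).swap = F.swap.map φ := rfl

theorem Crv.swap_at_none {R : Type u} [CommRing R] [Algebra k R] (F : Crv π R) :
    F.swap.at none = F.at (some 0) := rfl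

theorem Crv.swap_at_zero {R : Type u} [CommRing R] [Algebra k R] (F : Crv π R) :
    F.swap.at (some 0) = F.at none := rfl

theorem Crv.swap_at_some {R : Type u} [CommRing R] [Algebra k R] (F : Crv π R) (a : k)
    (ha : a ≠ 0) : F.swap.at (some a) = F.at (some a⁻¹) := by
  let x : Rˣ := Units.map (algebraMap k R).toMonoidHom (Units.mk0 a ha)⁻¹
  let ev : LaurentPolynomial R →ₐ[k] R :=
    { LaurentPolynomial.eval₂ (RingHom.id R) x with
      commutes' := fun r => by
        change LaurentPolynomial.eval₂ (RingHom.id R) x (algebraMap k (LaurentPolynomial R) r) = _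
        have h1 : algebraMap k (LaurentPolynomial R) r =
            LaurentPolynomial.C (algebraMap k R r) := rfl
        rw [h1, LaurentPolynomial.eval₂_C]
        rfl }
  have h1 : ev.comp (lauW k R) = evk a := by
    apply J1ext
    · intro b
      rw [AlgHom.comp_apply, J1lauW_C, J1evk_C]
      exact LaurentPolynomial.eval₂_C _ _ b
    · rw [AlgHom.comp_apply, J1lauW_X, J1evk_X]
      refine (LaurentPolynomial.eval₂_T _ _ (-1)).trans ?_
      rw [zpow_neg, zpow_one]
      simp [x]
  have h2 : ev.comp (lauY k R) = evk a⁻¹ := by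
    apply J1ext
    · intro b
      rw [AlgHom.comp_apply, J1lauY_C, J1evk_C]
      exact LaurentPolynomial.eval₂_C _ _ b
    · rw [AlgHom.comp_apply, J1lauY_X, J1evk_X]
      refine (LaurentPolynomial.eval₂_T _ _ 1).trans ?_
      rw [zpow_one]
      simp [x]
  change F.w.map (evk a) = F.y.map (evk a⁻¹)
  rw [← h1, ← h2, ← Pt.map_map, ← Pt.map_map, F.glue]

/-- The partial derivatives of the rational function field, `k`-linear. -/
theorem Pexists_der (k k' : Type u) [Field k] [Field k'] [Algebra k k'] (n : ℕ) (i : Fin n) :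
    ∃ D : Derivation k (KU k' n) (KU k' n), ∀ p : MvPolynomial (Fin n) k',
      D (algebraMap _ _ p) = algebraMap _ _ (MvPolynomial.pderiv i p) := by
  let S := MvPolynomial (Fin n) k'
  let T := KU k' n
  have : Algebra.FormallyEtale S T := Algebra.FormallyEtale.of_isLocalization (nonZeroDivisors S)
  let d : Derivation k S T := (Algebra.linearMap S T).compDer
    ((MvPolynomial.pderiv (R := k') i).restrictScalars k)
  let L : TensorProduct S T (Ω[S⁄k]) →ₗ[T] T := LinearMap.liftBaseChange T d.liftKaehlerDifferential
  refine ⟨(L.comp (KaehlerDifferential.tensorKaehlerEquivOfFormallyEtale k S T).symm.toLinearMap).compDer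
    (KaehlerDifferential.D k T), ?_⟩
  intro p
  change L ((KaehlerDifferential.tensorKaehlerEquivOfFormallyEtale k S T).symm
    (KaehlerDifferential.D k T (algebraMap S T p))) = _
  rw [KaehlerDifferential.tensorKaehlerEquivOfFormallyEtale_symm_D_algebraMap]
  change LinearMap.liftBaseChange T d.liftKaehlerDifferential _ = _
  rw [LinearMap.liftBaseChange_tmul, one_smul, Derivation.liftKaehlerDifferential_comp_D]
  rfl

/-- Infinitely many algebraically independent elements. -/
theorem Pexists_ext (k : Type u) [Field k] (n : ℕ) :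
    ∃ (k' : Type u) (_ : Field k') (_ : Algebra k k') (_ : IsAlgClosed k') (γ : Fin n → k')
      (ω : ℕ → k'), AlgebraicIndependent k (Sum.elim γ ω) := by
  let S := MvPolynomial (Fin n ⊕ ℕ) k
  let Q := FractionRing S
  let k' := AlgebraicClosure Q
  let _ : Algebra k k' := ((algebraMap Q k').comp ((algebraMap S Q).comp (algebraMap k S))).toAlgebra
  have hinj : Function.Injective ((algebraMap Q k').comp (algebraMap S Q)) :=
    (algebraMap Q k').injective.comp (IsFractionRing.injective S Q)
  refine ⟨k', inferInstance, inferInstance, inferInstance,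
    fun j => (algebraMap Q k').comp (algebraMap S Q) (MvPolynomial.X (Sum.inl j)),
    fun j => (algebraMap Q k').comp (algebraMap S Q) (MvPolynomial.X (Sum.inr j)), ?_⟩
  have h : (MvPolynomial.aeval (Sum.elim
      (fun j => (algebraMap Q k').comp (algebraMap S Q) (MvPolynomial.X (Sum.inl j)))
      (fun j => (algebraMap Q k').comp (algebraMap S Q) (MvPolynomial.X (Sum.inr j)))) :
      S →ₐ[k] k').toRingHom = (algebraMap Q k').comp (algebraMap S Q) := by
    apply MvPolynomial.ringHom_ext
    · intro r
      change MvPolynomial.aeval _ (MvPolynomial.C r) = _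
      rw [← MvPolynomial.algebraMap_eq, AlgHom.commutes]
      rfl
    · intro i
      change MvPolynomial.aeval _ (MvPolynomial.X i) = _
      rw [MvPolynomial.aeval_X]
      cases i <;> rfl
  change Function.Injective (MvPolynomial.aeval _ : S →ₐ[k] k')
  intro a b hab
  apply hinj
  rw [← h]
  exact hab

/-- Theorem A, in the form used for Theorem B: a first point is at infinity and the others are at
nonzero elements of `k`. -/
theorem theorem_A' [IsAlgClosed k] {n : ℕ} [SmoothOfRelativeDimension n π] [IsSeparated π]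
    [QuasiCompact π] [IsIntegral V] (F : Crv π k) (hF : IsVeryFree F) {m : ℕ}
    (v0 : Pt π k) (v : Fin m → Pt π k) :
    ∃ F' : Crv π k, IsVeryFree F' ∧ F'.at none = v0 ∧ ∃ s : Fin m → k, Function.Injective s ∧
      (∀ i, s i ≠ 0) ∧ ∀ i, F'.at (some (s i)) = v i := by
  classical
  have : Smooth π := SmoothOfRelativeDimension.smooth n π
  obtain ⟨fd⟩ := exists_fam (n := n) F hF
  obtain ⟨k', _, _, _, γ, ω, hγ⟩ := Pexists_ext k n
  have had : ∀ i : Fin (m + 1), Nonempty (ArcData fd.Wp fd.p0 k' γ
      ((Fin.cons v0 v : Fin (m + 1) → Pt π k) i)) :=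
    fun i => exists_arcData fd k' γ ω hγ _
  have : Infinite k := IsAlgClosed.instInfinite
  let e := Infinite.natEmbedding k
  let s' : Fin (m + 1) → k := fun i => e i - e 0
  have hs' : Function.Injective s' := by
    intro a b hab
    have h1 : e a = e b := sub_left_injective hab
    exact Fin.ext (e.injective h1)
  have hs0 : s' 0 = 0 := sub_self _
  obtain ⟨Φ, hΦ, φ, E, hφ, hz⟩ := patch fd.Wp fd.p0 fd.hpz k' γ s' hs'
    (Fin.cons v0 v : Fin (m + 1) → Pt π k) fun i => (had i).some
  choose D hD using Pexists_der k k' n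
  obtain ⟨f, hf, hτ⟩ := specialize Φ s' (Fin.cons v0 v : Fin (m + 1) → Pt π k) hΦ fd.Wp φ hφ
    (fun i => LSer.der (D i)) (by
      have h1 : (Matrix.of fun a j => LSer.der (D a) (φ (fd.Wp.z j))) =
          Matrix.diagonal fun _ : Fin n => (LSer.T E : LSer (KU k' n)) := by
        refine Matrix.ext fun a j => ?_
        rw [Matrix.of_apply, hz, Matrix.diagonal_apply]
        refine LSer.ext fun i => ?_
        rw [LSer.coeff_der, LSer.coeff_T_mul, LSer.coeff_C]
        by_cases hij : i - (E : ℤ) = 0
        · rw [if_pos hij, hD, MvPolynomial.pderiv_X, Pi.single_apply]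
          have hi : i = (E : ℤ) := by omega
          by_cases haj : a = j
          · subst haj
            rw [if_pos rfl, if_pos rfl, map_one, LSer.coeff_T, if_pos hi]
          · rw [if_neg (Ne.symm haj), if_neg haj, map_zero, LSer.coeff_zero]
        · rw [if_neg hij, map_zero]
          have hi : ¬ i = (E : ℤ) := by omega
          split_ifs
          · rw [LSer.coeff_T, if_neg hi]
          · rw [LSer.coeff_zero]
      rw [h1, Matrix.det_diagonal]
      exact Finset.prod_ne_zero_iff.2 fun _ _ => LSer.T_ne_zero _)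
  refine ⟨f.swap, ?_, ?_, fun i => (s' i.succ)⁻¹, ?_, ?_, ?_⟩
  · intro τ h
    obtain ⟨G, h1, h2, h3⟩ := hτ τ h
    refine ⟨G.swap, ?_, h2, ?_⟩
    · rw [← Crv.swap_map, h1]
    · rw [Crv.swap_at_none, Crv.swap_at_none]
      have h4 := h3 0
      have h5 := hf 0
      rw [hs0] at h4 h5
      rw [h4, h5]
      rfl
  · rw [Crv.swap_at_none]
    have h5 := hf 0
    rw [hs0] at h5
    exact h5
  · intro a b hab
    exact Fin.succ_injective _ (hs' (inv_injective hab))
  · intro i h0
    have h1 : s' i.succ = s' 0 := by
      rw [hs0]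
      exact inv_eq_zero.1 h0
    exact Fin.succ_ne_zero i (hs' h1)
  · intro i
    have h1 : s' i.succ ≠ 0 := by
      intro h1
      rw [← hs0] at h1
      exact Fin.succ_ne_zero i (hs' h1)
    rw [Crv.swap_at_some _ _ (inv_ne_zero h1), inv_inv]
    exact hf i.succ

/-- Theorem A: finitely many points lie on a very free curve. -/
theorem theorem_A [IsAlgClosed k] {n : ℕ} [SmoothOfRelativeDimension n π] [IsSeparated π]
    [QuasiCompact π] [IsIntegral V] (F : Crv π k) (hF : IsVeryFree F) {m : ℕ}
    (v : Fin m → Pt π k) :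
    ∃ F' : Crv π k, IsVeryFree F' ∧ ∃ s : Fin m → Option k, Function.Injective s ∧
      ∀ i, F'.at (s i) = v i := by
  obtain ⟨F', h1, _, s, h2, _, h3⟩ := theorem_A' (n := n) F hF (F.at none) v
  exact ⟨F', h1, fun i => some (s i), fun a b h => h2 (Option.some.inj h), h3⟩

end Pool.Agent.H19VF
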