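import Pool.Agent.H19VF.Ser

/-!
# Places of the projective line and Laurent series over the rational functions

Notation for the whole project: `κ` is a field, `RatFunc κ` is the field of rational functions in
the coordinate `y` of the projective line, `LSer (RatFunc κ)` the Laurent series in the formal
variable `t` (called `h` or `eps` in the paper) over it.
-/

set_option autoImplicit false

open Polynomial

universe u v

namespace Pool.Agent.H19VF

/-- All coefficients of the Laurent series lie in `O`. -/
def SerIn {A : Type u} [CommRing A] (O : Subring A) (f : LSer A) : Prop :=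
  ∀ n : ℤ, f.coeff n ∈ O

/-- The Laurent series whose coefficients lie in `O` form a subring. -/
noncomputable def serSub {A : Type u} [CommRing A] (O : Subring A) : Subring (LSer A) where
  carrier := {f | SerIn O f}
  mul_mem' := by
    intro f g hf hg n
    obtain ⟨a, ha⟩ := f.exists_ge
    obtain ⟨b, hb⟩ := g.exists_ge
    rw [LSer.coeff_mul ha hb]
    exact Subring.sum_mem _ fun i _ => Subring.mul_mem _ (hf _) (hg _)
  one_mem' := by
    intro n
    rw [LSer.coeff_one]
    split_ifs
    · exact Subring.one_mem _
    · exact Subring.zero_mem _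
  add_mem' := by
    intro a b ha hb n
    simpa using Subring.add_mem _ (ha n) (hb n)
  zero_mem' := by intro n; simp
  neg_mem' := by
    intro a ha n
    simpa using Subring.neg_mem _ (ha n)

lemma mem_serSub {A : Type u} [CommRing A] {O : Subring A} {f : LSer A} :
    f ∈ serSub O ↔ ∀ n : ℤ, f.coeff n ∈ O := Iff.rfl

section places

variable {κ : Type u} [Field κ]

/-- The polynomials as rational functions. -/
noncomputable abbrev polR : κ[X] →+* RatFunc κ := algebraMap κ[X] (RatFunc κ)

/-- The local uniformizer at the point `s` of the projective line: `y - a` at `a` and `1 / y` at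
infinity. -/
noncomputable def unif : Option κ → RatFunc κ
  | some a => polR (X - C a)
  | none => (polR X)⁻¹

lemma unif_ne_zero (s : Option κ) : unif s ≠ 0 := by
  have hinj := IsFractionRing.injective κ[X] (RatFunc κ)
  cases s with
  | none => exact inv_ne_zero ((map_ne_zero_iff _ hinj).2 X_ne_zero)
  | some a => exact (map_ne_zero_iff _ hinj).2 (X_sub_C_ne_zero a)

/-- The local ring of the projective line at the point `a` of the affine line. -/
noncomputable def regFin (a : κ) : Subring (RatFunc κ) where
  carrier := {g | ∃ p q : κ[X], q.eval a ≠ 0 ∧ g * polR q = polR p}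
  mul_mem' := by
    rintro g g' ⟨p, q, hq, h⟩ ⟨p', q', hq', h'⟩
    refine ⟨p * p', q * q', by rw [eval_mul]; exact mul_ne_zero hq hq', ?_⟩
    rw [map_mul, map_mul, ← h, ← h']; ring
  one_mem' := ⟨1, 1, by simp, by simp⟩
  add_mem' := by
    rintro g g' ⟨p, q, hq, h⟩ ⟨p', q', hq', h'⟩
    refine ⟨p * q' + p' * q, q * q', by rw [eval_mul]; exact mul_ne_zero hq hq', ?_⟩
    rw [map_mul, map_add, map_mul, map_mul, ← h, ← h']; ring
  zero_mem' := ⟨0, 1, by simp, by simp⟩
  neg_mem' := by
    rintro g ⟨p, q, hq, h⟩
    exact ⟨-p, q, hq, by rw [map_neg, ← h]; ring⟩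

/-- The local ring of the projective line at infinity. -/
noncomputable def regInf (κ : Type u) [Field κ] : Subring (RatFunc κ) where
  carrier := {g | ∃ p q : κ[X], q ≠ 0 ∧ p.natDegree ≤ q.natDegree ∧ g * polR q = polR p}
  mul_mem' := by
    rintro g g' ⟨p, q, hq, hd, h⟩ ⟨p', q', hq', hd', h'⟩
    refine ⟨p * p', q * q', mul_ne_zero hq hq', ?_, ?_⟩
    · rw [natDegree_mul hq hq']
      exact natDegree_mul_le.trans (add_le_add hd hd')
    · rw [map_mul, map_mul, ← h, ← h']; ring
  one_mem' := ⟨1, 1, one_ne_zero, le_refl _, by simp⟩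
  add_mem' := by
    rintro g g' ⟨p, q, hq, hd, h⟩ ⟨p', q', hq', hd', h'⟩
    refine ⟨p * q' + p' * q, q * q', mul_ne_zero hq hq', ?_, ?_⟩
    · rw [natDegree_mul hq hq']
      refine (natDegree_add_le _ _).trans (max_le ?_ ?_)
      · exact natDegree_mul_le.trans (by omega)
      · exact natDegree_mul_le.trans (by omega)
    · rw [map_mul, map_add, map_mul, map_mul, ← h, ← h']; ring
  zero_mem' := ⟨0, 1, one_ne_zero, by simp, by simp⟩
  neg_mem' := by
    rintro g ⟨p, q, hq, hd, h⟩
    exact ⟨-p, q, hq, by rwa [natDegree_neg], by rw [map_neg, ← h]; ring⟩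

/-- The local ring of the projective line at the point `s`; `none` is the point at infinity. -/
noncomputable def regAt : Option κ → Subring (RatFunc κ)
  | some a => regFin a
  | none => regInf κ

/-- The rational functions whose poles in the affine line lie in `S`. -/
noncomputable def regOff (S : Finset κ) : Subring (RatFunc κ) where
  carrier := {g | ∃ (p : κ[X]) (N : ℕ), g * polR (∏ s ∈ S, (X - C s)) ^ N = polR p}
  mul_mem' := by
    rintro g g' ⟨p, N, h⟩ ⟨p', N', h'⟩
    refine ⟨p * p', N + N', ?_⟩
    rw [map_mul, ← h, ← h']; ring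
  one_mem' := ⟨1, 0, by simp⟩
  add_mem' := by
    rintro g g' ⟨p, N, h⟩ ⟨p', N', h'⟩
    refine ⟨p * (∏ s ∈ S, (X - C s)) ^ N' + p' * (∏ s ∈ S, (X - C s)) ^ N, N + N', ?_⟩
    rw [map_add, map_mul, map_mul, ← h, ← h', map_pow, map_pow]; ring
  zero_mem' := ⟨0, 0, by simp⟩
  neg_mem' := by
    rintro g ⟨p, N, h⟩
    exact ⟨-p, N, by rw [map_neg, ← h]; ring⟩

/-- `g` vanishes to the order `m` at `s` (for negative `m`: `g` has a pole of order at most
`-m` at `s`). -/
def Van (s : Option κ) (m : ℤ) (g : RatFunc κ) : Prop := g * (unif s) ^ (-m) ∈ regAt s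

lemma polR_mem_regFin (a : κ) (p : κ[X]) : polR p ∈ regFin a :=
  ⟨p, 1, by simp, by simp⟩

lemma polR_mem_regOff (S : Finset κ) (p : κ[X]) : polR p ∈ regOff S :=
  ⟨p, 0, by simp⟩

lemma polR_C_mem (s : Option κ) (a : κ) : polR (C a) ∈ regAt s := by
  cases s with
  | none => exact ⟨C a, 1, one_ne_zero, by simp, by simp⟩
  | some b => exact polR_mem_regFin b _

variable (k : Type v) [CommRing k] [Algebra k κ]

/-- The embedding of the Laurent series over `κ` in the Laurent series over the rational
functions. -/
noncomputable def embC : LSer κ →ₐ[k] LSer (RatFunc κ) :=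
  LSer.map (IsScalarTower.toAlgHom k κ (RatFunc κ))

/-- The coordinate `y` in the Laurent series in `t` over the rational functions in `y`. -/
noncomputable def yv : LSer (RatFunc κ) := LSer.C (polR X)

/-- The embedding `K[y] → Ω` of the polynomials over `K = κ((t))` in the Laurent series in `t`
over the rational functions in `y`. -/
noncomputable def embY : (LSer κ)[X] →ₐ[k] LSer (RatFunc κ) where
  toRingHom := Polynomial.eval₂RingHom (embC (κ := κ) k).toRingHom (yv (κ := κ))
  commutes' r := by
    change Polynomial.eval₂ _ _ (algebraMap k (LSer κ)[X] r) = _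
    rw [Polynomial.algebraMap_apply, Polynomial.eval₂_C]
    exact (embC (κ := κ) k).commutes r

/-- The embedding `K[w] → Ω`, `w = 1 / y`. -/
noncomputable def embW : (LSer κ)[X] →ₐ[k] LSer (RatFunc κ) where
  toRingHom := Polynomial.eval₂RingHom (embC (κ := κ) k).toRingHom (LSer.C (polR X)⁻¹)
  commutes' r := by
    change Polynomial.eval₂ _ _ (algebraMap k (LSer κ)[X] r) = _
    rw [Polynomial.algebraMap_apply, Polynomial.eval₂_C]
    exact (embC (κ := κ) k).commutes r

@[simp] lemma embY_X : embY (κ := κ) k X = yv := Polynomial.eval₂_X _ _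
@[simp] lemma embY_C (a : LSer κ) : embY (κ := κ) k (C a) = embC k a := Polynomial.eval₂_C _ _
@[simp] lemma embW_X : embW (κ := κ) k X = LSer.C (polR X)⁻¹ := Polynomial.eval₂_X _ _
@[simp] lemma embW_C (a : LSer κ) : embW (κ := κ) k (C a) = embC k a := Polynomial.eval₂_C _ _

end places

end Pool.Agent.H19VF
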