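import Pool.Agent.H19VF.D_Cousin

/-! # Task Q1: Lemma 7.1 of the paper -/

set_option autoImplicit false

open Polynomial

universe u

namespace Pool.Agent.H19VF

/-- Power series over a subring as Laurent series with coefficients in the subring. -/
noncomputable def Q1ps {A : Type u} [CommRing A] (O : Subring A) : PowerSeries O →+* serSub O :=
  (LSer.ofPS.comp (PowerSeries.map O.subtype)).codRestrict (serSub O) (fun p n => by
    change (LSer.ofPS _).coeff n ∈ O
    rw [LSer.coeff_ofPS]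
    split_ifs
    · rw [PowerSeries.coeff_map]
      exact SetLike.coe_mem _
    · exact O.zero_mem)

lemma Q1ps_coe {A : Type u} [CommRing A] (O : Subring A) (p : PowerSeries O) :
    (Q1ps O p : LSer A) = LSer.ofPS (PowerSeries.map O.subtype p) := rfl

lemma Q1ps_X {A : Type u} [CommRing A] (O : Subring A) : IsUnit (Q1ps O PowerSeries.X) := by
  have h : LSer.T (-1) ∈ serSub O := by
    intro n
    rw [LSer.coeff_T]
    split_ifs
    · exact O.one_mem
    · exact O.zero_mem
  refine IsUnit.of_mul_eq_one ⟨LSer.T (-1), h⟩ (Subtype.ext ?_)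
  rw [Subring.coe_mul, Q1ps_coe, PowerSeries.map_X, LSer.ofPS_X]
  exact LSer.T_mul_T_neg 1

/-- The common core: the combination `g 0 * x 1 - g 1 * x 0` is `t` times a unit. -/
theorem Q1_core {κ : Type u} [Field κ] (s : Option κ) (q : Ideal (serSub (regAt s)))
    (hq : q ≠ ⊤) (x : Fin 2 → PowerSeries (RatFunc κ))
    (hx : ∀ j i, PowerSeries.coeff i (x j) ∈ regAt s)
    (hxq : ∀ j, ∃ y ∈ q, (y : LSer (RatFunc κ)) = LSer.ofPS (x j))
    (p : RatFunc κ) (g : Fin 2 → RatFunc κ) (hg : ∀ j, g j ∈ regAt s)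
    (h0 : ∀ j, PowerSeries.coeff 0 (x j) = p * g j) (D : κ) (hD : D ≠ 0)
    (h1 : Van s 1 (g 0 * PowerSeries.coeff 1 (x 1) - g 1 * PowerSeries.coeff 1 (x 0) -
      polR (C D))) : False := by
  classical
  set w1 : RatFunc κ := g 0 * PowerSeries.coeff 1 (x 1) - g 1 * PowerSeries.coeff 1 (x 0) with hw1
  have hw1m : w1 ∈ regAt s := (regAt s).sub_mem ((regAt s).mul_mem (hg 0) (hx 1 1))
    ((regAt s).mul_mem (hg 1) (hx 0 1))
  have hw1n : ¬ Van s 1 w1 := by
    intro h
    apply hD
    apply Dconst (s := s)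
    have := Dvan_sub h h1
    rwa [sub_sub_cancel] at this
  have hw10 : w1 ≠ 0 := by
    intro h
    apply hw1n
    rw [h]
    change 0 * _ ∈ regAt s
    rw [zero_mul]
    exact (regAt s).zero_mem
  have hu : IsUnit (⟨w1, hw1m⟩ : regAt s) := IsUnit.of_mul_eq_one ⟨w1⁻¹, regAt_inv hw1m hw1n⟩
    (Subtype.ext (mul_inv_cancel₀ hw10))
  let xs : Fin 2 → PowerSeries (regAt s) := fun j =>
    PowerSeries.mk fun i => ⟨PowerSeries.coeff i (x j), hx j i⟩
  let gs : Fin 2 → regAt s := fun j => ⟨g j, hg j⟩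
  have hxs : ∀ j, Q1ps (regAt s) (xs j) ∈ q := by
    intro j
    obtain ⟨y, hy, hyx⟩ := hxq j
    have : Q1ps (regAt s) (xs j) = y := by
      apply Subtype.ext
      rw [hyx, Q1ps_coe]
      congr 1
      ext i
      rw [PowerSeries.coeff_map, PowerSeries.coeff_mk]
      rfl
    rw [this]
    exact hy
  set w : PowerSeries (regAt s) := PowerSeries.C (gs 0) * xs 1 - PowerSeries.C (gs 1) * xs 0 with hw
  have hwq : Q1ps (regAt s) w ∈ q := by
    rw [hw, map_sub, map_mul, map_mul]
    exact q.sub_mem (q.mul_mem_left _ (hxs 1)) (q.mul_mem_left _ (hxs 0))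
  have hw0 : PowerSeries.constantCoeff w = 0 := by
    rw [hw, ← PowerSeries.coeff_zero_eq_constantCoeff_apply, map_sub, PowerSeries.coeff_C_mul,
      PowerSeries.coeff_C_mul, PowerSeries.coeff_mk, PowerSeries.coeff_mk]
    apply Subtype.ext
    change g 0 * PowerSeries.coeff 0 (x 1) - g 1 * PowerSeries.coeff 0 (x 0) = 0
    rw [h0, h0]
    ring
  obtain ⟨W, hW⟩ := PowerSeries.X_dvd_iff.2 hw0
  have hWu : IsUnit W := by
    rw [PowerSeries.isUnit_iff_constantCoeff]
    have : PowerSeries.constantCoeff W = ⟨w1, hw1m⟩ := by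
      have h2 : PowerSeries.coeff 1 w = PowerSeries.constantCoeff W := by
        rw [hW]
        have := PowerSeries.coeff_succ_X_mul 0 W
        rw [zero_add] at this
        rw [this, PowerSeries.coeff_zero_eq_constantCoeff_apply]
      rw [← h2, hw, map_sub, PowerSeries.coeff_C_mul,
        PowerSeries.coeff_C_mul, PowerSeries.coeff_mk, PowerSeries.coeff_mk]
      rfl
    rw [this]
    exact hu
  apply hq
  refine Ideal.eq_top_of_isUnit_mem q hwq ?_
  rw [hW, map_mul]
  exact (Q1ps_X _).mul (hWu.map _)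

/-- Lemma 7.1: `x 0, x 1` are power series in `t` over the local ring at `s`; the coefficients of `t`
have the values `ϑ j` at `s`, and the constant coefficients either both vanish, with `ϑ ≠ 0`, or have
the form `a j * π ^ e + ...` with `a` and `ϑ` linearly independent. Then no prime ideal of the ring
of Laurent series over the local ring at `s` contains both. (In the paper: change coordinates such
that `a = (1, 0)`, `ϑ = (0, 1)`; then `t = - unit * π ^ (e + 1) * ..` modulo the second element, so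
that the first one is `π ^ e` times a unit; then `π` and so `t` lie in the prime ideal; but `t` is a
unit.) -/
theorem lemma71 {κ : Type u} [Field κ] (s : Option κ) (q : Ideal (serSub (regAt s)))
    (hq : q.IsPrime) (x : Fin 2 → PowerSeries (RatFunc κ))
    (hx : ∀ j i, PowerSeries.coeff i (x j) ∈ regAt s)
    (hxq : ∀ j, ∃ y ∈ q, (y : LSer (RatFunc κ)) = LSer.ofPS (x j))
    (ϑ : Fin 2 → κ) (hϑ : ∀ j, Van s 1 (PowerSeries.coeff 1 (x j) - polR (C (ϑ j))))
    (H : ((∀ j, PowerSeries.coeff 0 (x j) = 0) ∧ ϑ ≠ 0) ∨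
      ∃ (e : ℕ) (a : Fin 2 → κ),
        (∀ j, Van s (e + 1) (PowerSeries.coeff 0 (x j) - polR (C (a j)) * unif s ^ e)) ∧
        a 0 * ϑ 1 - a 1 * ϑ 0 ≠ 0) : False := by
  have hc : ∀ c : κ, polR (C c) ∈ regAt s := polR_C_mem s
  rcases H with ⟨h0, hne⟩ | ⟨e, a, ha, hD⟩
  · by_cases h1 : ϑ 1 = 0
    · have h2 : ϑ 0 ≠ 0 := by
        intro h2
        apply hne
        funext j
        fin_cases j
        · exact h2
        · exact h1
      refine Q1_core s q hq.ne_top x hx hxq 0 (fun j => if j = 0 then 0 else -1) ?_ ?_ (ϑ 0) h2 ?_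
      · intro j
        split_ifs
        · exact (regAt s).zero_mem
        · exact (regAt s).neg_mem (regAt s).one_mem
      · intro j
        rw [h0, zero_mul]
      · have := hϑ 0
        simpa using this
    · refine Q1_core s q hq.ne_top x hx hxq 0 (fun j => if j = 0 then 1 else 0) ?_ ?_ (ϑ 1) h1 ?_
      · intro j
        split_ifs
        · exact (regAt s).one_mem
        · exact (regAt s).zero_mem
      · intro j
        rw [h0, zero_mul]
      · have := hϑ 1
        simpa using this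
  · have hπ := unif_ne_zero s
    set g : Fin 2 → RatFunc κ := fun j => PowerSeries.coeff 0 (x j) * unif s ^ (-(e : ℤ)) with hg
    have hg1 : ∀ j, Van s 1 (g j - polR (C (a j))) := by
      intro j
      have h1 := (ha j).mul (Dvan_pow s (-(e : ℤ)))
      have h2 : (PowerSeries.coeff 0 (x j) - polR (C (a j)) * unif s ^ e) * unif s ^ (-(e : ℤ)) =
          g j - polR (C (a j)) := by
        rw [hg, sub_mul, mul_assoc, ← zpow_natCast (unif s) e, ← zpow_add₀ hπ, add_neg_cancel,
          zpow_zero, mul_one]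
      rw [h2] at h1
      exact h1.mono (by omega)
    have hgm : ∀ j, g j ∈ regAt s := by
      intro j
      have h1 := (regAt s).add_mem (van_zero_iff.1 ((hg1 j).mono zero_le_one)) (hc (a j))
      rwa [sub_add_cancel] at h1
    refine Q1_core s q hq.ne_top x hx hxq (unif s ^ (e : ℤ)) g hgm ?_ _ hD ?_
    · intro j
      rw [hg]
      change _ = unif s ^ (e : ℤ) * (_ * _)
      rw [mul_left_comm, ← zpow_add₀ hπ, add_neg_cancel, zpow_zero, mul_one]
    · have e1 : g 0 * PowerSeries.coeff 1 (x 1) - g 1 * PowerSeries.coeff 1 (x 0) -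
          polR (C (a 0 * ϑ 1 - a 1 * ϑ 0)) =
          PowerSeries.coeff 1 (x 1) * (g 0 - polR (C (a 0))) +
          polR (C (a 0)) * (PowerSeries.coeff 1 (x 1) - polR (C (ϑ 1))) -
          (PowerSeries.coeff 1 (x 0) * (g 1 - polR (C (a 1))) +
          polR (C (a 1)) * (PowerSeries.coeff 1 (x 0) - polR (C (ϑ 0)))) := by
        rw [C_sub, C_mul, C_mul, map_sub, map_mul, map_mul]
        ring
      rw [e1]
      exact Dvan_sub ((Dvan_mul_reg (hg1 0) (hx 1 1)).add (Dvan_mul_reg (hϑ 1) (hc _)))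
        ((Dvan_mul_reg (hg1 1) (hx 0 1)).add (Dvan_mul_reg (hϑ 0) (hc _)))

/-- The variant at a marked point: the power series are `π` times series as in `lemma71`. Then every
prime ideal which contains both contains `π`. -/
theorem lemma71' {κ : Type u} [Field κ] (s : Option κ) (q : Ideal (serSub (regAt s)))
    (hq : q.IsPrime) (x : Fin 2 → PowerSeries (RatFunc κ))
    (hx : ∀ j i, Van s 1 (PowerSeries.coeff i (x j)))
    (hxq : ∀ j, ∃ y ∈ q, (y : LSer (RatFunc κ)) = LSer.ofPS (x j))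
    (ϑ : Fin 2 → κ) (hϑ : ∀ j, Van s 2 (PowerSeries.coeff 1 (x j) - polR (C (ϑ j)) * unif s))
    (H : ((∀ j, PowerSeries.coeff 0 (x j) = 0) ∧ ϑ ≠ 0) ∨
      ∃ (e : ℕ) (a : Fin 2 → κ),
        (∀ j, Van s (e + 2) (PowerSeries.coeff 0 (x j) - polR (C (a j)) * unif s ^ (e + 1))) ∧
        a 0 * ϑ 1 - a 1 * ϑ 0 ≠ 0) :
    ∃ y ∈ q, (y : LSer (RatFunc κ)) = LSer.C (unif s) := by
  classical
  by_contra hcon
  have hπ := unif_ne_zero s
  have hπm : LSer.C (unif s) ∈ serSub (regAt s) := by
    intro n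
    rw [LSer.coeff_C]
    split_ifs
    · exact Dunif_mem s
    · exact (regAt s).zero_mem
  have hπq : (⟨LSer.C (unif s), hπm⟩ : serSub (regAt s)) ∉ q := fun h => hcon ⟨_, h, rfl⟩
  -- division by the uniformizer
  let x' : Fin 2 → PowerSeries (RatFunc κ) := fun j => PowerSeries.C (unif s)⁻¹ * x j
  have hx'c : ∀ j i, PowerSeries.coeff i (x' j) = PowerSeries.coeff i (x j) * unif s ^ (-1 : ℤ) := by
    intro j i
    rw [PowerSeries.coeff_C_mul, zpow_neg_one, mul_comm]
  have hx' : ∀ j i, PowerSeries.coeff i (x' j) ∈ regAt s := by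
    intro j i
    rw [hx'c]
    exact hx j i
  have hx'm : ∀ j, LSer.ofPS (x' j) ∈ serSub (regAt s) := by
    intro j n
    rw [LSer.coeff_ofPS]
    split_ifs
    · exact hx' j _
    · exact (regAt s).zero_mem
  have hxq' : ∀ j, ∃ y ∈ q, (y : LSer (RatFunc κ)) = LSer.ofPS (x' j) := by
    intro j
    refine ⟨⟨LSer.ofPS (x' j), hx'm j⟩, ?_, rfl⟩
    obtain ⟨y, hy, hyx⟩ := hxq j
    have h1 : (⟨LSer.C (unif s), hπm⟩ : serSub (regAt s)) * ⟨LSer.ofPS (x' j), hx'm j⟩ = y := by
      apply Subtype.ext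
      rw [hyx]
      change LSer.C (unif s) * LSer.ofPS (PowerSeries.C (unif s)⁻¹ * x j) = _
      rw [map_mul, LSer.ofPS_C, ← mul_assoc, ← map_mul, mul_inv_cancel₀ hπ, map_one, one_mul]
    exact (hq.mem_or_mem (h1 ▸ hy)).resolve_left hπq
  refine lemma71 s q hq x' hx' hxq' ϑ ?_ ?_
  · intro j
    have h1 := (hϑ j).mul (Dvan_pow s (-1 : ℤ))
    have h2 : (PowerSeries.coeff 1 (x j) - polR (C (ϑ j)) * unif s) * unif s ^ (-1 : ℤ) =
        PowerSeries.coeff 1 (x' j) - polR (C (ϑ j)) := by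
      rw [hx'c, sub_mul, mul_assoc, zpow_neg_one, mul_inv_cancel₀ hπ, mul_one]
    rw [h2] at h1
    exact h1.mono (by omega)
  · rcases H with ⟨h0, hne⟩ | ⟨e, a, ha, hD⟩
    · exact Or.inl ⟨fun j => by rw [hx'c, h0, zero_mul], hne⟩
    · refine Or.inr ⟨e, a, fun j => ?_, hD⟩
      have h1 := (ha j).mul (Dvan_pow s (-1 : ℤ))
      have h2 : (PowerSeries.coeff 0 (x j) - polR (C (a j)) * unif s ^ (e + 1)) *
          unif s ^ (-1 : ℤ) = PowerSeries.coeff 0 (x' j) - polR (C (a j)) * unif s ^ e := by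
        rw [hx'c, sub_mul, mul_assoc, pow_succ, mul_assoc, zpow_neg_one, mul_inv_cancel₀ hπ,
          mul_one]
      rw [h2] at h1
      exact h1.mono (by omega)

end Pool.Agent.H19VF
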