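import Pool.Agent.H19VF.I_Deform

/-! # Task Q2: generic sections (section 7 of the paper) -/

set_option autoImplicit false

open AlgebraicGeometry CategoryTheory Polynomial

universe u

namespace Pool.Agent.H19VF

variable {k : Type u} [Field k] {V : Scheme.{u}} {π : V ⟶ Spec (.of k)}

/-- Linear combinations of sections. -/
theorem Sec.comb {n : ℕ} {κ : Type u} [Field κ] [Algebra k κ] (D : LocData π n κ) {ι : Type}
    [Fintype ι] (θ : ι → Sec D) (u : ι → κ) :
    ∃ θ' : Sec D, (∀ b, (θ'.δ1 b).snd = ∑ l, polR (C (u l)) * ((θ l).δ1 b).snd) ∧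
      ∀ s, InS D.S s → ∀ b, (θ'.δ s b).snd = ∑ l, polR (C (u l)) * ((θ l).δ s b).snd := by
  obtain ⟨δ1, h11, h12⟩ := I_lc D.f1 (fun i => (θ i).δ1) (fun i => (θ i).h1)
    (fun l => polR (C (u l)))
  have hδ : ∀ s, ∃ δ : (D.W s).B →ₐ[k] DualNumber (RatFunc κ), InS D.S s →
      (∀ b, (δ b).fst = D.f s b) ∧
        ∀ b, (δ b).snd = ∑ i, polR (C (u i)) * ((θ i).δ s b).snd := by
    intro s
    by_cases hs : InS D.S s
    · obtain ⟨δ, h1, h2⟩ := I_lc (D.f s) (fun i => (θ i).δ s) (fun i => (θ i).h s hs)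
        (fun l => polR (C (u l)))
      exact ⟨δ, fun _ => ⟨h1, h2⟩⟩
    · exact ⟨(TrivSqZeroExt.inlAlgHom k (RatFunc κ) (RatFunc κ)).comp (D.f s),
        fun h => absurd h hs⟩
  choose δ hδ' using hδ
  refine ⟨⟨δ1, h11, fun b => ?_, δ, fun s hs => (hδ' s hs).1, fun s hs b => ?_,
    fun s hs => ?_⟩, h12, fun s hs => (hδ' s hs).2⟩
  · rw [h12]
    exact Subring.sum_mem _ fun i _ => Subring.mul_mem _ (polR_mem_regOff _ _) ((θ i).r1 b)
  · rw [(hδ' s hs).2]
    exact Subring.sum_mem _ fun i _ => Subring.mul_mem _ (polR_C_mem _ _) ((θ i).r s hs b)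
  · exact I_comb (D.W s) D.W1 (D.f s) D.f1 (D.same s hs) (fun i => (θ i).δ s)
      (fun i => (θ i).δ1) (fun i => (θ i).h s hs) (fun i => (θ i).same s hs) _ (δ s) δ1
      (hδ' s hs).1 (hδ' s hs).2 h11 h12

/-- The number of conditions, with one more condition at `y`. -/
lemma Q2_count {κ : Type u} [DecidableEq κ] (S : Finset κ) (nn : Option κ → ℕ) (y : Option κ) :
    (∑ s ∈ S, ((nn (some s) + if some s = y then 1 else 0 : ℕ) : ℤ)) +
      ((nn none + if none = y then 1 else 0 : ℕ) : ℤ) ≤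
      (∑ s ∈ S, (nn (some s) : ℤ)) + nn none + 1 := by
  cases y with
  | none => simp [add_assoc]
  | some a =>
    have h1 : (∑ s ∈ S, (if s = a then (1:ℤ) else 0)) ≤ 1 := by
      rw [Finset.sum_ite_eq' S a]
      split_ifs <;> norm_num
    push_cast
    simp only [Option.some.injEq, add_zero]
    rw [Finset.sum_add_distrib]
    linarith

/-- A section with given jets at the points `s` with `nn s > 0` whose values at finitely many other
points `y ∈ Y` are not in the kernels of given linear forms `lam y ≠ 0`. (Choose for each `y ∈ Y` a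
section with vanishing jets and a value at `y` on which `lam y` does not vanish, by `linear_cousin`
with one more condition; then take a general linear combination, `κ` is infinite.) -/
theorem generic_sec {n : ℕ} {κ : Type u} [Field κ] [Infinite κ] [Algebra k κ]
    (D : LocData π n κ) (N : ℤ) (ξ : Fin n → Sec D)
    (hN : ∀ i b, Van none N (((ξ i).δ none b).snd))
    (hdet : (Matrix.of fun i j => ((ξ i).δ1 (D.W1.z j)).snd).det ≠ 0)
    (nn : Option κ → ℕ) (hnn : (∑ s ∈ D.S, (nn (some s) : ℤ)) + nn none ≤ N)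
    (g : Option κ → Fin n → RatFunc κ) (hg : ∀ s, InS D.S s → ∀ j, g s j ∈ regAt s)
    (Y : Finset (Option κ)) (hY : ∀ y ∈ Y, InS D.S y) (hY0 : ∀ y ∈ Y, nn y = 0)
    (lam : Option κ → (Fin n → κ) →ₗ[κ] κ) (hlam : ∀ y ∈ Y, lam y ≠ 0) :
    ∃ θ : Sec D, (∀ s, InS D.S s → ∀ j, Van s (nn s) ((θ.δ s ((D.W s).z j)).snd - g s j)) ∧
      ∀ y ∈ Y, ∀ ϑ : Fin n → κ,
        (∀ j, Van y 1 ((θ.δ y ((D.W y).z j)).snd - polR (C (ϑ j)))) → lam y ϑ ≠ 0 := by
  classical
  choose ρ hρ1 hρ2 using fun y : Option κ => exists_residue y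
  -- the value of a section at `y`
  let val : ∀ y, InS D.S y → Sec D → Fin n → κ := fun y hy θ j =>
    ρ y ⟨(θ.δ y ((D.W y).z j)).snd, θ.r y hy _⟩
  have hval : ∀ y (hy : InS D.S y) (θ : Sec D) (ϑ : Fin n → κ),
      (∀ j, Van y 1 ((θ.δ y ((D.W y).z j)).snd - polR (C (ϑ j)))) → ϑ = val y hy θ := by
    intro y hy θ ϑ h
    ext j
    have h1 := (hρ2 y (⟨(θ.δ y ((D.W y).z j)).snd, θ.r y hy _⟩ -
      ⟨polR (C (ϑ j)), polR_C_mem y _⟩)).2 (h j)
    rw [map_sub, hρ1, sub_eq_zero] at h1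
    exact h1.symm
  suffices hmain : ∀ Y' : Finset (Option κ), Y' ⊆ Y → ∃ θ : Sec D,
      (∀ s, InS D.S s → ∀ j, Van s (nn s) ((θ.δ s ((D.W s).z j)).snd - g s j)) ∧
      ∀ y ∈ Y', ∀ hy : InS D.S y, lam y (val y hy θ) ≠ 0 by
    obtain ⟨θ, h1, h2⟩ := hmain Y subset_rfl
    refine ⟨θ, h1, fun y hy ϑ hϑ => ?_⟩
    rw [hval y (hY y hy) θ ϑ hϑ]
    exact h2 y hy (hY y hy)
  intro Y'
  induction Y' using Finset.induction_on with
  | empty =>
    intro _
    obtain ⟨θ, hθ⟩ := linear_cousin D N ξ hN hdet nn (by linarith) g hg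
    exact ⟨θ, hθ, fun y hy => absurd hy (Finset.notMem_empty _)⟩
  | insert y0 Y' hy0 ih =>
    intro hsub
    obtain ⟨θ, hθ1, hθ2⟩ := ih ((Finset.subset_insert _ _).trans hsub)
    have hy0Y : y0 ∈ Y := hsub (Finset.mem_insert_self _ _)
    -- a vector on which `lam y0` does not vanish
    obtain ⟨e, he⟩ : ∃ e, lam y0 e ≠ 0 := by
      by_contra hcon
      push Not at hcon
      exact hlam y0 hy0Y (LinearMap.ext hcon)
    obtain ⟨θ', hθ'⟩ := linear_cousin D N ξ hN hdet
      (fun s => nn s + if s = y0 then 1 else 0)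
      ((Q2_count D.S nn y0).trans (by linarith))
      (fun s j => if s = y0 then polR (C (e j)) else 0) (fun s hs j => by
        split_ifs
        · exact polR_C_mem s _
        · exact Subring.zero_mem _)
    have hθ'1 : ∀ s, InS D.S s → ∀ j, Van s (nn s) ((θ'.δ s ((D.W s).z j)).snd) := by
      intro s hs j
      by_cases h : s = y0
      · subst h
        rw [hY0 s hy0Y]
        exact van_zero_iff.2 (θ'.r s hs _)
      · have := hθ' s hs j
        simpa [h] using this
    have hθ'2 : lam y0 (val y0 (hY y0 hy0Y) θ') ≠ 0 := by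
      rw [← hval y0 (hY y0 hy0Y) θ' e]
      · exact he
      · intro j
        have := hθ' y0 (hY y0 hy0Y) j
        simpa [hY0 y0 hy0Y] using this
    -- the general linear combination
    let F : Option κ → κ := fun y => if hy : InS D.S y then lam y (val y hy θ) else 0
    let G : Option κ → κ := fun y => if hy : InS D.S y then lam y (val y hy θ') else 0
    obtain ⟨t, ht⟩ := Infinite.exists_notMem_finset ((insert y0 Y').image fun y => -F y / G y)
    obtain ⟨θ3, -, hθ3⟩ := Sec.comb D (fun i : Fin 2 => if i = 0 then θ else θ')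
      (fun i : Fin 2 => if i = 0 then 1 else t)
    have hθ3' : ∀ s, InS D.S s → ∀ b, (θ3.δ s b).snd = (θ.δ s b).snd +
        polR (C t) * (θ'.δ s b).snd := by
      intro s hs b
      rw [hθ3 s hs b]
      simp [Fin.sum_univ_two]
    have hv3 : ∀ y (hy : InS D.S y), lam y (val y hy θ3) =
        lam y (val y hy θ) + t * lam y (val y hy θ') := by
      intro y hy
      have h1 : val y hy θ3 = val y hy θ + t • val y hy θ' := by
        ext j
        have h2 : (⟨(θ3.δ y ((D.W y).z j)).snd, θ3.r y hy _⟩ : regAt y) =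
            ⟨(θ.δ y ((D.W y).z j)).snd, θ.r y hy _⟩ +
              ⟨polR (C t), polR_C_mem y t⟩ * ⟨(θ'.δ y ((D.W y).z j)).snd, θ'.r y hy _⟩ :=
          Subtype.ext (hθ3' y hy _)
        change ρ y ⟨(θ3.δ y ((D.W y).z j)).snd, θ3.r y hy _⟩ = _
        rw [h2, map_add, map_mul, hρ1]
        rfl
      rw [h1, map_add, map_smul, smul_eq_mul]
    refine ⟨θ3, fun s hs j => ?_, fun y hy hyS => ?_⟩
    · rw [hθ3' s hs]
      have h1 : (θ.δ s ((D.W s).z j)).snd + polR (C t) * (θ'.δ s ((D.W s).z j)).snd - g s j =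
          ((θ.δ s ((D.W s).z j)).snd - g s j) +
            polR (C t) * (θ'.δ s ((D.W s).z j)).snd := by ring
      rw [h1]
      refine (hθ1 s hs j).add ?_
      have h2 := (van_zero_iff.2 (polR_C_mem s t)).mul (hθ'1 s hs j)
      rwa [zero_add] at h2
    · rw [hv3 y hyS]
      intro h0
      apply ht
      rw [Finset.mem_image]
      refine ⟨y, hy, ?_⟩
      have hF : F y = lam y (val y hyS θ) := dif_pos hyS
      have hG : G y = lam y (val y hyS θ') := dif_pos hyS
      rw [← hF, ← hG] at h0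
      have hG0 : G y ≠ 0 := by
        intro hG0
        rw [hG0, mul_zero, add_zero] at h0
        rcases Finset.mem_insert.1 hy with h | h
        · subst h
          exact hθ'2 (hG ▸ hG0)
        · exact hθ2 y h hyS (hF ▸ h0)
      rw [div_eq_iff hG0]
      linear_combination -h0

end Pool.Agent.H19VF
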