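import Pool.Agent.H19VF.Defs

/-! # Definitions for section 7 of the paper -/

set_option autoImplicit false

open AlgebraicGeometry CategoryTheory Polynomial

universe u

namespace Pool.Agent.H19VF

variable {k : Type u} [Field k] {V : Scheme.{u}} {π : V ⟶ Spec (.of k)}

/-- The underlying point of a `k`-point. -/
noncomputable def Pt.pnt (v : Pt π k) : V := v.1 (IsLocalRing.closedPoint k)

/-- The homomorphism `R[X] → R[ε]`, `X ↦ a + ε`. -/
noncomputable def evAt (R : Type u) [CommRing R] [Algebra k R] (a : k) : R[X] →ₐ[k] DualNumber R :=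
  (Polynomial.aeval (algebraMap k (DualNumber R) a + DualNumber.eps : DualNumber R) :
    R[X] →ₐ[R] DualNumber R).restrictScalars k

/-- The curve `f` passes through `v` only at the parameter `a` of the affine line. -/
def Crv.OnlyAt {R : Type u} [CommRing R] [Algebra k R] (f : Crv π R) (v : Pt π k) (a : k) : Prop :=
  (∀ p : PrimeSpectrum R[X], f.y.1 p = v.pnt → p.asIdeal = Ideal.span {X - C (algebraMap k R a)}) ∧
  (∀ p : PrimeSpectrum R[X], f.w.1 p = v.pnt → (X : R[X]) ∉ p.asIdeal)

/-- The curve `f` is an immersion at `a`, where its value is `v`. -/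
def Crv.ImmAt {R : Type u} [CommRing R] [Algebra k R] (f : Crv π R) (v : Pt π k) (a : k) : Prop :=
  ∃ (W : Chart π) (ν : W.B →ₐ[k] k) (φ : W.B →ₐ[k] DualNumber R), v = W.pt.map ν ∧
    f.y.map (evAt R a) = W.pt.map φ ∧ (∀ b, (φ b).fst = algebraMap k R (ν b)) ∧
    ∃ b, (φ b).snd ≠ 0

end Pool.Agent.H19VF
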