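import Pool.Agent.H19VF.I_Deform
import Pool.Agent.H19VF.H_Glue
import Pool.Agent.H19VF.Q_Defs

/-! # Task Q3: the deformed curve meets a closed point only at marked parameters -/

set_option autoImplicit false

open AlgebraicGeometry CategoryTheory Polynomial

universe u

namespace Pool.Agent.H19VF

variable {k : Type u} [Field k] {V : Scheme.{u}} {π : V ⟶ Spec (.of k)}

/-- The place argument: a domain `D0` in the Laurent series, a prime `p` of `D0` at which the point
`Θ` passes through `v`, and a prime `q` such that the local ring of `q` is contained in the local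
ring of `p`. -/
theorem q3_core [IsSeparated π] {κ : Type u} [Field κ] [Algebra k κ] (W : Chart π)
    (φ : W.B →ₐ[k] PowerSeries (RatFunc κ)) (O : Subring (RatFunc κ))
    (hφO : ∀ b i, PowerSeries.coeff i (φ b) ∈ O)
    {D0 : Type u} [CommRing D0] [IsDomain D0] [Algebra k D0] (ι : D0 →ₐ[k] LSer (RatFunc κ))
    (hι : Function.Injective ι) (Θ : Pt π D0)
    (hΘ : Θ.map ι = W.pt.map ((LSer.ofPSa k).comp φ))
    (v : Pt π k) (p : PrimeSpectrum D0) (hp : Θ.1 p = v.pnt)
    (q : Ideal (serSub O)) (hq : q.IsPrime)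
    (hpl : ∀ (α β : serSub O) (P Q : D0), β ∉ q → Q ≠ 0 →
        ι Q * (α : LSer (RatFunc κ)) = ι P * (β : LSer (RatFunc κ)) →
          ∃ P' Q' : D0, Q' ∉ p.asIdeal ∧ P * Q' = P' * Q) :
    ∃ ν : W.B →ₐ[k] k, v = W.pt.map ν ∧
      ∀ b, ν b = 0 → ∃ y ∈ q, (y : LSer (RatFunc κ)) = LSer.ofPS (φ b) := by
  have hpr : p.asIdeal.IsPrime := p.isPrime
  let j : FractionRing D0 →ₐ[k] LSer (RatFunc κ) := IsFractionRing.liftAlgHom hι
  have hj : Function.Injective j := j.toRingHom.injective
  have hjD : ∀ d : D0, j (algebraMap D0 (FractionRing D0) d) = ι d := fun d =>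
    IsFractionRing.lift_algebraMap (g := ι.toRingHom) hι d
  have hjc : j.comp (IsScalarTower.toAlgHom k D0 (FractionRing D0)) = ι :=
    AlgHom.ext hjD
  have h0 : ∀ x : D0, x ≠ 0 → ι x ≠ 0 := fun x hx => (map_ne_zero_iff ι hι).2 hx
  -- the generic point lies in the chart
  obtain ⟨θQ, hθQ⟩ := W.F3_lift (Θ.map (IsScalarTower.toAlgHom k D0 (FractionRing D0))) (by
    have h1 : Set.range (Θ.map ι).1 ⊆ Set.range W.pt.1 := by
      rw [hΘ, Pt.F3_range_map]
      exact Set.image_subset_range _ _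
    rw [← hjc, ← Pt.map_map] at h1
    rintro _ ⟨x, rfl⟩
    apply h1
    have hx : ∃ x' : PrimeSpectrum (LSer (RatFunc κ)),
        PrimeSpectrum.comap j.toRingHom x' = x := by
      refine ⟨⊥, ?_⟩
      exact Subsingleton.elim (α := PrimeSpectrum (FractionRing D0)) _ _
    obtain ⟨x', hx'⟩ := hx
    refine ⟨x', ?_⟩
    change (Θ.map (IsScalarTower.toAlgHom k D0 (FractionRing D0))).1
      ((Spec.map (CommRingCat.ofHom j.toRingHom)) x') = _
    congr 1)
  have hθj : j.comp θQ = (LSer.ofPSa k).comp φ := by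
    apply W.map_injective
    rw [← Pt.map_map, ← hθQ, Pt.map_map, hjc, hΘ]
  have hmem : ∀ b, LSer.ofPS (φ b) ∈ serSub O := by
    intro b
    rw [mem_serSub]
    intro n
    rw [LSer.coeff_ofPS]
    split_ifs
    · exact hφO _ _
    · exact Subring.zero_mem _
  have hjθ : ∀ b, j (θQ b) = LSer.ofPS (φ b) := fun b =>
    congrArg (fun e : W.B →ₐ[k] LSer (RatFunc κ) => e b) hθj
  -- the values lie in the local ring
  have hloc : ∀ b, ∃ P Q : D0, Q ∉ p.asIdeal ∧
      θQ b * algebraMap D0 (FractionRing D0) Q = algebraMap D0 (FractionRing D0) P := by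
    intro b
    obtain ⟨P, Q, hQ0, hPQ⟩ := IsFractionRing.div_surjective (A := D0) (θQ b)
    have hQ : Q ≠ 0 := nonZeroDivisors.ne_zero hQ0
    have hQ' : algebraMap D0 (FractionRing D0) Q ≠ 0 :=
      (map_ne_zero_iff _ (IsFractionRing.injective D0 (FractionRing D0))).2 hQ
    have h1 : θQ b * algebraMap D0 (FractionRing D0) Q = algebraMap D0 (FractionRing D0) P := by
      rw [← hPQ, div_mul_cancel₀ _ hQ']
    obtain ⟨P', Q', h2, h3⟩ := hpl ⟨LSer.ofPS (φ b), hmem b⟩ 1 P Q
      (fun h => hq.ne_top ((Ideal.eq_top_iff_one q).2 h)) hQ (by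
        have h4 := congrArg j h1
        rw [map_mul, hjD, hjD, hjθ] at h4
        change ι Q * LSer.ofPS (φ b) = ι P * 1
        rw [mul_one, ← h4, mul_comm])
    refine ⟨P', Q', h2, ?_⟩
    apply mul_right_cancel₀ hQ'
    have h5 := congrArg (algebraMap D0 (FractionRing D0)) h3
    rw [map_mul, map_mul] at h5
    calc θQ b * algebraMap D0 (FractionRing D0) Q' * algebraMap D0 (FractionRing D0) Q
        = (θQ b * algebraMap D0 (FractionRing D0) Q) * algebraMap D0 (FractionRing D0) Q' := by ring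
      _ = _ := by rw [h1, h5]
  let R := Localization.AtPrime p.asIdeal
  have hunit : ∀ y : p.asIdeal.primeCompl,
      IsUnit ((IsScalarTower.toAlgHom k D0 (FractionRing D0)) y) := by
    intro y
    refine isUnit_iff_ne_zero.2 ((map_ne_zero_iff _ (IsFractionRing.injective D0 (FractionRing D0))).2 ?_)
    intro h
    exact y.2 (by rw [h]; exact p.asIdeal.zero_mem)
  let jR : R →ₐ[k] FractionRing D0 := IsLocalization.liftAlgHom (M := p.asIdeal.primeCompl) hunit
  have hjR : ∀ d : D0, jR (algebraMap D0 R d) = algebraMap D0 (FractionRing D0) d := fun d =>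
    IsLocalization.lift_eq _ d
  have hjRc : jR.comp (IsScalarTower.toAlgHom k D0 R) =
      IsScalarTower.toAlgHom k D0 (FractionRing D0) := AlgHom.ext hjR
  have hjRinj : Function.Injective jR := by
    rw [injective_iff_map_eq_zero]
    intro x hx
    obtain ⟨d, s, rfl⟩ := IsLocalization.exists_mk'_eq p.asIdeal.primeCompl x
    have h1 := congrArg jR (IsLocalization.mk'_spec R d s)
    rw [map_mul, hx, zero_mul, hjR] at h1
    have h2 : d = 0 := IsFractionRing.injective D0 (FractionRing D0) (by rw [← h1, map_zero])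
    rw [h2, IsLocalization.mk'_zero]
  have hr : ∀ b, θQ b ∈ jR.range := by
    intro b
    obtain ⟨P, Q, hQ, hPQ⟩ := hloc b
    refine ⟨IsLocalization.mk' R P (⟨Q, hQ⟩ : p.asIdeal.primeCompl), ?_⟩
    have hQ' : algebraMap D0 (FractionRing D0) Q ≠ 0 :=
      (hunit ⟨Q, hQ⟩).ne_zero
    apply mul_right_cancel₀ hQ'
    rw [hPQ, ← hjR, ← hjR]
    change jR (IsLocalization.mk' R P (⟨Q, hQ⟩ : p.asIdeal.primeCompl)) * _ = _
    rw [← map_mul]
    congr 1
    exact IsLocalization.mk'_spec R P (⟨Q, hQ⟩ : p.asIdeal.primeCompl)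
  let e : R ≃ₐ[k] jR.range := AlgEquiv.ofInjective jR hjRinj
  let θR : W.B →ₐ[k] R := (e.symm : jR.range →ₐ[k] R).comp (θQ.codRestrict jR.range hr)
  have hθR : ∀ b, jR (θR b) = θQ b := by
    intro b
    have h1 : e (e.symm ⟨θQ b, hr b⟩) = ⟨θQ b, hr b⟩ := e.apply_symm_apply _
    exact congrArg Subtype.val h1
  have hR : Θ.map (IsScalarTower.toAlgHom k D0 R) = W.pt.map θR := by
    apply Pt.map_injective jR hjRinj
    rw [Pt.map_map, hjRc, Pt.map_map, hθQ]
    congr 1
    exact AlgHom.ext fun b => (hθR b).symm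
  -- the closed point
  have hcl : v.pnt = W.pt.1 ((Spec.map (CommRingCat.ofHom θR.toRingHom))
      (IsLocalRing.closedPoint R)) := by
    have h1 : (Θ.map (IsScalarTower.toAlgHom k D0 R)).1 (IsLocalRing.closedPoint R) =
        Θ.1 p := by
      change Θ.1 ((Spec.map (CommRingCat.ofHom (IsScalarTower.toAlgHom k D0 R).toRingHom))
        (IsLocalRing.closedPoint R)) = Θ.1 p
      congr 1
      apply PrimeSpectrum.ext
      exact IsLocalization.AtPrime.under_maximalIdeal R p.asIdeal
    rw [← hp, ← h1, hR]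
    rfl
  obtain ⟨ν, hν⟩ := W.F3_lift v (by
    rintro _ ⟨x, rfl⟩
    have hx : x = IsLocalRing.closedPoint k :=
      Subsingleton.elim (α := PrimeSpectrum k) x (IsLocalRing.closedPoint k)
    have h1 : v.1 x = v.pnt := by rw [hx]; rfl
    rw [h1, hcl]
    exact ⟨_, rfl⟩)
  have himm := W.imm
  have hpt : (Spec.map (CommRingCat.ofHom θR.toRingHom)) (IsLocalRing.closedPoint R) =
      (Spec.map (CommRingCat.ofHom ν.toRingHom)) (IsLocalRing.closedPoint k) := by
    apply W.pt.1.isOpenEmbedding.injective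
    rw [← hcl]
    have h1 : v.pnt = (W.pt.map ν).1 (IsLocalRing.closedPoint k) := by
      rw [← hν]; rfl
    rw [h1]
    rfl
  refine ⟨ν, hν, fun b hb => ?_⟩
  have hbR : θR b ∈ IsLocalRing.maximalIdeal R := by
    have h1 : b ∈ ((Spec.map (CommRingCat.ofHom θR.toRingHom))
        (IsLocalRing.closedPoint R)).asIdeal := by
      rw [hpt]
      change ν b ∈ IsLocalRing.maximalIdeal k
      rw [hb]
      exact Ideal.zero_mem _
    exact h1
  obtain ⟨P1, s, hs⟩ := IsLocalization.exists_mk'_eq p.asIdeal.primeCompl (θR b)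
  have h1 : θR b * algebraMap D0 R s = algebraMap D0 R P1 := by
    rw [← hs]
    exact IsLocalization.mk'_spec R P1 s
  have hP1 : P1 ∈ p.asIdeal := by
    rw [← IsLocalization.AtPrime.to_map_mem_maximal_iff R p.asIdeal, ← h1]
    exact Ideal.mul_mem_right _ _ hbR
  have h2 : LSer.ofPS (φ b) * ι s = ι P1 := by
    have h3 := congrArg (fun x => j (jR x)) h1
    simp only [map_mul, hjR, hjD, hθR, hjθ] at h3
    exact h3
  by_contra hcon
  push Not at hcon
  have hnq : (⟨LSer.ofPS (φ b), hmem b⟩ : serSub O) ∉ q := fun h => hcon _ h rfl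
  have hP0 : P1 ≠ 0 := by
    intro h
    rw [h, map_zero] at h2
    have h3 : LSer.ofPS (φ b) = 0 := by
      rcases mul_eq_zero.1 h2 with h4 | h4
      · exact h4
      · exfalso
        refine h0 s ?_ h4
        intro h5
        exact s.2 (by rw [h5]; exact p.asIdeal.zero_mem)
    apply hnq
    have h4 : (⟨LSer.ofPS (φ b), hmem b⟩ : serSub O) = 0 := Subtype.ext h3
    rw [h4]
    exact q.zero_mem
  obtain ⟨P', Q', h3, h4⟩ := hpl 1 ⟨LSer.ofPS (φ b), hmem b⟩ s P1 hnq hP0 (by
    change ι P1 * 1 = ι s * LSer.ofPS (φ b)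
    rw [mul_one, ← h2, mul_comm])
  have h5 : (s : D0) * Q' ∈ p.asIdeal := by
    rw [h4]
    exact Ideal.mul_mem_left _ _ hP1
  rcases hpr.mem_or_mem h5 with h6 | h6
  · exact s.2 h6
  · exact h3 h6

/-- A power series with coefficients in `O` and constant coefficient one gives no element of a prime
ideal. -/
theorem q3_unit {κ : Type u} [Field κ] (O : Subring (RatFunc κ)) (q : Ideal (serSub O))
    (hq : q.IsPrime) (E : PowerSeries (RatFunc κ)) (hE : ∀ i, PowerSeries.coeff i E ∈ O)
    (h1 : PowerSeries.constantCoeff E = 1)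
    (h : ∃ y ∈ q, (y : LSer (RatFunc κ)) = LSer.ofPS E) : False := by
  obtain ⟨y, hy, hyE⟩ := h
  let EO : PowerSeries O := PowerSeries.mk fun i => ⟨PowerSeries.coeff i E, hE i⟩
  have hEO : PowerSeries.map O.subtype EO = E := by
    ext i
    rw [PowerSeries.coeff_map, PowerSeries.coeff_mk]
    rfl
  have hu : IsUnit EO := by
    rw [PowerSeries.isUnit_iff_constantCoeff]
    have h2 : PowerSeries.constantCoeff EO = 1 := by
      apply Subtype.ext
      rw [← PowerSeries.coeff_zero_eq_constantCoeff_apply, PowerSeries.coeff_mk]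
      change PowerSeries.coeff 0 E = 1
      rw [PowerSeries.coeff_zero_eq_constantCoeff_apply, h1]
    rw [h2]
    exact isUnit_one
  obtain ⟨FO, hFO⟩ := hu.exists_right_inv
  have h3 : E * PowerSeries.map O.subtype FO = 1 := by
    rw [← hEO, ← map_mul, hFO, map_one]
  have hF : LSer.ofPS (PowerSeries.map O.subtype FO) ∈ serSub O := by
    rw [mem_serSub]
    intro n
    rw [LSer.coeff_ofPS]
    split_ifs
    · rw [PowerSeries.coeff_map]
      exact (PowerSeries.coeff _ FO).2
    · exact Subring.zero_mem _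
  apply hq.ne_top
  rw [Ideal.eq_top_iff_one]
  have h4 : (1 : serSub O) = y * ⟨LSer.ofPS (PowerSeries.map O.subtype FO), hF⟩ := by
    apply Subtype.ext
    change (1 : LSer (RatFunc κ)) = y * LSer.ofPS (PowerSeries.map O.subtype FO)
    rw [hyE, ← map_mul, h3, map_one]
  rw [h4]
  exact Ideal.mul_mem_right _ _ hy

/-- A constant Laurent series lies in `serSub (regAt s)`. -/
theorem q3_embC_mem {κ : Type u} [Field κ] (s : Option κ) (c : LSer κ) :
    embC (κ := κ) κ c ∈ serSub (regAt s) := by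
  rw [mem_serSub]
  intro n
  have h1 : (embC (κ := κ) κ c).coeff n = polR (C (c.coeff n)) := by
    unfold embC
    rw [LSer.coeff_map]
    rfl
  rw [h1]
  exact polR_C_mem s _

/-- If `q` contains `y - a`, the prime `p` is generated by `y - a`. -/
theorem q3_span {κ : Type u} [Field κ] (a : κ) (q : Ideal (serSub (regAt (some a))))
    (hq : q.IsPrime) (hqa : ∃ y ∈ q, (y : LSer (RatFunc κ)) = LSer.C (unif (some a)))
    (p : Ideal (LSer κ)[X]) (hp : p.IsPrime) (hp0 : p ≠ ⊥)
    (hpl : ∀ (α β : serSub (regAt (some a))) (P Q : (LSer κ)[X]), β ∉ q → Q ≠ 0 →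
          embY κ Q * (α : LSer (RatFunc κ)) = embY κ P * (β : LSer (RatFunc κ)) →
          ∃ P' Q' : (LSer κ)[X], Q' ∉ p ∧ P * Q' = P' * Q) :
    p = Ideal.span {X - C (LSer.C a)} := by
  have hle : p ≤ Ideal.span {X - C (LSer.C a)} := by
    intro f hf
    by_contra hcon
    rw [Ideal.mem_span_singleton, dvd_iff_isRoot] at hcon
    have hfa : f.eval (LSer.C a) ≠ 0 := hcon
    have hf0 : f ≠ 0 := by
      rintro rfl
      exact hfa (by simp)
    have hmem : embY κ f ∈ serSub (regAt (some a)) :=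
      B_embY_mem (regAt (some a)) (fun g => polR_mem_regFin a g) f
    have hnq : (⟨embY κ f, hmem⟩ : serSub (regAt (some a))) ∉ q := by
      intro h
      obtain ⟨y, hy, hya⟩ := hqa
      obtain ⟨g, hg⟩ : ∃ g, f = (X - C (LSer.C a)) * g + C (f.eval (LSer.C a)) := by
        have h1 : (X - C (LSer.C a)) ∣ f - C (f.eval (LSer.C a)) := by
          rw [dvd_iff_isRoot]
          simp
        obtain ⟨g, hg⟩ := h1
        exact ⟨g, by rw [← hg]; ring⟩
      have hgm : embY κ g ∈ serSub (regAt (some a)) :=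
        B_embY_mem (regAt (some a)) (fun g => polR_mem_regFin a g) g
      have h2 : embY κ (X - C (LSer.C a) : (LSer κ)[X]) = LSer.C (unif (some a)) := by
        rw [map_sub, embY_X, embY_C]
        have h3 : embC (κ := κ) κ (LSer.C a) = LSer.C (polR (C a)) := by
          unfold embC
          rw [LSer.map_C]
          rfl
        rw [h3]
        unfold yv unif
        rw [← map_sub, ← map_sub]
      have h3 : embY κ f = (y : LSer (RatFunc κ)) * embY κ g +
          embC κ (f.eval (LSer.C a)) := by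
        conv_lhs => rw [hg]
        rw [map_add, map_mul, h2, embY_C, hya]
      have h4 : (⟨embC κ (f.eval (LSer.C a)), q3_embC_mem (some a) _⟩ :
          serSub (regAt (some a))) ∈ q := by
        have h5 : (⟨embC κ (f.eval (LSer.C a)), q3_embC_mem (some a) _⟩ :
            serSub (regAt (some a))) = ⟨embY κ f, hmem⟩ - y * ⟨embY κ g, hgm⟩ := by
          apply Subtype.ext
          change embC κ (f.eval (LSer.C a)) = embY κ f - (y : LSer (RatFunc κ)) * embY κ g
          rw [h3]
          ring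
        rw [h5]
        exact q.sub_mem h (Ideal.mul_mem_right _ _ hy)
      apply hq.ne_top
      rw [Ideal.eq_top_iff_one]
      have h6 : (1 : serSub (regAt (some a))) =
          ⟨embC κ (f.eval (LSer.C a)), q3_embC_mem (some a) _⟩ *
            ⟨embC κ (f.eval (LSer.C a))⁻¹, q3_embC_mem (some a) _⟩ := by
        apply Subtype.ext
        change (1 : LSer (RatFunc κ)) = embC κ (f.eval (LSer.C a)) *
          embC κ (f.eval (LSer.C a))⁻¹
        rw [← map_mul, mul_inv_cancel₀ hfa, map_one]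
      rw [h6]
      exact Ideal.mul_mem_right _ _ h4
    obtain ⟨P', Q', h1, h2⟩ := hpl 1 ⟨embY κ f, hmem⟩ 1 f hnq hf0 (by
      change embY κ f * 1 = embY κ 1 * embY κ f
      rw [map_one, mul_one, one_mul])
    apply h1
    rw [one_mul] at h2
    rw [h2]
    exact Ideal.mul_mem_left _ _ hf
  have hmax : p.IsMaximal := hp.isMaximal hp0
  refine hmax.eq_of_le ?_ hle
  intro h
  rw [Ideal.span_singleton_eq_top] at h
  exact Polynomial.not_isUnit_X_sub_C _ h

/-- `φ1` and `φ s` are homomorphisms to power series which lift the chart data `D` of a curve, `ψ` is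
the curve over `κ((t))` given by them. Let `v` be a `k`-point of `V`. Assume: the curve `D` does not
pass through `v` outside `S ∪ {∞}` (`h1`), and at each `s ∈ S ∪ {∞}`, each prime ideal of the ring of
Laurent series over the local ring at `s` which contains the functions vanishing at `v` contains the
uniformizer at `s`, and only if `s ∈ Σ` (`h2`). Then `ψ` passes through `v` only at the points of
`Σ`. -/
theorem avoid_y [IsSeparated π] [LocallyOfFiniteType π] {n : ℕ} {κ : Type u} [Field κ]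
    [Algebra k κ] (D : LocData π n κ)
    (φ1 : D.W1.B →ₐ[k] PowerSeries (RatFunc κ)) (φ : ∀ s, (D.W s).B →ₐ[k] PowerSeries (RatFunc κ))
    (hφ1 : ∀ b, PowerSeries.constantCoeff (φ1 b) = D.f1 b)
    (hφ1' : ∀ b i, PowerSeries.coeff i (φ1 b) ∈ regOff D.S)
    (hφ : ∀ s, InS D.S s → ∀ b, PowerSeries.constantCoeff (φ s b) = D.f s b)
    (hφ' : ∀ s, InS D.S s → ∀ b i, PowerSeries.coeff i (φ s b) ∈ regAt s)
    (hsame : ∀ s, InS D.S s → (D.W s).pt.map (φ s) = D.W1.pt.map φ1)
    (ψ : Crv π (LSer κ)) (hψ : ψ.y.map (embY k) = D.W1.pt.map ((LSer.ofPSa k).comp φ1))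
    (hψ' : ψ.w.map (embW k) = D.W1.pt.map ((LSer.ofPSa k).comp φ1))
    (v : Pt π k) (Sg : Finset κ)
    (h1 : ∀ ν : D.W1.B →ₐ[k] k, v = D.W1.pt.map ν →
      ∃ (ι : Type) (_ : Fintype ι) (b : ι → D.W1.B) (g : ι → RatFunc κ), (∀ i, ν (b i) = 0) ∧
        (∀ i, g i ∈ regOff D.S) ∧ ∑ i, D.f1 (b i) * g i = 1)
    (h2 : ∀ s, InS D.S s → ∀ ν : (D.W s).B →ₐ[k] k, v = (D.W s).pt.map ν →
      ∀ q : Ideal (serSub (regAt s)), q.IsPrime →
      (∀ b, ν b = 0 → ∃ y ∈ q, (y : LSer (RatFunc κ)) = LSer.ofPS (φ s b)) →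
      ∃ a ∈ Sg, s = some a ∧ ∃ y ∈ q, (y : LSer (RatFunc κ)) = LSer.C (unif s)) :
    (∀ p : PrimeSpectrum (LSer κ)[X], ψ.y.1 p = v.pnt →
      ∃ a ∈ Sg, p.asIdeal = Ideal.span {X - C (LSer.C a)}) ∧
    (∀ p : PrimeSpectrum (LSer κ)[X], ψ.w.1 p = v.pnt → (X : (LSer κ)[X]) ∉ p.asIdeal) := by
  have hcompat : ∀ s, InS D.S s → ψ.y.map (embY k) =
      (D.W s).pt.map ((LSer.ofPSa k).comp (φ s)) := by
    intro s hs
    rw [← Pt.map_map, hsame s hs, Pt.map_map, hψ]
  have hcompat' : ∀ s, InS D.S s → ψ.w.map (embW k) =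
      (D.W s).pt.map ((LSer.ofPSa k).comp (φ s)) := by
    intro s hs
    rw [← Pt.map_map, hsame s hs, Pt.map_map, hψ']
  have hinjY : Function.Injective (embY (κ := κ) k) := B_embY_inj
  have hinjW : Function.Injective (embW (κ := κ) k) := B_embW_inj
  -- the case of the ring `regOff`
  have hoff : ∀ (p : PrimeSpectrum (LSer κ)[X]), ψ.y.1 p = v.pnt →
      ∀ q : Ideal (serSub (regOff D.S)), q.IsPrime →
      (∀ (α β : serSub (regOff D.S)) (P Q : (LSer κ)[X]), β ∉ q → Q ≠ 0 →
          embY κ Q * (α : LSer (RatFunc κ)) = embY κ P * (β : LSer (RatFunc κ)) →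
          ∃ P' Q' : (LSer κ)[X], Q' ∉ p.asIdeal ∧ P * Q' = P' * Q) → False := by
    intro p hp q hq hpl
    obtain ⟨ν, hν, hνq⟩ := q3_core D.W1.toChart φ1 (regOff D.S) hφ1' (embY k) hinjY ψ.y hψ v p hp q
      hq hpl
    obtain ⟨ι, _, b, g, hb, hg, hsum⟩ := h1 ν hν
    choose y hyq hy using fun i => hνq (b i) (hb i)
    refine q3_unit (regOff D.S) q hq (∑ i, φ1 (b i) * PowerSeries.C (g i)) (fun n => ?_) ?_ ?_
    · rw [map_sum]
      refine Subring.sum_mem _ fun i _ => ?_
      rw [PowerSeries.coeff_mul_C]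
      exact Subring.mul_mem _ (hφ1' _ _) (hg i)
    · rw [map_sum, ← hsum]
      refine Finset.sum_congr rfl fun i _ => ?_
      rw [map_mul, PowerSeries.constantCoeff_C, hφ1]
    · have hgm : ∀ i, LSer.C (g i) ∈ serSub (regOff D.S) := by
        intro i
        rw [mem_serSub]
        intro n
        rw [LSer.coeff_C]
        split_ifs
        · exact hg i
        · exact Subring.zero_mem _
      refine ⟨∑ i, y i * ⟨LSer.C (g i), hgm i⟩, Ideal.sum_mem _ fun i _ =>
        Ideal.mul_mem_right _ _ (hyq i), ?_⟩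
      rw [map_sum]
      have h3 : ((∑ i, y i * ⟨LSer.C (g i), hgm i⟩ : serSub (regOff D.S)) :
          LSer (RatFunc κ)) = ∑ i, (y i : LSer (RatFunc κ)) * LSer.C (g i) := by
        rw [← Subring.subtype_apply, map_sum]
        rfl
      rw [h3]
      refine Finset.sum_congr rfl fun i _ => ?_
      rw [hy, map_mul, LSer.ofPS_C]
  refine ⟨fun p hp => ?_, fun p hp hX => ?_⟩
  · by_cases hp0 : p.asIdeal = ⊥
    · exfalso
      refine hoff p hp ⊥ Ideal.isPrime_bot (fun _ _ P Q _ hQ _ => ⟨P, Q, ?_, rfl⟩)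
      rw [hp0]
      exact hQ
    · obtain ⟨O, hO, q, hq, hpl⟩ := places_y D.S p.asIdeal p.isPrime hp0
      rcases hO with hO | ⟨s, hs, hO⟩
      · subst hO
        exact (hoff p hp q hq hpl).elim
      · subst hO
        obtain ⟨ν, hν, hνq⟩ := q3_core (D.W s).toChart (φ s) (regAt s) (hφ' s hs) (embY k) hinjY
          ψ.y (hcompat s hs) v p hp q hq hpl
        obtain ⟨a, ha, hsa, hqa⟩ := h2 s hs ν hν q hq hνq
        subst hsa
        exact ⟨a, ha, q3_span a q hq hqa p.asIdeal p.isPrime hp0 hpl⟩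
  · obtain ⟨q, hq, hpl⟩ := place_inf κ
    have hs : InS D.S none := fun a ha => by simp at ha
    obtain ⟨ν, hν, hνq⟩ := q3_core (D.W none).toChart (φ none) (regAt none) (hφ' none hs) (embW k)
      hinjW ψ.w (hcompat' none hs) v p hp q hq (by
        intro α β P Q hβ hQ hPQ
        obtain ⟨P', Q', hQ', hPQ'⟩ := hpl α β P Q hβ hQ hPQ
        refine ⟨P', Q', fun hm => ?_, hPQ'⟩
        apply p.isPrime.ne_top
        have h5 : C (Q'.eval 0) ∈ p.asIdeal := by
          have h6 : C (Q'.eval 0) = Q' - X * Q'.divX := by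
            have h7 := Polynomial.X_mul_divX_add Q'
            rw [Polynomial.coeff_zero_eq_eval_zero] at h7
            linear_combination h7
          rw [h6]
          exact p.asIdeal.sub_mem hm (p.asIdeal.mul_mem_right _ hX)
        exact Ideal.eq_top_of_isUnit_mem _ h5
          (Polynomial.isUnit_C.2 (isUnit_iff_ne_zero.2 hQ')))
    obtain ⟨a, -, hsa, -⟩ := h2 none hs ν hν q hq hνq
    simp at hsa

end Pool.Agent.H19VF
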