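import Pool.Agent.H19VF.Q_Defs
import Pool.Agent.H19VF.O_Spec

/-! # Task Q4: specialization in section 7 of the paper -/

set_option autoImplicit false

open AlgebraicGeometry CategoryTheory Polynomial

universe u

namespace Pool.Agent.H19VF

variable {k : Type u} [Field k] {V : Scheme.{u}} {π : V ⟶ Spec (.of k)}

namespace TaskQ4

theorem map_pt {R R' : Type u} [CommRing R] [Algebra k R] [CommRing R'] [Algebra k R']
    (p : Pt π R) (φ : R →ₐ[k] R') (x : PrimeSpectrum R') :
    (p.map φ).1 x = p.1 (PrimeSpectrum.comap φ.toRingHom x) := rfl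

theorem const_pt {R : Type u} [CommRing R] [Algebra k R] (v : Pt π k) (x : PrimeSpectrum R) :
    (v.const : Pt π R).1 x = v.pnt := by
  rw [Pt.const, map_pt, Pt.pnt]
  congr 1
  exact Subsingleton.elim (α := PrimeSpectrum k) _ _

theorem isClosed_pnt [IsSeparated π] (v : Pt π k) : IsClosed ({v.pnt} : Set V) := by
  have h1 : v.1 ≫ π = 𝟙 _ := by
    rw [v.2]
    exact Spec.map_id _
  have h2 : IsClosedImmersion (v.1 ≫ π) := by rw [h1]; infer_instance
  have h3 : IsClosedImmersion v.1 := IsClosedImmersion.of_comp v.1 π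
  have h4 : Set.range v.1 = {v.pnt} := by
    ext x
    constructor
    · rintro ⟨y, rfl⟩
      rw [Set.mem_singleton_iff, Pt.pnt]
      congr 1
      exact Subsingleton.elim (α := PrimeSpectrum k) _ _
    · rintro rfl
      exact ⟨_, rfl⟩
  rw [← h4]
  exact v.1.isClosedEmbedding.isClosed_range

/-- Finitely many elements witness that a curve passes through `v` only at `σ`. -/
theorem exists_fin [IsSeparated π] {K : Type u} [Field K] [Algebra k K] (A : Subalgebra k K)
    (Φ : Pt π A[X]) (v : Pt π k) (σ : k)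
    (H : ∀ p : PrimeSpectrum K[X], (Φ.map (pmap A.val)).1 p = v.pnt →
      p.asIdeal = Ideal.span {X - C (algebraMap k K σ)}) :
    ∃ T : Finset K, ∀ (A' : Subalgebra k K) (hle : A ≤ A'), (∀ x ∈ T, x ∈ A') →
      ∀ p : PrimeSpectrum A'[X], (Φ.map (pmap (Subalgebra.inclusion hle))).1 p = v.pnt →
        X - C (algebraMap k A' σ) ∈ p.asIdeal := by
  classical
  let Z : Set (PrimeSpectrum A[X]) := {P | Φ.1 P = v.pnt}
  have hZ : IsClosed Z := (isClosed_pnt v).preimage Φ.1.continuous
  let I : Ideal A[X] := PrimeSpectrum.vanishingIdeal Z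
  have hI : PrimeSpectrum.zeroLocus (I : Set A[X]) = Z := by
    rw [PrimeSpectrum.zeroLocus_vanishingIdeal_eq_closure, hZ.closure_eq]
  let f : A[X] →+* K[X] := (pmap (k := k) A.val).toRingHom
  have hrad : (X - C (algebraMap k K σ)) ∈ (Ideal.map f I).radical := by
    rw [Ideal.radical_eq_sInf, Ideal.mem_sInf]
    rintro Q ⟨hQ1, hQ2⟩
    let q : PrimeSpectrum K[X] := ⟨Q, hQ2⟩
    have h1 : PrimeSpectrum.comap f q ∈ Z := by
      rw [← hI, PrimeSpectrum.mem_zeroLocus]
      intro x hx
      exact hQ1 (Ideal.mem_map_of_mem f hx)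
    have h2 : (Φ.map (pmap A.val)).1 q = v.pnt := by
      rw [map_pt]; exact h1
    have h3 := H q h2
    change _ ∈ q.asIdeal
    rw [h3]
    exact Ideal.mem_span_singleton_self _
  obtain ⟨N, hN⟩ := hrad
  obtain ⟨n, G, P, hGP⟩ := Submodule.mem_span_set'.1 hN
  choose P' hP' hPP using fun i => (P i).2
  refine ⟨Finset.univ.biUnion fun i => (G i).coeffs, fun A' hle hT p hp => ?_⟩
  have hlift : ∀ i, ∃ g : A'[X], Polynomial.map (A'.val : A' →+* K) g = G i := by
    intro i
    rw [← Polynomial.mem_lifts, Polynomial.lifts_iff_coeff_lifts]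
    intro j
    by_cases hj : (G i).coeff j = 0
    · exact ⟨0, by rw [hj, map_zero]⟩
    · exact ⟨⟨_, hT _ (Finset.mem_biUnion.2 ⟨i, Finset.mem_univ _,
        Polynomial.coeff_mem_coeffs hj⟩)⟩, rfl⟩
  choose G' hG' using hlift
  have hcomp : ∀ x : A[X], Polynomial.map (A'.val : A' →+* K) (pmap (Subalgebra.inclusion hle) x) =
      f x := by
    intro x
    change Polynomial.map _ (Polynomial.map _ x) = Polynomial.map _ x
    rw [Polynomial.map_map]
    rfl
  have hsum : (X - C (algebraMap k A' σ)) ^ N =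
      ∑ i, G' i * pmap (Subalgebra.inclusion hle) (P' i) := by
    apply Polynomial.map_injective (A'.val : A' →+* K) Subtype.val_injective
    rw [Polynomial.map_pow, Polynomial.map_sub, Polynomial.map_X, Polynomial.map_C,
      Polynomial.map_sum]
    have : (A'.val : A' →+* K) (algebraMap k A' σ) = algebraMap k K σ := rfl
    rw [this, ← hGP]
    refine Finset.sum_congr rfl fun i _ => ?_
    rw [Polynomial.map_mul, hG', hcomp, hPP, smul_eq_mul]
  have hpZ : PrimeSpectrum.comap (pmap (k := k) (Subalgebra.inclusion hle)).toRingHom p ∈ Z := by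
    rw [map_pt] at hp
    exact hp
  rw [← hI, PrimeSpectrum.mem_zeroLocus] at hpZ
  have hmem : (X - C (algebraMap k A' σ)) ^ N ∈ p.asIdeal := by
    rw [hsum]
    exact Ideal.sum_mem _ fun i _ => Ideal.mul_mem_left _ _ (hpZ (hP' i))
  exact p.2.mem_of_pow_mem _ hmem

/-- The homomorphism of dual numbers induced by a homomorphism of algebras. -/
noncomputable def dmap {R R' : Type u} [CommRing R] [Algebra k R] [CommRing R'] [Algebra k R']
    (φ : R →ₐ[k] R') : DualNumber R →ₐ[k] DualNumber R' where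
  toFun x := TrivSqZeroExt.inl (φ x.fst) + TrivSqZeroExt.inr (φ x.snd)
  map_one' := by ext <;> simp
  map_mul' x y := by
    ext
    · simp
    · simp [mul_comm]
  map_zero' := by ext <;> simp
  map_add' x y := by ext <;> simp
  commutes' r := by
    ext
    · simp [TrivSqZeroExt.algebraMap_eq_inl']
    · simp [TrivSqZeroExt.algebraMap_eq_inl']

@[simp] theorem dmap_fst {R R' : Type u} [CommRing R] [Algebra k R] [CommRing R'] [Algebra k R']
    (φ : R →ₐ[k] R') (x : DualNumber R) : (dmap φ x).fst = φ x.fst := by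
  change (TrivSqZeroExt.inl (φ x.fst) + TrivSqZeroExt.inr (φ x.snd)).fst = _
  simp

@[simp] theorem dmap_snd {R R' : Type u} [CommRing R] [Algebra k R] [CommRing R'] [Algebra k R']
    (φ : R →ₐ[k] R') (x : DualNumber R) : (dmap φ x).snd = φ x.snd := by
  change (TrivSqZeroExt.inl (φ x.fst) + TrivSqZeroExt.inr (φ x.snd)).snd = _
  simp

theorem evAt_C {R : Type u} [CommRing R] [Algebra k R] (a : k) (x : R) :
    evAt R a (C x) = TrivSqZeroExt.inl x := by
  change Polynomial.aeval _ (C x) = _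
  rw [Polynomial.aeval_C]
  rfl

theorem evAt_X {R : Type u} [CommRing R] [Algebra k R] (a : k) :
    evAt R a X = algebraMap k (DualNumber R) a + DualNumber.eps := by
  change Polynomial.aeval _ X = _
  rw [Polynomial.aeval_X]

theorem dmap_evAt {R R' : Type u} [CommRing R] [Algebra k R] [CommRing R'] [Algebra k R']
    (φ : R →ₐ[k] R') (a : k) : (dmap φ).comp (evAt R a) = (evAt R' a).comp (pmap φ) := by
  apply AlgHom.coe_ringHom_injective
  apply Polynomial.ringHom_ext
  · intro x
    change dmap φ (evAt R a (C x)) = evAt R' a (Polynomial.map _ (C x))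
    rw [Polynomial.map_C, evAt_C, evAt_C]
    ext <;> simp
  · change dmap φ (evAt R a X) = evAt R' a (Polynomial.map _ X)
    rw [Polynomial.map_X, evAt_X, evAt_X, map_add, AlgHom.commutes]
    congr 1
    ext <;> simp

theorem dfst_evAt {R : Type u} [CommRing R] [Algebra k R] (a : k) :
    (dfst k R).comp (evAt R a) = evk a := by
  apply AlgHom.coe_ringHom_injective
  apply Polynomial.ringHom_ext
  · intro x
    change (evAt R a (C x)).fst = Polynomial.aeval _ (C x)
    rw [evAt_C, Polynomial.aeval_C]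
    rfl
  · change (evAt R a X).fst = Polynomial.aeval _ X
    rw [evAt_X, Polynomial.aeval_X, TrivSqZeroExt.fst_add]
    simp [TrivSqZeroExt.algebraMap_eq_inl']

/-- The core of the proof of `specialize`. -/
theorem core [IsAlgClosed k] {n : ℕ} {K : Type u} [Field K] [Algebra k K] (A : Subalgebra k K)
    (hA : A.FG) (W : EChart π n) (φA : W.B →ₐ[k] A) (Dv : Fin n → Derivation k K K)
    (hdet : (Matrix.of fun a j => Dv a (φA (W.z j) : K)).det ≠ 0) :
    ∃ g : A, g ≠ 0 ∧ ∀ a : A →ₐ[k] k, a g ≠ 0 → ∀ τ : Pt π (DualNumber k),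
      τ.map (dfst k k) = (W.pt.map φA).map a →
        ∃ δ : A →ₐ[k] DualNumber k, (dfst k k).comp δ = a ∧ (W.pt.map φA).map δ = τ := by
  classical
  let M : Matrix (Fin n) (Fin n) K := Matrix.of fun a j => Dv a (φA (W.z j) : K)
  have hM : M⁻¹ * M = 1 := Matrix.nonsing_inv_mul M (isUnit_iff_ne_zero.2 hdet)
  let D' : Fin n → Derivation k K K := fun i => ∑ a, M⁻¹ i a • Dv a
  have hD' : ∀ i j, D' i (φA (W.z j) : K) = if i = j then 1 else 0 := by
    intro i j
    have h1 := congrFun (congrFun hM i) j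
    rw [Matrix.mul_apply, Matrix.one_apply] at h1
    rw [← h1]
    have h2 : ((∑ a, M⁻¹ i a • Dv a : Derivation k K K) : K → K) =
        ∑ a, ((M⁻¹ i a • Dv a : Derivation k K K) : K → K) :=
      map_sum (Derivation.coeFnAddMonoidHom (R := k) (A := K) (M := K)) _ _
    change (∑ a, M⁻¹ i a • Dv a : Derivation k K K) (φA (W.z j) : K) = _
    rw [h2, Finset.sum_apply]
    rfl
  obtain ⟨g, hg, E, hE⟩ := TaskO.exists_der A hA D'
  have hE' : ∀ i j, E i (φA (W.z j)) = if i = j then g else 0 := by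
    intro i j
    rw [hE i (φA (W.z j)) (if i = j then 1 else 0) ?_]
    · split_ifs <;> simp
    · rw [hD']
      split_ifs <;> rfl
  refine ⟨g, hg, fun a ha τ hτ => ?_⟩
  rw [Pt.map_map] at hτ
  obtain ⟨ψ, hψ1, hψ2⟩ := Chart.factor_local W.toChart (dfst k k)
    ⟨fun x hx => TrivSqZeroExt.isUnit_iff_isUnit_fst.2 hx⟩ τ (a.comp φA) hτ
  let d : A →ₗ[k] k := ∑ i, ((ψ (W.z i)).snd / a g) • (a.toLinearMap ∘ₗ (E i : A →ₗ[k] A))
  have hdx : ∀ x, d x = ∑ i, ((ψ (W.z i)).snd / a g) * a (E i x) := by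
    intro x
    simp only [d, LinearMap.sum_apply]
    rfl
  obtain ⟨δ, hδ1, hδ2⟩ := TaskO.exists_dual a d (by
    intro x y
    rw [hdx, hdx, hdx, Finset.mul_sum, Finset.mul_sum, ← Finset.sum_add_distrib]
    refine Finset.sum_congr rfl fun i _ => ?_
    rw [Derivation.leibniz, map_add, smul_eq_mul, smul_eq_mul, map_mul, map_mul]
    ring)
  refine ⟨δ, AlgHom.ext hδ1, ?_⟩
  have hδψ : δ.comp φA = ψ := by
    obtain ⟨χ, -, huniq⟩ := etale_dual W.z W.et (a.comp φA) (fun j => (ψ (W.z j)).snd)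
    have e1 := huniq (δ.comp φA) ⟨fun b => hδ1 _, fun j => by
      change (δ (φA (W.z j))).snd = _
      rw [hδ2, hdx]
      rw [Finset.sum_eq_single j]
      · rw [hE', if_pos rfl, div_mul_cancel₀ _ ha]
      · intro i _ hij
        rw [hE', if_neg hij, map_zero, mul_zero]
      · intro hj; exact absurd (Finset.mem_univ j) hj⟩
    have e2 := huniq ψ ⟨fun b => by
      have := congrArg (fun f => f b) hψ2
      exact this, fun j => rfl⟩
    rw [e1, e2]
  rw [Pt.map_map, hδψ, ← hψ1]

/-- A first order jet at a constant point lies in a chart. -/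
theorem dual_chart {R : Type u} [CommRing R] [Algebra k R] (p : Pt π (DualNumber R)) (v : Pt π k)
    (hp : p.map (dfst k R) = v.const) (W : Chart π) (ν : W.B →ₐ[k] k) (hν : v = W.pt.map ν) :
    ∃ φ : W.B →ₐ[k] DualNumber R, p = W.pt.map φ ∧ ∀ b, (φ b).fst = algebraMap k R (ν b) := by
  have hr : Set.range p.1 ⊆ Set.range W.pt.1 := by
    rintro _ ⟨x, rfl⟩
    have hx : (x : PrimeSpectrum (DualNumber R)) ∈
        Set.range (PrimeSpectrum.comap (dfst k R).toRingHom) := by
      rw [range_comap_of_surjective]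
      · refine (PrimeSpectrum.mem_zeroLocus _ _).2 ?_
        intro y hy
        have hy1 : y.fst = 0 := hy
        have hy2 : y * y = 0 := by ext <;> simp [hy1]
        have hy3 : y * y ∈ (x : PrimeSpectrum (DualNumber R)).asIdeal := by
          rw [hy2]; exact Ideal.zero_mem _
        rcases (x : PrimeSpectrum (DualNumber R)).2.mem_or_mem hy3 with h | h <;> exact h
      · intro r
        exact ⟨TrivSqZeroExt.inl r, by simp⟩
    obtain ⟨y, hy⟩ := hx
    have h1 : p.1 x = (p.map (dfst k R)).1 y := by rw [map_pt, hy]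
    rw [h1, hp, const_pt, Pt.pnt, hν, map_pt]
    exact ⟨_, rfl⟩
  obtain ⟨φ, hφ⟩ := W.F3_lift p hr
  refine ⟨φ, hφ, ?_⟩
  have h2 : (dfst k R).comp φ = (Algebra.ofId k R).comp ν := by
    apply W.map_injective
    rw [← Pt.map_map, ← hφ, hp, ← Pt.map_map, ← hν, Pt.const]
  intro b
  exact congrArg (fun f => f b) h2

end TaskQ4

/-- Specialization of a curve over `K` which passes once, as an immersion, through the points
`v i`, whose value at infinity is the `k`-point `v0`, and whose value at `0` is generic. As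
`specialize`; moreover the closed subset of the affine line minus the `σ i` over `A` where the curve
meets the `v i` has empty generic fibre, so it is empty after localizing `A`. -/
theorem specialize_avoid [IsAlgClosed k] {n : ℕ} [SmoothOfRelativeDimension n π] [IsSeparated π]
    {K : Type u} [Field K] [Algebra k K] (ψ : Crv π K) {m : ℕ} (σ : Fin m → k)
    (v : Fin m → Pt π k) (v0 : Pt π k) (h0 : ψ.at none = v0.const)
    (hv : ∀ i, ψ.at (some (σ i)) = (v i).const)
    (hav : ∀ i, ψ.OnlyAt (v i) (σ i)) (him : ∀ i, ψ.ImmAt (v i) (σ i))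
    (W : EChart π n) (φ : W.B →ₐ[k] K)
    (h : ψ.at (some 0) = W.pt.map φ) (Dv : Fin n → Derivation k K K)
    (hdet : (Matrix.of fun a j => Dv a (φ (W.z j))).det ≠ 0) :
    ∃ f : Crv π k, IsVeryFree f ∧ (∀ i, f.at (some (σ i)) = v i) ∧
      (∀ i, f.OnlyAt (v i) (σ i)) ∧ ∀ i, f.ImmAt (v i) (σ i) := by
  classical
  have hsm : Smooth π := SmoothOfRelativeDimension.smooth n π
  -- a finitely generated subalgebra
  obtain ⟨t, ht⟩ := (Chart.finiteType W.toChart).1
  obtain ⟨A0, hA0, hT0, Φ0, hΦ0⟩ := Crv.descend ψ (t.image φ)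
  -- finitely many elements for the condition `OnlyAt`
  have hfin : ∀ i, ∃ T : Finset K, ∀ (A' : Subalgebra k K) (hle : A0 ≤ A'), (∀ x ∈ T, x ∈ A') →
      ∀ p : PrimeSpectrum A'[X],
        (Φ0.y.map (pmap (Subalgebra.inclusion hle))).1 p = (v i).pnt →
        X - C (algebraMap k A' (σ i)) ∈ p.asIdeal := by
    intro i
    apply TaskQ4.exists_fin A0 Φ0.y (v i) (σ i)
    intro p hp
    apply (hav i).1 p
    rw [← hΦ0]
    exact hp
  choose T hT using hfin
  let A : Subalgebra k K := A0 ⊔ Algebra.adjoin k ((Finset.univ.biUnion T : Finset K) : Set K)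
  have hA : A.FG := hA0.sup (Subalgebra.fg_adjoin_finset _)
  have hle : A0 ≤ A := le_sup_left
  have hTA : ∀ i, ∀ x ∈ T i, x ∈ A := fun i x hx =>
    (le_sup_right : _ ≤ A) (Algebra.subset_adjoin (Finset.mem_coe.2
      (Finset.mem_biUnion.2 ⟨i, Finset.mem_univ _, hx⟩)))
  let ΦA : Crv π A := Φ0.map (Subalgebra.inclusion hle)
  have hΦA : ΦA.map A.val = ψ := by
    rw [TaskO.map_map]
    exact hΦ0
  have hφA : ∀ b, φ b ∈ A := by
    intro b
    have h1 : (Algebra.adjoin k (t : Set W.B)).map φ ≤ A0 := by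
      rw [AlgHom.map_adjoin, Algebra.adjoin_le_iff]
      rintro _ ⟨x, hx, rfl⟩
      exact hT0 _ (Finset.mem_image_of_mem _ hx)
    exact hle (h1 ⟨b, by rw [ht]; exact Algebra.mem_top, rfl⟩)
  let φA : W.B →ₐ[k] A := φ.codRestrict A hφA
  have hφA' : A.val.comp φA = φ := AlgHom.ext fun b => rfl
  have hA00 : ΦA.at (some 0) = W.pt.map φA := by
    apply Pt.map_injective A.val Subtype.val_injective
    rw [← TaskO.at_map, hΦA, h, Pt.map_map, hφA']
  have hAinf : ΦA.at none = v0.const := by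
    apply Pt.map_injective A.val Subtype.val_injective
    rw [← TaskO.at_map, hΦA, h0, TaskO.const_map]
  have hsi : ∀ i, ΦA.at (some (σ i)) = (v i).const := by
    intro i
    apply Pt.map_injective A.val Subtype.val_injective
    rw [← TaskO.at_map, hΦA, hv, TaskO.const_map]
  obtain ⟨g, hg, hcore⟩ := TaskQ4.core A hA W φA Dv hdet
  -- the immersion condition
  have himA : ∀ i, ∃ (W' : Chart π) (ν : W'.B →ₐ[k] k) (χ : W'.B →ₐ[k] DualNumber A),
      v i = W'.pt.map ν ∧ ΦA.y.map (evAt A (σ i)) = W'.pt.map χ ∧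
      (∀ b, (χ b).fst = algebraMap k A (ν b)) ∧ ∃ b, (χ b).snd ≠ 0 := by
    intro i
    obtain ⟨W', ν, χ, h1, h2, h3, b, h4⟩ := him i
    obtain ⟨χA, h5, h6⟩ := TaskQ4.dual_chart (ΦA.y.map (evAt A (σ i))) (v i) (by
      rw [Pt.map_map, TaskQ4.dfst_evAt]; exact hsi i) W' ν h1
    refine ⟨W', ν, χA, h1, h5, h6, b, fun h7 => h4 ?_⟩
    have h8 : (TaskQ4.dmap A.val).comp χA = χ := by
      apply W'.map_injective
      rw [← Pt.map_map, ← h5, Pt.map_map, TaskQ4.dmap_evAt, ← Pt.map_map, ← h2, ← hΦA]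
      rfl
    rw [← h8]
    change (TaskQ4.dmap A.val (χA b)).snd = 0
    rw [TaskQ4.dmap_snd, h7, map_zero]
  choose W' ν χ hW1 hW2 hW3 c hc using himA
  -- the point
  have hft : Algebra.FiniteType k A := (Subalgebra.fg_iff_finiteType A).1 hA
  obtain ⟨a, ha⟩ := TaskO.exists_point (k := k) (g * ∏ i, (χ i (c i)).snd)
    (mul_ne_zero hg (Finset.prod_ne_zero_iff.2 fun i _ => hc i))
  rw [map_mul, map_prod] at ha
  have hag : a g ≠ 0 := left_ne_zero_of_mul ha
  have hac : ∀ i, a (χ i (c i)).snd ≠ 0 := fun i =>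
    Finset.prod_ne_zero_iff.1 (right_ne_zero_of_mul ha) i (Finset.mem_univ i)
  have hnone : (ΦA.map a).at none = v0 := by
    rw [TaskO.at_map, hAinf, TaskO.const_map, TaskO.const_k]
  refine ⟨ΦA.map a, fun τ hτ => ?_, fun i => ?_, fun i => ⟨fun p hp => ?_, fun p hp hX => ?_⟩,
    fun i => ?_⟩
  · rw [TaskO.at_map, hA00] at hτ
    obtain ⟨δ, hδ1, hδ2⟩ := hcore a hag τ hτ
    refine ⟨ΦA.map δ, ?_, ?_, ?_⟩
    · rw [TaskO.map_map, hδ1]
    · rw [TaskO.at_map, hA00, hδ2]
    · rw [TaskO.at_map, hAinf, TaskO.const_map, hnone]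
      rfl
  · rw [TaskO.at_map, hsi, TaskO.const_map, TaskO.const_k]
  · -- OnlyAt, first part
    have h1 : X - C (algebraMap k A (σ i)) ∈
        (PrimeSpectrum.comap (pmap (k := k) a).toRingHom p).asIdeal := by
      apply hT i A hle (hTA i)
      exact hp
    have h2 : (X - C (algebraMap k k (σ i)) : k[X]) ∈ p.asIdeal := by
      have h3 : pmap a (X - C (algebraMap k A (σ i))) ∈ p.asIdeal := h1
      have h4 : pmap a (X - C (algebraMap k A (σ i))) = X - C (algebraMap k k (σ i)) := by
        change Polynomial.map _ _ = _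
        rw [Polynomial.map_sub, Polynomial.map_X, Polynomial.map_C]
        congr 2
        exact a.commutes (σ i)
      rwa [h4] at h3
    have hmax : (Ideal.span {(X - C (algebraMap k k (σ i)) : k[X])}).IsMaximal :=
      PrincipalIdealRing.isMaximal_of_irreducible (irreducible_X_sub_C _)
    exact (hmax.eq_of_le p.2.ne_top ((Ideal.span_singleton_le_iff_mem _).2 h2)).symm
  · -- OnlyAt, second part
    have hmax : (Ideal.span {(X : k[X])}).IsMaximal :=
      PrincipalIdealRing.isMaximal_of_irreducible irreducible_X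
    have h1 : p.asIdeal = Ideal.span {(X : k[X])} :=
      (hmax.eq_of_le p.2.ne_top ((Ideal.span_singleton_le_iff_mem _).2 hX)).symm
    let q : PrimeSpectrum k := ⟨⊥, Ideal.isPrime_bot⟩
    have h2 : p = PrimeSpectrum.comap (evk (R := k) (0 : k)).toRingHom q := by
      apply PrimeSpectrum.ext
      rw [h1]
      apply hmax.eq_of_le (PrimeSpectrum.comap (evk (R := k) (0 : k)).toRingHom q).2.ne_top
      rw [Ideal.span_singleton_le_iff_mem]
      change evk (R := k) (0 : k) X ∈ (⊥ : Ideal k)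
      rw [Ideal.mem_bot]
      change Polynomial.aeval _ X = _
      rw [Polynomial.aeval_X, map_zero]
    have h3 : v0.pnt = (v i).pnt := by
      rw [← hp, h2, ← TaskQ4.map_pt]
      change _ = ((ΦA.map a).at none).1 q
      rw [hnone, Pt.pnt]
      congr 1
      exact Subsingleton.elim (α := PrimeSpectrum k) _ _
    let Q : PrimeSpectrum K := ⟨⊥, Ideal.isPrime_bot⟩
    apply (hav i).2 (PrimeSpectrum.comap (evk (R := K) (0 : k)).toRingHom Q)
    · rw [← TaskQ4.map_pt]
      change (ψ.at none).1 Q = _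
      rw [h0, TaskQ4.const_pt, h3]
    · change evk (R := K) (0 : k) X ∈ (⊥ : Ideal K)
      rw [Ideal.mem_bot]
      change Polynomial.aeval _ X = _
      rw [Polynomial.aeval_X, map_zero]
  · -- ImmAt
    refine ⟨W' i, ν i, (TaskQ4.dmap a).comp (χ i), hW1 i, ?_, fun b => ?_, c i, ?_⟩
    · rw [← Pt.map_map, ← hW2, Pt.map_map, TaskQ4.dmap_evAt, ← Pt.map_map]
      rfl
    · change (TaskQ4.dmap a (χ i b)).fst = _
      rw [TaskQ4.dmap_fst, hW3, AlgHom.commutes]
    · change (TaskQ4.dmap a (χ i (c i))).snd ≠ 0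
      rw [TaskQ4.dmap_snd]
      exact hac i

end Pool.Agent.H19VF
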