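import Pool.Agent.H19VF.G_P1

/-! # Task Q5: smooth points of the image curve -/

set_option autoImplicit false

open AlgebraicGeometry CategoryTheory Polynomial

universe u

namespace Pool.Agent.H19VF

open IsLocalRing in
theorem Q5alg {C B A O : Type u} [CommRing C] [CommRing B] [CommRing A] [CommRing O]
    [IsLocalRing A] [IsLocalRing O]
    (φ : C →+* B) (hφ : φ.Finite) (p : Ideal B) [hp : p.IsPrime]
    (huniq : ∀ p' : Ideal B, p'.IsPrime → p'.comap φ = p.comap φ → p' = p)
    (hres : ∀ b : B, ∃ c : C, b - φ c ∈ p)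
    [Algebra B O] [IsLocalization.AtPrime O p]
    (α : C →+* A) (ψ : A →+* O) [IsLocalHom ψ] (hcomm : ∀ c, ψ (α c) = algebraMap B O (φ c))
    (hmax : (maximalIdeal A).map ψ = maximalIdeal O) : Function.Surjective ψ := by
  classical
  have hu : ∀ s : B, s ∉ p → IsUnit (algebraMap B O s) := fun s hs =>
    IsLocalization.map_units O (⟨s, hs⟩ : p.primeCompl)
  have hunit : ∀ c : C, φ c ∉ p → IsUnit (α c) := by
    intro c hc
    apply isUnit_of_map_unit ψ
    rw [hcomm]
    exact hu _ hc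
  have hgo : ∀ s : B, s ∉ p → ∃ (c : C) (s' : B), φ c ∉ p ∧ φ c = s * s' := by
    intro s hs
    by_contra hcon
    push Not at hcon
    let _ : Algebra C B := φ.toAlgebra
    have hint : Algebra.IsIntegral C B := by
      have : Module.Finite C B := hφ
      infer_instance
    have hle : (Ideal.span {s}).comap (algebraMap C B) ≤ p.comap (algebraMap C B) := by
      intro c hc
      obtain ⟨s', hs'⟩ := Ideal.mem_span_singleton.1 (Ideal.mem_comap.1 hc)
      by_contra h
      exact hcon c s' h hs'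
    obtain ⟨Q, hQ1, hQ2, hQ3⟩ := Ideal.exists_ideal_over_prime_of_isIntegral
      (p.comap (algebraMap C B)) (Ideal.span {s}) hle
    have h1 := huniq Q hQ2 hQ3
    rw [h1] at hQ1
    exact hs (hQ1 (Ideal.mem_span_singleton_self s))
  let _ : Algebra A O := ψ.toAlgebra
  have halg : ∀ a, algebraMap A O a = ψ a := fun a => rfl
  have hsm : ∀ (a : A) (o : O), a • o = ψ a * o := fun a o => rfl
  have hfin : Module.Finite A O := by
    let _ : Algebra C B := φ.toAlgebra
    have hfin' : Module.Finite C B := hφ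
    obtain ⟨S, hS⟩ := hfin'.fg_top
    refine ⟨⟨S.image (algebraMap B O), ?_⟩⟩
    rw [eq_top_iff]
    have h1 : ∀ b : B, algebraMap B O b ∈
        Submodule.span A ((S.image (algebraMap B O) : Finset O) : Set O) := by
      intro b
      have hb : b ∈ Submodule.span C (S : Set B) := by rw [hS]; trivial
      induction hb using Submodule.span_induction with
      | mem x hx =>
        exact Submodule.subset_span (Finset.mem_coe.2 (Finset.mem_image_of_mem _ hx))
      | zero => rw [map_zero]; exact Submodule.zero_mem _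
      | add x y _ _ hx hy => rw [map_add]; exact Submodule.add_mem _ hx hy
      | smul c x _ hx =>
        have h2 : algebraMap B O (c • x) = α c • algebraMap B O x := by
          rw [hsm, hcomm, ← map_mul]
          rfl
        rw [h2]
        exact Submodule.smul_mem _ _ hx
    intro o _
    obtain ⟨⟨b, s⟩, hbs⟩ := IsLocalization.surj p.primeCompl o
    obtain ⟨c, s', hc, hcs⟩ := hgo s s.2
    obtain ⟨w, hw⟩ := hunit c hc
    have h3 : o = ((w⁻¹ : Aˣ) : A) • algebraMap B O (b * s') := by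
      have h4 : ψ (α c) * o = algebraMap B O (b * s') := by
        rw [hcomm, hcs, map_mul, map_mul]
        simp only at hbs
        rw [← hbs]
        ring
      rw [hsm, ← h4, ← hw, ← mul_assoc, ← map_mul, Units.inv_mul, map_one, one_mul]
    rw [h3]
    exact Submodule.smul_mem _ _ (h1 _)
  have hnak : (⊤ : Submodule A O) ≤ LinearMap.range (Algebra.linearMap A O) := by
    refine Submodule.le_of_le_smul_of_le_jacobson_bot (I := maximalIdeal A) hfin.fg_top
      (IsLocalRing.maximalIdeal_le_jacobson _) ?_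
    intro o _
    obtain ⟨⟨b, s⟩, hbs⟩ := IsLocalization.surj p.primeCompl o
    simp only at hbs
    obtain ⟨c, hc⟩ := hres b
    obtain ⟨c', hc'⟩ := hres s
    have hc'p : φ c' ∉ p := by
      intro h
      exact s.2 ((Submodule.sub_mem_iff_left p h).1 hc')
    obtain ⟨w, hw⟩ := hunit c' hc'p
    have hmem : ∀ x : B, x ∈ p → algebraMap B O x ∈ maximalIdeal O := fun x hx =>
      (IsLocalization.AtPrime.to_map_mem_maximal_iff O p x).2 hx
    have h1 : o - ψ (α c * ((w⁻¹ : Aˣ) : A)) ∈ maximalIdeal O := by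
      rw [← IsLocalRing.residue_eq_zero_iff]
      have e1 : residue O (algebraMap B O b) = residue O (ψ (α c)) := by
        rw [← sub_eq_zero, ← map_sub, hcomm, ← map_sub, IsLocalRing.residue_eq_zero_iff]
        exact hmem _ hc
      have e2 : residue O (algebraMap B O s) = residue O (ψ (α c')) := by
        rw [← sub_eq_zero, ← map_sub, hcomm, ← map_sub, IsLocalRing.residue_eq_zero_iff]
        exact hmem _ hc'
      have e3 : residue O (ψ (α c')) * residue O (ψ ((w⁻¹ : Aˣ) : A)) = 1 := by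
        rw [← map_mul, ← map_mul, ← hw, Units.mul_inv, map_one, map_one]
      have e4 : residue O o * residue O (algebraMap B O s) = residue O (algebraMap B O b) := by
        rw [← map_mul, hbs]
      rw [map_sub, map_mul, map_mul, ← e1, ← e4, e2, mul_assoc, e3, mul_one, sub_self]
    have h2 : o - ψ (α c * ((w⁻¹ : Aˣ) : A)) ∈ (maximalIdeal A) • (⊤ : Submodule A O) := by
      rw [Ideal.smul_top_eq_map]
      change _ ∈ Ideal.map ψ (maximalIdeal A)
      rw [hmax]; exact h1
    have h3 : ψ (α c * ((w⁻¹ : Aˣ) : A)) ∈ LinearMap.range (Algebra.linearMap A O) :=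
      ⟨_, rfl⟩
    have h4 : o = ψ (α c * ((w⁻¹ : Aˣ) : A)) + (o - ψ (α c * ((w⁻¹ : Aˣ) : A))) := by ring
    rw [h4]
    exact Submodule.add_mem_sup h3 h2
  intro o
  obtain ⟨a, ha⟩ := hnak (Submodule.mem_top (x := o))
  exact ⟨a, ha⟩

theorem Q5stalk {X V : Scheme.{u}} (f : X ⟶ V) (W : V.Opens) (hW : IsAffineOpen W)
    (hU : IsAffineOpen (f ⁻¹ᵁ W)) (hfin : (f.appLE W (f ⁻¹ᵁ W) le_rfl).hom.Finite) (x : X)
    (hx : x ∈ f ⁻¹ᵁ W) (huniq : ∀ x', f x' = f x → x' = x)
    (hres : ∀ b : Γ(X, f ⁻¹ᵁ W), ∃ c : Γ(V, W),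
      b - (f.appLE W (f ⁻¹ᵁ W) le_rfl).hom c ∈ (hU.primeIdealOf ⟨x, hx⟩).asIdeal)
    (himm : Ideal.map (f.stalkMap x).hom (IsLocalRing.maximalIdeal (V.presheaf.stalk (f x))) =
      IsLocalRing.maximalIdeal (X.presheaf.stalk x)) :
    Function.Surjective (f.stalkMap x).hom := by
  let _ := X.presheaf.algebra_section_stalk ⟨x, hx⟩
  have hloc := hU.isLocalization_stalk ⟨x, hx⟩
  refine Q5alg (f.appLE W (f ⁻¹ᵁ W) le_rfl).hom hfin (hU.primeIdealOf ⟨x, hx⟩).asIdeal ?_ hres
    (V.presheaf.germ W (f x) hx).hom (f.stalkMap x).hom ?_ himm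
  · intro p' hp' hcomap
    let y : PrimeSpectrum Γ(X, f ⁻¹ᵁ W) := ⟨p', hp'⟩
    have hy : hU.fromSpec y ∈ f ⁻¹ᵁ W := by
      have h1 := hU.range_fromSpec
      have h2 : hU.fromSpec y ∈ Set.range hU.fromSpec := ⟨y, rfl⟩
      rw [h1] at h2
      exact h2
    have hinj : Function.Injective hU.fromSpec := hU.fromSpec.isOpenEmbedding.injective
    have h3 : hU.primeIdealOf ⟨hU.fromSpec y, hy⟩ = y := by
      apply hinj
      rw [hU.fromSpec_primeIdealOf]
    have h4 := IsAffineOpen.comap_primeIdealOf_appLE (f := f) W hW (f ⁻¹ᵁ W) hU le_rfl hy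
    have h5 := IsAffineOpen.comap_primeIdealOf_appLE (f := f) W hW (f ⁻¹ᵁ W) hU le_rfl hx
    have h6 : hW.primeIdealOf ⟨f (hU.fromSpec y), hy⟩ = hW.primeIdealOf ⟨f x, hx⟩ := by
      rw [← h4, ← h5, h3]
      exact PrimeSpectrum.ext hcomap
    have h7 : f (hU.fromSpec y) = f x := by
      have := congrArg hW.fromSpec h6
      rwa [hW.fromSpec_primeIdealOf, hW.fromSpec_primeIdealOf] at this
    have h8 := huniq _ h7
    have h9 : hU.primeIdealOf ⟨x, hx⟩ = y := by
      rw [← h3]
      congr 1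
      exact Subtype.ext h8.symm
    rw [h9]
  · intro c
    have h1 := Scheme.Hom.germ_stalkMap_apply f W x hx c
    change (f.stalkMap x).hom ((V.presheaf.germ W (f x) hx).hom c) = (X.presheaf.germ (f ⁻¹ᵁ W) x hx).hom _
    rw [Scheme.Hom.appLE_eq_app]
    exact h1

theorem Q5inj {X V : Scheme.{u}} (f : X ⟶ V) [QuasiCompact f] [IsIntegral X] (x : X) :
    Function.Injective (f.toImage.stalkMap x) := by
  obtain ⟨_, ⟨W, hW, rfl⟩, hxW, -⟩ := V.isBasis_affineOpens.exists_subset_of_mem_open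
    (Set.mem_univ (f.imageι (f.toImage x))) isOpen_univ
  have hU : IsAffineOpen (f.imageι ⁻¹ᵁ W) := IsAffineOpen.preimage hW f.imageι
  refine IsAffineOpen.stalkMap_injective f.toImage hU x hxW ?_
  intro s hs
  have h1 := Scheme.Hom.germ_stalkMap_apply f.toImage (f.imageι ⁻¹ᵁ W) x hxW s
  rw [h1] at hs
  have h2 : f.toImage.app (f.imageι ⁻¹ᵁ W) s = 0 := by
    apply germ_injective_of_isIntegral X (U := f.toImage ⁻¹ᵁ (f.imageι ⁻¹ᵁ W)) x hxW
    rw [hs, map_zero]
  have h3 : s = 0 := by
    apply f.toImage_app_injective ⟨W, hW⟩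
    rw [map_zero]
    exact h2
  rw [h3, map_zero]

theorem Q5bij {X V : Scheme.{u}} (f : X ⟶ V) [QuasiCompact f] [IsIntegral X] (x : X)
    (hs : Function.Surjective (f.stalkMap x)) : Function.Bijective (f.toImage.stalkMap x) := by
  refine ⟨Q5inj f x, ?_⟩
  have key : ∀ f' : X ⟶ V, f' = f → Function.Surjective (f'.stalkMap x) := by
    rintro _ rfl
    exact hs
  have h1 := key (f.toImage ≫ f.imageι) f.toImage_imageι
  rw [Scheme.Hom.stalkMap_comp] at h1
  intro z
  obtain ⟨w, hw⟩ := h1 z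
  exact ⟨_, hw⟩

theorem Q5fin {X V : Scheme.{u}} (f : X ⟶ V) [IsProper f] (W : V.Opens) (hW : IsAffineOpen W)
    (hU : IsAffineOpen (f ⁻¹ᵁ W)) : (f.appLE W (f ⁻¹ᵁ W) le_rfl).hom.Finite := by
  have : IsAffine W := hW
  have : IsAffine (f ⁻¹ᵁ W) := hU
  have h1 : IsFinite (f ∣_ W) := IsFinite.iff_isProper_and_isAffineHom.2 ⟨inferInstance, inferInstance⟩
  have h2 := (f ∣_ W).finite_app ⊤ (isAffineOpen_top _)
  rw [Scheme.Hom.app_eq_appLE, morphismRestrict_appLE] at h2
  have key : ∀ (W' : V.Opens) (U' : X.Opens) (e : U' ≤ f ⁻¹ᵁ W'), W' = W → U' = f ⁻¹ᵁ W →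
      (f.appLE W' U' e).hom.Finite → (f.appLE W (f ⁻¹ᵁ W) le_rfl).hom.Finite := by
    rintro W' U' e rfl rfl h
    exact h
  refine key _ _ _ ?_ ?_ h2
  · simp
  · simp

theorem Q5basic (R : Type u) [CommRing R] [IsPrincipalIdealRing R]
    (U : TopologicalSpace.Opens (PrimeSpectrum R)) : ∃ r : R, U = PrimeSpectrum.basicOpen r := by
  obtain ⟨I, hI⟩ := (PrimeSpectrum.isClosed_iff_zeroLocus_ideal (U : Set (PrimeSpectrum R))ᶜ).1
    U.isOpen.isClosed_compl
  obtain ⟨r, hr⟩ := (IsPrincipalIdealRing.principal I).principal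
  refine ⟨r, ?_⟩
  apply TopologicalSpace.Opens.ext
  rw [PrimeSpectrum.basicOpen_eq_zeroLocus_compl, ← compl_compl (U : Set (PrimeSpectrum R))]
  congr 1
  refine hI.trans ?_
  rw [hr]
  exact PrimeSpectrum.zeroLocus_span _

theorem Q5open (R : Type u) [CommRing R] [IsPrincipalIdealRing R] (U : (Spec (.of R)).Opens) :
    IsAffineOpen U := by
  obtain ⟨r, hr⟩ := Q5basic R U
  have h := IsAffineOpen.Spec_basicOpen (R := .of R) r
  exact hr ▸ h

/-- the stalk of the projective line at a closed point is a discrete valuation ring -/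
theorem Q5dvr (k : Type u) [Field k] (x : P1 k) (hx : IsClosed ({x} : Set (P1 k))) :
    ∃ _ : IsDomain ((P1 k).presheaf.stalk x), IsDiscreteValuationRing ((P1 k).presheaf.stalk x) := by
  obtain ⟨i, y, rfl⟩ := chart_cover k x
  have hinj : Function.Injective (P1.chart k i) := (P1.chart k i).isOpenEmbedding.injective
  have hy : IsClosed ({y} : Set (Spec (.of k[X]))) := by
    have h1 := hx.preimage (P1.chart k i).continuous
    have h2 : (P1.chart k i) ⁻¹' {P1.chart k i y} = {y} := by
      ext z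
      simp only [Set.mem_preimage, Set.mem_singleton_iff]
      exact ⟨fun h => hinj h, fun h => by rw [h]⟩
    rwa [h2] at h1
  let y' : PrimeSpectrum k[X] := y
  have hmax : y'.asIdeal.IsMaximal := (PrimeSpectrum.isClosed_singleton_iff_isMaximal y').1 hy
  have hbot : y'.asIdeal ≠ ⊥ := by
    intro h0
    have h1 : IsField k[X] := (Ring.isField_iff_maximal_bot).2 (h0 ▸ hmax)
    exact Polynomial.not_isField k h1
  let e1 : ((Spec.structureSheaf k[X]).presheaf.stalk y') ≃+* Localization.AtPrime y'.asIdeal :=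
    (IsLocalization.algEquiv y'.asIdeal.primeCompl ((Spec.structureSheaf k[X]).presheaf.stalk y')
      (Localization.AtPrime y'.asIdeal)).toRingEquiv
  have hdvr : IsDiscreteValuationRing (Localization.AtPrime y'.asIdeal) :=
    IsLocalization.AtPrime.isDiscreteValuationRing_of_dedekind_domain k[X] hbot _
  let e : (P1 k).presheaf.stalk (P1.chart k i y) ≃+* (Spec.structureSheaf k[X]).presheaf.stalk y' :=
    (asIso ((P1.chart k i).stalkMap y)).commRingCatIsoToRingEquiv
  let e2 : (P1 k).presheaf.stalk (P1.chart k i y) ≃+* Localization.AtPrime y'.asIdeal := e.trans e1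
  have hdom' : IsDomain ((P1 k).presheaf.stalk (P1.chart k i y)) := e2.toMulEquiv.isDomain
  exact ⟨hdom', IsDiscreteValuationRing.RingEquivClass.isDiscreteValuationRing e2.symm⟩

theorem Q5res0 {k : Type u} [Field k] [IsAlgClosed k] {B : Type u} [CommRing B] (κ1 : k →+* B)
    (h : κ1.FiniteType) (p : Ideal B) [hp : p.IsMaximal] (b : B) : ∃ a : k, b - κ1 a ∈ p := by
  let _ : Field (B ⧸ p) := Ideal.Quotient.field p
  let _ : Algebra k (B ⧸ p) := ((Ideal.Quotient.mk p).comp κ1).toAlgebra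
  have h1 : ((Ideal.Quotient.mk p).comp κ1).FiniteType :=
    (RingHom.FiniteType.of_surjective _ Ideal.Quotient.mk_surjective).comp h
  have h2 : Algebra.FiniteType k (B ⧸ p) := h1
  have h3 : Module.Finite k (B ⧸ p) := finite_of_finite_type_of_isJacobsonRing k (B ⧸ p)
  obtain ⟨a, ha⟩ := (IsAlgClosed.algebraMap_bijective_of_isIntegral (k := k) (K := B ⧸ p)).2
    (Ideal.Quotient.mk p b)
  refine ⟨a, ?_⟩
  rw [← Ideal.Quotient.eq]
  exact ha.symm

theorem Q5res {k : Type u} [Field k] [IsAlgClosed k] {X V : Scheme.{u}} (π : V ⟶ Spec (.of k))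
    [LocallyOfFiniteType π] (f : X ⟶ V) (W : V.Opens) (hW : IsAffineOpen W)
    (hfin : (f.appLE W (f ⁻¹ᵁ W) le_rfl).hom.Finite) (p : Ideal Γ(X, f ⁻¹ᵁ W)) [p.IsMaximal]
    (b : Γ(X, f ⁻¹ᵁ W)) : ∃ c : Γ(V, W), b - (f.appLE W (f ⁻¹ᵁ W) le_rfl).hom c ∈ p := by
  have h1 := π.finiteType_appLE (isAffineOpen_top _) hW le_top
  have h2 : (Scheme.ΓSpecIso (.of k)).inv.hom.FiniteType :=
    RingHom.FiniteType.of_surjective _
      (Scheme.ΓSpecIso (.of k)).symm.commRingCatIsoToRingEquiv.surjective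
  obtain ⟨a, ha⟩ := Q5res0 ((f.appLE W (f ⁻¹ᵁ W) le_rfl).hom.comp
    ((π.appLE ⊤ W le_top).hom.comp (Scheme.ΓSpecIso (.of k)).inv.hom))
    ((RingHom.FiniteType.of_finite hfin).comp (h1.comp h2)) p b
  exact ⟨_, ha⟩

variable {k : Type u} [Field k] {V : Scheme.{u}} {π : V ⟶ Spec (.of k)}

/-- The closed point `v` of `V` is a smooth point of the (reduced) image curve of the morphism `f`
from the projective line: it lies on the scheme-theoretic image of `f` (which is reduced, since the
projective line is), and the local ring of the image at `v` is a discrete valuation ring. -/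
def IsSmoothPointOfImage (f : P1 k ⟶ V) (v : V) : Prop :=
  ∃ y : f.image, f.imageι y = v ∧ ∃ _ : IsDomain (f.image.presheaf.stalk y),
    IsDiscreteValuationRing (f.image.presheaf.stalk y)

/-- If `f` passes through `v` once only and is an immersion there, then `v` is a smooth point of
the image. Proof: for an affine open neighbourhood `W` of `v`, `f⁻¹(W) → W` is finite (proper and
affine: an open subset of the projective line different from it is affine); by Nakayama
`O_{V,v} → O_{P1,x}` is surjective, and the local ring of the image is the image. -/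
theorem smooth_image [IsAlgClosed k] [IsSeparated π] [LocallyOfFiniteType π] (f : P1 k ⟶ V)
    (hf : f ≫ π = P1.str k) (v : V) (hv : IsClosed ({v} : Set V)) (x : P1 k) (hx : f x = v)
    (huniq : ∀ x', f x' = v → x' = x)
    (himm : Ideal.map (f.stalkMap x).hom (IsLocalRing.maximalIdeal (V.presheaf.stalk (f x))) =
      IsLocalRing.maximalIdeal ((P1 k).presheaf.stalk x)) :
    IsSmoothPointOfImage f v := by
  have hprop' : IsProper (f ≫ π) := by rw [hf]; infer_instance
  have hprop : IsProper f := IsProper.of_comp f π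
  have hxcl : IsClosed ({x} : Set (P1 k)) := by
    have h1 := hv.preimage f.continuous
    have h2 : f ⁻¹' {v} = {x} := by
      ext z
      simp only [Set.mem_preimage, Set.mem_singleton_iff]
      exact ⟨fun h => huniq z h, fun h => by rw [h]; exact hx⟩
    rwa [h2] at h1
  obtain ⟨i, y, hy⟩ := chart_cover k x
  have hF : IsClosed (f '' ((P1.chart k i).opensRange : Set (P1 k))ᶜ) :=
    f.isClosedMap _ (P1.chart k i).opensRange.isOpen.isClosed_compl
  have hvF : v ∈ (f '' ((P1.chart k i).opensRange : Set (P1 k))ᶜ)ᶜ := by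
    rintro ⟨z, hz, hzv⟩
    apply hz
    rw [huniq z hzv]
    exact ⟨y, hy⟩
  obtain ⟨_, ⟨W, hW, rfl⟩, hvW, hWF⟩ := V.isBasis_affineOpens.exists_subset_of_mem_open
    hvF hF.isOpen_compl
  have hle : f ⁻¹ᵁ W ≤ (P1.chart k i).opensRange := by
    intro z hz
    by_contra h
    exact hWF hz ⟨z, h, rfl⟩
  have hU : IsAffineOpen (f ⁻¹ᵁ W) := by
    have h1 : (P1.chart k i) ''ᵁ ((P1.chart k i) ⁻¹ᵁ (f ⁻¹ᵁ W)) = f ⁻¹ᵁ W := by
      rw [Scheme.Hom.image_preimage_eq_opensRange_inf]
      exact inf_eq_right.2 hle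
    rw [← h1, Scheme.Hom.isAffineOpen_iff_of_isOpenImmersion]
    exact Q5open k[X] _
  have hfin := Q5fin f W hW hU
  have hxW : x ∈ f ⁻¹ᵁ W := by
    change f x ∈ W
    rw [hx]; exact hvW
  have hpmax : (hU.primeIdealOf ⟨x, hxW⟩).asIdeal.IsMaximal :=
    hU.primeIdealOf_isMaximal_of_isClosed ⟨x, hxW⟩ hxcl
  have hsurj := Q5stalk f W hW hU hfin x hxW (fun x' h => huniq x' (h.trans hx))
    (Q5res π f W hW hfin _) himm
  have hbij := Q5bij f x hsurj
  obtain ⟨hdom, hdvr⟩ := Q5dvr k x hxcl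
  let e : f.image.presheaf.stalk (f.toImage x) ≃+* (P1 k).presheaf.stalk x :=
    RingEquiv.ofBijective (f.toImage.stalkMap x).hom hbij
  have hdom' : IsDomain (f.image.presheaf.stalk (f.toImage x)) := e.toMulEquiv.isDomain
  refine ⟨f.toImage x, ?_, hdom', ?_⟩
  · rw [← Scheme.Hom.comp_apply, f.toImage_imageι]
    exact hx
  · exact IsDiscreteValuationRing.RingEquivClass.isDiscreteValuationRing e.symm

end Pool.Agent.H19VF
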