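import Pool.Agent.H19VF.J_Fam
import Pool.Agent.H19VF.H_Glue
import Pool.Agent.H19VF.Q_Defs
import Pool.Agent.H19VF.F_Pt0

/-! # Task R1: values and jets of the glued curve, computed in charts

The curve `ψ` over `κ((t))` is given by a point `θ` over `κ(y)((t))`, which near a `k`-point `s` of
the projective line is given by a homomorphism `φ` to the power series over the local ring at `s`.
Then the value (and the 1-jet) of `ψ` at `s` is obtained by taking the value (the 1-jet) of each
coefficient of `φ`. Proof: with the homomorphism from the ring `serSub (regAt s')` (`s'` the image of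
`s`) to `LSer κ` (to `DualNumber (LSer κ)`) which takes the value (the 1-jet) of each coefficient,
and `Pt.map_injective` for the inclusion of `serSub (regAt s')` in `LSer (RatFunc κ)`. -/

set_option autoImplicit false

open AlgebraicGeometry CategoryTheory Polynomial

universe u

namespace Pool.Agent.H19VF

variable {k : Type u} [Field k] {V : Scheme.{u}} {π : V ⟶ Spec (.of k)}

section R1emb

variable {κ : Type u} [Field κ]

/-- the power series over the local ring as Laurent series -/
noncomputable def R1emb (s : Option κ) : PowerSeries (regAt s) →+* serSub (regAt s) :=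
  (LSer.ofPS.comp (PowerSeries.map (regAt s).subtype)).codRestrict (serSub (regAt s)) (by
    intro f n
    change (LSer.ofPS (PowerSeries.map (regAt s).subtype f)).coeff n ∈ regAt s
    rw [LSer.coeff_ofPS]
    split_ifs
    · rw [PowerSeries.coeff_map]
      exact (PowerSeries.coeff n.toNat f).2
    · exact (regAt s).zero_mem)

theorem R1emb_coe (s : Option κ) (f : PowerSeries (regAt s)) :
    (R1emb s f : LSer (RatFunc κ)) = LSer.ofPS (PowerSeries.map (regAt s).subtype f) := rfl

theorem R1unit {s : Option κ} (g : regAt s) (h : ¬ Van s 1 (g : RatFunc κ)) : IsUnit g := by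
  have h1 := regAt_inv g.2 h
  refine IsUnit.of_mul_eq_one ⟨_, h1⟩ ?_
  apply Subtype.ext
  change (g : RatFunc κ) * (g : RatFunc κ)⁻¹ = 1
  apply mul_inv_cancel₀
  intro h0
  apply h
  rw [h0]
  change (0 : RatFunc κ) * _ ∈ _
  rw [zero_mul]
  exact (regAt s).zero_mem

/-- first order expansions exist -/
theorem R1exp {s : Option κ} {g : RatFunc κ} (hg : g ∈ regAt s) :
    ∃ a b : κ, Van s 2 (g - polR (C a) - polR (C b) * unif s) := by
  obtain ⟨a, ha⟩ := Dres hg
  have hu := unif_ne_zero s
  have h1 : (g - polR (C a)) * (unif s)⁻¹ ∈ regAt s := by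
    have h2 : (g - polR (C a)) * (unif s) ^ (-(1 : ℤ)) ∈ regAt s := ha
    rwa [zpow_neg_one] at h2
  obtain ⟨b, hb⟩ := Dres h1
  refine ⟨a, b, ?_⟩
  have h3 := hb.mul (Dvan_pow s 1)
  have h4 : ((g - polR (C a)) * (unif s)⁻¹ - polR (C b)) * unif s ^ (1 : ℤ) =
      g - polR (C a) - polR (C b) * unif s := by
    rw [zpow_one]
    field_simp
  rw [h4] at h3
  exact h3

end R1emb

section R1aux

variable {κ : Type u} [Field κ] [Algebra k κ]

attribute [local instance] J2alg

/-- the value map of the local ring at a `k`-point -/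
theorem R1res (s : Option κ) : ∃ ρ : regAt s →ₐ[k] κ, (∀ a, ρ (J2con k s a) = a) ∧
    (∀ (g : regAt s), ρ g = 0 ↔ Van s 1 (g : RatFunc κ)) ∧
    ∀ (g : regAt s), Van s 1 ((g : RatFunc κ) - polR (C (ρ g))) := by
  obtain ⟨ρ, h1, h2⟩ := J2res k s
  refine ⟨ρ, h1, h2, fun g => ?_⟩
  have h3 := (h2 (g - J2con k s (ρ g))).1 (by rw [map_sub, h1, sub_self])
  exact h3

theorem R1gen_none (ρ : regAt (none : Option κ) →ₐ[k] κ) (h1 : ∀ a, ρ (J2con k none a) = a)
    (h2 : ∀ (g : regAt (none : Option κ)), ρ g = 0 ↔ Van none 1 (g : RatFunc κ)) :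
    (LSer.map ρ).comp (J2emb k none) = evk (0 : k) := J2ev_none ρ h1 h2

theorem R1ev_some (a : k) (ρ : regAt (some (algebraMap k κ a)) →ₐ[k] κ)
    (h1 : ∀ c, ρ (J2con k _ c) = c)
    (h2 : ∀ (g : regAt (some (algebraMap k κ a))), ρ g = 0 ↔
      Van (some (algebraMap k κ a)) 1 (g : RatFunc κ)) :
    (LSer.map ρ).comp (J2emb k (some (algebraMap k κ a))) = evk a := by
  apply J1ext
  · intro c
    rw [AlgHom.comp_apply, J2emb_C, J1evk_C]
    ext n
    rw [LSer.coeff_map, LSer.coeff_map, h1]
  · rw [AlgHom.comp_apply, J2emb_X, J1evk_X, LSer.map_C]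
    have h3 : ρ (J_gen (some (algebraMap k κ a)) - J2con k _ (algebraMap k κ a)) = 0 := by
      rw [h2]
      change (polR (X : κ[X]) - polR (C (algebraMap k κ a))) *
        (polR (X - C (algebraMap k κ a))) ^ (-(1 : ℤ)) ∈ regAt _
      rw [zpow_neg_one, ← map_sub, mul_inv_cancel₀ (Dne (X_sub_C_ne_zero _))]
      exact Subring.one_mem _
    rw [map_sub, h1, sub_eq_zero] at h3
    rw [h3, LSer.algebraMap_eq]

/-- Laurent series over the dual numbers: the map at a `k`-point. -/
theorem R1jet_some (a : k) (τ : regAt (some (algebraMap k κ a)) →ₐ[k] DualNumber κ)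
    (hτ : ∀ (g : regAt (some (algebraMap k κ a))) (c d : κ),
      Van (some (algebraMap k κ a)) 2
        ((g : RatFunc κ) - polR (C c) - polR (C d) * unif (some (algebraMap k κ a))) →
        (τ g).fst = c ∧ (τ g).snd = d) :
    ((J2iso k κ).comp (LSer.map τ)).comp (J2emb k (some (algebraMap k κ a))) =
      evAt (LSer κ) a := by
  apply J1ext
  · intro b
    have h1 : ∀ c : κ, τ (J2con k (some (algebraMap k κ a)) c) = TrivSqZeroExt.inl c := by
      intro c
      obtain ⟨h2, h3⟩ := hτ (J2con k (some (algebraMap k κ a)) c) c 0 (by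
        rw [J2con_apply, sub_self, C_0, map_zero, zero_mul, sub_zero]
        exact J2van_zero _ _)
      ext
      · rw [h2]; simp
      · rw [h3]; simp
    have h4 : evAt (LSer κ) a (C b) = TrivSqZeroExt.inl b := by
      change Polynomial.aeval _ (C b) = _
      rw [Polynomial.aeval_C]
      rfl
    rw [h4, AlgHom.comp_apply, AlgHom.comp_apply, J2emb_C]
    apply TrivSqZeroExt.ext
    · rw [J2iso_fst, TrivSqZeroExt.fst_inl]
      ext n
      rw [LSer.coeff_map, LSer.coeff_map, LSer.coeff_map, h1]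
      rfl
    · rw [J2iso_snd, TrivSqZeroExt.snd_inl]
      ext n
      rw [J2snd_coeff, LSer.coeff_map, LSer.coeff_map, h1]
      rfl
  · have h4 : evAt (LSer κ) a X =
        algebraMap k (DualNumber (LSer κ)) a + DualNumber.eps := Polynomial.aeval_X _
    rw [h4, AlgHom.comp_apply, AlgHom.comp_apply, J2emb_X, LSer.map_C]
    obtain ⟨h2, h3⟩ := hτ (J_gen (some (algebraMap k κ a))) (algebraMap k κ a) 1 (by
      change Van (some (algebraMap k κ a)) 2 (polR X - polR (C (algebraMap k κ a)) -
        polR (C 1) * polR (X - C (algebraMap k κ a)))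
      rw [C_1, map_one, one_mul, map_sub, sub_self]
      exact J2van_zero _ _)
    apply TrivSqZeroExt.ext
    · rw [J2iso_fst, TrivSqZeroExt.fst_add, DualNumber.fst_eps, add_zero,
        TrivSqZeroExt.algebraMap_eq_inl', TrivSqZeroExt.fst_inl]
      ext n
      rw [LSer.coeff_map, LSer.coeff_C, LSer.algebraMap_coeff]
      split_ifs
      · exact h2
      · rfl
    · rw [J2iso_snd, TrivSqZeroExt.snd_add, DualNumber.snd_eps,
        TrivSqZeroExt.algebraMap_eq_inl', TrivSqZeroExt.snd_inl, zero_add]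
      ext n
      rw [J2snd_coeff, LSer.coeff_C, LSer.coeff_one]
      split_ifs
      · exact h3
      · rfl

end R1aux

/-- A map of algebras which becomes a homomorphism after an injective homomorphism. -/
theorem R1lift {B R R' : Type u} [CommRing B] [Algebra k B] [CommRing R] [Algebra k R]
    [CommRing R'] [Algebra k R'] (ι : R →ₐ[k] R') (hι : Function.Injective ι) (h : B →ₐ[k] R')
    (g : B → R) (hg : ∀ b, ι (g b) = h b) : ∃ g' : B →ₐ[k] R, ∀ b, g' b = g b :=
  ⟨{ toFun := g
     map_one' := hι (by rw [hg, map_one, map_one])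
     map_mul' := fun a b => hι (by rw [hg, map_mul, map_mul, hg, hg])
     map_zero' := hι (by rw [hg, map_zero, map_zero])
     map_add' := fun a b => hι (by rw [hg, map_add, map_add, hg, hg])
     commutes' := fun r => hι (by rw [hg, AlgHom.commutes, AlgHom.commutes]) }, fun _ => rfl⟩

/-- The value of the curve at a `k`-point of the projective line. -/
theorem Crv.value [IsSeparated π] {κ : Type u} [Field κ] [Algebra k κ] (ψ : Crv π (LSer κ))
    (θ : Pt π (LSer (RatFunc κ))) (hy : ψ.y.map (embY k) = θ) (hw : ψ.w.map (embW k) = θ)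
    (s : Option k) (W : Chart π) (φ : W.B →ₐ[k] PowerSeries (RatFunc κ))
    (hφ : θ = W.pt.map ((LSer.ofPSa k).comp φ))
    (hφ' : ∀ b i, PowerSeries.coeff i (φ b) ∈ regAt (s.map (algebraMap k κ))) :
    ∃ φs : W.B →ₐ[k] PowerSeries κ, ψ.at s = W.pt.map ((LSer.ofPSa k).comp φs) ∧
      ∀ b i, Van (s.map (algebraMap k κ)) 1
        (PowerSeries.coeff i (φ b) - polR (C (PowerSeries.coeff i (φs b)))) := by
  let _ : Algebra k (regAt (s.map (algebraMap k κ))) := J2alg k (s.map (algebraMap k κ))
  obtain ⟨ρ, h1, h2, h3⟩ := R1res (k := k) (s.map (algebraMap k κ))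
  obtain ⟨φ', hφc⟩ := J2cod (k := k) (s.map (algebraMap k κ)) φ hφ'
  refine ⟨(PowerSeries.mapAlgHom ρ).comp φ', ?_, fun b i => ?_⟩
  · have h4 : (LSer.ofPSa k).comp ((PowerSeries.mapAlgHom ρ).comp φ') =
        (LSer.map ρ).comp ((LSer.ofPSa k).comp φ') := by
      ext b n
      simp only [AlgHom.comp_apply, LSer.coeff_map, LSer.ofPSa_apply, LSer.coeff_ofPS]
      split_ifs
      · rfl
      · rw [map_zero]
    rw [h4, ← Pt.map_map]
    cases s with
    | none =>
      have h5 := J2pt_none ψ W φ φ' hφc (hw.trans hφ)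
      change ψ.w.map (evk 0) = _
      rw [← h5, Pt.map_map]
      exact congrArg ψ.w.map (J2ev_none ρ h1 h2).symm
    | some a =>
      have h5 := J2pt_some ψ W _ φ φ' hφc (hy.trans hφ)
      change ψ.y.map (evk a) = _
      rw [← h5, Pt.map_map]
      exact congrArg ψ.y.map (R1ev_some a ρ h1 h2).symm
  · rw [← hφc]
    exact h3 _

/-- The 1-jet of the curve at a `k`-point of the affine line. -/
theorem Crv.jet [IsSeparated π] {κ : Type u} [Field κ] [Algebra k κ] (ψ : Crv π (LSer κ))
    (θ : Pt π (LSer (RatFunc κ))) (hy : ψ.y.map (embY k) = θ)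
    (a : k) (W : Chart π) (φ : W.B →ₐ[k] PowerSeries (RatFunc κ))
    (hφ : θ = W.pt.map ((LSer.ofPSa k).comp φ))
    (hφ' : ∀ b i, PowerSeries.coeff i (φ b) ∈ regAt (some (algebraMap k κ a))) :
    ∃ φj : W.B →ₐ[k] DualNumber (PowerSeries κ),
      ψ.y.map (evAt (LSer κ) a) = W.pt.map ((dmap (LSer.ofPSa k)).comp φj) ∧
      ∀ b i, Van (some (algebraMap k κ a)) 2 (PowerSeries.coeff i (φ b) -
        polR (C (PowerSeries.coeff i (φj b).fst)) -
        polR (C (PowerSeries.coeff i (φj b).snd)) * unif (some (algebraMap k κ a))) := by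
  let _ : Algebra k (regAt (some (algebraMap k κ a))) := J2alg k (some (algebraMap k κ a))
  obtain ⟨ρ, h1, h2, h3⟩ := R1res (k := k) (some (algebraMap k κ a))
  obtain ⟨τ, hτ1, hτ2⟩ := J2tau k (some (algebraMap k κ a)) ρ h1 h2
  obtain ⟨φ', hφc⟩ := J2cod (k := k) (some (algebraMap k κ a)) φ hφ'
  have hinj : Function.Injective (dmap (LSer.ofPSa (R := κ) k)) := by
    intro x y hxy
    have e1 := congrArg TrivSqZeroExt.fst hxy
    have e2 := congrArg TrivSqZeroExt.snd hxy
    rw [dmap_fst, dmap_fst] at e1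
    rw [dmap_snd, dmap_snd] at e2
    exact TrivSqZeroExt.ext (LSer.ofPS_injective e1) (LSer.ofPS_injective e2)
  obtain ⟨φj, hφj⟩ := R1lift (dmap (LSer.ofPSa (R := κ) k)) hinj
    (((J2iso k κ).comp (LSer.map τ)).comp ((LSer.ofPSa k).comp φ'))
    (fun b => TrivSqZeroExt.inl (PowerSeries.mk fun i => (τ (PowerSeries.coeff i (φ' b))).fst) +
      TrivSqZeroExt.inr (PowerSeries.mk fun i => (τ (PowerSeries.coeff i (φ' b))).snd)) (by
      intro b
      apply TrivSqZeroExt.ext
      · rw [dmap_fst, AlgHom.comp_apply, AlgHom.comp_apply, J2iso_fst, TrivSqZeroExt.fst_add,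
          TrivSqZeroExt.fst_inl, TrivSqZeroExt.fst_inr, add_zero]
        ext n
        rw [LSer.coeff_map, LSer.coeff_map, AlgHom.comp_apply, LSer.ofPSa_apply, LSer.ofPSa_apply,
          LSer.coeff_ofPS, LSer.coeff_ofPS]
        split_ifs
        · rw [PowerSeries.coeff_mk]
          rfl
        · rw [map_zero]
          rfl
      · rw [dmap_snd, AlgHom.comp_apply, AlgHom.comp_apply, J2iso_snd, TrivSqZeroExt.snd_add,
          TrivSqZeroExt.snd_inl, TrivSqZeroExt.snd_inr, zero_add]
        ext n
        rw [J2snd_coeff, LSer.coeff_map, AlgHom.comp_apply, LSer.ofPSa_apply, LSer.ofPSa_apply,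
          LSer.coeff_ofPS, LSer.coeff_ofPS]
        split_ifs
        · rw [PowerSeries.coeff_mk]
        · rw [map_zero]
          rfl)
  have hcomp : (dmap (LSer.ofPSa (R := κ) k)).comp φj =
      ((J2iso k κ).comp (LSer.map τ)).comp ((LSer.ofPSa k).comp φ') := by
    ext1 b
    rw [AlgHom.comp_apply, hφj]
    apply TrivSqZeroExt.ext
    · rw [dmap_fst, AlgHom.comp_apply, AlgHom.comp_apply, J2iso_fst, TrivSqZeroExt.fst_add,
        TrivSqZeroExt.fst_inl, TrivSqZeroExt.fst_inr, add_zero]
      ext n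
      rw [LSer.coeff_map, LSer.coeff_map, AlgHom.comp_apply, LSer.ofPSa_apply, LSer.ofPSa_apply,
        LSer.coeff_ofPS, LSer.coeff_ofPS]
      split_ifs
      · rw [PowerSeries.coeff_mk]
        rfl
      · rw [map_zero]
        rfl
    · rw [dmap_snd, AlgHom.comp_apply, AlgHom.comp_apply, J2iso_snd, TrivSqZeroExt.snd_add,
        TrivSqZeroExt.snd_inl, TrivSqZeroExt.snd_inr, zero_add]
      ext n
      rw [J2snd_coeff, LSer.coeff_map, AlgHom.comp_apply, LSer.ofPSa_apply, LSer.ofPSa_apply,
        LSer.coeff_ofPS, LSer.coeff_ofPS]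
      split_ifs
      · rw [PowerSeries.coeff_mk]
      · rw [map_zero]
        rfl
  refine ⟨φj, ?_, fun b i => ?_⟩
  · rw [hcomp, ← Pt.map_map, ← J2pt_some ψ W _ φ φ' hφc (hy.trans hφ), Pt.map_map,
      R1jet_some a τ hτ2]
  · obtain ⟨c, d, hcd⟩ := R1exp (hφ' b i)
    have h5 := hτ2 (PowerSeries.coeff i (φ' b)) c d (by rw [hφc]; exact hcd)
    have h6 : PowerSeries.coeff i (φj b).fst = c := by
      rw [hφj, TrivSqZeroExt.fst_add, TrivSqZeroExt.fst_inl, TrivSqZeroExt.fst_inr, add_zero,
        PowerSeries.coeff_mk, h5.1]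
    have h7 : PowerSeries.coeff i (φj b).snd = d := by
      rw [hφj, TrivSqZeroExt.snd_add, TrivSqZeroExt.snd_inl, TrivSqZeroExt.snd_inr, zero_add,
        PowerSeries.coeff_mk, h5.2]
    rw [h6, h7]
    exact hcd

theorem evEps_eq (R : Type u) [CommRing R] [Algebra k R] : evEps k R = evAt R 0 := by
  apply J1ext
  · intro a
    change Polynomial.aeval _ (C a) = Polynomial.aeval _ (C a)
    rw [Polynomial.aeval_C, Polynomial.aeval_C]
  · change Polynomial.aeval _ X = Polynomial.aeval _ X
    rw [Polynomial.aeval_X, Polynomial.aeval_X, map_zero, zero_add]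

/-- The value of a curve over `k` at `s`, from a chart over the rational functions; here `O` may be
any subring of `regAt s` in which the values of `f` lie. -/
theorem Crv.value_rat [IsSeparated π] (F : Crv π k) (θ : Pt π (RatFunc k))
    (hy : F.y.map (ratY k) = θ) (hw : F.w.map (ratW k) = θ) (s : Option k) (W : Chart π)
    (f : W.B →ₐ[k] RatFunc k) (hf : θ = W.pt.map f) (hf' : ∀ b, f b ∈ regAt s) :
    ∃ ν : W.B →ₐ[k] k, F.at s = W.pt.map ν ∧ ∀ b, Van s 1 (f b - polR (C (ν b))) := by
  obtain ⟨ρ, h2⟩ := J_exists_residue s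
  let f' : W.B →ₐ[k] regAt s :=
    { (f : W.B →+* RatFunc k).codRestrict (regAt s) hf' with
      commutes' := fun r => by
        apply Subtype.ext
        change f (algebraMap k W.B r) = (algebraMap k (regAt s) r : RatFunc k)
        rw [AlgHom.commutes]
        exact ((J_sub s).commutes r).symm }
  have hf2 : (J_sub s).comp f' = f := by
    ext b
    rfl
  have h3 : J_pt F s = W.pt.map f' := by
    apply Pt.map_injective (J_sub s) Subtype.val_injective
    rw [Pt.map_map, hf2, J_pt_sub, hy, hf]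
  refine ⟨ρ.comp f', ?_, fun b => ?_⟩
  · rw [← Pt.map_map, ← h3, J_pt_res F s ρ h2]
  · have h4 := (h2 (f' b - algebraMap k (regAt s) (ρ (f' b)))).1 (by
      rw [map_sub, AlgHom.commutes]
      exact sub_self _)
    exact h4

/-- A power series over the local ring at `s` whose constant coefficient does not vanish at `s` is
not contained in any prime ideal of the ring of Laurent series over the local ring. -/
theorem unit_ser {κ : Type u} [Field κ] (s : Option κ) (q : Ideal (serSub (regAt s)))
    (hq : q.IsPrime) (x : PowerSeries (RatFunc κ)) (hx : ∀ i, PowerSeries.coeff i x ∈ regAt s)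
    (hxq : ∃ y ∈ q, (y : LSer (RatFunc κ)) = LSer.ofPS x) (α : κ)
    (hα : Van s 1 (PowerSeries.coeff 0 x - polR (C α))) : α = 0 := by
  by_contra hne
  obtain ⟨y, hy, hyx⟩ := hxq
  obtain ⟨x', hx'⟩ : ∃ x' : PowerSeries (regAt s), x' = PowerSeries.mk fun i =>
      (⟨PowerSeries.coeff i x, hx i⟩ : regAt s) := ⟨_, rfl⟩
  have hxm : PowerSeries.map (regAt s).subtype x' = x := by
    ext i
    rw [PowerSeries.coeff_map, hx', PowerSeries.coeff_mk]
    rfl
  have h1 : R1emb s x' = y := by
    apply Subtype.ext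
    rw [R1emb_coe, hxm, hyx]
  have h2 : IsUnit x' := by
    rw [PowerSeries.isUnit_iff_constantCoeff]
    apply R1unit
    intro h3
    apply hne
    have h4 : ((PowerSeries.constantCoeff x' : regAt s) : RatFunc κ) = PowerSeries.coeff 0 x := by
      rw [hx', ← PowerSeries.coeff_zero_eq_constantCoeff_apply, PowerSeries.coeff_mk]
    rw [h4] at h3
    have h5 := Dvan_sub h3 hα
    rw [sub_sub_cancel] at h5
    exact Dconst h5
  have h3 : IsUnit y := by
    rw [← h1]
    exact h2.map _
  exact hq.ne_top (q.eq_top_of_isUnit_mem hy h3)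

end Pool.Agent.H19VF
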