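import Pool.Agent.H19VF.Q_Defs
import Pool.Agent.H19VF.Q5_Image
import Pool.Agent.H19VF.F_Pt
import Pool.Agent.H19VF.F_Chart
import Pool.Agent.H19VF.C_Lift

/-! # Task Q7: from curves to morphisms of the projective line; curves as targets -/

set_option autoImplicit false

open AlgebraicGeometry CategoryTheory Polynomial

universe u

namespace Pool.Agent.H19VF

variable {k : Type u} [Field k] {V : Scheme.{u}} {π : V ⟶ Spec (.of k)}

/-- Functions on a chart as elements of the local ring. -/
theorem Q7_germ (W : Chart π) {R : Type u} [CommRing R] [IsLocalRing R]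
    (g : Spec (.of R) ⟶ V) (φ : W.B →+* R)
    (hg : Spec.map (CommRingCat.ofHom φ) ≫ W.pt.1 = g) (b : W.B) :
    ∃ s : V.presheaf.stalk (g (IsLocalRing.closedPoint R)),
      (Scheme.stalkClosedPointTo (R := .of R) g).hom s = φ b := by
  subst hg
  have := W.imm
  rw [Scheme.stalkClosedPointTo_comp]
  let x : Spec (.of W.B) := Spec.map (CommRingCat.ofHom φ) (IsLocalRing.closedPoint R)
  have hb : Function.Bijective (W.pt.1.stalkMap x).hom :=
    ConcreteCategory.bijective_of_isIso (W.pt.1.stalkMap x)
  obtain ⟨s, hs⟩ := hb.2 (((Spec (.of W.B)).presheaf.germ ⊤ x trivial).hom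
    ((Scheme.ΓSpecIso (.of W.B)).inv.hom b))
  refine ⟨s, ?_⟩
  have h1 := Scheme.germ_stalkClosedPointTo_Spec (CommRingCat.ofHom φ)
  have h2 := congrArg (fun f => f.hom ((Scheme.ΓSpecIso (.of W.B)).inv.hom b)) h1
  change (Scheme.stalkClosedPointTo (R := .of R) (Spec.map (CommRingCat.ofHom φ))).hom
    ((W.pt.1.stalkMap x).hom s) = _
  rw [hs]
  refine h2.trans ?_
  change φ ((Scheme.ΓSpecIso (.of W.B)).hom.hom ((Scheme.ΓSpecIso (.of W.B)).inv.hom b)) = _
  congr 1
  have h3 := congrArg (fun f => f.hom b) (Scheme.ΓSpecIso (.of W.B)).inv_hom_id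
  exact h3

lemma Q7_not_unit {x : DualNumber k} (h : x.fst = 0) : ¬ IsUnit x := by
  intro hx
  have := hx.map (TrivSqZeroExt.fstHom k k k)
  simp [h] at this

/-- The algebraic core. -/
theorem Q7_core {A S : Type u} [CommRing A] [IsLocalRing A] [CommRing S] [IsLocalRing S]
    (hA : (IsLocalRing.maximalIdeal A).IsPrincipal)
    (σ : S →+* A) [IsLocalHom σ] (ρ : A →+* DualNumber k) [IsLocalHom ρ] (s : S)
    (hs : (ρ (σ s)).fst = 0) (hs' : (ρ (σ s)).snd ≠ 0) :
    Ideal.map σ (IsLocalRing.maximalIdeal S) = IsLocalRing.maximalIdeal A := by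
  have h1 : s ∈ IsLocalRing.maximalIdeal S := by
    rw [IsLocalRing.mem_maximalIdeal]
    intro h
    exact Q7_not_unit hs ((h.map σ).map ρ)
  have h2 : ∀ a ∈ IsLocalRing.maximalIdeal A, (ρ a).fst = 0 := by
    intro a ha
    rw [IsLocalRing.mem_maximalIdeal] at ha
    by_contra hne
    apply ha
    apply isUnit_of_map_unit ρ
    rw [TrivSqZeroExt.isUnit_iff_isUnit_fst]
    exact isUnit_iff_ne_zero.2 hne
  have h3 : σ s ∈ IsLocalRing.maximalIdeal A := by
    rw [IsLocalRing.mem_maximalIdeal]
    intro h
    exact Q7_not_unit hs (h.map ρ)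
  obtain ⟨ϖ, hϖ⟩ := hA.principal
  have hϖm : ϖ ∈ IsLocalRing.maximalIdeal A := by
    rw [hϖ]
    exact Submodule.mem_span_singleton_self ϖ
  have h4 : σ s ∈ Ideal.span {ϖ} := by
    have := h3
    rw [hϖ] at this
    exact this
  obtain ⟨c, hc⟩ := Ideal.mem_span_singleton'.1 h4
  have hcu : IsUnit c := by
    by_contra hcn
    have h5 : c ∈ IsLocalRing.maximalIdeal A := (IsLocalRing.mem_maximalIdeal c).2 hcn
    apply hs'
    rw [← hc, map_mul, TrivSqZeroExt.snd_mul, h2 c h5, h2 ϖ hϖm]
    simp
  apply le_antisymm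
  · rw [Ideal.map_le_iff_le_comap]
    intro a ha
    rw [Ideal.mem_comap, IsLocalRing.mem_maximalIdeal]
    intro h
    exact (IsLocalRing.mem_maximalIdeal a).1 ha (isUnit_of_map_unit σ a h)
  · rw [hϖ]
    change Ideal.span {ϖ} ≤ _
    rw [Ideal.span_singleton_le_iff_mem]
    obtain ⟨c', hc'⟩ := hcu.exists_left_inv
    have h6 : ϖ = c' * σ s := by
      rw [← hc, ← mul_assoc, hc', one_mul]
    rw [h6]
    exact Ideal.mul_mem_left _ _ (Ideal.mem_map_of_mem σ h1)

theorem Q7_transfer {A B : Type u} [CommRing A] [IsLocalRing A] [CommRing B] [IsLocalRing B]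
    (e : A ≃+* B) (h : (IsLocalRing.maximalIdeal B).IsPrincipal) :
    (IsLocalRing.maximalIdeal A).IsPrincipal := by
  obtain ⟨ϖ, hϖ⟩ := h.principal
  refine ⟨⟨e.symm ϖ, ?_⟩⟩
  ext a
  have h1 : a ∈ IsLocalRing.maximalIdeal A ↔ e a ∈ IsLocalRing.maximalIdeal B := by
    rw [IsLocalRing.mem_maximalIdeal, IsLocalRing.mem_maximalIdeal, mem_nonunits_iff,
      mem_nonunits_iff, isUnit_map_iff e]
  rw [h1, hϖ]
  change e a ∈ Ideal.span {ϖ} ↔ a ∈ Ideal.span {e.symm ϖ}
  rw [Ideal.mem_span_singleton, Ideal.mem_span_singleton, ← map_dvd_iff e, e.apply_symm_apply]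

theorem Q7_loc {R : Type u} [CommRing R] (p : Ideal R) [p.IsPrime] (h : p.IsPrincipal) :
    (IsLocalRing.maximalIdeal (Localization.AtPrime p)).IsPrincipal := by
  obtain ⟨ϖ, hϖ⟩ := h.principal
  refine ⟨⟨algebraMap R _ ϖ, ?_⟩⟩
  rw [← Localization.AtPrime.map_eq_maximalIdeal]
  have h1 : Ideal.map (algebraMap R (Localization.AtPrime p)) p =
      Ideal.map (algebraMap R (Localization.AtPrime p)) (Ideal.span {ϖ}) :=
    congrArg (Ideal.map (algebraMap R (Localization.AtPrime p))) hϖ
  rw [h1, Ideal.map_span, Set.image_singleton]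

/-- The maximal ideals of the local rings of the projective line at points of a chart are
principal. -/
theorem Q7_principal (x : Spec (.of k[X])) (y : P1 k) (hy : P1.chart k 0 x = y) :
    (IsLocalRing.maximalIdeal ((P1 k).presheaf.stalk y)).IsPrincipal := by
  subst hy
  let p : PrimeSpectrum k[X] := x
  let e : (P1 k).presheaf.stalk (P1.chart k 0 x) ≃+* Localization.AtPrime p.asIdeal :=
    (asIso ((P1.chart k 0).stalkMap x) ≪≫ Spec.stalkIso _ x).commRingCatIsoToRingEquiv
  exact Q7_transfer e (Q7_loc _ (IsPrincipalIdealRing.principal _))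

lemma Q7_lauY_eq : (lauY k k).toRingHom =
    ((LaurentPolynomial.invert (R := k)) : LaurentPolynomial k →+* LaurentPolynomial k).comp
      (lauW k k).toRingHom := by
  apply Polynomial.ringHom_ext
  · intro a
    have h := GP1_lauY_mon k a 0
    have h' := GP1_lauW_mon k a 0
    rw [pow_zero, mul_one] at h h'
    change lauY k k (C a) = LaurentPolynomial.invert (lauW k k (C a))
    rw [h, h']
    simp
  · have h := GP1_lauY_mon k 1 1
    have h' := GP1_lauW_mon k 1 1
    rw [pow_one, map_one, one_mul] at h h'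
    change lauY k k X = LaurentPolynomial.invert (lauW k k X)
    rw [h, h']
    simp

/-- The range of the overlap in the second chart. -/
lemma Q7_range_lauW : (PrimeSpectrum.basicOpen (X : k[X]) : Set (PrimeSpectrum k[X])) ⊆
    Set.range (Spec.map (CommRingCat.ofHom (lauW k k).toRingHom)) := by
  intro y hy
  rw [← GP1_range_lauY] at hy
  obtain ⟨z, rfl⟩ := hy
  refine ⟨Spec.map (CommRingCat.ofHom
    ((LaurentPolynomial.invert (R := k)) : LaurentPolynomial k →+* LaurentPolynomial k)) z, ?_⟩
  rw [Q7_lauY_eq, CommRingCat.ofHom_comp, Spec.map_comp]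
  rfl

theorem Q7_closed [IsSeparated π] (v : Pt π k) : IsClosed ({v.pnt} : Set V) := by
  have h1 : IsClosedImmersion (v.1 ≫ π) := by
    rw [v.2]
    change IsClosedImmersion (Spec.map (𝟙 _))
    rw [Spec.map_id]
    infer_instance
  have h2 : IsClosedImmersion v.1 := IsClosedImmersion.of_comp v.1 π
  have h3 : Set.range v.1 = {v.pnt} := by
    ext x
    constructor
    · rintro ⟨a, rfl⟩
      have : a = IsLocalRing.closedPoint k := Subsingleton.elim _ _
      rw [this]
      rfl
    · rintro rfl
      exact ⟨_, rfl⟩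
  rw [← h3]
  exact v.1.isClosedEmbedding.isClosed_range

/-- A curve which passes once and as an immersion through `v` has `v` as a smooth point of its
image. (From `smooth_image`.) -/
theorem smooth_of_only [IsAlgClosed k] [IsSeparated π] [LocallyOfFiniteType π] (f : P1 k ⟶ V)
    (hf : f ≫ π = P1.str k) (v : Pt π k) (a : k) (hv : (Crv.ofHom f hf).at (some a) = v)
    (h1 : (Crv.ofHom f hf).OnlyAt v a) (h2 : (Crv.ofHom f hf).ImmAt v a) :
    IsSmoothPointOfImage f v.pnt := by
  let g : Spec (.of (DualNumber k)) ⟶ P1 k :=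
    Spec.map (CommRingCat.ofHom (evAt k a).toRingHom) ≫ P1.chart k 0
  let x : P1 k := g (IsLocalRing.closedPoint (DualNumber k))
  let pa : Spec (.of k[X]) := Spec.map (CommRingCat.ofHom (evAt k a).toRingHom)
    (IsLocalRing.closedPoint (DualNumber k))
  have hpa : P1.chart k 0 pa = x := rfl
  obtain ⟨W, ν, φ, hν, hφ, hfst, b, hb⟩ := h2
  have hg : Spec.map (CommRingCat.ofHom φ.toRingHom) ≫ W.pt.1 = g ≫ f :=
    (congrArg Subtype.val hφ).symm
  have hx : f x = v.pnt := by
    have e1 : ν = (dfst k k).comp φ := by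
      ext c
      exact (hfst c).symm
    have e2 : Spec.map (CommRingCat.ofHom (dfst k k).toRingHom) (IsLocalRing.closedPoint k) =
        IsLocalRing.closedPoint (DualNumber k) := by
      have : IsLocalHom (dfst k k).toRingHom := by
        constructor
        intro c hc
        rw [TrivSqZeroExt.isUnit_iff_isUnit_fst]
        exact hc
      exact IsLocalRing.comap_closedPoint (dfst k k).toRingHom
    have e3 : f x = (g ≫ f) (IsLocalRing.closedPoint (DualNumber k)) := rfl
    rw [e3, ← hg, hν]
    have e4 : (W.pt.map ν).pnt = W.pt.1 (Spec.map (CommRingCat.ofHom φ.toRingHom)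
        (Spec.map (CommRingCat.ofHom (dfst k k).toRingHom) (IsLocalRing.closedPoint k))) := by
      rw [e1]
      rfl
    rw [e4, e2]
    rfl
  have hy : ∀ p : Spec (.of k[X]), (P1.chart k 0 ≫ f) p = v.pnt → p = pa := by
    intro p hp
    apply PrimeSpectrum.ext
    rw [h1.1 p hp, h1.1 pa hx]
  refine smooth_image f hf v.pnt (Q7_closed v) x hx ?_ ?_
  · intro x' hx'
    obtain ⟨i, y, rfl⟩ := chart_cover k x'
    have hi : i = 0 ∨ i = 1 := by omega
    rcases hi with rfl | rfl
    · rw [hy y hx', hpa]
    · have h3 := h1.2 y hx'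
      obtain ⟨z, rfl⟩ := Q7_range_lauW h3
      have h4 : P1.chart k 1 (Spec.map (CommRingCat.ofHom (lauW k k).toRingHom) z) =
          P1.chart k 0 (Spec.map (CommRingCat.ofHom (lauY k k).toRingHom) z) := by
        have h4 := congrArg (fun f : Spec (.of (LaurentPolynomial k)) ⟶ P1 k => f z) (chart_glue k)
        exact h4.symm
      rw [h4] at hx' ⊢
      rw [hy _ hx', hpa]
  · obtain ⟨s, hs⟩ := Q7_germ W (g ≫ f) φ.toRingHom hg (b - algebraMap k W.B (ν b))
    rw [Scheme.stalkClosedPointTo_comp] at hs
    have hs' : (Scheme.stalkClosedPointTo (R := .of (DualNumber k)) g).hom ((f.stalkMap x).hom s) =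
      φ (b - algebraMap k W.B (ν b)) := hs
    refine Q7_core (k := k) (Q7_principal pa x hpa) (f.stalkMap x).hom
      (Scheme.stalkClosedPointTo (R := .of (DualNumber k)) g).hom s ?_ ?_
    · rw [hs', map_sub, AlgHom.commutes, TrivSqZeroExt.fst_sub, hfst]
      simp [TrivSqZeroExt.algebraMap_eq_inl]
    · rw [hs', map_sub, AlgHom.commutes, TrivSqZeroExt.snd_sub]
      simpa [TrivSqZeroExt.algebraMap_eq_inl] using hb

theorem Q7_etale {B : Type u} [CommRing B] [Algebra k B] (z : Fin 1 → B)
    (hz : IsEtaleCoord k z) :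
    (Polynomial.aeval (z 0) : k[X] →ₐ[k] B).toRingHom.Etale := by
  let e : k[X] →ₐ[k] MvPolynomial (Fin 1) k := Polynomial.aeval (MvPolynomial.X 0)
  let e' : MvPolynomial (Fin 1) k →ₐ[k] k[X] := MvPolynomial.aeval (fun _ => X)
  have h1 : e'.comp e = AlgHom.id k _ := by
    apply Polynomial.algHom_ext
    simp [e, e']
  have h2 : e.comp e' = AlgHom.id k _ := by
    apply MvPolynomial.algHom_ext
    intro i
    have : i = 0 := Subsingleton.elim _ _
    subst this
    simp [e, e']
  have hb : Function.Bijective e.toRingHom := by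
    constructor
    · intro a b hab
      have h3 := congrArg e' hab
      exact (congr($h1 a)).symm.trans (h3.trans (congr($h1 b)))
    · intro b
      exact ⟨e' b, congr($h2 b)⟩
  have h3 : (Polynomial.aeval (z 0) : k[X] →ₐ[k] B).toRingHom =
      (MvPolynomial.aeval z : MvPolynomial (Fin 1) k →ₐ[k] B).toRingHom.comp e.toRingHom := by
    have : (Polynomial.aeval (z 0) : k[X] →ₐ[k] B) = (MvPolynomial.aeval z).comp e := by
      apply Polynomial.algHom_ext
      simp [e]
    rw [this]
    rfl
  rw [h3]
  exact RingHom.Etale.stableUnderComposition _ _ (RingHom.Etale.of_bijective hb) hz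

theorem Q7_map_eq {R B : Type u} [CommRing R] [CommRing B] (θ : R →+* B) (hθ : θ.Etale)
    (q : Ideal B) [q.IsPrime] :
    Ideal.map ((algebraMap B (Localization.AtPrime q)).comp θ) (q.comap θ) =
      IsLocalRing.maximalIdeal (Localization.AtPrime q) := by
  let _ := θ.toAlgebra
  have : Algebra.Etale R B := hθ
  let _ := Localization.AtPrime.algebraOfLiesOver (q.under R) q
  have h := ((Algebra.isUnramifiedAt_iff_map_eq R (q.under R) q).1 inferInstance).2
  exact h

/-- Primes over zero are zero. -/
theorem Q7_bot {R B : Type u} [CommRing R] [CommRing B] [IsDomain B] (θ : R →+* B)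
    (hθ : θ.Etale) (q : Ideal B) [q.IsPrime] (h : q.comap θ = ⊥) : q = ⊥ := by
  have h1 := Q7_map_eq θ hθ q
  rw [h, Ideal.map_bot] at h1
  rw [eq_bot_iff]
  intro b hb
  have h2 : algebraMap B (Localization.AtPrime q) b ∈
      IsLocalRing.maximalIdeal (Localization.AtPrime q) := by
    rw [← Localization.AtPrime.map_eq_maximalIdeal]
    exact Ideal.mem_map_of_mem _ hb
  rw [← h1, Ideal.mem_bot] at h2
  have h3 : Function.Injective (algebraMap B (Localization.AtPrime q)) :=
    IsLocalization.injective _ q.primeCompl_le_nonZeroDivisors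
  rw [Ideal.mem_bot]
  exact h3 (h2.trans (map_zero _).symm)

theorem Q7_dvr {B : Type u} [CommRing B] [IsDomain B] [Algebra k B] (z : Fin 1 → B)
    (hz : IsEtaleCoord k z) (ν : B →ₐ[k] k) (q : Ideal B) [q.IsPrime]
    (hq : q = RingHom.ker ν.toRingHom) :
    IsDiscreteValuationRing (Localization.AtPrime q) := by
  have hθ := Q7_etale z hz
  set θ := (Polynomial.aeval (z 0) : k[X] →ₐ[k] B).toRingHom with hθd
  have hnoeth : IsNoetherianRing B := by
    let _ := θ.toAlgebra
    have : Algebra.Etale k[X] B := hθ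
    exact Algebra.FiniteType.isNoetherianRing k[X] B
  have hprin : (IsLocalRing.maximalIdeal (Localization.AtPrime q)).IsPrincipal := by
    obtain ⟨p, hp⟩ := (IsPrincipalIdealRing.principal (q.comap θ)).principal
    rw [← Q7_map_eq θ hθ q, hp]
    refine ⟨⟨(algebraMap B (Localization.AtPrime q)).comp θ p, ?_⟩⟩
    change Ideal.map _ (Ideal.span {p}) = Ideal.span _
    rw [Ideal.map_span, Set.image_singleton]
  obtain ⟨δ, ⟨hδ1, hδ2⟩, -⟩ := etale_dual z hz ν (fun _ => 1)
  have hne : z 0 - algebraMap k B (ν (z 0)) ≠ 0 := by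
    intro h
    have h1 := congrArg (fun b => (δ b).snd) h
    simp only [map_sub, AlgHom.commutes, TrivSqZeroExt.snd_sub, hδ2, map_zero,
      TrivSqZeroExt.snd_zero] at h1
    simp [TrivSqZeroExt.algebraMap_eq_inl] at h1
  have hmem : z 0 - algebraMap k B (ν (z 0)) ∈ q := by
    rw [hq, RingHom.mem_ker]
    change ν _ = 0
    rw [map_sub, AlgHom.commutes]
    simp
  have hinj : Function.Injective (algebraMap B (Localization.AtPrime q)) :=
    IsLocalization.injective _ q.primeCompl_le_nonZeroDivisors
  have hnf : ¬ IsField (Localization.AtPrime q) := by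
    intro hf
    have h1 : algebraMap B (Localization.AtPrime q) (z 0 - algebraMap k B (ν (z 0))) ∈
        IsLocalRing.maximalIdeal (Localization.AtPrime q) := by
      rw [← Localization.AtPrime.map_eq_maximalIdeal]
      exact Ideal.mem_map_of_mem _ hmem
    rw [IsLocalRing.isField_iff_maximalIdeal_eq.1 hf, Ideal.mem_bot] at h1
    exact hne (hinj (h1.trans (map_zero _).symm))
  have hnoeth' : IsNoetherianRing (Localization.AtPrime q) :=
    IsLocalization.isNoetherianRing q.primeCompl _ hnoeth
  exact ((IsDiscreteValuationRing.TFAE (Localization.AtPrime q) hnf).out 0 4).2 hprin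


/-- Elements of a domain which are algebraic over an algebraically closed field are constant. -/
theorem Q7_alg [IsAlgClosed k] {L : Type u} [CommRing L] [IsDomain L] [Algebra k L] (r : L)
    (P : k[X]) (hP : P ≠ 0) (h : Polynomial.aeval r P = 0) : ∃ c : k, algebraMap k L c = r := by
  have hint : IsIntegral k r := IsAlgebraic.isIntegral ⟨P, hP, h⟩
  have hdeg := IsAlgClosed.degree_eq_one_of_irreducible k (minpoly.irreducible hint)
  exact minpoly.mem_range_of_degree_eq_one k r hdeg

theorem Q7_inj [IsAlgClosed k] {B L : Type u} [CommRing B] [IsDomain B] [Algebra k B] [CommRing L]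
    [IsDomain L] [Algebra k L] (z : Fin 1 → B) (hz : IsEtaleCoord k z) (φ : B →ₐ[k] L)
    (h : ∀ c : k, algebraMap k L c ≠ φ (z 0)) : Function.Injective φ.toRingHom := by
  rw [RingHom.injective_iff_ker_eq_bot]
  have : (RingHom.ker φ.toRingHom).IsPrime := RingHom.ker_isPrime _
  apply Q7_bot _ (Q7_etale z hz)
  rw [eq_bot_iff]
  intro P hP
  rw [Ideal.mem_comap, RingHom.mem_ker] at hP
  have h1 : Polynomial.aeval (φ (z 0)) P = 0 := by
    rw [Polynomial.aeval_algHom_apply]
    exact hP
  rw [Ideal.mem_bot]
  by_contra hne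
  obtain ⟨c, hc⟩ := Q7_alg _ P hne h1
  exact h c hc

theorem Q7_coeff {R : Type u} [CommRing R] [Algebra k R] (p q : R[X])
    (h : lauY k R p = lauW k R q) : p.coeff 0 = q.coeff 0 := by
  have h1 : ∀ p : R[X], (lauY k R p).coeff 0 = p.coeff 0 := by
    intro p
    induction p using Polynomial.induction_on' with
    | add p q hp hq =>
      rw [map_add, AddMonoidAlgebra.coeff_add, Finsupp.add_apply, hp, hq, Polynomial.coeff_add]
    | monomial n a =>
      have : lauY k R (monomial n a) = AddMonoidAlgebra.single (n : ℤ) a := by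
        change Polynomial.aeval (LaurentPolynomial.T 1 : LaurentPolynomial R) (monomial n a) = _
        rw [Polynomial.aeval_monomial, LaurentPolynomial.T_pow, mul_one]
        exact (LaurentPolynomial.single_eq_C_mul_T a (n : ℤ)).symm
      rw [this, AddMonoidAlgebra.coeff_single, Polynomial.coeff_monomial, Finsupp.single_apply]
      simp
  have h2 : ∀ p : R[X], (lauW k R p).coeff 0 = p.coeff 0 := by
    intro p
    induction p using Polynomial.induction_on' with
    | add p q hp hq =>
      rw [map_add, AddMonoidAlgebra.coeff_add, Finsupp.add_apply, hp, hq, Polynomial.coeff_add]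
    | monomial n a =>
      have : lauW k R (monomial n a) = AddMonoidAlgebra.single (-(n : ℤ)) a := by
        change Polynomial.aeval (LaurentPolynomial.T (-1) : LaurentPolynomial R) (monomial n a) = _
        rw [Polynomial.aeval_monomial, LaurentPolynomial.T_pow, mul_neg, mul_one]
        exact (LaurentPolynomial.single_eq_C_mul_T a (-(n : ℤ))).symm
      rw [this, AddMonoidAlgebra.coeff_single, Polynomial.coeff_monomial, Finsupp.single_apply]
      simp
  rw [← h1 p, h, h2 q]

lemma Q7_evk {R : Type u} [CommRing R] [Algebra k R] (p : R[X]) : evk (0 : k) p = p.coeff 0 := by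
  change Polynomial.aeval (algebraMap k R 0) p = _
  rw [map_zero, Polynomial.coeff_zero_eq_aeval_zero]

lemma Q7_lauW_inj : Function.Injective (lauW k k) := by
  intro p q h
  have h1 : lauY k k p = lauY k k q := by
    have h0 : (lauY k k).toRingHom =
        ((LaurentPolynomial.invert (R := k)) : LaurentPolynomial k →+* LaurentPolynomial k).comp
          (lauW k k).toRingHom := Q7_lauY_eq
    have e1 : ∀ p, lauY k k p = LaurentPolynomial.invert (lauW k k p) := fun p => congr($h0 p)
    rw [e1, e1, h]
  have h2 : Function.Injective (lauY k k).toRingHom := by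
    rw [GP1_lauY_eq]
    exact Polynomial.toLaurent_injective
  exact h2 h1

theorem Q7_dominant {R R' : Type u} [CommRing R] [CommRing R'] (φ : R →+* R')
    (hφ : Function.Injective φ) : DenseRange (PrimeSpectrum.comap φ) := by
  rw [PrimeSpectrum.denseRange_comap_iff_ker_le_nilRadical,
    (RingHom.injective_iff_ker_eq_bot φ).mp hφ]
  exact bot_le

/-- Charts of integral schemes are integral. -/
theorem Q7_domain [IsIntegral V] (W : Chart π) [Nontrivial W.B] : IsDomain W.B := by
  have := W.imm
  have : Nonempty (Spec (.of W.B)) := inferInstanceAs (Nonempty (PrimeSpectrum W.B))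
  have h : IsIntegral (Spec (.of W.B)) := isIntegral_of_isOpenImmersion W.pt.1
  exact (affine_isIntegral_iff (.of W.B)).1 h

theorem Q7_stalk [IsAlgClosed k] [SmoothOfRelativeDimension 1 π] [IsIntegral V] (v : V)
    (hv : IsClosed ({v} : Set V)) :
    ∃ _ : IsDomain (V.presheaf.stalk v), IsDiscreteValuationRing (V.presheaf.stalk v) := by
  have : Smooth π := SmoothOfRelativeDimension.smooth 1 π
  obtain ⟨p, hp⟩ := exists_pt (π := π) v hv
  obtain ⟨W, ν, hν⟩ := exists_echart 1 p
  have := W.imm
  have hnt : Nontrivial W.B := ν.toRingHom.domain_nontrivial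
  have hdom : IsDomain W.B := Q7_domain W.toChart
  let x : Spec (.of W.B) := Spec.map (CommRingCat.ofHom ν.toRingHom) (IsLocalRing.closedPoint k)
  have hx : W.pt.1 x = v := by
    have h1 : p.1 (IsLocalRing.closedPoint k) ∈ Set.range p.1 := ⟨_, rfl⟩
    rw [hp, hν] at h1
    exact h1
  subst hx
  let q : PrimeSpectrum W.B := x
  have hq : q.asIdeal = RingHom.ker ν.toRingHom := by
    ext b
    change ν b ∈ IsLocalRing.maximalIdeal k ↔ ν b = 0
    rw [IsLocalRing.maximalIdeal_eq_bot, Ideal.mem_bot]
  have hdvr := Q7_dvr W.z W.et ν q.asIdeal hq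
  let e : V.presheaf.stalk (W.pt.1 x) ≃+* Localization.AtPrime q.asIdeal :=
    (asIso (W.pt.1.stalkMap x) ≪≫ Spec.stalkIso _ x).commRingCatIsoToRingEquiv
  have hd : IsDomain (Localization.AtPrime q.asIdeal) := inferInstance
  have hd' : IsDomain (V.presheaf.stalk (W.pt.1 x)) := e.toMulEquiv.isDomain _
  exact ⟨hd', IsDiscreteValuationRing.RingEquivClass.isDiscreteValuationRing e.symm⟩

theorem Q7_const (v : Pt π k) {R R' : Type u} [CommRing R] [Algebra k R] [CommRing R']
    [Algebra k R'] (φ : R →ₐ[k] R') :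
    (v.map (Algebra.ofId k R)).map φ = v.map (Algebra.ofId k R') := by
  rw [Pt.map_map, Subsingleton.elim (φ.comp (Algebra.ofId k R)) (Algebra.ofId k R')]

theorem Q7_const' (v : Pt π k) {R : Type u} [CommRing R] [Algebra k R] (φ : R →ₐ[k] k) :
    (v.map (Algebra.ofId k R)).map φ = v := by
  rw [Pt.map_map, Subsingleton.elim (φ.comp (Algebra.ofId k R)) (AlgHom.id k k), Pt.map_id]

/-- A very free curve in a smooth curve is not constant. -/
theorem Q7_not_const [IsSeparated π] (W : EChart π 1) (ν : W.B →ₐ[k] k) (F : Crv π k)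
    (hF : IsVeryFree F) (hy : F.y = (W.pt.map ν).map (Algebra.ofId k k[X])) : False := by
  have := W.imm
  -- the other half is constant, too
  have hw : F.w = (W.pt.map ν).map (Algebra.ofId k k[X]) := by
    apply Pt.map_injective (lauW k k) Q7_lauW_inj
    rw [← F.glue, hy, Q7_const, Q7_const]
  have hat : F.at (some 0) = W.pt.map ν := by
    change F.y.map (evk 0) = _
    rw [hy, Q7_const']
  have hat' : F.at none = W.pt.map ν := by
    change F.w.map (evk 0) = _
    rw [hw, Q7_const']
  obtain ⟨δ, ⟨hδ1, hδ2⟩, -⟩ := etale_dual W.z W.et ν (fun _ => 1)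
  obtain ⟨G, hG1, hG2, hG3⟩ := hF (W.pt.map δ) (by
    rw [hat, Pt.map_map]
    congr 1
    ext b
    exact hδ1 b)
  -- both halves of the deformation lie in the chart
  have hsurj : Function.Surjective
      (PrimeSpectrum.comap (pmap (dfst k k) : (DualNumber k)[X] →ₐ[k] k[X]).toRingHom) := by
    intro x
    have hr : Function.Surjective (pmap (dfst k k)).toRingHom := by
      apply Polynomial.map_surjective
      intro a
      exact ⟨TrivSqZeroExt.inl a, rfl⟩
    have h1 : x ∈ Set.range (PrimeSpectrum.comap (pmap (dfst k k)).toRingHom) := by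
      rw [range_comap_of_surjective _ _ hr, PrimeSpectrum.mem_zeroLocus]
      intro p hp
      have hp' : Polynomial.map (dfst k k).toRingHom p = 0 := hp
      have hsq : p * p = 0 := by
        have h2 : ∀ n, (p.coeff n).fst = 0 := by
          intro n
          have := congrArg (fun q => Polynomial.coeff q n) hp'
          rw [Polynomial.coeff_map, Polynomial.coeff_zero] at this
          exact this
        refine Polynomial.ext fun n => ?_
        rw [Polynomial.coeff_mul, Polynomial.coeff_zero]
        refine Finset.sum_eq_zero fun ij _ => ?_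
        apply TrivSqZeroExt.ext
        · simp [h2]
        · simp [h2]
      have h3 : p * p ∈ x.asIdeal := by
        rw [hsq]
        exact Ideal.zero_mem _
      exact (or_self_iff.1 (x.isPrime.mem_or_mem h3))
    exact h1
  have hrange : ∀ g : Pt π (DualNumber k)[X],
      g.map (pmap (dfst k k)) = (W.pt.map ν).map (Algebra.ofId k k[X]) →
      ∃ γ : W.B →ₐ[k] (DualNumber k)[X], g = W.pt.map γ := by
    intro g hg
    refine W.F3_lift (R := (DualNumber k)[X]) g ?_
    rintro _ ⟨x, rfl⟩
    obtain ⟨y, hy⟩ := hsurj x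
    change Spec.map (CommRingCat.ofHom (pmap (dfst k k)).toRingHom) y = x at hy
    subst hy
    have h1 : g.1 (Spec.map (CommRingCat.ofHom (pmap (dfst k k)).toRingHom) y) =
        (g.map (pmap (dfst k k))).1 y := rfl
    rw [h1, hg]
    exact ⟨_, rfl⟩
  obtain ⟨γy, hγy⟩ := hrange G.y (by
    have := congrArg Crv.y hG1
    exact this.trans hy)
  obtain ⟨γw, hγw⟩ := hrange G.w (by
    have := congrArg Crv.w hG1
    exact this.trans hw)
  have hglue : (lauY k (DualNumber k)).comp γy = (lauW k (DualNumber k)).comp γw := by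
    apply W.map_injective
    rw [← Pt.map_map, ← Pt.map_map, ← hγy, ← hγw]
    exact G.glue
  have hat2 : G.at (some 0) = G.at none := by
    change G.y.map (evk 0) = G.w.map (evk 0)
    rw [hγy, hγw, Pt.map_map, Pt.map_map]
    congr 1
    ext1 b
    rw [AlgHom.comp_apply, AlgHom.comp_apply, Q7_evk, Q7_evk]
    have hb : lauY k (DualNumber k) (γy b) = lauW k (DualNumber k) (γw b) := congr($hglue b)
    exact Q7_coeff (k := k) _ _ hb
  rw [hG2, hG3, hat', Pt.map_map] at hat2
  have h1 : δ = (Algebra.ofId k (DualNumber k)).comp ν := W.map_injective hat2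
  have h2 : (δ (W.z 0)).snd = ((Algebra.ofId k (DualNumber k)).comp ν (W.z 0)).snd := by rw [← h1]
  rw [hδ2] at h2
  have h3 : (TrivSqZeroExt.inl (ν (W.z 0)) : DualNumber k).snd = 0 := TrivSqZeroExt.snd_inl k _
  exact one_ne_zero (h2.trans h3)

theorem Q7_surj [IsAlgClosed k] [SmoothOfRelativeDimension 1 π] [IsSeparated π]
    [QuasiCompact π] [IsIntegral V] (f : P1 k ⟶ V) (hf : f ≫ π = P1.str k)
    (hvf : IsVeryFree (Crv.ofHom f hf)) : Function.Surjective f := by
  obtain ⟨W, ν, hν⟩ := exists_echart 1 ((Crv.ofHom f hf).at (some 0))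
  have := W.imm
  have hnt : Nontrivial W.B := ν.toRingHom.domain_nontrivial
  have hdom : IsDomain W.B := Q7_domain W.toChart
  let ι : k[X] →ₐ[k] PowerSeries k := Polynomial.coeToPowerSeries.algHom k
  have hι : Function.Injective ι := by
    intro p q h
    have h1 : (p : PowerSeries k) = q := by
      have := h
      simp only [ι, Polynomial.coeToPowerSeries.algHom_apply] at this
      simpa using this
    exact Polynomial.coe_injective k h1
  let cc : PowerSeries k →ₐ[k] k :=
    { PowerSeries.constantCoeff (R := k) with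
      commutes' := fun r => by
        change PowerSeries.constantCoeff (R := k) (algebraMap k (PowerSeries k) r) =
          algebraMap k k r
        rw [PowerSeries.algebraMap_apply]
        simp }
  have hcc : cc.comp ι = evk 0 := by
    apply Polynomial.algHom_ext
    change PowerSeries.constantCoeff (Polynomial.coeToPowerSeries.algHom k (X : k[X])) =
      Polynomial.aeval (algebraMap k k 0) (X : k[X])
    simp
  have hloc : IsLocalHom cc.toRingHom := by
    constructor
    intro a ha
    exact PowerSeries.isUnit_iff_constantCoeff.2 ha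
  obtain ⟨φ, hφ, hφν⟩ := W.toChart.factor_local cc hloc ((Crv.ofHom f hf).y.map ι) ν (by
    rw [Pt.map_map, hcc]
    exact hν)
  by_cases hc : ∃ c : k, algebraMap k (PowerSeries k) c = φ (W.z 0)
  · exfalso
    obtain ⟨c, hc⟩ := hc
    have h1 : φ = (Algebra.ofId k (PowerSeries k)).comp ν := by
      have h2 : ∀ b, PowerSeries.constantCoeff (φ b) = ν b := fun b => congr($hφν b)
      have h3 : ∀ a : k, PowerSeries.constantCoeff (algebraMap k (PowerSeries k) a) = a := by
        intro a
        rw [PowerSeries.algebraMap_apply]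
        simp
      apply etale_unique W.z W.et
      · intro b
        rw [h2]
        exact (h3 _).symm
      · intro j
        have : j = 0 := Subsingleton.elim _ _
        subst this
        change φ (W.z 0) = algebraMap k (PowerSeries k) (ν (W.z 0))
        rw [← h2, ← hc, h3]
    refine Q7_not_const W ν (Crv.ofHom f hf) hvf ?_
    apply Pt.map_injective ι hι
    rw [hφ, h1, Q7_const, Pt.map_map]
  · push Not at hc
    have hinj := Q7_inj W.z W.et φ hc
    have hprop : IsProper f := by
      have : IsProper (f ≫ π) := by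
        rw [hf]
        infer_instance
      exact IsProper.of_comp f π
    have h1 : DenseRange (Spec.map (CommRingCat.ofHom φ.toRingHom)) := Q7_dominant _ hinj
    have h2 : DenseRange W.pt.1 := by
      have : Nonempty (Spec (.of W.B)) := inferInstanceAs (Nonempty (PrimeSpectrum W.B))
      exact (IsOpenImmersion.isOpen_range W.pt.1).dense (Set.range_nonempty _)
    have h3 : DenseRange (W.pt.1 ∘ (Spec.map (CommRingCat.ofHom φ.toRingHom))) :=
      h2.comp h1 W.pt.1.continuous
    have h4 : (W.pt.1 ∘ (Spec.map (CommRingCat.ofHom φ.toRingHom))) =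
        f ∘ (P1.chart k 0 ∘ (Spec.map (CommRingCat.ofHom ι.toRingHom))) := by
      have h5 := congrArg Subtype.val hφ
      funext x
      exact (congrArg (fun g : Spec (.of (PowerSeries k)) ⟶ V => g x) h5).symm
    rw [h4] at h3
    have h6 : Dense (Set.range f) := h3.mono (Set.range_comp_subset_range _ _)
    have h7 : IsClosed (Set.range f) := f.isClosedMap.isClosed_range
    exact Set.range_eq_univ.1 (h7.closure_eq.symm.trans h6.closure_eq)

/-- If `V` is a smooth curve, then a very free curve is surjective and every closed point of `V` is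
a smooth point of the image (which is `V`). -/
theorem smooth_dim_one [IsAlgClosed k] [SmoothOfRelativeDimension 1 π] [IsSeparated π]
    [QuasiCompact π] [IsIntegral V] (f : P1 k ⟶ V) (hf : f ≫ π = P1.str k)
    (hvf : IsVeryFree (Crv.ofHom f hf)) (v : V) (hv : IsClosed ({v} : Set V)) :
    IsSmoothPointOfImage f v := by
  have hs := Q7_surj f hf hvf
  have hsι : Surjective f.imageι := by
    constructor
    intro x
    obtain ⟨y, rfl⟩ := hs x
    refine ⟨f.toImage y, ?_⟩
    have h := congrArg (fun g : P1 k ⟶ V => g y) f.toImage_imageι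
    exact h
  have hiso : IsIso f.imageι := isIso_of_isClosedImmersion_of_surjective f.imageι
  obtain ⟨y, rfl⟩ := hsι.surj v
  obtain ⟨hd, hdvr⟩ := Q7_stalk (π := π) (f.imageι y) hv
  let e : V.presheaf.stalk (f.imageι y) ≃+* f.image.presheaf.stalk y :=
    (asIso (f.imageι.stalkMap y)).commRingCatIsoToRingEquiv
  have hd' : IsDomain (f.image.presheaf.stalk y) := e.symm.toMulEquiv.isDomain _
  exact ⟨y, rfl, hd', IsDiscreteValuationRing.RingEquivClass.isDiscreteValuationRing e⟩

end Pool.Agent.H19VF
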