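import Pool.Agent.H19VF.J1_Loc
import Pool.Agent.H19VF.J1b_Ex
import Pool.Agent.H19VF.Q_Defs
import Pool.Agent.H19VF.Q4_Spec
import Pool.Agent.H19VF.Q7_Smooth

/-! # Task R2: closed points and curves -/

set_option autoImplicit false

open AlgebraicGeometry CategoryTheory Polynomial

universe u

namespace Pool.Agent.H19VF

variable {k : Type u} [Field k] {V : Scheme.{u}} {π : V ⟶ Spec (.of k)}

/-- Every point lies in a chart. -/
theorem R2_chart (x : V) : ∃ W : Chart π, x ∈ Set.range W.pt.1 := by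
  obtain ⟨_, ⟨U, hU0, rfl⟩, hxU, -⟩ :=
    V.isBasis_affineOpens.exists_subset_of_mem_open (Set.mem_univ x) isOpen_univ
  have hU : IsAffineOpen U := hU0
  obtain ⟨i, hp, -⟩ := F3_exists_chart (k := k) (π := π) U hU
  refine ⟨{ B := Γ(V, U)
            pt := ⟨hU.fromSpec, hp⟩
            imm := inferInstanceAs (IsOpenImmersion hU.fromSpec) }, ?_⟩
  have : Set.range hU.fromSpec = U := hU.range_fromSpec
  change x ∈ Set.range hU.fromSpec
  rw [this]
  exact hxU

lemma R2_mem {B : Type u} [CommRing B] [Algebra k B] (ν : B →ₐ[k] k) (b : B) :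
    b ∈ (PrimeSpectrum.comap ν.toRingHom (IsLocalRing.closedPoint k)).asIdeal ↔ ν b = 0 := by
  change ν b ∈ IsLocalRing.maximalIdeal k ↔ ν b = 0
  rw [IsLocalRing.maximalIdeal_eq_bot, Ideal.mem_bot]

/-- A `k`-point is determined by the underlying point. -/
theorem Pt.pnt_injective {v v' : Pt π k} (h : v.pnt = v'.pnt) : v = v' := by
  obtain ⟨W, hW⟩ := R2_chart (π := π) v.pnt
  have := W.imm
  obtain ⟨ν, hν⟩ := W.F3_lift_local v hW
  obtain ⟨ν', hν'⟩ := W.F3_lift_local v' (by rw [h] at hW; exact hW)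
  have h1 : PrimeSpectrum.comap ν.toRingHom (IsLocalRing.closedPoint k) =
      PrimeSpectrum.comap ν'.toRingHom (IsLocalRing.closedPoint k) := by
    apply W.pt.1.isOpenEmbedding.injective
    have h2 : (W.pt.map ν).pnt = (W.pt.map ν').pnt := by rw [← hν, ← hν', h]
    exact h2
  have h3 : ν = ν' := by
    ext b
    have h4 : ν (b - algebraMap k W.B (ν b)) = 0 := by
      rw [map_sub, AlgHom.commutes]
      exact sub_self _
    have h5 : ν' (b - algebraMap k W.B (ν b)) = 0 := by
      rw [← R2_mem, ← h1, R2_mem]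
      exact h4
    rw [map_sub, AlgHom.commutes, sub_eq_zero] at h5
    exact h5.symm
  rw [hν, hν', h3]

/-- A smooth variety of positive dimension has infinitely many points. (With etale coordinates `z`
on a chart; `z 0` takes infinitely many values on the chart, by the Nullstellensatz.) -/
theorem exists_new_pt [IsAlgClosed k] {n : ℕ} (hn : 1 ≤ n) [SmoothOfRelativeDimension n π]
    [IsSeparated π] [IsIntegral V] (T : Finset (Pt π k)) : ∃ v : Pt π k, v ∉ T := by
  classical
  have hsm : Smooth π := SmoothOfRelativeDimension.smooth n π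
  obtain ⟨x⟩ : Nonempty V := inferInstance
  obtain ⟨W0, y, hy⟩ := R2_chart (π := π) x
  have hnt0 : Nontrivial W0.B := by
    have hne : Nonempty (PrimeSpectrum W0.B) := ⟨y⟩
    exact PrimeSpectrum.nonempty_iff_nontrivial.1 hne
  have hdom0 : IsDomain W0.B := Q7_domain W0
  have hft0 := W0.finiteType
  obtain ⟨ν0, -⟩ := TaskO.exists_point (k := k) (1 : W0.B) one_ne_zero
  obtain ⟨W, ν, hν⟩ := exists_echart n (W0.pt.map ν0)
  have hnt : Nontrivial W.B := ν.toRingHom.domain_nontrivial
  have hdom : IsDomain W.B := Q7_domain W.toChart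
  have hft := W.toChart.finiteType
  let j0 : Fin n := ⟨0, hn⟩
  let c : Pt π k → k := fun p =>
    if h : ∃ ν : W.B →ₐ[k] k, p = W.pt.map ν then h.choose (W.z j0) else 0
  have hc : ∀ ν : W.B →ₐ[k] k, c (W.pt.map ν) = ν (W.z j0) := by
    intro ν
    have h : ∃ ν' : W.B →ₐ[k] k, W.pt.map ν = W.pt.map ν' := ⟨ν, rfl⟩
    change (if h : ∃ ν' : W.B →ₐ[k] k, W.pt.map ν = W.pt.map ν' then h.choose (W.z j0) else 0) = _
    rw [dif_pos h]
    rw [← W.map_injective h.choose_spec]
  let P : W.B := ∏ p ∈ T, (W.z j0 - algebraMap k W.B (c p))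
  have hP : P ≠ 0 := by
    intro h0
    obtain ⟨p, -, hp⟩ := Finset.prod_eq_zero_iff.1 h0
    obtain ⟨δ, ⟨hδ1, hδ2⟩, -⟩ := etale_dual W.z W.et ν (fun _ => 1)
    have h1 := congrArg (fun b => (δ b).snd) hp
    simp only [map_sub, AlgHom.commutes, TrivSqZeroExt.snd_sub, hδ2, map_zero,
      TrivSqZeroExt.snd_zero] at h1
    simp [TrivSqZeroExt.algebraMap_eq_inl] at h1
  obtain ⟨ν1, hν1⟩ := TaskO.exists_point (k := k) P hP
  refine ⟨W.pt.map ν1, fun hT => hν1 ?_⟩
  change ν1 (∏ p ∈ T, (W.z j0 - algebraMap k W.B (c p))) = 0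
  rw [map_prod]
  apply Finset.prod_eq_zero hT
  rw [map_sub, AlgHom.commutes, hc]
  exact sub_self _

lemma R2_bot_mem {R : Type u} [CommRing R] [IsDomain R] {Z : Set (PrimeSpectrum R)}
    (hZ : IsClosed Z) (h : (⟨⊥, Ideal.isPrime_bot⟩ : PrimeSpectrum R) ∈ Z) (p : PrimeSpectrum R) :
    p ∈ Z := by
  have h1 : p ∈ closure {(⟨⊥, Ideal.isPrime_bot⟩ : PrimeSpectrum R)} := by
    rw [← PrimeSpectrum.le_iff_mem_closure]
    change (⊥ : Ideal R) ≤ p.asIdeal
    exact bot_le
  exact closure_minimal (Set.singleton_subset_iff.2 h) hZ h1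

/-- A nonconstant curve passes through a point finitely many times only. -/
theorem finite_at [IsSeparated π] [IsAlgClosed k] (F : Crv π k) (v : Pt π k)
    (h : F.at none ≠ v) : {a : k | F.at (some a) = v}.Finite := by
  classical
  let Z : Set (PrimeSpectrum k[X]) := {p | F.y.1 p = v.pnt}
  have hZ : IsClosed Z := (Q7_closed v).preimage F.y.1.continuous
  let Zw : Set (PrimeSpectrum k[X]) := {p | F.w.1 p = v.pnt}
  have hZw : IsClosed Zw := (Q7_closed v).preimage F.w.1.continuous
  let g : PrimeSpectrum k[X] := ⟨⊥, Ideal.isPrime_bot⟩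
  by_cases hg : g ∈ Z
  · exfalso
    apply h
    apply Pt.pnt_injective
    let gL : PrimeSpectrum (LaurentPolynomial k) := ⟨⊥, Ideal.isPrime_bot⟩
    have h1 : PrimeSpectrum.comap (lauY k k).toRingHom gL = g := by
      apply PrimeSpectrum.ext
      change Ideal.comap _ ⊥ = ⊥
      rw [← RingHom.ker_eq_comap_bot, ← RingHom.injective_iff_ker_eq_bot, GP1_lauY_eq]
      exact Polynomial.toLaurent_injective
    have h2 : PrimeSpectrum.comap (lauW k k).toRingHom gL = g := by
      apply PrimeSpectrum.ext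
      change Ideal.comap _ ⊥ = ⊥
      rw [← RingHom.ker_eq_comap_bot, ← RingHom.injective_iff_ker_eq_bot]
      exact Q7_lauW_inj
    have h3 : F.y.1 g = F.w.1 g := by
      have h4 := congrArg (fun p : Pt π (LaurentPolynomial k) => p.1 gL) F.glue
      have h5 : F.y.1 (PrimeSpectrum.comap (lauY k k).toRingHom gL) =
          F.w.1 (PrimeSpectrum.comap (lauW k k).toRingHom gL) := h4
      rw [h1, h2] at h5
      exact h5
    have h6 : g ∈ Zw := h3.symm.trans hg
    exact R2_bot_mem hZw h6 (PrimeSpectrum.comap (evk (0 : k) : k[X] →ₐ[k] k).toRingHom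
      (IsLocalRing.closedPoint k))
  · obtain ⟨_, ⟨f, rfl⟩, hf1, hf2⟩ :=
      PrimeSpectrum.isTopologicalBasis_basic_opens.exists_subset_of_mem_open
        (show g ∈ Zᶜ from hg) hZ.isOpen_compl
    have hf0 : f ≠ 0 := by
      rintro rfl
      exact hf1 (zero_mem _)
    refine (f.roots.toFinset.finite_toSet).subset ?_
    intro a ha
    rw [Finset.mem_coe, Multiset.mem_toFinset, Polynomial.mem_roots hf0]
    by_contra hne
    have h1 : PrimeSpectrum.comap (evk a : k[X] →ₐ[k] k).toRingHom (IsLocalRing.closedPoint k) ∈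
        (PrimeSpectrum.basicOpen f : Set (PrimeSpectrum k[X])) := by
      intro h2
      rw [R2_mem] at h2
      exact hne h2
    apply hf2 h1
    change F.y.1 _ = v.pnt
    have h3 : (F.at (some a)).pnt = v.pnt := by
      have : F.at (some a) = v := ha
      rw [this]
    exact h3

/-- If the curve does not pass through `v` outside `S ∪ {∞}`, then the functions vanishing at `v`
generate the unit ideal. (The maximal ideals of `regOff S` are the ones of the points `a ∉ S`.) -/
theorem unit_off [IsAlgClosed k] [IsSeparated π] {n : ℕ} (F : Crv π k) (D : LocData π n k)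
    (hD : D.Of F) (v : Pt π k) (hv : ∀ a, a ∉ D.S → F.at (some a) ≠ v) (ν : D.W1.B →ₐ[k] k)
    (hν : v = D.W1.pt.map ν) :
    ∃ (ι : Type) (_ : Fintype ι) (b : ι → D.W1.B) (g : ι → RatFunc k), (∀ i, ν (b i) = 0) ∧
      (∀ i, g i ∈ regOff D.S) ∧ ∑ i, D.f1 (b i) * g i = 1 := by
  classical
  let f' : D.W1.B → regOff D.S := fun b => ⟨D.f1 b, D.hf1 b⟩
  let J : Ideal (regOff D.S) := Ideal.span (f' '' {b | ν b = 0})
  by_cases hJ : J = ⊤
  · have h1 : (1 : regOff D.S) ∈ J := by rw [hJ]; exact Submodule.mem_top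
    obtain ⟨m, c, b, hb⟩ := Submodule.mem_span_set'.1 h1
    choose b' hb'1 hb'2 using fun i => (b i).2
    refine ⟨Fin m, inferInstance, b', fun i => (c i : RatFunc k), hb'1, fun i => (c i).2, ?_⟩
    have h2 := congrArg (fun x : regOff D.S => (x : RatFunc k)) hb
    have h3 : ((∑ i, c i • (b i : regOff D.S) : regOff D.S) : RatFunc k) =
        ∑ i, D.f1 (b' i) * (c i : RatFunc k) := by
      rw [AddSubmonoidClass.coe_finsetSum]
      refine Finset.sum_congr rfl fun i _ => ?_
      rw [← hb'2 i, smul_eq_mul, Subring.coe_mul, mul_comm]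
    exact h3.symm.trans h2
  · exfalso
    obtain ⟨M, hM, hJM⟩ := Ideal.exists_le_maximal J hJ
    let j : k[X] →+* regOff D.S := (polR (κ := k)).codRestrict (regOff D.S)
      (fun p => polR_mem_regOff D.S p)
    have hj : ∀ p, (j p : RatFunc k) = polR p := fun p => rfl
    have hp : (M.comap j).IsPrime := Ideal.comap_isPrime j M
    obtain ⟨a, haS, hap⟩ : ∃ a, a ∉ D.S ∧ M.comap j ≤ Ideal.span {X - C a} := by
      by_cases h0 : M.comap j = ⊥
      · have : Infinite k := IsAlgClosed.instInfinite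
        obtain ⟨a, ha⟩ := Infinite.exists_notMem_finset D.S
        exact ⟨a, ha, by rw [h0]; exact bot_le⟩
      · have hmax : (M.comap j).IsMaximal := hp.isMaximal h0
        obtain ⟨G, hG⟩ := (IsPrincipalIdealRing.principal (M.comap j)).principal
        have hG' : M.comap j = Ideal.span {G} := hG
        have hdeg : G.degree ≠ 0 := by
          intro hd
          apply hp.ne_top
          rw [hG', Ideal.span_singleton_eq_top]
          exact Polynomial.isUnit_iff_degree_eq_zero.2 hd
        obtain ⟨a, ha⟩ := IsAlgClosed.exists_root G hdeg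
        have hle : M.comap j ≤ Ideal.span {X - C a} := by
          rw [hG', Ideal.span_singleton_le_span_singleton]
          exact Polynomial.dvd_iff_isRoot.2 ha
        refine ⟨a, fun haS => ?_, hle⟩
        have hne : Ideal.span {X - C a} ≠ (⊤ : Ideal k[X]) := by
          rw [Ne, Ideal.span_singleton_eq_top]
          exact Polynomial.not_isUnit_X_sub_C a
        have heq := hmax.eq_of_le hne hle
        have hmem : X - C a ∈ M.comap j := by
          rw [heq]
          exact Ideal.mem_span_singleton_self _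
        apply hM.ne_top
        have h4 : unif (some a) ^ (-((1 : ℕ) : ℤ)) ∈ regOff D.S := DregOff_unif haS 1
        apply Ideal.eq_top_of_isUnit_mem M hmem
        refine IsUnit.of_mul_eq_one (⟨_, h4⟩ : regOff D.S) (Subtype.ext ?_)
        change polR (X - C a) * unif (some a) ^ (-((1 : ℕ) : ℤ)) = 1
        have h5 := unif_ne_zero (some a)
        change unif (some a) * unif (some a) ^ (-((1 : ℕ) : ℤ)) = 1
        rw [zpow_neg, zpow_natCast, pow_one, mul_inv_cancel₀ h5]
    have heval : (∏ s ∈ D.S, (X - C s)).eval a ≠ 0 := by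
      rw [Polynomial.eval_prod, Finset.prod_ne_zero_iff]
      intro s hs h0
      rw [Polynomial.eval_sub, Polynomial.eval_X, Polynomial.eval_C, sub_eq_zero] at h0
      exact haS (h0 ▸ hs)
    have hoff : ∀ g ∈ regOff D.S, g ∈ regAt (some a) := by
      rintro g ⟨p, N, hg⟩
      refine ⟨p, (∏ s ∈ D.S, (X - C s)) ^ N, ?_, ?_⟩
      · rw [Polynomial.eval_pow]
        exact pow_ne_zero _ heval
      · rw [map_pow]
        exact hg
    have hvan : ∀ b, ν b = 0 → Van (some a) 1 (D.f1 b) := by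
      intro b hb
      obtain ⟨p, N, hg⟩ := D.hf1 b
      have h1 : f' b ∈ M := hJM (Ideal.subset_span ⟨b, hb, rfl⟩)
      have h2 : j p ∈ M := by
        have : j p = f' b * j (∏ s ∈ D.S, (X - C s)) ^ N := by
          apply Subtype.ext
          rw [Subring.coe_mul, Subring.coe_pow, hj, hj]
          exact hg.symm
        rw [this]
        exact M.mul_mem_right _ h1
      obtain ⟨q, hq⟩ := Ideal.mem_span_singleton'.1 (hap h2)
      refine ⟨q, (∏ s ∈ D.S, (X - C s)) ^ N, ?_, ?_⟩
      · rw [Polynomial.eval_pow]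
        exact pow_ne_zero _ heval
      · have h5 := unif_ne_zero (some a)
        have h6 : polR (X - C a) = unif (some a) := rfl
        rw [map_pow, mul_assoc, mul_comm (unif (some a) ^ (-1 : ℤ)), ← mul_assoc, hg, ← hq,
          map_mul, h6, zpow_neg_one, mul_assoc, mul_inv_cancel₀ h5, mul_one]
    apply hv a haS
    obtain ⟨ρ, hρ⟩ := J_exists_residue (some a)
    let fa : D.W1.B →ₐ[k] regAt (some a) :=
      { D.f1.toRingHom.codRestrict (regAt (some a)) (fun b => hoff _ (D.hf1 b)) with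
        commutes' := fun r => by
          apply Subtype.ext
          change D.f1 (algebraMap k D.W1.B r) = _
          rw [AlgHom.commutes, J_alg_apply,
            IsScalarTower.algebraMap_apply k k[X] (RatFunc k)]
          rfl }
    have hfa : (J_sub (some a)).comp fa = D.f1 := by
      ext b
      rfl
    have h1 : J_pt F (some a) = D.W1.pt.map fa := by
      apply Pt.map_injective (J_sub (some a)) Subtype.val_injective
      rw [J_pt_sub, hD.hy, Pt.map_map, hfa]
    rw [← J_pt_res F (some a) ρ hρ, h1, Pt.map_map, hν]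
    congr 1
    ext b
    have h2 := hvan (b - algebraMap k D.W1.B (ν b)) (by
      rw [map_sub, AlgHom.commutes]
      exact sub_self _)
    have h3 : ρ (fa (b - algebraMap k D.W1.B (ν b))) = 0 := by
      rw [hρ]
      exact h2
    rw [map_sub, map_sub, AlgHom.commutes, AlgHom.commutes, sub_eq_zero] at h3
    exact h3

lemma R2_not_van (s : Option k) (g : RatFunc k) (hg : g ≠ 0) : ∃ m : ℤ, ¬ Van s m g := by
  obtain ⟨m', hm'⟩ := exists_van s g⁻¹
  refine ⟨1 - m', fun h => ?_⟩
  have h1 := h.mul hm'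
  rw [mul_inv_cancel₀ hg, sub_add_cancel] at h1
  have h2 : Van s 1 (polR (C (1 : k))) := by
    rw [C_1, map_one]
    exact h1
  exact one_ne_zero (Dconst h2)

/-- The leading terms of two functions. -/
lemma R2_lead (s : Option k) (c0 c1 : RatFunc k) (h0 : Van s 1 c0) (h1 : Van s 1 c1)
    (hne : ¬ (c0 = 0 ∧ c1 = 0)) :
    ∃ (e : ℕ) (a0 a1 : k), Van s (e + 2) (c0 - polR (C a0) * unif s ^ (e + 1)) ∧
      Van s (e + 2) (c1 - polR (C a1) * unif s ^ (e + 1)) ∧ ¬ (a0 = 0 ∧ a1 = 0) := by
  classical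
  have hex : ∃ m : ℕ, ¬ (Van s m c0 ∧ Van s m c1) := by
    by_cases h : c0 = 0
    · have h' : c1 ≠ 0 := fun h' => hne ⟨h, h'⟩
      obtain ⟨m, hm⟩ := R2_not_van s c1 h'
      refine ⟨m.toNat, fun h2 => hm (h2.2.mono (Int.self_le_toNat m))⟩
    · obtain ⟨m, hm⟩ := R2_not_van s c0 h
      refine ⟨m.toNat, fun h2 => hm (h2.1.mono (Int.self_le_toNat m))⟩
  let N := Nat.find hex
  have hN : ¬ (Van s N c0 ∧ Van s N c1) := Nat.find_spec hex
  have hN2 : 2 ≤ N := by
    by_contra hlt
    apply hN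
    exact ⟨h0.mono (by omega), h1.mono (by omega)⟩
  obtain ⟨e, he⟩ := Nat.exists_eq_add_of_le hN2
  have he' : N = e + 2 := by omega
  have hmin : Van s ((e + 1 : ℕ) : ℤ) c0 ∧ Van s ((e + 1 : ℕ) : ℤ) c1 := by
    by_contra hlt
    have := Nat.find_min' hex hlt
    change N ≤ e + 1 at this
    omega
  have hres : ∀ c : RatFunc k, Van s ((e + 1 : ℕ) : ℤ) c → ∃ a : k,
      Van s (e + 2) (c - polR (C a) * unif s ^ (e + 1)) := by
    intro c hc
    obtain ⟨a, ha⟩ := Dres hc
    refine ⟨a, ?_⟩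
    have h2 := ha.mul (Dvan_pow s ((e + 1 : ℕ) : ℤ))
    have h3 : (c * unif s ^ (-((e + 1 : ℕ) : ℤ)) - polR (C a)) * unif s ^ ((e + 1 : ℕ) : ℤ) =
        c - polR (C a) * unif s ^ (e + 1) := by
      rw [sub_mul, mul_assoc, ← zpow_add₀ (unif_ne_zero s), neg_add_cancel, zpow_zero, mul_one,
        zpow_natCast]
    rw [h3] at h2
    exact h2.mono (by push_cast; omega)
  obtain ⟨a0, ha0⟩ := hres c0 hmin.1
  obtain ⟨a1, ha1⟩ := hres c1 hmin.2
  refine ⟨e, a0, a1, ha0, ha1, ?_⟩
  rintro ⟨rfl, rfl⟩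
  apply hN
  rw [he']
  rw [C_0, map_zero, zero_mul, sub_zero] at ha0 ha1
  exact ⟨by push_cast; exact ha0, by push_cast; exact ha1⟩

/-- The leading terms at `s` of two coordinates (chosen such that a relevant one is the first), for
`lemma71` and `lemma71'`. -/
theorem lead_terms [IsAlgClosed k] {n : ℕ} (hn : 2 ≤ n) (s : Option k) (c : Fin n → RatFunc k)
    (hc : ∀ j, Van s 1 (c j)) :
    ∃ (i0 i1 : Fin n) (l0 l1 : k), i0 ≠ i1 ∧ (l0 ≠ 0 ∨ l1 ≠ 0) ∧
      ∀ (κ : Type u) [Field κ] [Algebra k κ] (x y : κ),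
        algebraMap k κ l0 * x + algebraMap k κ l1 * y ≠ 0 →
        (rbase k κ (c i0) = 0 ∧ rbase k κ (c i1) = 0) ∨
        ∃ (e : ℕ) (a0 a1 : κ),
          Van (s.map (algebraMap k κ)) (e + 2) (rbase k κ (c i0) -
            polR (C a0) * unif (s.map (algebraMap k κ)) ^ (e + 1)) ∧
          Van (s.map (algebraMap k κ)) (e + 2) (rbase k κ (c i1) -
            polR (C a1) * unif (s.map (algebraMap k κ)) ^ (e + 1)) ∧
          a0 * y - a1 * x ≠ 0 := by
  let i0 : Fin n := ⟨0, by omega⟩
  let i1 : Fin n := ⟨1, by omega⟩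
  have hi : i0 ≠ i1 := by
    intro h
    have := congrArg Fin.val h
    exact zero_ne_one this
  by_cases h0 : c i0 = 0 ∧ c i1 = 0
  · refine ⟨i0, i1, 1, 0, hi, Or.inl one_ne_zero, ?_⟩
    intro κ _ _ x y _
    left
    rw [h0.1, h0.2]
    exact ⟨map_zero _, map_zero _⟩
  · obtain ⟨e, a0, a1, ha0, ha1, hne⟩ := R2_lead s (c i0) (c i1) (hc i0) (hc i1) h0
    refine ⟨i0, i1, -a1, a0, hi, ?_, ?_⟩
    · by_contra hcon
      push Not at hcon
      exact hne ⟨hcon.2, neg_eq_zero.1 hcon.1⟩
    · intro κ _ _ x y hxy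
      right
      refine ⟨e, algebraMap k κ a0, algebraMap k κ a1, ?_, ?_, ?_⟩
      · have h1 := rbase_van (κ := κ) s _ _ ha0
        rw [map_sub, map_mul, map_pow, J1rbase_unif, rbase_polR, Polynomial.map_C] at h1
        exact h1
      · have h1 := rbase_van (κ := κ) s _ _ ha1
        rw [map_sub, map_mul, map_pow, J1rbase_unif, rbase_polR, Polynomial.map_C] at h1
        exact h1
      · intro h
        apply hxy
        rw [map_neg, ← h]
        ring

end Pool.Agent.H19VF
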