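import Pool.Agent.H19VF.P_Main
import Pool.Agent.H19VF.J2a_Sections
import Pool.Agent.H19VF.R1_Jet
import Pool.Agent.H19VF.R2_Pts
import Pool.Agent.H19VF.Q1_Lemma
import Pool.Agent.H19VF.Q2_Gen
import Pool.Agent.H19VF.Q3_Avoid
import Pool.Agent.H19VF.Q4_Spec

/-! # Section 7 of the paper: very free curves with smooth marked points, dimension at least two -/

set_option autoImplicit false

open AlgebraicGeometry CategoryTheory Polynomial

universe u

namespace Pool.Agent.H19VF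

variable {k : Type u} [Field k] {V : Scheme.{u}} {π : V ⟶ Spec (.of k)}

lemma Q6_van_eq {κ : Type u} [Field κ] {s : Option κ} {g : RatFunc κ} {c c' : κ}
    (h : Van s 1 (g - polR (C c))) (h' : Van s 1 (g - polR (C c'))) : c = c' := by
  have h1 := Dvan_sub h' h
  have h2 : g - polR (C c') - (g - polR (C c)) = polR (C (c - c')) := by
    rw [C_sub, map_sub]; ring
  rw [h2] at h1
  exact sub_eq_zero.1 (Dconst h1)

/-- A lift of a `k`-point with constant coordinates is constant. -/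
lemma Q6_const {n : ℕ} (W : EChart π n) {κ : Type u} [Field κ] [Algebra k κ]
    (ν : W.B →ₐ[k] k) (hν : ∀ j, ν (W.z j) = 0) (φs : W.B →ₐ[k] PowerSeries κ)
    (h0 : ∀ b, PowerSeries.coeff 0 (φs b) = algebraMap k κ (ν b)) (h1 : ∀ j, φs (W.z j) = 0) :
    W.pt.map ((LSer.ofPSa k).comp φs) = (W.pt.map ν).const := by
  have h2 : φs = (Algebra.ofId k (PowerSeries κ)).comp ν := by
    apply etale_unique W.z W.et
    · intro b
      rw [← PowerSeries.coeff_zero_eq_constantCoeff_apply, h0]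
      change _ = PowerSeries.constantCoeff (algebraMap k (PowerSeries κ) (ν b))
      rw [PowerSeries.algebraMap_apply, PowerSeries.constantCoeff_C]
    · intro j
      rw [h1, AlgHom.comp_apply, hν, map_zero]
  rw [h2, Pt.const, Pt.map_map]
  congr 1
  ext b : 1
  change LSer.ofPSa k (algebraMap k (PowerSeries κ) (ν b)) = algebraMap k (LSer κ) (ν b)
  exact AlgHom.commutes _ _

/-- Data of a deformed curve over `κ((t))`. -/
structure Q6Def {n : ℕ} {κ : Type u} [Field κ] [Algebra k κ] (D : LocData π n κ)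
    (θ : Sec D) (nn : Option κ → ℕ) (ψ : Crv π (LSer κ)) where
  φ1 : D.W1.B →ₐ[k] PowerSeries (RatFunc κ)
  φ : ∀ s, (D.W s).B →ₐ[k] PowerSeries (RatFunc κ)
  h1 : ∀ b, PowerSeries.constantCoeff (φ1 b) = D.f1 b
  h2 : ∀ b i, PowerSeries.coeff i (φ1 b) ∈ regOff D.S
  h3 : ∀ s, InS D.S s → ∀ b, PowerSeries.constantCoeff (φ s b) = D.f s b
  h4 : ∀ s, InS D.S s → ∀ b i, PowerSeries.coeff i (φ s b) ∈ regAt s
  h5 : ∀ s, InS D.S s → (D.W s).pt.map (φ s) = D.W1.pt.map φ1
  h6 : ∀ s, InS D.S s → ∀ b, PowerSeries.coeff 1 (φ s b) = (θ.δ s b).snd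
  h7 : ∀ s, InS D.S s → ∀ j i, 2 ≤ i → Van s (nn s) (PowerSeries.coeff i (φ s ((D.W s).z j)))
  hy : ψ.y.map (embY k) = D.W1.pt.map ((LSer.ofPSa k).comp φ1)
  hw : ψ.w.map (embW k) = D.W1.pt.map ((LSer.ofPSa k).comp φ1)
  h8 : ∀ s, InS D.S s → D.W1.pt.map ((LSer.ofPSa k).comp φ1) =
    (D.W s).pt.map ((LSer.ofPSa k).comp (φ s))

/-- The deformed curve. -/
theorem Q6_deform [IsSeparated π] [LocallyOfFiniteType π] {n : ℕ} {κ : Type u} [Field κ]
    [Algebra k κ] (D : LocData π n κ) (N : ℤ) (ξ : Fin n → Sec D)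
    (hN : ∀ i b, Van none N (((ξ i).δ none b).snd))
    (hdet : (Matrix.of fun i j => ((ξ i).δ1 (D.W1.z j)).snd).det ≠ 0)
    (nn : Option κ → ℕ) (hnn : (∑ s ∈ D.S, (nn (some s) : ℤ)) + nn none ≤ N + 1)
    (θ : Sec D) : ∃ ψ : Crv π (LSer κ), Nonempty (Q6Def D θ nn ψ) := by
  obtain ⟨φ1, φ, h1, h2, h3, h4, h5, h6, h7⟩ := deform D N ξ hN hdet nn hnn θ
  have hθs : ∀ s, InS D.S s → D.W1.pt.map ((LSer.ofPSa k).comp φ1) =
      (D.W s).pt.map ((LSer.ofPSa k).comp (φ s)) := by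
    intro s hs
    rw [← Pt.map_map, ← Pt.map_map, h5 s hs]
  have hser : ∀ (O : Subring (RatFunc κ)) (g : PowerSeries (RatFunc κ)),
      (∀ i, PowerSeries.coeff i g ∈ O) → SerIn O (LSer.ofPS g) := by
    intro O g hg m
    rw [LSer.coeff_ofPS]
    split_ifs
    · exact hg _
    · exact O.zero_mem
  obtain ⟨ψ, hy, hw⟩ := alg_glue D.S (D.W1.pt.map ((LSer.ofPSa k).comp φ1))
    D.W1.toChart ((LSer.ofPSa k).comp φ1) rfl (fun b => hser _ _ (h2 b)) (by
      intro s hs q hq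
      refine ⟨(D.W s).toChart, (LSer.ofPSa k).comp (φ s), hθs s hs, fun b => ?_⟩
      refine ⟨⟨LSer.ofPS (φ s b), hser _ _ (h4 s hs b)⟩, 1, ?_, ?_⟩
      · exact fun h => hq.ne_top ((Ideal.eq_top_iff_one q).2 h)
      · change _ * (1 : LSer (RatFunc κ)) = _
        rw [mul_one]
        rfl)
  exact ⟨ψ, ⟨⟨φ1, φ, h1, h2, h3, h4, h5, h6, h7, hy, hw, hθs⟩⟩⟩

/-- The value of the deformed curve at a point where the first order deformation vanishes. -/
theorem Q6Def.value_const [IsSeparated π] {n : ℕ} {κ : Type u} [Field κ]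
    [Algebra k κ] {D : LocData π n κ} {θ : Sec D} {nn : Option κ → ℕ} {ψ : Crv π (LSer κ)}
    (E : Q6Def D θ nn ψ) (s : Option k) (y : Option κ) (hy : y = s.map (algebraMap k κ))
    (hs : InS D.S y) (ν : (D.W y).B →ₐ[k] k) (hν : ∀ j, ν ((D.W y).z j) = 0)
    (hf : ∀ b, Van y 1 (D.f y b - polR (C (algebraMap k κ (ν b)))))
    (hnn : 1 ≤ nn y) (hθ : ∀ j, Van y 1 ((θ.δ y ((D.W y).z j)).snd)) :
    ψ.at s = ((D.W y).pt.map ν).const := by
  subst hy
  obtain ⟨φs, h1, h2⟩ := Crv.value ψ _ E.hy E.hw s (D.W _).toChart (E.φ _) (E.h8 _ hs) (E.h4 _ hs)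
  rw [h1]
  apply Q6_const (D.W (s.map (algebraMap k κ))) ν hν φs
  · intro b
    apply Q6_van_eq (h2 b 0)
    rw [PowerSeries.coeff_zero_eq_constantCoeff_apply, E.h3 _ hs]
    exact hf b
  · intro j
    ext i
    rw [map_zero]
    apply Q6_van_eq (h2 _ i)
    rw [C_0, map_zero, sub_zero]
    rcases Nat.lt_or_ge i 2 with hi | hi
    · interval_cases i
      · rw [PowerSeries.coeff_zero_eq_constantCoeff_apply, E.h3 _ hs]
        have h3 := hf ((D.W (s.map (algebraMap k κ))).z j)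
        rw [hν, map_zero, C_0, map_zero, sub_zero] at h3
        exact h3
      · rw [E.h6 _ hs]
        exact hθ j
    · exact (E.h7 _ hs j i hi).mono (by exact_mod_cast hnn)

/-- The value of the deformed curve at a point where the value of the first order deformation
is `u`. -/
theorem Q6Def.value_gen [IsSeparated π] {n : ℕ} {κ : Type u} [Field κ]
    [Algebra k κ] {D : LocData π n κ} {θ : Sec D} {nn : Option κ → ℕ} {ψ : Crv π (LSer κ)}
    (E : Q6Def D θ nn ψ) (s : Option k) (y : Option κ) (hy : y = s.map (algebraMap k κ))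
    (hs : InS D.S y) (ν : (D.W y).B →ₐ[k] k) (hν : ∀ j, ν ((D.W y).z j) = 0)
    (hf : ∀ b, Van y 1 (D.f y b - polR (C (algebraMap k κ (ν b)))))
    (hnn : 1 ≤ nn y) (u : Fin n → κ)
    (hθ : ∀ j, Van y 1 ((θ.δ y ((D.W y).z j)).snd - polR (C (u j)))) :
    ∃ φ : (D.W y).B →ₐ[k] LSer κ, ψ.at s = (D.W y).pt.map φ ∧
      ∀ j, φ ((D.W y).z j) = LSer.T 1 * LSer.C (u j) := by
  subst hy
  obtain ⟨φs, h1, h2⟩ := Crv.value ψ _ E.hy E.hw s (D.W _).toChart (E.φ _) (E.h8 _ hs) (E.h4 _ hs)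
  refine ⟨_, h1, fun j => ?_⟩
  have h4 : φs ((D.W (s.map (algebraMap k κ))).z j) = PowerSeries.X * PowerSeries.C (u j) := by
    ext i
    apply Q6_van_eq (h2 _ i)
    rcases Nat.lt_or_ge i 2 with hi | hi
    · interval_cases i
      · rw [PowerSeries.coeff_zero_eq_constantCoeff_apply, E.h3 _ hs]
        have h3 := hf ((D.W (s.map (algebraMap k κ))).z j)
        rw [hν, map_zero] at h3
        rw [PowerSeries.coeff_zero_X_mul]
        exact h3
      · rw [E.h6 _ hs, show (1 : ℕ) = 0 + 1 from rfl, PowerSeries.coeff_succ_X_mul,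
          PowerSeries.coeff_zero_C]
        exact hθ j
    · have h5 : PowerSeries.coeff i (PowerSeries.X * PowerSeries.C (u j)) = 0 := by
        obtain ⟨i, rfl⟩ : ∃ l, i = l + 1 := ⟨i - 1, by omega⟩
        rw [PowerSeries.coeff_succ_X_mul, PowerSeries.coeff_C, if_neg (by omega)]
      rw [h5, C_0, map_zero, sub_zero]
      exact (E.h7 _ hs j i hi).mono (by exact_mod_cast hnn)
  change LSer.ofPS (φs ((D.W (s.map (algebraMap k κ))).z j)) = _
  rw [h4, map_mul, LSer.ofPS_X, LSer.ofPS_C]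

/-- The deformed curve is an immersion at a point where the first order deformation has a simple
zero. -/
theorem Q6_imm [IsSeparated π] {n : ℕ} {κ : Type u} [Field κ]
    [Algebra k κ] (ψ : Crv π (LSer κ)) (θ : Pt π (LSer (RatFunc κ)))
    (hy : ψ.y.map (embY k) = θ) (a : k) (W : EChart π n)
    (φ : W.B →ₐ[k] PowerSeries (RatFunc κ)) (hφ : θ = W.pt.map ((LSer.ofPSa k).comp φ))
    (hφ' : ∀ b i, PowerSeries.coeff i (φ b) ∈ regAt (some (algebraMap k κ a)))
    (ν : W.B →ₐ[k] k) (hψ : ψ.at (some a) = (W.pt.map ν).const) (j : Fin n) (b : κ)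
    (hb : b ≠ 0) (hθ : Van (some (algebraMap k κ a)) 2
      (PowerSeries.coeff 1 (φ (W.z j)) - polR (C b) * unif (some (algebraMap k κ a)))) :
    ψ.ImmAt (W.pt.map ν) a := by
  obtain ⟨φj, h1, h2⟩ := Crv.jet ψ _ hy a W.toChart φ hφ hφ'
  have h3 : (dfst k (LSer κ)).comp ((dmap (LSer.ofPSa k)).comp φj) =
      (Algebra.ofId k (LSer κ)).comp ν := by
    apply W.toChart.map_injective
    rw [← Pt.map_map, ← h1, Pt.map_map, TaskQ4.dfst_evAt]
    refine hψ.trans ?_
    rw [Pt.const, Pt.map_map]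
  have h3' : ∀ b, (((dmap (LSer.ofPSa k)).comp φj) b).fst = algebraMap k (LSer κ) (ν b) := by
    intro b
    have h3b := DFunLike.congr_fun h3 b
    rw [AlgHom.comp_apply] at h3b
    exact h3b
  have h4 := h2 (W.z j) 1
  suffices h0 : (((dmap (LSer.ofPSa k)).comp φj) (W.z j)).snd ≠ 0 by
    refine ⟨W.toChart, ν, (dmap (LSer.ofPSa k)).comp φj, rfl, ?_, ?_, ?_⟩
    · exact h1
    · exact h3'
    · exact ⟨W.z j, h0⟩
  rw [AlgHom.comp_apply, dmap_snd]
  intro h0
  have h5 : (φj (W.z j)).snd = 0 := by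
    apply LSer.ofPS_injective
    rw [map_zero]
    exact h0
  rw [h5, map_zero, C_0, map_zero, zero_mul, sub_zero] at h4
  have h5 := Dvan_sub h4 hθ
  have h6 : ∀ (g c e : RatFunc κ), g - c - (g - e) = e - c := fun g c e => by ring
  rw [h6] at h5
  -- the constant term
  have hc : PowerSeries.coeff 1 (φj (W.z j)).fst = 0 := by
    have h7 := h5.mono (m' := 1) (by norm_num)
    have h8 : Van (some (algebraMap k κ a)) 1 (polR (C b) * unif (some (algebraMap k κ a))) := by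
      have := Dvan_mul_reg (Dvan_pow (some (algebraMap k κ a)) 1)
        (polR_C_mem (some (algebraMap k κ a)) b)
      rwa [zpow_one] at this
    have h9 := Dvan_sub h8 h7
    rw [sub_sub_cancel] at h9
    exact Dconst h9
  rw [hc, C_0, map_zero, sub_zero] at h5
  have h10 : Van (some (algebraMap k κ a)) 1 (polR (C b)) := by
    have h11 := h5.mul (Dvan_pow (some (algebraMap k κ a)) (-1))
    rw [mul_assoc, zpow_neg_one, mul_inv_cancel₀ (unif_ne_zero _), mul_one] at h11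
    exact h11
  exact hb (Dconst h10)

/-- `lemma71` for the deformed curve. -/
theorem Q6Def.case71 {n : ℕ} {κ : Type u} [Field κ]
    [Algebra k κ] {D : LocData π n κ} {θ : Sec D} {nn : Option κ → ℕ} {ψ : Crv π (LSer κ)}
    (E : Q6Def D θ nn ψ) (y : Option κ) (hs : InS D.S y) (ν : (D.W y).B →ₐ[k] k)
    (hν : ∀ j, ν ((D.W y).z j) = 0) (q : Ideal (serSub (regAt y))) (hq : q.IsPrime)
    (hb : ∀ b, ν b = 0 → ∃ x ∈ q, (x : LSer (RatFunc κ)) = LSer.ofPS (E.φ y b))
    (i0 i1 : Fin n) (ϑ : Fin n → κ)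
    (hϑ : ∀ j, Van y 1 ((θ.δ y ((D.W y).z j)).snd - polR (C (ϑ j))))
    (H : (D.f y ((D.W y).z i0) = 0 ∧ D.f y ((D.W y).z i1) = 0 ∧ (ϑ i0 ≠ 0 ∨ ϑ i1 ≠ 0)) ∨
      ∃ (e : ℕ) (a0 a1 : κ), Van y (e + 2) (D.f y ((D.W y).z i0) - polR (C a0) * unif y ^ (e + 1)) ∧
        Van y (e + 2) (D.f y ((D.W y).z i1) - polR (C a1) * unif y ^ (e + 1)) ∧
        a0 * ϑ i1 - a1 * ϑ i0 ≠ 0) : False := by
  refine lemma71 y q hq ![E.φ y ((D.W y).z i0), E.φ y ((D.W y).z i1)] ?_ ?_ ![ϑ i0, ϑ i1] ?_ ?_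
  · intro j i
    fin_cases j
    · exact E.h4 y hs _ i
    · exact E.h4 y hs _ i
  · intro j
    fin_cases j
    · exact hb _ (hν i0)
    · exact hb _ (hν i1)
  · intro j
    fin_cases j
    · have := hϑ i0
      rw [← E.h6 y hs] at this
      exact this
    · have := hϑ i1
      rw [← E.h6 y hs] at this
      exact this
  · rcases H with ⟨h1, h2, h3⟩ | ⟨e, a0, a1, h1, h2, h3⟩
    · left
      refine ⟨fun j => ?_, fun h => ?_⟩
      · fin_cases j
        · change PowerSeries.coeff 0 (E.φ y ((D.W y).z i0)) = 0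
          rw [PowerSeries.coeff_zero_eq_constantCoeff_apply, E.h3 y hs, h1]
        · change PowerSeries.coeff 0 (E.φ y ((D.W y).z i1)) = 0
          rw [PowerSeries.coeff_zero_eq_constantCoeff_apply, E.h3 y hs, h2]
      · rcases h3 with h3 | h3
        · exact h3 (congrFun h 0)
        · exact h3 (congrFun h 1)
    · right
      refine ⟨e + 1, ![a0, a1], fun j => ?_, h3⟩
      have he : (((e + 1 : ℕ) : ℤ) + 1) = (e : ℤ) + 2 := by push_cast; ring
      rw [he]
      fin_cases j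
      · change Van y _ (PowerSeries.coeff 0 (E.φ y ((D.W y).z i0)) - _)
        rw [PowerSeries.coeff_zero_eq_constantCoeff_apply, E.h3 y hs]
        exact h1
      · change Van y _ (PowerSeries.coeff 0 (E.φ y ((D.W y).z i1)) - _)
        rw [PowerSeries.coeff_zero_eq_constantCoeff_apply, E.h3 y hs]
        exact h2

/-- `lemma71'` for the deformed curve. -/
theorem Q6Def.case71' {n : ℕ} {κ : Type u} [Field κ]
    [Algebra k κ] {D : LocData π n κ} {θ : Sec D} {nn : Option κ → ℕ} {ψ : Crv π (LSer κ)}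
    (E : Q6Def D θ nn ψ) (y : Option κ) (hs : InS D.S y) (ν : (D.W y).B →ₐ[k] k)
    (hν : ∀ j, ν ((D.W y).z j) = 0)
    (hf : ∀ b, Van y 1 (D.f y b - polR (C (algebraMap k κ (ν b)))))
    (hnn : 2 ≤ nn y) (q : Ideal (serSub (regAt y))) (hq : q.IsPrime)
    (hb : ∀ b, ν b = 0 → ∃ x ∈ q, (x : LSer (RatFunc κ)) = LSer.ofPS (E.φ y b))
    (i0 i1 : Fin n) (ϑ : Fin n → κ)
    (hϑ : ∀ j, Van y 2 ((θ.δ y ((D.W y).z j)).snd - polR (C (ϑ j)) * unif y))
    (H : (D.f y ((D.W y).z i0) = 0 ∧ D.f y ((D.W y).z i1) = 0 ∧ (ϑ i0 ≠ 0 ∨ ϑ i1 ≠ 0)) ∨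
      ∃ (e : ℕ) (a0 a1 : κ), Van y (e + 2) (D.f y ((D.W y).z i0) - polR (C a0) * unif y ^ (e + 1)) ∧
        Van y (e + 2) (D.f y ((D.W y).z i1) - polR (C a1) * unif y ^ (e + 1)) ∧
        a0 * ϑ i1 - a1 * ϑ i0 ≠ 0) :
    ∃ x ∈ q, (x : LSer (RatFunc κ)) = LSer.C (unif y) := by
  have hvan : ∀ j i, Van y 1 (PowerSeries.coeff i (E.φ y ((D.W y).z j))) := by
    intro j i
    rcases Nat.lt_or_ge i 2 with hi | hi
    · interval_cases i
      · rw [PowerSeries.coeff_zero_eq_constantCoeff_apply, E.h3 _ hs]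
        have h3 := hf ((D.W y).z j)
        rw [hν, map_zero, C_0, map_zero, sub_zero] at h3
        exact h3
      · rw [E.h6 _ hs]
        have h4 := (hϑ j).mono (m' := 1) (by norm_num)
        have h8 : Van y 1 (polR (C (ϑ j)) * unif y) := by
          have := Dvan_mul_reg (Dvan_pow y 1) (polR_C_mem y (ϑ j))
          rwa [zpow_one] at this
        have h9 := h4.add h8
        rwa [sub_add_cancel] at h9
    · exact (E.h7 _ hs j i hi).mono (by omega)
  refine lemma71' y q hq ![E.φ y ((D.W y).z i0), E.φ y ((D.W y).z i1)] ?_ ?_ ![ϑ i0, ϑ i1] ?_ ?_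
  · intro j i
    fin_cases j
    · exact hvan _ i
    · exact hvan _ i
  · intro j
    fin_cases j
    · exact hb _ (hν i0)
    · exact hb _ (hν i1)
  · intro j
    fin_cases j
    · have := hϑ i0
      rw [← E.h6 y hs] at this
      exact this
    · have := hϑ i1
      rw [← E.h6 y hs] at this
      exact this
  · rcases H with ⟨h1, h2, h3⟩ | ⟨e, a0, a1, h1, h2, h3⟩
    · left
      refine ⟨fun j => ?_, fun h => ?_⟩
      · fin_cases j
        · change PowerSeries.coeff 0 (E.φ y ((D.W y).z i0)) = 0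
          rw [PowerSeries.coeff_zero_eq_constantCoeff_apply, E.h3 y hs, h1]
        · change PowerSeries.coeff 0 (E.φ y ((D.W y).z i1)) = 0
          rw [PowerSeries.coeff_zero_eq_constantCoeff_apply, E.h3 y hs, h2]
      · rcases h3 with h3 | h3
        · exact h3 (congrFun h 0)
        · exact h3 (congrFun h 1)
    · right
      refine ⟨e, ![a0, a1], fun j => ?_, h3⟩
      fin_cases j
      · change Van y _ (PowerSeries.coeff 0 (E.φ y ((D.W y).z i0)) - _)
        rw [PowerSeries.coeff_zero_eq_constantCoeff_apply, E.h3 y hs]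
        exact h1
      · change Van y _ (PowerSeries.coeff 0 (E.φ y ((D.W y).z i1)) - _)
        rw [PowerSeries.coeff_zero_eq_constantCoeff_apply, E.h3 y hs]
        exact h2

end Pool.Agent.H19VF
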