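import Pool.Agent.H19VF.Q6a_Def

/-! # Section 7 of the paper: very free curves with smooth marked points, dimension at least two -/

set_option autoImplicit false

open AlgebraicGeometry CategoryTheory Polynomial

universe u

namespace Pool.Agent.H19VF

variable {k : Type u} [Field k] {V : Scheme.{u}} {π : V ⟶ Spec (.of k)}

/-- The count of the conditions. -/
lemma Q6_count {κ : Type u} [Field κ] [DecidableEq κ] (S : Finset κ) {m : ℕ} (σ : Fin m → κ)
    (nn : Option κ → ℕ) (h0 : nn (some 0) ≤ 1) (hi : nn none ≤ 1)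
    (hσ : ∀ a, a ≠ 0 → (∃ i, a = σ i) → nn (some a) ≤ 2)
    (hn : ∀ a, a ≠ 0 → (¬ ∃ i, a = σ i) → nn (some a) = 0) :
    (∑ s ∈ S, (nn (some s) : ℤ)) + nn none ≤ (2 * m + 2 : ℕ) := by
  have h1 : ∀ s ∈ S, (nn (some s) : ℤ) ≤ (if s = 0 then 1 else 0) +
      ∑ i, if s = σ i then 2 else 0 := by
    intro s _
    have h2 : (0 : ℤ) ≤ ∑ i, if s = σ i then (2 : ℤ) else 0 :=
      Finset.sum_nonneg fun i _ => by split_ifs <;> norm_num
    by_cases hs : s = 0
    · subst hs
      rw [if_pos rfl]
      have : (nn (some (0 : κ)) : ℤ) ≤ 1 := by exact_mod_cast h0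
      linarith
    · rw [if_neg hs, zero_add]
      by_cases hs' : ∃ i, s = σ i
      · obtain ⟨i, hi⟩ := hs'
        have h3 : (2 : ℤ) ≤ ∑ i, if s = σ i then (2 : ℤ) else 0 := by
          refine le_trans ?_ (Finset.single_le_sum (f := fun i => if s = σ i then (2 : ℤ) else 0)
            (fun i _ => by split_ifs <;> norm_num) (Finset.mem_univ i))
          simp only [if_pos hi, le_refl]
        have h4 : (nn (some s) : ℤ) ≤ 2 := by exact_mod_cast hσ s hs ⟨i, hi⟩
        linarith
      · rw [hn s hs hs']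
        exact_mod_cast h2
  have h2 := Finset.sum_le_sum h1
  rw [Finset.sum_add_distrib, Finset.sum_comm] at h2
  have h3 : ∑ s ∈ S, (if s = 0 then (1 : ℤ) else 0) ≤ 1 := by
    rw [Finset.sum_ite_eq' S (0 : κ)]
    split_ifs <;> norm_num
  have h4 : ∑ i : Fin m, ∑ s ∈ S, (if s = σ i then (2 : ℤ) else 0) ≤ 2 * m := by
    have : ∀ i : Fin m, i ∈ Finset.univ → ∑ s ∈ S, (if s = σ i then (2 : ℤ) else 0) ≤ 2 := by
      intro i _
      rw [Finset.sum_ite_eq' S (σ i)]
      split_ifs <;> norm_num
    refine (Finset.sum_le_card_nsmul _ _ _ this).trans ?_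
    rw [Finset.card_univ, Fintype.card_fin, nsmul_eq_mul]
    linarith
  have h5 : (nn none : ℤ) ≤ 1 := by exact_mod_cast hi
  push_cast
  linarith

theorem Q6_main [IsAlgClosed k] {n : ℕ} (hn : 2 ≤ n) [SmoothOfRelativeDimension n π]
    [IsSeparated π] (F' : Crv π k) (hF' : IsVeryFree F') {m : ℕ} (v0 : Pt π k)
    (v : Fin m → Pt π k) (hv : Function.Injective v) (h0 : ∀ i, v0 ≠ v i)
    (hinf : F'.at none = v0) (s : Fin m → k) (hs : Function.Injective s) (hs0 : ∀ i, s i ≠ 0)
    (hsv : ∀ i, F'.at (some (s i)) = v i) (κ : Type u) [Field κ] [Algebra k κ] (u : Fin n → κ)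
    (d : Fin n → Derivation k κ κ) (hd : ∀ a b, d a (u b) = if a = b then 1 else 0) :
    ∃ (f : Crv π k) (σ : Fin m → k), IsVeryFree f ∧ (∀ i, f.at (some (σ i)) = v i) ∧
      (∀ i, f.OnlyAt (v i) (σ i)) ∧ ∀ i, f.ImmAt (v i) (σ i) := by
  classical
  have hsm : Smooth π := SmoothOfRelativeDimension.smooth n π
  have hinfk : Infinite k := IsAlgClosed.instInfinite
  have hinfκ : Infinite κ := Infinite.of_injective (algebraMap k κ) (algebraMap k κ).injective
  have hinj : Function.Injective (algebraMap k κ) := (algebraMap k κ).injective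
  choose σ hσ using fun i => IsAlgClosed.exists_pow_nat_eq (s i) (n := 2 * m + 2) (by omega)
  have hσinj : Function.Injective σ := by
    intro i j hij
    apply hs
    rw [← hσ i, ← hσ j, hij]
  have hσ0 : ∀ i, σ i ≠ 0 := by
    intro i h
    apply hs0 i
    rw [← hσ i, h, zero_pow (by omega)]
  obtain ⟨F, hF⟩ : ∃ F : Crv π k, F = F'.pow (2 * m + 2) := ⟨_, rfl⟩
  have hFσ : ∀ i, F.at (some (σ i)) = v i := by
    intro i
    rw [hF, Crv.pow_at_some, hσ, hsv]
  have hFinf : F.at none = v0 := by
    rw [hF, Crv.pow_at_none _ _ (by omega), hinf]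
  have hfin : (⋃ i, {a : k | F.at (some a) = v i}).Finite :=
    Set.finite_iUnion fun i => finite_at F (v i) (by rw [hFinf]; exact h0 i)
  obtain ⟨D, hDS, hD⟩ := exists_locData (n := n) F
    ({0} ∪ Finset.univ.image σ ∪ hfin.toFinset)
  have hD0 : (0 : k) ∈ D.S := hDS (by simp)
  have hDσ : ∀ i, σ i ∈ D.S := fun i => hDS (by simp)
  have hDv : ∀ i, ∀ a, a ∉ D.S → F.at (some a) ≠ v i := by
    intro i a ha h
    exact ha (hDS (by simp only [Finset.mem_union, Set.Finite.mem_toFinset, Set.mem_iUnion]; exact Or.inr ⟨i, h⟩))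
  rw [hF] at hD
  obtain ⟨ξ, -, -, hξ⟩ := exists_sections F' hF' D (2 * m + 2) (by omega) hD hD0
  rw [← hF] at hD
  obtain ⟨hN, hdet⟩ := hξ κ
  -- the points
  have hback : ∀ y, InS (D.base κ).S y → InS D.S (back k κ y) ∧
      (back k κ y).map (algebraMap k κ) = y := by
    intro y hy
    obtain ⟨t, ht, rfl⟩ := J1inS hy
    rw [back_map]
    exact ⟨ht, rfl⟩
  have hat : ∀ y, InS (D.base κ).S y → ∃ ν : ((D.base κ).W y).B →ₐ[k] k,
      F.at (back k κ y) = ((D.base κ).W y).pt.map ν ∧
      (∀ b, Van y 1 ((D.base κ).f y b - polR (C (algebraMap k κ (ν b))))) ∧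
      ∀ j, ν (((D.base κ).W y).z j) = 0 := by
    intro y hy
    obtain ⟨ht, hty⟩ := hback y hy
    obtain ⟨ν, h1, h2, h3⟩ := hD.hat _ ht
    refine ⟨ν, h1, fun b => ?_, h3⟩
    have h4 := rbase_van (κ := κ) _ _ _ (h2 b)
    rw [hty, map_sub, rbase_polR, Polynomial.map_C] at h4
    exact h4
  have hlead : ∀ y : Option κ, ∃ (i0 i1 : Fin n) (l0 l1 : k), i0 ≠ i1 ∧ (l0 ≠ 0 ∨ l1 ≠ 0) ∧
      (InS (D.base κ).S y → ∀ a b : κ, algebraMap k κ l0 * a + algebraMap k κ l1 * b ≠ 0 →
        ((D.base κ).f y (((D.base κ).W y).z i0) = 0 ∧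
          (D.base κ).f y (((D.base κ).W y).z i1) = 0) ∨
        ∃ (e : ℕ) (a0 a1 : κ),
          Van y (e + 2) ((D.base κ).f y (((D.base κ).W y).z i0) - polR (C a0) * unif y ^ (e + 1)) ∧
          Van y (e + 2) ((D.base κ).f y (((D.base κ).W y).z i1) - polR (C a1) * unif y ^ (e + 1)) ∧
          a0 * b - a1 * a ≠ 0) := by
    intro y
    by_cases hy : InS (D.base κ).S y
    · obtain ⟨ht, hty⟩ := hback y hy
      obtain ⟨ν, h1, h2, h3⟩ := hD.hat _ ht
      obtain ⟨i0, i1, l0, l1, h4, h5, h6⟩ := lead_terms hn (back k κ y)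
        (fun j => D.f (back k κ y) ((D.W (back k κ y)).z j)) (by
          intro j
          have h7 := h2 ((D.W (back k κ y)).z j)
          rw [h3 j, C_0, map_zero, sub_zero] at h7
          exact h7)
      refine ⟨i0, i1, l0, l1, h4, h5, fun _ a b hab => ?_⟩
      have h8 := h6 κ a b hab
      rw [hty] at h8
      exact h8
    · exact ⟨⟨0, by omega⟩, ⟨1, by omega⟩, 1, 1, by simp, Or.inl one_ne_zero,
        fun h => absurd h hy⟩
  choose i0 i1 l0 l1 hi01 hl hL using hlead
  -- the directions at the marked points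
  obtain ⟨bb, hbb0⟩ : ∃ bb : Option κ → Fin n → κ, bb = fun y j =>
    if l0 y ≠ 0 then (if j = i0 y then 1 else 0) else (if j = i1 y then 1 else 0) := ⟨_, rfl⟩
  have hbb : ∀ y, algebraMap k κ (l0 y) * bb y (i0 y) + algebraMap k κ (l1 y) * bb y (i1 y) ≠ 0 := by
    intro y
    rw [hbb0]
    by_cases h : l0 y ≠ 0
    · simp only [if_pos h, if_true, if_neg (hi01 y).symm, mul_one, mul_zero, add_zero]
      exact fun h' => h (hinj (by rw [h', map_zero]))
    · have h1 : l1 y ≠ 0 := (hl y).resolve_left h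
      simp only [if_neg h, if_true, if_neg (hi01 y), mul_one, mul_zero, zero_add]
      exact fun h' => h1 (hinj (by rw [h', map_zero]))
  have hu : ∀ (a b : Fin n), a ≠ b → ∀ x y : k, (x ≠ 0 ∨ y ≠ 0) →
      algebraMap k κ x * u a + algebraMap k κ y * u b ≠ 0 := by
    intro a b hab x y hxy h
    rw [← Algebra.smul_def, ← Algebra.smul_def] at h
    have h1 := congrArg (d a) h
    have h2 := congrArg (d b) h
    rw [Derivation.map_add, Derivation.map_smul, Derivation.map_smul, hd, hd, if_pos rfl,
      if_neg hab, smul_zero, add_zero,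
      map_zero, Algebra.smul_def, mul_one] at h1
    rw [Derivation.map_add, Derivation.map_smul, Derivation.map_smul, hd, hd, if_pos rfl,
      if_neg hab.symm, smul_zero, zero_add,
      map_zero, Algebra.smul_def, mul_one] at h2
    rcases hxy with hx | hy
    · exact hx (hinj (by rw [h1, map_zero]))
    · exact hy (hinj (by rw [h2, map_zero]))
  -- the orders and the jets
  obtain ⟨nn, hnn⟩ : ∃ nn : Option κ → ℕ, nn = fun y => if y = some 0 ∨ y = none then 1 else
    if ∃ i, y = some (algebraMap k κ (σ i)) then 2 else 0 := ⟨_, rfl⟩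
  obtain ⟨g, hg0⟩ : ∃ g : Option κ → Fin n → RatFunc κ, g = fun y j =>
    if y = some 0 then polR (C (u j)) else if y = none then 0 else
    if ∃ i, y = some (algebraMap k κ (σ i)) then polR (C (bb y j)) * unif y else 0 := ⟨_, rfl⟩
  have hσ0' : ∀ i, (some (algebraMap k κ (σ i)) : Option κ) ≠ some 0 := by
    intro i h
    exact hσ0 i (hinj (by rw [map_zero]; exact Option.some.inj h))
  have hnn0 : nn (some 0) = 1 := by rw [hnn]; simp
  have hnni : nn none = 1 := by rw [hnn]; simp
  have hnnσ : ∀ i, nn (some (algebraMap k κ (σ i))) = 2 := by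
    intro i
    rw [hnn]
    simp only
    rw [if_neg (by simp only [hσ0' i, reduceCtorEq, or_self, not_false_eq_true]), if_pos ⟨i, rfl⟩]
  have hnnr : ∀ y : Option κ, y ≠ some 0 → y ≠ none → (¬ ∃ i, y = some (algebraMap k κ (σ i))) →
      nn y = 0 := by
    intro y h1 h2 h3
    rw [hnn]
    simp only
    rw [if_neg (by tauto), if_neg h3]
  have hg : ∀ y, InS (D.base κ).S y → ∀ j, g y j ∈ regAt y := by
    intro y _ j
    rw [hg0]
    simp only
    split_ifs
    · exact polR_C_mem y _
    · exact (regAt y).zero_mem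
    · exact (regAt y).mul_mem (polR_C_mem y _) (Dunif_mem y)
    · exact (regAt y).zero_mem
  have hcount : (∑ s ∈ (D.base κ).S, (nn (some s) : ℤ)) + nn none ≤ ((2 * m + 2 : ℕ) : ℤ) := by
    refine Q6_count _ (fun i => algebraMap k κ (σ i)) nn hnn0.le hnni.le ?_ ?_
    · rintro a - ⟨i, rfl⟩
      exact (hnnσ i).le
    · intro a ha ha'
      apply hnnr
      · exact fun h => ha (Option.some.inj h)
      · exact Option.some_ne_none a
      · rintro ⟨i, hi⟩
        exact ha' ⟨i, Option.some.inj hi⟩
  obtain ⟨Y, hYd⟩ : ∃ Y : Finset (Option κ),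
    Y = ((D.base κ).S.filter (fun a => nn (some a) = 0)).image some := ⟨_, rfl⟩
  have hY : ∀ y ∈ Y, InS (D.base κ).S y := by
    intro y hy
    rw [hYd, Finset.mem_image] at hy
    obtain ⟨a, ha, rfl⟩ := hy
    intro b hb
    rw [← Option.some.inj hb]
    exact (Finset.mem_filter.1 ha).1
  have hY0 : ∀ y ∈ Y, nn y = 0 := by
    intro y hy
    rw [hYd, Finset.mem_image] at hy
    obtain ⟨a, ha, rfl⟩ := hy
    exact (Finset.mem_filter.1 ha).2
  obtain ⟨lam, hlam0⟩ : ∃ lam : Option κ → (Fin n → κ) →ₗ[κ] κ, ∀ y w, lam y w =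
      algebraMap k κ (l0 y) * w (i0 y) + algebraMap k κ (l1 y) * w (i1 y) :=
    ⟨fun y => algebraMap k κ (l0 y) • LinearMap.proj (i0 y) +
      algebraMap k κ (l1 y) • LinearMap.proj (i1 y), fun y w => rfl⟩
  have hlam : ∀ y ∈ Y, lam y ≠ 0 := by
    intro y _ h
    apply hbb y
    rw [← hlam0, h]
    rfl
  obtain ⟨θ, hθ1, hθ2⟩ := generic_sec (D.base κ) ((2 * m + 2 : ℕ) : ℤ) (fun i => (ξ i).base κ)
    hN hdet nn hcount g hg Y hY hY0 lam hlam
  obtain ⟨ψ, ⟨E⟩⟩ := Q6_deform (D.base κ) ((2 * m + 2 : ℕ) : ℤ) (fun i => (ξ i).base κ) hN hdet nn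
    (hcount.trans (by omega)) θ
  have hinfS : InS (D.base κ).S none := by
    intro a ha
    cases ha
  have h0S : InS (D.base κ).S (some 0) := by
    have h1 := J1inS' (κ := κ) (S := D.S) (s := some (0 : k)) (by
      intro a ha
      rw [← Option.some.inj ha]
      exact hD0)
    rw [Option.map_some, map_zero] at h1
    exact h1
  have hσS : ∀ i, InS (D.base κ).S (some (algebraMap k κ (σ i))) := by
    intro i
    exact J1inS' (κ := κ) (S := D.S) (s := some (σ i)) (by
      intro a ha
      rw [← Option.some.inj ha]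
      exact hDσ i)
  have hbkσ : ∀ i, back k κ (some (algebraMap k κ (σ i))) = some (σ i) := fun i =>
    back_map (some (σ i))
  -- infinity
  have hψinf : ψ.at none = v0.const := by
    obtain ⟨ν, h1, h2, h3⟩ := hat none hinfS
    have h4 : v0 = ((D.base κ).W none).pt.map ν := by
      rw [← h1, J2back_none, hFinf]
    rw [h4]
    refine E.value_const none none rfl hinfS ν h3 h2 hnni.ge fun j => ?_
    have h5 := hθ1 none hinfS j
    rw [hnni, hg0] at h5
    simpa using h5
  -- the marked points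
  have hvσ : ∀ i, ∃ ν : ((D.base κ).W (some (algebraMap k κ (σ i)))).B →ₐ[k] k,
      v i = ((D.base κ).W (some (algebraMap k κ (σ i)))).pt.map ν ∧
      (∀ j, ν (((D.base κ).W (some (algebraMap k κ (σ i)))).z j) = 0) ∧
      ψ.at (some (σ i)) = (((D.base κ).W (some (algebraMap k κ (σ i)))).pt.map ν).const := by
    intro i
    obtain ⟨ν, h1, h2, h3⟩ := hat _ (hσS i)
    refine ⟨ν, by rw [← h1, hbkσ, hFσ], h3, ?_⟩
    refine E.value_const (some (σ i)) (some (algebraMap k κ (σ i))) rfl (hσS i) ν h3 h2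
      (by rw [hnnσ]; norm_num) fun j => ?_
    have h5 := hθ1 _ (hσS i) j
    rw [hnnσ, hg0] at h5
    simp only [if_neg (hσ0' i), if_neg (Option.some_ne_none _)] at h5
    rw [if_pos ⟨i, rfl⟩] at h5
    have h6 := h5.mono (m' := 1) (by norm_num)
    have h8 : Van (some (algebraMap k κ (σ i))) 1
        (polR (C (bb (some (algebraMap k κ (σ i))) j)) * unif (some (algebraMap k κ (σ i)))) := by
      have := Dvan_mul_reg (Dvan_pow (some (algebraMap k κ (σ i))) 1)
        (polR_C_mem (some (algebraMap k κ (σ i))) (bb (some (algebraMap k κ (σ i))) j))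
      rwa [zpow_one] at this
    have h9 := h6.add h8
    rwa [sub_add_cancel] at h9
  have hψσ : ∀ i, ψ.at (some (σ i)) = (v i).const := by
    intro i
    obtain ⟨ν, h1, -, h3⟩ := hvσ i
    rw [h3, ← h1]
  -- the point zero
  obtain ⟨ν0, -, h02, h03⟩ := hat (some 0) h0S
  have hθ0 : ∀ j, Van (some 0) 1 ((θ.δ (some 0) (((D.base κ).W (some 0)).z j)).snd -
      polR (C (u j))) := by
    intro j
    have h5 := hθ1 _ h0S j
    rw [hnn0, hg0] at h5
    simpa using h5
  obtain ⟨φ0, hφ0, hφ0z⟩ := E.value_gen (some 0) (some 0) (by simp) h0S ν0 h03 h02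
    hnn0.ge u hθ0
  -- immersion
  have hImm : ∀ i, ψ.ImmAt (v i) (σ i) := by
    intro i
    obtain ⟨ν, h1, -, h3⟩ := hvσ i
    obtain ⟨j, hj⟩ : ∃ j, bb (some (algebraMap k κ (σ i))) j ≠ 0 := by
      by_contra hcon
      push Not at hcon
      apply hbb (some (algebraMap k κ (σ i)))
      rw [hcon, hcon, mul_zero, mul_zero, add_zero]
    rw [h1]
    refine Q6_imm ψ _ E.hy (σ i) _ _ (E.h8 _ (hσS i)) (E.h4 _ (hσS i)) ν h3 j _ hj ?_
    rw [E.h6 _ (hσS i)]
    have h5 := hθ1 _ (hσS i) j
    rw [hnnσ, hg0] at h5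
    simp only [if_neg (hσ0' i), if_neg (Option.some_ne_none _)] at h5
    rw [if_pos ⟨i, rfl⟩] at h5
    exact h5
  have hOnly : ∀ i, ψ.OnlyAt (v i) (σ i) := by
    intro i
    obtain ⟨h1, h2⟩ := avoid_y (D.base κ) E.φ1 E.φ E.h1 E.h2 E.h3 E.h4 E.h5 ψ E.hy E.hw (v i)
      {algebraMap k κ (σ i)} (by
        intro ν hν
        obtain ⟨ι, hι, b, gg, h3, h4, h5⟩ := unit_off F D hD (v i) (hDv i) ν hν
        refine ⟨ι, hι, b, fun l => rbase k κ (gg l), h3, fun l => ?_, ?_⟩
        · exact J1rbase_regOff D.S _ (h4 l)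
        · have h6 := congrArg (rbase k κ) h5
          rw [map_sum, map_one] at h6
          simp only [map_mul] at h6
          exact h6) (by
        intro y hy ν hν q hq hb
        obtain ⟨ν', h3, h4, h5⟩ := hat y hy
        by_cases hFy : F.at (back k κ y) = v i
        · have hνν : ν' = ν := ((D.base κ).W y).toChart.map_injective (by rw [← h3, hFy, hν])
          subst hνν
          by_cases hy0 : y = some 0
          · exfalso
            subst hy0
            refine E.case71 (some 0) hy ν' h5 q hq hb (i0 (some 0)) (i1 (some 0)) u hθ0 ?_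
            rcases hL (some 0) hy (u (i0 _)) (u (i1 _)) (hu _ _ (hi01 _) _ _ (hl _)) with h | h
            · refine Or.inl ⟨h.1, h.2, Or.inl fun h' => ?_⟩
              have h6 := hu _ _ (hi01 (some 0)) 1 0 (Or.inl one_ne_zero)
              rw [h', mul_zero, map_zero, zero_mul, add_zero] at h6
              exact h6 rfl
            · exact Or.inr h
          by_cases hyn : y = none
          · exfalso
            subst hyn
            rw [J2back_none, hFinf] at hFy
            exact h0 i hFy
          by_cases hm : ∃ i', y = some (algebraMap k κ (σ i'))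
          · obtain ⟨i', rfl⟩ := hm
            rw [hbkσ, hFσ] at hFy
            have hii := hv hFy
            subst hii
            refine ⟨_, Finset.mem_singleton_self _, rfl, ?_⟩
            refine E.case71' _ hy ν' h5 h4 (hnnσ i').ge q hq hb
              (i0 (some (algebraMap k κ (σ i')))) (i1 (some (algebraMap k κ (σ i'))))
              (bb (some (algebraMap k κ (σ i')))) (fun j => ?_) ?_
            · have h6 := hθ1 _ (hσS i') j
              rw [hnnσ, hg0] at h6
              simp only [if_neg (hσ0' i'), if_neg (Option.some_ne_none _)] at h6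
              rw [if_pos ⟨i', rfl⟩] at h6
              exact h6
            · rcases hL _ hy _ _ (hbb _) with h | h
              · refine Or.inl ⟨h.1, h.2, ?_⟩
                by_contra hcon
                push Not at hcon
                apply hbb (some (algebraMap k κ (σ i')))
                rw [hcon.1, hcon.2, mul_zero, mul_zero, add_zero]
              · exact Or.inr h
          · exfalso
            have hyY : y ∈ Y := by
              rw [hYd, Finset.mem_image]
              cases y with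
              | none => exact absurd rfl hyn
              | some a =>
                exact ⟨a, Finset.mem_filter.2 ⟨hy a rfl, hnnr _ hy0 hyn hm⟩, rfl⟩
            choose ϑ hϑ using fun j => Dres (θ.r y hy (((D.base κ).W y).z j))
            have h6 := hθ2 y hyY ϑ hϑ
            rw [hlam0] at h6
            refine E.case71 y hy ν' h5 q hq hb (i0 y) (i1 y) ϑ hϑ ?_
            rcases hL _ hy _ _ h6 with h | h
            · refine Or.inl ⟨h.1, h.2, ?_⟩
              by_contra hcon
              push Not at hcon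
              apply h6
              rw [hcon.1, hcon.2, mul_zero, mul_zero, add_zero]
            · exact Or.inr h
        · exfalso
          obtain ⟨b, hb'⟩ : ∃ b, ν b ≠ ν' b := by
            by_contra hcon
            push Not at hcon
            apply hFy
            rw [h3, hν, AlgHom.ext hcon]
          have h6 : ν (b - algebraMap k _ (ν b)) = 0 := by
            rw [map_sub, AlgHom.commutes]
            exact sub_self _
          have h7 : ν' (b - algebraMap k _ (ν b)) ≠ 0 := by
            rw [map_sub, AlgHom.commutes]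
            exact fun h => hb' (sub_eq_zero.1 h).symm
          have h8 := unit_ser y q hq (E.φ y (b - algebraMap k _ (ν b))) (E.h4 y hy _) (hb _ h6)
            (algebraMap k κ (ν' (b - algebraMap k _ (ν b)))) (by
              rw [PowerSeries.coeff_zero_eq_constantCoeff_apply, E.h3 y hy]
              exact h4 _)
          exact h7 (hinj (by rw [h8, map_zero])))
    refine ⟨fun p hp => ?_, h2⟩
    obtain ⟨a, ha, hpa⟩ := h1 p hp
    rw [Finset.mem_singleton] at ha
    rw [hpa, ha, LSer.algebraMap_eq]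
  obtain ⟨f, h1, h2, h3, h4⟩ := specialize_avoid ψ σ v v0 hψinf hψσ hOnly hImm
    ((D.base κ).W (some 0)) φ0 hφ0 (fun a => LSer.der (d a)) (by
      have hmat : (Matrix.of fun a j => LSer.der (d a) (φ0 (((D.base κ).W (some 0)).z j))) =
          Matrix.diagonal (fun _ : Fin n => (LSer.T 1 : LSer κ)) := by
        ext1 a b
        rw [Matrix.of_apply, Matrix.diagonal_apply, hφ0z, J2_der1, hd]
        split_ifs
        · rw [map_one, mul_one]
        · rw [map_zero, mul_zero]
      rw [hmat, Matrix.det_diagonal]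
      exact Finset.prod_ne_zero_iff.2 fun _ _ => LSer.T_ne_zero 1)
  exact ⟨f, σ, h1, h2, h3, h4⟩

/-- Theorem B in dimension at least two: given points lie on a very free curve which passes through
each of them once, as an immersion. -/
theorem theorem_B [IsAlgClosed k] {n : ℕ} (hn : 2 ≤ n) [SmoothOfRelativeDimension n π]
    [IsSeparated π] [QuasiCompact π] [IsIntegral V] (F : Crv π k) (hF : IsVeryFree F) {m : ℕ}
    (v : Fin m → Pt π k) (hv : Function.Injective v) :
    ∃ (f : Crv π k) (σ : Fin m → k), IsVeryFree f ∧ (∀ i, f.at (some (σ i)) = v i) ∧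
      (∀ i, f.OnlyAt (v i) (σ i)) ∧ ∀ i, f.ImmAt (v i) (σ i) := by
  classical
  obtain ⟨v0, hv0⟩ := exists_new_pt (n := n) (π := π) (by omega) (Finset.univ.image v)
  obtain ⟨F', h1, h2, s, h3, h4, h5⟩ := theorem_A' (n := n) F hF v0 v
  obtain ⟨κ, _, _, w, d, hd⟩ := J2field k n
  exact Q6_main hn F' h1 v0 v hv (fun i h => hv0 (by rw [h]; simp)) h2 s h3 h4 h5 κ w d hd

end Pool.Agent.H19VF
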