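import Pool.Agent.H19VF.Q5_Image

/-! # Task R3: the relative dimension of a smooth variety -/

set_option autoImplicit false

open AlgebraicGeometry CategoryTheory Polynomial

universe u

namespace Pool.Agent.H19VF

variable {k : Type u} [Field k] {V : Scheme.{u}} {π : V ⟶ Spec (.of k)}

open scoped KaehlerDifferential in
theorem R3ring {R S K : Type u} [CommRing R] [CommRing S] [IsDomain S] [Field K] [Algebra R S]
    [Algebra S K] [Algebra R K] [IsScalarTower R S K] [IsFractionRing S K]
    [Algebra.IsStandardSmooth R S] :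
    Algebra.IsStandardSmoothOfRelativeDimension (Module.finrank K (Ω[K⁄R])) R S := by
  rw [Algebra.IsStandardSmoothOfRelativeDimension.iff_of_isStandardSmooth]
  have h0 : Algebra.FormallyEtale S K := Algebra.FormallyEtale.of_isLocalization (nonZeroDivisors S)
  have h1 : Module.finrank K (Ω[K⁄R]) = Module.finrank S (Ω[S⁄R]) := by
    rw [← (KaehlerDifferential.tensorKaehlerEquivOfFormallyEtale R S K).finrank_eq]
    exact Module.finrank_baseChange
  rw [h1]
  have h2 : Module.Finite S (Ω[S⁄R]) := inferInstance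
  exact (Module.finrank_eq_rank S (Ω[S⁄R])).symm

/-- A smooth irreducible scheme over a field has a relative dimension. -/
theorem exists_relDim [Smooth π] [IsIntegral V] : ∃ n : ℕ, SmoothOfRelativeDimension n π := by
  let K := V.functionField
  let A := Γ(Spec (.of k), ⊤)
  have eT : (⊤ : V.Opens) ≤ π ⁻¹ᵁ ⊤ := fun _ _ => trivial
  let _ : Algebra A K :=
    ((V.presheaf.germ ⊤ (genericPoint V) trivial).hom.comp (π.appLE ⊤ ⊤ eT).hom).toAlgebra
  refine ⟨Module.finrank K (KaehlerDifferential A K), ⟨fun x => ?_⟩⟩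
  obtain ⟨U, hU, W, hW, hx, e, h⟩ := Smooth.exists_isStandardSmooth π x
  have hUT : U = ⊤ := by
    have hs : Subsingleton (Spec (.of k)) := inferInstanceAs (Subsingleton (PrimeSpectrum k))
    rw [eq_top_iff]
    intro y _
    rw [Subsingleton.elim y (π x)]
    exact e hx
  subst hUT
  refine ⟨⊤, hU, W, hW, hx, e, ?_⟩
  have hne : Nonempty W := ⟨⟨x, hx⟩⟩
  have hfr := functionField_isFractionRing_of_isAffineOpen V W hW
  let _ : Algebra A Γ(V, W) := (π.appLE ⊤ W e).hom.toAlgebra
  have htow : IsScalarTower A Γ(V, W) K := by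
    refine IsScalarTower.of_algebraMap_eq' ?_
    change ((V.presheaf.germ ⊤ (genericPoint V) trivial).hom.comp (π.appLE ⊤ ⊤ eT).hom) =
      (V.germToFunctionField W).hom.comp (π.appLE ⊤ W e).hom
    rw [← CommRingCat.hom_comp, ← CommRingCat.hom_comp]
    congr 1
    have h3 : π.appLE ⊤ W e = π.appLE ⊤ ⊤ eT ≫ V.presheaf.map (homOfLE le_top).op :=
      (Scheme.Hom.appLE_map ..).symm
    rw [h3, Category.assoc]
    congr 1
    exact (V.presheaf.germ_res _ _ _).symm
  have hss : Algebra.IsStandardSmooth A Γ(V, W) := h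
  exact R3ring (R := A) (S := Γ(V, W)) (K := K)

theorem R3bij {k : Type u} [Field k] [IsAlgClosed k] {B : Type u} [CommRing B] [IsDomain B]
    [Algebra k B] [Algebra.Etale k B] : Function.Bijective (algebraMap k B) := by
  have h1 : Module.Finite k B := Algebra.FormallyUnramified.finite_of_free k B
  exact IsAlgClosed.algebraMap_bijective_of_isIntegral

/-- A smooth variety of dimension zero over an algebraically closed field is a point. -/
theorem dim_zero [IsAlgClosed k] [SmoothOfRelativeDimension 0 π] [IsIntegral V] [QuasiCompact π]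
    [IsSeparated π] : IsIso π := by
  have hA : Function.Bijective (Scheme.ΓSpecIso (.of k)).inv.hom :=
    (Scheme.ΓSpecIso (.of k)).symm.commRingCatIsoToRingEquiv.bijective
  have key : ∀ x : V, ∃ (W : V.Opens) (_ : IsAffineOpen W) (e : W ≤ π ⁻¹ᵁ ⊤), x ∈ W ∧
      Subsingleton W ∧ Function.Bijective (π.appLE ⊤ W e).hom := by
    intro x
    obtain ⟨U, hU, W, hW, hx, e, h⟩ :=
      SmoothOfRelativeDimension.exists_isStandardSmoothOfRelativeDimension (n := 0) (f := π) x
    have hUT : U = ⊤ := by
      have hs : Subsingleton (Spec (.of k)) := inferInstanceAs (Subsingleton (PrimeSpectrum k))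
      rw [eq_top_iff]
      intro y _
      rw [Subsingleton.elim y (π x)]
      exact e hx
    subst hUT
    have hne : Nonempty W := ⟨⟨x, hx⟩⟩
    have hdom : IsDomain Γ(V, W) := inferInstance
    let f0 : k →+* Γ(V, W) := (π.appLE ⊤ W e).hom.comp (Scheme.ΓSpecIso (.of k)).inv.hom
    let _ : Algebra k Γ(V, W) := f0.toAlgebra
    have het1 : (π.appLE ⊤ W e).hom.Etale := by
      rw [RingHom.Etale]
      let _ := (π.appLE ⊤ W e).hom.toAlgebra
      have h' : Algebra.IsStandardSmoothOfRelativeDimension 0 Γ(Spec (.of k), ⊤) Γ(V, W) := h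
      infer_instance
    have het2 : (Scheme.ΓSpecIso (.of k)).inv.hom.Etale := RingHom.Etale.of_bijective hA
    have het : Algebra.Etale k Γ(V, W) := RingHom.Etale.stableUnderComposition _ _ het2 het1
    have hb : Function.Bijective f0 := R3bij (k := k) (B := Γ(V, W))
    have hb2 : Function.Bijective (π.appLE ⊤ W e).hom := by
      have h3 : ⇑f0 = (π.appLE ⊤ W e).hom ∘ (Scheme.ΓSpecIso (.of k)).inv.hom := rfl
      rw [h3] at hb
      exact (Function.Bijective.of_comp_iff _ hA).1 hb
    refine ⟨W, hW, e, hx, ?_, hb2⟩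
    have hfield : IsField Γ(V, W) :=
      MulEquiv.isField (Field.toIsField k) (RingEquiv.ofBijective f0 hb).symm.toMulEquiv
    have hsub : Subsingleton (PrimeSpectrum Γ(V, W)) := by
      let _ := hfield.toField
      infer_instance
    have hsub' : Subsingleton (Spec Γ(V, W)) := hsub
    exact (hW.isoSpec.hom.homeomorph.toEquiv.subsingleton : Subsingleton W)
  obtain ⟨x0⟩ : Nonempty V := inferInstance
  obtain ⟨W, hW, e, hx, hsub, hbij⟩ := key x0
  have hWT : W = ⊤ := by
    rw [eq_top_iff]
    intro y _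
    obtain ⟨W', hW', e', hy, hsub', -⟩ := key y
    obtain ⟨z, -, hz1, hz2⟩ := (PreirreducibleSpace.isPreirreducible_univ (X := V)) W W' W.isOpen
      W'.isOpen ⟨x0, trivial, hx⟩ ⟨y, trivial, hy⟩
    have h1 : z = y := congrArg Subtype.val (hsub'.elim (⟨z, hz2⟩ : W') ⟨y, hy⟩)
    rw [← h1]
    exact hz1
  subst hWT
  have haff0 : IsAffine (⊤ : V.Opens) := hW
  have haff : IsAffine V := .of_isIso V.topIso.inv
  have h2 : IsIso π.appTop := by
    have h3 : π.appLE ⊤ ⊤ e = π.appTop := Scheme.Hom.appLE_eq_app π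
    rw [← h3]
    exact (ConcreteCategory.isIso_iff_bijective _).2 hbij
  refine ((MorphismProperty.isomorphisms Scheme.{u}).arrow_mk_iso_iff
    (arrowIsoSpecΓOfIsAffine π)).2 ?_
  exact inferInstanceAs (IsIso (Spec.map π.appTop))

end Pool.Agent.H19VF
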