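import Pool.Agent.H19VF.S_Defs
import Pool.Agent.H19VF.F_Chart

/-! # Task S1: tangent fields along a point form a module -/

set_option autoImplicit false

open AlgebraicGeometry CategoryTheory Polynomial

universe u

namespace Pool.Agent.H19VF

variable {k : Type u} [Field k] {V : Scheme.{u}} {π : V ⟶ Spec (.of k)}

/-- functoriality of `R ⊕ R^n`. -/
noncomputable def S1emap (n : ℕ) {R R' : Type u} [CommRing R] [Algebra k R] [CommRing R']
    [Algebra k R'] (φ : R →ₐ[k] R') :
    TrivSqZeroExt R (Fin n → R) →ₐ[k] TrivSqZeroExt R' (Fin n → R') where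
  toFun x := TrivSqZeroExt.inl (φ x.fst) + TrivSqZeroExt.inr (fun i => φ (x.snd i))
  map_one' := by ext <;> simp
  map_mul' x y := by
    ext
    · simp
    · simp
  map_zero' := by ext <;> simp
  map_add' x y := by ext <;> simp
  commutes' r := by ext <;> simp [TrivSqZeroExt.algebraMap_eq_inl']

@[simp] theorem S1emap_fst (n : ℕ) {R R' : Type u} [CommRing R] [Algebra k R] [CommRing R']
    [Algebra k R'] (φ : R →ₐ[k] R') (x : TrivSqZeroExt R (Fin n → R)) :
    (S1emap n φ x).fst = φ x.fst := by simp [S1emap]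

@[simp] theorem S1emap_snd (n : ℕ) {R R' : Type u} [CommRing R] [Algebra k R] [CommRing R']
    [Algebra k R'] (φ : R →ₐ[k] R') (x : TrivSqZeroExt R (Fin n → R)) (i : Fin n) :
    (S1emap n φ x).snd i = φ (x.snd i) := by simp [S1emap]

@[simp] theorem S1emap_inl (n : ℕ) {R R' : Type u} [CommRing R] [Algebra k R] [CommRing R']
    [Algebra k R'] (φ : R →ₐ[k] R') (r : R) :
    S1emap n φ (TrivSqZeroExt.inl r) = TrivSqZeroExt.inl (φ r) := by ext <;> simp

theorem S1loc (n : ℕ) {R R' : Type u} [CommRing R] [Algebra k R] [CommRing R']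
    [Algebra k R'] (φ : R →ₐ[k] R') (g : R)
    (h : @IsLocalization.Away R _ g R' _ φ.toRingHom.toAlgebra) :
    @IsLocalization.Away (TrivSqZeroExt R (Fin n → R)) _ (TrivSqZeroExt.inl g)
      (TrivSqZeroExt R' (Fin n → R')) _ (S1emap n φ).toRingHom.toAlgebra := by
  let _ := φ.toRingHom.toAlgebra
  let _ := (S1emap n φ).toRingHom.toAlgebra
  have a1 : ∀ r : R, algebraMap R R' r = φ r := fun r => rfl
  have a2 : ∀ x : TrivSqZeroExt R (Fin n → R), algebraMap (TrivSqZeroExt R (Fin n → R))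
    (TrivSqZeroExt R' (Fin n → R')) x = S1emap n φ x := fun r => rfl
  have hpow : ∀ m : ℕ, (TrivSqZeroExt.inl g : TrivSqZeroExt R (Fin n → R)) ^ m =
      TrivSqZeroExt.inl (g ^ m) := fun m => (map_pow (TrivSqZeroExt.inlHom R (Fin n → R)) g m).symm
  refine ⟨?_, ?_, ?_⟩
  · rintro ⟨_, m, rfl⟩
    rw [a2]
    simp only [hpow, S1emap_inl]
    have h1 : IsUnit (φ (g ^ m)) := by
      rw [← a1]
      exact IsLocalization.map_units R' (⟨g ^ m, m, rfl⟩ : Submonoid.powers g)
    exact h1.map (TrivSqZeroExt.inlHom R' (Fin n → R'))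
  · intro z
    obtain ⟨⟨b, hb⟩, hbz⟩ := IsLocalization.exist_integer_multiples_of_finite (Submonoid.powers g)
      (fun i : Option (Fin n) => i.elim z.fst z.snd)
    obtain ⟨m, rfl⟩ := hb
    choose c hc using hbz
    refine ⟨(TrivSqZeroExt.inl (c none) + TrivSqZeroExt.inr (fun i => c (some i)),
      ⟨TrivSqZeroExt.inl (g ^ m), m, hpow m⟩), ?_⟩
    rw [a2, a2]
    ext i
    · have := hc none
      rw [Algebra.smul_def, a1, a1] at this
      simp only [Option.elim] at this
      simp [this, mul_comm]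
    · have := hc (some i)
      rw [Algebra.smul_def, a1, a1] at this
      simp only [Option.elim] at this
      simp [this, mul_comm]
  · intro x y hxy
    rw [a2, a2] at hxy
    have h1 : φ x.fst = φ y.fst := by
      have := congrArg TrivSqZeroExt.fst hxy
      simpa using this
    have h2 : ∀ i, φ (x.snd i) = φ (y.snd i) := by
      intro i
      have := congrFun (congrArg TrivSqZeroExt.snd hxy) i
      simpa using this
    have k1 : ∃ m : ℕ, g ^ m * x.fst = g ^ m * y.fst := by
      obtain ⟨⟨_, m, rfl⟩, hc⟩ := IsLocalization.exists_of_eq (M := Submonoid.powers g) (S := R') h1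
      exact ⟨m, hc⟩
    have k2 : ∀ i, ∃ m : ℕ, g ^ m * x.snd i = g ^ m * y.snd i := by
      intro i
      obtain ⟨⟨_, m, rfl⟩, hc⟩ := IsLocalization.exists_of_eq (M := Submonoid.powers g) (S := R') (h2 i)
      exact ⟨m, hc⟩
    obtain ⟨m, hm⟩ := k1
    choose c hc using k2
    refine ⟨⟨TrivSqZeroExt.inl (g ^ (m + ∑ i, c i)), m + ∑ i, c i, hpow _⟩, ?_⟩
    ext i
    · simp only [TrivSqZeroExt.fst_mul, TrivSqZeroExt.fst_inl]
      rw [pow_add, mul_right_comm, hm, mul_right_comm]
    · simp only [TrivSqZeroExt.snd_mul, TrivSqZeroExt.snd_inl, TrivSqZeroExt.fst_inl, smul_zero,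
        add_zero, Pi.smul_apply, smul_eq_mul]
      have e : m + ∑ i, c i = (m + ∑ j ∈ Finset.univ.erase i, c j) + c i := by
        rw [add_assoc, Finset.sum_erase_add _ _ (Finset.mem_univ i)]
      rw [e, pow_add, mul_assoc, hc i, mul_assoc]

/-- the chart of an affine open set -/
theorem S1_chart (v : V) : ∃ W : Chart π, v ∈ Set.range W.pt.1 := by
  obtain ⟨U, hU, hv, -⟩ := exists_isAffineOpen_mem_and_subset (X := V) (x := v) (U := ⊤) trivial
  obtain ⟨i, hp, -⟩ := F3_exists_chart (π := π) U hU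
  refine ⟨@Chart.mk k _ V π Γ(V, U) inferInstance i ⟨hU.fromSpec, hp⟩
    hU.isOpenImmersion_fromSpec, ?_⟩
  have := hU.range_fromSpec
  change v ∈ Set.range hU.fromSpec
  rw [this]
  exact hv

theorem S1_jinj {F : Type u} [CommRing F] {ι : Type*} [Finite ι] (A : ι → Type u)
    [∀ a, CommRing (A a)] (ψ : ∀ a, F →+* A a)
    (hinj : ∀ x, (∀ a, ψ a x = 0) → x = 0) (g : F) (x : Localization.Away g)
    (hx : ∀ a, IsLocalization.Away.map (Localization.Away g) (Localization.Away (ψ a g)) (ψ a) g x = 0) :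
    x = 0 := by
  obtain ⟨⟨y, s, m, rfl⟩, hy⟩ := IsLocalization.surj (Submonoid.powers g) x
  simp only at hy
  have h1 : ∀ a, ∃ m : ℕ, ψ a (g ^ m * y) = 0 := by
    intro a
    have h2 : algebraMap (A a) (Localization.Away (ψ a g)) (ψ a y) = 0 := by
      have h3 := congrArg (IsLocalization.Away.map (Localization.Away g)
        (Localization.Away (ψ a g)) (ψ a) g) hy
      rw [map_mul, hx a, zero_mul] at h3
      rw [h3]
      exact (IsLocalization.map_eq _ _).symm
    obtain ⟨⟨_, m, rfl⟩, hm⟩ := (IsLocalization.map_eq_zero_iff (Submonoid.powers (ψ a g)) _ _).1 h2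
    refine ⟨m, ?_⟩
    rw [map_mul, map_pow]
    exact hm
  choose c hc using h1
  obtain ⟨M, hM⟩ : ∃ M : ℕ, ∀ a, c a ≤ M := by
    have := Fintype.ofFinite ι
    exact ⟨Finset.univ.sup c, fun a => Finset.le_sup (Finset.mem_univ a)⟩
  have h4 : g ^ M * y = 0 := by
    apply hinj
    intro a
    obtain ⟨d, hd⟩ := Nat.exists_eq_add_of_le (hM a)
    rw [hd, add_comm, pow_add, mul_assoc, map_mul, hc a, mul_zero]
  have h5 : algebraMap F (Localization.Away g) y = 0 :=
    (IsLocalization.map_eq_zero_iff (Submonoid.powers g) _ _).2 ⟨⟨g ^ M, M, rfl⟩, h4⟩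
  rw [h5] at hy
  exact (IsUnit.mul_left_eq_zero
    (IsLocalization.map_units (Localization.Away g) (⟨g ^ m, m, rfl⟩ : Submonoid.powers g))).1 hy

/-- points are determined by their images under a jointly injective family -/
theorem S1_epi {F : Type u} [CommRing F] [Algebra k F] {ι : Type*} [Finite ι] (A : ι → Type u)
    [∀ a, CommRing (A a)] [∀ a, Algebra k (A a)] (ψ : ∀ a, F →ₐ[k] A a)
    (hinj : ∀ x, (∀ a, ψ a x = 0) → x = 0)
    (hs : ∀ x : PrimeSpectrum F, ∃ a₀, ∃ y, PrimeSpectrum.comap (ψ a₀).toRingHom y = x) {f f' : Pt π F}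
    (h : ∀ a, f.map (ψ a) = f'.map (ψ a)) : f = f' := by
  have hbase : ∀ x : PrimeSpectrum F, f.1 x = f'.1 x := by
    intro x
    obtain ⟨a₀, y, hy⟩ := hs x
    have h1 : Spec.map (CommRingCat.ofHom (ψ a₀).toRingHom) ≫ f.1 =
        Spec.map (CommRingCat.ofHom (ψ a₀).toRingHom) ≫ f'.1 := congrArg Subtype.val (h a₀)
    have h2 : (Spec.map (CommRingCat.ofHom (ψ a₀).toRingHom) ≫ f.1) y =
      (Spec.map (CommRingCat.ofHom (ψ a₀).toRingHom) ≫ f'.1) y := by rw [h1]
    have h3 : (Spec.map (CommRingCat.ofHom (ψ a₀).toRingHom)) y = x := hy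
    have h4 : f.1 (Spec.map (CommRingCat.ofHom (ψ a₀).toRingHom) y) =
      f'.1 (Spec.map (CommRingCat.ofHom (ψ a₀).toRingHom) y) := h2
    rw [h3] at h4
    exact h4
  have hloc : ∀ x : PrimeSpectrum F, ∃ g : F, g ∉ x.asIdeal ∧
      f.map (IsScalarTower.toAlgHom k F (Localization.Away g)) =
      f'.map (IsScalarTower.toAlgHom k F (Localization.Away g)) := by
    intro x
    obtain ⟨W, hW⟩ := S1_chart (π := π) (f.1 x)
    have := W.imm
    have hU : IsOpen (f.1 ⁻¹' Set.range W.pt.1 : Set (PrimeSpectrum F)) :=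
      (IsOpenImmersion.isOpen_range W.pt.1).preimage f.1.continuous
    obtain ⟨_, ⟨g, rfl⟩, hg1, hg2⟩ :=
      PrimeSpectrum.isTopologicalBasis_basic_opens.exists_subset_of_mem_open hW hU
    refine ⟨g, hg1, ?_⟩
    obtain ⟨φ, hφ⟩ := W.F3_lift_away (R' := Localization.Away g) g f (fun z hz => hg2 hz)
    obtain ⟨φ', hφ'⟩ := W.F3_lift_away (R' := Localization.Away g) g f'
      (fun z hz => by rw [← hbase z]; exact hg2 hz)
    rw [hφ, hφ']
    congr 1
    ext b
    rw [← sub_eq_zero]
    apply S1_jinj A (fun a => (ψ a).toRingHom) hinj g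
    intro a
    rw [map_sub, sub_eq_zero]
    let χ : Localization.Away g →ₐ[k] Localization.Away ((ψ a).toRingHom g) :=
      { IsLocalization.Away.map (Localization.Away g) (Localization.Away ((ψ a).toRingHom g))
          (ψ a).toRingHom g with
        commutes' := by
          intro r
          rw [IsScalarTower.algebraMap_apply k F (Localization.Away g)]
          refine (IsLocalization.map_eq _ _).trans ?_
          rw [IsScalarTower.algebraMap_apply k (A a) (Localization.Away ((ψ a).toRingHom g))]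
          congr 1
          exact (ψ a).commutes r }
    have e : χ.comp (IsScalarTower.toAlgHom k F (Localization.Away g)) =
        (IsScalarTower.toAlgHom k (A a) (Localization.Away ((ψ a).toRingHom g))).comp (ψ a) := by
      ext y
      change IsLocalization.Away.map (Localization.Away g) (Localization.Away ((ψ a).toRingHom g))
          (ψ a).toRingHom g (algebraMap F (Localization.Away g) y) = _
      unfold IsLocalization.Away.map
      rw [IsLocalization.map_eq]
      rfl
    have h6 : (W.pt.map φ).map χ = (W.pt.map φ').map χ := by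
      rw [← hφ, ← hφ', Pt.map_map, Pt.map_map, e, ← Pt.map_map, ← Pt.map_map, h a]
    rw [Pt.map_map, Pt.map_map] at h6
    exact congrArg (fun q : W.B →ₐ[k] _ => q b) (W.map_injective h6)
  choose g hg1 hg2 using hloc
  have hspan : Ideal.span (Set.range g) = ⊤ := by
    by_contra hne
    obtain ⟨m, hm, hle⟩ := Ideal.exists_le_maximal _ hne
    exact hg1 ⟨m, hm.isPrime⟩ (hle (Ideal.subset_span ⟨⟨m, hm.isPrime⟩, rfl⟩))
  apply Pt.ext
  refine (Scheme.affineOpenCoverOfSpanRangeEqTop (R := .of F) g hspan).openCover.hom_ext _ _ ?_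
  intro x
  exact congrArg Subtype.val (hg2 x)

open TensorProduct in
/-- gluing of points -/
theorem S1_glue {E : Type u} [CommRing E] [Algebra k E] {ι : Type u} (s : ι → E)
    (hs : Ideal.span (Set.range s) = ⊤) (f : ∀ i, Pt π (Localization.Away (s i)))
    (hf : ∀ i j (F : Type u) [CommRing F] [Algebra k F] (α : Localization.Away (s i) →ₐ[k] F)
      (β : Localization.Away (s j) →ₐ[k] F),
      (∀ e : E, α (algebraMap E _ e) = β (algebraMap E _ e)) → (f i).map α = (f j).map β) :
    ∃ p : Pt π E, ∀ i, p.map (IsScalarTower.toAlgHom k E (Localization.Away (s i))) = f i := by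
  have hcompat0 : ∀ i j : ι, Limits.pullback.fst
      (Spec.map (CommRingCat.ofHom (algebraMap E (Localization.Away (s i)))))
      (Spec.map (CommRingCat.ofHom (algebraMap E (Localization.Away (s j))))) ≫ (f i).1 =
      Limits.pullback.snd
      (Spec.map (CommRingCat.ofHom (algebraMap E (Localization.Away (s i)))))
      (Spec.map (CommRingCat.ofHom (algebraMap E (Localization.Away (s j))))) ≫ (f j).1 := by
    intro i j
    rw [← cancel_epi (pullbackSpecIso E (Localization.Away (s i)) (Localization.Away (s j))).inv]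
    let β : Localization.Away (s j) →ₐ[k] (Localization.Away (s i) ⊗[E] Localization.Away (s j)) :=
      { (Algebra.TensorProduct.includeRight : Localization.Away (s j) →ₐ[E]
          (Localization.Away (s i) ⊗[E] Localization.Away (s j))).toRingHom with
        commutes' := by
          intro r
          rw [IsScalarTower.algebraMap_apply k E (Localization.Away (s j))]
          refine (AlgHom.commutes (Algebra.TensorProduct.includeRight : Localization.Away (s j) →ₐ[E]
            (Localization.Away (s i) ⊗[E] Localization.Away (s j))) _).trans ?_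
          exact (IsScalarTower.algebraMap_apply k E
            (Localization.Away (s i) ⊗[E] Localization.Away (s j)) r).symm }
    have h1 := hf i j (Localization.Away (s i) ⊗[E] Localization.Away (s j))
      (Algebra.TensorProduct.includeLeft (S := k)) β (by
        intro e
        refine ((Algebra.TensorProduct.includeRight : Localization.Away (s j) →ₐ[E]
            (Localization.Away (s i) ⊗[E] Localization.Away (s j))).commutes e).symm)
    have h2 := congrArg Subtype.val h1
    have e1 := pullbackSpecIso_inv_fst E (Localization.Away (s i)) (Localization.Away (s j))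
    have e2 := pullbackSpecIso_inv_snd E (Localization.Away (s i)) (Localization.Away (s j))
    refine (Category.assoc _ _ _).symm.trans ((congrArg (· ≫ (f i).1) e1).trans
      (Eq.trans ?_ ((congrArg (· ≫ (f j).1) e2).symm.trans (Category.assoc _ _ _))))
    exact h2
  let 𝒰 : (Spec (.of E)).OpenCover :=
    (Scheme.affineOpenCoverOfSpanRangeEqTop (R := .of E) s hs).openCover
  have hcompat : ∀ i j, Limits.pullback.fst (𝒰.f i) (𝒰.f j) ≫ (f i).1 =
      Limits.pullback.snd (𝒰.f i) (𝒰.f j) ≫ (f j).1 := fun i j => hcompat0 i j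
  let G : Spec (.of E) ⟶ V := 𝒰.glueMorphisms (fun i => (f i).1) hcompat
  have hG : ∀ i, 𝒰.f i ≫ G = (f i).1 := fun i => 𝒰.ι_glueMorphisms _ hcompat i
  have hGπ : G ≫ π = Spec.map (CommRingCat.ofHom (algebraMap k E)) := by
    refine 𝒰.hom_ext _ _ fun i => ?_
    refine (Category.assoc _ _ _).symm.trans ((congrArg (· ≫ π) (hG i)).trans ((f i).2.trans ?_))
    change _ = Spec.map (CommRingCat.ofHom (algebraMap E (Localization.Away (s i)))) ≫ _
    rw [← Spec.map_comp, ← CommRingCat.ofHom_comp, ← IsScalarTower.algebraMap_eq]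
  refine ⟨⟨G, hGπ⟩, fun i => Pt.ext ?_⟩
  exact hG i

theorem S1_surj1 {R : Type u} [CommRing R] [Algebra k R] {n : ℕ} :
    Function.Surjective (PrimeSpectrum.comap (nfst k R n).toRingHom) := by
  intro P
  refine ⟨PrimeSpectrum.comap (TrivSqZeroExt.inlHom R (Fin n → R)) P, ?_⟩
  apply PrimeSpectrum.ext
  ext x
  have h1 : x = TrivSqZeroExt.inl x.fst + TrivSqZeroExt.inr x.snd :=
    (TrivSqZeroExt.inl_fst_add_inr_snd_eq x).symm
  have h2 : (TrivSqZeroExt.inr x.snd : TrivSqZeroExt R (Fin n → R)) ∈ P.asIdeal := by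
    have h3 : (TrivSqZeroExt.inr x.snd : TrivSqZeroExt R (Fin n → R)) *
        TrivSqZeroExt.inr x.snd ∈ P.asIdeal := by
      rw [TrivSqZeroExt.inr_mul_inr]; exact Ideal.zero_mem _
    rcases P.2.mem_or_mem h3 with h | h <;> exact h
  change (TrivSqZeroExt.inl x.fst : TrivSqZeroExt R (Fin n → R)) ∈ P.asIdeal ↔ x ∈ P.asIdeal
  conv_rhs => rw [h1]
  exact (Ideal.add_mem_iff_left _ h2).symm

theorem S1_surj2 {R : Type u} [CommRing R] [Algebra k R] :
    Function.Surjective (PrimeSpectrum.comap (dfst k R).toRingHom) := by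
  intro P
  refine ⟨PrimeSpectrum.comap (TrivSqZeroExt.inlHom R R) P, ?_⟩
  apply PrimeSpectrum.ext
  ext x
  have h1 : x = TrivSqZeroExt.inl x.fst + TrivSqZeroExt.inr x.snd :=
    (TrivSqZeroExt.inl_fst_add_inr_snd_eq x).symm
  have h2 : (TrivSqZeroExt.inr x.snd : DualNumber R) ∈ P.asIdeal := by
    have h3 : (TrivSqZeroExt.inr x.snd : DualNumber R) *
        TrivSqZeroExt.inr x.snd ∈ P.asIdeal := by
      rw [TrivSqZeroExt.inr_mul_inr]; exact Ideal.zero_mem _
    rcases P.2.mem_or_mem h3 with h | h <;> exact h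
  change (TrivSqZeroExt.inl x.fst : DualNumber R) ∈ P.asIdeal ↔ x ∈ P.asIdeal
  conv_rhs => rw [h1]
  exact (Ideal.add_mem_iff_left _ h2).symm

/-- A point over `R ⊕ R^n` is determined by its components. (All these points have the same
underlying continuous map; work locally on `R`, where it maps to a chart.) -/
theorem comb_unique {R : Type u} [CommRing R] [Algebra k R] {n : ℕ}
    {ρ ρ' : Pt π (TrivSqZeroExt R (Fin n → R))} (h0 : ρ.map (nfst k R n) = ρ'.map (nfst k R n))
    (h : ∀ i, ρ.map (lin k (Pi.single i 1)) = ρ'.map (lin k (Pi.single i 1))) : ρ = ρ' := by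
  have hz : (dfst k R).comp (lin k (0 : Fin n → R)) = nfst k R n := by
    apply AlgHom.ext
    intro x
    exact lin_fst (k := k) _ x
  have hz' : (TrivSqZeroExt.inlAlgHom k R R).comp (nfst k R n) = lin k (0 : Fin n → R) := by
    apply AlgHom.ext
    intro x
    ext <;> simp
  refine S1_epi (fun _ : Option (Fin n) => DualNumber R)
    (fun a => lin k (a.elim 0 (fun i => Pi.single i 1))) ?_ ?_ ?_
  · intro x hx
    ext i
    · have := congrArg TrivSqZeroExt.fst (hx none)
      simpa using this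
    · have := congrArg TrivSqZeroExt.snd (hx (some i))
      simpa [Pi.single_apply] using this
  · intro P
    obtain ⟨Q, hQ⟩ := S1_surj1 (k := k) P
    refine ⟨none, PrimeSpectrum.comap (dfst k R).toRingHom Q, ?_⟩
    rw [← hQ, ← hz]
    rfl
  · intro a
    cases a with
    | none =>
      simp only [Option.elim]
      rw [← hz', ← Pt.map_map, ← Pt.map_map, h0]
    | some i => exact h i

theorem S1_thick {F R : Type u} [CommRing R] [Algebra k R] [CommRing F] [Algebra k F]
    (q : F →ₐ[k] R) (hq : Function.Surjective (PrimeSpectrum.comap q.toRingHom)) (W : Chart π)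
    (ρ : Pt π F) (φ : W.B →ₐ[k] R) (h : ρ.map q = W.pt.map φ) :
    ∃ Δ : W.B →ₐ[k] F, ρ = W.pt.map Δ ∧ q.comp Δ = φ := by
  have hr : Set.range ρ.1 ⊆ Set.range W.pt.1 := by
    rintro _ ⟨x, rfl⟩
    obtain ⟨y, hy⟩ := hq x
    have h1 : (ρ.map q).1 y ∈ Set.range W.pt.1 := by
      rw [h]
      exact ⟨_, rfl⟩
    have h2 : (ρ.map q).1 y = ρ.1 x := by
      change ρ.1 (Spec.map (CommRingCat.ofHom q.toRingHom) y) = ρ.1 x
      congr 1
    rwa [h2] at h1
  obtain ⟨Δ, hΔ⟩ := W.F3_lift ρ hr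
  refine ⟨Δ, hΔ, W.map_injective ?_⟩
  rw [← Pt.map_map, ← hΔ, h]

/-- the homomorphism with given components -/
noncomputable def S1pair {B R : Type u} [CommRing B] [Algebra k B] [CommRing R] [Algebra k R]
    {n : ℕ} (φ : B →ₐ[k] R) (δ : Fin n → B →ₐ[k] DualNumber R) (hδ : ∀ i b, (δ i b).fst = φ b) :
    B →ₐ[k] TrivSqZeroExt R (Fin n → R) where
  toFun b := TrivSqZeroExt.inl (φ b) + TrivSqZeroExt.inr (fun i => (δ i b).snd)
  map_one' := by ext <;> simp
  map_mul' x y := by
    ext
    · simp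
    · simp [hδ, mul_comm]
  map_zero' := by ext <;> simp
  map_add' x y := by ext <;> simp
  commutes' r := by ext <;> simp [TrivSqZeroExt.algebraMap_eq_inl']

@[simp] theorem S1pair_fst {B R : Type u} [CommRing B] [Algebra k B] [CommRing R] [Algebra k R]
    {n : ℕ} (φ : B →ₐ[k] R) (δ : Fin n → B →ₐ[k] DualNumber R) (hδ : ∀ i b, (δ i b).fst = φ b)
    (b : B) : (S1pair φ δ hδ b).fst = φ b := by simp [S1pair]

@[simp] theorem S1pair_snd {B R : Type u} [CommRing B] [Algebra k B] [CommRing R] [Algebra k R]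
    {n : ℕ} (φ : B →ₐ[k] R) (δ : Fin n → B →ₐ[k] DualNumber R) (hδ : ∀ i b, (δ i b).fst = φ b)
    (b : B) (i : Fin n) : (S1pair φ δ hδ b).snd i = (δ i b).snd := by simp [S1pair]

theorem S1pair_lin {B R : Type u} [CommRing B] [Algebra k B] [CommRing R] [Algebra k R]
    {n : ℕ} (φ : B →ₐ[k] R) (δ : Fin n → B →ₐ[k] DualNumber R) (hδ : ∀ i b, (δ i b).fst = φ b)
    (i : Fin n) : (lin k (Pi.single i 1)).comp (S1pair φ δ hδ) = δ i := by
  apply AlgHom.ext
  intro b
  apply TrivSqZeroExt.ext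
  · rw [AlgHom.comp_apply, lin_fst, S1pair_fst, hδ]
  · rw [AlgHom.comp_apply, lin_snd]
    simp [Pi.single_apply]

theorem S1pair_nfst {B R : Type u} [CommRing B] [Algebra k B] [CommRing R] [Algebra k R]
    {n : ℕ} (φ : B →ₐ[k] R) (δ : Fin n → B →ₐ[k] DualNumber R) (hδ : ∀ i b, (δ i b).fst = φ b) :
    (nfst k R n).comp (S1pair φ δ hδ) = φ := by
  apply AlgHom.ext
  intro b
  exact S1pair_fst φ δ hδ b

section loc

variable {E A : Type u} [CommRing E] [Algebra k E] [CommRing A] [Algebra k A]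

/-- `θ` is the localization at `s` -/
def S1Is (θ : E →ₐ[k] A) (s : E) : Prop := @IsLocalization.Away E _ s A _ θ.toRingHom.toAlgebra

theorem S1lift {F : Type u} [CommRing F] [Algebra k F] (θ : E →ₐ[k] A) (s : E) (h : S1Is θ s)
    (η : E →ₐ[k] F) (hu : IsUnit (η s)) : ∃ δ : A →ₐ[k] F, δ.comp θ = η := by
  let _ := θ.toRingHom.toAlgebra
  have h1 : IsLocalization.Away s A := h
  have hu' : IsUnit (η.toRingHom s) := hu
  have e : ∀ x : E, IsLocalization.Away.lift (S := A) s hu' (θ x) = η x := by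
    intro x
    exact IsLocalization.Away.lift_eq (S := A) s hu' x
  refine ⟨{ IsLocalization.Away.lift (S := A) s hu' with
    commutes' := ?_ }, ?_⟩
  · intro r
    have := e (algebraMap k _ r)
    rw [AlgHom.commutes, AlgHom.commutes] at this
    exact this
  · apply AlgHom.ext
    intro x
    exact e x

theorem S1lift_unique {F : Type u} [CommRing F] [Algebra k F] (θ : E →ₐ[k] A) (s : E)
    (h : S1Is θ s) {δ δ' : A →ₐ[k] F} (he : δ.comp θ = δ'.comp θ) : δ = δ' := by
  let _ := θ.toRingHom.toAlgebra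
  have h1 : IsLocalization.Away s A := h
  apply AlgHom.coe_ringHom_injective
  apply IsLocalization.ringHom_ext (Submonoid.powers s)
  ext1 x
  exact congrArg (fun q : _ →ₐ[k] F => q x) he

theorem S1Is.unit {θ : E →ₐ[k] A} {s : E} (h : S1Is θ s) : IsUnit (θ s) := by
  let _ := θ.toRingHom.toAlgebra
  have h1 : IsLocalization.Away s A := h
  exact IsLocalization.Away.algebraMap_isUnit (S := A) s

theorem S1Is_away (s : E) : S1Is (IsScalarTower.toAlgHom k E (Localization.Away s)) s := by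
  have h1 : (IsScalarTower.toAlgHom k E (Localization.Away s)).toRingHom.toAlgebra =
      (inferInstance : Algebra E (Localization.Away s)) := by
    apply Algebra.algebra_ext
    intro r
    rfl
  unfold S1Is
  rw [h1]
  infer_instance

theorem S1_glue' {ι : Type u} (s : ι → E)
    (hs : Ideal.span (Set.range s) = ⊤) (A : ι → Type u) [∀ i, CommRing (A i)] [∀ i, Algebra k (A i)]
    (θ : ∀ i, E →ₐ[k] A i) (hθ : ∀ i, S1Is (θ i) (s i)) (f : ∀ i, Pt π (A i))
    (hf : ∀ i j (F : Type u) [CommRing F] [Algebra k F] (α : A i →ₐ[k] F)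
      (β : A j →ₐ[k] F), α.comp (θ i) = β.comp (θ j) → (f i).map α = (f j).map β) :
    ∃ p : Pt π E, ∀ i, p.map (θ i) = f i := by
  choose σ hσ using fun i => S1lift (θ i) (s i) (hθ i)
    (IsScalarTower.toAlgHom k E (Localization.Away (s i))) (S1Is_away (s i)).unit
  choose τ hτ using fun i => S1lift _ (s i) (S1Is_away (s i)) (θ i) (hθ i).unit
  have hτσ : ∀ i, (τ i).comp (σ i) = AlgHom.id k _ := by
    intro i
    apply S1lift_unique (θ i) (s i) (hθ i)
    rw [AlgHom.comp_assoc, hσ, hτ]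
    rfl
  obtain ⟨p, hp⟩ := S1_glue (π := π) s hs (fun i => (f i).map (σ i)) (by
    intro i j F _ _ α β hαβ
    have k1 : ((f i).map (σ i)).map α = (f i).map (α.comp (σ i)) := Pt.map_map _ _ _
    have k2 : ((f j).map (σ j)).map β = (f j).map (β.comp (σ j)) := Pt.map_map _ _ _
    rw [k1, k2]
    apply hf
    rw [AlgHom.comp_assoc, AlgHom.comp_assoc, hσ, hσ]
    apply AlgHom.ext
    intro x
    exact hαβ x)
  refine ⟨p, fun i => ?_⟩
  have h1 := congrArg (fun q => Pt.map q (τ i)) (hp i)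
  have h2 : (p.map (IsScalarTower.toAlgHom k E (Localization.Away (s i)))).map (τ i) =
    p.map ((τ i).comp (IsScalarTower.toAlgHom k E (Localization.Away (s i)))) := Pt.map_map _ _ _
  have h3 : ((f i).map (σ i)).map (τ i) = (f i).map ((τ i).comp (σ i)) := Pt.map_map _ _ _
  rw [hτ] at h2
  rw [hτσ, Pt.map_id] at h3
  exact h2.symm.trans (h1.trans h3)

end loc

theorem S1emap_comp {n : ℕ} {R R' R'' : Type u} [CommRing R] [Algebra k R] [CommRing R']
    [Algebra k R'] [CommRing R''] [Algebra k R''] (φ : R →ₐ[k] R') (ψ : R' →ₐ[k] R'') :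
    (S1emap n ψ).comp (S1emap n φ) = S1emap n (ψ.comp φ) := by
  apply AlgHom.ext
  intro x
  ext <;> simp

theorem S1dmap_comp {R R' R'' : Type u} [CommRing R] [Algebra k R] [CommRing R']
    [Algebra k R'] [CommRing R''] [Algebra k R''] (φ : R →ₐ[k] R') (ψ : R' →ₐ[k] R'') :
    (dmap ψ).comp (dmap φ) = dmap (ψ.comp φ) := by
  apply AlgHom.ext
  intro x
  ext <;> simp

theorem S1emap_nfst {n : ℕ} {R R' : Type u} [CommRing R] [Algebra k R] [CommRing R']
    [Algebra k R'] (φ : R →ₐ[k] R') :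
    (nfst k R' n).comp (S1emap n φ) = φ.comp (nfst k R n) := by
  apply AlgHom.ext
  intro x
  exact S1emap_fst _ _ _

theorem S1emap_lin {n : ℕ} {R R' : Type u} [CommRing R] [Algebra k R] [CommRing R']
    [Algebra k R'] (φ : R →ₐ[k] R') (i : Fin n) :
    (lin k (Pi.single i 1)).comp (S1emap n φ) = (dmap φ).comp (lin k (Pi.single i 1)) := by
  apply AlgHom.ext
  intro x
  apply TrivSqZeroExt.ext
  · simp
  · simp [Pi.single_apply]

section family

variable {R : Type u} [CommRing R] [Algebra k R] {ι : Type u} (g : ι → R)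
  (A : ι → Type u) [∀ x, CommRing (A x)] [∀ x, Algebra k (A x)] (φ : ∀ x, R →ₐ[k] A x)

theorem S1_zero (hg : Ideal.span (Set.range g) = ⊤)
    (hφ : ∀ x, S1Is (φ x) (g x)) (x : R) (h : ∀ i, φ i x = 0) : x = 0 := by
  have h1 : ∀ i, ∃ m : ℕ, g i ^ m * x = 0 := by
    intro i
    let _ := (φ i).toRingHom.toAlgebra
    have h1 : IsLocalization.Away (g i) (A i) := hφ i
    obtain ⟨⟨_, m, rfl⟩, hm⟩ := (IsLocalization.map_eq_zero_iff (Submonoid.powers (g i)) (A i) x).1 (h i)
    exact ⟨m, hm⟩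
  have h2 : (1 : R) ∈ (Ideal.span {x}).annihilator.radical := by
    have : Ideal.span (Set.range g) ≤ (Ideal.span {x}).annihilator.radical := by
      rw [Ideal.span_le]
      rintro _ ⟨i, rfl⟩
      obtain ⟨m, hm⟩ := h1 i
      refine ⟨m, ?_⟩
      rw [Submodule.mem_annihilator_span_singleton]
      exact hm
    exact this (by rw [hg]; exact Submodule.mem_top)
  obtain ⟨m, hm⟩ := h2
  rw [one_pow, Submodule.mem_annihilator_span_singleton, one_smul] at hm
  exact hm

theorem S1_cov (hg : Ideal.span (Set.range g) = ⊤)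
    (hφ : ∀ x, S1Is (φ x) (g x)) (Q : PrimeSpectrum R) :
    ∃ i, ∃ Q', PrimeSpectrum.comap (φ i).toRingHom Q' = Q := by
  have h1 : ∃ i, g i ∉ Q.asIdeal := by
    by_contra! hc
    apply Q.2.ne_top
    rw [← top_le_iff, ← hg, Ideal.span_le, Set.range_subset_iff]
    exact hc
  obtain ⟨i, hi⟩ := h1
  let _ := (φ i).toRingHom.toAlgebra
  have h1 : IsLocalization.Away (g i) (A i) := hφ i
  have h2 : Q ∈ Set.range (PrimeSpectrum.comap (algebraMap R (A i))) := by
    rw [PrimeSpectrum.localization_away_comap_range (A i) (g i)]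
    exact hi
  obtain ⟨Q', hQ'⟩ := h2
  exact ⟨i, Q', hQ'⟩

/-- two points over `R` which agree locally are equal -/
theorem S1_ext1 [Finite ι] (hg : Ideal.span (Set.range g) = ⊤) (hφ : ∀ x, S1Is (φ x) (g x))
    {q q' : Pt π R} (h : ∀ i, q.map (φ i) = q'.map (φ i)) : q = q' :=
  S1_epi A φ (S1_zero g A φ hg hφ) (S1_cov g A φ hg hφ) h

/-- the same for dual numbers -/
theorem S1_ext2 [Finite ι] (hg : Ideal.span (Set.range g) = ⊤) (hφ : ∀ x, S1Is (φ x) (g x))
    {q q' : Pt π (DualNumber R)} (h : ∀ i, q.map (dmap (φ i)) = q'.map (dmap (φ i))) : q = q' := by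
  refine S1_epi (fun i => DualNumber (A i)) (fun i => dmap (φ i)) ?_ ?_ h
  · intro x hx
    apply TrivSqZeroExt.ext
    · apply S1_zero g A φ hg hφ
      intro i
      have := congrArg TrivSqZeroExt.fst (hx i)
      rw [dmap_fst] at this
      exact this
    · apply S1_zero g A φ hg hφ
      intro i
      have := congrArg TrivSqZeroExt.snd (hx i)
      rw [dmap_snd] at this
      exact this
  · intro P
    obtain ⟨Q, hQ⟩ := S1_surj2 (k := k) P
    obtain ⟨i, Q', hQ'⟩ := S1_cov g A φ hg hφ Q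
    refine ⟨i, PrimeSpectrum.comap (dfst k (A i)).toRingHom Q', ?_⟩
    rw [← hQ, ← hQ', ← PrimeSpectrum.comap_comp_apply, ← PrimeSpectrum.comap_comp_apply]
    congr 1
    apply RingHom.ext
    intro x
    exact dmap_fst _ _

variable {n : ℕ} (p : Pt π R) (e : Fin n → Pt π (DualNumber R))

/-- compatibility of the local solutions -/
theorem S1_compat (hφ : ∀ x, S1Is (φ x) (g x)) (f' : ∀ x, Pt π (TrivSqZeroExt (A x) (Fin n → A x)))
    (hf1 : ∀ x, (f' x).map (nfst k _ n) = p.map (φ x))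
    (hf2 : ∀ x i, (f' x).map (lin k (Pi.single i 1)) = (e i).map (dmap (φ x))) (x y : ι)
    (F : Type u) [CommRing F] [Algebra k F] (α : TrivSqZeroExt (A x) (Fin n → A x) →ₐ[k] F)
    (β : TrivSqZeroExt (A y) (Fin n → A y) →ₐ[k] F)
    (hαβ : α.comp (S1emap n (φ x)) = β.comp (S1emap n (φ y))) :
    (f' x).map α = (f' y).map β := by
  obtain ⟨R'', _, _, φ'', hLoc2⟩ : ∃ (R'' : Type u) (_ : CommRing R'') (_ : Algebra k R'')
    (φ'' : R →ₐ[k] R''), S1Is φ'' (g x * g y) :=
    ⟨Localization.Away (g x * g y), inferInstance, inferInstance, _, S1Is_away (g x * g y)⟩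
  have hux : IsUnit (φ'' (g x)) := by
    have := hLoc2.unit
    rw [map_mul] at this
    exact isUnit_of_mul_isUnit_left this
  have huy : IsUnit (φ'' (g y)) := by
    have := hLoc2.unit
    rw [map_mul] at this
    exact isUnit_of_mul_isUnit_right this
  obtain ⟨a, ha⟩ := S1lift (φ x) (g x) (hφ x) φ'' hux
  obtain ⟨b, hb⟩ := S1lift (φ y) (g y) (hφ y) φ'' huy
  have hx1 : S1Is (S1emap n (φ x)) (TrivSqZeroExt.inl (g x)) := S1loc n (φ x) (g x) (hφ x)
  have hy1 : S1Is (S1emap n (φ y)) (TrivSqZeroExt.inl (g y)) := S1loc n (φ y) (g y) (hφ y)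
  have hz1 : S1Is (S1emap n φ'') (TrivSqZeroExt.inl (g x * g y)) := S1loc n φ'' (g x * g y) hLoc2
  have huθ : IsUnit ((α.comp (S1emap n (φ x))) (TrivSqZeroExt.inl (g x * g y))) := by
    have h1 : IsUnit ((α.comp (S1emap n (φ x))) (TrivSqZeroExt.inl (g x))) :=
      hx1.unit.map α
    have h2 : IsUnit ((α.comp (S1emap n (φ x))) (TrivSqZeroExt.inl (g y))) := by
      rw [hαβ]
      exact hy1.unit.map β
    rw [TrivSqZeroExt.inl_mul, map_mul]
    exact h1.mul h2
  obtain ⟨δ', hδ'⟩ := S1lift (S1emap n φ'') (TrivSqZeroExt.inl (g x * g y)) hz1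
    (α.comp (S1emap n (φ x))) huθ
  have hxa : δ'.comp (S1emap n a) = α := by
    apply S1lift_unique (S1emap n (φ x)) (TrivSqZeroExt.inl (g x)) hx1
    rw [AlgHom.comp_assoc, S1emap_comp, ha, hδ']
  have hyb : δ'.comp (S1emap n b) = β := by
    apply S1lift_unique (S1emap n (φ y)) (TrivSqZeroExt.inl (g y)) hy1
    rw [AlgHom.comp_assoc, S1emap_comp, hb, hδ', hαβ]
  have key : (f' x).map (S1emap n a) = (f' y).map (S1emap n b) := by
    apply comb_unique
    · rw [Pt.map_map, Pt.map_map, S1emap_nfst, S1emap_nfst, ← Pt.map_map, ← Pt.map_map, hf1, hf1,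
        Pt.map_map, Pt.map_map, ha, hb]
    · intro i
      rw [Pt.map_map, Pt.map_map, S1emap_lin, S1emap_lin, ← Pt.map_map, ← Pt.map_map, hf2, hf2,
        Pt.map_map, Pt.map_map, S1dmap_comp, S1dmap_comp, ha, hb]
  rw [← hxa, ← hyb, ← Pt.map_map, ← Pt.map_map (f' y), key]

theorem S1_exists [Finite ι] (hg : Ideal.span (Set.range g) = ⊤) (hφ : ∀ x, S1Is (φ x) (g x))
    (W : ι → Chart π) (φ1 : ∀ x, (W x).B →ₐ[k] A x) (h : ∀ x, p.map (φ x) = (W x).pt.map (φ1 x))
    (he : ∀ i, (e i).map (dfst k R) = p) :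
    ∃ ρ : Pt π (TrivSqZeroExt R (Fin n → R)), ρ.map (nfst k R n) = p ∧
      ∀ i, ρ.map (lin k (Pi.single i 1)) = e i := by
  have hδ : ∀ (x : ι) (i : Fin n), ∃ δ : (W x).B →ₐ[k] DualNumber (A x),
      (e i).map (dmap (φ x)) = (W x).pt.map δ ∧ (dfst k _).comp δ = φ1 x := by
    intro x i
    refine S1_thick (dfst k (A x)) S1_surj2 (W x) _ (φ1 x) ?_
    rw [← h, Pt.map_map, ← he i, Pt.map_map]
    congr 1
    apply AlgHom.ext
    intro y
    exact dmap_fst _ _
  choose δ hδ1 hδ2 using hδ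
  have hf : ∀ x : ι, ∃ f' : Pt π (TrivSqZeroExt (A x) (Fin n → A x)),
      f'.map (nfst k _ n) = p.map (φ x) ∧
      ∀ i, f'.map (lin k (Pi.single i 1)) = (e i).map (dmap (φ x)) := by
    intro x
    have hd : ∀ i b, (δ x i b).fst = φ1 x b :=
      fun i b => congrArg (fun q : _ →ₐ[k] _ => q b) (hδ2 x i)
    refine ⟨(W x).pt.map (S1pair (φ1 x) (δ x) hd), ?_, ?_⟩
    · rw [Pt.map_map, S1pair_nfst, ← h]
    · intro i
      rw [Pt.map_map, S1pair_lin, ← hδ1]
  choose f' hf1 hf2 using hf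
  have hspanE : Ideal.span (Set.range fun x : ι =>
      (TrivSqZeroExt.inl (g x) : TrivSqZeroExt R (Fin n → R))) = ⊤ := by
    have h1 : (Set.range fun x : ι => (TrivSqZeroExt.inl (g x) : TrivSqZeroExt R (Fin n → R))) =
        (TrivSqZeroExt.inlHom R (Fin n → R)) '' (Set.range g) := by
      rw [← Set.range_comp]
      rfl
    rw [h1, ← Ideal.map_span, hg, Ideal.map_top]
  obtain ⟨ρ, hρ⟩ := S1_glue' (π := π) (fun x : ι =>
      (TrivSqZeroExt.inl (g x) : TrivSqZeroExt R (Fin n → R))) hspanE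
    (fun x => TrivSqZeroExt (A x) (Fin n → A x)) (fun x => S1emap n (φ x))
    (fun x => S1loc n (φ x) (g x) (hφ x)) f' (S1_compat g A φ p e hφ f' hf1 hf2)
  refine ⟨ρ, ?_, ?_⟩
  · apply S1_ext1 g A φ hg hφ
    intro x
    rw [← hf1, Pt.map_map, ← S1emap_nfst, ← Pt.map_map, hρ]
  · intro i
    apply S1_ext2 g A φ hg hφ
    intro x
    rw [← hf2, Pt.map_map, ← S1emap_lin, ← Pt.map_map, hρ]

end family

/-- Tangent fields `e i` along `p` are the components of a point over `R ⊕ R^n`. (Exists locally on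
`R`, where `p` maps to a chart; glue by uniqueness.) -/
theorem exists_comb {R : Type u} [CommRing R] [Algebra k R] (p : Pt π R) {n : ℕ}
    (e : Fin n → Pt π (DualNumber R)) (he : ∀ i, (e i).map (dfst k R) = p) :
    ∃ ρ : Pt π (TrivSqZeroExt R (Fin n → R)), ρ.map (nfst k R n) = p ∧
      ∀ i, ρ.map (lin k (Pi.single i 1)) = e i := by
  have hloc : ∀ x : PrimeSpectrum R, ∃ g : R, g ∉ x.asIdeal ∧ ∃ (W : Chart π)
      (φ : W.B →ₐ[k] Localization.Away g),
      p.map (IsScalarTower.toAlgHom k R (Localization.Away g)) = W.pt.map φ := by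
    intro x
    obtain ⟨W, hW⟩ := S1_chart (π := π) (p.1 x)
    have := W.imm
    have hU : IsOpen (p.1 ⁻¹' Set.range W.pt.1 : Set (PrimeSpectrum R)) :=
      (IsOpenImmersion.isOpen_range W.pt.1).preimage p.1.continuous
    obtain ⟨_, ⟨g, rfl⟩, hg1, hg2⟩ :=
      PrimeSpectrum.isTopologicalBasis_basic_opens.exists_subset_of_mem_open hW hU
    obtain ⟨φ, hφ⟩ := W.F3_lift_away (R' := Localization.Away g) g p (fun z hz => hg2 hz)
    exact ⟨g, hg1, W, φ, hφ⟩
  choose g0 hg1 W0 φ0 hφ0 using hloc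
  have hspan0 : Ideal.span (Set.range g0) = ⊤ := by
    by_contra hne
    obtain ⟨m, hm, hle⟩ := Ideal.exists_le_maximal _ hne
    exact hg1 ⟨m, hm.isPrime⟩ (hle (Ideal.subset_span ⟨⟨m, hm.isPrime⟩, rfl⟩))
  obtain ⟨t, ht1, ht2⟩ := (Ideal.span_eq_top_iff_finite _).1 hspan0
  choose c hc using fun x : t => ht1 x.2
  have hspan : Ideal.span (Set.range fun x : t => g0 (c x)) = ⊤ := by
    rw [← ht2]
    congr 1
    ext y
    constructor
    · rintro ⟨x, rfl⟩
      simp only [hc]
      exact x.2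
    · intro hy
      exact ⟨⟨y, hy⟩, hc _⟩
  exact S1_exists (fun x : t => g0 (c x)) (fun x => Localization.Away (g0 (c x)))
    (fun x => IsScalarTower.toAlgHom k R (Localization.Away (g0 (c x)))) p e hspan
    (fun x => S1Is_away _) (fun x => W0 (c x)) (fun x => φ0 (c x)) (fun x => hφ0 (c x)) he

theorem S1comb_pair {B R : Type u} [CommRing B] [Algebra k B] [CommRing R] [Algebra k R]
    {n : ℕ} (φ : B →ₐ[k] R) (δ : Fin n → B →ₐ[k] DualNumber R) (hδ : ∀ i b, (δ i b).fst = φ b)
    (c : Fin n → R) (b : B) : ((lin k c).comp (S1pair φ δ hδ) b).fst = φ b ∧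
      ((lin k c).comp (S1pair φ δ hδ) b).snd = ∑ i, c i * (δ i b).snd := by
  constructor
  · rw [AlgHom.comp_apply, lin_fst, S1pair_fst]
  · rw [AlgHom.comp_apply, lin_snd]
    simp only [S1pair_snd]

/-- one direction of the chart version -/
theorem S1comb_mpr {R : Type u} [CommRing R] [Algebra k R] (W : Chart π) {n : ℕ}
    (φ : W.B →ₐ[k] R) (δ : Fin n → W.B →ₐ[k] DualNumber R) (hδ : ∀ i b, (δ i b).fst = φ b)
    (δ' : W.B →ₐ[k] DualNumber R) (c : Fin n → R)
    (h : (∀ b, (δ' b).fst = φ b) ∧ ∀ b, (δ' b).snd = ∑ i, c i * (δ i b).snd) :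
    IsComb (fun i => W.pt.map (δ i)) c (W.pt.map δ') := by
  refine ⟨W.pt.map (S1pair φ δ hδ), ?_, ?_⟩
  · intro i
    rw [Pt.map_map, S1pair_lin]
  · rw [Pt.map_map]
    congr 1
    apply AlgHom.ext
    intro b
    apply TrivSqZeroExt.ext
    · rw [(S1comb_pair φ δ hδ c b).1, h.1]
    · rw [(S1comb_pair φ δ hδ c b).2, h.2]

/-- The chart version: for tangent fields in a chart, linear combinations are the ones of
derivations. -/
theorem isComb_chart {R : Type u} [CommRing R] [Algebra k R] (W : Chart π) {n : ℕ} (hn : 1 ≤ n)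
    (φ : W.B →ₐ[k] R) (δ : Fin n → W.B →ₐ[k] DualNumber R) (hδ : ∀ i b, (δ i b).fst = φ b)
    (δ' : W.B →ₐ[k] DualNumber R) (c : Fin n → R) :
    IsComb (fun i => W.pt.map (δ i)) c (W.pt.map δ') ↔
      (∀ b, (δ' b).fst = φ b) ∧ ∀ b, (δ' b).snd = ∑ i, c i * (δ i b).snd := by
  constructor
  · rintro ⟨ρ, h1, h2⟩
    have h3 : ρ = W.pt.map (S1pair φ δ hδ) := by
      apply comb_unique
      · have hz : nfst k R n = (dfst k R).comp (lin k (Pi.single (⟨0, hn⟩ : Fin n) (1 : R))) := by
          apply AlgHom.ext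
          intro x
          exact (lin_fst (k := k) _ x).symm
        rw [hz, ← Pt.map_map, ← Pt.map_map, h1, Pt.map_map W.pt (S1pair φ δ hδ), S1pair_lin]
      · intro i
        rw [h1, Pt.map_map, S1pair_lin]
    rw [h3, Pt.map_map] at h2
    have h4 := W.map_injective h2
    constructor
    · intro b
      rw [← h4, (S1comb_pair φ δ hδ c b).1]
    · intro b
      rw [← h4, (S1comb_pair φ δ hδ c b).2]
  · exact S1comb_mpr W φ δ hδ δ' c

/-- A family of tangent vectors at a `k`-point `v`, in a chart with coordinates, is a basis iff the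
determinant of the matrix of their coordinates does not vanish. -/
theorem isTanBasis_iff {n : ℕ} (W : EChart π n) (ν : W.B →ₐ[k] k)
    (δ : Fin n → W.B →ₐ[k] DualNumber k) (hδ : ∀ i b, (δ i b).fst = ν b) :
    IsTanBasis (W.pt.map ν) (fun i => W.pt.map (δ i)) ↔
      (Matrix.of fun i j => (δ i (W.z j)).snd).det ≠ 0 := by
  have hlift : ∀ τ : Pt π (DualNumber k), τ.map (dfst k k) = W.pt.map ν →
      ∃ δ' : W.B →ₐ[k] DualNumber k, τ = W.pt.map δ' ∧ ∀ b, (δ' b).fst = ν b := by
    intro τ hτ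
    obtain ⟨δ', h1, h2⟩ := S1_thick (dfst k k) S1_surj2 W.toChart τ ν hτ
    exact ⟨δ', h1, fun b => congrArg (fun q : _ →ₐ[k] k => q b) h2⟩
  -- combinations in coordinates
  have hcoord : ∀ (δ' : W.B →ₐ[k] DualNumber k) (c : Fin n → k), (∀ b, (δ' b).fst = ν b) →
      ((∀ b, (δ' b).snd = ∑ i, c i * (δ i b).snd) ↔
        ∀ j, (δ' (W.z j)).snd = ∑ i, c i * (δ i (W.z j)).snd) := by
    intro δ' c h0
    refine ⟨fun h j => h _, fun h => ?_⟩
    obtain ⟨δ2, h2, h3⟩ := I_lc ν δ hδ c
    have h4 : δ' = δ2 := by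
      refine (etale_dual W.z W.et ν (fun j => (δ' (W.z j)).snd)).unique ⟨h0, fun j => rfl⟩
        ⟨h2, fun j => ?_⟩
      rw [h3, h]
    intro b
    rw [h4, h3]
  have hcomb : ∀ (δ' : W.B →ₐ[k] DualNumber k) (c : Fin n → k), (∀ b, (δ' b).fst = ν b) →
      (IsComb (fun i => W.pt.map (δ i)) c (W.pt.map δ') ↔
        ∀ j, (δ' (W.z j)).snd = ∑ i, c i * (δ i (W.z j)).snd) := by
    intro δ' c h0
    rw [← hcoord δ' c h0]
    rcases Nat.eq_zero_or_pos n with hn | hn
    · subst hn
      have hall : ∀ b, (δ' b).snd = ∑ i, c i * (δ i b).snd := by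
        rw [hcoord δ' c h0]
        exact fun j => j.elim0
      exact ⟨fun _ => hall, fun _ => S1comb_mpr W.toChart ν δ hδ δ' c ⟨h0, hall⟩⟩
    · rw [isComb_chart W.toChart hn ν δ hδ δ' c]
      exact ⟨fun h => h.2, fun h => ⟨h0, h⟩⟩
  have hmat : ∀ (c t : Fin n → k), (∀ j, t j = ∑ i, c i * (δ i (W.z j)).snd) ↔
      Matrix.vecMul c (Matrix.of fun i j => (δ i (W.z j)).snd) = t := by
    intro c t
    constructor
    · intro h
      ext j
      exact (h j).symm
    · intro h j
      rw [← h]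
      rfl
  constructor
  · rintro ⟨-, h⟩ hdet
    obtain ⟨c, hc, hc0⟩ := Matrix.exists_vecMul_eq_zero_iff.2 hdet
    obtain ⟨δ0, h1, h2⟩ := (etale_dual W.z W.et ν (0 : Fin n → k)).exists
    have h3 := h (W.pt.map δ0) (by
      rw [Pt.map_map]
      congr 1
      apply AlgHom.ext
      intro b
      exact h1 b)
    have h4 : IsComb (fun i => W.pt.map (δ i)) c (W.pt.map δ0) := by
      rw [hcomb δ0 c h1]
      rw [hmat c (fun j => (δ0 (W.z j)).snd), hc0]
      ext j
      exact (h2 j).symm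
    have h5 : IsComb (fun i => W.pt.map (δ i)) (0 : Fin n → k) (W.pt.map δ0) := by
      rw [hcomb δ0 0 h1]
      intro j
      rw [h2]
      simp
    exact hc (h3.unique h4 h5)
  · intro hdet
    refine ⟨fun i => ?_, fun τ hτ => ?_⟩
    · rw [Pt.map_map]
      congr 1
      apply AlgHom.ext
      intro b
      exact hδ i b
    · obtain ⟨δ', rfl, h0⟩ := hlift τ hτ
      have hu : IsUnit (Matrix.of fun i j => (δ i (W.z j)).snd) :=
        (Matrix.isUnit_iff_isUnit_det _).2 (isUnit_iff_ne_zero.2 hdet)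
      obtain ⟨c, hc⟩ := (Matrix.vecMul_surjective_iff_isUnit.2 hu) (fun j => (δ' (W.z j)).snd)
      refine ⟨c, ?_, ?_⟩
      · change IsComb _ c _
        rw [hcomb δ' c h0, hmat c (fun j => (δ' (W.z j)).snd)]
        exact hc
      · intro c' hc'
        change IsComb _ c' _ at hc'
        rw [hcomb δ' c' h0, hmat c' (fun j => (δ' (W.z j)).snd)] at hc'
        exact Matrix.vecMul_injective_of_isUnit hu (hc'.trans hc.symm)

end Pool.Agent.H19VF
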