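import Pool.Agent.H19VF.S_Defs
import Pool.Agent.H19VF.S1_Comb

/-! # Task S2: if `F^* T_V` is a direct sum of line bundles of positive degrees, then `F` is very
free in the sense of `IsVeryFree` -/

set_option autoImplicit false

open AlgebraicGeometry CategoryTheory Polynomial

universe u

namespace Pool.Agent.H19VF

variable {k : Type u} [Field k] {V : Scheme.{u}} {π : V ⟶ Spec (.of k)}

section S2aux

variable {R R' P Q : Type u} [CommRing R] [Algebra k R] [CommRing R'] [Algebra k R']
  [CommRing P] [Algebra k P] [CommRing Q] [Algebra k Q]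

/-- The map `R ⊕ R^n → R' ⊕ R'^n` induced by `R → R'`. -/
noncomputable def S2map (φ : R →ₐ[k] R') (n : ℕ) :
    TrivSqZeroExt R (Fin n → R) →ₐ[k] TrivSqZeroExt R' (Fin n → R') where
  toFun x := TrivSqZeroExt.inl (φ x.fst) + TrivSqZeroExt.inr (fun i => φ (x.snd i))
  map_one' := by ext <;> simp
  map_mul' x y := by ext <;> simp
  map_zero' := by ext <;> simp
  map_add' x y := by ext <;> simp
  commutes' r := by ext <;> simp [TrivSqZeroExt.algebraMap_eq_inl']

@[simp] lemma S2map_fst (φ : R →ₐ[k] R') (n : ℕ) (x : TrivSqZeroExt R (Fin n → R)) :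
    (S2map φ n x).fst = φ x.fst := by simp [S2map]

@[simp] lemma S2map_snd (φ : R →ₐ[k] R') (n : ℕ) (x : TrivSqZeroExt R (Fin n → R)) (i : Fin n) :
    (S2map φ n x).snd i = φ (x.snd i) := by simp [S2map]

/-- The diagonal endomorphism of `R ⊕ R^n`. -/
noncomputable def S2scl (k : Type u) [Field k] {R : Type u} [CommRing R] [Algebra k R] {n : ℕ}
    (d : Fin n → R) : TrivSqZeroExt R (Fin n → R) →ₐ[k] TrivSqZeroExt R (Fin n → R) where
  toFun x := TrivSqZeroExt.inl x.fst + TrivSqZeroExt.inr (fun i => d i * x.snd i)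
  map_one' := by ext <;> simp
  map_mul' x y := by
    ext
    · simp
    · simp
      ring
  map_zero' := by ext <;> simp
  map_add' x y := by ext <;> simp [mul_add]
  commutes' r := by ext <;> simp [TrivSqZeroExt.algebraMap_eq_inl']

@[simp] lemma S2scl_fst {n : ℕ} (d : Fin n → R) (x : TrivSqZeroExt R (Fin n → R)) :
    (S2scl k d x).fst = x.fst := by simp [S2scl]

@[simp] lemma S2scl_snd {n : ℕ} (d : Fin n → R) (x : TrivSqZeroExt R (Fin n → R)) (i : Fin n) :
    (S2scl k d x).snd i = d i * x.snd i := by simp [S2scl]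

/-- The extension of `g : P → Q` to `P[ε] → Q` with `ε ↦ e`. -/
noncomputable def S2ext (g : P →ₐ[k] Q) (e : Q) (he : e * e = 0) : DualNumber P →ₐ[k] Q where
  toFun x := g x.fst + e * g x.snd
  map_one' := by simp
  map_mul' x y := by
    simp only [TrivSqZeroExt.fst_mul, TrivSqZeroExt.snd_mul, smul_eq_mul,
      MulOpposite.smul_eq_mul_unop, MulOpposite.unop_op, map_add, map_mul]
    have h : e * g x.snd * (e * g y.snd) = 0 := by
      rw [mul_mul_mul_comm, he, zero_mul]
    linear_combination -h
  map_zero' := by simp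
  map_add' x y := by simp only [TrivSqZeroExt.fst_add, TrivSqZeroExt.snd_add, map_add]; ring
  commutes' r := by simp [TrivSqZeroExt.algebraMap_eq_inl']

lemma S2ext_apply (g : P →ₐ[k] Q) (e : Q) (he : e * e = 0) (x : DualNumber P) :
    S2ext g e he x = g x.fst + e * g x.snd := rfl

/-- `R → R[ε]`. -/
noncomputable abbrev S2inl (k : Type u) [Field k] (R : Type u) [CommRing R] [Algebra k R] :
    R →ₐ[k] DualNumber R := TrivSqZeroExt.inlAlgHom k R R

/-- `R[X][ε] → R[ε][X]`. -/
noncomputable def S2swapP (k : Type u) [Field k] (R : Type u) [CommRing R] [Algebra k R] :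
    DualNumber R[X] →ₐ[k] (DualNumber R)[X] :=
  S2ext (pmap (S2inl k R)) (C DualNumber.eps) (by rw [← C_mul, DualNumber.eps_mul_eps, C_0])

/-- `R[T;T⁻¹][ε] → R[ε][T;T⁻¹]`. -/
noncomputable def S2swapL (k : Type u) [Field k] (R : Type u) [CommRing R] [Algebra k R] :
    DualNumber (LaurentPolynomial R) →ₐ[k] LaurentPolynomial (DualNumber R) :=
  S2ext (lmap (S2inl k R)) (LaurentPolynomial.C DualNumber.eps) (by
    rw [← map_mul, DualNumber.eps_mul_eps, map_zero])

lemma S2swap_lauY : (lauY k (DualNumber R)).comp (S2swapP k R) =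
    (S2swapL k R).comp (dmap (lauY k R)) := by
  apply AlgHom.ext
  intro x
  have h1 : ∀ p : R[X], lauY k (DualNumber R) (pmap (S2inl k R) p) =
      lmap (S2inl k R) (lauY k R p) := fun p =>
    (DFunLike.congr_fun (lmap_lauY (S2inl k R)) p).symm
  have h2 : ∀ r : DualNumber R, lauY k (DualNumber R) (C r) = LaurentPolynomial.C r := by
    intro r
    change Polynomial.aeval _ (C r) = _
    rw [Polynomial.aeval_C]
    rfl
  rw [AlgHom.comp_apply, AlgHom.comp_apply, S2swapP, S2swapL, S2ext_apply, S2ext_apply, map_add,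
    map_mul, h1, h1, h2, dmap_fst, dmap_snd]

lemma S2swap_lauW : (lauW k (DualNumber R)).comp (S2swapP k R) =
    (S2swapL k R).comp (dmap (lauW k R)) := by
  apply AlgHom.ext
  intro x
  have h1 : ∀ p : R[X], lauW k (DualNumber R) (pmap (S2inl k R) p) =
      lmap (S2inl k R) (lauW k R p) := fun p =>
    (DFunLike.congr_fun (lmap_lauW (S2inl k R)) p).symm
  have h2 : ∀ r : DualNumber R, lauW k (DualNumber R) (C r) = LaurentPolynomial.C r := by
    intro r
    change Polynomial.aeval _ (C r) = _
    rw [Polynomial.aeval_C]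
    rfl
  rw [AlgHom.comp_apply, AlgHom.comp_apply, S2swapP, S2swapL, S2ext_apply, S2ext_apply, map_add,
    map_mul, h1, h1, h2, dmap_fst, dmap_snd]

lemma S2swap_fst : (pmap (dfst k R)).comp (S2swapP k R) = dfst k R[X] := by
  apply AlgHom.ext
  intro x
  have h1 : ∀ p : R[X], pmap (dfst k R) (pmap (S2inl k R) p) = p := by
    intro p
    change Polynomial.map _ (Polynomial.map _ p) = p
    rw [Polynomial.map_map]
    have h3 : ((dfst k R : DualNumber R →+* R).comp (S2inl k R : R →+* DualNumber R)) =
        RingHom.id R := by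
      ext r
      rfl
    exact (congrArg (fun g => Polynomial.map g p) h3).trans (Polynomial.map_id (p := p))
  have h2 : pmap (dfst k R) (C DualNumber.eps) = 0 := by
    change Polynomial.map _ (C DualNumber.eps) = 0
    rw [Polynomial.map_C]
    change C (DualNumber.eps : DualNumber R).fst = 0
    rw [DualNumber.fst_eps, C_0]
  rw [AlgHom.comp_apply, S2swapP, S2ext_apply, map_add, map_mul, h1, h1, h2, zero_mul, add_zero]
  rfl

lemma S2swap_evk : (evk (0 : k)).comp (S2swapP k R) = dmap (evk (0 : k)) := by
  apply AlgHom.ext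
  intro x
  have h1 : ∀ p : R[X], evk (0 : k) (pmap (S2inl k R) p) = TrivSqZeroExt.inl (evk (0 : k) p) := by
    intro p
    change Polynomial.aeval _ (Polynomial.map _ p) = TrivSqZeroExt.inl (Polynomial.aeval _ p)
    rw [map_zero, map_zero, ← Polynomial.coeff_zero_eq_aeval_zero,
      ← Polynomial.coeff_zero_eq_aeval_zero, Polynomial.coeff_map]
    rfl
  have h2 : evk (0 : k) (C (DualNumber.eps : DualNumber R)) = DualNumber.eps := by
    change Polynomial.aeval _ (C DualNumber.eps) = _
    rw [Polynomial.aeval_C]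
    rfl
  rw [AlgHom.comp_apply, S2swapP, S2ext_apply, map_add, map_mul, h1, h1, h2]
  ext <;> simp

lemma S2dmap_lin (φ : R →ₐ[k] R') {n : ℕ} (c : Fin n → R) :
    (dmap φ).comp (lin k c) = (lin k (fun i => φ (c i))).comp (S2map φ n) := by
  apply AlgHom.ext
  intro x
  ext
  · simp
  · simp

lemma S2lin_scl {n : ℕ} (c d : Fin n → R) :
    (lin k c).comp (S2scl k d) = lin k (fun i => c i * d i) := by
  apply AlgHom.ext
  intro x
  ext
  · simp
  · simp [mul_assoc]

lemma S2lin_single {n : ℕ} (i : Fin n) (d : Fin n → R) :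
    (lin k (Pi.single i 1)).comp (S2scl k d) = (scl k (d i)).comp (lin k (Pi.single i 1)) := by
  apply AlgHom.ext
  intro x
  ext
  · simp
  · simp [Pi.single_apply]

lemma S2fst_lin {n : ℕ} (c : Fin n → R) : (dfst k R).comp (lin k c) = nfst k R n := by
  apply AlgHom.ext
  intro x
  change (lin k c x).fst = x.fst
  simp

end S2aux

/-- Write `τ = ∑ c i • e i(0)`; the deformation is `∑ c i • e i` on the `y`-line and
`∑ c i * w ^ (a i) • e' i` on the `w`-line (`exists_comb`, `comb_unique` on the overlap, and the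
isomorphism of `(k[X])[ε]` with `(k[ε])[X]`). -/
theorem isVeryFree_of_isSplit (F : Crv π k) {n : ℕ} (a : Fin n → ℤ) (h : IsSplit F a)
    (ha : ∀ i, 1 ≤ a i) : IsVeryFree F := by
  obtain ⟨e, e', he, he', hg, hb, -⟩ := h
  intro τ hτ
  have hτ' : τ.map (dfst k k) = F.y.map (evk 0) := hτ
  obtain ⟨c, ⟨ρ0, hρ0, hρ0c⟩, -⟩ := (hb 0).2 τ hτ'
  obtain ⟨ρ, hρ, hρe⟩ := exists_comb F.y e he
  obtain ⟨ρ', hρ', hρe'⟩ := exists_comb F.w e' he'
  -- the overlap
  have h1 : ρ.map (S2map (lauY k k) n) = (ρ'.map (S2map (lauW k k) n)).map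
      (S2scl k (fun i => LaurentPolynomial.T (-(a i)))) := by
    apply comb_unique
    · rw [Pt.map_map, Pt.map_map, Pt.map_map]
      have h2 : (nfst k (LaurentPolynomial k) n).comp (S2map (lauY k k) n) =
          (lauY k k).comp (nfst k k[X] n) := by
        apply AlgHom.ext
        intro x
        exact S2map_fst _ _ _
      have h3 : ((nfst k (LaurentPolynomial k) n).comp (S2scl k
          (fun i => LaurentPolynomial.T (-(a i))))).comp (S2map (lauW k k) n) =
          (lauW k k).comp (nfst k k[X] n) := by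
        apply AlgHom.ext
        intro x
        change (S2scl k (fun i => LaurentPolynomial.T (-(a i))) (S2map (lauW k k) n x)).fst =
          lauW k k x.fst
        rw [S2scl_fst, S2map_fst]
      rw [h2, h3, ← Pt.map_map, ← Pt.map_map, hρ, hρ']
      exact F.glue
    · intro i
      have h2 : ∀ (φ : k[X] →ₐ[k] LaurentPolynomial k),
          (lin k (Pi.single i (1 : LaurentPolynomial k))).comp (S2map φ n) =
          (dmap φ).comp (lin k (Pi.single i (1 : k[X]))) := by
        intro φ
        rw [S2dmap_lin]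
        congr 2
        funext j
        by_cases hj : j = i
        · subst hj
          simp
        · simp [hj]
      rw [Pt.map_map, h2, ← Pt.map_map, hρe, hg i, Pt.map_map, Pt.map_map, Pt.map_map,
        ← hρe' i, Pt.map_map, AlgHom.comp_assoc, ← h2, ← AlgHom.comp_assoc,
        S2lin_single i (fun i => LaurentPolynomial.T (-(a i)))]
  -- the deformation
  have hglue : ((ρ.map (lin k (fun i => C (c i)))).map (S2swapP k k)).map (lauY k (DualNumber k)) =
      ((ρ'.map (lin k (fun i => C (c i) * X ^ (a i).toNat))).map (S2swapP k k)).map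
        (lauW k (DualNumber k)) := by
    rw [Pt.map_map (ρ.map _), Pt.map_map (ρ'.map _), S2swap_lauY, S2swap_lauW, ← Pt.map_map,
      ← Pt.map_map]
    congr 1
    rw [Pt.map_map, Pt.map_map, S2dmap_lin, S2dmap_lin, ← Pt.map_map, ← Pt.map_map, h1, Pt.map_map,
      S2lin_scl]
    congr 2
    funext i
    have h3 : ∀ r : k, lauY k k (C r) = LaurentPolynomial.C r := by
      intro r
      change Polynomial.aeval _ (C r) = _
      rw [Polynomial.aeval_C]
      rfl
    have h4 : ∀ r : k, lauW k k (C r) = LaurentPolynomial.C r := by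
      intro r
      change Polynomial.aeval _ (C r) = _
      rw [Polynomial.aeval_C]
      rfl
    have h5 : lauW k k X = LaurentPolynomial.T (-1) := by
      change Polynomial.aeval _ X = _
      rw [Polynomial.aeval_X]
    rw [map_mul, map_pow, h3, h4, h5, LaurentPolynomial.T_pow]
    congr 2
    have := ha i
    omega
  refine ⟨⟨(ρ.map (lin k (fun i => C (c i)))).map (S2swapP k k),
    (ρ'.map (lin k (fun i => C (c i) * X ^ (a i).toNat))).map (S2swapP k k), hglue⟩, ?_, ?_, ?_⟩
  · apply Crv.ext
    · change ((ρ.map (lin k (fun i => C (c i)))).map (S2swapP k k)).map (pmap (dfst k k)) = F.y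
      rw [Pt.map_map, S2swap_fst, Pt.map_map, S2fst_lin]
      exact hρ
    · change ((ρ'.map (lin k (fun i => C (c i) * X ^ (a i).toNat))).map (S2swapP k k)).map
        (pmap (dfst k k)) = F.w
      rw [Pt.map_map, S2swap_fst, Pt.map_map, S2fst_lin]
      exact hρ'
  · change ((ρ.map (lin k (fun i => C (c i)))).map (S2swapP k k)).map (evk 0) = τ
    rw [Pt.map_map, S2swap_evk, Pt.map_map, S2dmap_lin, ← Pt.map_map]
    have h3 : ρ.map (S2map (evk (0 : k)) n) = ρ0 := by
      apply comb_unique
      · have h4 : (nfst k k n).comp (S2map (evk (0 : k)) n) =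
            (evk (0 : k)).comp (nfst k k[X] n) := by
          apply AlgHom.ext
          intro x
          exact S2map_fst _ _ _
        rw [Pt.map_map, h4, ← Pt.map_map, hρ, ← hτ', ← hρ0c, Pt.map_map, S2fst_lin]
      · intro i
        rw [hρ0 i, Pt.map_map]
        have h4 : (lin k (Pi.single i (1 : k))).comp (S2map (evk (0 : k)) n) =
            (dmap (evk (0 : k))).comp (lin k (Pi.single i (1 : k[X]))) := by
          rw [S2dmap_lin]
          congr 2
          funext j
          by_cases hj : j = i
          · subst hj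
            simp
          · simp [hj]
        rw [h4, ← Pt.map_map, hρe]
    rw [h3, ← hρ0c]
    congr 2
    funext i
    change Polynomial.aeval _ (C (c i)) = _
    rw [Polynomial.aeval_C]
    rfl
  · change ((ρ'.map (lin k (fun i => C (c i) * X ^ (a i).toNat))).map (S2swapP k k)).map (evk 0) =
      (F.w.map (evk 0)).map (Algebra.ofId k (DualNumber k))
    rw [Pt.map_map, S2swap_evk, Pt.map_map, ← hρ', Pt.map_map, Pt.map_map]
    congr 1
    apply AlgHom.ext
    intro x
    ext
    · simp
      rfl
    · have h5 : evk (0 : k) (X : k[X]) = 0 := by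
        change Polynomial.aeval _ X = _
        rw [Polynomial.aeval_X, map_zero]
      have h6 : ∀ i, evk (0 : k) (C (c i) * X ^ (a i).toNat : k[X]) = 0 := by
        intro i
        have h7 : (a i).toNat ≠ 0 := by
          have := ha i
          omega
        rw [map_mul, map_pow, h5, zero_pow h7, mul_zero]
      have h8 : (dmap (evk (0 : k)) (lin k (fun i => C (c i) * X ^ (a i).toNat) x)).snd = 0 := by
        rw [dmap_snd, lin_snd, map_sum]
        refine Finset.sum_eq_zero fun i _ => ?_
        rw [map_mul, h6, zero_mul]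
      exact h8

end Pool.Agent.H19VF
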