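import Pool.Agent.H19VF.D_Cousin

/-! # Task S3: the theorem of Birkhoff and Grothendieck for lattices -/

set_option autoImplicit false

open Polynomial

universe u

namespace Pool.Agent.H19VF

namespace TaskS3

section mats

variable {n : ℕ} {K : Type u} [Field K]

/-- all entries lie in `O` -/
def MIn (O : Subring K) (A : Matrix (Fin n) (Fin n) K) : Prop := ∀ i j, A i j ∈ O

lemma MIn.lift {O : Subring K} {A : Matrix (Fin n) (Fin n) K} (h : MIn O A) :
    ∃ B : Matrix (Fin n) (Fin n) O, O.subtype.mapMatrix B = A :=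
  ⟨Matrix.of fun i j => ⟨A i j, h i j⟩, by ext i j; rfl⟩

lemma MIn.of_map {O : Subring K} (B : Matrix (Fin n) (Fin n) O) :
    MIn O (O.subtype.mapMatrix B) := fun i j => (B i j).2

lemma MIn.mul {O : Subring K} {A B : Matrix (Fin n) (Fin n) K} (h : MIn O A) (h' : MIn O B) :
    MIn O (A * B) := by
  obtain ⟨A', rfl⟩ := h.lift
  obtain ⟨B', rfl⟩ := h'.lift
  rw [← map_mul]
  exact MIn.of_map _

lemma MIn.det {O : Subring K} {A : Matrix (Fin n) (Fin n) K} (h : MIn O A) : A.det ∈ O := by
  obtain ⟨A', rfl⟩ := h.lift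
  rw [← RingHom.map_det]
  exact (A'.det).2

lemma MIn.inv {O : Subring K} {A : Matrix (Fin n) (Fin n) K} (h : MIn O A) (h' : A.det⁻¹ ∈ O) :
    MIn O A⁻¹ := by
  intro i j
  rw [Matrix.inv_def, Ring.inverse_eq_inv', Matrix.smul_apply, smul_eq_mul]
  refine O.mul_mem h' ?_
  obtain ⟨A', rfl⟩ := h.lift
  rw [← RingHom.map_adjugate]
  exact MIn.of_map _ i j

end mats

variable {κ : Type u} [Field κ]

lemma exists_pow_reg (s : κ) (g : RatFunc κ) :
    ∃ N : ℕ, ∀ M, N ≤ M → g * polR (X - C s) ^ M ∈ regAt (some s) := by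
  obtain ⟨m, hm⟩ := exists_van (some s) g
  refine ⟨(-m).toNat, fun M hM => ?_⟩
  have h1 : Van (some s) (-(M : ℤ)) g := hm.mono (by omega)
  unfold Van at h1
  rw [neg_neg, zpow_natCast] at h1
  exact h1

lemma exists_pow_reg_fin {ι : Type*} [Fintype ι] (s : κ) (g : ι → RatFunc κ) :
    ∃ N : ℕ, ∀ M, N ≤ M → ∀ i, g i * polR (X - C s) ^ M ∈ regAt (some s) := by
  choose N hN using fun i => exists_pow_reg s (g i)
  refine ⟨Finset.univ.sup N, fun M hM i => hN i M ?_⟩
  exact (Finset.le_sup (Finset.mem_univ i)).trans hM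

lemma exists_pow_reg_S {ι : Type*} [Fintype ι] (S : Finset κ) (g : κ → ι → RatFunc κ) :
    ∃ N : ℕ, ∀ M, N ≤ M → ∀ s ∈ S, ∀ i, g s i * polR (X - C s) ^ M ∈ regAt (some s) := by
  choose N hN using fun s => exists_pow_reg_fin s (g s)
  refine ⟨S.sup N, fun M hM s hs i => hN s M ?_ i⟩
  exact (Finset.le_sup hs).trans hM

lemma exists_prod_reg {ι : Type*} [Fintype ι] (S : Finset κ) (g : κ → ι → RatFunc κ) :
    ∃ N : ℕ, ∀ s ∈ S, ∀ i, g s i * polR (∏ t ∈ S, (X - C t)) ^ N ∈ regAt (some s) := by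
  classical
  obtain ⟨N, hN⟩ := exists_pow_reg_S S g
  refine ⟨N, fun s hs i => ?_⟩
  rw [← Finset.mul_prod_erase S _ hs, map_mul, mul_pow, ← mul_assoc]
  refine (regAt (some s)).mul_mem (hN N le_rfl s hs i) ?_
  rw [← map_pow]
  exact polR_mem_regFin s _

lemma Ene (S : Finset κ) : (∏ t ∈ S, (X - C t) : κ[X]) ≠ 0 :=
  Finset.prod_ne_zero_iff.2 fun s _ => X_sub_C_ne_zero s

section lat

variable {n : ℕ} (S : Finset κ) (J : κ → Matrix (Fin n) (Fin n) (RatFunc κ))

/-- the module of the sections of the lattice over the affine line -/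
noncomputable def latM : Submodule κ[X] (Fin n → RatFunc κ) where
  carrier := {g | (∀ i, g i ∈ regOff S) ∧ ∀ s ∈ S, ∀ i, (J s).mulVec g i ∈ regAt (some s)}
  zero_mem' := by
    refine ⟨fun i => (regOff S).zero_mem, fun s _ i => ?_⟩
    rw [Matrix.mulVec_zero]
    exact Subring.zero_mem _
  add_mem' := by
    rintro a b ⟨ha, ha'⟩ ⟨hb, hb'⟩
    refine ⟨fun i => (regOff S).add_mem (ha i) (hb i), fun s hs i => ?_⟩
    rw [Matrix.mulVec_add]
    exact Subring.add_mem _ (ha' s hs i) (hb' s hs i)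
  smul_mem' := by
    rintro c a ⟨ha, ha'⟩
    refine ⟨fun i => ?_, fun s hs i => ?_⟩
    · rw [Pi.smul_apply, Algebra.smul_def]
      exact (regOff S).mul_mem (polR_mem_regOff S c) (ha i)
    · rw [Matrix.mulVec_smul, Pi.smul_apply, Algebra.smul_def]
      exact Subring.mul_mem _ (polR_mem_regFin s c) (ha' s hs i)

lemma mem_latM {g : Fin n → RatFunc κ} : g ∈ latM S J ↔ (∀ i, g i ∈ regOff S) ∧
    ∀ s ∈ S, ∀ i, (J s).mulVec g i ∈ regAt (some s) := Iff.rfl

lemma absorb1 {v : Fin n → RatFunc κ} (hv : ∀ i, v i ∈ regOff S) :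
    ∃ N : ℕ, (∏ t ∈ S, (X - C t)) ^ N • v ∈ latM S J := by
  obtain ⟨N, hN⟩ := exists_prod_reg S (fun s i => (J s).mulVec v i)
  refine ⟨N, ?_, fun s hs i => ?_⟩
  · intro i
    rw [Pi.smul_apply, Algebra.smul_def]
    exact (regOff S).mul_mem (polR_mem_regOff S _) (hv i)
  · rw [Matrix.mulVec_smul, Pi.smul_apply, Algebra.smul_def, map_pow, mul_comm]
    exact hN s hs i

lemma exists_den (v : Fin n → RatFunc κ) :
    ∃ q : κ[X], q ≠ 0 ∧ ∃ p : Fin n → κ[X], ∀ i, v i * polR q = polR (p i) := by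
  choose p q hq h using fun i => Dfrac (v i)
  refine ⟨∏ i, q i, Finset.prod_ne_zero_iff.2 fun i _ => hq i,
    fun i => p i * ∏ j ∈ Finset.univ.erase i, q j, fun i => ?_⟩
  rw [← Finset.mul_prod_erase Finset.univ q (Finset.mem_univ i), map_mul, map_mul, ← h i]
  ring

lemma absorb2 {s : κ} (hs : s ∈ S) {v : Fin n → RatFunc κ}
    (hv : ∀ i, (J s).mulVec v i ∈ regAt (some s)) :
    ∃ h : κ[X], h.eval s ≠ 0 ∧ h • v ∈ latM S J := by
  classical
  obtain ⟨q, hq, p, hp⟩ := exists_den v
  obtain ⟨q', hq', hnd⟩ := Polynomial.exists_eq_pow_rootMultiplicity_mul_and_not_dvd q hq s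
  set e := q.rootMultiplicity s with he
  obtain ⟨N, hN⟩ := exists_prod_reg (S.erase s) (fun t i => (J t).mulVec (q' • v) i)
  set E : κ[X] := ∏ t ∈ S.erase s, (X - C t) with hE
  refine ⟨E ^ N * q', ?_, ?_, ?_⟩
  · rw [eval_mul, eval_pow]
    refine mul_ne_zero (pow_ne_zero _ ?_) ?_
    · rw [hE, eval_prod]
      refine Finset.prod_ne_zero_iff.2 fun t ht => ?_
      rw [eval_sub, eval_X, eval_C]
      exact sub_ne_zero.2 (Finset.ne_of_mem_erase ht).symm
    · intro h0
      exact hnd (dvd_iff_isRoot.2 h0)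
  · intro i
    rw [Pi.smul_apply, Algebra.smul_def, map_mul, mul_assoc]
    refine (regOff S).mul_mem (polR_mem_regOff S _) ?_
    have h1 : polR q' * v i = polR (p i) * unif (some s) ^ (-(e : ℤ)) := by
      have hX : polR (κ := κ) (X - C s) ≠ 0 := Dne (X_sub_C_ne_zero s)
      have h2 := hp i
      rw [hq', map_mul, map_pow] at h2
      change _ = _ * polR (X - C s) ^ (-(e : ℤ))
      rw [zpow_neg, zpow_natCast, ← h2]
      field_simp
    change polR q' * v i ∈ _
    rw [h1]
    exact (regOff S).mul_mem (polR_mem_regOff S _) (DregOff_unif hs e)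
  · intro t ht i
    rw [Matrix.mulVec_smul, Pi.smul_apply, Algebra.smul_def]
    by_cases hts : t = s
    · subst hts
      exact Subring.mul_mem _ (polR_mem_regFin t _) (hv i)
    · have h1 := hN t (Finset.mem_erase.2 ⟨hts, ht⟩) i
      rw [Matrix.mulVec_smul, Pi.smul_apply, Algebra.smul_def] at h1
      change polR (E ^ N * q') * _ ∈ _
      change polR q' * _ * polR E ^ N ∈ _ at h1
      have h2 : polR (E ^ N * q') * (J t).mulVec v i
          = polR q' * (J t).mulVec v i * polR E ^ N := by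
        rw [map_mul, map_pow]; ring
      rw [h2]
      exact h1

/-- multiplication of polynomial vectors by `1 / D` -/
noncomputable def divv (n : ℕ) (D : κ[X]) : (Fin n → κ[X]) →ₗ[κ[X]] (Fin n → RatFunc κ) where
  toFun c i := polR (c i) * (polR D)⁻¹
  map_add' a b := by
    funext i
    simp only [Pi.add_apply, map_add]
    ring
  map_smul' r a := by
    funext i
    simp only [Pi.smul_apply, smul_eq_mul, map_mul, RingHom.id_apply, Algebra.smul_def]
    ring

lemma latM_fg (hJ : ∀ s ∈ S, (J s).det ≠ 0) : (latM S J).FG := by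
  classical
  obtain ⟨N, hN⟩ := exists_prod_reg (ι := Fin n × Fin n) S (fun s ij => (J s)⁻¹ ij.1 ij.2)
  set D : κ[X] := (∏ t ∈ S, (X - C t)) ^ N with hD
  have hD0 : D ≠ 0 := pow_ne_zero _ (Ene S)
  have hle : latM S J ≤ LinearMap.range (divv n D) := by
    rintro g ⟨hg, hg'⟩
    have h1 : ∀ i, ∃ G : κ[X], g i * polR D = polR G := by
      intro i
      apply TaskA.exists_pol S
      · exact (regOff S).mul_mem (hg i) (polR_mem_regOff S _)
      · intro s hs
        have hdet : IsUnit (J s).det := isUnit_iff_ne_zero.2 (hJ s hs)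
        have h2 : g = (J s)⁻¹.mulVec ((J s).mulVec g) := by
          rw [Matrix.mulVec_mulVec, Matrix.nonsing_inv_mul _ hdet, Matrix.one_mulVec]
        rw [h2]
        change (∑ j, (J s)⁻¹ i j * (J s).mulVec g j) * polR D ∈ regFin s
        rw [Finset.sum_mul]
        refine Subring.sum_mem _ fun j _ => ?_
        rw [mul_right_comm]
        refine Subring.mul_mem _ ?_ (hg' s hs j)
        rw [hD, map_pow]
        exact hN s hs (i, j)
    choose G hG using h1
    refine ⟨G, ?_⟩
    funext i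
    change polR (G i) * (polR D)⁻¹ = g i
    rw [← hG i, mul_inv_cancel_right₀ (Dne hD0)]
  exact Submodule.FG.of_le (Module.Finite.iff_fg.1 inferInstance) hle

lemma latM_span : Submodule.span (RatFunc κ) (latM S J : Set (Fin n → RatFunc κ)) = ⊤ := by
  classical
  rw [eq_top_iff, ← (Pi.basisFun (RatFunc κ) (Fin n)).span_eq, Submodule.span_le]
  rintro _ ⟨j, rfl⟩
  have h1 : ∀ i, (Pi.basisFun (RatFunc κ) (Fin n) j) i ∈ regOff S := by
    intro i
    rw [Pi.basisFun_apply]
    by_cases h : i = j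
    · subst h
      rw [Pi.single_eq_same]
      exact (regOff S).one_mem
    · rw [Pi.single_eq_of_ne h]
      exact (regOff S).zero_mem
  obtain ⟨N, hN⟩ := absorb1 S J h1
  set v := Pi.basisFun (RatFunc κ) (Fin n) j with hv
  set D : κ[X] := (∏ t ∈ S, (X - C t)) ^ N with hD
  have hD0 : D ≠ 0 := pow_ne_zero _ (Ene S)
  have h2 : v = (polR D)⁻¹ • (D • v) := by
    funext i
    rw [Pi.smul_apply, smul_eq_mul, Pi.smul_apply, Algebra.smul_def]
    change v i = (polR D)⁻¹ * (polR D * v i)
    rw [inv_mul_cancel_left₀ (Dne hD0)]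
  rw [h2]
  exact Submodule.smul_mem _ _ (Submodule.subset_span hN)

end lat

end TaskS3

open TaskS3

variable {κ : Type u} [Field κ]

/-- Lattices on the affine line are free: given matrices `J s ∈ GL_n(κ(y))` for `s ∈ S`, there is
a basis (the columns of `G`) of the module of the `g ∈ κ(y)^n` which are regular outside `S` and
such that `J s * g` is regular at `s` for `s ∈ S`. (This module is a submodule of a free module
of rank `n` over the principal ideal domain `κ[y]` and contains a multiple of it, so it is free of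
rank `n`. The columns form a basis of the local lattices by approximation.) -/
theorem lattice_basis {n : ℕ} (S : Finset κ) (J : κ → Matrix (Fin n) (Fin n) (RatFunc κ))
    (hJ : ∀ s ∈ S, (J s).det ≠ 0) :
    ∃ G : Matrix (Fin n) (Fin n) (RatFunc κ), G.det ≠ 0 ∧ (∀ i j, G i j ∈ regOff S) ∧
      (∀ i j, G⁻¹ i j ∈ regOff S) ∧ ∀ s ∈ S, (∀ i j, (J s * G) i j ∈ regAt (some s)) ∧
        ∀ i j, (J s * G)⁻¹ i j ∈ regAt (some s) := by
  classical
  have : Submodule.IsLattice (RatFunc κ) (latM S J) := ⟨latM_fg S J hJ, latM_span S J⟩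
  have hfin : Module.finrank κ[X] (latM S J) = n := by
    rw [Submodule.IsLattice.finrank_of_pi (K := RatFunc κ), Fintype.card_fin]
  let b : Module.Basis (Fin n) κ[X] (latM S J) :=
    Module.finBasisOfFinrankEq κ[X] (latM S J) hfin
  let b' := b.extendOfIsLattice (RatFunc κ)
  have hb' : ∀ j, b' j = (b j).val := fun j => Module.Basis.extendOfIsLattice_apply _ _ _
  set G : Matrix (Fin n) (Fin n) (RatFunc κ) := Matrix.of fun i j => (b j).val i with hG
  have hGdet : IsUnit G.det := by
    have h1 : G = (Pi.basisFun (RatFunc κ) (Fin n)).toMatrix b' := by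
      ext i j
      rw [Module.Basis.toMatrix_apply, Pi.basisFun_repr, hb', hG, Matrix.of_apply]
    rw [h1]
    have := Module.Basis.invertibleToMatrix (Pi.basisFun (RatFunc κ) (Fin n)) b'
    exact Matrix.isUnit_det_of_invertible _
  have hrep : ∀ v ∈ latM S J, ∃ c : Fin n → κ[X], G⁻¹.mulVec v = fun i => polR (c i) := by
    intro v hv
    refine ⟨fun i => b.repr ⟨v, hv⟩ i, ?_⟩
    have h1 := b.sum_repr ⟨v, hv⟩
    have h2 := congrArg Subtype.val h1
    simp only [Submodule.coe_sum, Submodule.coe_smul] at h2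
    have h3 : G.mulVec (fun i => polR (b.repr ⟨v, hv⟩ i)) = v := by
      refine Eq.trans ?_ h2
      funext i
      rw [Finset.sum_apply]
      simp only [Matrix.mulVec, dotProduct]
      refine Finset.sum_congr rfl fun j _ => ?_
      rw [Pi.smul_apply, Algebra.smul_def, hG, Matrix.of_apply, mul_comm]
    have h4 := congrArg (G⁻¹.mulVec) h3
    rw [Matrix.mulVec_mulVec, Matrix.nonsing_inv_mul _ hGdet, Matrix.one_mulVec] at h4
    exact h4.symm
  refine ⟨G, hGdet.ne_zero, fun i j => (b j).2.1 i, fun i j => ?_, fun s hs => ⟨fun i j => ?_,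
    fun i j => ?_⟩⟩
  · have h1 : ∀ i, (Pi.single j (1 : RatFunc κ) : Fin n → RatFunc κ) i ∈ regOff S := by
      intro i
      by_cases h : i = j
      · subst h
        rw [Pi.single_eq_same]
        exact (regOff S).one_mem
      · rw [Pi.single_eq_of_ne h]
        exact (regOff S).zero_mem
    obtain ⟨N, hN⟩ := absorb1 S J h1
    obtain ⟨c, hc⟩ := hrep _ hN
    refine ⟨c i, N, ?_⟩
    have h2 := congrFun hc i
    rw [Matrix.mulVec_smul, Pi.smul_apply, Algebra.smul_def, Matrix.mulVec_single_one] at h2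
    rw [← h2, map_pow, mul_comm]
    rfl
  · have h1 := (b j).2.2 s hs i
    exact h1
  · have hdet : IsUnit (J s).det := isUnit_iff_ne_zero.2 (hJ s hs)
    set v := (J s)⁻¹.mulVec (Pi.single j (1 : RatFunc κ)) with hv
    have h1 : ∀ i, (J s).mulVec v i ∈ regAt (some s) := by
      intro i
      rw [hv, Matrix.mulVec_mulVec, Matrix.mul_nonsing_inv _ hdet, Matrix.one_mulVec]
      by_cases h : i = j
      · subst h
        rw [Pi.single_eq_same]
        exact Subring.one_mem _
      · rw [Pi.single_eq_of_ne h]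
        exact Subring.zero_mem _
    obtain ⟨h, hh, hm⟩ := absorb2 S J hs h1
    obtain ⟨c, hc⟩ := hrep _ hm
    refine ⟨c i, h, hh, ?_⟩
    have h2 := congrFun hc i
    rw [Matrix.mulVec_smul, Pi.smul_apply, Algebra.smul_def, hv, Matrix.mulVec_mulVec,
      Matrix.mulVec_single_one] at h2
    rw [← h2, Matrix.mul_inv_rev, mul_comm]
    rfl

namespace TaskS3

lemma van_bdd {s : Option κ} {g : RatFunc κ} (hg : g ≠ 0) : ∃ b : ℤ, ∀ m, Van s m g → m ≤ b := by
  obtain ⟨e, he⟩ := exists_van s g⁻¹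
  refine ⟨-e, fun m hm => ?_⟩
  by_contra hlt
  push Not at hlt
  have h1 := hm.mul he
  rw [mul_inv_cancel₀ hg] at h1
  have h2 : Van s 1 (polR (C (1 : κ))) := by
    rw [C_1, map_one]
    exact h1.mono (by omega)
  exact one_ne_zero (Dconst h2)

/-- admissible pairs -/
def Adm {n : ℕ} (A : Matrix (Fin n) (Fin n) (RatFunc κ)) (P : Matrix (Fin n) (Fin n) κ[X])
    (a : Fin n → ℤ) : Prop :=
  IsUnit P.det ∧ MIn (regAt (none : Option κ))
    (A * P.map polR * Matrix.diagonal fun i => (unif (none : Option κ)) ^ (-(a i)))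

lemma Adm.bdd {n : ℕ} {A : Matrix (Fin n) (Fin n) (RatFunc κ)} (hA : A.det ≠ 0) :
    ∃ b : ℤ, ∀ P a, Adm A P a → ∑ i, a i ≤ b := by
  obtain ⟨b, hb⟩ := van_bdd (s := none) hA
  refine ⟨b, fun P a ⟨hP, h⟩ => hb _ ?_⟩
  have h1 := h.det
  rw [Matrix.det_mul, Matrix.det_mul, Matrix.det_diagonal] at h1
  have h2 : ∏ i, unif (none : Option κ) ^ (-(a i)) = unif (none : Option κ) ^ (-∑ i, a i) := by
    rw [← Finset.sum_neg_distrib]
    have : ∀ s : Finset (Fin n), ∏ i ∈ s, unif (none : Option κ) ^ (-(a i))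
        = unif (none : Option κ) ^ (∑ i ∈ s, -a i) := by
      classical
      intro s
      induction s using Finset.induction_on with
      | empty => simp
      | insert j s hj ih =>
        rw [Finset.prod_insert hj, Finset.sum_insert hj, ih, zpow_add₀ (unif_ne_zero _)]
    exact this _
  have h3 : (P.map polR).det = polR P.det := by
    rw [RingHom.map_det]; rfl
  obtain ⟨c, hc, hcP⟩ := Polynomial.isUnit_iff.1 hP
  rw [h2, h3, ← hcP] at h1
  have h4 := (regAt (none : Option κ)).mul_mem h1 (polR_C_mem none c⁻¹)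
  have h5 : A.det * polR (C c) * unif (none : Option κ) ^ (-∑ i, a i) * polR (C c⁻¹)
      = A.det * unif (none : Option κ) ^ (-∑ i, a i) := by
    have h6 : polR (C c) * polR (C c⁻¹) = 1 := by
      rw [← map_mul, ← C_mul, mul_inv_cancel₀ hc.ne_zero, C_1, map_one]
    linear_combination (A.det * unif (none : Option κ) ^ (-∑ i, a i)) * h6
  rw [h5] at h4
  exact h4

lemma Adm.exists {n : ℕ} (A : Matrix (Fin n) (Fin n) (RatFunc κ)) : ∃ P a, Adm A P a := by
  classical
  choose m hm using fun ij : Fin n × Fin n => exists_van (none : Option κ) (A ij.1 ij.2)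
  obtain ⟨b, hb⟩ : ∃ b : ℤ, ∀ ij, b ≤ m ij := by
    rcases isEmpty_or_nonempty (Fin n × Fin n) with he | he
    · exact ⟨0, fun ij => he.elim ij⟩
    · obtain ⟨x, -, hx⟩ := Finset.exists_min_image Finset.univ m Finset.univ_nonempty
      exact ⟨m x, fun ij => hx ij (Finset.mem_univ _)⟩
  refine ⟨1, fun _ => b, by simp, fun i j => ?_⟩
  rw [Matrix.mul_diagonal, Matrix.map_one _ (map_zero _) (map_one _), mul_one]
  exact (hm (i, j)).mono (hb (i, j))

lemma Adm.improve {n : ℕ} {A : Matrix (Fin n) (Fin n) (RatFunc κ)}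
    {P : Matrix (Fin n) (Fin n) κ[X]} {a : Fin n → ℤ} (h : Adm A P a)
    (hv : Van none 1 (A * P.map polR *
      Matrix.diagonal fun i => (unif (none : Option κ)) ^ (-(a i))).det) :
    ∃ P' a', Adm A P' a' ∧ ∑ i, a' i = ∑ i, a i + 1 := by
  classical
  obtain ⟨hP, hM⟩ := h
  set AP := A * P.map polR with hAP
  set B := AP * Matrix.diagonal fun i => (unif (none : Option κ)) ^ (-(a i)) with hB
  have hBe : ∀ i j, B i j = AP i j * (unif (none : Option κ)) ^ (-(a j)) := fun i j => by
    rw [hB, Matrix.mul_diagonal]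
  obtain ⟨ρ, hρC, hρ⟩ := exists_residue (none : Option κ)
  obtain ⟨B', hB'⟩ := hM.lift
  have hB'e : ∀ i j, ((B' i j : regAt (none : Option κ)) : RatFunc κ) = B i j := by
    intro i j
    rw [← hB']
    rfl
  have hdet : (ρ.mapMatrix B').det = 0 := by
    rw [← RingHom.map_det, hρ]
    have h1 : ((B'.det : regAt (none : Option κ)) : RatFunc κ) = B.det := by
      rw [← hB', ← RingHom.map_det]
      rfl
    rw [h1]
    exact hv
  obtain ⟨c, hc0, hc⟩ := Matrix.exists_mulVec_eq_zero_iff.2 hdet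
  have hvan : ∀ i, Van none 1 (∑ j, B i j * polR (C (c j))) := by
    intro i
    have h1 := congrFun hc i
    simp only [Matrix.mulVec, dotProduct, RingHom.mapMatrix_apply, Matrix.map_apply,
      Pi.zero_apply] at h1
    have h2 : ρ (∑ j, B' i j * ⟨polR (C (c j)), polR_C_mem none (c j)⟩) = 0 := by
      rw [map_sum, ← h1]
      refine Finset.sum_congr rfl fun j _ => ?_
      rw [map_mul, hρC]
    rw [hρ] at h2
    have h3 : ((∑ j, B' i j * ⟨polR (C (c j)), polR_C_mem none (c j)⟩ :
        regAt (none : Option κ)) : RatFunc κ) = ∑ j, B i j * polR (C (c j)) := by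
      push_cast
      refine Finset.sum_congr rfl fun j _ => ?_
      rw [hB'e]
    rw [h3] at h2
    exact h2
  obtain ⟨j1, hj1⟩ := Function.ne_iff.1 hc0
  obtain ⟨j0, hj0, hmin⟩ := Finset.exists_min_image (Finset.univ.filter fun j => c j ≠ 0) a
    ⟨j1, by simpa using hj1⟩
  have hcj0 : c j0 ≠ 0 := (Finset.mem_filter.1 hj0).2
  have hmin' : ∀ j, c j ≠ 0 → a j0 ≤ a j := fun j hj => hmin j (by simpa using hj)
  set u : Fin n → κ[X] := fun j => C (c j) * X ^ (a j - a j0).toNat with hu
  have hpu : ∀ j, polR (u j) = polR (C (c j)) * (unif (none : Option κ)) ^ (a j0 - a j) := by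
    intro j
    by_cases hj : c j = 0
    · rw [hu]
      simp [hj]
    · have h1 := hmin' j hj
      change polR (C (c j) * X ^ (a j - a j0).toNat) = polR (C (c j)) * ((polR X)⁻¹) ^ (a j0 - a j)
      rw [map_mul, map_pow]
      congr 1
      have h2 : a j0 - a j = -((a j - a j0).toNat : ℤ) := by omega
      rw [h2, zpow_neg, zpow_natCast, inv_pow, inv_inv]
  set E : Matrix (Fin n) (Fin n) κ[X] := (1 : Matrix (Fin n) (Fin n) κ[X]).updateCol j0 u with hE
  have hEdet : E.det = C (c j0) := by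
    rw [hE, ← Matrix.cramer_apply, Matrix.cramer_one]
    simp [hu]
  refine ⟨P * E, Function.update a j0 (a j0 + 1), ⟨?_, ?_⟩, ?_⟩
  · rw [Matrix.det_mul, hEdet]
    exact hP.mul (isUnit_C.2 (isUnit_iff_ne_zero.2 hcj0))
  · rw [Matrix.map_mul, ← Matrix.mul_assoc, ← hAP]
    intro i j
    rw [Matrix.mul_diagonal]
    by_cases hj : j = j0
    · subst hj
      rw [Function.update_self]
      have h1 : (AP * E.map polR) i j = ∑ k, AP i k * polR (u k) := by
        rw [Matrix.mul_apply]
        refine Finset.sum_congr rfl fun k _ => ?_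
        rw [Matrix.map_apply, hE, Matrix.updateCol_self]
      rw [h1]
      have h2 := hvan i
      unfold Van at h2
      have h3 : (∑ k, AP i k * polR (u k)) * unif (none : Option κ) ^ (-(a j + 1))
          = (∑ k, B i k * polR (C (c k))) * unif (none : Option κ) ^ (-1 : ℤ) := by
        rw [Finset.sum_mul, Finset.sum_mul]
        refine Finset.sum_congr rfl fun k _ => ?_
        rw [hpu, hBe]
        have h4 : unif (none : Option κ) ^ (a j - a k) * unif (none : Option κ) ^ (-(a j + 1))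
            = unif (none : Option κ) ^ (-(a k)) * unif (none : Option κ) ^ (-1 : ℤ) := by
          rw [← zpow_add₀ (unif_ne_zero _), ← zpow_add₀ (unif_ne_zero _)]
          congr 1
          ring
        linear_combination (AP i k * polR (C (c k))) * h4
      rw [h3]
      exact h2
    · rw [Function.update_of_ne hj]
      have h1 : (AP * E.map polR) i j = AP i j := by
        rw [Matrix.mul_apply, Finset.sum_eq_single j]
        · rw [Matrix.map_apply, hE, Matrix.updateCol_ne hj, Matrix.one_apply_eq, map_one, mul_one]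
        · intro k _ hk
          rw [Matrix.map_apply, hE, Matrix.updateCol_ne hj, Matrix.one_apply_ne hk, map_zero,
            mul_zero]
        · intro h
          exact absurd (Finset.mem_univ _) h
      rw [h1, ← hBe]
      exact hM i j
  · rw [Finset.sum_update_of_mem (Finset.mem_univ _),
      ← Finset.add_sum_erase Finset.univ a (Finset.mem_univ j0), Finset.sdiff_singleton_eq_erase]
    ring

end TaskS3

/-- Reduction of a basis at infinity: for `A ∈ GL_n(κ(y))` whose determinant is regular and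
nonzero ... there are `P ∈ GL_n(κ[y])` and integers `a i` such that the columns of
`A * P * diag (w ^ (- a i))` form a basis of the lattice of the vectors regular at infinity.
(Choose `P` such that the sum of the degrees of the columns of `A * P` is minimal, the degree of a
vector `g` being the least `d` such that `w ^ d * g` is regular at infinity; then the leading
vectors are linearly independent. The sum is bounded below because of the determinant.) -/
theorem reduce_inf {n : ℕ} (A : Matrix (Fin n) (Fin n) (RatFunc κ)) (hA : A.det ≠ 0) :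
    ∃ (P : Matrix (Fin n) (Fin n) κ[X]) (a : Fin n → ℤ), IsUnit P.det ∧
      (∀ i j, (A * P.map polR * Matrix.diagonal fun i => (unif (none : Option κ)) ^ (-(a i))) i j ∈
        regAt (none : Option κ)) ∧
      ∀ i j, (A * P.map polR * Matrix.diagonal fun i => (unif (none : Option κ)) ^ (-(a i)))⁻¹ i j ∈
        regAt (none : Option κ) := by
  obtain ⟨b, hb⟩ := Adm.bdd hA
  obtain ⟨P₀, a₀, h₀⟩ := Adm.exists A
  obtain ⟨m, ⟨P, a, h, hm⟩, hmax⟩ := Int.exists_greatest_of_bdd
    (P := fun z => ∃ P a, Adm A P a ∧ ∑ i, a i = z)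
    ⟨b, fun z ⟨P, a, h, hz⟩ => hz ▸ hb P a h⟩ ⟨_, P₀, a₀, h₀, rfl⟩
  refine ⟨P, a, h.1, h.2, ?_⟩
  refine MIn.inv h.2 ?_
  refine regAt_inv h.2.det ?_
  intro hv
  obtain ⟨P', a', h', hs⟩ := h.improve hv
  have := hmax _ ⟨P', a', h', rfl⟩
  omega

/-- The theorem of Birkhoff and Grothendieck. -/
theorem birkhoff {n : ℕ} (S : Finset κ) (J : Option κ → Matrix (Fin n) (Fin n) (RatFunc κ))
    (hJ : ∀ s, InS S s → (J s).det ≠ 0) :
    ∃ (a : Fin n → ℤ) (G : Matrix (Fin n) (Fin n) (RatFunc κ)), G.det ≠ 0 ∧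
      (∀ i j, G i j ∈ regOff S) ∧ (∀ i j, G⁻¹ i j ∈ regOff S) ∧
      (∀ s ∈ S, (∀ i j, (J (some s) * G) i j ∈ regAt (some s)) ∧
        ∀ i j, (J (some s) * G)⁻¹ i j ∈ regAt (some s)) ∧
      (∀ i j, (J none * G * Matrix.diagonal fun i => (unif (none : Option κ)) ^ (-(a i))) i j ∈
        regAt (none : Option κ)) ∧
      ∀ i j, (J none * G * Matrix.diagonal fun i => (unif (none : Option κ)) ^ (-(a i)))⁻¹ i j ∈
        regAt (none : Option κ) := by
  have hS : ∀ s ∈ S, InS S (some s) := fun s hs a ha => by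
    rw [← Option.some_injective _ ha]; exact hs
  have hI : InS S none := fun a ha => by simp at ha
  obtain ⟨G, hG, hG1, hG2, hG3⟩ := lattice_basis S (fun s => J (some s)) fun s hs => hJ _ (hS s hs)
  obtain ⟨P, a, hP, h1, h2⟩ := reduce_inf (J none * G) (by
    rw [Matrix.det_mul]
    exact mul_ne_zero (hJ _ hI) hG)
  have hPdet : (P.map polR).det = polR P.det := by
    rw [RingHom.map_det]; rfl
  have hPu : IsUnit (P.map polR).det := by
    rw [hPdet]
    exact hP.map _
  have hPinv : (P.map polR)⁻¹ = (P⁻¹).map polR := by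
    apply Matrix.inv_eq_right_inv
    rw [← Matrix.map_mul, Matrix.mul_nonsing_inv _ hP, Matrix.map_one _ (map_zero _) (map_one _)]
  have hPO : ∀ O : Subring (RatFunc κ), (∀ p : κ[X], polR p ∈ O) → MIn O (P.map polR) ∧
      MIn O (P.map polR)⁻¹ := by
    intro O hO
    rw [hPinv]
    exact ⟨fun i j => hO _, fun i j => hO _⟩
  refine ⟨a, G * P.map polR, ?_, ?_, ?_, ?_, ?_, ?_⟩
  · rw [Matrix.det_mul]
    exact mul_ne_zero hG hPu.ne_zero
  · exact MIn.mul hG1 (hPO _ (polR_mem_regOff S)).1
  · rw [Matrix.mul_inv_rev]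
    exact MIn.mul (hPO _ (polR_mem_regOff S)).2 hG2
  · intro s hs
    rw [← Matrix.mul_assoc]
    refine ⟨?_, ?_⟩
    · exact MIn.mul (hG3 s hs).1 (hPO _ (polR_mem_regFin s)).1
    · rw [Matrix.mul_inv_rev]
      exact MIn.mul (hPO _ (polR_mem_regFin s)).2 (hG3 s hs).2
  · rw [← Matrix.mul_assoc]
    exact h1
  · rw [← Matrix.mul_assoc]
    exact h2

end Pool.Agent.H19VF
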