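import Pool.Agent.H19VF.S_Defs
import Pool.Agent.H19VF.F_Chart
import Pool.Agent.H19VF.F_Pt

set_option autoImplicit false

open AlgebraicGeometry CategoryTheory Polynomial

universe u

namespace Pool.Agent.H19VF

namespace S4

theorem appTop_injective {A B : Type u} [CommRing A] [CommRing B] (φ : A →+* B)
    (hφ : Function.Injective φ) :
    Function.Injective (Spec.map (CommRingCat.ofHom φ)).appTop := by
  have h1 := Scheme.ΓSpecIso_inv_naturality (CommRingCat.ofHom φ)
  have h2 : (Spec.map (CommRingCat.ofHom φ)).appTop =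
      (Scheme.ΓSpecIso (.of A)).hom ≫ CommRingCat.ofHom φ ≫ (Scheme.ΓSpecIso (.of B)).inv := by
    rw [h1, Iso.hom_inv_id_assoc]
  rw [h2]
  simp only [CommRingCat.hom_comp, RingHom.coe_comp]
  exact ((ConcreteCategory.bijective_of_isIso (Scheme.ΓSpecIso (.of B)).inv).1.comp hφ).comp
    (ConcreteCategory.bijective_of_isIso (Scheme.ΓSpecIso (.of A)).hom).1

set_option backward.isDefEq.respectTransparency false in
/-- Morphisms from an affine scheme to a separated scheme are determined on a larger ring. -/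
theorem ext_of_injective {A B : Type u} [CommRing A] [CommRing B] (φ : A →+* B)
    (hφ : Function.Injective φ) {Y Z : Scheme.{u}} (s : Y ⟶ Z) [IsSeparated s]
    {f g : Spec (.of A) ⟶ Y} (h : f ≫ s = g ≫ s)
    (hU : Spec.map (CommRingCat.ofHom φ) ≫ f = Spec.map (CommRingCat.ofHom φ) ≫ g) : f = g := by
  let ι : Spec (.of B) ⟶ Spec (.of A) := Spec.map (CommRingCat.ofHom φ)
  let X' : Over Z := Over.mk (f ≫ s)
  let Y' : Over Z := Over.mk s
  let U' : Over Z := Over.mk (ι ≫ f ≫ s)
  let f' : X' ⟶ Y' := Over.homMk f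
  let g' : X' ⟶ Y' := Over.homMk g
  let ι' : U' ⟶ X' := Over.homMk ι
  have : IsSeparated Y'.hom := ‹_›
  let e : (Limits.equalizer f' g').left ⟶ Spec (.of A) := (Limits.equalizer.ι f' g').left
  have he : IsClosedImmersion e := inferInstanceAs (IsClosedImmersion (Limits.equalizer.ι f' g').left)
  let l : Spec (.of B) ⟶ (Limits.equalizer f' g').left :=
    (Limits.equalizer.lift ι' (by ext1; exact hU)).left
  have hl : l ≫ e = ι := by
    have h1 : (Limits.equalizer.lift ι' (by ext1; exact hU)) ≫ Limits.equalizer.ι f' g' = ι' :=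
      Limits.equalizer.lift_ι _ _
    exact congrArg CommaMorphism.left h1
  have hinj : Function.Injective e.appTop := by
    have h2 : Function.Injective ι.appTop := appTop_injective φ hφ
    rw [← hl, Scheme.Hom.comp_appTop] at h2
    intro x y hxy
    apply h2
    rw [CommRingCat.comp_apply, CommRingCat.comp_apply, hxy]
  have hiso : IsIso e := IsClosedImmersion.isIso_of_injective_of_isAffine hinj
  rw [← cancel_epi e]
  exact congr($(Limits.equalizer.condition f' g').left)

end S4

variable {k : Type u} [Field k] {V : Scheme.{u}} {π : V ⟶ Spec (.of k)}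

theorem S4.pt_injective [IsSeparated π] {R R' : Type u} [CommRing R] [Algebra k R] [CommRing R']
    [Algebra k R'] (φ : R →ₐ[k] R') (hφ : Function.Injective φ) {p q : Pt π R}
    (h : p.map φ = q.map φ) : p = q := by
  apply Pt.ext
  exact S4.ext_of_injective φ.toRingHom hφ π (p.2.trans q.2.symm) (congrArg Subtype.val h)

/-- Tangent fields along a point over a reduced ring are determined by their images over a larger
ring. -/
theorem Pt.dual_injective [IsSeparated π] {R R' : Type u} [CommRing R] [Algebra k R] [CommRing R']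
    [Algebra k R'] [IsReduced R] (φ : R →ₐ[k] R') (hφ : Function.Injective φ)
    {p q : Pt π (DualNumber R)} (h : p.map (dmap φ) = q.map (dmap φ)) : p = q := by
  refine S4.pt_injective (dmap φ) ?_ h
  intro x y hxy
  ext
  · apply hφ
    have := congrArg TrivSqZeroExt.fst hxy
    simpa using this
  · apply hφ
    have := congrArg TrivSqZeroExt.snd hxy
    simpa using this

namespace S4

/-- localization of an injective homomorphism -/
theorem lift_injective {A B : Type u} [CommRing A] [CommRing B] (ι : A →+* B)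
    (hι : Function.Injective ι) (f : A) (hf : ∀ y : Submonoid.powers f, IsUnit (ι y)) :
    Function.Injective
      (IsLocalization.lift (M := Submonoid.powers f) (S := Localization.Away f) hf) := by
  rw [injective_iff_map_eq_zero]
  intro x hx
  obtain ⟨b, t, rfl⟩ := IsLocalization.exists_mk'_eq (Submonoid.powers f) x
  have h1 : IsLocalization.lift (M := Submonoid.powers f) (S := Localization.Away f) hf
      (algebraMap A _ b) = 0 := by
    rw [← IsLocalization.mk'_spec (Localization.Away f) b t, map_mul, hx, zero_mul]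
  rw [IsLocalization.lift_eq] at h1
  have h2 : b = 0 := hι (by rw [h1, map_zero])
  rw [h2, IsLocalization.mk'_zero]

theorem powers_unit {A B : Type u} [CommRing A] [CommRing B] (ι : A →+* B) (f : A)
    (hf : IsUnit (ι f)) : ∀ y : Submonoid.powers f, IsUnit (ι y) := by
  rintro ⟨_, n, rfl⟩
  simp only [map_pow]
  exact hf.pow n

/-- A point over `B` given by a chart whose functions have denominators in `C`. -/
theorem local_pt [LocallyOfFiniteType π] {A B : Type u} [CommRing A] [CommRing B] [Algebra k A]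
    [Algebra k B] (ι : A →ₐ[k] B) (hι : Function.Injective ι) (C : Submonoid A)
    (hC : ∀ c ∈ C, IsUnit (ι c)) (θ : Pt π B) (W : Chart π) (φ : W.B →ₐ[k] B)
    (hθ : θ = W.pt.map φ) (hb : ∀ b : W.B, ∃ a c : A, c ∈ C ∧ φ b * ι c = ι a) :
    ∃ f ∈ C, ∃ (ψ : Localization.Away f →ₐ[k] B) (Θ : Pt π (Localization.Away f)),
      Function.Injective ψ ∧ (∀ a : A, ψ (algebraMap A _ a) = ι a) ∧ Θ.map ψ = θ := by
  classical
  obtain ⟨s, hs⟩ := (Chart.finiteType W).out
  choose a c hc hac using hb
  set f : A := ∏ b ∈ s, c b with hf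
  have hfC : f ∈ C := Submonoid.prod_mem C fun b _ => hc b
  have hfu : ∀ y : Submonoid.powers f, IsUnit (ι.toRingHom y) :=
    powers_unit ι.toRingHom f (hC f hfC)
  let ψ : Localization.Away f →ₐ[k] B :=
    IsLocalization.liftAlgHom (M := Submonoid.powers f) (f := ι) hfu
  have hψ : Function.Injective ψ := lift_injective ι.toRingHom hι f hfu
  have hψa : ∀ a : A, ψ (algebraMap A _ a) = ι a := fun a =>
    IsLocalization.lift_eq (M := Submonoid.powers f) (S := Localization.Away f) hfu a
  have hfB : IsUnit (ι f) := hC f hfC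
  have hrange : ∀ b : W.B, φ b ∈ ψ.range := by
    have h1 : Algebra.adjoin k (s : Set W.B) ≤ ψ.range.comap φ := by
      rw [Algebra.adjoin_le_iff]
      intro b hb
      change φ b ∈ ψ.range
      refine ⟨IsLocalization.mk' (Localization.Away f) (a b * ∏ b' ∈ s.erase b, c b')
        (⟨f, Submonoid.mem_powers f⟩ : Submonoid.powers f), ?_⟩
      have h2 : ψ (IsLocalization.mk' (Localization.Away f) (a b * ∏ b' ∈ s.erase b, c b')
          (⟨f, Submonoid.mem_powers f⟩ : Submonoid.powers f)) * ι f =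
          ι (a b * ∏ b' ∈ s.erase b, c b') := by
        rw [← hψa f, ← map_mul]
        have h3 := IsLocalization.mk'_spec (Localization.Away f) (a b * ∏ b' ∈ s.erase b, c b')
          (⟨f, Submonoid.mem_powers f⟩ : Submonoid.powers f)
        rw [h3, hψa]
      have h4 : φ b * ι f = ι (a b * ∏ b' ∈ s.erase b, c b') := by
        rw [hf, ← Finset.mul_prod_erase s c hb, map_mul, map_mul, ← mul_assoc, hac b]
      exact hfB.mul_right_cancel (h2.trans h4.symm)
    intro b
    have h2 : b ∈ Algebra.adjoin k (s : Set W.B) := by rw [hs]; trivial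
    exact h1 h2
  let e := AlgEquiv.ofInjective ψ hψ
  let φ' : W.B →ₐ[k] Localization.Away f :=
    (e.symm : ψ.range →ₐ[k] Localization.Away f).comp (φ.codRestrict ψ.range hrange)
  have hφ' : ψ.comp φ' = φ := by
    ext b
    have h1 : e (φ' b) = φ.codRestrict ψ.range hrange b := e.apply_symm_apply _
    have h2 := congrArg Subtype.val h1
    exact h2
  refine ⟨f, hfC, ψ, W.pt.map φ', hψ, hψa, ?_⟩
  rw [Pt.map_map, hφ', hθ]

theorem spec_comp {A B C : Type u} [CommRing A] [CommRing B] [CommRing C]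
    (a : A →+* B) (b : B →+* C) :
    Spec.map (CommRingCat.ofHom b) ≫ Spec.map (CommRingCat.ofHom a) =
      Spec.map (CommRingCat.ofHom (b.comp a)) := by
  rw [← Spec.map_comp, ← CommRingCat.ofHom_comp]

theorem range_away {A : Type u} [CommRing A] (f : A) :
    Set.range (Spec.map (CommRingCat.ofHom (algebraMap A (Localization.Away f)))) =
      (PrimeSpectrum.basicOpen f : Set (PrimeSpectrum A)) :=
  PrimeSpectrum.localization_away_comap_range _ f

/-- Two morphisms on basic open subsets which agree over a larger ring agree on the overlap. -/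
theorem overlap {A B : Type u} [CommRing A] [CommRing B] (ι : A →+* B)
    (hι : Function.Injective ι) {Y Z U W : Scheme.{u}} (s : Y ⟶ Z) [IsSeparated s]
    (t : Spec (.of A) ⟶ Z) (u : U ⟶ Spec (.of A)) (v : W ⟶ Spec (.of A)) [IsOpenImmersion u]
    [IsOpenImmersion v] (a b : A)
    (hu : Set.range u = (PrimeSpectrum.basicOpen a : Set (PrimeSpectrum A)))
    (hv : Set.range v = (PrimeSpectrum.basicOpen b : Set (PrimeSpectrum A)))
    (ha : IsUnit (ι a)) (hb : IsUnit (ι b)) (η : Spec (.of B) ⟶ U) (ζ : Spec (.of B) ⟶ W)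
    (hη : η ≫ u = Spec.map (CommRingCat.ofHom ι)) (hζ : ζ ≫ v = Spec.map (CommRingCat.ofHom ι))
    (g : U ⟶ Y) (g' : W ⟶ Y) (hg : g ≫ s = u ≫ t) (hg' : g' ≫ s = v ≫ t)
    (hθ : η ≫ g = ζ ≫ g') :
    Limits.pullback.fst u v ≫ g = Limits.pullback.snd u v ≫ g' := by
  let m : Spec (.of (Localization.Away (a * b))) ⟶ Spec (.of A) :=
    Spec.map (CommRingCat.ofHom (algebraMap A (Localization.Away (a * b))))
  have hm : IsOpenImmersion m := inferInstance
  let jj : Limits.pullback u v ⟶ Spec (.of A) := Limits.pullback.fst u v ≫ u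
  have hjj : IsOpenImmersion jj := inferInstance
  have hr : Set.range m = Set.range jj := by
    have h1 : Set.range jj = Set.range u ∩ Set.range v :=
      IsOpenImmersion.range_pullback_to_base_of_left u v
    rw [h1, hu, hv]
    have e3 := range_away (A := A) (a * b)
    rw [PrimeSpectrum.basicOpen_mul] at e3
    exact e3
  let e := IsOpenImmersion.isoOfRangeEq m jj hr
  have he : e.hom ≫ jj = m := IsOpenImmersion.isoOfRangeEq_hom_fac m jj hr
  have hab : ∀ y : Submonoid.powers (a * b), IsUnit (ι y) :=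
    powers_unit ι _ (by rw [map_mul]; exact ha.mul hb)
  let ρ : Localization.Away (a * b) →+* B :=
    IsLocalization.lift (M := Submonoid.powers (a * b)) hab
  have hρ : Function.Injective ρ := lift_injective ι hι _ hab
  have hρa : ρ.comp (algebraMap A (Localization.Away (a * b))) = ι :=
    IsLocalization.lift_comp (M := Submonoid.powers (a * b)) hab
  have hρm : Spec.map (CommRingCat.ofHom ρ) ≫ m = Spec.map (CommRingCat.ofHom ι) := by
    refine (spec_comp (algebraMap A (Localization.Away (a * b))) ρ).trans ?_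
    rw [hρa]
  have hι1 : Spec.map (CommRingCat.ofHom ρ) ≫ e.hom ≫ Limits.pullback.fst u v = η := by
    rw [← cancel_mono u, Category.assoc, Category.assoc, hη, ← hρm, ← he]
  have hι2 : Spec.map (CommRingCat.ofHom ρ) ≫ e.hom ≫ Limits.pullback.snd u v = ζ := by
    rw [← cancel_mono v, Category.assoc, Category.assoc, hζ, ← hρm, ← he,
      ← Limits.pullback.condition]
  rw [← cancel_epi e.hom]
  refine ext_of_injective ρ hρ s ?_ ?_
  · rw [Category.assoc, Category.assoc, Category.assoc, Category.assoc, hg, hg',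
      Limits.pullback.condition_assoc]
  · rw [← hι1, ← hι2] at hθ
    simpa only [Category.assoc] using hθ

/-- Gluing morphisms on a cover. -/
theorem glue_gen {X Y S : Scheme.{u}} (𝒰 : X.OpenCover) (π : Y ⟶ S) (s : X ⟶ S)
    (g : ∀ p, 𝒰.X p ⟶ Y) (hg : ∀ p, g p ≫ π = 𝒰.f p ≫ s)
    (hglue : ∀ p q, Limits.pullback.fst (𝒰.f p) (𝒰.f q) ≫ g p =
      Limits.pullback.snd (𝒰.f p) (𝒰.f q) ≫ g q) :
    ∃ G : X ⟶ Y, G ≫ π = s ∧ ∀ p, 𝒰.f p ≫ G = g p := by
  refine ⟨𝒰.glueMorphisms g hglue, ?_, fun p => Scheme.Cover.ι_glueMorphisms _ _ _ _⟩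
  refine Scheme.Cover.hom_ext 𝒰 _ _ fun p => ?_
  rw [← Category.assoc, Scheme.Cover.ι_glueMorphisms, hg]

/-- Gluing morphisms on a cover by basic open subsets which agree over a larger ring. -/
theorem glue {A B : Type u} [CommRing A] [CommRing B] (ι : A →+* B)
    (hι : Function.Injective ι) {Y Z : Scheme.{u}} (s : Y ⟶ Z) [IsSeparated s] {I : Type u}
    (f : I → A) (hspan : Ideal.span (Set.range f) = ⊤) (t : Spec (.of A) ⟶ Z)
    (ψ : ∀ i, Localization.Away (f i) →+* B)
    (hψa : ∀ i, (ψ i).comp (algebraMap A (Localization.Away (f i))) = ι)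
    (g : ∀ i, Spec (.of (Localization.Away (f i))) ⟶ Y)
    (hg : ∀ i, g i ≫ s =
      Spec.map (CommRingCat.ofHom (algebraMap A (Localization.Away (f i)))) ≫ t)
    (θ : Spec (.of B) ⟶ Y) (hθ : ∀ i, Spec.map (CommRingCat.ofHom (ψ i)) ≫ g i = θ) :
    ∃ G : Spec (.of A) ⟶ Y, G ≫ s = t ∧
      ∀ i, Spec.map (CommRingCat.ofHom (algebraMap A (Localization.Away (f i)))) ≫ G = g i := by
  have hunit : ∀ i, IsUnit (ι (f i)) := by
    intro i
    rw [← hψa i]
    exact (IsLocalization.Away.algebraMap_isUnit (S := Localization.Away (f i)) (f i)).map (ψ i)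
  have hz : ∀ i, Spec.map (CommRingCat.ofHom (ψ i)) ≫
      Spec.map (CommRingCat.ofHom (algebraMap A (Localization.Away (f i)))) =
      Spec.map (CommRingCat.ofHom ι) := by
    intro i
    refine (spec_comp (algebraMap A (Localization.Away (f i))) (ψ i)).trans ?_
    rw [hψa i]
  have hglue : ∀ i j,
      Limits.pullback.fst
        (Spec.map (CommRingCat.ofHom (algebraMap A (Localization.Away (f i)))))
        (Spec.map (CommRingCat.ofHom (algebraMap A (Localization.Away (f j))))) ≫ g i =
      Limits.pullback.snd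
        (Spec.map (CommRingCat.ofHom (algebraMap A (Localization.Away (f i)))))
        (Spec.map (CommRingCat.ofHom (algebraMap A (Localization.Away (f j))))) ≫ g j := by
    intro i j
    exact overlap ι hι s t _ _ (f i) (f j) (range_away (f i)) (range_away (f j)) (hunit i)
      (hunit j) (Spec.map (CommRingCat.ofHom (ψ i))) (Spec.map (CommRingCat.ofHom (ψ j)))
      (hz i) (hz j) (g i) (g j) (hg i) (hg j) ((hθ i).trans (hθ j).symm)
  exact glue_gen (Scheme.affineOpenCoverOfSpanRangeEqTop (R := .of A) f hspan).openCover s t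
    g hg hglue

/-- Gluing points over the members of a cover by basic open subsets which agree over a larger
ring. -/
theorem glue_pt [IsSeparated π] {A B : Type u} [CommRing A] [CommRing B] [Algebra k A]
    [Algebra k B] (ι : A →ₐ[k] B) (hι : Function.Injective ι) {I : Type u} (i₀ : I)
    (f : I → A) (hspan : Ideal.span (Set.range f) = ⊤)
    (ψ : ∀ i, Localization.Away (f i) →ₐ[k] B)
    (hψa : ∀ i, ∀ a : A, ψ i (algebraMap A (Localization.Away (f i)) a) = ι a)
    (θ : Pt π B) (Θ : ∀ i, Pt π (Localization.Away (f i))) (hΘ : ∀ i, (Θ i).map (ψ i) = θ) :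
    ∃ Ξ : Pt π A, Ξ.map ι = θ := by
  have hg : ∀ i, (Θ i).1 ≫ π =
      Spec.map (CommRingCat.ofHom (algebraMap A (Localization.Away (f i)))) ≫
      Spec.map (CommRingCat.ofHom (algebraMap k A)) := by
    intro i
    refine (Θ i).2.trans ?_
    refine Eq.trans ?_ (spec_comp (algebraMap k A) (algebraMap A (Localization.Away (f i)))).symm
    rw [← IsScalarTower.algebraMap_eq k A (Localization.Away (f i))]
  have hψ' : ∀ i, (ψ i).toRingHom.comp (algebraMap A (Localization.Away (f i))) =
      ι.toRingHom := fun i => RingHom.ext fun a => hψa i a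
  have hθ' : ∀ i, Spec.map (CommRingCat.ofHom (ψ i).toRingHom) ≫ (Θ i).1 = θ.1 :=
    fun i => congrArg Subtype.val (hΘ i)
  obtain ⟨G, hG, hGp⟩ := glue ι.toRingHom hι π f hspan
    (Spec.map (CommRingCat.ofHom (algebraMap k A))) (fun i => (ψ i).toRingHom) hψ'
    (fun i => (Θ i).1) hg θ.1 hθ'
  refine ⟨⟨G, hG⟩, ?_⟩
  apply Pt.ext
  change Spec.map (CommRingCat.ofHom ι.toRingHom) ≫ G = θ.1
  rw [← hθ' i₀, ← hGp i₀, ← hψ' i₀, ← spec_comp, Category.assoc]

/-- Points over `B` which are regular at each prime of a family of submonoids come from points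
over `A`. -/
theorem exists_pt [IsSeparated π] [LocallyOfFiniteType π] {A B : Type u} [CommRing A]
    [CommRing B] [Algebra k A] [Algebra k B] (ι : A →ₐ[k] B) (hι : Function.Injective ι)
    {I : Type u} (i₀ : I) (C : I → Submonoid A) (hC : ∀ i, ∀ c ∈ C i, IsUnit (ι c))
    (hmax : ∀ m : Ideal A, m.IsMaximal → ∃ i, ∀ c ∈ C i, c ∉ m) (θ : Pt π B)
    (h : ∀ i, ∃ (W : Chart π) (φ : W.B →ₐ[k] B), θ = W.pt.map φ ∧
      ∀ b : W.B, ∃ a c : A, c ∈ C i ∧ φ b * ι c = ι a) :
    ∃ Ξ : Pt π A, Ξ.map ι = θ := by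
  have hloc : ∀ i, ∃ f ∈ C i, ∃ (ψ : Localization.Away f →ₐ[k] B)
      (Θ : Pt π (Localization.Away f)), Function.Injective ψ ∧
      (∀ a : A, ψ (algebraMap A (Localization.Away f) a) = ι a) ∧ Θ.map ψ = θ := by
    intro i
    obtain ⟨W, φ, hW, hb⟩ := h i
    exact local_pt ι hι (C i) (hC i) θ W φ hW hb
  choose f hfC ψ Θ hψ hψa hΘ using hloc
  have hspan : Ideal.span (Set.range f) = ⊤ := by
    by_contra hne
    obtain ⟨m, hm, hle⟩ := Ideal.exists_le_maximal _ hne
    obtain ⟨i, hi⟩ := hmax m hm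
    exact hi _ (hfC i) (hle (Ideal.subset_span ⟨i, rfl⟩))
  exact glue_pt ι hι i₀ f hspan ψ hψa θ Θ hΘ

end S4

/-- A tangent field `θ` over the field of fractions `Q` of the domain `D`, along a point `p` over
`D`, which is regular at each prime ideal of `D`, comes from a tangent field over `D`. (As
`glue_domain` in `F_Pt0.lean`.) -/
theorem glue_dual [IsSeparated π] [LocallyOfFiniteType π] {D Q : Type u} [CommRing D]
    [IsDomain D] [Field Q] [Algebra D Q] [IsFractionRing D Q] [Algebra k D] [Algebra k Q]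
    [IsScalarTower k D Q] (p : Pt π D) (θ : Pt π (DualNumber Q))
    (hθ : θ.map (dfst k Q) = p.map (IsScalarTower.toAlgHom k D Q))
    (h : ∀ q : Ideal D, q.IsPrime → ∃ (W : Chart π) (φ : W.B →ₐ[k] DualNumber Q),
      θ = W.pt.map φ ∧
      (∀ b : W.B, ∃ a c : D, c ∉ q ∧ (φ b).fst * algebraMap D Q c = algebraMap D Q a) ∧
      (∀ b : W.B, ∃ a c : D, c ∉ q ∧ (φ b).snd * algebraMap D Q c = algebraMap D Q a)) :
    ∃ Θ : Pt π (DualNumber D), Θ.map (dfst k D) = p ∧
      Θ.map (dmap (IsScalarTower.toAlgHom k D Q)) = θ := by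
  have hinj : Function.Injective (algebraMap D Q) := IsFractionRing.injective D Q
  obtain ⟨ι, hιdef⟩ : ∃ ι : DualNumber D →ₐ[k] DualNumber Q,
      ι = dmap (IsScalarTower.toAlgHom k D Q) := ⟨_, rfl⟩
  have hιfst : ∀ x : DualNumber D, (ι x).fst = algebraMap D Q x.fst := by
    intro x
    rw [hιdef]
    exact dmap_fst _ _
  have hιsnd : ∀ x : DualNumber D, (ι x).snd = algebraMap D Q x.snd := by
    intro x
    rw [hιdef]
    exact dmap_snd _ _
  have hι : Function.Injective ι := by
    intro x y hxy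
    refine TrivSqZeroExt.ext (hinj ?_) (hinj ?_)
    · rw [← hιfst, ← hιfst, hxy]
    · rw [← hιsnd, ← hιsnd, hxy]
  have hιinl : ∀ c : D, ι (TrivSqZeroExt.inl c) = TrivSqZeroExt.inl (algebraMap D Q c) := by
    intro c
    refine TrivSqZeroExt.ext ?_ ?_
    · rw [hιfst, TrivSqZeroExt.fst_inl, TrivSqZeroExt.fst_inl]
    · rw [hιsnd, TrivSqZeroExt.snd_inl, TrivSqZeroExt.snd_inl, map_zero]
  have key : ∃ Ξ : Pt π (DualNumber D), Ξ.map ι = θ := by
    refine S4.exists_pt ι hι (⊥ : PrimeSpectrum D) (fun q : PrimeSpectrum D =>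
      q.asIdeal.primeCompl.map (TrivSqZeroExt.inlHom D D).toMonoidHom) ?_ ?_ θ ?_
    · rintro q _ ⟨c, hc, rfl⟩
      have hc0 : c ≠ 0 := fun h0 => hc (h0 ▸ q.asIdeal.zero_mem)
      have hcQ : algebraMap D Q c ≠ 0 := fun h0 => hc0 (hinj (by rw [h0, map_zero]))
      have h1 : IsUnit (ι (TrivSqZeroExt.inl c)) := by
        rw [hιinl]
        exact (isUnit_iff_ne_zero.mpr hcQ).map (TrivSqZeroExt.inlHom Q Q)
      exact h1
    · intro m hm
      have hmp : m.IsPrime := hm.isPrime
      refine ⟨⟨m.comap (TrivSqZeroExt.inlHom D D), inferInstance⟩, ?_⟩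
      rintro _ ⟨c, hc, rfl⟩ hcm
      exact hc hcm
    · intro q
      obtain ⟨W, φ, hW, h1, h2⟩ := h q.asIdeal q.isPrime
      refine ⟨W, φ, hW, ?_⟩
      intro b
      obtain ⟨a1, c1, hc1, e1⟩ := h1 b
      obtain ⟨a2, c2, hc2, e2⟩ := h2 b
      refine ⟨TrivSqZeroExt.inl (a1 * c2) + TrivSqZeroExt.inr (a2 * c1),
        TrivSqZeroExt.inl (c1 * c2), ⟨c1 * c2, q.asIdeal.primeCompl.mul_mem hc1 hc2, rfl⟩, ?_⟩
      rw [hιinl]
      refine TrivSqZeroExt.ext ?_ ?_
      · rw [TrivSqZeroExt.fst_mul, TrivSqZeroExt.fst_inl, hιfst, TrivSqZeroExt.fst_add,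
          TrivSqZeroExt.fst_inl, TrivSqZeroExt.fst_inr, add_zero, map_mul, map_mul, ← e1]
        ring
      · rw [TrivSqZeroExt.snd_mul, TrivSqZeroExt.fst_inl, TrivSqZeroExt.snd_inl, hιsnd,
          TrivSqZeroExt.snd_add, TrivSqZeroExt.snd_inl, TrivSqZeroExt.snd_inr, zero_add,
          smul_zero, zero_add, MulOpposite.smul_eq_mul_unop, MulOpposite.unop_op, map_mul,
          map_mul, ← e2]
        ring
  obtain ⟨Ξ, hΞ⟩ := key
  refine ⟨Ξ, ?_, by rw [← hιdef]; exact hΞ⟩
  apply S4.pt_injective (IsScalarTower.toAlgHom k D Q) hinj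
  have hcomp : (IsScalarTower.toAlgHom k D Q).comp (dfst k D) = (dfst k Q).comp ι := by
    refine AlgHom.ext fun x => ?_
    exact (hιfst x).symm
  rw [Pt.map_map, ← hθ, ← hΞ, Pt.map_map, hcomp]

end Pool.Agent.H19VF
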