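import Pool.Agent.H19VF.S_Defs
import Pool.Agent.H19VF.S1_Comb
import Pool.Agent.H19VF.S3_Lattice
import Pool.Agent.H19VF.S4_Glue
import Pool.Agent.H19VF.J1b_Ex
import Pool.Agent.H19VF.J1c_Sec
import Pool.Agent.H19VF.J2a_Sections
import Pool.Agent.H19VF.R1_Jet

/-! # Task S5: the splitting of `F^* T_V` for a very free curve `F` -/

set_option autoImplicit false

open AlgebraicGeometry CategoryTheory Polynomial

universe u

namespace Pool.Agent.H19VF

variable {k : Type u} [Field k] {V : Scheme.{u}} {π : V ⟶ Spec (.of k)}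

/-- Transition between two charts at a common point over a field. -/
theorem S5two {n : ℕ} {Q : Type u} [Field Q] [Algebra k Q] (W W' : EChart π n)
    (f : W.B →ₐ[k] Q) (f' : W'.B →ₐ[k] Q) (same : W'.pt.map f' = W.pt.map f) :
    ∃ J : Matrix (Fin n) (Fin n) Q, J.det ≠ 0 ∧
      ∀ δ1 : W.B →ₐ[k] DualNumber Q, (∀ b, (δ1 b).fst = f b) →
        ∃ δ : W'.B →ₐ[k] DualNumber Q, (∀ b, (δ b).fst = f' b) ∧
          W'.pt.map δ = W.pt.map δ1 ∧
          (fun j => (δ (W'.z j)).snd) = J.mulVec (fun j => (δ1 (W.z j)).snd) := by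
  obtain ⟨U, α', α, ψ, hU', hU, hψ', hψ, ⟨g', hg'⟩, ⟨g, hg⟩⟩ :=
    exists_refine W'.toChart W.toChart f' f same
  have hz := W.et.away α g hg
  have hz' := W'.et.away α' g' hg'
  obtain ⟨J, hJ, hJ2⟩ := etale_jacobian _ _ hz hz' ψ
  refine ⟨J, ((Matrix.isUnit_iff_isUnit_det _).1 hJ).ne_zero, fun δ1 h1 => ?_⟩
  have h2 : (W.pt.map δ1).map (dfst k Q) = U.pt.map ψ := by
    rw [hU, Pt.map_map, Pt.map_map, hψ]
    congr 1
    ext b : 1
    exact h1 b
  obtain ⟨δU, h3, h4⟩ := U.J1c_lift_dual _ ψ h2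
  have h5 : δ1 = δU.comp α := by
    apply W.toChart.map_injective
    rw [h3, hU, Pt.map_map]
  refine ⟨δU.comp α', fun b => ?_, ?_, ?_⟩
  · rw [AlgHom.comp_apply, h4, ← hψ', AlgHom.comp_apply]
  · rw [h3, hU', Pt.map_map]
  · have h6 := hJ2 δU h4
    rw [h5]
    exact h6

/-- The Jacobian matrices of the charts in the data `D` of a curve. -/
theorem exists_jac {n : ℕ} {κ : Type u} [Field κ] [Algebra k κ] (D : LocData π n κ) :
    ∃ J : Option κ → Matrix (Fin n) (Fin n) (RatFunc κ), ∀ s, InS D.S s → (J s).det ≠ 0 ∧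
      ∀ δ1 : D.W1.B →ₐ[k] DualNumber (RatFunc κ), (∀ b, (δ1 b).fst = D.f1 b) →
        ∃ δ : (D.W s).B →ₐ[k] DualNumber (RatFunc κ), (∀ b, (δ b).fst = D.f s b) ∧
          (D.W s).pt.map δ = D.W1.pt.map δ1 ∧
          (fun j => (δ ((D.W s).z j)).snd) = (J s).mulVec (fun j => (δ1 (D.W1.z j)).snd) := by
  classical
  have h : ∀ s, ∃ J : Matrix (Fin n) (Fin n) (RatFunc κ), InS D.S s → (J.det ≠ 0 ∧
      ∀ δ1 : D.W1.B →ₐ[k] DualNumber (RatFunc κ), (∀ b, (δ1 b).fst = D.f1 b) →
        ∃ δ : (D.W s).B →ₐ[k] DualNumber (RatFunc κ), (∀ b, (δ b).fst = D.f s b) ∧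
          (D.W s).pt.map δ = D.W1.pt.map δ1 ∧
          (fun j => (δ ((D.W s).z j)).snd) = J.mulVec (fun j => (δ1 (D.W1.z j)).snd)) := by
    intro s
    by_cases hs : InS D.S s
    · obtain ⟨J, h1, h2⟩ := S5two D.W1 (D.W s) D.f1 (D.f s) (D.same s hs)
      exact ⟨J, fun _ => ⟨h1, h2⟩⟩
    · exact ⟨1, fun h => absurd h hs⟩
  choose J hJ using h
  exact ⟨J, hJ⟩

/-- A derivation with values in a subalgebra. -/
theorem S5cod {n : ℕ} {Q : Type u} [Field Q] [Algebra k Q] (A : Subalgebra k Q) (W : EChart π n)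
    (f : W.B →ₐ[k] Q) (hf : ∀ b, f b ∈ A) (δ : W.B →ₐ[k] DualNumber Q)
    (hδ : ∀ b, (δ b).fst = f b) (hz : ∀ j, (δ (W.z j)).snd ∈ A) :
    ∃ δA : W.B →ₐ[k] DualNumber A, (dmap A.val).comp δA = δ ∧
      ∀ b, (δA b).fst = f.codRestrict A hf b := by
  obtain ⟨δA, h1, h2⟩ := (etale_dual W.z W.et (f.codRestrict A hf)
    (fun j => (⟨(δ (W.z j)).snd, hz j⟩ : A))).exists
  refine ⟨δA, ?_, h1⟩
  refine (etale_dual W.z W.et f (fun j => (δ (W.z j)).snd)).unique ⟨fun b => ?_, fun j => ?_⟩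
    ⟨hδ, fun j => rfl⟩
  · rw [AlgHom.comp_apply, dmap_fst, h1]
    rfl
  · rw [AlgHom.comp_apply, dmap_snd, h2]
    rfl

/-- The family `θ` of tangent vectors along `p` is a basis at the point `s` of the line. -/
def S5good {n : ℕ} (s : Option k) (p : Pt π (RatFunc k))
    (θ : Fin n → Pt π (DualNumber (RatFunc k))) : Prop :=
  ∃ (W : EChart π n) (f : W.B →ₐ[k] RatFunc k) (δ : Fin n → W.B →ₐ[k] DualNumber (RatFunc k))
    (M N : Matrix (Fin n) (Fin n) (RatFunc k)), (∀ b, f b ∈ regAt s) ∧ p = W.pt.map f ∧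
    (∀ i b, (δ i b).fst = f b) ∧ (∀ i, θ i = W.pt.map (δ i)) ∧
    (∀ i j, (δ i (W.z j)).snd = M j i) ∧ (∀ i j, M i j ∈ regAt s) ∧ (∀ i j, N i j ∈ regAt s) ∧
    M * N = 1

/-- nonzero prime ideals of polynomial rings over algebraically closed fields -/
theorem S5prime [IsAlgClosed k] (q : Ideal k[X]) (hq : q.IsPrime) (h0 : q ≠ ⊥) :
    ∃ x : k, X - C x ∈ q := by
  obtain ⟨f, hf, hf0⟩ := Submodule.exists_mem_ne_zero_of_ne_bot h0
  have h1 := (IsAlgClosed.splits f).eq_prod_roots
  rw [h1] at hf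
  rcases hq.mem_or_mem hf with h | h
  · exfalso
    apply hq.ne_top
    exact q.eq_top_of_isUnit_mem h (Polynomial.isUnit_C.2 (isUnit_iff_ne_zero.2
      (leadingCoeff_ne_zero.2 hf0)))
  · obtain ⟨p, hp, hpq⟩ := (hq.multiset_prod_mem_iff_exists_mem _).1 h
    obtain ⟨x, -, rfl⟩ := Multiset.mem_map.1 hp
    exact ⟨x, hpq⟩

theorem S5ratY : ratY k = IsScalarTower.toAlgHom k k[X] (RatFunc k) := by
  apply Polynomial.algHom_ext
  exact Polynomial.aeval_X _

/-- Gluing of a family of tangent vectors on the affine line. -/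
theorem S5glue [IsAlgClosed k] [IsSeparated π] [LocallyOfFiniteType π] {n : ℕ} (p : Pt π k[X])
    (θ : Fin n → Pt π (DualNumber (RatFunc k)))
    (h : ∀ x : k, S5good (some x) (p.map (ratY k)) θ) :
    ∃ e : Fin n → Pt π (DualNumber k[X]), (∀ i, (e i).map (dfst k k[X]) = p) ∧
      (∀ i, (e i).map (dmap (ratY k)) = θ i) ∧
      ∀ x : k, IsTanBasis (p.map (evk x)) (fun i => (e i).map (dmap (evk x))) := by
  have hcod : ∀ (x : k) (W : EChart π n) (f : W.B →ₐ[k] RatFunc k)
      (δ : Fin n → W.B →ₐ[k] DualNumber (RatFunc k)) (M : Matrix (Fin n) (Fin n) (RatFunc k))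
      (hf : ∀ b, f b ∈ regAt (some x)), (∀ i b, (δ i b).fst = f b) →
      (∀ i j, (δ i (W.z j)).snd = M j i) → (∀ i j, M i j ∈ regAt (some x)) →
      ∀ i, ∃ δA : W.B →ₐ[k] DualNumber (J1c_rA (some x)),
        (dmap (J1c_rA (some x)).val).comp δA = δ i ∧
        ∀ b, (δA b).fst = f.codRestrict (J1c_rA (some x)) hf b := by
    intro x W f δ M hf hδ hM hMr i
    refine S5cod (J1c_rA (some x)) W f hf (δ i) (hδ i) fun j => ?_
    rw [hM]
    exact hMr j i
  have key : ∀ i, ∃ Θ : Pt π (DualNumber k[X]), Θ.map (dfst k k[X]) = p ∧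
      Θ.map (dmap (IsScalarTower.toAlgHom k k[X] (RatFunc k))) = θ i := by
    intro i
    refine glue_dual p (θ i) ?_ ?_
    · obtain ⟨W, f, δ, M, N, hf, hp, hδ, hθ, -⟩ := h 0
      rw [← S5ratY, hp, hθ i, Pt.map_map]
      congr 1
      ext b : 1
      exact hδ i b
    · intro q hq
      obtain ⟨x, hx⟩ : ∃ x : k, ∀ c : k[X], c.eval x ≠ 0 → c ∉ q := by
        by_cases h0 : q = ⊥
        · refine ⟨0, fun c hc hcq => hc ?_⟩
          rw [h0, Ideal.mem_bot] at hcq
          rw [hcq, eval_zero]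
        · obtain ⟨x, hx⟩ := S5prime q hq h0
          refine ⟨x, fun c hc hcq => hq.ne_top ?_⟩
          obtain ⟨r, hr⟩ : X - C x ∣ c - C (c.eval x) := by
            rw [dvd_iff_isRoot, IsRoot.def, eval_sub, eval_C, sub_self]
          have h1 : C (c.eval x) ∈ q := by
            have h2 : C (c.eval x) = c - (X - C x) * r := by rw [← hr]; ring
            rw [h2]
            exact q.sub_mem hcq (q.mul_mem_right _ hx)
          exact q.eq_top_of_isUnit_mem h1 (Polynomial.isUnit_C.2 (isUnit_iff_ne_zero.2 hc))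
      obtain ⟨W, f, δ, M, N, hf, hp, hδ, hθ, hM, hMr, -⟩ := h x
      obtain ⟨δA, h1, h2⟩ := hcod x W f δ M hf hδ hM hMr i
      refine ⟨W.toChart, δ i, hθ i, fun b => ?_, fun b => ?_⟩
      · rw [hδ]
        obtain ⟨a, c, hc, hac⟩ := hf b
        exact ⟨a, c, hx c hc, hac⟩
      · rw [← h1, AlgHom.comp_apply, dmap_snd]
        obtain ⟨a, c, hc, hac⟩ := (δA b).snd.2
        exact ⟨a, c, hx c hc, hac⟩
  choose e he1 he2 using key
  have he2' : ∀ i, (e i).map (dmap (ratY k)) = θ i := by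
    intro i
    rw [S5ratY]
    exact he2 i
  refine ⟨e, he1, he2', fun x => ?_⟩
  obtain ⟨W, f, δ, M, N, hf, hp, hδ, hθ, hM, hMr, hNr, hMN⟩ := h x
  choose δA h1 h2 using hcod x W f δ M hf hδ hM hMr
  obtain ⟨ρ, hρ⟩ := J1c_residue (k := k) (some x)
  let A := J1c_rA (k := k) (some x)
  let cA : k[X] →ₐ[k] A := aeval ⟨J1c_u (some x), J1c_u_mem (some x)⟩
  have hcA : A.val.comp cA = ratY k := by
    apply Polynomial.algHom_ext
    rw [AlgHom.comp_apply]
    have h3 : cA X = ⟨J1c_u (some x), J1c_u_mem (some x)⟩ := aeval_X _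
    rw [h3]
    exact (aeval_X _).symm
  have hρc : ρ.comp cA = evk x := by
    apply Polynomial.algHom_ext
    rw [AlgHom.comp_apply]
    have h3 : cA X = ⟨J1c_u (some x), J1c_u_mem (some x)⟩ := aeval_X _
    rw [h3, J1c_u_residue (some x) ρ hρ]
    exact (aeval_X _).symm
  have he3 : ∀ i, (e i).map (dmap cA) = W.pt.map (δA i) := by
    intro i
    apply Pt.dual_injective A.val Subtype.val_injective
    rw [Pt.map_map, Pt.map_map, h1 i, ← hθ i, ← he2' i, ← hcA]
    congr 1
    apply AlgHom.ext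
    intro b
    apply TrivSqZeroExt.ext <;> simp
  have he4 : ∀ i, (e i).map (dmap (evk x)) = W.pt.map ((dmap ρ).comp (δA i)) := by
    intro i
    rw [← Pt.map_map, ← he3, Pt.map_map, ← hρc]
    congr 1
    apply AlgHom.ext
    intro b
    apply TrivSqZeroExt.ext <;> simp
  have hp3 : p.map cA = W.pt.map (f.codRestrict A hf) := by
    apply Pt.map_injective A.val Subtype.val_injective
    rw [Pt.map_map, Pt.map_map, hcA, hp]
    rfl
  have hp4 : p.map (evk x) = W.pt.map (ρ.comp (f.codRestrict A hf)) := by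
    rw [← Pt.map_map, ← hp3, Pt.map_map, hρc]
  rw [hp4]
  have he5 : (fun i => (e i).map (dmap (evk x))) =
      fun i => W.pt.map ((dmap ρ).comp (δA i)) := funext he4
  rw [he5]
  rw [isTanBasis_iff W (ρ.comp (f.codRestrict A hf)) (fun i => (dmap ρ).comp (δA i)) (by
    intro i b
    rw [AlgHom.comp_apply, dmap_fst, h2]
    rfl)]
  obtain ⟨MA, hMA⟩ : ∃ MA : Matrix (Fin n) (Fin n) A, ∀ i j, (MA i j : RatFunc k) = M i j :=
    ⟨fun i j => ⟨M i j, hMr i j⟩, fun i j => rfl⟩
  obtain ⟨NA, hNA⟩ : ∃ NA : Matrix (Fin n) (Fin n) A, ∀ i j, (NA i j : RatFunc k) = N i j :=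
    ⟨fun i j => ⟨N i j, hNr i j⟩, fun i j => rfl⟩
  have hMNA : MA * NA = 1 := by
    refine Matrix.ext fun i j => Subtype.ext ?_
    have h3 := congrFun (congrFun hMN i) j
    rw [Matrix.mul_apply] at h3 ⊢
    have h4 : ((∑ l, MA i l * NA l j : A) : RatFunc k) = ∑ l, M i l * N l j := by
      push_cast
      refine Finset.sum_congr rfl fun l _ => ?_
      rw [hMA, hNA]
    rw [h4, h3, Matrix.one_apply, Matrix.one_apply]
    split_ifs <;> rfl
  have hdet : MA.det * NA.det = 1 := by rw [← Matrix.det_mul, hMNA, Matrix.det_one]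
  have hmat : (Matrix.of fun i j => (((dmap ρ).comp (δA i)) (W.z j)).snd) =
      (ρ.mapMatrix MA).transpose := by
    refine Matrix.ext fun i j => ?_
    rw [Matrix.of_apply, AlgHom.comp_apply, dmap_snd, Matrix.transpose_apply,
      AlgHom.mapMatrix_apply, Matrix.map_apply]
    congr 1
    apply Subtype.ext
    rw [hMA, ← hM, ← h1 i, AlgHom.comp_apply, dmap_snd]
    rfl
  rw [hmat, Matrix.det_transpose]
  intro h0
  have h5 : ρ MA.det = 0 := by
    rw [← h0]
    exact (AlgHom.map_det ρ MA)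
  have h6 := congrArg ρ hdet
  rw [map_mul, h5, zero_mul, map_one] at h6
  exact zero_ne_one h6


/-! ## The automorphism `y ↦ 1 / y` -/

theorem S5pol (p : k[X]) : polR p = aeval (polR (X : k[X])) p := by
  have h3 : (IsScalarTower.toAlgHom k k[X] (RatFunc k)) = aeval (polR (X : k[X])) := by
    apply Polynomial.algHom_ext
    exact (aeval_X _).symm
  exact congrArg (fun e : k[X] →ₐ[k] RatFunc k => e p) h3

theorem S5iota (k : Type u) [Field k] : ∃ ι : RatFunc k →ₐ[k] RatFunc k,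
    (∀ p : k[X], ι (polR p) = aeval (polR (X : k[X]))⁻¹ p) ∧ ∀ g, ι (ι g) = g := by
  have hX : polR (X : k[X]) ≠ 0 := Dne X_ne_zero
  have hφ : Function.Injective (aeval (R := k) (polR (X : k[X]))⁻¹ : k[X] →ₐ[k] RatFunc k) := by
    rw [injective_iff_map_eq_zero]
    intro p hp
    let _ : Invertible (polR (X : k[X]))⁻¹ := invertibleOfNonzero (inv_ne_zero hX)
    have h1 := (Polynomial.eval₂_reverse_eq_zero_iff (algebraMap k (RatFunc k))
      (polR (X : k[X]))⁻¹ p).2 hp
    rw [invOf_eq_inv, inv_inv] at h1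
    have h2 : polR (reverse p) = 0 := (S5pol _).trans h1
    have h3 : reverse p = 0 := by
      by_contra hne
      exact Dne hne h2
    exact Polynomial.reverse_eq_zero.1 h3
  have hφ' : nonZeroDivisors k[X] ≤ Submonoid.comap
      (aeval (R := k) (polR (X : k[X]))⁻¹ : k[X] →ₐ[k] RatFunc k) (nonZeroDivisors (RatFunc k)) :=
    nonZeroDivisors_le_comap_nonZeroDivisors_of_injective _ hφ
  obtain ⟨ι, hι⟩ : ∃ ι : RatFunc k →ₐ[k] RatFunc k,
      ∀ p : k[X], ι (polR p) = aeval (polR (X : k[X]))⁻¹ p := by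
    refine ⟨RatFunc.liftAlgHom _ hφ', fun p => ?_⟩
    have h := RatFunc.liftAlgHom_apply_div' (φ := aeval (R := k) (polR (X : k[X]))⁻¹)
      (hφ := hφ') p 1
    simp only [map_one, div_one] at h
    exact h
  refine ⟨ι, hι, fun g => ?_⟩
  have hιX : ι (polR (X : k[X]))⁻¹ = polR X := by
    rw [map_inv₀, hι, aeval_X, inv_inv]
  have hpol : ∀ p : k[X], ι (ι (polR p)) = polR p := by
    intro p
    rw [hι, ← Polynomial.aeval_algHom_apply, hιX]
    exact (S5pol p).symm
  obtain ⟨p, q, hq, h⟩ := Dfrac g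
  have h1 : ι (ι g) * polR q = polR p := by
    rw [← hpol q, ← map_mul, ← map_mul, h, hpol]
  have h2 := Dne hq
  exact mul_right_cancel₀ h2 (h1.trans h.symm)

open Classical in
/-- the action of the automorphism on the points of the line -/
noncomputable def S5sw : Option k → Option k
  | none => some 0
  | some x => if x = 0 then none else some x⁻¹

theorem S5sw_reg_none (ι : RatFunc k →ₐ[k] RatFunc k)
    (hι : ∀ p : k[X], ι (polR p) = aeval (polR (X : k[X]))⁻¹ p) (g : RatFunc k)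
    (hg : g ∈ regAt (none : Option k)) : ι g ∈ regAt (some (0 : k)) := by
  have hX : polR (X : k[X]) ≠ 0 := Dne X_ne_zero
  obtain ⟨p, q, hq, hd, h⟩ := hg
  let _ : Invertible (polR (X : k[X]))⁻¹ := invertibleOfNonzero (inv_ne_zero hX)
  have key : ∀ f : k[X], f.natDegree ≤ q.natDegree →
      polR (reflect q.natDegree f) * ((polR (X : k[X]))⁻¹) ^ q.natDegree = ι (polR f) := by
    intro f hf
    have h1 := Polynomial.eval₂_reflect_mul_pow (algebraMap k (RatFunc k))
      (polR (X : k[X]))⁻¹ q.natDegree f hf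
    rw [invOf_eq_inv, inv_inv] at h1
    rw [hι, S5pol]
    exact h1
  refine ⟨reflect q.natDegree p, reflect q.natDegree q, ?_, ?_⟩
  · rw [← coeff_zero_eq_eval_zero, coeff_reflect, revAt_le (Nat.zero_le _), Nat.sub_zero]
    exact leadingCoeff_ne_zero.2 hq
  · have h2 : ι g * ι (polR q) = ι (polR p) := by rw [← map_mul, h]
    rw [← key q le_rfl, ← key p hd, ← mul_assoc] at h2
    exact mul_right_cancel₀ (pow_ne_zero _ (inv_ne_zero hX)) h2

theorem S5sw_reg_some (ι : RatFunc k →ₐ[k] RatFunc k)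
    (hι : ∀ p : k[X], ι (polR p) = aeval (polR (X : k[X]))⁻¹ p) (x : k) (g : RatFunc k)
    (hg : g ∈ regAt (some x)) : ι g ∈ regAt (S5sw (some x)) := by
  have hX : polR (X : k[X]) ≠ 0 := Dne X_ne_zero
  obtain ⟨s', hs'⟩ : ∃ s', s' = S5sw (some x) := ⟨_, rfl⟩
  rw [← hs']
  obtain ⟨ρ, hρ⟩ := J1c_residue (k := k) s'
  obtain ⟨u, hu, hρu⟩ : ∃ u : J1c_rA s', (u : RatFunc k) = (polR (X : k[X]))⁻¹ ∧ ρ u = x := by
    by_cases hx : x = 0
    · have h1 : s' = none := by rw [hs', S5sw, if_pos hx]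
      subst h1
      refine ⟨⟨J1c_u none, J1c_u_mem none⟩, rfl, ?_⟩
      rw [J1c_u_residue none ρ hρ, hx]
      rfl
    · have h1 : s' = some x⁻¹ := by rw [hs', S5sw, if_neg hx]
      subst h1
      have hmem : (polR (X : k[X]))⁻¹ ∈ J1c_rA (some x⁻¹) := by
        refine ⟨1, X, ?_, ?_⟩
        · rw [eval_X]; exact inv_ne_zero hx
        · rw [map_one, inv_mul_cancel₀ hX]
      refine ⟨⟨_, hmem⟩, rfl, ?_⟩
      have h2 : (⟨_, hmem⟩ : J1c_rA (some x⁻¹)) * ⟨J1c_u (some x⁻¹), J1c_u_mem (some x⁻¹)⟩ = 1 :=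
        Subtype.ext (inv_mul_cancel₀ hX)
      have h3 := congrArg ρ h2
      rw [map_mul, map_one, J1c_u_residue (some x⁻¹) ρ hρ] at h3
      exact (mul_inv_eq_one₀ hx).1 h3
  have hval : ∀ f : k[X], ι (polR f) = ((aeval u f : J1c_rA s') : RatFunc k) := by
    intro f
    rw [hι, ← hu]
    exact (Polynomial.aeval_algHom_apply (J1c_rA s').val u f)
  obtain ⟨p, q, hq, h⟩ := hg
  have hun : IsUnit (aeval u q : J1c_rA s') := by
    apply J1c_isUnit s' ρ hρ
    rw [← Polynomial.aeval_algHom_apply, hρu]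
    exact hq
  obtain ⟨w, hw⟩ := hun.exists_right_inv
  have h2 : ι g * ((aeval u q : J1c_rA s') : RatFunc k) = ((aeval u p : J1c_rA s') : RatFunc k) := by
    rw [← hval, ← hval, ← map_mul, h]
  have h3 : ι g = ((aeval u p * w : J1c_rA s') : RatFunc k) := by
    have h4 : ((aeval u q : J1c_rA s') : RatFunc k) * (w : RatFunc k) = 1 :=
      congrArg Subtype.val hw
    change ι g = ((aeval u p : J1c_rA s') : RatFunc k) * (w : RatFunc k)
    rw [← h2, mul_assoc, h4, mul_one]
  rw [h3]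
  exact (aeval u p * w : J1c_rA s').2

theorem S5sw_reg (ι : RatFunc k →ₐ[k] RatFunc k)
    (hι : ∀ p : k[X], ι (polR p) = aeval (polR (X : k[X]))⁻¹ p) (s : Option k) (g : RatFunc k)
    (hg : g ∈ regAt s) : ι g ∈ regAt (S5sw s) := by
  cases s with
  | none => exact S5sw_reg_none ι hι g hg
  | some x => exact S5sw_reg_some ι hι x g hg

theorem S5good.swap {n : ℕ} (ι : RatFunc k →ₐ[k] RatFunc k)
    (hι : ∀ p : k[X], ι (polR p) = aeval (polR (X : k[X]))⁻¹ p) {s : Option k}
    {p : Pt π (RatFunc k)} {θ : Fin n → Pt π (DualNumber (RatFunc k))} (h : S5good s p θ) :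
    S5good (S5sw s) (p.map ι) (fun i => (θ i).map (dmap ι)) := by
  obtain ⟨W, f, δ, M, N, hf, hp, hδ, hθ, hM, hMr, hNr, hMN⟩ := h
  refine ⟨W, ι.comp f, fun i => (dmap ι).comp (δ i), M.map ι, N.map ι,
    fun b => S5sw_reg ι hι s _ (hf b), ?_, ?_, ?_, ?_, ?_, ?_, ?_⟩
  · rw [hp, Pt.map_map]
  · intro i b
    rw [AlgHom.comp_apply, dmap_fst, hδ]
    rfl
  · intro i
    change (θ i).map (dmap ι) = W.pt.map ((dmap ι).comp (δ i))
    rw [hθ, Pt.map_map]
  · intro i j
    rw [AlgHom.comp_apply, dmap_snd, hM]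
    rfl
  · intro i j
    exact S5sw_reg ι hι s _ (hMr i j)
  · intro i j
    exact S5sw_reg ι hι s _ (hNr i j)
  · have h1 := congrArg (fun m => m.map ι) hMN
    simp only [Matrix.map_mul] at h1
    rw [h1]
    exact Matrix.map_one _ (map_zero ι) (map_one ι)

theorem S5good.scale {n : ℕ} {s : Option k}
    {p : Pt π (RatFunc k)} {θ : Fin n → Pt π (DualNumber (RatFunc k))} (h : S5good s p θ)
    (r r' : Fin n → RatFunc k) (hr : ∀ i, r i ∈ regAt s) (hr' : ∀ i, r' i ∈ regAt s)
    (hrr : ∀ i, r i * r' i = 1) :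
    S5good s p (fun i => (θ i).map (scl k (r i))) := by
  classical
  obtain ⟨W, f, δ, M, N, hf, hp, hδ, hθ, hM, hMr, hNr, hMN⟩ := h
  refine ⟨W, f, fun i => (scl k (r i)).comp (δ i), M * Matrix.diagonal r,
    Matrix.diagonal r' * N, hf, hp, ?_, ?_, ?_, ?_, ?_, ?_⟩
  · intro i b
    rw [AlgHom.comp_apply, scl_fst, hδ]
  · intro i
    change (θ i).map (scl k (r i)) = W.pt.map ((scl k (r i)).comp (δ i))
    rw [hθ, Pt.map_map]
  · intro i j
    rw [AlgHom.comp_apply, scl_snd, hM, Matrix.mul_diagonal, mul_comm]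
  · intro i j
    rw [Matrix.mul_diagonal]
    exact (regAt s).mul_mem (hMr i j) (hr j)
  · intro i j
    rw [Matrix.diagonal_mul]
    exact (regAt s).mul_mem (hr' i) (hNr i j)
  · rw [Matrix.mul_assoc, ← Matrix.mul_assoc (Matrix.diagonal r), Matrix.diagonal_mul_diagonal]
    have h1 : (Matrix.diagonal fun i => r i * r' i) = (1 : Matrix (Fin n) (Fin n) (RatFunc k)) := by
      rw [← Matrix.diagonal_one]
      congr 1
      exact funext hrr
    rw [h1, Matrix.one_mul, hMN]

theorem S5lau_injective : Function.Injective (J_lau k) := by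
  rw [injective_iff_map_eq_zero]
  intro f hf
  obtain ⟨n, p, hp⟩ := LaurentPolynomial.exists_T_pow f
  have h1 : J_lau k (toLaurent p) = polR p := by
    have h2 : ((J_lau k).comp (toLaurentAlg (R := k) : k[X] →ₐ[k] LaurentPolynomial k)) =
        IsScalarTower.toAlgHom k k[X] (RatFunc k) := by
      apply Polynomial.algHom_ext
      rw [AlgHom.comp_apply]
      change J_lau k (toLaurent X) = _
      rw [toLaurent_X, J_lau_T, zpow_one]
      rfl
    exact congrArg (fun e : k[X] →ₐ[k] RatFunc k => e p) h2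
  rw [hp, map_mul, hf, zero_mul] at h1
  have h3 : p = 0 := by
    by_contra hne
    exact Dne hne h1.symm
  rw [h3, map_zero] at hp
  have h4 : f * LaurentPolynomial.T n = 0 := hp.symm
  have h5 : f * LaurentPolynomial.T n * LaurentPolynomial.T (-n) = 0 := by rw [h4, zero_mul]
  rwa [mul_assoc, ← LaurentPolynomial.T_add, add_neg_cancel, LaurentPolynomial.T_zero, mul_one]
    at h5

/-! ## The splitting -/

theorem S5regOff_le {S : Finset k} {x : k} (hx : x ∉ S) {g : RatFunc k} (hg : g ∈ regOff S) :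
    g ∈ regAt (some x) := by
  obtain ⟨p, N, h⟩ := hg
  refine ⟨p, (∏ s ∈ S, (X - C s)) ^ N, ?_, ?_⟩
  · rw [eval_pow, eval_prod]
    refine pow_ne_zero _ (Finset.prod_ne_zero_iff.2 fun s hs => ?_)
    rw [eval_sub, eval_X, eval_C]
    intro h0
    exact hx (by rwa [sub_eq_zero.1 h0])
  · rw [map_pow]; exact h

theorem S5zpow_mem {x : k} (hx : x ≠ 0) (m : ℤ) : (polR (X : k[X])) ^ m ∈ regAt (some x) := by
  have hX : polR (X : k[X]) ≠ 0 := Dne X_ne_zero
  cases m with
  | ofNat m =>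
    rw [Int.ofNat_eq_natCast, zpow_natCast]
    exact (regAt (some x)).pow_mem (polR_mem_regFin x X) m
  | negSucc m =>
    rw [zpow_negSucc]
    refine ⟨1, X ^ (m + 1), ?_, ?_⟩
    · rw [eval_pow, eval_X]
      exact pow_ne_zero _ hx
    · rw [map_one, map_pow]
      exact inv_mul_cancel₀ (pow_ne_zero _ hX)

theorem S5dmap_scl {R R' : Type u} [CommRing R] [Algebra k R] [CommRing R'] [Algebra k R']
    (φ : R →ₐ[k] R') (r : R) : (dmap φ).comp (scl k r) = (scl k (φ r)).comp (dmap φ) := by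
  apply AlgHom.ext
  intro b
  apply TrivSqZeroExt.ext <;> simp

theorem S5dmap_dmap {R R' R'' : Type u} [CommRing R] [Algebra k R] [CommRing R'] [Algebra k R']
    [CommRing R''] [Algebra k R''] (φ : R →ₐ[k] R') (ψ : R' →ₐ[k] R'') :
    (dmap ψ).comp (dmap φ) = dmap (ψ.comp φ) := by
  apply AlgHom.ext
  intro b
  apply TrivSqZeroExt.ext <;> simp

theorem S5scl_scl {R : Type u} [CommRing R] [Algebra k R] (r r' : R) (h : r * r' = 1) :
    (scl k r).comp (scl k r') = AlgHom.id k (DualNumber R) := by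
  apply AlgHom.ext
  intro b
  apply TrivSqZeroExt.ext
  · simp
  · simp [← mul_assoc, h]

/-- The theorem of Birkhoff and Grothendieck for `F^* T_V`, with the determinants of `J`. -/
theorem S5split [IsAlgClosed k] {n : ℕ} [SmoothOfRelativeDimension n π] [IsSeparated π]
    (F : Crv π k) (D : LocData π n k) (hD : D.Of F) :
    ∃ (J : Option k → Matrix (Fin n) (Fin n) (RatFunc k)) (a : Fin n → ℤ)
      (G : Matrix (Fin n) (Fin n) (RatFunc k)), IsSplit F a ∧ G.det ≠ 0 ∧
      (∀ s, InS D.S s → (J s).det ≠ 0) ∧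
      (∀ i j, G⁻¹ i j ∈ regOff D.S) ∧ (∀ s ∈ D.S, ∀ i j, (J (some s) * G)⁻¹ i j ∈ regAt (some s)) ∧
      (∀ i j, (J none * G * Matrix.diagonal fun i => (unif (none : Option k)) ^ (-(a i)))⁻¹ i j ∈
        regAt (none : Option k)) ∧
      ∀ s, InS D.S s → ∀ σ : Sec D, (fun j => (σ.δ s ((D.W s).z j)).snd) =
        (J s).mulVec (fun j => (σ.δ1 (D.W1.z j)).snd) := by
  classical
  have hsm : Smooth π := SmoothOfRelativeDimension.smooth n π
  obtain ⟨J, hJ⟩ := exists_jac D
  obtain ⟨a, G, hG, hG1, hG2, hG3, hG4, hG5⟩ := birkhoff D.S J fun s hs => (hJ s hs).1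
  have hnone : InS D.S none := fun a ha => by simp at ha
  have hX : polR (X : k[X]) ≠ 0 := Dne X_ne_zero
  refine ⟨J, a, G, ?_, hG, fun s hs => (hJ s hs).1, hG2, fun s hs => (hG3 s hs).2, hG5, ?_⟩
  swap
  · intro s hs σ
    obtain ⟨δ, h1, h2, h3⟩ := (hJ s hs).2 σ.δ1 σ.h1
    have h4 : δ = σ.δ s := by
      apply (D.W s).toChart.map_injective
      rw [h2, σ.same s hs]
    rw [← h4]
    exact h3
  -- the generic family
  choose δ hδ1 hδ2 using fun i : Fin n =>
    (etale_dual D.W1.z D.W1.et D.f1 (fun j => G j i)).exists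
  let p : Pt π (RatFunc k) := D.W1.pt.map D.f1
  let θ : Fin n → Pt π (DualNumber (RatFunc k)) := fun i => D.W1.pt.map (δ i)
  have hmul : ∀ (A B : Matrix (Fin n) (Fin n) (RatFunc k)), A.det ≠ 0 → A = B → A * B⁻¹ = 1 := by
    intro A B hA hAB
    rw [← hAB]
    exact Matrix.mul_nonsing_inv _ (isUnit_iff_ne_zero.2 hA)
  have hchart : ∀ s, InS D.S s → ∀ i, ∃ δs : (D.W s).B →ₐ[k] DualNumber (RatFunc k),
      (∀ b, (δs b).fst = D.f s b) ∧ (D.W s).pt.map δs = θ i ∧
      ∀ j, (δs ((D.W s).z j)).snd = (J s * G) j i := by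
    intro s hs i
    obtain ⟨δs, h1, h2, h3⟩ := (hJ s hs).2 (δ i) (hδ1 i)
    refine ⟨δs, h1, h2, fun j => ?_⟩
    have h4 := congrFun h3 j
    rw [h4, Matrix.mul_apply]
    change ∑ l, J s j l * (δ i (D.W1.z l)).snd = _
    refine Finset.sum_congr rfl fun l _ => ?_
    rw [hδ2]
  -- the family is a basis at the points of the `y`-line
  have hgood : ∀ x : k, S5good (some x) p θ := by
    intro x
    by_cases hx : x ∈ D.S
    · have hs : InS D.S (some x) := fun b hb => by rw [← Option.some.inj hb]; exact hx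
      choose δs h1 h2 h3 using hchart (some x) hs
      refine ⟨D.W (some x), D.f (some x), δs, J (some x) * G, (J (some x) * G)⁻¹,
        D.hf (some x) hs, (D.same (some x) hs).symm, h1, fun i => (h2 i).symm,
        fun i j => h3 i j, (hG3 x hx).1, (hG3 x hx).2, hmul _ _ ?_ rfl⟩
      rw [Matrix.det_mul]
      exact mul_ne_zero (hJ _ hs).1 hG
    · refine ⟨D.W1, D.f1, δ, G, G⁻¹, fun b => S5regOff_le hx (D.hf1 b), rfl, hδ1, fun i => rfl,
        fun i j => hδ2 i j, fun i j => S5regOff_le hx (hG1 i j),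
        fun i j => S5regOff_le hx (hG2 i j), hmul _ _ hG rfl⟩
  let u : Fin n → RatFunc k := fun i => (unif (none : Option k)) ^ (-(a i))
  have hu : ∀ i, u i = (polR (X : k[X])) ^ (a i) := by
    intro i
    change ((polR (X : k[X]))⁻¹) ^ (-(a i)) = _
    rw [inv_zpow', neg_neg]
  let θ' : Fin n → Pt π (DualNumber (RatFunc k)) := fun i => (θ i).map (scl k (u i))
  have hgoodinf : S5good none p θ' := by
    choose δs h1 h2 h3 using hchart none hnone
    refine ⟨D.W none, D.f none, fun i => (scl k (u i)).comp (δs i), J none * G * Matrix.diagonal u,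
      (J none * G * Matrix.diagonal u)⁻¹, D.hf none hnone, (D.same none hnone).symm, ?_, ?_, ?_,
      hG4, hG5, hmul _ _ ?_ rfl⟩
    · intro i b
      rw [AlgHom.comp_apply, scl_fst, h1]
    · intro i
      change (θ i).map (scl k (u i)) = _
      rw [← h2, Pt.map_map]
    · intro i j
      rw [AlgHom.comp_apply, scl_snd, h3, Matrix.mul_diagonal, mul_comm]
    · rw [Matrix.det_mul, Matrix.det_mul, Matrix.det_diagonal]
      refine mul_ne_zero (mul_ne_zero (hJ _ hnone).1 hG) (Finset.prod_ne_zero_iff.2 fun i _ => ?_)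
      exact zpow_ne_zero _ (unif_ne_zero _)
  have hgood' : ∀ x : k, x ≠ 0 → S5good (some x) p θ' := by
    intro x hx
    refine (hgood x).scale u (fun i => (polR (X : k[X])) ^ (-(a i))) ?_ ?_ ?_
    · intro i
      rw [hu]
      exact S5zpow_mem hx _
    · intro i
      exact S5zpow_mem hx _
    · intro i
      rw [hu, ← zpow_add₀ hX, add_neg_cancel, zpow_zero]
  obtain ⟨ι, hι, hιι⟩ := S5iota k
  have hιX : ι (polR (X : k[X]))⁻¹ = polR X := by
    rw [map_inv₀, hι, aeval_X, inv_inv]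
  have hιW : ι.comp (ratW k) = ratY k := by
    apply Polynomial.algHom_ext
    rw [AlgHom.comp_apply]
    have h1 : ratW k X = (polR (X : k[X]))⁻¹ := aeval_X _
    rw [h1, hιX]
    exact (aeval_X _).symm
  have hιY : ι.comp (ratY k) = ratW k := by
    apply Polynomial.algHom_ext
    rw [AlgHom.comp_apply]
    have h1 : ratY k X = polR (X : k[X]) := aeval_X _
    have h2 : ratW k X = (polR (X : k[X]))⁻¹ := aeval_X _
    rw [h1, h2, hι, aeval_X]
  have hpY : F.y.map (ratY k) = p := hD.hy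
  have hpW : F.w.map (ratW k) = p := hD.hw
  obtain ⟨e, he1, he2, he3⟩ := S5glue F.y θ (by rw [hpY]; exact hgood)
  obtain ⟨e', he1', he2', he3'⟩ := S5glue F.w (fun i => (θ' i).map (dmap ι)) (by
    have h1 : F.w.map (ratY k) = p.map ι := by rw [← hpW, Pt.map_map, hιW]
    rw [h1]
    intro x
    by_cases hx : x = 0
    · have h2 := hgoodinf.swap ι hι
      rw [hx]
      exact h2
    · have h2 := (hgood' x⁻¹ (inv_ne_zero hx)).swap ι hι
      have h3 : S5sw (some x⁻¹) = some x := by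
        rw [S5sw, if_neg (inv_ne_zero hx), inv_inv]
      rw [h3] at h2
      exact h2)
  refine ⟨e, e', he1, he1', fun i => ?_, he3, he3'⟩
  apply Pt.dual_injective (J_lau k) S5lau_injective
  have h1 : ((e i).map (dmap (lauY k k))).map (dmap (J_lau k)) = θ i := by
    rw [Pt.map_map, S5dmap_dmap, J_lauY, he2]
  have h2 : ((e' i).map (dmap (lauW k k))).map (dmap (J_lau k)) = θ' i := by
    rw [Pt.map_map, S5dmap_dmap, J_lauW, ← hιY, ← S5dmap_dmap, ← Pt.map_map, he2', Pt.map_map,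
      S5dmap_dmap]
    have h3 : ι.comp ι = AlgHom.id k _ := AlgHom.ext hιι
    rw [h3]
    have h4 : dmap (AlgHom.id k (RatFunc k)) = AlgHom.id k (DualNumber (RatFunc k)) := by
      apply AlgHom.ext
      intro b
      apply TrivSqZeroExt.ext <;> simp
    rw [h4, Pt.map_id]
  rw [h1, Pt.map_map, S5dmap_scl, ← Pt.map_map, h2]
  change θ i = ((θ i).map (scl k (u i))).map _
  rw [Pt.map_map]
  have h5 : J_lau k (LaurentPolynomial.T (-(a i))) * u i = 1 := by
    rw [J_lau_T, hu]
    have h6 : ((Units.mk0 _ (J_polX_ne (k := k)) ^ (-(a i)) : (RatFunc k)ˣ) : RatFunc k) =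
        (polR (X : k[X])) ^ (-(a i)) := by
      rw [Units.val_zpow_eq_zpow_val]
      rfl
    rw [h6, ← zpow_add₀ hX, neg_add_cancel, zpow_zero]
  rw [S5scl_scl _ _ h5, Pt.map_id]

/-- The theorem of Birkhoff and Grothendieck for `F^* T_V`. (With chart data `D` for `F` such that
`0 ∈ D.S`, the Jacobian matrices `J`, and `G` and `a` from `birkhoff`; the tangent field `e i` on
the `y`-line is given by the `i`-th column of `G` as coordinates with respect to `D.W1.z`, and
`e' i = w ^ (- a i) • e i` on the `w`-line, by `glue_dual`; they are bases at each point by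
`isTanBasis_iff`.) The last clause says that `e i` has these coordinates. -/
theorem exists_split [IsAlgClosed k] {n : ℕ} [SmoothOfRelativeDimension n π] [IsSeparated π]
    (F : Crv π k) (D : LocData π n k) (hD : D.Of F) (h0 : (0 : k) ∈ D.S) :
    ∃ (J : Option k → Matrix (Fin n) (Fin n) (RatFunc k)) (a : Fin n → ℤ)
      (G : Matrix (Fin n) (Fin n) (RatFunc k)), IsSplit F a ∧ G.det ≠ 0 ∧
      (∀ i j, G⁻¹ i j ∈ regOff D.S) ∧ (∀ s ∈ D.S, ∀ i j, (J (some s) * G)⁻¹ i j ∈ regAt (some s)) ∧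
      (∀ i j, (J none * G * Matrix.diagonal fun i => (unif (none : Option k)) ^ (-(a i)))⁻¹ i j ∈
        regAt (none : Option k)) ∧
      ∀ s, InS D.S s → ∀ σ : Sec D, (fun j => (σ.δ s ((D.W s).z j)).snd) =
        (J s).mulVec (fun j => (σ.δ1 (D.W1.z j)).snd) := by
  obtain ⟨J, a, G, h1, h2, -, h3⟩ := S5split F D hD
  exact ⟨J, a, G, h1, h2, h3⟩

theorem S5pow_one {R : Type u} [CommRing R] [Algebra k R] (F : Crv π R) : F.pow 1 = F := by
  have h : powX k R 1 = AlgHom.id k R[X] := by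
    apply J1ext
    · intro a
      rw [J1powX_C]
      rfl
    · rw [J1powX_X, pow_one]
      rfl
  apply Crv.ext
  · change F.y.map (powX k R 1) = F.y
    rw [h, Pt.map_id]
  · change F.w.map (powX k R 1) = F.w
    rw [h, Pt.map_id]

/-- A rational function which is regular on the affine line and vanishes at infinity is zero. -/
theorem S5zero [IsAlgClosed k] (g : RatFunc k) (h : ∀ x : k, g ∈ regAt (some x))
    (h1 : Van none 1 g) : g = 0 := by
  have hdeg : g.denom.degree = 0 := by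
    by_contra hne
    obtain ⟨x, hx⟩ := IsAlgClosed.exists_root g.denom hne
    obtain ⟨p, q, hq, hpq⟩ := h x
    have h2 : polR g.denom ≠ 0 := Dne g.denom_ne_zero
    have h3 : polR (g.num * q) = polR (p * g.denom) := by
      rw [map_mul, map_mul, ← hpq]
      have h4 := RatFunc.num_div_denom g
      rw [div_eq_iff h2] at h4
      change algebraMap k[X] (RatFunc k) g.num * _ = _
      rw [h4]
      ring
    have h4 := congrArg (Polynomial.eval x) (Dinj h3)
    rw [eval_mul, eval_mul, hx, mul_zero] at h4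
    have h5 : g.num.eval x = 0 := (mul_eq_zero.1 h4).resolve_right hq
    obtain ⟨r, t, hrt⟩ := RatFunc.isCoprime_num_denom g
    have h6 := congrArg (Polynomial.eval x) hrt
    rw [eval_add, eval_mul, eval_mul, h5, hx, mul_zero, mul_zero, add_zero, eval_one] at h6
    exact zero_ne_one h6
  obtain ⟨c, hc⟩ : ∃ c : k, g.denom = C c := ⟨_, Polynomial.eq_C_of_degree_eq_zero hdeg⟩
  have hc0 : c ≠ 0 := by
    intro h0
    apply g.denom_ne_zero
    rw [hc, h0, C_0]
  have hg : g = polR (C c⁻¹ * g.num) := by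
    have h4 := RatFunc.num_div_denom g
    rw [hc, div_eq_iff (Dne (C_ne_zero.2 hc0))] at h4
    rw [map_mul]
    change g = polR (C c⁻¹) * algebraMap k[X] (RatFunc k) g.num
    rw [h4, mul_comm g, ← mul_assoc, ← map_mul, ← C_mul, inv_mul_cancel₀ hc0, C_1, map_one,
      one_mul]
  obtain ⟨r, hr⟩ : ∃ r : k[X], g = polR r := ⟨_, hg⟩
  by_contra hne
  have hr0 : r ≠ 0 := by
    rintro rfl
    rw [map_zero] at hr
    exact hne hr
  obtain ⟨p, q, hq, hd, hpq⟩ := h1
  change g * ((polR X)⁻¹ : RatFunc k) ^ (-1 : ℤ) * polR q = polR p at hpq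
  rw [zpow_neg, zpow_one, inv_inv, hr, ← map_mul, ← map_mul] at hpq
  have h2 := Dinj hpq
  rw [← h2, natDegree_mul (mul_ne_zero hr0 X_ne_zero) hq, natDegree_mul hr0 X_ne_zero,
    natDegree_X] at hd
  omega

/-- A very free curve has a splitting type with positive degrees. (With sections `ξ i : Sec D` which
vanish at infinity and form a basis at `0`, from `exists_sec` (or `exists_sec_pow` with `N = 1`) and
the definition of `IsVeryFree`: the coefficients of `ξ i` with respect to the columns of `G` are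
polynomials `c i j`, and `w ^ (a j) * c i j` vanishes at infinity; if `a j ≤ 0`, then `c i j = 0` for
all `i`, which contradicts the linear independence of the `ξ i`.) -/
theorem isSplit_of_isVeryFree [IsAlgClosed k] {n : ℕ} [SmoothOfRelativeDimension n π]
    [IsSeparated π] (F : Crv π k) (hF : IsVeryFree F) :
    ∃ a : Fin n → ℤ, (∀ i, 1 ≤ a i) ∧ IsSplit F a := by
  classical
  obtain ⟨D, hS0, hD⟩ := exists_locData (n := n) F {0}
  have h0 : (0 : k) ∈ D.S := hS0 (Finset.mem_singleton_self 0)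
  obtain ⟨ξ, hξ1, hξ2, -⟩ := exists_sections F hF D 1 le_rfl (by rw [S5pow_one]; exact hD) h0
  obtain ⟨J, a, G, hsplit, hG, hJ, hG2, hG3, hG5, hcoord⟩ := S5split F D hD
  refine ⟨a, ?_, hsplit⟩
  intro j
  by_contra hj
  have hnone : InS D.S none := fun a ha => by simp at ha
  let v : Fin n → Fin n → RatFunc k := fun i l => ((ξ i).δ1 (D.W1.z l)).snd
  let c : Fin n → Fin n → RatFunc k := fun i => G⁻¹.mulVec (v i)
  have hcancel : ∀ (A : Matrix (Fin n) (Fin n) (RatFunc k)) (x : Fin n → RatFunc k), A.det ≠ 0 →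
      A⁻¹.mulVec (A.mulVec x) = x := by
    intro A x hA
    rw [Matrix.mulVec_mulVec, Matrix.nonsing_inv_mul _ (isUnit_iff_ne_zero.2 hA),
      Matrix.one_mulVec]
  have hcancel' : ∀ (A : Matrix (Fin n) (Fin n) (RatFunc k)) (x : Fin n → RatFunc k), A.det ≠ 0 →
      A.mulVec (A⁻¹.mulVec x) = x := by
    intro A x hA
    rw [Matrix.mulVec_mulVec, Matrix.mul_nonsing_inv _ (isUnit_iff_ne_zero.2 hA),
      Matrix.one_mulVec]
  have hreg : ∀ i (x : k), c i j ∈ regAt (some x) := by
    intro i x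
    by_cases hx : x ∈ D.S
    · have hs : InS D.S (some x) := fun b hb => by rw [← Option.some.inj hb]; exact hx
      have h1 := hcoord (some x) hs (ξ i)
      let y := (J (some x) * G)⁻¹.mulVec ((J (some x)).mulVec (v i))
      have hdet : (J (some x) * G).det ≠ 0 := by
        rw [Matrix.det_mul]
        exact mul_ne_zero (hJ _ hs) hG
      have h2 : (J (some x) * G).mulVec y = (J (some x)).mulVec (v i) := hcancel' _ _ hdet
      rw [← Matrix.mulVec_mulVec] at h2
      have h3 : G.mulVec y = v i := by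
        rw [← hcancel (J (some x)) (G.mulVec y) (hJ _ hs), h2, hcancel _ _ (hJ _ hs)]
      have h4 : c i = y := by
        change G⁻¹.mulVec (v i) = y
        rw [← h3, hcancel _ _ hG]
      rw [h4]
      change ∑ l, (J (some x) * G)⁻¹ j l * ((J (some x)).mulVec (v i)) l ∈ regAt (some x)
      refine Subring.sum_mem _ fun l _ => (regAt (some x)).mul_mem (hG3 x hx j l) ?_
      rw [← h1]
      exact (ξ i).r (some x) hs _
    · refine S5regOff_le hx ?_
      change ∑ l, G⁻¹ j l * v i l ∈ regOff D.S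
      exact Subring.sum_mem _ fun l _ => (regOff D.S).mul_mem (hG2 j l) ((ξ i).r1 _)
  have hinf : ∀ i, Van none 1 (c i j) := by
    intro i
    have h1 := hcoord none hnone (ξ i)
    let u : Fin n → RatFunc k := fun i => (unif (none : Option k)) ^ (-(a i))
    let K := J none * G * Matrix.diagonal u
    let y := K⁻¹.mulVec ((J none).mulVec (v i))
    have hdet : K.det ≠ 0 := by
      change (J none * G * Matrix.diagonal u).det ≠ 0
      rw [Matrix.det_mul, Matrix.det_mul, Matrix.det_diagonal]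
      refine mul_ne_zero (mul_ne_zero (hJ _ hnone) hG) (Finset.prod_ne_zero_iff.2 fun i _ => ?_)
      exact zpow_ne_zero _ (unif_ne_zero _)
    have h2 : K.mulVec y = (J none).mulVec (v i) := hcancel' _ _ hdet
    change (J none * G * Matrix.diagonal u).mulVec y = _ at h2
    rw [← Matrix.mulVec_mulVec, ← Matrix.mulVec_mulVec] at h2
    have h3 : G.mulVec ((Matrix.diagonal u).mulVec y) = v i := by
      rw [← hcancel (J none) (G.mulVec ((Matrix.diagonal u).mulVec y)) (hJ _ hnone), h2,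
        hcancel _ _ (hJ _ hnone)]
    have h4 : c i = (Matrix.diagonal u).mulVec y := by
      change G⁻¹.mulVec (v i) = _
      rw [← h3, hcancel _ _ hG]
    have h5 : c i j = u j * y j := by
      rw [h4, Matrix.mulVec_diagonal]
    have h6 : Van none 1 (y j) := by
      change Van none 1 (∑ l, K⁻¹ j l * ((J none).mulVec (v i)) l)
      refine Finset.sum_induction _ (fun g => Van none 1 g) (fun a b ha hb => ha.add hb)
        (J2van_zero _ _) fun l _ => ?_
      refine Dvan_mul_reg ?_ (hG5 j l)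
      rw [← h1]
      have := hξ1 i ((D.W none).z l)
      exact_mod_cast this
    have h7 := (Dvan_pow (none : Option k) (-(a j))).mul h6
    rw [h5]
    exact h7.mono (by omega)
  have hzero : ∀ i, c i j = 0 := fun i => S5zero _ (hreg i) (hinf i)
  have hdet0 : (G⁻¹ * (Matrix.of v).transpose).det = 0 := by
    apply Matrix.det_eq_zero_of_row_eq_zero j
    intro i
    rw [Matrix.mul_apply]
    exact hzero i
  rw [Matrix.det_mul, Matrix.det_transpose] at hdet0
  rcases mul_eq_zero.1 hdet0 with h | h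
  · have h1 : G⁻¹ * G = 1 := Matrix.nonsing_inv_mul _ (isUnit_iff_ne_zero.2 hG)
    have h2 := congrArg Matrix.det h1
    rw [Matrix.det_mul, h, zero_mul, Matrix.det_one] at h2
    exact zero_ne_one h2
  · exact hξ2 h

end Pool.Agent.H19VF
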