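import Pool.Agent.H19VF.J1_Loc

/-! # The splitting type of the pull back of the tangent bundle (definitions)

For a point `p : Pt π R`, the module of sections of `p^* T_V` over `Spec R` is the set of the
`τ : Pt π R[ε]` which restrict to `p` (tangent fields along `p`). Linear combinations of tangent
fields are described by points over `R ⊕ R^n` (square zero extension). -/

set_option autoImplicit false

open AlgebraicGeometry CategoryTheory Polynomial

universe u

namespace Pool.Agent.H19VF

variable {k : Type u} [Field k] {V : Scheme.{u}} {π : V ⟶ Spec (.of k)}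

/-- The homomorphism `R ⊕ R^n → R[ε]`, `(r, x) ↦ r + (∑ c i * x i) ε`. -/
noncomputable def lin (k : Type u) [Field k] {R : Type u} [CommRing R] [Algebra k R] {n : ℕ}
    (c : Fin n → R) : TrivSqZeroExt R (Fin n → R) →ₐ[k] DualNumber R where
  toFun x := TrivSqZeroExt.inl x.fst + TrivSqZeroExt.inr (∑ i, c i * x.snd i)
  map_one' := by ext <;> simp
  map_mul' x y := by
    ext
    · simp
    · simp only [TrivSqZeroExt.fst_mul, TrivSqZeroExt.snd_mul, TrivSqZeroExt.snd_add,
        TrivSqZeroExt.snd_inl, TrivSqZeroExt.snd_inr, zero_add, TrivSqZeroExt.fst_add,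
        TrivSqZeroExt.fst_inl, TrivSqZeroExt.fst_inr, add_zero, Pi.add_apply, Pi.smul_apply,
        smul_eq_mul, MulOpposite.smul_eq_mul_unop, MulOpposite.unop_op, Finset.mul_sum,
        Finset.sum_mul]
      rw [← Finset.sum_add_distrib]
      refine Finset.sum_congr rfl fun i _ => by ring
  map_zero' := by ext <;> simp
  map_add' x y := by
    ext
    · simp
    · simp [mul_add, Finset.sum_add_distrib]
  commutes' r := by ext <;> simp [TrivSqZeroExt.algebraMap_eq_inl']

/-- The homomorphism `R ⊕ R^n → R`. -/
noncomputable abbrev nfst (k : Type u) [Field k] (R : Type u) [CommRing R] [Algebra k R] (n : ℕ) :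
    TrivSqZeroExt R (Fin n → R) →ₐ[k] R := TrivSqZeroExt.fstHom k R (Fin n → R)

/-- The homomorphism `R[ε] → R[ε]`, `ε ↦ r ε`. -/
noncomputable def scl (k : Type u) [Field k] {R : Type u} [CommRing R] [Algebra k R] (r : R) :
    DualNumber R →ₐ[k] DualNumber R where
  toFun x := TrivSqZeroExt.inl x.fst + TrivSqZeroExt.inr (r * x.snd)
  map_one' := by ext <;> simp
  map_mul' x y := by
    ext
    · simp
    · simp
      ring
  map_zero' := by ext <;> simp
  map_add' x y := by ext <;> simp [mul_add]
  commutes' r := by ext <;> simp [TrivSqZeroExt.algebraMap_eq_inl']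

/-- `τ` is the linear combination `∑ c i • e i` of the tangent fields `e i` (along the same point):
there is a point over `R ⊕ R^n` with components `e i` whose image under `(r, x) ↦ r + (∑ c i x i) ε`
is `τ`. -/
def IsComb {R : Type u} [CommRing R] [Algebra k R] {n : ℕ} (e : Fin n → Pt π (DualNumber R))
    (c : Fin n → R) (τ : Pt π (DualNumber R)) : Prop :=
  ∃ ρ : Pt π (TrivSqZeroExt R (Fin n → R)), (∀ i, ρ.map (lin k (Pi.single i 1)) = e i) ∧
    ρ.map (lin k c) = τ

/-- The tangent vectors `e i` form a basis of the tangent space of `V` at the `k`-point `v`. -/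
def IsTanBasis (v : Pt π k) {n : ℕ} (e : Fin n → Pt π (DualNumber k)) : Prop :=
  (∀ i, (e i).map (dfst k k) = v) ∧
    ∀ τ : Pt π (DualNumber k), τ.map (dfst k k) = v → ∃! c : Fin n → k, IsComb e c τ

/-- `F^* T_V ≅ ⊕ O(a i)`: there are tangent fields `e i` along the restriction of `F` to the affine
line with coordinate `y` and `e' i` along the restriction to the affine line with coordinate
`w = 1 / y`, which form a basis of the tangent space of `V` at each closed point of these lines,
such that `e i = y ^ (- a i) • e' i` on the overlap (this is the relation of the standard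
generators of `O(a i)`: the sections are `y ^ j • e i = w ^ (a i - j) • e' i` for
`0 ≤ j ≤ a i`). -/
def IsSplit (F : Crv π k) {n : ℕ} (a : Fin n → ℤ) : Prop :=
  ∃ e e' : Fin n → Pt π (DualNumber k[X]),
    (∀ i, (e i).map (dfst k k[X]) = F.y) ∧ (∀ i, (e' i).map (dfst k k[X]) = F.w) ∧
    (∀ i, (e i).map (dmap (lauY k k)) =
      ((e' i).map (dmap (lauW k k))).map (scl k (LaurentPolynomial.T (-(a i))))) ∧
    (∀ x : k, IsTanBasis (F.y.map (evk x)) (fun i => (e i).map (dmap (evk x)))) ∧
    (∀ x : k, IsTanBasis (F.w.map (evk x)) (fun i => (e' i).map (dmap (evk x))))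

@[simp] lemma lin_fst {R : Type u} [CommRing R] [Algebra k R] {n : ℕ}
    (c : Fin n → R) (x : TrivSqZeroExt R (Fin n → R)) : (lin k c x).fst = x.fst := by
  simp [lin]

@[simp] lemma lin_snd {R : Type u} [CommRing R] [Algebra k R] {n : ℕ}
    (c : Fin n → R) (x : TrivSqZeroExt R (Fin n → R)) : (lin k c x).snd = ∑ i, c i * x.snd i := by
  simp [lin]

@[simp] lemma scl_fst {R : Type u} [CommRing R] [Algebra k R] (r : R) (x : DualNumber R) :
    (scl k r x).fst = x.fst := by simp [scl]

@[simp] lemma scl_snd {R : Type u} [CommRing R] [Algebra k R] (r : R) (x : DualNumber R) :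
    (scl k r x).snd = r * x.snd := by simp [scl]

end Pool.Agent.H19VF
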