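import Mathlib

/-!
# Laurent series

`LSer R` is the ring of Laurent series in a formal variable `t` over `R`. (It is the Hahn series
ring `HahnSeries ℤ R`, under a new name in order to have one algebra structure only.)
-/

set_option autoImplicit false

open HahnSeries

universe u v w

namespace Pool.Agent.H19VF

/-- The ring of Laurent series over `R`. -/
def LSer (R : Type u) [CommRing R] : Type u := HahnSeries ℤ R

namespace LSer

section basic

variable {R : Type u} [CommRing R]

noncomputable instance instCommRing : CommRing (LSer R) := inferInstanceAs (CommRing (HahnSeries ℤ R))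

noncomputable instance instField (K : Type u) [Field K] : Field (LSer K) :=
  inferInstanceAs (Field (HahnSeries ℤ K))

instance instNontrivial [Nontrivial R] : Nontrivial (LSer R) :=
  inferInstanceAs (Nontrivial (HahnSeries ℤ R))

instance instNoZeroDivisors [NoZeroDivisors R] : NoZeroDivisors (LSer R) :=
  inferInstanceAs (NoZeroDivisors (HahnSeries ℤ R))

instance instIsDomain [IsDomain R] : IsDomain (LSer R) :=
  inferInstanceAs (IsDomain (HahnSeries ℤ R))

noncomputable instance instAlgebra {k : Type v} [CommRing k] [Algebra k R] : Algebra k (LSer R) :=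
  @HahnSeries.instAlgebra ℤ k _ _ _ _ R _ _

/-- the coefficient of `t ^ n` -/
def coeff (f : LSer R) (n : ℤ) : R := HahnSeries.coeff f n

@[ext] lemma ext {f g : LSer R} (h : ∀ n, f.coeff n = g.coeff n) : f = g :=
  HahnSeries.ext (funext h)

@[simp] lemma coeff_zero (n : ℤ) : (0 : LSer R).coeff n = 0 := rfl
@[simp] lemma coeff_add (f g : LSer R) (n : ℤ) : (f + g).coeff n = f.coeff n + g.coeff n := rfl
@[simp] lemma coeff_neg (f : LSer R) (n : ℤ) : (-f).coeff n = - f.coeff n := rfl
@[simp] lemma coeff_sub (f g : LSer R) (n : ℤ) : (f - g).coeff n = f.coeff n - g.coeff n := by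
  rw [sub_eq_add_neg, coeff_add, coeff_neg, sub_eq_add_neg]

lemma coeff_one (n : ℤ) : (1 : LSer R).coeff n = if n = 0 then 1 else 0 := by
  have h : (1 : LSer R).coeff n = HahnSeries.coeff (1 : HahnSeries ℤ R) n := rfl
  rw [h, HahnSeries.coeff_one]
  split_ifs <;> rfl

@[simp] lemma coeff_sum {ι : Type*} (s : Finset ι) (f : ι → LSer R) (n : ℤ) :
    (∑ i ∈ s, f i).coeff n = ∑ i ∈ s, (f i).coeff n := by
  classical
  induction s using Finset.induction_on with
  | empty => simp
  | insert a s ha ih => rw [Finset.sum_insert ha, Finset.sum_insert ha, coeff_add, ih]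

/-- The series with given coefficients, zero below `N`. -/
noncomputable def mk (c : ℤ → R) (N : ℤ) (h : ∀ n < N, c n = 0) : LSer R :=
  HahnSeries.ofSuppBddBelow c ⟨N, fun n hn => by
    by_contra hlt
    exact hn (h n (not_le.1 hlt))⟩

@[simp] lemma coeff_mk (c : ℤ → R) (N : ℤ) (h : ∀ n < N, c n = 0) (n : ℤ) :
    (mk c N h).coeff n = c n := rfl

/-- All coefficients below `N` vanish. -/
def Ge (N : ℤ) (f : LSer R) : Prop := ∀ n < N, f.coeff n = 0

lemma Ge.mono {N M : ℤ} {f : LSer R} (h : Ge N f) (hM : M ≤ N) : Ge M f :=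
  fun n hn => h n (lt_of_lt_of_le hn hM)

/-- Every Laurent series is bounded below. -/
lemma exists_ge (f : LSer R) : ∃ N : ℤ, Ge N f := by
  by_cases h : f = 0
  · exact ⟨0, fun n _ => by rw [h]; rfl⟩
  · exact ⟨HahnSeries.order f, fun n hn => HahnSeries.coeff_eq_zero_of_lt_order hn⟩

lemma Ge.zero (N : ℤ) : Ge N (0 : LSer R) := fun _ _ => rfl
lemma Ge.add {N : ℤ} {f g : LSer R} (hf : Ge N f) (hg : Ge N g) : Ge N (f + g) :=
  fun n hn => by rw [coeff_add, hf n hn, hg n hn, add_zero]
lemma Ge.neg {N : ℤ} {f : LSer R} (hf : Ge N f) : Ge N (-f) :=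
  fun n hn => by rw [coeff_neg, hf n hn, neg_zero]
lemma Ge.sub {N : ℤ} {f g : LSer R} (hf : Ge N f) (hg : Ge N g) : Ge N (f - g) :=
  fun n hn => by rw [coeff_sub, hf n hn, hg n hn, sub_zero]
lemma Ge.sum {ι : Type*} {N : ℤ} {s : Finset ι} {f : ι → LSer R} (h : ∀ i ∈ s, Ge N (f i)) :
    Ge N (∑ i ∈ s, f i) := fun n hn => by
  rw [coeff_sum]; exact Finset.sum_eq_zero fun i hi => h i hi n hn

/-- The coefficients of a product. -/
lemma coeff_mul {a b : ℤ} {f g : LSer R} (hf : Ge a f) (hg : Ge b g) (n : ℤ) :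
    (f * g).coeff n = ∑ i ∈ Finset.Icc a (n - b), f.coeff i * g.coeff (n - i) := by
  classical
  have h1 : (f * g).coeff n = ∑ ij ∈ Finset.antidiagonal (HahnSeries.isPWO_support f)
      (HahnSeries.isPWO_support g) n, f.coeff ij.1 * g.coeff ij.2 := rfl
  rw [h1]
  have hinj : Set.InjOn (fun i : ℤ => (i, n - i)) (Finset.Icc a (n - b)) := by
    intro x _ y _ hxy
    exact (Prod.ext_iff.1 hxy).1
  rw [← Finset.sum_image (g := fun i : ℤ => (i, n - i)) (f := fun ij => f.coeff ij.1 * g.coeff ij.2)
    hinj]
  apply Finset.sum_subset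
  · rintro ⟨i, j⟩ hij
    rw [Finset.mem_antidiagonal] at hij
    obtain ⟨hi, hj, hs⟩ := hij
    simp only at hi hj hs
    rw [Finset.mem_image]
    refine ⟨i, ?_, by ext <;> simp; omega⟩
    rw [Finset.mem_Icc]
    constructor
    · by_contra hlt
      exact hi (hf i (not_le.1 hlt))
    · by_contra hlt
      have : j < b := by omega
      exact hj (hg j this)
  · rintro ⟨i, j⟩ hij hn
    rw [Finset.mem_image] at hij
    obtain ⟨i', _, hi'⟩ := hij
    simp only [Prod.mk.injEq] at hi'
    obtain ⟨rfl, rfl⟩ := hi'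
    by_contra hne
    apply hn
    rw [Finset.mem_antidiagonal]
    refine ⟨?_, ?_, by simp⟩
    · intro h0
      exact hne (by rw [show f.coeff (i', n - i').1 = 0 from h0, zero_mul])
    · intro h0
      exact hne (by rw [show g.coeff (i', n - i').2 = 0 from h0, mul_zero])

lemma Ge.mul {a b : ℤ} {f g : LSer R} (hf : Ge a f) (hg : Ge b g) : Ge (a + b) (f * g) := by
  intro n hn
  rw [coeff_mul hf hg, Finset.Icc_eq_empty (by omega), Finset.sum_empty]

/-- The constant series. -/
noncomputable def C : R →+* LSer R := (HahnSeries.C : R →+* HahnSeries ℤ R)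

lemma coeff_C (r : R) (n : ℤ) : (C r).coeff n = if n = 0 then r else 0 := by
  have h : (C r).coeff n = HahnSeries.coeff (HahnSeries.C r : HahnSeries ℤ R) n := rfl
  rw [h, HahnSeries.C_apply]
  split_ifs with h0
  · subst h0; exact HahnSeries.coeff_single_same _ _
  · exact HahnSeries.coeff_single_of_ne h0

lemma algebraMap_eq {k : Type v} [CommRing k] [Algebra k R] (r : k) :
    algebraMap k (LSer R) r = C (algebraMap k R r) := rfl

instance {k : Type v} [CommRing k] [Algebra k R] : IsScalarTower k R (LSer R) :=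
  IsScalarTower.of_algebraMap_eq fun _ => rfl

lemma algebraMap_coeff {k : Type v} [CommRing k] [Algebra k R] (r : k) (n : ℤ) :
    (algebraMap k (LSer R) r).coeff n = if n = 0 then algebraMap k R r else 0 := by
  rw [algebraMap_eq, coeff_C]

/-- The monomial `t ^ m`. -/
noncomputable def T (m : ℤ) : LSer R := (HahnSeries.single m (1 : R) : HahnSeries ℤ R)

lemma coeff_T (m n : ℤ) : (T m : LSer R).coeff n = if n = m then 1 else 0 := by
  have h : (T m : LSer R).coeff n = HahnSeries.coeff (HahnSeries.single m (1 : R)) n := rfl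
  rw [h]
  split_ifs with h0
  · subst h0; exact HahnSeries.coeff_single_same _ _
  · exact HahnSeries.coeff_single_of_ne h0

lemma ge_T (m : ℤ) : Ge m (T m : LSer R) := fun n hn => by
  rw [coeff_T, if_neg (by omega)]

lemma ge_C (r : R) : Ge 0 (C r) := fun n hn => by rw [coeff_C, if_neg (by omega)]

lemma ge_one : Ge 0 (1 : LSer R) := fun n hn => by rw [coeff_one, if_neg (by omega)]

@[simp] lemma coeff_T_mul (m : ℤ) (f : LSer R) (n : ℤ) : (T m * f).coeff n = f.coeff (n - m) := by
  obtain ⟨N, hN⟩ := f.exists_ge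
  rw [coeff_mul (ge_T m) hN]
  by_cases h : m ≤ n - N
  · rw [Finset.sum_eq_single m]
    · rw [coeff_T, if_pos rfl, one_mul]
    · intro i _ hi
      rw [coeff_T, if_neg hi, zero_mul]
    · intro hm
      exact absurd (Finset.mem_Icc.2 ⟨le_refl _, h⟩) hm
  · rw [Finset.Icc_eq_empty h, Finset.sum_empty, hN _ (by omega)]

@[simp] lemma coeff_C_mul (r : R) (f : LSer R) (n : ℤ) : (C r * f).coeff n = r * f.coeff n := by
  obtain ⟨N, hN⟩ := f.exists_ge
  rw [coeff_mul (ge_C r) hN]
  by_cases h : 0 ≤ n - N
  · rw [Finset.sum_eq_single 0]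
    · rw [coeff_C, if_pos rfl, sub_zero]
    · intro i _ hi
      rw [coeff_C, if_neg hi, zero_mul]
    · intro hm
      exact absurd (Finset.mem_Icc.2 ⟨le_refl _, h⟩) hm
  · rw [Finset.Icc_eq_empty h, Finset.sum_empty, hN _ (by omega), mul_zero]

lemma T_mul_T (m n : ℤ) : (T m * T n : LSer R) = T (m + n) := by
  ext i
  rw [coeff_T_mul, coeff_T, coeff_T]
  by_cases h : i = m + n
  · rw [if_pos (by omega), if_pos h]
  · rw [if_neg (by omega), if_neg h]

@[simp] lemma T_zero : (T 0 : LSer R) = 1 := by
  ext i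
  rw [coeff_T, coeff_one]

lemma T_pow (m : ℤ) (n : ℕ) : (T m : LSer R) ^ n = T (m * n) := by
  induction n with
  | zero => simp
  | succ n ih => rw [pow_succ, ih, T_mul_T]; congr 1; push_cast; ring

lemma T_mul_T_neg (m : ℤ) : (T m * T (-m) : LSer R) = 1 := by
  rw [T_mul_T, add_neg_cancel, T_zero]

lemma isUnit_T (m : ℤ) : IsUnit (T m : LSer R) := IsUnit.of_mul_eq_one _ (T_mul_T_neg m)

lemma T_ne_zero [Nontrivial R] (m : ℤ) : (T m : LSer R) ≠ 0 := (isUnit_T m).ne_zero

lemma Ge.T_mul {N : ℤ} {f : LSer R} (h : Ge N f) (m : ℤ) : Ge (m + N) (T m * f) :=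
  (ge_T m).mul h

/-- The inclusion of the power series. -/
noncomputable def ofPS : PowerSeries R →+* LSer R :=
  (HahnSeries.ofPowerSeries ℤ R : PowerSeries R →+* HahnSeries ℤ R)

lemma coeff_ofPS_nat (f : PowerSeries R) (n : ℕ) : (ofPS f).coeff n = PowerSeries.coeff n f :=
  HahnSeries.ofPowerSeries_apply_coeff f n

lemma ge_ofPS (f : PowerSeries R) : Ge 0 (ofPS f) := by
  intro n hn
  have h : (ofPS f).coeff n = HahnSeries.coeff (HahnSeries.ofPowerSeries ℤ R f) n := rfl
  rw [h, HahnSeries.ofPowerSeries_apply]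
  apply HahnSeries.embDomain_of_notMem_range
  rintro ⟨m, hm⟩
  simp at hm
  omega

lemma coeff_ofPS (f : PowerSeries R) (n : ℤ) :
    (ofPS f).coeff n = if 0 ≤ n then PowerSeries.coeff n.toNat f else 0 := by
  split_ifs with h
  · obtain ⟨m, rfl⟩ := Int.eq_ofNat_of_zero_le h
    rw [coeff_ofPS_nat]; simp
  · exact ge_ofPS f n (by omega)

/-- The series without negative powers are the power series. -/
lemma exists_ofPS {f : LSer R} (h : Ge 0 f) : ∃ g : PowerSeries R, ofPS g = f := by
  refine ⟨PowerSeries.mk fun n => f.coeff n, ?_⟩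
  ext n
  rw [coeff_ofPS]
  split_ifs with h0
  · rw [PowerSeries.coeff_mk, Int.toNat_of_nonneg h0]
  · rw [h n (by omega)]

lemma exists_T_mul_ofPS (f : LSer R) : ∃ (N : ℕ) (g : PowerSeries R), f = T (-N) * ofPS g := by
  obtain ⟨M, hM⟩ := f.exists_ge
  obtain ⟨g, hg⟩ := exists_ofPS (f := T ((-M).toNat : ℤ) * f)
    ((hM.T_mul _).mono (by omega))
  refine ⟨(-M).toNat, g, ?_⟩
  rw [hg, ← mul_assoc, mul_comm (T _) (T _), T_mul_T_neg, one_mul]

lemma ofPS_injective : Function.Injective (ofPS : PowerSeries R →+* LSer R) := by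
  intro f g h
  ext n
  rw [← coeff_ofPS_nat, h, coeff_ofPS_nat]

@[simp] lemma ofPS_X : ofPS (PowerSeries.X : PowerSeries R) = T 1 := by
  ext n
  rw [coeff_ofPS, coeff_T]
  split_ifs with h h1 h1
  · subst h1; simp
  · rw [PowerSeries.coeff_X, if_neg (by omega)]
  · omega
  · rfl

@[simp] lemma ofPS_C (r : R) : ofPS (PowerSeries.C r) = C r := by
  ext n
  rw [coeff_ofPS, coeff_C]
  split_ifs with h h1 h1
  · subst h1; simp
  · rw [PowerSeries.coeff_C, if_neg (by omega)]
  · omega
  · rfl

/-- The inclusion of the power series as a homomorphism of `k`-algebras. -/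
noncomputable def ofPSa (k : Type v) [CommRing k] [Algebra k R] : PowerSeries R →ₐ[k] LSer R :=
  { (ofPS : PowerSeries R →+* LSer R) with
    commutes' := fun r => by
      change ofPS (algebraMap k (PowerSeries R) r) = _
      rw [algebraMap_eq, ← ofPS_C]
      congr 1
      ext n
      rw [PowerSeries.algebraMap_apply] }

@[simp] lemma ofPSa_apply (k : Type v) [CommRing k] [Algebra k R] (f : PowerSeries R) :
    ofPSa k f = ofPS f := rfl

end basic

section map

variable {k : Type v} {R : Type u} {S : Type w} [CommRing k] [CommRing R] [CommRing S]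
  [Algebra k R] [Algebra k S]

/-- Applying a homomorphism of `k`-algebras to all coefficients of a Laurent series. -/
noncomputable def map (f : R →ₐ[k] S) : LSer R →ₐ[k] LSer S where
  toFun x := (HahnSeries.map x f : HahnSeries ℤ S)
  map_one' := by
    ext n
    change f ((1 : LSer R).coeff n) = _
    rw [coeff_one, coeff_one]
    split_ifs <;> simp
  map_zero' := by ext n; change f ((0 : LSer R).coeff n) = _; simp
  map_add' x y := by
    ext n
    change f ((x + y).coeff n) = f (x.coeff n) + f (y.coeff n)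
    simp
  map_mul' x y := HahnSeries.map_mul (f : R →ₙ+* S)
  commutes' r := by
    ext n
    change f ((algebraMap k (LSer R) r).coeff n) = _
    rw [algebraMap_coeff, algebraMap_coeff]
    split_ifs <;> simp

@[simp] lemma coeff_map (f : R →ₐ[k] S) (x : LSer R) (n : ℤ) :
    (map f x).coeff n = f (x.coeff n) := rfl

lemma map_injective (f : R →ₐ[k] S) (hf : Function.Injective f) : Function.Injective (map f) := by
  intro x y h
  ext n
  apply hf
  rw [← coeff_map, h, coeff_map]

@[simp] lemma map_T (f : R →ₐ[k] S) (m : ℤ) : map f (T m) = T m := by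
  ext n
  rw [coeff_map, coeff_T, coeff_T]
  split_ifs <;> simp

@[simp] lemma map_C (f : R →ₐ[k] S) (r : R) : map f (C r) = C (f r) := by
  ext n
  rw [coeff_map, coeff_C, coeff_C]
  split_ifs <;> simp

lemma Ge.map {N : ℤ} {x : LSer R} (h : Ge N x) (f : R →ₐ[k] S) : Ge N (LSer.map f x) :=
  fun n hn => by rw [coeff_map, h n hn, map_zero]

end map

section der

variable {k : Type v} {K : Type u} [CommRing k] [CommRing K] [Algebra k K]

/-- Auxiliary: the coefficientwise application of a derivation. -/
noncomputable def derFun (D : Derivation k K K) (x : LSer K) : LSer K :=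
  (HahnSeries.map (show HahnSeries ℤ K from x) (D : K →+ K) : HahnSeries ℤ K)

lemma coeff_derFun (D : Derivation k K K) (x : LSer K) (n : ℤ) :
    (derFun D x).coeff n = D (x.coeff n) := rfl

/-- The coefficientwise extension of a derivation to Laurent series. -/
noncomputable def der (D : Derivation k K K) : Derivation k (LSer K) (LSer K) where
  toFun x := derFun D x
  map_add' x y := by
    ext n
    simp [coeff_derFun]
  map_smul' r x := by
    ext n
    rw [RingHom.id_apply, coeff_derFun, Algebra.smul_def, Algebra.smul_def, algebraMap_eq,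
      coeff_C_mul, coeff_C_mul, Derivation.leibniz, Derivation.map_algebraMap, smul_zero, add_zero]
    rfl
  map_one_eq_zero' := by
    change derFun D (1 : LSer K) = 0
    ext n
    rw [coeff_derFun, coeff_one]
    split_ifs <;> simp
  leibniz' x y := by
    obtain ⟨a, ha⟩ := x.exists_ge
    obtain ⟨b, hb⟩ := y.exists_ge
    have ha' : Ge a (derFun D x) := fun n hn => by
      rw [coeff_derFun, ha n hn, map_zero]
    have hb' : Ge b (derFun D y) := fun n hn => by
      rw [coeff_derFun, hb n hn, map_zero]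
    ext n
    change (derFun D (x * y)).coeff n = (x * derFun D y + y * derFun D x).coeff n
    rw [coeff_derFun, coeff_add, coeff_mul ha hb, mul_comm y, coeff_mul ha hb', coeff_mul ha' hb,
      map_sum, ← Finset.sum_add_distrib]
    refine Finset.sum_congr rfl fun i _ => ?_
    rw [Derivation.leibniz, smul_eq_mul, smul_eq_mul, coeff_derFun, coeff_derFun]
    ring

@[simp] lemma coeff_der (D : Derivation k K K) (x : LSer K) (n : ℤ) :
    (der D x).coeff n = D (x.coeff n) := rfl

end der

end LSer

end Pool.Agent.H19VF
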