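import Pool.Agent.H19VF.U_Defs
import Pool.Agent.H19VF.F_Chart

/-! # Task U1: derivations of the ground field lift to the charts of a variety -/

set_option autoImplicit false

open AlgebraicGeometry CategoryTheory Polynomial

universe u

namespace Pool.Agent.H19VF

variable {k : Type u} [Field k] {V : Scheme.{u}} {π : V ⟶ Spec (.of k)}

/-- Finitely many charts cover the variety. -/
theorem exists_finite_cover [QuasiCompact π] :
    ∃ (ι : Type) (_ : Fintype ι) (W : ι → Chart π), ∀ v : V, ∃ i, v ∈ Set.range (W i).pt.1 := by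
  have hV : CompactSpace V := QuasiCompact.compactSpace_of_compactSpace π
  have h1 : ∀ v : V, ∃ W : Chart π, v ∈ Set.range W.pt.1 := by
    intro v
    obtain ⟨V', hV', hv⟩ : ∃ V' : V.Opens, IsAffineOpen V' ∧ v ∈ V' := by
      obtain ⟨_, ⟨V', hV', rfl⟩, hv, -⟩ :=
        V.isBasis_affineOpens.exists_subset_of_mem_open (Set.mem_univ v) isOpen_univ
      exact ⟨V', hV', hv⟩
    obtain ⟨i, hp, -⟩ := F3_exists_chart (k := k) (π := π) V' hV'
    refine ⟨{ B := Γ(V, V')
              pt := ⟨hV'.fromSpec, hp⟩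
              imm := inferInstanceAs (IsOpenImmersion hV'.fromSpec) }, ?_⟩
    have h2 : Set.range hV'.fromSpec = V' := hV'.range_fromSpec
    show v ∈ Set.range hV'.fromSpec
    rw [h2]
    exact hv
  choose W hW using h1
  obtain ⟨t, ht⟩ := isCompact_univ.elim_finite_subcover (fun v : V => Set.range (W v).pt.1)
    (fun v => by
      have := (W v).imm
      exact IsOpenImmersion.isOpen_range (W v).pt.1)
    (fun v _ => Set.mem_iUnion.2 ⟨v, hW v⟩)
  refine ⟨Fin t.card, inferInstance, fun i => W (t.equivFin.symm i), fun v => ?_⟩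
  obtain ⟨w, hw, hvw⟩ := Set.mem_iUnion₂.1 (ht (Set.mem_univ v))
  have h2 : (t.equivFin.symm (t.equivFin ⟨w, hw⟩) : V) = w := by rw [Equiv.symm_apply_apply]
  refine ⟨t.equivFin ⟨w, hw⟩, ?_⟩
  show v ∈ Set.range (W (t.equivFin.symm (t.equivFin ⟨w, hw⟩) : V)).pt.1
  rw [h2]
  exact hvw

/-- The ring homomorphism `r ↦ r + ε δ r`. -/
noncomputable def U1_eps {R : Type u} [CommRing R] (δ : Derivation ℤ R R) : R →+* DualNumber R where
  toFun r := TrivSqZeroExt.inl r + TrivSqZeroExt.inr (δ r)
  map_one' := by ext <;> simp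
  map_mul' x y := by
    ext
    · simp
    · simp
      ring
  map_zero' := by ext <;> simp
  map_add' x y := by ext <;> simp

theorem U1_eps_apply {R : Type u} [CommRing R] (δ : Derivation ℤ R R) (r : R) :
    U1_eps δ r = TrivSqZeroExt.inl r + TrivSqZeroExt.inr (δ r) := rfl

/-- The derivation given by a homomorphism to the dual numbers. -/
noncomputable def U1_der {B : Type u} [CommRing B] (Ψ : B →+* DualNumber B)
    (h : ∀ b, (Ψ b).fst = b) : Derivation ℤ B B :=
  Derivation.mk' (AddMonoidHom.toIntLinearMap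
    { toFun := fun b => (Ψ b).snd
      map_zero' := by rw [map_zero]; rfl
      map_add' := fun x y => by rw [map_add]; rfl })
    (fun a b => by
      show (Ψ (a * b)).snd = a • (Ψ b).snd + b • (Ψ a).snd
      rw [map_mul, TrivSqZeroExt.snd_mul, h, h]
      simp [mul_comm])

theorem U1_der_apply {B : Type u} [CommRing B] (Ψ : B →+* DualNumber B)
    (h : ∀ b, (Ψ b).fst = b) (b : B) : U1_der Ψ h b = (Ψ b).snd := rfl

/-- Derivations of the ground field which kill finitely many elements lift to a finitely generated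
algebra, and the lift kills given elements. -/
theorem U1_one {B : Type u} [CommRing B] [Algebra k B] [Algebra.FiniteType k B] (Z : Finset B) :
    ∃ C : Finset k, ∀ D : Derivation ℤ k k, (∀ c ∈ C, D c = 0) →
      ∃ d : Derivation ℤ B B, Ext D d ∧ ∀ z ∈ Z, d z = 0 := by
  classical
  obtain ⟨G, hG⟩ := (inferInstance : Algebra.FiniteType k B).out
  let σ : Type u := ↥(G ∪ Z)
  let φ : MvPolynomial σ k →ₐ[k] B := MvPolynomial.aeval fun z : σ => (z : B)
  have hφ : Function.Surjective φ := by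
    rw [← AlgHom.range_eq_top, eq_top_iff, ← hG]
    refine Algebra.adjoin_le ?_
    intro b hb
    exact ⟨MvPolynomial.X ⟨b, Finset.mem_union_left _ hb⟩, MvPolynomial.aeval_X _ _⟩
  obtain ⟨P, hP⟩ : (RingHom.ker φ.toRingHom).FG := IsNoetherian.noetherian _
  refine ⟨P.biUnion fun p => p.support.image fun m => p.coeff m, fun D hD => ?_⟩
  have hD' : ∀ p ∈ P, ∀ m ∈ p.support, D (p.coeff m) = 0 := fun p hp m hm =>
    hD _ (Finset.mem_biUnion.2 ⟨p, hp, Finset.mem_image.2 ⟨m, hm, rfl⟩⟩)
  let c0 : k →+* DualNumber B := (dmap (Algebra.ofId k B)).toRingHom.comp (U1_eps D)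
  have hc0 : ∀ c : k, c0 c = TrivSqZeroExt.inl (algebraMap k B c) +
      TrivSqZeroExt.inr (algebraMap k B (D c)) := by
    intro c
    show dmap (Algebra.ofId k B) (U1_eps D c) = _
    rw [U1_eps_apply]
    ext <;> simp [Algebra.ofId_apply]
  let Φ : MvPolynomial σ k →+* DualNumber B :=
    MvPolynomial.eval₂Hom c0 fun z : σ => TrivSqZeroExt.inl (z : B)
  have hfst : ∀ p, (Φ p).fst = φ p := by
    intro p
    have h1 : (TrivSqZeroExt.fstHom B B B).toRingHom.comp Φ = φ.toRingHom := by
      apply MvPolynomial.ringHom_ext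
      · intro a
        show (Φ (MvPolynomial.C a)).fst = φ (MvPolynomial.C a)
        simp only [Φ, MvPolynomial.eval₂Hom_C, hc0, φ, MvPolynomial.aeval_C]
        simp
      · intro z
        show (Φ (MvPolynomial.X z)).fst = φ (MvPolynomial.X z)
        simp only [Φ, MvPolynomial.eval₂Hom_X', φ, MvPolynomial.aeval_X]
        simp
    exact congr($h1 p)
  have hinl : ∀ p ∈ P, Φ p = TrivSqZeroExt.inl (φ p) := by
    intro p hp
    have h1 : (TrivSqZeroExt.inlHom B B).comp φ.toRingHom =
        MvPolynomial.eval₂Hom ((TrivSqZeroExt.inlHom B B).comp (algebraMap k B))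
          (fun z : σ => TrivSqZeroExt.inl (z : B)) := by
      apply MvPolynomial.ringHom_ext
      · intro a
        simp [φ]
      · intro z
        simp [φ]
    have h2 : TrivSqZeroExt.inl (φ p) = MvPolynomial.eval₂Hom
        ((TrivSqZeroExt.inlHom B B).comp (algebraMap k B))
          (fun z : σ => TrivSqZeroExt.inl (z : B)) p := congr($h1 p)
    rw [h2]
    show MvPolynomial.eval₂ _ _ p = MvPolynomial.eval₂ _ _ p
    rw [MvPolynomial.eval₂_eq, MvPolynomial.eval₂_eq]
    refine Finset.sum_congr rfl fun m hm => ?_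
    congr 1
    rw [hc0, hD' p hp m hm, map_zero, TrivSqZeroExt.inr_zero, add_zero]
    rfl
  have hker : RingHom.ker φ.toRingHom ≤ RingHom.ker Φ := by
    rw [← hP]
    refine Ideal.span_le.2 fun p hp => ?_
    have h1 : p ∈ RingHom.ker φ.toRingHom := by
      rw [← hP]
      exact Ideal.subset_span hp
    have h2 : φ p = 0 := h1
    show Φ p = 0
    rw [hinl p hp, h2, TrivSqZeroExt.inl_zero]
  let Ψ : B →+* DualNumber B := (φ.toRingHom.liftOfSurjective hφ) ⟨Φ, hker⟩
  have hΨ : ∀ p, Ψ (φ p) = Φ p := fun p =>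
    RingHom.liftOfSurjective_comp_apply φ.toRingHom hφ ⟨Φ, hker⟩ p
  have hΨf : ∀ b, (Ψ b).fst = b := by
    intro b
    obtain ⟨p, rfl⟩ := hφ b
    rw [hΨ, hfst]
  refine ⟨U1_der Ψ hΨf, ?_, ?_⟩
  · intro c
    have h1 : algebraMap k B c = φ (MvPolynomial.C c) := by simp [φ]
    rw [U1_der_apply, h1, hΨ]
    simp only [Φ, MvPolynomial.eval₂Hom_C, hc0]
    simp [Algebra.algebraMap_eq_smul_one]
  · intro z hz
    have h1 : z = φ (MvPolynomial.X ⟨z, Finset.mem_union_right _ hz⟩) := by simp [φ]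
    rw [U1_der_apply, h1, hΨ]
    simp only [Φ, MvPolynomial.eval₂Hom_X']
    simp

/-- The part of a chart which lies in another chart is a finite union of basic open subsets. -/
theorem U1_inter [LocallyOfFiniteType π] (W W' : Chart π) :
    ∃ S : Finset W.B, (∀ g ∈ S, ∀ x : PrimeSpectrum W.B, g ∉ x.asIdeal →
      W.pt.1 x ∈ Set.range W'.pt.1) ∧
      ∀ x : PrimeSpectrum W.B, W.pt.1 x ∈ Set.range W'.pt.1 → ∃ g ∈ S, g ∉ x.asIdeal := by
  have := W.imm
  have := W'.imm
  have hf := W.finiteType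
  have hN : IsNoetherianRing W.B := Algebra.FiniteType.isNoetherianRing k W.B
  have hU : IsOpen (W.pt.1 ⁻¹' Set.range W'.pt.1) :=
    (IsOpenImmersion.isOpen_range W'.pt.1).preimage W.pt.1.continuous
  obtain ⟨J, hJ⟩ := (PrimeSpectrum.isClosed_iff_zeroLocus_ideal
    ((W.pt.1 ⁻¹' Set.range W'.pt.1)ᶜ : Set (PrimeSpectrum W.B))).1 hU.isClosed_compl
  have hJ' : ∀ x : PrimeSpectrum W.B, W.pt.1 x ∉ Set.range W'.pt.1 ↔ J ≤ x.asIdeal := fun x =>
    Set.ext_iff.1 hJ x
  obtain ⟨S, hS⟩ : J.FG := IsNoetherian.noetherian _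
  refine ⟨S, ?_, ?_⟩
  · intro g hg x hx
    by_contra hc
    apply hx
    apply (hJ' x).1 hc
    rw [← hS]
    exact Ideal.subset_span hg
  · intro x hx
    by_contra hc
    push Not at hc
    apply (hJ' x).2 ?_ hx
    rw [← hS]
    exact Ideal.span_le.2 hc

/-- Compatibility for one pair of charts. -/
theorem U1_pair [LocallyOfFiniteType π] (W W' : Chart π) (G : Finset W'.B)
    (hG : Algebra.adjoin k (G : Set W'.B) = ⊤) :
    ∃ H : Finset W.B, ∀ (D : Derivation ℤ k k) (d : Derivation ℤ W.B W.B) (hd : Ext D d)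
      (d' : Derivation ℤ W'.B W'.B) (hd' : Ext D d'), (∀ h ∈ H, d h = 0) → (∀ g ∈ G, d' g = 0) →
      ∀ (K : Type u) [Field K] [Algebra k K] (δ : Derivation ℤ K K) (hδ : Ext D δ)
      (f : W.B →ₐ[k] K) (f' : W'.B →ₐ[k] K), W.pt.map f = W'.pt.map f' →
      W.pt.map (tw f d hd δ hδ) = W'.pt.map (tw f' d' hd' δ hδ) := by
  classical
  obtain ⟨S, hS1, hS2⟩ := U1_inter W W'
  have hfun : ∀ g : W.B, ∃ hf : W'.B → W.B, g ∈ S → ∃ α' : W'.B →ₐ[k] Localization.Away g,
      W.pt.map (IsScalarTower.toAlgHom k W.B (Localization.Away g)) = W'.pt.map α' ∧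
      ∀ b, ∃ N : ℕ, α' b * algebraMap W.B (Localization.Away g) g ^ N =
        algebraMap W.B (Localization.Away g) (hf b) := by
    intro g
    by_cases hg : g ∈ S
    · obtain ⟨α', hα'⟩ := W'.F3_lift_away (R' := Localization.Away g) g W.pt (hS1 g hg)
      have h1 : ∀ b, ∃ (h : W.B) (N : ℕ), α' b * algebraMap W.B (Localization.Away g) g ^ N =
          algebraMap W.B (Localization.Away g) h := by
        intro b
        obtain ⟨N, h, hh⟩ := IsLocalization.Away.surj g (α' b)
        exact ⟨h, N, hh⟩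
      choose hf hN using h1
      exact ⟨hf, fun _ => ⟨α', hα', hN⟩⟩
    · exact ⟨fun _ => 0, fun h => absurd h hg⟩
  choose hf hhf using hfun
  refine ⟨S ∪ (S ×ˢ G).image fun p => hf p.1 p.2, ?_⟩
  intro D d hd d' hd' hdH hdG K _ _ δ hδ f f' hff'
  have := W.imm
  have := W'.imm
  -- the point
  obtain ⟨g, hgS, hgf⟩ : ∃ g ∈ S, f g ≠ 0 := by
    let y : Spec (.of K) := IsLocalRing.closedPoint K
    let x : PrimeSpectrum W.B := Spec.map (CommRingCat.ofHom f.toRingHom) y
    have h1 : W.pt.1 x ∈ Set.range W'.pt.1 := by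
      refine ⟨Spec.map (CommRingCat.ofHom f'.toRingHom) y, ?_⟩
      have h2 : Spec.map (CommRingCat.ofHom f.toRingHom) ≫ W.pt.1 =
          Spec.map (CommRingCat.ofHom f'.toRingHom) ≫ W'.pt.1 := congrArg Subtype.val hff'
      have h3 : (Spec.map (CommRingCat.ofHom f.toRingHom) ≫ W.pt.1) y =
          (Spec.map (CommRingCat.ofHom f'.toRingHom) ≫ W'.pt.1) y := by rw [h2]
      exact h3.symm
    obtain ⟨g, hg, hgx⟩ := hS2 x h1
    refine ⟨g, hg, fun h0 => hgx ?_⟩
    show f g ∈ y.asIdeal
    rw [h0]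
    exact zero_mem _
  obtain ⟨α', hα', hN⟩ := hhf g hgS
  let L := Localization.Away g
  let ψ : L →ₐ[k] K := IsLocalization.liftAlgHom (M := Submonoid.powers g) (f := f) (by
    rintro ⟨_, n, rfl⟩
    show IsUnit (f (g ^ n))
    rw [map_pow]
    exact (IsUnit.mk0 _ hgf).pow n)
  have hψ : ∀ b, ψ (algebraMap W.B L b) = f b := fun b => by
    simp only [ψ, IsLocalization.liftAlgHom_apply]
    exact IsLocalization.lift_eq _ _
  let Θ : L →ₐ[k] DualNumber K := IsLocalization.liftAlgHom (M := Submonoid.powers g)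
    (f := tw f d hd δ hδ) (by
    rintro ⟨_, n, rfl⟩
    show IsUnit (tw f d hd δ hδ (g ^ n))
    rw [map_pow]
    refine IsUnit.pow n ?_
    rw [TrivSqZeroExt.isUnit_iff_isUnit_fst, tw_fst]
    exact IsUnit.mk0 _ hgf)
  have hΘ : ∀ b, Θ (algebraMap W.B L b) = tw f d hd δ hδ b := fun b => by
    simp only [Θ, IsLocalization.liftAlgHom_apply]
    exact IsLocalization.lift_eq _ _
  have hψα : ψ.comp α' = f' := by
    apply W'.map_injective
    rw [← Pt.map_map, ← hα', Pt.map_map, ← hff']
    congr 1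
    apply AlgHom.ext
    intro b
    exact hψ b
  have h1 : W.pt.map (tw f d hd δ hδ) = W'.pt.map (Θ.comp α') := by
    rw [← Pt.map_map, ← hα', Pt.map_map]
    congr 1
    apply AlgHom.ext
    intro b
    exact (hΘ b).symm
  rw [h1]
  congr 1
  have hdg : d g = 0 := hdH g (Finset.mem_union_left _ hgS)
  have htw0 : ∀ b, d b = 0 → tw f d hd δ hδ b = U1_eps δ (f b) := by
    intro b hb
    rw [U1_eps_apply]
    ext <;> simp [hb]
  apply AlgHom.ext_of_adjoin_eq_top hG
  intro b hb
  have hb0 : d' b = 0 := hdG b hb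
  have htw1 : tw f' d' hd' δ hδ b = U1_eps δ (f' b) := by
    rw [U1_eps_apply]
    ext <;> simp [hb0]
  rw [htw1]
  obtain ⟨N, hN⟩ := hN b
  have hh0 : d (hf g b) = 0 := hdH _ (Finset.mem_union_right _
    (Finset.mem_image.2 ⟨(g, b), Finset.mem_product.2 ⟨hgS, hb⟩, rfl⟩))
  have e1 : Θ (α' b) * U1_eps δ (f g) ^ N = U1_eps δ (f (hf g b)) := by
    have e2 := congrArg Θ hN
    rw [map_mul, map_pow, hΘ, hΘ, htw0 g hdg, htw0 _ hh0] at e2
    exact e2
  have e3 : f' b * f g ^ N = f (hf g b) := by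
    have e2 := congrArg ψ hN
    rw [map_mul, map_pow, hψ, hψ] at e2
    rw [← hψα]
    exact e2
  have e4 : U1_eps δ (f' b) * U1_eps δ (f g) ^ N = U1_eps δ (f (hf g b)) := by
    rw [← map_pow, ← map_mul, e3]
  have e5 : IsUnit (U1_eps δ (f g) ^ N) := ((IsUnit.mk0 _ hgf).map (U1_eps δ)).pow N
  exact e5.mul_right_cancel (e1.trans e4.symm)

/-- Given finitely many charts and finite sets `Z i` of functions on them, each derivation `D` of
`k` which kills a certain finite set lifts to derivations of the charts which kill the `Z i`, in a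
compatible way.
Proof. Let `B = (W i).B`; choose generators `g` of `B` which include `Z i`, `B = k[x] / I`, and let
`D` kill the coefficients of generators of the ideal `I`; then the coefficientwise derivation of
`k[x]` preserves `I` and gives `d i` with `d i g = 0`. The intersection of `W i` and `W j` is covered
by finitely many basic open subsets `U` of `W i`, and the deformations of points of `W i` given by
`d i` and of `W j` given by `d j` agree on `U` if they agree on the generators `g'` of `(W j).B`,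
whose images in `U.B` are fractions `h / g ^ N`; so `d i` has to kill `h` and `g`. -/
theorem exists_twFam [IsSeparated π] [LocallyOfFiniteType π] [QuasiCompact π] {ι : Type}
    [Finite ι] (W : ι → Chart π) (Z : ∀ i, Finset (W i).B) :
    ∃ C : Finset k, ∀ D : Derivation ℤ k k, (∀ c ∈ C, D c = 0) →
      ∃ T : TwFam π D W, ∀ i, ∀ z ∈ Z i, T.d i z = 0 := by
  classical
  have := Fintype.ofFinite ι
  have hft : ∀ i, Algebra.FiniteType k (W i).B := fun i => (W i).finiteType
  have hG : ∀ i, ∃ G : Finset (W i).B, Algebra.adjoin k (G : Set (W i).B) = ⊤ := fun i =>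
    (hft i).out
  choose G hG using hG
  have hH := fun i j => U1_pair (W i) (W j) (G j) (hG j)
  choose H hH using hH
  have hC := fun i => U1_one (k := k) (Z i ∪ G i ∪ Finset.univ.biUnion fun j => H i j)
  choose C hC using hC
  refine ⟨Finset.univ.biUnion C, fun D hD => ?_⟩
  have hd := fun i => hC i D fun c hc => hD c (Finset.mem_biUnion.2 ⟨i, Finset.mem_univ i, hc⟩)
  choose d hd hd0 using hd
  refine ⟨⟨d, hd, ?_⟩, ?_⟩
  · intro i j K _ _ δ hδ f f' hff'
    exact hH i j D (d i) (hd i) (d j) (hd j)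
      (fun h hh => hd0 i h (Finset.mem_union_right _
        (Finset.mem_biUnion.2 ⟨j, Finset.mem_univ j, hh⟩)))
      (fun g hg => hd0 j g (Finset.mem_union_left _ (Finset.mem_union_right _ hg)))
      K δ hδ f f' hff'
  · intro i z hz
    exact hd0 i z (Finset.mem_union_left _ (Finset.mem_union_left _ hz))

end Pool.Agent.H19VF
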