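import Pool.Agent.H19VF.U_Defs
import Pool.Agent.H19VF.F_Chart
import Pool.Agent.H19VF.F_Pt0
import Pool.Agent.H19VF.S2_Free
import Pool.Agent.H19VF.S4_Glue

/-! # Task U2: deformation of curves given by a derivation of the ground field -/

set_option autoImplicit false

open AlgebraicGeometry CategoryTheory Polynomial

universe u

namespace Pool.Agent.H19VF

variable {k : Type u} [Field k] {V : Scheme.{u}} {π : V ⟶ Spec (.of k)}

section U2aux

/-- The derivations of a ring. -/
abbrev U2D (R : Type u) [CommRing R] : Type u := Derivation ℤ R R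

/-- The ring homomorphism `R → S[ε]`, `r ↦ φ r + ε d r`. -/
noncomputable def U2_hom {R S : Type u} [CommRing R] [CommRing S] (φ : R →+* S) (d : R → S)
    (h0 : d 0 = 0) (h1 : d 1 = 0) (ha : ∀ x y, d (x + y) = d x + d y)
    (hm : ∀ x y, d (x * y) = φ x * d y + φ y * d x) : R →+* DualNumber S where
  toFun r := TrivSqZeroExt.inl (φ r) + TrivSqZeroExt.inr (d r)
  map_one' := by ext <;> simp [h1]
  map_mul' x y := by
    ext
    · simp
    · simp [hm, mul_comm]
  map_zero' := by ext <;> simp [h0]
  map_add' x y := by ext <;> simp [ha]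

/-- The derivation given by a homomorphism to the dual numbers. -/
noncomputable def U2_der {B : Type u} [CommRing B] (Ψ : B →+* DualNumber B)
    (h : ∀ b, (Ψ b).fst = b) : U2D B :=
  Derivation.mk' (AddMonoidHom.toIntLinearMap
    { toFun := fun b => (Ψ b).snd
      map_zero' := by rw [map_zero]; rfl
      map_add' := fun x y => by rw [map_add]; rfl })
    (fun a b => by
      show (Ψ (a * b)).snd = a • (Ψ b).snd + b • (Ψ a).snd
      rw [map_mul, TrivSqZeroExt.snd_mul, h, h]
      simp [mul_comm])

theorem U2_der_apply {B : Type u} [CommRing B] (Ψ : B →+* DualNumber B)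
    (h : ∀ b, (Ψ b).fst = b) (b : B) : U2_der Ψ h b = (Ψ b).snd := rfl

/-- Derivations extend to localizations. -/
theorem U2_loc {R S : Type u} [CommRing R] [CommRing S] [Algebra R S] (M : Submonoid R)
    [IsLocalization M S] (δ : U2D R) :
    ∃ δ' : U2D S, ∀ r, δ' (algebraMap R S r) = algebraMap R S (δ r) := by
  let g : R →+* DualNumber S := U2_hom (algebraMap R S) (fun r => algebraMap R S (δ r))
    (by simp) (by simp) (by simp) (by intro x y; simp)
  have hg : ∀ y : M, IsUnit (g y) := by
    intro y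
    rw [TrivSqZeroExt.isUnit_iff_isUnit_fst]
    have h1 : (g y).fst = algebraMap R S y := by
      show (TrivSqZeroExt.inl (algebraMap R S y) + TrivSqZeroExt.inr _ : DualNumber S).fst = _
      simp
    rw [h1]
    exact IsLocalization.map_units S y
  let Ψ : S →+* DualNumber S := IsLocalization.lift (M := M) hg
  have hΨ : ∀ r, Ψ (algebraMap R S r) = g r := fun r => IsLocalization.lift_eq hg r
  have hfst : ∀ b, (Ψ b).fst = b := by
    intro b
    have h1 : (TrivSqZeroExt.fstHom S S S).toRingHom.comp Ψ = RingHom.id S := by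
      apply IsLocalization.ringHom_ext M
      ext r
      show (Ψ (algebraMap R S r)).fst = algebraMap R S r
      rw [hΨ]
      show (TrivSqZeroExt.inl (algebraMap R S r) + TrivSqZeroExt.inr _ : DualNumber S).fst = _
      simp
    exact congr($h1 b)
  refine ⟨U2_der Ψ hfst, fun r => ?_⟩
  rw [U2_der_apply, hΨ]
  show (TrivSqZeroExt.inl (algebraMap R S r) +
    TrivSqZeroExt.inr (algebraMap R S (δ r)) : DualNumber S).snd = algebraMap R S (δ r)
  rw [TrivSqZeroExt.snd_add, TrivSqZeroExt.snd_inl, TrivSqZeroExt.snd_inr, zero_add]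

/-- A homomorphism from a localization is compatible with derivations if it is so on the original
ring. -/
theorem U2_compat {R S S' : Type u} [CommRing R] [CommRing S] [CommRing S'] [Algebra R S]
    (M : Submonoid R) [IsLocalization M S] (δ : U2D S) (δ' : U2D S')
    (ψ : S →+* S') (h : ∀ r, ψ (δ (algebraMap R S r)) = δ' (ψ (algebraMap R S r))) (x : S) :
    ψ (δ x) = δ' (ψ x) := by
  obtain ⟨⟨a, s⟩, hx⟩ := IsLocalization.surj M x
  have hx' : x * algebraMap R S s = algebraMap R S a := hx
  have h1 := congrArg δ hx'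
  have h2 := congrArg δ' (congrArg ψ hx')
  rw [Derivation.leibniz] at h1
  rw [map_mul, Derivation.leibniz, ← h s, ← h a] at h2
  have h3 := congrArg ψ h1
  simp only [smul_eq_mul, map_add, map_mul] at h2 h3
  have h4 : IsUnit (ψ (algebraMap R S s)) := (IsLocalization.map_units S s).map ψ
  apply h4.mul_left_cancel
  have h5 := h3.trans h2.symm
  exact add_left_cancel h5

theorem U2_ext {D : Derivation ℤ k k} {R S : Type u} [CommRing R] [Algebra k R]
    [CommRing S] [Algebra k S] [Algebra R S] [IsScalarTower k R S] {δ : Derivation ℤ R R}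
    (hδ : Ext D δ) {δ' : Derivation ℤ S S}
    (h : ∀ r, δ' (algebraMap R S r) = algebraMap R S (δ r)) : Ext D δ' := by
  intro c
  rw [IsScalarTower.algebraMap_apply k R S, h, hδ, ← IsScalarTower.algebraMap_apply k R S]

/-- The first order deformations are natural. -/
theorem U2_tw {D : Derivation ℤ k k} {B R R' : Type u} [CommRing B] [Algebra k B] [CommRing R]
    [Algebra k R] [CommRing R'] [Algebra k R'] (f : B →ₐ[k] R) (d : Derivation ℤ B B)
    (hd : Ext D d) (δ : Derivation ℤ R R) (hδ : Ext D δ) (δ' : Derivation ℤ R' R')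
    (hδ' : Ext D δ') (φ : R →ₐ[k] R') (hφ : ∀ r, φ (δ r) = δ' (φ r)) :
    (dmap φ).comp (tw f d hd δ hδ) = tw (φ.comp f) d hd δ' hδ' := by
  apply AlgHom.ext
  intro b
  ext
  · rw [AlgHom.comp_apply, dmap_fst, tw_fst, tw_fst, AlgHom.comp_apply]
  · rw [AlgHom.comp_apply, dmap_snd, tw_snd, tw_snd, map_sub, hφ, AlgHom.comp_apply,
      AlgHom.comp_apply]

theorem U2_dmap_comp {R R' R'' : Type u} [CommRing R] [Algebra k R] [CommRing R'] [Algebra k R']
    [CommRing R''] [Algebra k R''] (φ : R →ₐ[k] R') (ψ : R' →ₐ[k] R'') :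
    (dmap ψ).comp (dmap φ) = dmap (ψ.comp φ) := by
  apply AlgHom.ext
  intro b
  ext
  · rw [AlgHom.comp_apply, dmap_fst, dmap_fst, dmap_fst, AlgHom.comp_apply]
  · rw [AlgHom.comp_apply, dmap_snd, dmap_snd, dmap_snd, AlgHom.comp_apply]

theorem U2_dfst {R R' : Type u} [CommRing R] [Algebra k R] [CommRing R'] [Algebra k R']
    (φ : R →ₐ[k] R') : (dfst k R').comp (dmap φ) = φ.comp (dfst k R) := by
  apply AlgHom.ext
  intro b
  rw [AlgHom.comp_apply, AlgHom.comp_apply]
  exact dmap_fst φ b

theorem U2_dfst_tw {D : Derivation ℤ k k} {B R : Type u} [CommRing B] [Algebra k B] [CommRing R]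
    [Algebra k R] (f : B →ₐ[k] R) (d : Derivation ℤ B B) (hd : Ext D d) (δ : Derivation ℤ R R)
    (hδ : Ext D δ) : (dfst k R).comp (tw f d hd δ hδ) = f := by
  apply AlgHom.ext
  intro b
  exact tw_fst f d hd δ hδ b

/-- Every point over a local ring lies in a chart. -/
theorem U2_chart {ι : Type} {W : ι → Chart π} (hW : ∀ v : V, ∃ i, v ∈ Set.range (W i).pt.1)
    {R : Type u} [CommRing R] [IsLocalRing R] [Algebra k R] (p : Pt π R) :
    ∃ i, ∃ f : (W i).B →ₐ[k] R, p = (W i).pt.map f := by
  obtain ⟨i, hi⟩ := hW (p.1 (IsLocalRing.closedPoint R))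
  obtain ⟨f, hf⟩ := (W i).F3_lift_local p hi
  exact ⟨i, f, hf⟩

end U2aux

/-- The deformation is natural. -/
theorem IsTw.base {D : Derivation ℤ k k} {ι : Type} {W : ι → Chart π} {T : TwFam π D W}
    {R R' : Type u} [CommRing R] [Algebra k R] [CommRing R'] [Algebra k R']
    {δ : Derivation ℤ R R} {δ' : Derivation ℤ R' R'} {p : Pt π R} {q : Pt π (DualNumber R)}
    (h : IsTw T δ p q) (φ : R →ₐ[k] R') (hφ : ∀ r, φ (δ r) = δ' (φ r)) :
    IsTw T δ' (p.map φ) (q.map (dmap φ)) := by
  refine ⟨?_, ?_⟩
  · rw [Pt.map_map, U2_dfst, ← Pt.map_map, h.1]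
  · intro K _ _ δK hK ψ hψ i f hf
    rw [Pt.map_map] at hf
    rw [Pt.map_map, U2_dmap_comp]
    refine h.2 K δK hK (ψ.comp φ) (fun r => ?_) i f hf
    rw [AlgHom.comp_apply, AlgHom.comp_apply, hφ, hψ]

/-- The deformation is unique over a domain. (`Pt.dual_injective` for the field of fractions.) -/
theorem IsTw.unique [IsSeparated π] {D : Derivation ℤ k k} {ι : Type} {W : ι → Chart π}
    (hW : ∀ v : V, ∃ i, v ∈ Set.range (W i).pt.1) {T : TwFam π D W}
    {R : Type u} [CommRing R] [IsDomain R] [Algebra k R] {δ : Derivation ℤ R R} (hδ : Ext D δ)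
    {p : Pt π R} {q q' : Pt π (DualNumber R)} (h : IsTw T δ p q) (h' : IsTw T δ p q') : q = q' := by
  obtain ⟨δK, hδK⟩ := U2_loc (S := FractionRing R) (nonZeroDivisors R) δ
  have hK : Ext D δK := U2_ext hδ hδK
  let φ : R →ₐ[k] FractionRing R := IsScalarTower.toAlgHom k R (FractionRing R)
  have hφ : Function.Injective φ := IsFractionRing.injective R (FractionRing R)
  have hc : ∀ r, φ (δ r) = δK (φ r) := fun r => (hδK r).symm
  obtain ⟨i, f, hf⟩ := U2_chart hW (p.map φ)
  apply Pt.dual_injective φ hφ
  rw [h.2 (FractionRing R) δK hK φ hc i f hf, h'.2 (FractionRing R) δK hK φ hc i f hf]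

/-- The deformation exists over a domain. (`glue_dual`, with the deformation of the generic point,
and near a prime ideal the chart which contains the local point, `Chart.F3_lift_local`; the
derivation extends to the field of fractions and preserves the local rings. To check the
condition for a homomorphism `φ` to a field `K`, factor through the local ring at its kernel and use
`T.compat`.) -/
theorem exists_isTw [IsSeparated π] [LocallyOfFiniteType π] {D : Derivation ℤ k k} {ι : Type}
    {W : ι → Chart π} (hW : ∀ v : V, ∃ i, v ∈ Set.range (W i).pt.1) (T : TwFam π D W)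
    {R : Type u} [CommRing R] [IsDomain R] [Algebra k R] (δ : Derivation ℤ R R) (hδ : Ext D δ)
    (p : Pt π R) : ∃ q : Pt π (DualNumber R), IsTw T δ p q := by
  obtain ⟨δK, hδK⟩ := U2_loc (S := FractionRing R) (nonZeroDivisors R) δ
  have hK : Ext D δK := U2_ext hδ hδK
  have hinj : Function.Injective (algebraMap R (FractionRing R)) :=
    IsFractionRing.injective R (FractionRing R)
  obtain ⟨i0, f0, hf0⟩ := U2_chart hW (p.map (IsScalarTower.toAlgHom k R (FractionRing R)))
  -- the local data at a prime ideal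
  have hloc : ∀ q : Ideal R, ∀ _ : q.IsPrime,
      ∃ (ψ : Localization.AtPrime q →ₐ[k] FractionRing R)
        (δq : U2D (Localization.AtPrime q)),
        Function.Injective ψ ∧
        (∀ r, ψ (algebraMap R (Localization.AtPrime q) r) = algebraMap R (FractionRing R) r) ∧
        (∀ r, δq (algebraMap R (Localization.AtPrime q) r) =
          algebraMap R (Localization.AtPrime q) (δ r)) ∧
        (∀ x, ψ (δq x) = δK (ψ x)) := by
    intro q hq
    have hu : ∀ y : q.primeCompl, IsUnit (algebraMap R (FractionRing R) y) := by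
      intro y
      rw [isUnit_iff_ne_zero]
      intro h0
      have : (y : R) = 0 := hinj (by rw [h0, map_zero])
      exact y.2 (this ▸ q.zero_mem)
    let ψ : Localization.AtPrime q →ₐ[k] FractionRing R :=
      IsLocalization.liftAlgHom (M := q.primeCompl)
        (f := IsScalarTower.toAlgHom k R (FractionRing R)) hu
    have hψa : ∀ r, ψ (algebraMap R (Localization.AtPrime q) r) =
        algebraMap R (FractionRing R) r := fun r => IsLocalization.lift_eq (M := q.primeCompl) hu r
    obtain ⟨δq, hδq⟩ := U2_loc (S := Localization.AtPrime q) q.primeCompl δ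
    refine ⟨ψ, δq, ?_, hψa, hδq, ?_⟩
    · rw [injective_iff_map_eq_zero]
      intro x hx
      obtain ⟨b, t, rfl⟩ := IsLocalization.exists_mk'_eq q.primeCompl x
      have h1 : ψ (algebraMap R _ b) = 0 := by
        rw [← IsLocalization.mk'_spec (Localization.AtPrime q) b t, map_mul, hx, zero_mul]
      rw [hψa] at h1
      have h2 : b = 0 := hinj (by rw [h1, map_zero])
      rw [h2, IsLocalization.mk'_zero]
    · exact U2_compat q.primeCompl δq δK ψ.toRingHom (fun r => by
        show ψ (δq (algebraMap R _ r)) = δK (ψ (algebraMap R _ r))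
        rw [hδq, hψa, hψa, hδK])
  obtain ⟨θ, hθdef⟩ : ∃ θ : Pt π (DualNumber (FractionRing R)),
      θ = (W i0).pt.map (tw f0 (T.d i0) (T.hd i0) δK hK) := ⟨_, rfl⟩
  have hθ : ∀ i (f : (W i).B →ₐ[k] FractionRing R),
      p.map (IsScalarTower.toAlgHom k R (FractionRing R)) = (W i).pt.map f →
      θ = (W i).pt.map (tw f (T.d i) (T.hd i) δK hK) := by
    intro i f hf
    rw [hθdef]
    exact T.compat i0 i (FractionRing R) δK hK f0 f (hf0.symm.trans hf)
  have hfac : ∀ q : Ideal R, ∀ _ : q.IsPrime, ∀ (ψ : Localization.AtPrime q →ₐ[k] FractionRing R),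
      (∀ r, ψ (algebraMap R (Localization.AtPrime q) r) = algebraMap R (FractionRing R) r) →
      ∀ i (g : (W i).B →ₐ[k] Localization.AtPrime q),
      p.map (IsScalarTower.toAlgHom k R (Localization.AtPrime q)) = (W i).pt.map g →
      p.map (IsScalarTower.toAlgHom k R (FractionRing R)) = (W i).pt.map (ψ.comp g) := by
    intro q hq ψ hψ i g hg
    have h1 : ψ.comp (IsScalarTower.toAlgHom k R (Localization.AtPrime q)) =
        IsScalarTower.toAlgHom k R (FractionRing R) := by
      apply AlgHom.ext
      intro r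
      exact hψ r
    rw [← Pt.map_map, ← hg, Pt.map_map, h1]
  obtain ⟨Θ, hΘ1, hΘ2⟩ := glue_dual p θ (by
    rw [hθdef, Pt.map_map, U2_dfst_tw, hf0]) (by
    intro q hq
    obtain ⟨ψ, δq, hψi, hψa, hδq, hψδ⟩ := hloc q hq
    obtain ⟨i, g, hg⟩ := U2_chart hW (p.map (IsScalarTower.toAlgHom k R (Localization.AtPrime q)))
    have hf := hfac q hq ψ hψa i g hg
    have hreg : ∀ x : Localization.AtPrime q, ∃ a c : R, c ∉ q ∧
        ψ x * algebraMap R (FractionRing R) c = algebraMap R (FractionRing R) a := by
      intro x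
      obtain ⟨⟨a, s⟩, hx⟩ := IsLocalization.surj q.primeCompl x
      refine ⟨a, s, s.2, ?_⟩
      have hx' : x * algebraMap R _ (s : R) = algebraMap R _ a := hx
      rw [← hψa, ← hψa, ← map_mul, hx']
    refine ⟨W i, tw (ψ.comp g) (T.d i) (T.hd i) δK hK, hθ i _ hf, ?_, ?_⟩
    · intro b
      rw [tw_fst]
      exact hreg (g b)
    · intro b
      rw [tw_snd, AlgHom.comp_apply, AlgHom.comp_apply, ← hψδ, ← map_sub]
      exact hreg _)
  refine ⟨Θ, hΘ1, ?_⟩
  intro L _ _ δL hL φ hφ i f hf
  -- the kernel of `φ`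
  obtain ⟨q, hqdef⟩ : ∃ q : Ideal R, q = RingHom.ker φ.toRingHom := ⟨_, rfl⟩
  have hq : q.IsPrime := by
    rw [hqdef]
    exact RingHom.ker_isPrime _
  have hmem : ∀ r, r ∈ q ↔ φ r = 0 := by
    intro r
    rw [hqdef]
    exact RingHom.mem_ker
  have hu : ∀ y : q.primeCompl, IsUnit (φ y) := by
    intro y
    rw [isUnit_iff_ne_zero]
    exact fun h0 => y.2 ((hmem _).2 h0)
  let φq : Localization.AtPrime q →ₐ[k] L :=
    IsLocalization.liftAlgHom (M := q.primeCompl) (f := φ) hu
  have hφqa : ∀ r, φq (algebraMap R (Localization.AtPrime q) r) = φ r :=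
    fun r => IsLocalization.lift_eq (M := q.primeCompl) hu r
  have hφqc : φq.comp (IsScalarTower.toAlgHom k R (Localization.AtPrime q)) = φ := by
    apply AlgHom.ext
    intro r
    exact hφqa r
  have hφql : IsLocalHom φq.toRingHom := by
    constructor
    intro x hx
    obtain ⟨⟨a, s⟩, hxa⟩ := IsLocalization.surj q.primeCompl x
    have hx' : x * algebraMap R _ (s : R) = algebraMap R _ a := hxa
    have h1 : IsUnit (φq x) := hx
    have h2 : φq x * φ s = φ a := by rw [← hφqa, ← hφqa, ← map_mul, hx']
    have h3 : IsUnit (φ a) := by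
      rw [← h2]
      exact h1.mul (hu s)
    have h4 : a ∈ q.primeCompl := by
      intro ha
      have ha' : a ∈ q := ha
      rw [hmem] at ha'
      rw [ha'] at h3
      exact not_isUnit_zero h3
    have h5 : IsUnit (algebraMap R (Localization.AtPrime q) a) :=
      IsLocalization.map_units (Localization.AtPrime q) (⟨a, h4⟩ : q.primeCompl)
    rw [← hx'] at h5
    exact isUnit_of_mul_isUnit_left h5
  obtain ⟨ψ, δq, hψi, hψa, hδq, hψδ⟩ := hloc q hq
  have hφqδ : ∀ x, φq (δq x) = δL (φq x) :=
    U2_compat q.primeCompl δq δL φq.toRingHom (fun r => by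
      show φq (δq (algebraMap R _ r)) = δL (φq (algebraMap R _ r))
      rw [hδq, hφqa, hφqa, hφ])
  obtain ⟨g, hg, hgf⟩ := (W i).factor_local φq hφql
    (p.map (IsScalarTower.toAlgHom k R (Localization.AtPrime q))) f (by
      rw [Pt.map_map, hφqc, hf])
  have hδqe : Ext D δq := U2_ext hδ hδq
  have hfK := hfac q hq ψ hψa i g hg
  have key : Θ.map (dmap (IsScalarTower.toAlgHom k R (Localization.AtPrime q))) =
      (W i).pt.map (tw g (T.d i) (T.hd i) δq hδqe) := by
    apply Pt.dual_injective ψ hψi
    have h1 : ψ.comp (IsScalarTower.toAlgHom k R (Localization.AtPrime q)) =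
        IsScalarTower.toAlgHom k R (FractionRing R) := by
      apply AlgHom.ext
      intro r
      exact hψa r
    rw [Pt.map_map, U2_dmap_comp, h1, hΘ2, Pt.map_map,
      U2_tw g (T.d i) (T.hd i) δq hδqe δK hK ψ hψδ]
    exact hθ i _ hfK
  have h2 := congrArg (fun x => Pt.map x (dmap φq)) key
  simp only [Pt.map_map] at h2
  rw [U2_dmap_comp, hφqc, U2_tw g (T.d i) (T.hd i) δq hδqe δL hL φq hφqδ, hgf] at h2
  exact h2

section U2poly

/-- Two derivations along a homomorphism from a polynomial ring agree if they agree on the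
constants and on the variable. -/
theorem U2_poly {S : Type u} [CommRing S] (φ : k[X] →+* S) (a b : k[X] → S)
    (ha : ∀ x y, a (x + y) = a x + a y) (hb : ∀ x y, b (x + y) = b x + b y)
    (ham : ∀ x y, a (x * y) = φ x * a y + φ y * a x)
    (hbm : ∀ x y, b (x * y) = φ x * b y + φ y * b x)
    (hC : ∀ c, a (C c) = b (C c)) (hX : a X = b X) (p : k[X]) : a p = b p := by
  induction p using Polynomial.induction_on with
  | C c => exact hC c
  | add p q hp hq => rw [ha, hb, hp, hq]
  | monomial n c h =>
    rw [pow_succ, ← mul_assoc, ham, hbm, h, hX]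

/-- The coefficientwise derivation of the polynomial ring. -/
theorem U2_coeff (D : Derivation ℤ k k) : ∃ δ : U2D k[X],
    (∀ c, δ (C c) = C (D c)) ∧ δ X = 0 := by
  let c0 : k →+* DualNumber k[X] := U2_hom (Polynomial.C : k →+* k[X]) (fun c => C (D c))
    (by simp) (by simp) (by simp) (by intro x y; simp)
  let Ψ : k[X] →+* DualNumber k[X] := Polynomial.eval₂RingHom c0 (TrivSqZeroExt.inl X)
  have hC : ∀ c, Ψ (C c) = TrivSqZeroExt.inl (C c) + TrivSqZeroExt.inr (C (D c)) := by
    intro c
    exact Polynomial.eval₂_C _ _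
  have hX : Ψ X = TrivSqZeroExt.inl X := Polynomial.eval₂_X _ _
  have hfst : ∀ b, (Ψ b).fst = b := by
    intro b
    have h1 : (TrivSqZeroExt.fstHom k[X] k[X] k[X]).toRingHom.comp Ψ = RingHom.id k[X] := by
      apply Polynomial.ringHom_ext
      · intro a
        show (Ψ (C a)).fst = C a
        rw [hC]
        simp
      · show (Ψ X).fst = X
        rw [hX]
        simp
    exact congr($h1 b)
  refine ⟨U2_der Ψ hfst, fun c => ?_, ?_⟩
  · rw [U2_der_apply, hC]
    simp
  · rw [U2_der_apply, hX]
    simp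

end U2poly

/-- The deformation of a curve, with its values at `0` and infinity. (`exists_isTw` for `k[X]`
with the coefficientwise derivation, twice; `IsTw.base` and `IsTw.unique` for the Laurent
polynomials; `S2swapP` to pass from `(k[X])[ε]` to `(k[ε])[X]`.) -/
theorem exists_tw_curve [IsSeparated π] [LocallyOfFiniteType π] {D : Derivation ℤ k k} {ι : Type}
    {W : ι → Chart π} (hW : ∀ v : V, ∃ i, v ∈ Set.range (W i).pt.1) (T : TwFam π D W)
    (F : Crv π k) :
    ∃ G : Crv π (DualNumber k), G.map (dfst k k) = F ∧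
      (∀ i (f : (W i).B →ₐ[k] k), F.at (some 0) = (W i).pt.map f →
        G.at (some 0) = (W i).pt.map (tw f (T.d i) (T.hd i) D (ext_self D))) ∧
      (∀ i (f : (W i).B →ₐ[k] k), F.at none = (W i).pt.map f →
        G.at none = (W i).pt.map (tw f (T.d i) (T.hd i) D (ext_self D))) := by
  obtain ⟨δ, hδC, hδX⟩ := U2_coeff D
  have hδ : Ext D δ := hδC
  obtain ⟨qy, hqy⟩ := exists_isTw hW T δ hδ F.y
  obtain ⟨qw, hqw⟩ := exists_isTw hW T δ hδ F.w
  -- the derivation of the Laurent polynomials
  obtain ⟨δL, hδL⟩ := U2_loc (S := LaurentPolynomial k) (Submonoid.powers (X : k[X])) δ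
  have hYa : ∀ r : k[X], algebraMap k[X] (LaurentPolynomial k) r = lauY k k r := by
    intro r
    have h1 : algebraMap k[X] (LaurentPolynomial k) = (lauY k k).toRingHom := by
      apply Polynomial.ringHom_ext
      · intro a
        rw [LaurentPolynomial.algebraMap_eq_toLaurent, Polynomial.toLaurent_C]
        exact (J1lauY_C a).symm
      · rw [LaurentPolynomial.algebraMap_eq_toLaurent, Polynomial.toLaurent_X]
        exact J1lauY_X.symm
    exact congr($h1 r)
  have hY : ∀ r, lauY k k (δ r) = δL (lauY k k r) := by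
    intro r
    rw [← hYa, ← hYa, hδL]
  have hLC : ∀ c : k, δL (LaurentPolynomial.C c) = LaurentPolynomial.C (D c) := by
    intro c
    have h1 := hY (C c)
    rw [hδC, J1lauY_C, J1lauY_C] at h1
    exact h1.symm
  have hLT : δL (LaurentPolynomial.T 1) = 0 := by
    have h1 := hY X
    rw [hδX, map_zero, J1lauY_X] at h1
    exact h1.symm
  have hLT' : δL (LaurentPolynomial.T (-1)) = 0 := by
    have h1 : (LaurentPolynomial.T 1 : LaurentPolynomial k) * LaurentPolynomial.T (-1) = 1 := by
      rw [← LaurentPolynomial.T_add]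
      simp
    have h2 := congrArg δL h1
    rw [Derivation.leibniz, hLT, smul_zero, add_zero, Derivation.map_one_eq_zero, smul_eq_mul] at h2
    have h3 := congrArg (fun x => LaurentPolynomial.T (-1) * x) h2
    simp only [mul_zero] at h3
    rw [← mul_assoc, mul_comm (LaurentPolynomial.T (-1)), h1, one_mul] at h3
    exact h3
  have hWL : ∀ r, lauW k k (δ r) = δL (lauW k k r) := by
    intro r
    refine U2_poly (lauW k k).toRingHom (fun x => lauW k k (δ x)) (fun x => δL (lauW k k x))
      ?_ ?_ ?_ ?_ ?_ ?_ r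
    · intro x y
      simp only [map_add]
    · intro x y
      simp only [map_add]
    · intro x y
      simp only [Derivation.leibniz, map_add, smul_eq_mul, map_mul]
      rfl
    · intro x y
      simp only [Derivation.leibniz, map_mul, smul_eq_mul]
      rfl
    · intro c
      simp only [hδC, J1lauW_C, hLC]
    · simp only [hδX, map_zero, J1lauW_X, hLT']
  have hLe : Ext D δL := by
    intro c
    have h1 : algebraMap k (LaurentPolynomial k) c = LaurentPolynomial.C c := rfl
    have h2 : algebraMap k (LaurentPolynomial k) (D c) = LaurentPolynomial.C (D c) := rfl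
    rw [h1, h2, hLC]
  have hdom : IsDomain (LaurentPolynomial k) :=
    IsLocalization.isDomain_of_le_nonZeroDivisors (LaurentPolynomial k)
      (M := Submonoid.powers (X : k[X])) (powers_le_nonZeroDivisors_of_noZeroDivisors X_ne_zero)
  have hgl : qy.map (dmap (lauY k k)) = qw.map (dmap (lauW k k)) := by
    have h1 := hqy.base (δ' := δL) (lauY k k) hY
    have h2 := hqw.base (δ' := δL) (lauW k k) hWL
    rw [← F.glue] at h2
    exact IsTw.unique hW hLe h1 h2
  have hev : ∀ r, evk (0 : k) (δ r) = D (evk (0 : k) r) := by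
    intro r
    refine U2_poly (evk (0 : k) : k[X] →ₐ[k] k).toRingHom (fun x => evk (0 : k) (δ x))
      (fun x => D (evk (0 : k) x)) ?_ ?_ ?_ ?_ ?_ ?_ r
    · intro x y
      simp only [map_add]
    · intro x y
      simp only [map_add]
    · intro x y
      simp only [Derivation.leibniz, map_add, smul_eq_mul, map_mul]
      rfl
    · intro x y
      simp only [Derivation.leibniz, map_mul, smul_eq_mul]
      rfl
    · intro c
      simp only [hδC, J1evk_C]
    · simp only [hδX, map_zero, J1evk_X]
  refine ⟨⟨qy.map (S2swapP k k), qw.map (S2swapP k k), ?_⟩, ?_, ?_, ?_⟩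
  · rw [Pt.map_map, Pt.map_map, S2swap_lauY, S2swap_lauW, ← Pt.map_map, ← Pt.map_map, hgl]
  · apply Crv.ext
    · change (qy.map (S2swapP k k)).map (pmap (dfst k k)) = F.y
      rw [Pt.map_map, S2swap_fst]
      exact hqy.1
    · change (qw.map (S2swapP k k)).map (pmap (dfst k k)) = F.w
      rw [Pt.map_map, S2swap_fst]
      exact hqw.1
  · intro i f hf
    change (qy.map (S2swapP k k)).map (evk 0) = _
    rw [Pt.map_map, S2swap_evk]
    exact hqy.2 k D (ext_self D) (evk 0) hev i f hf
  · intro i f hf
    change (qw.map (S2swapP k k)).map (evk 0) = _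
    rw [Pt.map_map, S2swap_evk]
    exact hqw.2 k D (ext_self D) (evk 0) hev i f hf

end Pool.Agent.H19VF
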