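import Pool.Agent.H19VF.F_Chart
import Pool.Agent.H19VF.Q_Defs

/-! # Task U3: general pairs of points -/

set_option autoImplicit false

open AlgebraicGeometry CategoryTheory Polynomial

universe u

namespace Pool.Agent.H19VF

variable {k : Type u} [Field k] {V : Scheme.{u}} {π : V ⟶ Spec (.of k)}

open TensorProduct in
/-- The polynomial ring in `2 n` variables as a tensor product. -/
noncomputable def U3_equiv (k : Type u) [Field k] (n : ℕ) :
    MvPolynomial (Fin n ⊕ Fin n) k ≃ₐ[k] MvPolynomial (Fin n) k ⊗[k] MvPolynomial (Fin n) k :=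
  AlgEquiv.ofAlgHom
    (MvPolynomial.aeval (Sum.elim (fun j => MvPolynomial.X j ⊗ₜ 1) (fun j => 1 ⊗ₜ MvPolynomial.X j)))
    (Algebra.TensorProduct.lift (MvPolynomial.rename Sum.inl) (MvPolynomial.rename Sum.inr)
      (fun _ _ => Commute.all _ _))
    (by
      ext j
      · simp
      · simp)
    (by
      ext j
      rcases j with j | j <;> simp)

open TensorProduct in
/-- The map of the polynomial ring in `2 n` variables to the tensor product of two algebras with
etale coordinates is flat. -/
theorem U3_flat {n : ℕ} {B B' : Type u} [CommRing B] [Algebra k B] [CommRing B'] [Algebra k B']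
    (z : Fin n → B) (hz : IsEtaleCoord k z) (z' : Fin n → B') (hz' : IsEtaleCoord k z') :
    (MvPolynomial.aeval (Sum.elim (fun j => z j ⊗ₜ[k] (1 : B')) (fun j => (1 : B) ⊗ₜ[k] z' j)) :
      MvPolynomial (Fin n ⊕ Fin n) k →ₐ[k] B ⊗[k] B').toRingHom.Flat := by
  have h1 : (MvPolynomial.aeval z : MvPolynomial (Fin n) k →ₐ[k] B).toRingHom.Flat :=
    (RingHom.Etale.iff_flat_and_formallyUnramified.1 hz).1
  have h2 : (MvPolynomial.aeval z' : MvPolynomial (Fin n) k →ₐ[k] B').toRingHom.Flat :=
    (RingHom.Etale.iff_flat_and_formallyUnramified.1 hz').1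
  have h3 := RingHom.Flat.tensorProductMap (R := k) (S := k) h1 h2
  have h4 : (MvPolynomial.aeval (Sum.elim (fun j => z j ⊗ₜ[k] (1 : B'))
      (fun j => (1 : B) ⊗ₜ[k] z' j)) :
      MvPolynomial (Fin n ⊕ Fin n) k →ₐ[k] B ⊗[k] B') =
      (Algebra.TensorProduct.map (MvPolynomial.aeval z) (MvPolynomial.aeval z')).comp
        (U3_equiv k n).toAlgHom := by
    ext j
    rcases j with j | j <;> simp [U3_equiv]
  rw [h4]
  exact RingHom.Flat.comp (.of_bijective (U3_equiv k n).bijective) h3

/-- Nullstellensatz: a function which is not nilpotent does not vanish at some point. -/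
theorem U3_point {A : Type u} [IsAlgClosed k] [CommRing A] [IsDomain A]
    [Algebra k A] [Algebra.FiniteType k A] (g : A) (hg : g ≠ 0) : ∃ a : A →ₐ[k] k, a g ≠ 0 := by
  let B := Localization.Away g
  have hinj : Function.Injective (algebraMap A B) :=
    IsLocalization.injective B (powers_le_nonZeroDivisors_of_noZeroDivisors hg)
  have hnt : Nontrivial B := hinj.nontrivial
  have hft : Algebra.FiniteType A B := IsLocalization.finiteType_of_monoid_fg (Submonoid.powers g) B
  have hft' : Algebra.FiniteType k B := Algebra.FiniteType.trans (S := A) inferInstance hft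
  obtain ⟨m, hm⟩ := Ideal.exists_maximal B
  let := Ideal.Quotient.field m
  have hfin := finite_of_finite_type_of_isJacobsonRing k (B ⧸ m)
  have hint : Algebra.IsIntegral k (B ⧸ m) := Algebra.IsIntegral.of_finite k (B ⧸ m)
  have hbij : Function.Bijective (algebraMap k (B ⧸ m)) :=
    IsAlgClosed.algebraMap_bijective_of_isIntegral
  let e : k ≃ₐ[k] (B ⧸ m) := AlgEquiv.ofBijective (Algebra.ofId k (B ⧸ m)) hbij
  refine ⟨(e.symm : (B ⧸ m) →ₐ[k] k).comp ((Ideal.Quotient.mkₐ k m).comp
    (IsScalarTower.toAlgHom k A B)), ?_⟩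
  have hu : IsUnit (algebraMap A B g) := IsLocalization.Away.algebraMap_isUnit g
  have hu2 := hu.map ((e.symm : (B ⧸ m) →ₐ[k] k).comp (Ideal.Quotient.mkₐ k m))
  exact hu2.ne_zero

/-- A flat algebra of finite type over a polynomial ring: points which are not zeros of a function
lie over general points. -/
theorem U3_alg [IsAlgClosed k] {ι : Type} [Finite ι] {C : Type u} [CommRing C] [Algebra k C]
    [Algebra.FiniteType k C] (φ : MvPolynomial ι k →ₐ[k] C) (hφ : φ.toRingHom.Flat) (h : C)
    (χ₀ : C →ₐ[k] k) (hχ₀ : χ₀ h ≠ 0) :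
    ∃ P : MvPolynomial ι k, P ≠ 0 ∧ ∀ c : ι → k, MvPolynomial.eval c P ≠ 0 →
      ∃ χ : C →ₐ[k] k, χ h ≠ 0 ∧ ∀ j, χ (φ (MvPolynomial.X j)) = c j := by
  let A := MvPolynomial ι k
  algebraize [φ.toRingHom]
  have : IsScalarTower k A C := IsScalarTower.of_algebraMap_eq fun x => (φ.commutes x).symm
  have hft : Algebra.FiniteType A C := Algebra.FiniteType.of_restrictScalars_finiteType k A C
  have hfp : Algebra.FinitePresentation A C := Algebra.FinitePresentation.of_finiteType.1 hft
  have hflat : Module.Flat A C := hφ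
  have hopen : IsOpenMap (PrimeSpectrum.comap (algebraMap A C)) :=
    PrimeSpectrum.isOpenMap_comap_of_hasGoingDown_of_finitePresentation
  have hO := hopen _ (PrimeSpectrum.basicOpen h).isOpen
  let q0 : PrimeSpectrum C := ⟨RingHom.ker χ₀, RingHom.ker_isPrime _⟩
  have hq0 : q0 ∈ PrimeSpectrum.basicOpen h := hχ₀
  obtain ⟨_, ⟨P, rfl⟩, hP1, hP2⟩ :=
    PrimeSpectrum.isTopologicalBasis_basic_opens.exists_subset_of_mem_open
      (Set.mem_image_of_mem _ hq0) hO
  refine ⟨P, ?_, fun c hc => ?_⟩
  · rintro rfl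
    exact hP1 (zero_mem _)
  let mc : PrimeSpectrum A := ⟨RingHom.ker (MvPolynomial.eval c), RingHom.ker_isPrime _⟩
  have hmc : mc ∈ PrimeSpectrum.basicOpen P := hc
  obtain ⟨q, hq, hqc⟩ := hP2 hmc
  have hq' : h ∉ q.asIdeal := hq
  have hqp := q.isPrime
  have hg : Ideal.Quotient.mk q.asIdeal h ≠ 0 := fun h0 =>
    hq' (Ideal.Quotient.eq_zero_iff_mem.1 h0)
  obtain ⟨a, ha⟩ := U3_point (k := k) _ hg
  refine ⟨a.comp (Ideal.Quotient.mkₐ k q.asIdeal), ha, fun j => ?_⟩
  have h1 : (MvPolynomial.X j - MvPolynomial.C (c j) : A) ∈ mc.asIdeal := by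
    show MvPolynomial.eval c _ = 0
    simp
  rw [← hqc] at h1
  have h2 : φ (MvPolynomial.X j - MvPolynomial.C (c j)) ∈ q.asIdeal := h1
  have h3 : (a.comp (Ideal.Quotient.mkₐ k q.asIdeal)) (φ (MvPolynomial.X j - MvPolynomial.C (c j)))
      = 0 := by
    show a (Ideal.Quotient.mk q.asIdeal _) = 0
    rw [Ideal.Quotient.eq_zero_iff_mem.2 h2, map_zero]
  rw [map_sub, map_sub, sub_eq_zero] at h3
  rw [h3]
  have h4 : (MvPolynomial.C (c j) : A) = algebraMap k A (c j) := rfl
  rw [h4, AlgHom.commutes, AlgHom.commutes]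
  rfl

open TensorProduct in
/-- The product of two charts. -/
noncomputable def U3_j (W W' : Chart π) :
    Spec (.of (W.B ⊗[k] W'.B)) ⟶ Limits.pullback π π :=
  (pullbackSpecIso k W.B W'.B).inv ≫
    Limits.pullback.map _ _ π π W.pt.1 W'.pt.1 (𝟙 _) (by rw [W.pt.2, Category.comp_id])
      (by rw [W'.pt.2, Category.comp_id])

instance U3_imm (W W' : Chart π) : IsOpenImmersion (U3_j W W') := by
  have := W.imm
  have := W'.imm
  unfold U3_j
  infer_instance

open TensorProduct in
theorem U3_fst (W W' : Chart π) (χ : W.B ⊗[k] W'.B →ₐ[k] k) :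
    Spec.map (CommRingCat.ofHom χ.toRingHom) ≫ U3_j W W' ≫ Limits.pullback.fst π π =
      (W.pt.map (χ.comp Algebra.TensorProduct.includeLeft)).1 := by
  simp only [U3_j, Category.assoc, Limits.pullback.lift_fst, Limits.pullback.map, Pt.map]
  rw [pullbackSpecIso_inv_fst_assoc, ← Spec.map_comp_assoc, ← CommRingCat.ofHom_comp]
  rfl

open TensorProduct in
theorem U3_snd (W W' : Chart π) (χ : W.B ⊗[k] W'.B →ₐ[k] k) :
    Spec.map (CommRingCat.ofHom χ.toRingHom) ≫ U3_j W W' ≫ Limits.pullback.snd π π =
      (W'.pt.map (χ.comp Algebra.TensorProduct.includeRight)).1 := by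
  simp only [U3_j, Category.assoc, Limits.pullback.lift_snd, Limits.pullback.map, Pt.map]
  rw [pullbackSpecIso_inv_snd_assoc, ← Spec.map_comp_assoc, ← CommRingCat.ofHom_comp]
  rfl

open TensorProduct in
/-- A nonempty open subset `O` of `V × V` contains pairs of points with given general coordinates.
Proof. Choose charts with coordinates `W` and `W'` at the projections of a closed point of `O`.
Let `C = W.B ⊗ W'.B`; `Spec C → V × V` is an open
immersion, choose `h ∈ C` with `D(h) ⊆ O` nonempty. `C` is flat over the polynomial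
ring `A` in the `2 n` coordinates, so the image of `D(h)` in `Spec A` is open and nonempty, and
contains `D(P)` for some `P ≠ 0`. If `P(c) ≠ 0`, the fibre of `D(h)` over `c` is nonempty and of
finite type over the algebraically closed field `k`, so it has a `k`-point. -/
theorem exists_pair [IsAlgClosed k] {n : ℕ} [SmoothOfRelativeDimension n π]
    (O : (Limits.pullback π π).Opens) (hO : (O : Set ↥(Limits.pullback π π)).Nonempty) :
    ∃ (W W' : EChart π n) (P : MvPolynomial (Fin n ⊕ Fin n) k), P ≠ 0 ∧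
      ∀ c : Fin n ⊕ Fin n → k, MvPolynomial.eval c P ≠ 0 →
        ∃ (x : W.B →ₐ[k] k) (y : W'.B →ₐ[k] k), (∀ j, x (W.z j) = c (Sum.inl j)) ∧
          (∀ j, y (W'.z j) = c (Sum.inr j)) ∧
          ∃ z ∈ O, IsClosed ({z} : Set ↥(Limits.pullback π π)) ∧
            Limits.pullback.fst π π z = (W.pt.map x).pnt ∧
            Limits.pullback.snd π π z = (W'.pt.map y).pnt := by
  classical
  have hsm : Smooth π := SmoothOfRelativeDimension.smooth n π
  have hft : LocallyOfFiniteType π := inferInstance
  let πX : Limits.pullback π π ⟶ Spec (.of k) := Limits.pullback.fst π π ≫ π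
  have hJ : JacobsonSpace ↥(Limits.pullback π π) := LocallyOfFiniteType.jacobsonSpace πX
  obtain ⟨z0, hz0O, hz0⟩ := nonempty_inter_closedPoints hO O.isOpen.isLocallyClosed
  have hz0' : IsClosed ({z0} : Set ↥(Limits.pullback π π)) := hz0
  have hp0 := pointOfClosedPoint_comp πX z0 hz0'
  have hp1 := pointOfClosedPoint_apply πX z0 hz0'
  generalize pointOfClosedPoint πX z0 hz0' = p0 at hp0 hp1
  have hid : Spec.map (CommRingCat.ofHom (algebraMap k k)) = 𝟙 _ := Spec.map_id (CommRingCat.of k)
  let v1 : Pt π k := ⟨p0 ≫ Limits.pullback.fst π π, by rw [hid, Category.assoc]; exact hp0⟩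
  let v2 : Pt π k := ⟨p0 ≫ Limits.pullback.snd π π, by
    rw [hid, Category.assoc, ← Limits.pullback.condition]; exact hp0⟩
  obtain ⟨W, x0, hx0⟩ := exists_echart n v1
  obtain ⟨W', y0, hy0⟩ := exists_echart n v2
  have hWf := W.toChart.finiteType
  have hWf' := W'.toChart.finiteType
  have hCf : Algebra.FiniteType k (W.B ⊗[k] W'.B) :=
    Algebra.FiniteType.trans (S := W.B) hWf (Algebra.FiniteType.baseChange W.B)
  let χ₀ : W.B ⊗[k] W'.B →ₐ[k] k := Algebra.TensorProduct.lift x0 y0 (fun _ _ => Commute.all _ _)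
  have hχ₀ : Spec.map (CommRingCat.ofHom χ₀.toRingHom) ≫ U3_j W.toChart W'.toChart = p0 := by
    apply Limits.pullback.hom_ext
    · rw [Category.assoc, U3_fst]
      have : χ₀.comp Algebra.TensorProduct.includeLeft = x0 := by
        ext b
        simp [χ₀]
      rw [this, ← hx0]
    · rw [Category.assoc, U3_snd]
      have : χ₀.comp Algebra.TensorProduct.includeRight = y0 := by
        ext b
        simp [χ₀]
      rw [this, ← hy0]
  have hmem : ∀ (χ : W.B ⊗[k] W'.B →ₐ[k] k) (h : W.B ⊗[k] W'.B),
      Spec.map (CommRingCat.ofHom χ.toRingHom) (IsLocalRing.closedPoint k) ∈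
        PrimeSpectrum.basicOpen h ↔ χ h ≠ 0 := by
    intro χ h
    have : χ h ≠ 0 ↔ ¬ (χ h ∈ IsLocalRing.maximalIdeal k) := by
      rw [IsLocalRing.maximalIdeal_eq_bot, Ideal.mem_bot]
    rw [this]
    rfl
  have hq0U : (Spec.map (CommRingCat.ofHom χ₀.toRingHom) (IsLocalRing.closedPoint k)) ∈
      (U3_j W.toChart W'.toChart) ⁻¹ᵁ O := by
    have key : ∀ a : ↥(Spec (.of k)), (U3_j W.toChart W'.toChart)
        (Spec.map (CommRingCat.ofHom χ₀.toRingHom) a) ∈ O := fun a => by
      rw [← Scheme.Hom.comp_apply, hχ₀, hp1]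
      exact hz0O
    exact key _
  obtain ⟨_, ⟨h, rfl⟩, h1, h2⟩ :=
    PrimeSpectrum.isTopologicalBasis_basic_opens.exists_subset_of_mem_open hq0U
      ((U3_j W.toChart W'.toChart) ⁻¹ᵁ O).isOpen
  obtain ⟨P, hP, hPc⟩ := U3_alg _ (U3_flat W.z W.et W'.z W'.et) h χ₀ ((hmem χ₀ h).1 h1)
  refine ⟨W, W', P, hP, fun c hc => ?_⟩
  obtain ⟨χ, hχh, hχ⟩ := hPc c hc
  have hzz : (Spec.map (CommRingCat.ofHom χ.toRingHom) ≫ U3_j W.toChart W'.toChart) ≫ πX = 𝟙 _ := by
    show (_ ≫ _) ≫ Limits.pullback.fst π π ≫ π = _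
    rw [← hid, ← Category.assoc, Category.assoc _ _ (Limits.pullback.fst π π), U3_fst]
    exact (W.pt.map (χ.comp Algebra.TensorProduct.includeLeft)).2
  have key1 : ∀ a : ↥(Spec (.of k)), Limits.pullback.fst π π
      ((Spec.map (CommRingCat.ofHom χ.toRingHom) ≫ U3_j W.toChart W'.toChart) a) =
      (W.pt.map (χ.comp Algebra.TensorProduct.includeLeft)).1 a := fun a => by
    rw [← Scheme.Hom.comp_apply, Category.assoc, U3_fst]
  have key2 : ∀ a : ↥(Spec (.of k)), Limits.pullback.snd π π
      ((Spec.map (CommRingCat.ofHom χ.toRingHom) ≫ U3_j W.toChart W'.toChart) a) =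
      (W'.pt.map (χ.comp Algebra.TensorProduct.includeRight)).1 a := fun a => by
    rw [← Scheme.Hom.comp_apply, Category.assoc, U3_snd]
  refine ⟨χ.comp Algebra.TensorProduct.includeLeft, χ.comp Algebra.TensorProduct.includeRight,
    fun j => ?_, fun j => ?_, (Spec.map (CommRingCat.ofHom χ.toRingHom) ≫
      U3_j W.toChart W'.toChart) (IsLocalRing.closedPoint k), ?_, ?_, key1 _, key2 _⟩
  · rw [← hχ, MvPolynomial.aeval_X]
    rfl
  · rw [← hχ, MvPolynomial.aeval_X]
    rfl
  · exact h2 ((hmem χ h).2 hχh)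
  · exact (pointEquivClosedPoint πX ⟨_, hzz⟩).2

/-- Shrinking `O` one can achieve that its closed points are pairs of distinct points.
Proof. Remove the diagonal, a closed subset as `V` is separated. If the result were empty, take a
closed point of `O`, a pair `(x, x)`; the `y` with `(x, y) ∈ O` form a nonempty open subset of `V`; if
it contains a point different from `x`, then also a closed point `y ≠ x` (Jacobson), and `(x, y)` is
in `O` and not on the diagonal; otherwise `{x}` is open and closed and `V` is a point. -/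
theorem off_diag [IsAlgClosed k] [IsSeparated π] [LocallyOfFiniteType π] [IsIntegral V]
    (O : (Limits.pullback π π).Opens) (hO : (O : Set ↥(Limits.pullback π π)).Nonempty)
    (hV : ∃ p q : V, p ≠ q) :
    ∃ O' : (Limits.pullback π π).Opens, O' ≤ O ∧ (O' : Set ↥(Limits.pullback π π)).Nonempty ∧
      ∀ z ∈ O', IsClosed ({z} : Set ↥(Limits.pullback π π)) →
        Limits.pullback.fst π π z ≠ Limits.pullback.snd π π z := by
  let πX : Limits.pullback π π ⟶ Spec (.of k) := Limits.pullback.fst π π ≫ π
  have hJ : JacobsonSpace ↥(Limits.pullback π π) := LocallyOfFiniteType.jacobsonSpace πX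
  have hJV : JacobsonSpace V := LocallyOfFiniteType.jacobsonSpace π
  have hdiag : IsClosed (Set.range (Limits.pullback.diagonal π)) :=
    (Limits.pullback.diagonal π).isClosedEmbedding.isClosed_range
  refine ⟨O ⊓ ⟨(Set.range (Limits.pullback.diagonal π))ᶜ, hdiag.isOpen_compl⟩, inf_le_left, ?_, ?_⟩
  · by_contra hne
    rw [Set.not_nonempty_iff_eq_empty] at hne
    have hsub : ∀ z ∈ O, z ∈ Set.range (Limits.pullback.diagonal π) := by
      intro z hz
      by_contra hc
      have : z ∈ (∅ : Set ↥(Limits.pullback π π)) := by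
        rw [← hne]
        exact ⟨hz, hc⟩
      exact this
    obtain ⟨z0, hz0O, hz0⟩ := nonempty_inter_closedPoints hO O.isOpen.isLocallyClosed
    have hz0' : IsClosed ({z0} : Set ↥(Limits.pullback π π)) := hz0
    have hp0 := pointOfClosedPoint_comp πX z0 hz0'
    have hp1 := pointOfClosedPoint_apply πX z0 hz0'
    generalize pointOfClosedPoint πX z0 hz0' = p0 at hp0 hp1
    obtain ⟨a, ha⟩ : ∃ a : ↥(Spec (.of k)), a = IsLocalRing.closedPoint k := ⟨_, rfl⟩
    -- the first coordinate
    let x : Spec (.of k) ⟶ V := p0 ≫ Limits.pullback.fst π π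
    have hx : x ≫ π = 𝟙 _ := by
      rw [← hp0]
      simp [x, πX]
    have hxy : p0 ≫ Limits.pullback.snd π π = x := by
      obtain ⟨v, hv⟩ := hsub z0 hz0O
      apply ext_of_apply_closedPoint_eq π _ hx
      · rw [← ha]
        simp only [x, Scheme.Hom.comp_apply]
        rw [hp1, ← hv, ← Scheme.Hom.comp_apply, ← Scheme.Hom.comp_apply]
        simp
      · rw [Category.assoc, ← Limits.pullback.condition]
        exact hp0
    have hxcl : IsClosed ({x a} : Set V) := by
      rw [ha]
      exact (pointEquivClosedPoint π ⟨x, hx⟩).2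
    let s : V ⟶ Limits.pullback π π := Limits.pullback.lift (π ≫ x) (𝟙 V) (by
      rw [Category.assoc, hx, Category.comp_id, Category.id_comp])
    have hs1 : s ≫ Limits.pullback.fst π π = π ≫ x := Limits.pullback.lift_fst _ _ _
    have hs2 : s ≫ Limits.pullback.snd π π = 𝟙 V := Limits.pullback.lift_snd _ _ _
    have hsx : s (x a) = z0 := by
      have : x ≫ s = p0 := by
        apply Limits.pullback.hom_ext
        · rw [Category.assoc, hs1, ← Category.assoc, hx, Category.id_comp]
        · rw [Category.assoc, hs2, Category.comp_id, hxy]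
      rw [← Scheme.Hom.comp_apply, this, hp1]
    have hU : (s ⁻¹ᵁ O : Set V) = {x a} := by
      by_contra hne'
      have hn2 : ((s ⁻¹ᵁ O : Set V) \ {x a}).Nonempty := by
        by_contra hn3
        rw [Set.not_nonempty_iff_eq_empty, Set.sdiff_eq_empty] at hn3
        apply hne'
        apply hn3.antisymm
        rintro _ rfl
        show s (x a) ∈ O
        rw [hsx]
        exact hz0O
      obtain ⟨y0, hy0, hyc⟩ := nonempty_inter_closedPoints hn2
        ((s ⁻¹ᵁ O).isOpen.sdiff hxcl).isLocallyClosed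
      have hyc' : IsClosed ({y0} : Set V) := hyc
      have hq0 := pointOfClosedPoint_comp π y0 hyc'
      have hq1 := pointOfClosedPoint_apply π y0 hyc'
      obtain ⟨v, hv⟩ := hsub (s y0) hy0.1
      apply hy0.2
      show y0 = x a
      have e1 : v = x a := by
        have h1 : Limits.pullback.fst π π (Limits.pullback.diagonal π v) = v := by
          rw [← Scheme.Hom.comp_apply]
          simp
        rw [← h1, hv, ← Scheme.Hom.comp_apply, hs1, Scheme.Hom.comp_apply]
        congr 1
        exact Subsingleton.elim _ _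
      have e2 : v = y0 := by
        have h1 : Limits.pullback.snd π π (Limits.pullback.diagonal π v) = v := by
          rw [← Scheme.Hom.comp_apply]
          simp
        rw [← h1, hv, ← Scheme.Hom.comp_apply, hs2]
        rfl
      rw [← e2, e1]
    have hdense : Dense ({x a} : Set V) := by
      rw [← hU]
      apply (s ⁻¹ᵁ O).isOpen.dense
      rw [hU]
      exact Set.singleton_nonempty _
    have huniv : ({x a} : Set V) = Set.univ := by
      rw [← hxcl.closure_eq]
      exact hdense.closure_eq
    obtain ⟨p, q, hpq⟩ := hV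
    apply hpq
    have hp : p ∈ ({x a} : Set V) := by rw [huniv]; trivial
    have hq : q ∈ ({x a} : Set V) := by rw [huniv]; trivial
    rw [Set.mem_singleton_iff.1 hp, Set.mem_singleton_iff.1 hq]
  · rintro z ⟨hzO, hzd⟩ hz heq
    apply hzd
    have hp0 := pointOfClosedPoint_comp πX z hz
    have hp1 := pointOfClosedPoint_apply πX z hz
    generalize pointOfClosedPoint πX z hz = p0 at hp0 hp1
    have h1 : p0 ≫ Limits.pullback.fst π π = p0 ≫ Limits.pullback.snd π π := by
      apply ext_of_apply_closedPoint_eq π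
      · rw [Category.assoc]
        exact hp0
      · rw [Category.assoc, ← Limits.pullback.condition]
        exact hp0
      · have key : ∀ a : ↥(Spec (.of k)), (p0 ≫ Limits.pullback.fst π π) a =
            (p0 ≫ Limits.pullback.snd π π) a := fun a => by
          rw [Scheme.Hom.comp_apply, Scheme.Hom.comp_apply, hp1]
          exact heq
        exact key _
    have h2 : (p0 ≫ Limits.pullback.fst π π) ≫ Limits.pullback.diagonal π = p0 := by
      apply Limits.pullback.hom_ext
      · simp
      · simp [h1]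
    have key : ∀ a : ↥(Spec (.of k)),
        Limits.pullback.diagonal π ((p0 ≫ Limits.pullback.fst π π) a) = z := fun a => by
      rw [← Scheme.Hom.comp_apply, h2, hp1]
    exact ⟨_, key (IsLocalRing.closedPoint k)⟩

end Pool.Agent.H19VF
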