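import Mathlib

/-! # Task U4: independent complex numbers and derivations of the complex numbers -/

set_option autoImplicit false

namespace Pool.Agent.H19VF

/-- Lifting of the identity of a formally smooth algebra along a nilpotent thickening. -/
lemma u4_lift {R A B : Type} [CommRing R] [CommRing A] [CommRing B] [Algebra R A]
    [Algebra.FormallySmooth R A] (ψ : R →+* B) (g : B →+* A) (hg : Function.Surjective g)
    (hker : IsNilpotent (RingHom.ker g)) (hcomp : ∀ r, g (ψ r) = algebraMap R A r) :
    ∃ s : A →+* B, (∀ r, s (algebraMap R A r) = ψ r) ∧ ∀ a, g (s a) = a := by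
  let : Algebra R B := ψ.toAlgebra
  let g' : B →ₐ[R] A := { g with commutes' := hcomp }
  let s := Algebra.FormallySmooth.liftOfSurjective (AlgHom.id R A) g' hg hker
  refine ⟨s, fun r => s.commutes r, fun a => ?_⟩
  exact Algebra.FormallySmooth.liftOfSurjective_apply (AlgHom.id R A) g' hg hker a

/-- Derivations of the complex numbers with given values on a transcendence basis. -/
lemma u4_der {K : Type} [Field K] [Algebra K ℂ] {σ : Type} (x : σ → ℂ)
    (hx : IsTranscendenceBasis K x) (t : σ → ℂ) :
    ∃ D : Derivation ℤ ℂ ℂ, (∀ a : K, D (algebraMap K ℂ a) = 0) ∧ ∀ j, D (x j) = t j := by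
  have halg : Algebra.IsAlgebraic (Algebra.adjoin K (Set.range x)) ℂ := hx.isAlgebraic
  let R := Algebra.adjoin K (Set.range x)
  let F := FractionRing R
  have : FaithfulSMul R ℂ := inferInstance
  let : Algebra F ℂ := FractionRing.liftAlgebra R ℂ
  have : IsScalarTower R F ℂ := FractionRing.isScalarTower_liftAlgebra R ℂ
  have : CharZero F := (algebraMap F ℂ).charZero
  have : Algebra.IsAlgebraic F ℂ := 
    Algebra.IsAlgebraic.extendScalars (IsFractionRing.injective R F)
  have : Algebra.FormallyEtale R F := Algebra.FormallyEtale.of_isLocalization (nonZeroDivisors R)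
  have : Algebra.FormallyEtale F ℂ := Algebra.FormallyEtale.of_isSeparable F ℂ
  have : Algebra.FormallyEtale R ℂ := Algebra.FormallyEtale.comp R F ℂ
  let φ : MvPolynomial σ K →ₐ[K] DualNumber ℂ :=
    MvPolynomial.aeval fun j => (TrivSqZeroExt.inl (x j) + TrivSqZeroExt.inr (t j) : DualNumber ℂ)
  let e := hx.1.aevalEquiv
  let ψ : R →ₐ[K] DualNumber ℂ := φ.comp e.symm.toAlgHom
  let g : DualNumber ℂ →+* ℂ := (TrivSqZeroExt.fstHom ℂ ℂ ℂ).toRingHom
  have hg : ∀ z, g z = z.fst := fun z => rfl
  have hφ : ∀ p, g (φ p) = MvPolynomial.aeval x p := by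
    intro p
    have : ((TrivSqZeroExt.fstHom K ℂ ℂ).comp φ) = MvPolynomial.aeval x := by
      apply MvPolynomial.algHom_ext
      intro j
      simp [φ]
    exact congrArg (fun f : MvPolynomial σ K →ₐ[K] ℂ => f p) this
  have he : ∀ r : R, MvPolynomial.aeval x (e.symm r) = (r : ℂ) := by
    intro r
    have := hx.1.algebraMap_aevalEquiv (e.symm r)
    rw [← this]
    show algebraMap R ℂ (e (e.symm r)) = r
    rw [AlgEquiv.apply_symm_apply]
    rfl
  have hcomp : ∀ r, g (ψ.toRingHom r) = algebraMap R ℂ r := by
    intro r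
    exact (hφ (e.symm r)).trans (he r)
  have hker : IsNilpotent (RingHom.ker g) := by
    have h2 : RingHom.ker g * RingHom.ker g = ⊥ := ?_
    · refine ⟨2, ?_⟩
      rw [Submodule.pow_succ, Submodule.pow_one]
      exact h2
    rw [eq_bot_iff, Ideal.mul_le]
    intro a ha b hb
    rw [RingHom.mem_ker, hg] at ha hb
    rw [Ideal.mem_bot]
    ext
    · simp [ha]
    · simp [ha, hb]
  obtain ⟨s, hs, hs'⟩ := u4_lift ψ.toRingHom g (fun a => ⟨TrivSqZeroExt.inl a, rfl⟩) hker hcomp
  have hf : ∀ a, (s a).fst = a := hs'
  let D : Derivation ℤ ℂ ℂ :=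
    { toFun := fun a => (s a).snd
      map_add' := fun a b => by simp
      map_smul' := fun n a => by simp
      map_one_eq_zero' := by simp
      leibniz' := fun a b => by simp [hf, mul_comm] }
  have hD : ∀ a, D a = (s a).snd := fun a => rfl
  refine ⟨D, fun a => ?_, fun j => ?_⟩
  · have h1 := hs (algebraMap K R a)
    have h2 : ψ.toRingHom (algebraMap K R a) = algebraMap K (DualNumber ℂ) a := ψ.commutes a
    rw [← IsScalarTower.algebraMap_apply, h2] at h1
    rw [hD, h1]
    rfl
  · have h1 := hs (e (MvPolynomial.X j))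
    have h2 : ψ.toRingHom (e (MvPolynomial.X j)) = φ (MvPolynomial.X j) := by
      show φ (e.symm (e (MvPolynomial.X j))) = _
      rw [AlgEquiv.symm_apply_apply]
    have h3 : algebraMap R ℂ (e (MvPolynomial.X j)) = x j := by
      have := hx.1.algebraMap_aevalEquiv (MvPolynomial.X j)
      rw [MvPolynomial.aeval_X] at this
      exact this
    rw [h2, h3] at h1
    rw [hD, h1]
    simp [φ]

/-- There are complex numbers `c j`, for `j` in a finite set, such that each polynomial `P ≠ 0` with
coefficients in a given finite set does not vanish at `c`, and there are derivations of the field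
of complex numbers which kill a given finite set and have arbitrary given values at the `c j`.
Proof. Let `K = ℚ(C)`, a countable field. Choose `c` algebraically independent over `K`: the
transcendence degree of the complex numbers over `K` is infinite. A polynomial `P ≠ 0` with
coefficients in `C` has coefficients in `K`, so `P(c) ≠ 0`. The derivation of `K(c)` over `K` with
`c j ↦ t j` extends to the complex numbers: first to a purely transcendental extension (extend
`c` to a transcendence basis), then to an algebraic separable extension (formally etale). -/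
theorem exists_indep_complex {ι : Type} [Finite ι] (C : Finset ℂ) :
    ∃ c : ι → ℂ,
      (∀ P : MvPolynomial ι ℂ, P ≠ 0 → (∀ m, P.coeff m ∈ C ∨ P.coeff m = 0) →
        MvPolynomial.eval c P ≠ 0) ∧
      ∀ t : ι → ℂ, ∃ D : Derivation ℤ ℂ ℂ, (∀ x ∈ C, D x = 0) ∧ ∀ j, D (c j) = t j := by
  classical
  let K := Subfield.closure (C : Set ℂ)
  have hK : Cardinal.mk K ≤ Cardinal.aleph0 := by
    refine (Subfield.cardinalMk_closure_le_max _).trans ?_
    exact max_le (Cardinal.mk_le_aleph0_iff.2 (Finset.countable_toSet C)) le_rfl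
  obtain ⟨s, hs⟩ := exists_isTranscendenceBasis K ℂ
  have hinf : Infinite s := by
    by_contra hfin
    rw [not_infinite_iff_finite] at hfin
    have h1 := IsAlgClosed.cardinal_le_max_transcendence_basis' _ hs
    have h2 : Cardinal.mk s ≤ Cardinal.aleph0 := (Cardinal.lt_aleph0_of_finite s).le
    have h3 : Cardinal.mk ℂ ≤ Cardinal.aleph0 := h1.trans (max_le (max_le hK h2) le_rfl)
    rw [Cardinal.mk_complex] at h3
    exact absurd h3 (not_le.2 Cardinal.aleph0_lt_continuum)
  obtain ⟨n, ⟨en⟩⟩ := Finite.exists_equiv_fin ι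
  let emb : ι → s := fun i => Infinite.natEmbedding s (en i)
  have hemb : Function.Injective emb := fun i j h => by
    have h1 := (Infinite.natEmbedding s).injective h
    exact en.injective (Fin.ext h1)
  have hcK : ∀ x ∈ C, x ∈ K := fun x hx => Subfield.subset_closure hx
  refine ⟨fun i => (emb i : ℂ), fun P hP hPC hev => ?_, fun t => ?_⟩
  · have hmem : P ∈ Set.range (MvPolynomial.map (σ := ι) (algebraMap K ℂ)) := by
      rw [MvPolynomial.mem_range_map_iff_coeffs_subset]
      intro a ha
      obtain ⟨m, hm, rfl⟩ := MvPolynomial.mem_coeffs_iff.1 ha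
      rcases hPC m with h | h
      · exact ⟨⟨_, hcK _ h⟩, rfl⟩
      · exact ⟨0, by rw [h, map_zero]⟩
    obtain ⟨P', hP'⟩ := hmem
    have hind : AlgebraicIndependent K (fun i => (emb i : ℂ)) := hs.1.comp emb hemb
    have h0 : MvPolynomial.aeval (fun i => (emb i : ℂ)) P' = 0 := by
      rw [MvPolynomial.aeval_def, ← MvPolynomial.eval_map]
      erw [hP']
      exact hev
    have h1 : P' = 0 := hind.eq_zero_of_aeval_eq_zero P' h0
    apply hP
    rw [← hP', h1]
    simp
  · obtain ⟨D, hD1, hD2⟩ := u4_der (K := K) _ hs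
      (fun j => if h : ∃ i, emb i = j then t h.choose else 0)
    refine ⟨D, fun x hx => hD1 ⟨x, hcK x hx⟩, fun j => ?_⟩
    have hex : ∃ i, emb i = emb j := ⟨j, rfl⟩
    have hj : hex.choose = j := hemb hex.choose_spec
    rw [hD2 (emb j), dif_pos hex, hj]

end Pool.Agent.H19VF
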