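import Pool.Agent.H19VF.G_P1
import Pool.Agent.H19VF.F_Pt0
import Pool.Agent.H19VF.P_Main
import Pool.Agent.H19VF.Q_Defs
import Pool.Agent.H19VF.R2_Pts

/-! # Task U5: reparametrization of curves -/

set_option autoImplicit false

open AlgebraicGeometry CategoryTheory Polynomial

universe u

namespace Pool.Agent.H19VF

variable {k : Type u} [Field k] {V : Scheme.{u}} {π : V ⟶ Spec (.of k)}

/-- Evaluation of Laurent polynomials at a unit. -/
noncomputable def U5_ev {S : Type u} [CommRing S] [Algebra k S] (t : Sˣ) :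
    LaurentPolynomial k →ₐ[k] S :=
  { LaurentPolynomial.eval₂ (algebraMap k S) t with
    commutes' := fun r => by
      change LaurentPolynomial.eval₂ (algebraMap k S) t (algebraMap k (LaurentPolynomial k) r) = _
      have h1 : algebraMap k (LaurentPolynomial k) r = LaurentPolynomial.C r := rfl
      rw [h1, LaurentPolynomial.eval₂_C] }

lemma U5_ev_C {S : Type u} [CommRing S] [Algebra k S] (t : Sˣ) (a : k) :
    U5_ev t (LaurentPolynomial.C a) = algebraMap k S a :=
  LaurentPolynomial.eval₂_C _ _ a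

lemma U5_ev_T {S : Type u} [CommRing S] [Algebra k S] (t : Sˣ) (n : ℤ) :
    U5_ev (k := k) t (LaurentPolynomial.T n) = ((t ^ n : Sˣ) : S) :=
  LaurentPolynomial.eval₂_T _ _ n

/-- `k[X] → S`, `X ↦ s` -/
noncomputable abbrev U5_ae (k : Type u) [Field k] {S : Type u} [CommRing S] [Algebra k S] (s : S) :
    k[X] →ₐ[k] S := Polynomial.aeval s

lemma U5_ev_lauY {S : Type u} [CommRing S] [Algebra k S] (t : Sˣ) :
    (U5_ev (k := k) t).comp (lauY k k) = U5_ae k (t : S) := by
  apply J1ext
  · intro a
    rw [AlgHom.comp_apply, J1lauY_C, U5_ev_C, Polynomial.aeval_C]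
  · rw [AlgHom.comp_apply, J1lauY_X, U5_ev_T, Polynomial.aeval_X, zpow_one]

lemma U5_ev_lauW {S : Type u} [CommRing S] [Algebra k S] (t : Sˣ) :
    (U5_ev (k := k) t).comp (lauW k k) = U5_ae k ((t⁻¹ : Sˣ) : S) := by
  apply J1ext
  · intro a
    rw [AlgHom.comp_apply, J1lauW_C, U5_ev_C, Polynomial.aeval_C]
  · rw [AlgHom.comp_apply, J1lauW_X, U5_ev_T, Polynomial.aeval_X, zpow_neg, zpow_one]

lemma U5_glue (F : Crv π k) {S : Type u} [CommRing S] [Algebra k S] (t : Sˣ) :
    F.y.map (U5_ae k (t : S)) = F.w.map (U5_ae k ((t⁻¹ : Sˣ) : S)) := by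
  have h := congrArg (fun p => Pt.map p (U5_ev (k := k) t)) F.glue
  simp only [Pt.map_map] at h
  rw [U5_ev_lauY, U5_ev_lauW] at h
  exact h

/-- The localization of a domain at a prime is contained in the field of fractions. -/
noncomputable def U5_loc (k : Type u) [Field k] {D : Type u} (Q : Type u) [CommRing D] [IsDomain D]
    [Field Q] [Algebra D Q] [IsFractionRing D Q] [Algebra k D] [Algebra k Q] [IsScalarTower k D Q]
    (p : Ideal D) [p.IsPrime] : Localization.AtPrime p →ₐ[k] Q :=
  (IsLocalization.liftAlgHom (M := p.primeCompl) (f := Algebra.ofId D Q) (by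
    rintro ⟨y, hy⟩
    simp only [Algebra.ofId_apply]
    refine isUnit_iff_ne_zero.mpr fun h0 => hy ?_
    have h1 : y = 0 := (IsFractionRing.injective D Q) (by rw [h0, map_zero])
    rw [h1]
    exact p.zero_mem) : Localization.AtPrime p →ₐ[D] Q).restrictScalars k

lemma U5_loc_map {k : Type u} [Field k] {D Q : Type u} [CommRing D] [IsDomain D]
    [Field Q] [Algebra D Q] [IsFractionRing D Q] [Algebra k D] [Algebra k Q] [IsScalarTower k D Q]
    (p : Ideal D) [p.IsPrime] (a : D) :
    U5_loc k Q p (algebraMap D (Localization.AtPrime p) a) = algebraMap D Q a :=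
  IsLocalization.lift_eq _ _

lemma U5_loc_inj {k : Type u} [Field k] {D Q : Type u} [CommRing D] [IsDomain D]
    [Field Q] [Algebra D Q] [IsFractionRing D Q] [Algebra k D] [Algebra k Q] [IsScalarTower k D Q]
    (p : Ideal D) [p.IsPrime] : Function.Injective (U5_loc k Q p) := by
  rw [injective_iff_map_eq_zero]
  intro x hx
  obtain ⟨b, t, rfl⟩ := IsLocalization.exists_mk'_eq p.primeCompl x
  have h1 : U5_loc k Q p (algebraMap D _ b) = 0 := by
    rw [← IsLocalization.mk'_spec (Localization.AtPrime p) b t, map_mul, hx, zero_mul]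
  rw [U5_loc_map] at h1
  have h2 : b = 0 := (IsFractionRing.injective D Q) (by rw [h1, map_zero])
  rw [h2, IsLocalization.mk'_zero]

lemma U5_local {D Q : Type u} [CommRing D] [IsDomain D]
    [Field Q] [Algebra D Q] [IsFractionRing D Q] [Algebra k D] [Algebra k Q] [IsScalarTower k D Q]
    (θ : Pt π Q) (p : Ideal D) [p.IsPrime] (P : Pt π (Localization.AtPrime p))
    (h : P.map (U5_loc k Q p) = θ) : ∃ (W : Chart π) (φ : W.B →ₐ[k] Q), θ = W.pt.map φ ∧
      ∀ b : W.B, ∃ a c : D, c ∉ p ∧ φ b * algebraMap D Q c = algebraMap D Q a := by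
  obtain ⟨W, ν, hν⟩ := exists_chart_local P
  refine ⟨W, (U5_loc k Q p).comp ν, ?_, ?_⟩
  · rw [← h, hν, Pt.map_map]
  · intro b
    obtain ⟨⟨a, c⟩, hac⟩ := IsLocalization.surj p.primeCompl (ν b)
    refine ⟨a, c, c.2, ?_⟩
    have h1 := congrArg (U5_loc k Q p) hac
    rw [map_mul, U5_loc_map, U5_loc_map] at h1
    exact h1

lemma U5_ev_injective {Q : Type u} [Field Q] [Algebra k Q] (t : Qˣ)
    (h : Function.Injective (U5_ae k ((t⁻¹ : Qˣ) : Q))) :
    Function.Injective (U5_ev (k := k) t) := by
  rw [injective_iff_map_eq_zero]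
  intro f hf
  obtain ⟨n, f', hf'⟩ := LaurentPolynomial.exists_T_pow (LaurentPolynomial.invert f)
  have h1 : f * LaurentPolynomial.T (-(n : ℤ)) = lauW k k f' := by
    have h2 := congrArg LaurentPolynomial.invert hf'
    rw [map_mul] at h2
    have h3 : LaurentPolynomial.invert (LaurentPolynomial.invert f) = f :=
      LaurentPolynomial.involutive_invert f
    rw [h3, LaurentPolynomial.invert_T] at h2
    rw [← h2]
    have h4 : ((LaurentPolynomial.invert (R := k)).toAlgHom.toRingHom.comp
        (Polynomial.toLaurent (R := k))) = (lauW k k).toRingHom := by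
      apply Polynomial.ringHom_ext
      · intro a
        change LaurentPolynomial.invert (Polynomial.toLaurent (C a)) = lauW k k (C a)
        rw [J1lauW_C, Polynomial.toLaurent_C, LaurentPolynomial.invert_C]
      · change LaurentPolynomial.invert (Polynomial.toLaurent X) = lauW k k X
        rw [J1lauW_X, Polynomial.toLaurent_X, LaurentPolynomial.invert_T]
    exact congrArg (fun g : k[X] →+* LaurentPolynomial k => g f') h4
  have h2 : U5_ae k ((t⁻¹ : Qˣ) : Q) f' = 0 := by
    rw [← U5_ev_lauW, AlgHom.comp_apply, ← h1, map_mul, hf, zero_mul]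
  have h3 : f' = 0 := h (by rw [h2, map_zero])
  rw [h3, map_zero] at h1
  have h4 : f = f * LaurentPolynomial.T (-(n : ℤ)) * LaurentPolynomial.T n := by
    rw [mul_assoc, ← LaurentPolynomial.T_add, neg_add_cancel, LaurentPolynomial.T_zero, mul_one]
  rw [h4, h1, zero_mul]

/-- The curve `y ↦ F (y + a)`. (On the line with coordinate `w = 1 / y` it is given near the points
with `1 + a w ≠ 0` by `F.w` and `w ↦ w / (1 + a w)`, and near the other points by `F.y` and
`y ↦ 1 / w + a`; glue with `glue_domain` for `k[w]` and `k(w)`.) -/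
theorem Crv.exists_translate [IsSeparated π] [LocallyOfFiniteType π] (F : Crv π k) (a : k) :
    ∃ F' : Crv π k, F'.at none = F.at none ∧ ∀ b, F'.at (some b) = F.at (some (b + a)) := by
  let Q := FractionRing k[X]
  have hX : algebraMap k[X] Q X ≠ 0 := by
    intro h
    exact Polynomial.X_ne_zero ((IsFractionRing.injective k[X] Q) (by rw [h, map_zero]))
  let s : Qˣ := Units.mk0 _ hX
  -- the unit `1 + a w`
  have hu0 : algebraMap k[X] Q (1 + C a * X) ≠ 0 := by
    intro h
    have h1 : (1 + C a * X : k[X]) = 0 := (IsFractionRing.injective k[X] Q) (by rw [h, map_zero])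
    have h2 := congrArg (Polynomial.eval 0) h1
    simp at h2
  -- the element `1 / w + a`
  have ht0 : (algebraMap k[X] Q X)⁻¹ + algebraMap k Q a ≠ 0 := by
    intro h
    apply hu0
    have h1 : algebraMap k[X] Q (1 + C a * X) =
        ((algebraMap k[X] Q X)⁻¹ + algebraMap k Q a) * algebraMap k[X] Q X := by
      rw [add_mul, inv_mul_cancel₀ hX, map_add, map_one, map_mul,
        IsScalarTower.algebraMap_apply k k[X] Q]
      rfl
    rw [h1, h, zero_mul]
  let t : Qˣ := Units.mk0 _ ht0
  have hQX : U5_ae k (algebraMap k[X] Q X) = IsScalarTower.toAlgHom k k[X] Q := by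
    apply J1ext
    · intro b
      rw [Polynomial.aeval_C]
      exact IsScalarTower.algebraMap_apply k k[X] Q b
    · rw [Polynomial.aeval_X]
      rfl
  let θ : Pt π Q := F.y.map (U5_ae k (t : Q))
  have hcomp : ∀ (p : Ideal k[X]) [p.IsPrime] (x : Localization.AtPrime p),
      (U5_loc k Q p).comp (U5_ae k x) = U5_ae k (U5_loc k Q p x) := by
    intro p _ x
    apply J1ext
    · intro b
      rw [AlgHom.comp_apply, Polynomial.aeval_C, Polynomial.aeval_C, AlgHom.commutes]
    · rw [AlgHom.comp_apply, Polynomial.aeval_X, Polynomial.aeval_X]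
  have htw : (t : Q) * algebraMap k[X] Q X = algebraMap k[X] Q (1 + C a * X) := by
    change ((algebraMap k[X] Q X)⁻¹ + algebraMap k Q a) * algebraMap k[X] Q X = _
    rw [add_mul, inv_mul_cancel₀ hX, map_add, map_one, map_mul,
      IsScalarTower.algebraMap_apply k k[X] Q]
    rfl
  -- the points over the local rings
  have claimA : ∀ (p : Ideal k[X]) [p.IsPrime] (v : Localization.AtPrime p),
      v * algebraMap k[X] _ (1 + C a * X) = 1 →
      (F.w.map (U5_ae k (v * algebraMap k[X] _ X))).map (U5_loc k Q p) = θ := by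
    intro p _ v hv
    rw [Pt.map_map, hcomp]
    change _ = F.y.map (U5_ae k (t : Q))
    rw [U5_glue F t]
    congr 2
    have h1 := congrArg (U5_loc k Q p) hv
    rw [map_mul, map_one, U5_loc_map] at h1
    rw [map_mul, U5_loc_map]
    have h2 : (t : Q) * (U5_loc k Q p v * algebraMap k[X] Q X) = 1 := by
      rw [mul_comm (U5_loc k Q p v), ← mul_assoc, htw, mul_comm]
      exact h1
    rw [Units.val_inv_eq_inv_val]
    exact eq_inv_of_mul_eq_one_right h2
  have claimB : ∀ (p : Ideal k[X]) [p.IsPrime] (v : Localization.AtPrime p),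
      v * algebraMap k[X] _ X = 1 →
      (F.y.map (U5_ae k (v + algebraMap k _ a))).map (U5_loc k Q p) = θ := by
    intro p _ v hv
    rw [Pt.map_map, hcomp]
    change _ = F.y.map (U5_ae k (t : Q))
    congr 2
    have h1 := congrArg (U5_loc k Q p) hv
    rw [map_mul, map_one, U5_loc_map] at h1
    rw [map_add, AlgHom.commutes]
    change _ = (algebraMap k[X] Q X)⁻¹ + algebraMap k Q a
    rw [eq_inv_of_mul_eq_one_left h1]
  have hunit : ∀ (p : Ideal k[X]) [p.IsPrime] (g : k[X]), g ∉ p →
      ∃ v : Localization.AtPrime p, v * algebraMap k[X] _ g = 1 := by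
    intro p _ g hg
    obtain ⟨v, hv⟩ := (IsLocalization.map_units (Localization.AtPrime p)
      (⟨g, hg⟩ : p.primeCompl)).exists_left_inv
    exact ⟨v, hv⟩
  obtain ⟨Θ, hΘ⟩ := glue_domain (D := k[X]) θ (by
    intro p hp
    by_cases h1 : (1 + C a * X : k[X]) ∈ p
    · have h2 : (X : k[X]) ∉ p := by
        intro hXp
        apply hp.ne_top
        rw [Ideal.eq_top_iff_one]
        have h2 := p.sub_mem h1 (p.mul_mem_left (C a) hXp)
        rwa [add_sub_cancel_right] at h2
      obtain ⟨v, hv⟩ := hunit p X h2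
      exact U5_local θ p _ (claimB p v hv)
    · obtain ⟨v, hv⟩ := hunit p _ h1
      exact U5_local θ p _ (claimA p v hv))
  have hsinj : Function.Injective (U5_ae k ((s⁻¹⁻¹ : Qˣ) : Q)) := by
    rw [inv_inv]
    change Function.Injective (U5_ae k (algebraMap k[X] Q X))
    rw [hQX]
    exact IsFractionRing.injective k[X] Q
  have hcompY : (U5_ev (k := k) s⁻¹).comp ((lauY k k).comp (U5_ae k (X + C a : k[X]))) =
      U5_ae k (t : Q) := by
    apply J1ext
    · intro b
      rw [AlgHom.comp_apply, AlgHom.comp_apply, Polynomial.aeval_C, Polynomial.aeval_C,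
        AlgHom.commutes, AlgHom.commutes]
    · rw [AlgHom.comp_apply, AlgHom.comp_apply, Polynomial.aeval_X, Polynomial.aeval_X, map_add,
        map_add, J1lauY_X, J1lauY_C, U5_ev_T, U5_ev_C, zpow_one, Units.val_inv_eq_inv_val]
      rfl
  have hcompW : (U5_ev (k := k) s⁻¹).comp (lauW k k) = IsScalarTower.toAlgHom k k[X] Q := by
    rw [U5_ev_lauW, inv_inv]
    exact hQX
  refine ⟨⟨F.y.map (U5_ae k (X + C a : k[X])), Θ, ?_⟩, ?_, ?_⟩
  · apply Pt.map_injective (U5_ev (k := k) s⁻¹) (U5_ev_injective _ hsinj)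
    rw [Pt.map_map, Pt.map_map, Pt.map_map, AlgHom.comp_assoc, hcompY, hcompW,
      hΘ]
  · change Θ.map (evk 0) = F.w.map (evk 0)
    let p0 : Ideal k[X] := RingHom.ker (evk 0 : k[X] →ₐ[k] k).toRingHom
    have hp0 : p0.IsPrime := RingHom.ker_isPrime _
    have hmem : ∀ g : k[X], g ∈ p0 ↔ evk (0 : k) g = 0 := fun g => Iff.rfl
    obtain ⟨v, hv⟩ := hunit p0 (1 + C a * X) (by
      rw [hmem, map_add, map_one, map_mul, J1evk_X]
      simp)
    have hdom : IsDomain (Localization.AtPrime p0) :=
      (U5_loc_inj (k := k) (Q := Q) p0).isDomain (U5_loc k Q p0)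
    have h1 : Θ.map (IsScalarTower.toAlgHom k k[X] (Localization.AtPrime p0)) =
        F.w.map (U5_ae k (v * algebraMap k[X] _ X)) := by
      apply Pt.map_injective (U5_loc k Q p0) (U5_loc_inj p0)
      rw [claimA p0 v hv, Pt.map_map, ← hΘ]
      congr 1
      ext
      simp only [AlgHom.comp_apply]
      exact U5_loc_map p0 _
    let ρ : Localization.AtPrime p0 →ₐ[k] k :=
      { IsLocalization.lift (M := p0.primeCompl) (g := (evk 0 : k[X] →ₐ[k] k).toRingHom) (by
          rintro ⟨y, hy⟩
          exact isUnit_iff_ne_zero.mpr fun h0 => hy h0) with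
        commutes' := fun r => by
          change IsLocalization.lift _ (algebraMap k _ r) = _
          rw [IsScalarTower.algebraMap_apply k k[X] (Localization.AtPrime p0),
            IsLocalization.lift_eq]
          exact (evk (0 : k) : k[X] →ₐ[k] k).commutes r }
    have hρ : ∀ g : k[X], ρ (algebraMap k[X] _ g) = evk (0 : k) g := fun g =>
      IsLocalization.lift_eq _ _
    have h2 := congrArg (fun P => Pt.map P ρ) h1
    simp only [Pt.map_map] at h2
    have h3 : ρ.comp (IsScalarTower.toAlgHom k k[X] (Localization.AtPrime p0)) = evk 0 := by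
      apply AlgHom.ext
      intro g
      exact hρ g
    have h4 : ρ.comp (U5_ae k (v * algebraMap k[X] _ X)) = evk 0 := by
      apply J1ext
      · intro b
        rw [AlgHom.comp_apply, Polynomial.aeval_C, J1evk_C, AlgHom.commutes]
        rfl
      · rw [AlgHom.comp_apply, Polynomial.aeval_X, J1evk_X, map_mul, hρ, J1evk_X]
        simp
    rw [h3, h4] at h2
    exact h2
  · intro b
    change (F.y.map (U5_ae k (X + C a : k[X]))).map (evk b) = F.y.map (evk (b + a))
    rw [Pt.map_map]
    congr 1
    apply J1ext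
    · intro c
      rw [AlgHom.comp_apply, Polynomial.aeval_C, J1evk_C, AlgHom.commutes]
      rfl
    · rw [AlgHom.comp_apply, Polynomial.aeval_X, J1evk_X, map_add, J1evk_X, J1evk_C]
      simp

lemma U5_param_aux [IsSeparated π] [LocallyOfFiniteType π] (F : Crv π k) (x y : Pt π k) (c : k)
    (h1 : F.at none = y) (h2 : F.at (some c) = x) :
    ∃ F : Crv π k, F.at (some 0) = x ∧ F.at none = y := by
  obtain ⟨F', h3, h4⟩ := F.exists_translate c
  exact ⟨F', by rw [h4, zero_add, h2], by rw [h3, h1]⟩

lemma U5_param_aux2 [IsSeparated π] [LocallyOfFiniteType π] (F : Crv π k) (x y : Pt π k)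
    (s s' : Option k) (hne : s ≠ s') (h1 : F.at s = x) (h2 : F.at s' = y) :
    ∃ F : Crv π k, F.at (some 0) = x ∧ F.at none = y := by
  rcases s' with _ | b
  · rcases s with _ | a
    · exact absurd rfl hne
    · exact U5_param_aux F x y a h2 h1
  · obtain ⟨F', h3, h4⟩ := F.exists_translate b
    have h5 : F'.swap.at none = y := by rw [Crv.swap_at_none, h4, zero_add, h2]
    rcases s with _ | a
    · exact ⟨F'.swap, by rw [Crv.swap_at_zero, h3, h1], h5⟩
    · have hab : a - b ≠ 0 := by
        intro h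
        apply hne
        rw [sub_eq_zero.1 h]
      refine U5_param_aux F'.swap x y (a - b)⁻¹ h5 ?_
      rw [Crv.swap_at_some _ _ (inv_ne_zero hab), inv_inv, h4, sub_add_cancel, h1]

/-- Closed points of the line. -/
lemma U5_prime [IsAlgClosed k] (q : PrimeSpectrum k[X]) : q.asIdeal = ⊥ ∨
    ∃ a : k, q = PrimeSpectrum.comap (evk a : k[X] →ₐ[k] k).toRingHom
      (IsLocalRing.closedPoint k) := by
  by_cases h0 : q.asIdeal = ⊥
  · exact Or.inl h0
  · right
    have hmax : q.asIdeal.IsMaximal := q.isPrime.isMaximal h0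
    obtain ⟨G, hG⟩ := (IsPrincipalIdealRing.principal q.asIdeal).principal
    have hG' : q.asIdeal = Ideal.span {G} := hG
    have hdeg : G.degree ≠ 0 := by
      intro hd
      apply q.isPrime.ne_top
      rw [hG', Ideal.span_singleton_eq_top]
      exact Polynomial.isUnit_iff_degree_eq_zero.2 hd
    obtain ⟨a, ha⟩ := IsAlgClosed.exists_root G hdeg
    refine ⟨a, ?_⟩
    apply PrimeSpectrum.ext
    apply hmax.eq_of_le (PrimeSpectrum.comap (evk a : k[X] →ₐ[k] k).toRingHom
      (IsLocalRing.closedPoint k)).isPrime.ne_top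
    rw [hG', Ideal.span_singleton_le_iff_mem, R2_mem]
    exact ha

/-- If the image of `f` contains the distinct closed points `x` and `y`, then there is a curve with
`F(0) = x` and `F(∞) = y`. (Each closed point of the projective line is in the image of `k[X] → k`
for one of the two charts; move the two parameters by `Crv.exists_translate` and `Crv.swap`.) -/
theorem exists_param [IsAlgClosed k] [IsSeparated π] [LocallyOfFiniteType π] (f : P1 k ⟶ V)
    (hf : f ≫ π = P1.str k) (x y : Pt π k) (hxy : x ≠ y) (hx : x.pnt ∈ Set.range f)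
    (hy : y.pnt ∈ Set.range f) : ∃ F : Crv π k, F.at (some 0) = x ∧ F.at none = y := by
  let F0 := Crv.ofHom f hf
  -- the generic point
  let g : PrimeSpectrum k[X] := ⟨⊥, Ideal.isPrime_bot⟩
  have hgg : F0.y.1 g = F0.w.1 g := by
    let gL : PrimeSpectrum (LaurentPolynomial k) := ⟨⊥, Ideal.isPrime_bot⟩
    have h1 : PrimeSpectrum.comap (lauY k k).toRingHom gL = g := by
      apply PrimeSpectrum.ext
      change Ideal.comap _ ⊥ = ⊥
      rw [← RingHom.ker_eq_comap_bot, ← RingHom.injective_iff_ker_eq_bot, GP1_lauY_eq]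
      exact Polynomial.toLaurent_injective
    have h2 : PrimeSpectrum.comap (lauW k k).toRingHom gL = g := by
      apply PrimeSpectrum.ext
      change Ideal.comap _ ⊥ = ⊥
      rw [← RingHom.ker_eq_comap_bot, ← RingHom.injective_iff_ker_eq_bot]
      exact Q7_lauW_inj
    have h4 := congrArg (fun p : Pt π (LaurentPolynomial k) => p.1 gL) F0.glue
    have h5 : F0.y.1 (PrimeSpectrum.comap (lauY k k).toRingHom gL) =
        F0.w.1 (PrimeSpectrum.comap (lauW k k).toRingHom gL) := h4
    rw [h1, h2] at h5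
    exact h5
  -- if the generic point is mapped to `v`, then all points are
  have hgen : ∀ v : Pt π k, F0.y.1 g = v.pnt → ∀ v' : Pt π k, v'.pnt ∈ Set.range f → v' = v := by
    intro v hv v' hv'
    obtain ⟨z, hz⟩ := hv'
    obtain ⟨i, q, rfl⟩ := chart_cover k z
    apply Pt.pnt_injective
    have hi : i = 0 ∨ i = 1 := by omega
    rcases hi with rfl | rfl
    · have h1 : q ∈ {q : PrimeSpectrum k[X] | F0.y.1 q = v.pnt} :=
        R2_bot_mem ((Q7_closed v).preimage F0.y.1.continuous) hv q
      exact hz.symm.trans h1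
    · have h1 : q ∈ {q : PrimeSpectrum k[X] | F0.w.1 q = v.pnt} :=
        R2_bot_mem ((Q7_closed v).preimage F0.w.1.continuous) (hgg.symm.trans hv) q
      exact hz.symm.trans h1
  have hpar : ∀ v v' : Pt π k, v ≠ v' → v.pnt ∈ Set.range f → v'.pnt ∈ Set.range f →
      ∃ s : Option k, F0.at s = v := by
    intro v v' hne hv hv'
    obtain ⟨z, hz⟩ := hv
    obtain ⟨i, q, rfl⟩ := chart_cover k z
    have hi : i = 0 ∨ i = 1 := by omega
    rcases hi with rfl | rfl
    · rcases U5_prime q with hq | ⟨a, rfl⟩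
      · exfalso
        have hqg : q = g := PrimeSpectrum.ext hq
        exact hne (hgen v (by rw [← hqg]; exact hz) v' hv').symm
      · exact ⟨some a, Pt.pnt_injective hz⟩
    · rcases U5_prime q with hq | ⟨a, rfl⟩
      · exfalso
        have hqg : q = g := PrimeSpectrum.ext hq
        exact hne (hgen v (by rw [hgg, ← hqg]; exact hz) v' hv').symm
      · by_cases ha : a = 0
        · subst ha
          exact ⟨none, Pt.pnt_injective hz⟩
        · refine ⟨some a⁻¹, ?_⟩
          rw [← Crv.swap_at_some F0 a ha]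
          exact Pt.pnt_injective hz
  obtain ⟨s, hs⟩ := hpar x y hxy hx hy
  obtain ⟨s', hs'⟩ := hpar y x hxy.symm hy hx
  refine U5_param_aux2 F0 x y s s' ?_ hs hs'
  rintro rfl
  exact hxy (hs.symm.trans hs')

end Pool.Agent.H19VF
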