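import Pool.Agent.H19VF.U1_Fam
import Pool.Agent.H19VF.U2_Curve
import Pool.Agent.H19VF.U3_Pair
import Pool.Agent.H19VF.U4_Field
import Pool.Agent.H19VF.U5_Mob
import Pool.Agent.H19VF.C_Lift

/-! # Task U6: a smooth complex variety in which two general points are joined by a rational curve
contains a very free curve -/

set_option autoImplicit false

open AlgebraicGeometry CategoryTheory Polynomial

namespace Pool.Agent.H19VF

variable {V : Scheme.{0}} {π : V ⟶ Spec (.of ℂ)}

/-- The charts `W`, `W'` and a family of charts. -/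
noncomputable def u6fam {ι : Type} (W W' : Chart π) (Wf : ι → Chart π) :
    Option (Option ι) → Chart π
  | none => W
  | some none => W'
  | some (some i) => Wf i

/-- Finitely many functions on the charts. -/
noncomputable def u6Z {ι : Type} (W W' : Chart π) (Wf : ι → Chart π) (Z : Finset W.B)
    (Z' : Finset W'.B) : ∀ i, Finset (u6fam W W' Wf i).B
  | none => Z
  | some none => Z'
  | some (some _) => ∅

/-- Two general points of the smooth complex variety `V` (the points of a nonempty open subset `O`
of `V × V`) are joined by a rational curve. Then `V` has a very free curve.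
Proof. By `off_diag` the pairs in `O` are pairs of distinct points. Take `W`, `W'`, `P` from
`exists_pair`; the family of charts `W`, `W'` and a finite cover; the
finite set `C` from `exists_twFam` with `Z` the coordinates on `W` and `W'`, and add the coefficients
of `P`; the numbers `c` from `exists_indep_complex`; the points `x`, `y` with coordinates `c`, and a
curve `F` with `F(0) = x`, `F(∞) = y`. Each tangent vector at `x` has coordinates `t j`; choose a
derivation `D` with `D (c (inl j)) = t j`, `D (c (inr j)) = 0` which kills `C`; the deformation of `F`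
given by `D` has the tangent vector as value at `0` and is constant at infinity (`etale_dual`). -/
theorem exists_veryFree {n : ℕ} [SmoothOfRelativeDimension n π] [IsSeparated π] [QuasiCompact π]
    [IsIntegral V] (O : (Limits.pullback π π).Opens)
    (hO : (O : Set ↥(Limits.pullback π π)).Nonempty)
    (h : ∀ z ∈ O, IsClosed ({z} : Set ↥(Limits.pullback π π)) → ∃ f : P1 ℂ ⟶ V,
      f ≫ π = P1.str ℂ ∧ (∃ p q, f p ≠ f q) ∧ Limits.pullback.fst π π z ∈ Set.range f ∧
        Limits.pullback.snd π π z ∈ Set.range f) :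
    ∃ F : Crv π ℂ, IsVeryFree F := by
  classical
  have hlft : LocallyOfFiniteType π := by
    have : Smooth π := SmoothOfRelativeDimension.smooth n π
    infer_instance
  -- two different points
  have hV : ∃ p q : V, p ≠ q := by
    obtain ⟨W, W', P, hP, hPc⟩ := exists_pair (n := n) O hO
    obtain ⟨c, hc, -⟩ := exists_indep_complex (ι := Fin n ⊕ Fin n)
      (P.support.image fun m => P.coeff m)
    obtain ⟨x, y, -, -, z, hz, hz', -, -⟩ := hPc c (hc P hP fun m => by
      by_cases hm : m ∈ P.support
      · exact Or.inl (Finset.mem_image.2 ⟨m, hm, rfl⟩)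
      · exact Or.inr (MvPolynomial.notMem_support_iff.1 hm))
    obtain ⟨f, -, ⟨p, q, hpq⟩, -⟩ := h z hz hz'
    exact ⟨f p, f q, hpq⟩
  obtain ⟨O', hO'O, hO', hdiag⟩ := off_diag O hO hV
  obtain ⟨W, W', P, hP, hPc⟩ := exists_pair (n := n) O' hO'
  obtain ⟨ι, _, Wf, hcov⟩ := exists_finite_cover (π := π)
  obtain ⟨C, hC⟩ := exists_twFam (u6fam W.toChart W'.toChart Wf)
    (u6Z W.toChart W'.toChart Wf (Finset.univ.image W.z) (Finset.univ.image W'.z))
  obtain ⟨c, hc, hD⟩ := exists_indep_complex (ι := Fin n ⊕ Fin n)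
    (C ∪ P.support.image fun m => P.coeff m)
  obtain ⟨x, y, hx, hy, z, hz, hz', hz1, hz2⟩ := hPc c (hc P hP fun m => by
    by_cases hm : m ∈ P.support
    · exact Or.inl (Finset.mem_union_right _ (Finset.mem_image.2 ⟨m, hm, rfl⟩))
    · exact Or.inr (MvPolynomial.notMem_support_iff.1 hm))
  obtain ⟨f, hf, -, hf1, hf2⟩ := h z (hO'O hz) hz'
  have hne : W.pt.map x ≠ W'.pt.map y := by
    intro he
    apply hdiag z hz hz'
    rw [hz1, hz2, he]
  rw [hz1] at hf1
  rw [hz2] at hf2
  obtain ⟨F, hF0, hF1⟩ := exists_param f hf (W.pt.map x) (W'.pt.map y) hne hf1 hf2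
  refine ⟨F, fun τ hτ => ?_⟩
  -- the tangent vector in the chart
  obtain ⟨φ, hφ, hφx⟩ : ∃ φ : W.B →ₐ[ℂ] DualNumber ℂ, τ = W.pt.map φ ∧
      (dfst ℂ ℂ).comp φ = x := by
    refine W.toChart.factor_local (dfst ℂ ℂ) ⟨fun a ha => ?_⟩ τ x (hτ.trans hF0)
    exact TrivSqZeroExt.isUnit_iff_isUnit_fst.2 ha
  obtain ⟨D, hD1, hD2⟩ := hD (Sum.elim (fun j => (φ (W.z j)).snd) fun _ => 0)
  obtain ⟨T, hT⟩ := hC D fun c hc => hD1 c (Finset.mem_union_left _ hc)
  obtain ⟨G, hG, hG0, hG1⟩ := exists_tw_curve (W := u6fam W.toChart W'.toChart Wf)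
    (fun v => by
      obtain ⟨i, hi⟩ := hcov v
      exact ⟨some (some i), hi⟩) T F
  refine ⟨G, hG, ?_, ?_⟩
  · rw [hG0 none x hF0, hφ]
    congr 1
    refine (etale_dual W.z W.et x fun j => (φ (W.z j)).snd).unique ⟨fun b => ?_, fun j => ?_⟩
      ⟨fun b => ?_, fun j => rfl⟩
    · exact tw_fst x (T.d none) (T.hd none) D (ext_self D) b
    · have h1 : T.d none (W.z j) = 0 := hT none _ (Finset.mem_image_of_mem W.z (Finset.mem_univ j))
      refine (tw_snd x (T.d none) (T.hd none) D (ext_self D) (W.z j)).trans ?_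
      refine (congrArg (fun a : W.B => D (x (W.z j)) - x a) h1).trans ?_
      show D (x (W.z j)) - x 0 = _
      rw [map_zero, sub_zero, hx, hD2]
      rfl
    · exact congr($hφx b)
  · rw [hG1 (some none) y hF1, hF1, Pt.map_map]
    show W'.pt.map _ = _
    congr 1
    refine (etale_dual W'.z W'.et y fun _ => 0).unique ⟨fun b => ?_, fun j => ?_⟩
      ⟨fun b => ?_, fun j => ?_⟩
    · exact tw_fst y (T.d (some none)) (T.hd (some none)) D (ext_self D) b
    · have h1 : T.d (some none) (W'.z j) = 0 :=
        hT (some none) _ (Finset.mem_image_of_mem W'.z (Finset.mem_univ j))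
      refine (tw_snd y (T.d (some none)) (T.hd (some none)) D (ext_self D) (W'.z j)).trans ?_
      refine (congrArg (fun a : W'.B => D (y (W'.z j)) - y a) h1).trans ?_
      show D (y (W'.z j)) - y 0 = _
      rw [map_zero, sub_zero, hy, hD2]
      rfl
    · simp [Algebra.ofId_apply, TrivSqZeroExt.algebraMap_eq_inl']
    · simp [Algebra.ofId_apply, TrivSqZeroExt.algebraMap_eq_inl']

end Pool.Agent.H19VF
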