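import Pool.Agent.H19VF.J1_Loc

/-! # Moving curves by derivations of the ground field (definitions)

Let `D` be a derivation of the field `k` which kills finitely many given elements, over which the
variety `V` is defined. Then each curve in `V` has a first order deformation: `D` moves the
coefficients of the curve. -/

set_option autoImplicit false

open AlgebraicGeometry CategoryTheory Polynomial

universe u

namespace Pool.Agent.H19VF

variable {k : Type u} [Field k] {V : Scheme.{u}} {π : V ⟶ Spec (.of k)}

/-- The derivation `δ` of the `k`-algebra `R` extends the derivation `D` of `k`. -/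
def Ext (D : Derivation ℤ k k) {R : Type u} [CommRing R] [Algebra k R]
    (δ : Derivation ℤ R R) : Prop :=
  ∀ c : k, δ (algebraMap k R c) = algebraMap k R (D c)

/-- The first order deformation `b ↦ f b + ε (δ (f b) - f (d b))` of `f : B → R` given by
derivations `d` of `B` and `δ` of `R` which extend the derivation `D` of `k`. -/
noncomputable def tw {D : Derivation ℤ k k} {B R : Type u} [CommRing B] [Algebra k B] [CommRing R]
    [Algebra k R] (f : B →ₐ[k] R) (d : Derivation ℤ B B) (hd : Ext D d) (δ : Derivation ℤ R R)
    (hδ : Ext D δ) : B →ₐ[k] DualNumber R where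
  toFun b := TrivSqZeroExt.inl (f b) + TrivSqZeroExt.inr (δ (f b) - f (d b))
  map_one' := by ext <;> simp
  map_mul' x y := by
    ext
    · simp
    · simp
      ring
  map_zero' := by ext <;> simp
  map_add' x y := by
    ext
    · simp
    · simp
      ring
  commutes' r := by
    ext
    · simp [TrivSqZeroExt.algebraMap_eq_inl']
    · simp only [AlgHom.commutes, hd r, hδ r, TrivSqZeroExt.snd_add, TrivSqZeroExt.snd_inl,
        TrivSqZeroExt.snd_inr, sub_self, add_zero, TrivSqZeroExt.algebraMap_eq_inl']

@[simp] lemma tw_fst {D : Derivation ℤ k k} {B R : Type u} [CommRing B] [Algebra k B] [CommRing R]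
    [Algebra k R] (f : B →ₐ[k] R) (d : Derivation ℤ B B) (hd : Ext D d) (δ : Derivation ℤ R R)
    (hδ : Ext D δ) (b : B) : (tw f d hd δ hδ b).fst = f b := by simp [tw]

@[simp] lemma tw_snd {D : Derivation ℤ k k} {B R : Type u} [CommRing B] [Algebra k B] [CommRing R]
    [Algebra k R] (f : B →ₐ[k] R) (d : Derivation ℤ B B) (hd : Ext D d) (δ : Derivation ℤ R R)
    (hδ : Ext D δ) (b : B) : (tw f d hd δ hδ b).snd = δ (f b) - f (d b) := by simp [tw]

/-- A family of charts with derivations `d i` of the coordinate rings which extend `D`. They are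
compatible: the deformations of points over fields defined by the charts agree. -/
structure TwFam {V : Scheme.{u}} (π : V ⟶ Spec (.of k)) (D : Derivation ℤ k k) {ι : Type}
    (W : ι → Chart π) where
  d : ∀ i, Derivation ℤ (W i).B (W i).B
  hd : ∀ i, Ext D (d i)
  compat : ∀ i j (K : Type u) [Field K] [Algebra k K] (δ : Derivation ℤ K K) (hδ : Ext D δ)
    (f : (W i).B →ₐ[k] K) (f' : (W j).B →ₐ[k] K), (W i).pt.map f = (W j).pt.map f' →
    (W i).pt.map (tw f (d i) (hd i) δ hδ) = (W j).pt.map (tw f' (d j) (hd j) δ hδ)

/-- `q` is the deformation of the `R`-point `p` given by the derivation `δ` of `R`. -/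
def IsTw {D : Derivation ℤ k k} {ι : Type} {W : ι → Chart π} (T : TwFam π D W) {R : Type u}
    [CommRing R] [Algebra k R] (δ : Derivation ℤ R R) (p : Pt π R) (q : Pt π (DualNumber R)) :
    Prop :=
  q.map (dfst k R) = p ∧ ∀ (K : Type u) [Field K] [Algebra k K] (δK : Derivation ℤ K K)
    (hK : Ext D δK) (φ : R →ₐ[k] K), (∀ r, φ (δ r) = δK (φ r)) →
    ∀ i (f : (W i).B →ₐ[k] K), p.map φ = (W i).pt.map f →
      q.map (dmap φ) = (W i).pt.map (tw f (T.d i) (T.hd i) δK hK)

lemma ext_self (D : Derivation ℤ k k) : Ext D D := fun _ => rfl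

end Pool.Agent.H19VF
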